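import Mathlib

/-!
# Fibonacci representations, most significant digit first

Words over `Bool` without two adjacent `true`s, their Fibonacci values, and the effect of adding a
Fibonacci number.
-/

namespace V11259.FibWord

open Real

/-- The Fibonacci value of a word, most significant digit first: the last digit has weight
`F_2`, the one before it weight `F_3`, and so on. -/
def fibVal : List Bool → ℕ
  | [] => 0
  | d :: w => (if d then Nat.fib (w.length + 2) else 0) + fibVal w

/-- No two adjacent digits are both `1`. -/
def NoAdj (w : List Bool) : Prop := w.IsChain (fun a b => ¬ (a = true ∧ b = true))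

/-- The parity of the number of ones in the Fibonacci representation. -/
def ftm (i : ℕ) : ℕ := (Nat.zeckendorf i).length % 2

/-- The last digit (`false` for the empty word). -/
def lst (w : List Bool) : Bool := w.getLast?.getD false

/-- The first digit (`false` for the empty word). -/
def hd (w : List Bool) : Bool := w.head?.getD false

/-- The value of a word followed by `j` further digits `0`. -/
def sv : List Bool → ℕ → ℕ
  | [], _ => 0
  | d :: w, j => (if d then Nat.fib (w.length + j + 2) else 0) + sv w j

/-- The number of ones. -/
def ones (w : List Bool) : ℕ := w.count true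

lemma sv_zero (w : List Bool) : sv w 0 = fibVal w := by
  induction w with
  | nil => rfl
  | cons d w ih => simp [sv, fibVal, ih]

lemma sv_append (u w : List Bool) (j : ℕ) : sv (u ++ w) j = sv u (w.length + j) + sv w j := by
  induction u with
  | nil => simp [sv]
  | cons d u ih =>
    simp only [List.cons_append, sv, ih, List.length_append]
    have : u.length + w.length + j + 2 = u.length + (w.length + j) + 2 := by ring
    rw [this]
    ring

lemma fibVal_append (u w : List Bool) : fibVal (u ++ w) = sv u w.length + fibVal w := by
  rw [← sv_zero, sv_append, sv_zero, add_zero]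

lemma sv_rec (u : List Bool) (j : ℕ) : sv u (j + 2) = sv u j + sv u (j + 1) := by
  induction u with
  | nil => rfl
  | cons d u ih =>
    simp only [sv, ih]
    have h := Nat.fib_add_two (n := u.length + j + 2)
    have e1 : u.length + (j + 2) + 2 = u.length + j + 2 + 2 := by ring
    have e2 : u.length + (j + 1) + 2 = u.length + j + 2 + 1 := by ring
    rw [e1, e2]
    split_ifs
    · rw [h]; ring
    · ring

lemma noAdj_append (u w : List Bool) :
    NoAdj (u ++ w) ↔ NoAdj u ∧ NoAdj w ∧ ¬ (lst u = true ∧ hd w = true) := by
  unfold NoAdj
  rw [List.isChain_append]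
  have : (∀ x ∈ u.getLast?, ∀ y ∈ w.head?, ¬ (x = true ∧ y = true)) ↔
      ¬ (lst u = true ∧ hd w = true) := by
    unfold lst hd
    cases h1 : u.getLast? <;> cases h2 : w.head? <;> simp
  rw [this]

lemma noAdj_nil : NoAdj [] := by simp [NoAdj]

lemma noAdj_single (d : Bool) : NoAdj [d] := by simp [NoAdj]

lemma noAdj_cons (d : Bool) (w : List Bool) :
    NoAdj (d :: w) ↔ NoAdj w ∧ ¬ (d = true ∧ hd w = true) := by
  have := noAdj_append [d] w
  rw [List.singleton_append] at this
  rw [this]
  simp [noAdj_single, lst]

lemma lst_append (u : List Bool) (d : Bool) : lst (u ++ [d]) = d := by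
  simp [lst]

lemma lst_append' (u w : List Bool) (hw : w ≠ []) : lst (u ++ w) = lst w := by
  unfold lst
  rw [List.getLast?_append]
  cases h : w.getLast? with
  | none => exact absurd (List.getLast?_eq_none_iff.1 h) hw
  | some x => simp

lemma hd_append (u w : List Bool) (hu : u ≠ []) : hd (u ++ w) = hd u := by
  unfold hd
  rw [List.head?_append]
  cases h : u.head? with
  | none => exact absurd (List.head?_eq_none_iff.1 h) hu
  | some x => simp

lemma fibVal_lt {w : List Bool} (hw : NoAdj w) :
    fibVal w < Nat.fib (w.length + 2) ∧ (hd w = false → fibVal w < Nat.fib (w.length + 1)) := by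
  induction w with
  | nil => simp [fibVal]
  | cons d w ih =>
    rw [noAdj_cons] at hw
    obtain ⟨h1, h2⟩ := ih hw.1
    simp only [fibVal, List.length_cons]
    have h3 : Nat.fib (w.length + 1 + 2) = Nat.fib (w.length + 1) + Nat.fib (w.length + 2) :=
      Nat.fib_add_two
    cases d with
    | true =>
      have h4 : hd w = false := by
        cases h : hd w
        · rfl
        · exact absurd ⟨rfl, h⟩ hw.2
      have h5 := h2 h4
      constructor
      · simp only [if_true]; omega
      · intro h; simp [hd] at h
    | false =>
      have e : w.length + 1 + 1 = w.length + 2 := rfl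
      constructor
      · simp only [Bool.false_eq_true, if_false]; omega
      · intro _
        rw [e]
        simp only [Bool.false_eq_true, if_false]; omega

lemma exists_word (L : ℕ) : ∀ s, s < Nat.fib (L + 2) → ∃ w, NoAdj w ∧ w.length = L ∧
    fibVal w = s ∧ (s < Nat.fib (L + 1) → hd w = false) := by
  induction L with
  | zero =>
    intro s hs
    have h0 : s = 0 := by
      have : Nat.fib (0 + 2) = 1 := rfl
      omega
    exact ⟨[], noAdj_nil, rfl, h0.symm, fun _ => rfl⟩
  | succ L ih =>
    intro s hs
    have h3 : Nat.fib (L + 1 + 2) = Nat.fib (L + 1) + Nat.fib (L + 2) := Nat.fib_add_two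
    have h4 : Nat.fib (L + 1) ≤ Nat.fib (L + 2) := Nat.fib_le_fib_succ
    by_cases h : s < Nat.fib (L + 2)
    · obtain ⟨w, h1, h2, h5, _⟩ := ih s h
      refine ⟨false :: w, ?_, by simp [h2], by simp [fibVal, h5], fun _ => rfl⟩
      rw [noAdj_cons]
      exact ⟨h1, by simp⟩
    · obtain ⟨w, h1, h2, h5, h6⟩ := ih (s - Nat.fib (L + 2)) (by omega)
      have h7 := h6 (by omega)
      refine ⟨true :: w, ?_, by simp [h2], ?_, fun h8 => absurd h8 (by
        have e : L + 1 + 1 = L + 2 := rfl
        rw [e]; omega)⟩
      · rw [noAdj_cons]
        exact ⟨h1, by simp [h7]⟩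
      · simp only [fibVal, if_true, h2, h5]
        omega

/-- The indices of the Fibonacci numbers of a word. -/
def idx : List Bool → List ℕ
  | [] => []
  | d :: w => if d then (w.length + 2) :: idx w else idx w

lemma idx_head (w : List Bool) : ∀ a ∈ (idx w ++ [0]).head?, a < w.length + 2 := by
  induction w with
  | nil => intro a ha; simp [idx] at ha; subst ha; simp
  | cons d w ih =>
    intro a ha
    cases d with
    | true => simp [idx] at ha; subst ha; simp
    | false =>
      simp only [idx, Bool.false_eq_true, if_false] at ha
      have := ih a ha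
      simp only [List.length_cons]
      omega

lemma idx_head' (w : List Bool) (hw : hd w = false) :
    ∀ a ∈ (idx w ++ [0]).head?, a < w.length + 1 := by
  cases w with
  | nil => intro a ha; simp [idx] at ha; subst ha; simp
  | cons d w =>
    have hd' : d = false := by simpa [hd] using hw
    subst hd'
    intro a ha
    simp only [idx, Bool.false_eq_true, if_false] at ha
    have := idx_head w a ha
    simp only [List.length_cons]
    omega

lemma idx_rep {w : List Bool} (hw : NoAdj w) : (idx w).IsZeckendorfRep := by
  induction w with
  | nil => simp [idx]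
  | cons d w ih =>
    rw [noAdj_cons] at hw
    have h1 := ih hw.1
    cases d with
    | false => simpa [idx] using h1
    | true =>
      have h4 : hd w = false := by
        cases h : hd w
        · rfl
        · exact absurd ⟨rfl, h⟩ hw.2
      simp only [idx, if_true]
      unfold List.IsZeckendorfRep at h1 ⊢
      rw [List.cons_append]
      refine h1.cons (fun a ha => ?_)
      have := idx_head' w h4 a ha
      omega

lemma idx_sum (w : List Bool) : ((idx w).map Nat.fib).sum = fibVal w := by
  induction w with
  | nil => rfl
  | cons d w ih => cases d <;> simp [idx, fibVal, ih]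

lemma idx_length (w : List Bool) : (idx w).length = ones w := by
  induction w with
  | nil => rfl
  | cons d w ih => cases d <;> simp [idx, ones] at ih ⊢ <;> exact ih

lemma ftm_fibVal {w : List Bool} (hw : NoAdj w) : ftm (fibVal w) = ones w % 2 := by
  unfold ftm
  rw [← idx_sum, Nat.zeckendorf_sum_fib (idx_rep hw), idx_length]

lemma ones_append (u w : List Bool) : ones (u ++ w) = ones u + ones w := by
  simp [ones]

lemma ftm_lt (i : ℕ) : ftm i < 2 := Nat.mod_lt _ (by norm_num)

/-! ### Conjugates -/

/-- The conjugate of a word. -/
noncomputable def err : List Bool → ℝ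
  | [] => 0
  | d :: w => (if d then goldenConj ^ (w.length + 2) else 0) + err w

lemma sv_err (w : List Bool) (j : ℕ) :
    (sv w (j + 1) : ℝ) - goldenRatio * sv w j = goldenConj ^ j * err w := by
  induction w with
  | nil => simp [sv, err]
  | cons d w ih =>
    simp only [sv, err]
    cases d with
    | false => simpa using ih
    | true =>
      simp only [if_true]
      push_cast
      have h := fib_succ_sub_goldenRatio_mul_fib (w.length + j + 2)
      have e : w.length + (j + 1) + 2 = w.length + j + 2 + 1 := by ring
      rw [e]
      have h2 : goldenConj ^ (w.length + j + 2) = goldenConj ^ j * goldenConj ^ (w.length + 2) := by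
        rw [← pow_add]; congr 1; ring
      rw [h2] at h
      linear_combination h + ih

lemma err_append (u : List Bool) (d : Bool) :
    err (u ++ [d]) = goldenConj * err u + (if d then goldenConj ^ 2 else 0) := by
  induction u with
  | nil => simp [err]
  | cons e u ih =>
    simp only [List.cons_append, err, ih, List.length_append, List.length_singleton]
    cases e with
    | false => simp
    | true =>
      simp only [if_true]
      ring

/-- Bounds for the conjugate of a valid word. -/
lemma err_bounds {w : List Bool} (hw : NoAdj w) :
    -(goldenConj ^ 2) < err w ∧ err w < -goldenConj ∧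
      (lst w = false → err w < -(goldenConj ^ 3)) ∧
      (lst w = true → -(goldenConj ^ 3) < err w) := by
  have hneg := goldenConj_neg
  have hsq := goldenConj_sq
  have hgt := neg_one_lt_goldenConj
  have h3 : goldenConj ^ 3 = 2 * goldenConj + 1 := by
    have : goldenConj ^ 3 = goldenConj * goldenConj ^ 2 := by ring
    rw [this, hsq]
    linear_combination hsq
  have h3neg : goldenConj ^ 3 < 0 := by
    have : goldenConj ^ 3 = goldenConj * goldenConj ^ 2 := by ring
    rw [this]
    exact mul_neg_of_neg_of_pos hneg (by rw [hsq]; linarith)
  induction w using List.reverseRecOn with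
  | nil =>
    simp only [err, lst, List.getLast?_nil, Option.getD_none]
    refine ⟨by rw [hsq]; linarith, by linarith, fun _ => by linarith, fun h => by simp at h⟩
  | append_singleton u d ih =>
    rw [noAdj_append] at hw
    obtain ⟨h1, h2, h4, h5⟩ := ih hw.1
    rw [err_append, lst_append]
    cases d with
    | false =>
      simp only [Bool.false_eq_true, if_false, add_zero, false_implies, and_true]
      have a1 : goldenConj * err u < -(goldenConj ^ 3) := by
        have : goldenConj * err u < goldenConj * (-(goldenConj ^ 2)) :=
          mul_lt_mul_of_neg_left h1 hneg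
        calc goldenConj * err u < goldenConj * (-(goldenConj ^ 2)) := this
          _ = -(goldenConj ^ 3) := by ring
      have a2 : -(goldenConj ^ 2) < goldenConj * err u := by
        have : goldenConj * (-goldenConj) < goldenConj * err u :=
          mul_lt_mul_of_neg_left h2 hneg
        calc -(goldenConj ^ 2) = goldenConj * (-goldenConj) := by ring
          _ < _ := this
      refine ⟨a2, ?_, fun _ => a1⟩
      rw [h3] at a1
      linarith
    | true =>
      simp only [if_true, Bool.true_eq_false, false_implies, true_and]
      have hl : lst u = false := by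
        cases h : lst u
        · rfl
        · exact absurd ⟨h, rfl⟩ hw.2.2
      have h6 := h4 hl
      have a1 : goldenConj * err u < -(goldenConj ^ 3) := by
        have : goldenConj * err u < goldenConj * (-(goldenConj ^ 2)) :=
          mul_lt_mul_of_neg_left h1 hneg
        calc goldenConj * err u < goldenConj * (-(goldenConj ^ 2)) := this
          _ = -(goldenConj ^ 3) := by ring
      have a2 : -(goldenConj ^ 4) < goldenConj * err u := by
        have : goldenConj * (-(goldenConj ^ 3)) < goldenConj * err u :=
          mul_lt_mul_of_neg_left h6 hneg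
        calc -(goldenConj ^ 4) = goldenConj * (-(goldenConj ^ 3)) := by ring
          _ < _ := this
      have h44 : goldenConj ^ 4 = 3 * goldenConj + 2 := by
        have : goldenConj ^ 4 = (goldenConj ^ 2) ^ 2 := by ring
        rw [this, hsq]
        linear_combination hsq
      rw [h44] at a2
      rw [h3] at a1 ⊢
      rw [hsq]
      refine ⟨by linarith, by linarith, fun _ => by linarith⟩

/-- If the shift of a sum is right at the first two places then it is right everywhere. -/
lemma sv_add_eq (u w : List Bool) (k : ℕ) (h0 : sv w 0 = sv u 0 + Nat.fib k)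
    (h1 : sv w 1 = sv u 1 + Nat.fib (k + 1)) (j : ℕ) : sv w j = sv u j + Nat.fib (k + j) := by
  have h : ∀ j, sv w j = sv u j + Nat.fib (k + j) ∧ sv w (j + 1) = sv u (j + 1) +
      Nat.fib (k + (j + 1)) := by
    intro j
    induction j with
    | zero => exact ⟨h0, h1⟩
    | succ j ih =>
      refine ⟨ih.2, ?_⟩
      have e : k + (j + 1 + 1) = k + j + 2 := by ring
      rw [e, Nat.fib_add_two, show j + 1 + 1 = j + 2 from rfl, sv_rec, sv_rec, ih.1, ih.2]
      have e2 : k + (j + 1) = k + j + 1 := by ring
      rw [e2]
      ring
  exact (h j).1

/-- If the conjugates are close then the shift of a sum is right everywhere. -/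
lemma sv_add_of_err {u w : List Bool} {k : ℕ} (h0 : fibVal w = fibVal u + Nat.fib k)
    (h1 : -1 < err w - err u - goldenConj ^ k) (h2 : err w - err u - goldenConj ^ k < 1) (j : ℕ) :
    sv w j = sv u j + Nat.fib (k + j) := by
  apply sv_add_eq
  · rw [sv_zero, sv_zero, h0]
  · have e1 := sv_err w 0
    have e2 := sv_err u 0
    have e3 := fib_succ_sub_goldenRatio_mul_fib k
    rw [sv_zero] at e1 e2
    simp only [zero_add, pow_zero, one_mul] at e1 e2
    have h0' : (fibVal w : ℝ) = fibVal u + Nat.fib k := by exact_mod_cast h0
    have key : ((sv w 1 : ℤ) - sv u 1 - Nat.fib (k + 1) : ℤ) = 0 := by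
      have hr : (((sv w 1 : ℤ) - sv u 1 - Nat.fib (k + 1) : ℤ) : ℝ) =
          err w - err u - goldenConj ^ k := by
        push_cast
        linear_combination e1 - e2 - e3 + goldenRatio * h0'
      have a1 : (((sv w 1 : ℤ) - sv u 1 - Nat.fib (k + 1) : ℤ) : ℝ) < 1 := by rw [hr]; exact h2
      have a2 : (-1 : ℝ) < (((sv w 1 : ℤ) - sv u 1 - Nat.fib (k + 1) : ℤ) : ℝ) := by
        rw [hr]; exact h1
      have a3 : ((sv w 1 : ℤ) - sv u 1 - Nat.fib (k + 1) : ℤ) < 1 := by exact_mod_cast a1
      have a4 : -1 < ((sv w 1 : ℤ) - sv u 1 - Nat.fib (k + 1) : ℤ) := by exact_mod_cast a2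
      omega
    omega

end V11259.FibWord
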