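import Mathlib
import Pool.Agent.V11259.FibWord

/-!
# Few residuals for the Fibonacci-Thue-Morse sequence shifted by a Fibonacci number
-/

namespace V11259.FibWord

open Real

/-- The first synonym. -/
def wU : List Bool :=
  [false, false, false, true, false, false, true, false, true, false, true, false, false, false]

/-- The second synonym. -/
def wV : List Bool :=
  [false, false, false, true, false, true, false, true, false, false, true, false, false, false]

/-- Adding a Fibonacci number at the left of two zeros. -/
lemma add_left {p w : List Bool} (hp : NoAdj p) (hw : NoAdj w) {k : ℕ} (hk : 3 ≤ k)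
    (h : fibVal w = fibVal (p ++ [false, false]) + Nat.fib k) (j : ℕ) :
    sv w j = sv (p ++ [false, false]) j + Nat.fib (k + j) := by
  have hneg := goldenConj_neg
  have hsq := goldenConj_sq
  have hgt := neg_one_lt_goldenConj
  obtain ⟨b1, b2, _, _⟩ := err_bounds hp
  obtain ⟨c1, c2, _, _⟩ := err_bounds hw
  have e1 : err (p ++ [false, false]) = goldenConj ^ 2 * err p := by
    have : p ++ [false, false] = (p ++ [false]) ++ [false] := by simp
    rw [this, err_append, err_append]
    simp only [Bool.false_eq_true, if_false]
    ring
  have h3 : goldenConj ^ 3 = 2 * goldenConj + 1 := by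
    have : goldenConj ^ 3 = goldenConj * goldenConj ^ 2 := by ring
    rw [this, hsq]
    linear_combination hsq
  have h4 : goldenConj ^ 4 = 3 * goldenConj + 2 := by
    have : goldenConj ^ 4 = (goldenConj ^ 2) ^ 2 := by ring
    rw [this, hsq]
    linear_combination hsq
  have hsqpos : 0 < goldenConj ^ 2 := by rw [hsq]; linarith
  -- bounds for the power
  have hpow : goldenConj ^ 3 ≤ goldenConj ^ k ∧ goldenConj ^ k ≤ goldenConj ^ 4 := by
    have habs : ∀ n, |goldenConj ^ n| = |goldenConj| ^ n := fun n => abs_pow _ _
    have hab : |goldenConj| < 1 := by rw [abs_of_neg hneg]; linarith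
    have hab0 : 0 ≤ |goldenConj| := abs_nonneg _
    have h3n : goldenConj ^ 3 < 0 := by
      have : goldenConj ^ 3 = goldenConj * goldenConj ^ 2 := by ring
      rw [this]
      exact mul_neg_of_neg_of_pos hneg hsqpos
    have h4p : 0 < goldenConj ^ 4 := by
      have : goldenConj ^ 4 = goldenConj ^ 2 * goldenConj ^ 2 := by ring
      rw [this]
      positivity
    rcases Nat.lt_or_ge k 4 with h | h
    · have : k = 3 := by omega
      subst this
      exact ⟨le_refl _, by linarith⟩
    · have h5 : |goldenConj ^ k| ≤ goldenConj ^ 4 := by
        rw [habs, ← abs_of_pos h4p, habs]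
        exact pow_le_pow_of_le_one hab0 hab.le h
      have h6 := abs_le.1 h5
      refine ⟨?_, h6.2⟩
      have h7 : goldenConj ^ 3 ≤ -(goldenConj ^ 4) := by
        rw [h3, h4]
        nlinarith
      linarith [h6.1]
  have d1 : goldenConj ^ 2 * (-(goldenConj ^ 2)) < goldenConj ^ 2 * err p :=
    mul_lt_mul_of_pos_left b1 hsqpos
  have d2 : goldenConj ^ 2 * err p < goldenConj ^ 2 * (-goldenConj) :=
    mul_lt_mul_of_pos_left b2 hsqpos
  have d1' : -(3 * goldenConj + 2) < goldenConj ^ 2 * err p := by
    have : goldenConj ^ 2 * (-(goldenConj ^ 2)) = -(goldenConj ^ 4) := by ring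
    rw [this, h4] at d1
    exact d1
  have d2' : goldenConj ^ 2 * err p < -(2 * goldenConj + 1) := by
    have : goldenConj ^ 2 * (-goldenConj) = -(goldenConj ^ 3) := by ring
    rw [this, h3] at d2
    exact d2
  obtain ⟨p1, p2⟩ := hpow
  rw [h3] at p1
  rw [h4] at p2
  rw [hsq] at c1
  have hr : (-0.62 : ℝ) < goldenConj ∧ goldenConj < -0.61 := by
    constructor
    · nlinarith
    · nlinarith
  apply sv_add_of_err h
  · rw [e1]; linarith [hr.1, hr.2]
  · rw [e1]; linarith [hr.1, hr.2]

/-- The successor of a word. -/
lemma add_one {p w : List Bool} (hp : NoAdj p) (hw : NoAdj w)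
    (h : fibVal w = fibVal p + 1) (j : ℕ) :
    sv w j = sv p j + Nat.fib ((if lst p then 1 else 2) + j) := by
  have hneg := goldenConj_neg
  have hsq := goldenConj_sq
  have hgt := neg_one_lt_goldenConj
  obtain ⟨b1, b2, b3, b4⟩ := err_bounds hp
  obtain ⟨c1, c2, _, _⟩ := err_bounds hw
  have h3 : goldenConj ^ 3 = 2 * goldenConj + 1 := by
    have : goldenConj ^ 3 = goldenConj * goldenConj ^ 2 := by ring
    rw [this, hsq]
    linear_combination hsq
  rw [hsq] at b1 c1
  cases hl : lst p with
  | false =>
    have := b3 hl
    simp only [Bool.false_eq_true, if_false]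
    rw [h3] at this
    apply sv_add_of_err (k := 2) (by rw [h]; rfl)
    · rw [hsq]; linarith
    · rw [hsq]; linarith
  | true =>
    have := b4 hl
    simp only [if_true]
    rw [h3] at this
    apply sv_add_of_err (k := 1) (by rw [h]; rfl)
    · rw [pow_one]; linarith
    · rw [pow_one]; linarith

/-! ### The two synonyms -/

lemma noAdj_mid {p z : List Bool} (c : List Bool) (hc : NoAdj c) (h1 : hd c = false)
    (h2 : lst c = false) (h3 : c ≠ []) : NoAdj (p ++ c ++ z) ↔ NoAdj p ∧ NoAdj z := by
  rw [noAdj_append, noAdj_append, lst_append' _ _ h3, h2, h1]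
  simp [hc]

lemma noAdj_dec (w : List Bool) : NoAdj w ↔ w.IsChain (fun a b => ¬ (a = true ∧ b = true)) :=
  Iff.rfl

instance (w : List Bool) : Decidable (NoAdj w) := by
  unfold NoAdj
  infer_instance

/-- The words that replace the synonyms when a Fibonacci number is added in the middle. -/
def tU : ℕ → List Bool
  | 1 => [false,false,false,true,false,false,true,false,true,false,true,false,true,false]
  | 2 => [false,false,false,true,false,true,false,false,false,false,false,false,false,false]
  | 3 => [false,false,false,true,false,true,false,false,false,false,false,false,true,false]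
  | 4 => [false,false,false,true,false,true,false,false,false,false,true,false,false,false]
  | 5 => [false,false,false,true,false,true,false,false,false,true,false,false,true,false]
  | 6 => [false,false,false,true,false,true,false,false,true,false,true,false,false,false]
  | 7 => [false,false,false,true,false,true,false,true,false,true,false,false,true,false]
  | 8 => [false,false,true,false,false,false,false,false,true,false,true,false,false,false]
  | 9 => [false,false,true,false,false,false,true,false,true,false,true,false,false,false]
  | 10 => [false,false,true,false,true,false,false,false,true,false,true,false,false,false]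
  | 11 => [false,true,false,false,false,false,true,false,true,false,true,false,false,false]
  | _ => [false,true,false,true,false,false,true,false,true,false,true,false,false,false]

/-- The words that replace the synonyms when a Fibonacci number is added in the middle. -/
def tV : ℕ → List Bool
  | 1 => [false,false,false,true,false,true,false,true,false,false,true,false,true,false]
  | 2 => [false,false,false,true,false,true,false,true,false,true,false,false,false,false]
  | 3 => [false,false,false,true,false,true,false,true,false,true,false,false,true,false]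
  | 4 => [false,false,true,false,false,false,false,false,false,false,false,false,false,false]
  | 5 => [false,false,true,false,false,false,false,false,false,false,true,false,false,false]
  | 6 => [false,false,true,false,false,false,false,false,true,false,false,false,false,false]
  | 7 => [false,false,true,false,false,false,false,true,false,false,true,false,false,false]
  | 8 => [false,false,true,false,false,false,true,false,true,false,false,false,false,false]
  | 9 => [false,false,true,false,false,true,false,true,false,false,true,false,false,false]
  | 10 => [false,false,true,false,true,false,true,false,true,false,false,false,false,false]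
  | 11 => [false,true,false,false,false,true,false,true,false,false,true,false,false,false]
  | _ => [false,true,false,true,false,true,false,true,false,false,true,false,false,false]

lemma table : ∀ j : Fin 13, 1 ≤ j.val →
    (NoAdj (tU j) ∧ NoAdj (tV j) ∧ hd (tU j) = false ∧ hd (tV j) = false ∧
      lst (tU j) = false ∧ lst (tV j) = false ∧ ones (tU j) % 2 = ones (tV j) % 2) ∧
    (sv (tU j) 0 = sv wU 0 + Nat.fib (j + 2) ∧ sv (tU j) 1 = sv wU 1 + Nat.fib (j + 2 + 1)) ∧
    (sv (tV j) 0 = sv wV 0 + Nat.fib (j + 2) ∧ sv (tV j) 1 = sv wV 1 + Nat.fib (j + 2 + 1)) := by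
  decide

lemma exists_rep (s : ℕ) : ∃ w, NoAdj w ∧ fibVal w = s := by
  have h : s < Nat.fib (s + 1 + 2) := by
    have := Nat.le_fib_add_one (s + 1 + 2)
    omega
  obtain ⟨w, h1, _, h2, _⟩ := exists_word (s + 1) s h
  exact ⟨w, h1, h2⟩

lemma ftm_mid {p z c : List Bool} (hp : NoAdj p) (hz : NoAdj z) (hc : NoAdj c)
    (h1 : hd c = false) (h2 : lst c = false) (h3 : c ≠ []) :
    ftm (fibVal (p ++ c ++ z)) = (ones p + ones c + ones z) % 2 := by
  rw [ftm_fibVal ((noAdj_mid c hc h1 h2 h3).2 ⟨hp, hz⟩), ones_append, ones_append]

/-- The two synonyms cannot be told apart after adding a Fibonacci number. -/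
theorem syn {p z : List Bool} (hp : NoAdj p) (hz : NoAdj z) {k : ℕ} (hk : 2 ≤ k) :
    ftm (fibVal (p ++ wU ++ z) + Nat.fib k) = ftm (fibVal (p ++ wV ++ z) + Nat.fib k) := by
  rcases le_or_gt k (z.length + 2) with hA | hA
  · -- the Fibonacci number is added on the right
    have hs : fibVal z + Nat.fib k < Nat.fib (z.length + 2 + 2) := by
      have h1 := (fibVal_lt hz).1
      have h2 : Nat.fib k ≤ Nat.fib (z.length + 2) := Nat.fib_mono hA
      have h3 : Nat.fib (z.length + 2) ≤ Nat.fib (z.length + 2 + 1) := Nat.fib_le_fib_succ
      have h4 : Nat.fib (z.length + 2 + 2) = Nat.fib (z.length + 2) + Nat.fib (z.length + 2 + 1) :=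
        Nat.fib_add_two
      omega
    obtain ⟨z', g1, g2, g3, _⟩ := exists_word _ _ hs
    have key : ∀ c1 : List Bool, fibVal (p ++ (c1 ++ [false, false]) ++ z) + Nat.fib k =
        fibVal (p ++ c1 ++ z') := by
      intro c1
      rw [fibVal_append (p ++ (c1 ++ [false, false])) z, fibVal_append (p ++ c1) z', sv_append,
        sv_append, sv_append, g2, g3]
      have e1 : (c1 ++ [false, false]).length + z.length = c1.length + (z.length + 2) := by
        simp; ring
      have e2 : [false, false].length + z.length = z.length + 2 := by simp; ring
      have e3 : sv [false, false] z.length = 0 := by simp [sv]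
      rw [e1, e2, e3]
      ring
    have hU : wU = [false, false, false, true, false, false, true, false, true, false, true,
      false] ++ [false, false] := rfl
    have hV : wV = [false, false, false, true, false, true, false, true, false, false, true,
      false] ++ [false, false] := rfl
    rw [hU, hV, key, key, ftm_mid hp g1 (by decide) (by decide) (by decide) (by decide),
      ftm_mid hp g1 (by decide) (by decide) (by decide) (by decide)]
    rfl
  · rcases le_or_gt (z.length + 15) k with hB | hB
    · -- the Fibonacci number is added on the left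
      obtain ⟨w, g1, g2⟩ := exists_rep (fibVal (p ++ [false, false]) +
        Nat.fib (k - (z.length + 12)))
      have g3 := add_left hp g1 (by omega) g2
      have key : ∀ c2 : List Bool, c2.length = 12 →
          fibVal (p ++ ([false, false] ++ c2) ++ z) + Nat.fib k = fibVal (w ++ c2 ++ z) := by
        intro c2 hc2
        have e1 : p ++ ([false, false] ++ c2) ++ z = (p ++ [false, false]) ++ (c2 ++ z) := by
          simp
        have e2 : w ++ c2 ++ z = w ++ (c2 ++ z) := by simp
        rw [e1, e2, fibVal_append, fibVal_append w, g3]
        have e3 : k - (z.length + 12) + (c2 ++ z).length = k := by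
          rw [List.length_append, hc2]
          omega
        rw [e3]
        ring
      have hU : wU = [false, false] ++ [false, true, false, false, true, false, true, false, true,
        false, false, false] := rfl
      have hV : wV = [false, false] ++ [false, true, false, true, false, true, false, false, true,
        false, false, false] := rfl
      rw [hU, hV, key _ rfl, key _ rfl, ftm_mid g1 hz (by decide) (by decide) (by decide)
        (by decide), ftm_mid g1 hz (by decide) (by decide) (by decide) (by decide)]
      rfl
    · -- the Fibonacci number is added in the middle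
      obtain ⟨j, hj1, hj2, rfl⟩ : ∃ j, 1 ≤ j ∧ j < 13 ∧ k = j + 2 + z.length :=
        ⟨k - (z.length + 2), by omega, by omega, by omega⟩
      obtain ⟨⟨a1, a2, a3, a4, a5, a6, a7⟩, ⟨b1, b2⟩, c1, c2⟩ := table ⟨j, hj2⟩ hj1
      simp only at a1 a2 a3 a4 a5 a6 a7 b1 b2 c1 c2
      have key : ∀ c d : List Bool, d.length = c.length → sv d 0 = sv c 0 + Nat.fib (j + 2) →
          sv d 1 = sv c 1 + Nat.fib (j + 2 + 1) →
          fibVal (p ++ c ++ z) + Nat.fib (j + 2 + z.length) = fibVal (p ++ d ++ z) := by
        intro c d hl h0 h1
        have h2 := sv_add_eq c d (j + 2) h0 h1 z.length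
        rw [fibVal_append (p ++ c), fibVal_append (p ++ d), sv_append, sv_append, h2, hl]
        ring
      have hlen : ∀ j : Fin 13, (tU j).length = 14 ∧ (tV j).length = 14 := by decide
      have hl := hlen ⟨j, hj2⟩
      simp only at hl
      rw [key wU (tU j) hl.1 b1 b2, key wV (tV j) hl.2 c1 c2,
        ftm_mid hp hz a1 a3 a5 (by intro h; rw [h] at hl; simp at hl),
        ftm_mid hp hz a2 a4 a6 (by intro h; rw [h] at hl; simp at hl)]
      omega

/-! ### Saturation -/

/-- The value after reading `p`, `c` and `y` depends only on `c`, on the last digit of `p` and on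
the values at `fibVal p` and `fibVal p + 1`. -/
theorem saturation {p x : List Bool} (hx : NoAdj (p ++ x)) {k : ℕ} (hk : k ≤ x.length) :
    ftm (fibVal (p ++ x) + Nat.fib k) =
      if fibVal x + Nat.fib k < Nat.fib ((if lst p then 1 else 2) + x.length) then
        (ftm (fibVal p) + ftm (fibVal x + Nat.fib k)) % 2
      else (ftm (fibVal p + 1) +
        ftm (fibVal x + Nat.fib k - Nat.fib ((if lst p then 1 else 2) + x.length))) % 2 := by
  rw [noAdj_append] at hx
  obtain ⟨hp, hx, hadj⟩ := hx
  have e1 : Nat.fib (x.length + 2) = Nat.fib x.length + Nat.fib (x.length + 1) := Nat.fib_add_two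
  have hle : Nat.fib x.length ≤ Nat.fib (x.length + 1) := Nat.fib_le_fib_succ
  have hkk : Nat.fib k ≤ Nat.fib x.length := Nat.fib_mono hk
  have hb : fibVal x < Nat.fib ((if lst p then 1 else 2) + x.length) := by
    cases hl : lst p with
    | false =>
      simp only [Bool.false_eq_true, if_false]
      rw [add_comm]
      exact (fibVal_lt hx).1
    | true =>
      simp only [if_true]
      rw [add_comm]
      apply (fibVal_lt hx).2
      cases h : hd x
      · rfl
      · exact absurd ⟨hl, h⟩ hadj
  have hthr : Nat.fib ((if lst p then 1 else 2) + x.length) ≤ Nat.fib (x.length + 2) := by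
    apply Nat.fib_mono
    split_ifs <;> omega
  have hthr' : lst p = true → Nat.fib ((if lst p then 1 else 2) + x.length) =
      Nat.fib (x.length + 1) := by
    intro h
    rw [h, add_comm]
    rfl
  obtain ⟨w, w1, w2⟩ := exists_rep (fibVal p + 1)
  have w3 := add_one hp w1 w2 x.length
  generalize Nat.fib ((if lst p then 1 else 2) + x.length) = θ at *
  by_cases h : fibVal x + Nat.fib k < θ
  · rw [if_pos h]
    obtain ⟨z, g1, g2, g3, g4⟩ := exists_word x.length (fibVal x + Nat.fib k) (by omega)
    have e : fibVal (p ++ x) + Nat.fib k = fibVal (p ++ z) := by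
      rw [fibVal_append, fibVal_append, g2, g3]; ring
    have hv : NoAdj (p ++ z) := by
      rw [noAdj_append]
      refine ⟨hp, g1, ?_⟩
      rintro ⟨h1, h2⟩
      have h3 := hthr' h1
      rw [g4 (by omega)] at h2
      exact absurd h2 (by simp)
    rw [e, ftm_fibVal hv, ftm_fibVal hp, ← g3, ftm_fibVal g1, ones_append]
    omega
  · rw [if_neg h]
    obtain ⟨z, g1, g2, g3, g4⟩ := exists_word x.length
      (fibVal x + Nat.fib k - θ) (by omega)
    have g5 : hd z = false := by
      apply g4
      by_cases hl : lst p = true
      · have := hthr' hl
        have := (fibVal_lt hx).1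
        omega
      · have := (fibVal_lt hx).1
        omega
    have e : fibVal (p ++ x) + Nat.fib k = fibVal (w ++ z) := by
      rw [fibVal_append, fibVal_append, g2, g3, w3]; omega
    have hv : NoAdj (w ++ z) := by
      rw [noAdj_append]
      exact ⟨w1, g1, by simp [g5]⟩
    rw [e, ftm_fibVal hv, ← w2, ftm_fibVal w1, ← g3, ftm_fibVal g1, ones_append]
    omega

end V11259.FibWord
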