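import Mathlib
import Pool.Agent.V11259.FibShift

/-!
# Fibonacci automata for the Fibonacci-Thue-Morse sequence shifted by a Fibonacci number
-/

namespace V11259.FibWord

open Real Finset

/-- A Fibonacci-DFAO with `n` states, numbers as outputs and a partly defined transition map,
reading words most significant digit first. -/
structure FibDFAO (n : ℕ) where
  δ : Fin n → Bool → Option (Fin n)
  q0 : Fin n
  out : Fin n → ℕ

/-- The state reached after reading a word, if defined. -/
def FibDFAO.run {n : ℕ} (M : FibDFAO n) (x : List Bool) : Option (Fin n) := x.foldlM M.δ M.q0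

/-- `x` is a valid representation of `i`: no two adjacent ones, leading zeros allowed. -/
def IsRep (x : List Bool) (i : ℕ) : Prop := NoAdj x ∧ fibVal x = i

/-- The automaton generates the sequence `h`: on each valid representation of `i` it reaches a
state with output `h i`. -/
def FibDFAO.Generates {n : ℕ} (M : FibDFAO n) (h : ℕ → ℕ) : Prop :=
  ∀ i x, IsRep x i → ∃ q, M.run x = some q ∧ M.out q = h i

/-- The least number of states of a Fibonacci-DFAO generating `h`. -/
noncomputable def states (h : ℕ → ℕ) : ℕ := sInf {n | ∃ M : FibDFAO n, M.Generates h}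

/-- The residual of a word. -/
def res (h : ℕ → ℕ) (x : List Bool) : List Bool → Option ℕ :=
  fun y => if NoAdj (x ++ y) then some (h (fibVal (x ++ y))) else none

lemma exists_dfao (h : ℕ → ℕ) (R : Finset (List Bool → Option ℕ))
    (hR : ∀ x, NoAdj x → res h x ∈ R) : ∃ M : FibDFAO R.card, M.Generates h := by
  classical
  let e := R.equivFin
  let M : FibDFAO R.card :=
    { δ := fun q d => if hm : (fun y => (e.symm q).1 (d :: y)) ∈ R then some (e ⟨_, hm⟩) else none
      q0 := e ⟨res h [], hR [] noAdj_nil⟩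
      out := fun q => ((e.symm q).1 []).getD 0 }
  have hrun : ∀ x (hx : NoAdj x), M.run x = some (e ⟨res h x, hR x hx⟩) := by
    intro x
    induction x using List.reverseRecOn with
    | nil => intro hx; rfl
    | append_singleton x d ih =>
      intro hx
      have hx' : NoAdj x := ((noAdj_append x [d]).1 hx).1
      have h1 := ih hx'
      unfold FibDFAO.run at h1 ⊢
      rw [List.foldlM_append, h1]
      have hb : ∀ o : Option (Fin R.card), (o >>= fun s' => List.foldlM M.δ s' []) = o := by
        intro o; cases o <;> rfl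
      have hb' : (some (e ⟨res h x, hR x hx'⟩) >>= fun init => List.foldlM M.δ init [d]) =
          M.δ (e ⟨res h x, hR x hx'⟩) d := hb _
      refine hb'.trans ?_
      have h2 : (fun y => (e.symm (e ⟨res h x, hR x hx'⟩)).1 (d :: y)) = res h (x ++ [d]) := by
        funext y
        rw [Equiv.symm_apply_apply]
        simp [res]
      have h3 : (fun y => (e.symm (e ⟨res h x, hR x hx'⟩)).1 (d :: y)) ∈ R := by
        rw [h2]
        exact hR _ hx
      show (if hm : (fun y => (e.symm (e ⟨res h x, hR x hx'⟩)).1 (d :: y)) ∈ R then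
        some (e ⟨_, hm⟩) else none) = _
      rw [dif_pos h3]
      congr 2
      exact Subtype.ext h2
  refine ⟨M, ?_⟩
  rintro i x ⟨hx, rfl⟩
  refine ⟨_, hrun x hx, ?_⟩
  show ((e.symm (e ⟨res h x, hR x hx⟩)).1 []).getD 0 = _
  rw [Equiv.symm_apply_apply]
  simp [res, hx]

/-! ### Equivalence of words in the middle -/

/-- `a` and `b` cannot be told apart in the middle of a word. -/
def Eqv (k : ℕ) (a b : List Bool) : Prop :=
  a.length = b.length ∧ ∀ p y, (NoAdj (p ++ a ++ y) ↔ NoAdj (p ++ b ++ y)) ∧
    (NoAdj (p ++ a ++ y) →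
      ftm (fibVal (p ++ a ++ y) + Nat.fib k) = ftm (fibVal (p ++ b ++ y) + Nat.fib k))

lemma Eqv.refl (k : ℕ) (a : List Bool) : Eqv k a a :=
  ⟨rfl, fun _ _ => ⟨Iff.rfl, fun _ => rfl⟩⟩

lemma Eqv.trans {k : ℕ} {a b c : List Bool} (h1 : Eqv k a b) (h2 : Eqv k b c) : Eqv k a c :=
  ⟨h1.1.trans h2.1, fun p y => ⟨(h1.2 p y).1.trans (h2.2 p y).1, fun h =>
    ((h1.2 p y).2 h).trans ((h2.2 p y).2 ((h1.2 p y).1.1 h))⟩⟩

lemma Eqv.append {k : ℕ} {a b : List Bool} (h : Eqv k a b) (v : List Bool) :
    Eqv k (a ++ v) (b ++ v) := by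
  refine ⟨by simp [h.1], fun p y => ?_⟩
  have := h.2 p (v ++ y)
  simpa [List.append_assoc] using this

lemma Eqv.syn {k : ℕ} (hk : 2 ≤ k) (w : List Bool) : Eqv k (w ++ wV) (w ++ wU) := by
  refine ⟨by simp [wU, wV], fun p y => ?_⟩
  have h1 := noAdj_mid (p := p ++ w) (z := y) wU (by decide) (by decide) (by decide) (by decide)
  have h2 := noAdj_mid (p := p ++ w) (z := y) wV (by decide) (by decide) (by decide) (by decide)
  rw [← List.append_assoc p w wV, ← List.append_assoc p w wU]
  refine ⟨h2.trans h1.symm, fun h => ?_⟩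
  have h3 := h2.1 h
  exact (FibWord.syn h3.1 h3.2 hk).symm

/-! ### Counting -/

/-- Extensions of a word by `n` digits. -/
def E : ℕ → List Bool → Finset (List Bool)
  | 0, w => {w}
  | n + 1, w => (E n w).biUnion
      (fun u => if lst u then {u ++ [false]} else {u ++ [false], u ++ [true]})

lemma mem_E {w : List Bool} (n : ℕ) : ∀ v, v.length = n → NoAdj (w ++ v) → w ++ v ∈ E n w := by
  induction n with
  | zero =>
    intro v hv _
    rw [List.length_eq_zero_iff.1 hv]
    simp [E]
  | succ n ih =>
    intro v hv hn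
    obtain ⟨v', d, rfl⟩ : ∃ v' d, v = v' ++ [d] := by
      have hne : v ≠ [] := by intro h; rw [h] at hv; simp at hv
      exact ⟨v.dropLast, v.getLast hne, (List.dropLast_append_getLast hne).symm⟩
    have hv' : v'.length = n := by simpa using hv
    rw [← List.append_assoc] at hn ⊢
    have hn' := (noAdj_append (w ++ v') [d]).1 hn
    simp only [E, mem_biUnion]
    refine ⟨w ++ v', ih v' hv' hn'.1, ?_⟩
    cases hl : lst (w ++ v') with
    | true =>
      have : d = false := by
        cases d
        · rfl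
        · exact absurd ⟨hl, rfl⟩ hn'.2.2
      simp [this]
    | false => cases d <;> simp

lemma noAdj_E {w : List Bool} (hw : NoAdj w) (n : ℕ) : ∀ u ∈ E n w, NoAdj u := by
  induction n with
  | zero => intro u hu; simp only [E, mem_singleton] at hu; rw [hu]; exact hw
  | succ n ih =>
    intro u hu
    simp only [E, mem_biUnion] at hu
    obtain ⟨u', h1, h2⟩ := hu
    have h3 := ih u' h1
    cases hl : lst u' with
    | true =>
      simp only [hl, if_true, mem_singleton] at h2
      rw [h2, noAdj_append]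
      exact ⟨h3, noAdj_single _, by simp [hd]⟩
    | false =>
      simp only [hl, Bool.false_eq_true, if_false, mem_insert, mem_singleton] at h2
      rcases h2 with rfl | rfl
      · rw [noAdj_append]
        exact ⟨h3, noAdj_single _, by simp [hd]⟩
      · rw [noAdj_append]
        exact ⟨h3, noAdj_single _, by simp [hl]⟩

/-- The weight of a word. -/
noncomputable def wt (u : List Bool) : ℝ := if lst u then -goldenConj else 1

lemma wt_nonneg (u : List Bool) : 0 ≤ wt u := by
  unfold wt
  split_ifs
  · linarith [goldenConj_neg]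
  · norm_num

lemma wt_le (u : List Bool) : wt u ≤ 1 := by
  unfold wt
  split_ifs
  · linarith [neg_one_lt_goldenConj]
  · norm_num

lemma le_wt (u : List Bool) : -goldenConj ≤ wt u := by
  unfold wt
  split_ifs
  · exact le_refl _
  · linarith [neg_one_lt_goldenConj]

lemma sum_biUnion_le {α β : Type} [DecidableEq α] [DecidableEq β] (s : Finset α)
    (t : α → Finset β) (f : β → ℝ) (hf : ∀ b, 0 ≤ f b) :
    ∑ b ∈ s.biUnion t, f b ≤ ∑ a ∈ s, ∑ b ∈ t a, f b := by
  induction s using Finset.induction_on with
  | empty => simp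
  | insert a s ha ih =>
    rw [biUnion_insert, sum_insert ha]
    have h1 := sum_union_inter (s₁ := t a) (s₂ := s.biUnion t) (f := f)
    have h2 : 0 ≤ ∑ b ∈ t a ∩ s.biUnion t, f b := sum_nonneg (fun b _ => hf b)
    linarith

lemma sum_E (w : List Bool) (n : ℕ) : ∑ u ∈ E n w, wt u ≤ goldenRatio ^ n * wt w := by
  have hphi : goldenRatio = 1 - goldenConj := one_sub_goldenRatio.symm
  induction n with
  | zero => simp [E]
  | succ n ih =>
    calc ∑ u ∈ E (n + 1) w, wt u ≤ ∑ u ∈ E n w, ∑ b ∈ (if lst u then {u ++ [false]} else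
          {u ++ [false], u ++ [true]} : Finset (List Bool)), wt b :=
          sum_biUnion_le _ _ _ wt_nonneg
      _ ≤ ∑ u ∈ E n w, goldenRatio * wt u := by
          apply sum_le_sum
          intro u _
          cases hl : lst u with
          | true =>
            simp only [if_true, sum_singleton, wt, lst_append, hl, Bool.false_eq_true, if_false]
            have := goldenRatio_mul_goldenConj
            linarith
          | false =>
            simp only [Bool.false_eq_true, if_false]
            rw [sum_pair (by simp)]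
            simp only [wt, lst_append, hl, Bool.false_eq_true, if_false, if_true]
            linarith
      _ = goldenRatio * ∑ u ∈ E n w, wt u := by rw [mul_sum]
      _ ≤ goldenRatio * (goldenRatio ^ n * wt w) :=
          mul_le_mul_of_nonneg_left ih goldenRatio_pos.le
      _ = goldenRatio ^ (n + 1) * wt w := by ring

/-- Words of `q` blocks none of which is the first synonym. -/
def T : ℕ → Finset (List Bool)
  | 0 => {[]}
  | q + 1 => (T q).biUnion (fun w => (E 14 w).erase (w ++ wU))

lemma noAdj_T (q : ℕ) : ∀ w ∈ T q, NoAdj w := by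
  induction q with
  | zero => intro w hw; simp only [T, mem_singleton] at hw; rw [hw]; exact noAdj_nil
  | succ q ih =>
    intro w hw
    simp only [T, mem_biUnion, mem_erase] at hw
    obtain ⟨u, h1, _, h3⟩ := hw
    exact noAdj_E (ih u h1) 14 w h3

lemma sum_T (q : ℕ) : ∑ u ∈ T q, wt u ≤ (goldenRatio ^ 14 - 1) ^ q := by
  induction q with
  | zero => simp [T, wt, lst]
  | succ q ih =>
    have h14 : (0 : ℝ) ≤ goldenRatio ^ 14 - 1 := by
      have := one_le_pow₀ (n := 14) one_lt_goldenRatio.le
      linarith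
    calc ∑ u ∈ T (q + 1), wt u ≤ ∑ w ∈ T q, ∑ u ∈ (E 14 w).erase (w ++ wU), wt u :=
          sum_biUnion_le _ _ _ wt_nonneg
      _ ≤ ∑ w ∈ T q, (goldenRatio ^ 14 - 1) * wt w := by
          apply sum_le_sum
          intro w hw
          have hv := noAdj_T q w hw
          have hmem : w ++ wU ∈ E 14 w := by
            apply mem_E 14 wU rfl
            have := noAdj_mid (p := w) (z := []) wU (by decide) (by decide) (by decide) (by decide)
            rw [List.append_nil] at this
            exact this.2 ⟨hv, noAdj_nil⟩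
          have h1 := add_sum_erase (E 14 w) wt hmem
          have h2 := sum_E w 14
          have h3 : wt (w ++ wU) = 1 := by
            unfold wt
            rw [lst_append' _ _ (by decide)]
            have : lst wU = false := by decide
            rw [this]
            simp
          have h4 := wt_le w
          linarith
      _ = (goldenRatio ^ 14 - 1) * ∑ w ∈ T q, wt w := by rw [mul_sum]
      _ ≤ (goldenRatio ^ 14 - 1) * (goldenRatio ^ 14 - 1) ^ q :=
          mul_le_mul_of_nonneg_left ih h14
      _ = (goldenRatio ^ 14 - 1) ^ (q + 1) := by ring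

lemma card_T (q : ℕ) : ((T q).card : ℝ) ≤ goldenRatio * (goldenRatio ^ 14 - 1) ^ q := by
  have h1 : ∑ _u ∈ T q, (-goldenConj) ≤ ∑ u ∈ T q, wt u := sum_le_sum (fun u _ => le_wt u)
  rw [sum_const, nsmul_eq_mul] at h1
  have h2 := h1.trans (sum_T q)
  have h3 : goldenRatio * ((T q).card * (-goldenConj)) ≤
      goldenRatio * (goldenRatio ^ 14 - 1) ^ q := mul_le_mul_of_nonneg_left h2 goldenRatio_pos.le
  have h4 : goldenRatio * ((T q).card * (-goldenConj)) = (T q).card := by
    have := goldenRatio_mul_goldenConj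
    linear_combination -((T q).card : ℝ) * this
  rw [h4] at h3
  exact h3

lemma exists_T {k : ℕ} (hk : 2 ≤ k) (q : ℕ) : ∀ x, NoAdj x → x.length = 14 * q →
    ∃ c ∈ T q, Eqv k c x := by
  induction q with
  | zero =>
    intro x _ hx
    have : x = [] := List.length_eq_zero_iff.1 (by omega)
    rw [this]
    exact ⟨[], by simp [T], Eqv.refl k _⟩
  | succ q ih =>
    intro x hx hl
    obtain ⟨w, v, rfl, hw, hv⟩ : ∃ w v, x = w ++ v ∧ w.length = 14 * q ∧ v.length = 14 :=
      ⟨x.take (14 * q), x.drop (14 * q), (List.take_append_drop _ _).symm, by simp; omega,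
        by simp; omega⟩
    have hwv := (noAdj_append w v).1 hx
    obtain ⟨c, hc, hcw⟩ := ih w hwv.1 hw
    have hcv := hcw.append v
    have hvalid : NoAdj (c ++ v) := by
      have := (hcv.2 [] []).1
      simp only [List.nil_append, List.append_nil] at this
      exact this.2 hx
    by_cases hU : v = wU
    · subst hU
      have hs := Eqv.syn hk c
      refine ⟨c ++ wV, ?_, hs.trans hcv⟩
      simp only [T, mem_biUnion, mem_erase]
      refine ⟨c, hc, ?_, ?_⟩
      · intro h
        have := List.append_cancel_left h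
        exact absurd this (by decide)
      · apply mem_E 14 wV rfl
        have := (hs.2 [] []).1
        simp only [List.nil_append, List.append_nil] at this
        exact this.2 hvalid
    · refine ⟨c ++ v, ?_, hcv⟩
      simp only [T, mem_biUnion, mem_erase]
      exact ⟨c, hc, fun h => hU (List.append_cancel_left h), mem_E 14 v hv hvalid⟩

/-! ### The bound -/

/-- The residual of a long word as a function of its last part and three more bits. -/
def G (k : ℕ) (c : List Bool) (e : Bool) (t0 t1 : ℕ) : List Bool → Option ℕ := fun y =>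
  if NoAdj (c ++ y) ∧ ¬ (e = true ∧ hd (c ++ y) = true) then
    some (if fibVal (c ++ y) + Nat.fib k < Nat.fib ((if e then 1 else 2) + (c ++ y).length) then
      (t0 + ftm (fibVal (c ++ y) + Nat.fib k)) % 2
    else (t1 + ftm (fibVal (c ++ y) + Nat.fib k -
      Nat.fib ((if e then 1 else 2) + (c ++ y).length))) % 2)
  else none

lemma res_eq_G {k : ℕ} {p c : List Bool} (hp : NoAdj p) (hk : k ≤ c.length) :
    res (fun i => ftm (i + Nat.fib k)) (p ++ c) =
      G k c (lst p) (ftm (fibVal p)) (ftm (fibVal p + 1)) := by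
  funext y
  unfold res G
  have e : p ++ c ++ y = p ++ (c ++ y) := List.append_assoc _ _ _
  rw [e]
  have hiff : NoAdj (p ++ (c ++ y)) ↔ NoAdj (c ++ y) ∧ ¬ (lst p = true ∧ hd (c ++ y) = true) := by
    rw [noAdj_append]
    exact ⟨fun h => h.2, fun h => ⟨hp, h⟩⟩
  by_cases h : NoAdj (p ++ (c ++ y))
  · rw [if_pos h, if_pos (hiff.1 h)]
    congr 1
    exact saturation h (by rw [List.length_append]; omega)
  · rw [if_neg h, if_neg (fun h' => h (hiff.2 h'))]

lemma replicate_zeros (n : ℕ) (w : List Bool) :
    fibVal (List.replicate n false ++ w) = fibVal w ∧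
      (NoAdj (List.replicate n false ++ w) ↔ NoAdj w) := by
  induction n with
  | zero => simp
  | succ n ih =>
    rw [List.replicate_succ, List.cons_append]
    constructor
    · simp only [fibVal, Bool.false_eq_true, if_false, zero_add]
      exact ih.1
    · rw [noAdj_cons]
      simp only [Bool.false_eq_true, false_and, not_false_eq_true, and_true]
      exact ih.2

theorem exists_small (q : ℕ) (hq : 1 ≤ q) :
    ∃ n : ℕ, (n : ℝ) ≤ 8 * goldenRatio * (goldenRatio ^ 14 - 1) ^ q ∧
      ∃ M : FibDFAO n, M.Generates (fun i => ftm (i + Nat.fib (14 * q))) := by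
  classical
  set k := 14 * q with hk
  let R : Finset (List Bool → Option ℕ) :=
    ((T q) ×ˢ (univ : Finset Bool) ×ˢ range 2 ×ˢ range 2).image
      (fun x => G k x.1 x.2.1 x.2.2.1 x.2.2.2)
  have hR : ∀ x, NoAdj x → res (fun i => ftm (i + Nat.fib k)) x ∈ R := by
    intro x hx
    have h1 : res (fun i => ftm (i + Nat.fib k)) x =
        res (fun i => ftm (i + Nat.fib k)) (List.replicate k false ++ x) := by
      funext y
      unfold res
      rw [List.append_assoc, (replicate_zeros k (x ++ y)).1]
      simp only [(replicate_zeros k (x ++ y)).2]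
    obtain ⟨p, x2, hpx, hx2⟩ : ∃ p x2, List.replicate k false ++ x = p ++ x2 ∧
        x2.length = 14 * q := by
      refine ⟨(List.replicate k false ++ x).take x.length,
        (List.replicate k false ++ x).drop x.length, (List.take_append_drop _ _).symm, ?_⟩
      rw [List.length_drop, List.length_append, List.length_replicate]
      omega
    have hvalid : NoAdj (p ++ x2) := by
      rw [← hpx]
      exact (replicate_zeros k x).2.2 hx
    have hv2 := (noAdj_append p x2).1 hvalid
    obtain ⟨c, hc, hcx⟩ := exists_T (k := k) (by omega) q x2 hv2.2.1 hx2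
    have h2 : res (fun i => ftm (i + Nat.fib k)) (p ++ x2) =
        res (fun i => ftm (i + Nat.fib k)) (p ++ c) := by
      funext y
      unfold res
      obtain ⟨h3, h4⟩ := hcx.2 p y
      by_cases h : NoAdj (p ++ c ++ y)
      · rw [if_pos h, if_pos (h3.1 h)]
        show some (ftm _) = some (ftm _)
        rw [h4 h]
      · rw [if_neg h, if_neg (fun h' => h (h3.2 h'))]
    rw [h1, hpx, h2, res_eq_G hv2.1 (by rw [hcx.1, hx2])]
    simp only [R, mem_image, mem_product, mem_univ, true_and, mem_range]
    exact ⟨(c, lst p, ftm (fibVal p), ftm (fibVal p + 1)),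
      ⟨hc, ftm_lt _, ftm_lt _⟩, rfl⟩
  refine ⟨R.card, ?_, exists_dfao _ R hR⟩
  have h2 : R.card ≤ (T q).card * 8 := by
    refine card_image_le.trans ?_
    simp [card_product]
  have h3 : (R.card : ℝ) ≤ (T q).card * 8 := by exact_mod_cast h2
  have h4 := card_T q
  calc (R.card : ℝ) ≤ (T q).card * 8 := h3
    _ ≤ goldenRatio * (goldenRatio ^ 14 - 1) ^ q * 8 := by linarith
    _ = 8 * goldenRatio * (goldenRatio ^ 14 - 1) ^ q := by ring

lemma fib_ge (n : ℕ) : goldenRatio ^ n ≤ Nat.fib (n + 2) := by
  have h := fib_succ_sub_goldenConj_mul_fib n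
  have h1 : (Nat.fib (n + 2) : ℝ) = Nat.fib n + Nat.fib (n + 1) := by
    exact_mod_cast Nat.fib_add_two
  have h2 : (0 : ℝ) ≤ Nat.fib n := Nat.cast_nonneg _
  have h3 := neg_one_lt_goldenConj
  nlinarith

theorem power_saving : ∃ d C : ℝ, 0 < d ∧ ∀ N : ℕ, ∃ c : ℕ, N ≤ c ∧
    ∃ n : ℕ, (n : ℝ) ≤ C * (c : ℝ) ^ (1 - d) ∧
      ∃ M : FibDFAO n, M.Generates (fun i => ftm (i + c)) := by
  have hφ := one_lt_goldenRatio
  have hφ0 := goldenRatio_pos
  set A : ℝ := goldenRatio ^ 14 with hA
  have hA1 : 1 < A := one_lt_pow₀ hφ (by norm_num)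
  have hA2 : 2 < A := by
    have h1 : goldenRatio ^ 2 = goldenRatio + 1 := goldenRatio_sq
    have h2 : A = (goldenRatio ^ 2) ^ 7 := by rw [hA]; ring
    have h3 : (2 : ℝ) < goldenRatio ^ 2 := by linarith
    have h4 : (1 : ℝ) ≤ (goldenRatio ^ 2) ^ 6 := one_le_pow₀ (by linarith)
    calc (2 : ℝ) < goldenRatio ^ 2 := h3
      _ = goldenRatio ^ 2 * 1 := by ring
      _ ≤ goldenRatio ^ 2 * (goldenRatio ^ 2) ^ 6 := by
          apply mul_le_mul_of_nonneg_left h4; linarith
      _ = A := by rw [h2]; ring
  have hlogA : 0 < Real.log A := Real.log_pos hA1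
  have hB0 : 0 < A - 1 := by linarith
  have hlogB : 0 ≤ Real.log (A - 1) := Real.log_nonneg (by linarith)
  set e : ℝ := Real.log (A - 1) / Real.log A with he
  have he0 : 0 ≤ e := div_nonneg hlogB hlogA.le
  have he1 : e < 1 := by
    rw [he, div_lt_one hlogA]
    exact Real.log_lt_log hB0 (by linarith)
  have hAe : A ^ e = A - 1 := by
    rw [Real.rpow_def_of_pos (by linarith), he, mul_div_cancel₀ _ hlogA.ne', Real.exp_log hB0]
  refine ⟨1 - e, 8 * goldenRatio * (goldenRatio ^ 2) ^ e, by linarith, fun N => ?_⟩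
  have hq : 1 ≤ N + 1 := by omega
  obtain ⟨n, h1, h2⟩ := exists_small (N + 1) hq
  refine ⟨Nat.fib (14 * (N + 1)), ?_, n, ?_, h2⟩
  · have := Nat.le_fib_add_one (14 * (N + 1))
    omega
  · have h3 : (1 : ℝ) - (1 - e) = e := by ring
    rw [h3]
    have h4 : (A - 1) ^ (N + 1) = (A ^ (N + 1)) ^ e := by
      rw [← hAe, ← Real.rpow_natCast (A ^ e), ← Real.rpow_natCast A, ← Real.rpow_mul (by linarith),
        ← Real.rpow_mul (by linarith), mul_comm]
    have h5 : A ^ (N + 1) ≤ goldenRatio ^ 2 * Nat.fib (14 * (N + 1)) := by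
      have h6 := fib_ge (14 * (N + 1) - 2)
      have e1 : 14 * (N + 1) - 2 + 2 = 14 * (N + 1) := by omega
      rw [e1] at h6
      have h7 : A ^ (N + 1) = goldenRatio ^ 2 * goldenRatio ^ (14 * (N + 1) - 2) := by
        rw [hA, ← pow_mul, ← pow_add]
        congr 1
        omega
      rw [h7]
      exact mul_le_mul_of_nonneg_left h6 (by positivity)
    calc (n : ℝ) ≤ 8 * goldenRatio * (A - 1) ^ (N + 1) := h1
      _ = 8 * goldenRatio * (A ^ (N + 1)) ^ e := by rw [h4]
      _ ≤ 8 * goldenRatio * (goldenRatio ^ 2 * Nat.fib (14 * (N + 1))) ^ e := by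
          apply mul_le_mul_of_nonneg_left _ (by positivity)
          exact Real.rpow_le_rpow (by positivity) h5 he0
      _ = 8 * goldenRatio * (goldenRatio ^ 2) ^ e * (Nat.fib (14 * (N + 1)) : ℝ) ^ e := by
          rw [Real.mul_rpow (by positivity) (by positivity)]
          ring

theorem not_linear : ¬ ∃ κ : ℝ, 0 < κ ∧ ∃ c0 : ℕ, ∀ c : ℕ, c0 ≤ c →
    κ * c ≤ states (fun i => ftm (i + c)) := by
  rintro ⟨κ, hκ, c0, h⟩
  obtain ⟨d, C, hd, hC⟩ := power_saving
  -- choose `c` so large that `C * c ^ (-d) < κ`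
  have hlim : Filter.Tendsto (fun x : ℝ => C * x ^ (-d)) Filter.atTop (nhds (C * 0)) :=
    (tendsto_rpow_neg_atTop hd).const_mul C
  rw [mul_zero] at hlim
  have hev := hlim.eventually (gt_mem_nhds hκ)
  obtain ⟨X, hX⟩ := Filter.eventually_atTop.1 hev
  obtain ⟨N, hN⟩ := exists_nat_ge X
  obtain ⟨c, hc, n, hn, M, hM⟩ := hC (max (max N c0) 1)
  have hc0 : c0 ≤ c := (le_max_right N c0).trans ((le_max_left _ 1).trans hc)
  have hcN : N ≤ c := (le_max_left N c0).trans ((le_max_left _ 1).trans hc)
  have hc1 : 1 ≤ c := (le_max_right _ 1).trans hc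
  have hcpos : (0 : ℝ) < c := by exact_mod_cast hc1
  have h1 := h c hc0
  have h2 : states (fun i => ftm (i + c)) ≤ n := Nat.sInf_le ⟨M, hM⟩
  have h3 : (states (fun i => ftm (i + c)) : ℝ) ≤ n := by exact_mod_cast h2
  have h4 : C * (c : ℝ) ^ (-d) < κ := hX c (hN.trans (by exact_mod_cast hcN))
  have h5 : C * (c : ℝ) ^ (1 - d) = C * (c : ℝ) ^ (-d) * c := by
    have e : (1 : ℝ) - d = -d + 1 := by ring
    rw [e, Real.rpow_add hcpos, Real.rpow_one]
    ring
  have h6 : C * (c : ℝ) ^ (-d) * c < κ * c := mul_lt_mul_of_pos_right h4 hcpos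
  linarith

end V11259.FibWord
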