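import Pool.Agent.V11259.RE
import Mathlib.SetTheory.Cardinal.Finite

/-!
Computably enumerable presentations of algebras in a variety.
-/

set_option autoImplicit false

open Encodable Denumerable

namespace V11259.CeAlg

open V11259.RE (W)

/-- A signature: a decidable set of (codes of) function symbols with a computable arity map. -/
structure Signature where
  /-- the function symbols -/
  sym : Set ℕ
  /-- the set of symbols is decidable -/
  decidable_sym : ComputablePred fun f => f ∈ sym
  /-- the arity map -/
  ar : ℕ → ℕ
  /-- the arity map is computable -/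
  computable_ar : Computable ar

/-- Terms over a signature, with variables (or generators) from `X`. -/
inductive Term (σ : Signature) (X : Type) : Type
  | var (x : X) : Term σ X
  | app (f : ℕ) (hf : f ∈ σ.sym) (ts : Fin (σ.ar f) → Term σ X) : Term σ X

/-- Algebras of a signature. -/
structure Alg (σ : Signature) where
  /-- the underlying set -/
  carrier : Type
  /-- the operations -/
  op : ∀ f : ℕ, f ∈ σ.sym → (Fin (σ.ar f) → carrier) → carrier

/-- Isomorphism of algebras. -/
def Alg.Iso {σ : Signature} (A B : Alg σ) : Prop :=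
  ∃ φ : A.carrier ≃ B.carrier, ∀ (f : ℕ) (hf : f ∈ σ.sym) (a : Fin (σ.ar f) → A.carrier),
    φ (A.op f hf a) = B.op f hf fun i => φ (a i)

/-- Substitution of terms for variables. -/
def Term.subst {σ : Signature} {X Y : Type} (ρ : X → Term σ Y) : Term σ X → Term σ Y
  | .var x => ρ x
  | .app f hf ts => .app f hf fun i => (ts i).subst ρ

/-- Evaluation of terms in an algebra. -/
def Term.eval {σ : Signature} {X : Type} (A : Alg σ) (ρ : X → A.carrier) : Term σ X → A.carrier
  | .var x => ρ x
  | .app f hf ts => A.op f hf fun i => (ts i).eval A ρ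

/-- A variety, given by a signature and a set of equational laws (pairs of terms in the
variables `0, 1, 2, …`). -/
structure Variety where
  /-- the signature -/
  sig : Signature
  /-- the laws -/
  laws : Set (Term sig ℕ × Term sig ℕ)

/-- The algebra `A` belongs to the variety `V`. -/
def Variety.Mem (V : Variety) (A : Alg V.sig) : Prop :=
  ∀ l ∈ V.laws, ∀ ρ : ℕ → A.carrier, l.1.eval A ρ = l.2.eval A ρ

/-- The smallest congruence on the term algebra over `X` that contains `R` and all instances of
the laws of `V`. -/
inductive Cong (V : Variety) {X : Type} (R : Term V.sig X → Term V.sig X → Prop) :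
    Term V.sig X → Term V.sig X → Prop
  | rel {s t : Term V.sig X} : R s t → Cong V R s t
  | law {l : Term V.sig ℕ × Term V.sig ℕ} (hl : l ∈ V.laws) (ρ : ℕ → Term V.sig X) :
      Cong V R (l.1.subst ρ) (l.2.subst ρ)
  | refl (t : Term V.sig X) : Cong V R t t
  | symm {s t : Term V.sig X} : Cong V R s t → Cong V R t s
  | trans {s t u : Term V.sig X} : Cong V R s t → Cong V R t u → Cong V R s u
  | app (f : ℕ) (hf : f ∈ V.sig.sym) {ts us : Fin (V.sig.ar f) → Term V.sig X} :
      (∀ i, Cong V R (ts i) (us i)) → Cong V R (.app f hf ts) (.app f hf us)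

/-- The congruence as a setoid. -/
def congSetoid (V : Variety) {X : Type} (R : Term V.sig X → Term V.sig X → Prop) :
    Setoid (Term V.sig X) where
  r := Cong V R
  iseqv := ⟨Cong.refl, Cong.symm, Cong.trans⟩

/-- The algebra of `V` presented by the generators `X` and the relations `R`. -/
noncomputable def present (V : Variety) {X : Type} (R : Term V.sig X → Term V.sig X → Prop) :
    Alg V.sig where
  carrier := Quotient (congSetoid V R)
  op f hf a := Quotient.mk (congSetoid V R) (.app f hf fun i => (a i).out)

/-- The computable coding of terms by natural numbers: a generator `x` with code `c x` is coded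
by `2 * c x`, and `f(t₁,…,tₖ)` by `2 * ⟨f, [code t₁, …, code tₖ]⟩ + 1`. -/
def Term.code {σ : Signature} {X : Type} (c : X → ℕ) : Term σ X → ℕ
  | .var x => 2 * c x
  | .app f _ ts => 2 * Nat.pair f (encode (List.ofFn fun i => (ts i).code c)) + 1

/-- The relations on `n` generators coded in a set `A` of natural numbers: `⟨code s, code t⟩ ∈ A`
codes the equation `s ≈ t`. -/
def relOf {σ : Signature} {n : ℕ} (A : Set ℕ) (s t : Term σ (Fin n)) : Prop :=
  Nat.pair (s.code fun i : Fin n => (i : ℕ)) (t.code fun i : Fin n => (i : ℕ)) ∈ A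

/-- The algebra of `V` on `n` generators with the relations coded in `A`. -/
noncomputable def algOf (V : Variety) (n : ℕ) (A : Set ℕ) : Alg V.sig :=
  present V (X := Fin n) (relOf A)

/-- `V_n[e]`: the `n`-generated algebra of `V` whose relations are coded in the `e`-th c.e.
set. -/
noncomputable def alg (V : Variety) (n e : ℕ) : Alg V.sig := algOf V n (W e)

/-- The isomorphism relation of the class `V_n` of `n`-generated c.e. algebras of `V`. -/
def isoRel (V : Variety) (n : ℕ) (e i : ℕ) : Prop := (alg V n e).Iso (alg V n i)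

/-- Computable reducibility of relations on `ℕ`. -/
def CRed (E F : ℕ → ℕ → Prop) : Prop :=
  ∃ h : ℕ → ℕ, Computable h ∧ ∀ x y, E x y ↔ F (h x) (h y)

/-! ### Basic facts -/

theorem Alg.Iso.refl {σ : Signature} (A : Alg σ) : A.Iso A := ⟨Equiv.refl _, fun _ _ _ => rfl⟩

theorem Alg.Iso.symm {σ : Signature} {A B : Alg σ} (h : A.Iso B) : B.Iso A := by
  obtain ⟨φ, hφ⟩ := h
  refine ⟨φ.symm, fun f hf a => ?_⟩
  rw [Equiv.symm_apply_eq, hφ]
  simp

theorem Alg.Iso.trans {σ : Signature} {A B C : Alg σ} (h : A.Iso B) (h' : B.Iso C) :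
    A.Iso C := by
  obtain ⟨φ, hφ⟩ := h
  obtain ⟨ψ, hψ⟩ := h'
  refine ⟨φ.trans ψ, fun f hf a => ?_⟩
  simp only [Equiv.trans_apply, hφ, hψ]

theorem isoRel_equivalence (V : Variety) (n : ℕ) : Equivalence (isoRel V n) :=
  ⟨fun _ => Alg.Iso.refl _, Alg.Iso.symm, Alg.Iso.trans⟩

theorem CRed.trans {E F G : ℕ → ℕ → Prop} (h : CRed E F) (h' : CRed F G) : CRed E G := by
  obtain ⟨f, hf, hf2⟩ := h
  obtain ⟨g, hg, hg2⟩ := h'
  exact ⟨fun x => g (f x), hg.comp hf, fun x y => (hf2 x y).trans (hg2 _ _)⟩

section
variable {V : Variety} {X : Type} {R S : Term V.sig X → Term V.sig X → Prop}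

/-- the class of a term -/
def cls (R : Term V.sig X → Term V.sig X → Prop) (t : Term V.sig X) : (present V R).carrier :=
  Quotient.mk (congSetoid V R) t

theorem cls_eq {s t : Term V.sig X} : cls R s = cls R t ↔ Cong V R s t :=
  Quotient.eq (r := congSetoid V R)

theorem cls_surj (a : (present V R).carrier) : ∃ t, cls R t = a := Quotient.exists_rep a

theorem op_cls (f : ℕ) (hf : f ∈ V.sig.sym) (ts : Fin (V.sig.ar f) → Term V.sig X) :
    (present V R).op f hf (fun i => cls R (ts i)) = cls R (.app f hf ts) := by
  refine Quotient.sound (s := congSetoid V R) ?_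
  refine Cong.app f hf fun i => ?_
  exact Quotient.exact (s := congSetoid V R) (Quotient.out_eq (cls R (ts i)))

theorem Cong.mono (h : ∀ s t, R s t → Cong V S s t) {s t : Term V.sig X} (hst : Cong V R s t) :
    Cong V S s t := by
  induction hst with
  | rel h1 => exact h _ _ h1
  | law hl ρ => exact Cong.law hl ρ
  | refl t => exact Cong.refl t
  | symm _ ih => exact ih.symm
  | trans _ _ ih1 ih2 => exact ih1.trans ih2
  | app f hf _ ih => exact Cong.app f hf ih

theorem Cong.sound (A : Alg V.sig) (hA : V.Mem A) (ρ : X → A.carrier)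
    (h : ∀ s t, R s t → s.eval A ρ = t.eval A ρ) {s t : Term V.sig X} (hst : Cong V R s t) :
    s.eval A ρ = t.eval A ρ := by
  induction hst with
  | rel h1 => exact h _ _ h1
  | @law l hl τ =>
    have hs : ∀ u : Term V.sig ℕ, (u.subst τ).eval A ρ = u.eval A fun i => (τ i).eval A ρ := by
      intro u
      induction u with
      | var x => rfl
      | app f hf ts ih =>
        simp only [Term.subst, Term.eval]
        congr 1
        funext i
        exact ih i
    rw [hs, hs]
    exact hA l hl _
  | refl t => rfl
  | symm _ ih => exact ih.symm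
  | trans _ _ ih1 ih2 => exact ih1.trans ih2
  | app f hf _ ih =>
    simp only [Term.eval]
    congr 1
    funext i
    exact ih i

/-- if `R` generates a smaller congruence than `S`, there is a surjective homomorphism -/
theorem exists_hom (h : ∀ s t, R s t → Cong V S s t) :
    ∃ φ : (present V R).carrier → (present V S).carrier, Function.Surjective φ ∧
      (∀ t, φ (cls R t) = cls S t) ∧
      ∀ (f : ℕ) (hf : f ∈ V.sig.sym) (a : Fin (V.sig.ar f) → (present V R).carrier),
        φ ((present V R).op f hf a) = (present V S).op f hf fun i => φ (a i) := by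
  have hφ : ∃ φ : (present V R).carrier → (present V S).carrier,
      ∀ t, φ (cls R t) = cls S t := by
    refine ⟨Quotient.lift (fun t => cls S t) ?_, fun t => rfl⟩
    intro s t hst
    exact cls_eq.2 (Cong.mono h hst)
  obtain ⟨φ, hφ⟩ := hφ
  refine ⟨φ, ?_, hφ, ?_⟩
  · intro a
    obtain ⟨t, rfl⟩ := cls_surj a
    exact ⟨cls R t, hφ t⟩
  · intro f hf a
    have : ∀ i, ∃ t, cls R t = a i := fun i => cls_surj (a i)
    choose ts hts using this
    have h1 : a = fun i => cls R (ts i) := by funext i; exact (hts i).symm
    rw [h1, op_cls, hφ]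
    have h2 : (fun i => φ (cls R (ts i))) = fun i => cls S (ts i) := by funext i; exact hφ _
    rw [h2, op_cls]

theorem iso_of_cong (h : ∀ s t, R s t → Cong V S s t) (h' : ∀ s t, S s t → Cong V R s t) :
    (present V R).Iso (present V S) := by
  obtain ⟨φ, h1, h2, h3⟩ := exists_hom h
  have hinj : Function.Injective φ := by
    intro a b hab
    obtain ⟨s, rfl⟩ := cls_surj a
    obtain ⟨t, rfl⟩ := cls_surj b
    rw [h2, h2, cls_eq] at hab
    exact cls_eq.2 (Cong.mono h' hab)
  exact ⟨Equiv.ofBijective φ ⟨hinj, h1⟩, h3⟩

end

/-! ### Signatures of constants -/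

/-- the signature whose symbols are the elements of `C`, all of them constants -/
def constSig (C : Set ℕ) (hC : ComputablePred fun f => f ∈ C) : Signature where
  sym := C
  decidable_sym := hC
  ar _ := 0
  computable_ar := Computable.const 0

/-- the variety of all algebras with constants `C` -/
def constVar (C : Set ℕ) (hC : ComputablePred fun f => f ∈ C) : Variety where
  sig := constSig C hC
  laws := ∅

section
variable {C : Set ℕ} {hC : ComputablePred fun f => f ∈ C} {n : ℕ}

/-- the constant `c` as a term -/
def cst (c : ℕ) (hc : c ∈ C) : Term (constVar C hC).sig (Fin n) :=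
  Term.app (σ := (constVar C hC).sig) c hc (fun i : Fin 0 => i.elim0)

theorem app_eq_cst (c : ℕ) (hc : c ∈ (constVar C hC).sig.sym)
    (ts : Fin ((constVar C hC).sig.ar c) → Term (constVar C hC).sig (Fin n)) :
    Term.app c hc ts = cst c hc := by
  unfold cst
  congr 1
  funext i
  exact Fin.elim0 (i : Fin 0)

theorem term_cases {p : Term (constVar C hC).sig (Fin n) → Prop} (h1 : ∀ i, p (.var i))
    (h2 : ∀ c (hc : c ∈ C), p (cst c hc)) (t : Term (constVar C hC).sig (Fin n)) : p t := by
  cases t with
  | var i => exact h1 i
  | app c hc ts => rw [app_eq_cst]; exact h2 c hc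

/-- the standard code of a term -/
def cd {σ : Signature} {n : ℕ} (t : Term σ (Fin n)) : ℕ := t.code fun i : Fin n => (i : ℕ)

theorem cd_var {σ : Signature} (i : Fin n) : cd (.var i : Term σ (Fin n)) = 2 * (i : ℕ) := rfl

theorem cd_cst (c : ℕ) (hc : c ∈ C) :
    cd (cst c hc : Term (constVar C hC).sig (Fin n)) = 2 * Nat.pair c 0 + 1 := by
  have h2 : (List.ofFn fun i : Fin 0 =>
    (Fin.elim0 i : Term (constVar C hC).sig (Fin n)).code fun i : Fin n => (i : ℕ)) = [] := by simp
  show 2 * Nat.pair c (encode (List.ofFn fun i : Fin 0 =>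
    (Fin.elim0 i : Term (constVar C hC).sig (Fin n)).code fun i : Fin n => (i : ℕ))) + 1 = _
  rw [h2]
  rfl

theorem cd_inj {s t : Term (constVar C hC).sig (Fin n)} (h : cd s = cd t) : s = t := by
  revert h
  refine term_cases (p := fun s => cd s = cd t → s = t) ?_ ?_ s
  · intro i
    refine term_cases (p := fun t => cd (.var i : Term (constVar C hC).sig (Fin n)) = cd t →
      .var i = t) ?_ ?_ t
    · intro j h
      rw [cd_var, cd_var] at h
      have : i = j := Fin.ext (by omega)
      rw [this]
    · intro c hc h
      rw [cd_var, cd_cst] at h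
      omega
  · intro c hc
    refine term_cases (p := fun t => cd (cst c hc : Term (constVar C hC).sig (Fin n)) = cd t →
      cst c hc = t) ?_ ?_ t
    · intro j h
      rw [cd_var, cd_cst] at h
      omega
    · intro d hd h
      rw [cd_cst, cd_cst] at h
      have h1 : Nat.pair c 0 = Nat.pair d 0 := by omega
      have h2 := (Nat.pair_eq_pair.1 h1).1
      subst h2
      rfl

/-- over a signature of constants the congruence generated by `R` is the equivalence relation
generated by `R` -/
theorem cong_sound {R : Term (constVar C hC).sig (Fin n) → Term (constVar C hC).sig (Fin n) → Prop}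
    {γ : Type} (v : Term (constVar C hC).sig (Fin n) → γ) (h : ∀ s t, R s t → v s = v t)
    {s t : Term (constVar C hC).sig (Fin n)} (hst : Cong (constVar C hC) R s t) : v s = v t := by
  induction hst with
  | rel h1 => exact h _ _ h1
  | law hl ρ => exact absurd hl (Set.notMem_empty _)
  | refl t => rfl
  | symm _ ih => exact ih.symm
  | trans _ _ ih1 ih2 => exact ih1.trans ih2
  | app f hf _ ih => rw [app_eq_cst, app_eq_cst]

theorem op_cst {R : Term (constVar C hC).sig (Fin n) → Term (constVar C hC).sig (Fin n) → Prop}
    (c : ℕ) (hc : c ∈ (constVar C hC).sig.sym)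
    (a : Fin ((constVar C hC).sig.ar c) → (present (constVar C hC) R).carrier) :
    (present (constVar C hC) R).op c hc a = cls R (cst c hc) := by
  have : ∀ i, ∃ t, cls R t = a i := fun i => cls_surj (a i)
  choose ts hts using this
  have h1 : a = fun i => cls R (ts i) := by funext i; exact (hts i).symm
  rw [h1, op_cls, app_eq_cst]
  rfl

/-- an isomorphism preserves the constants -/
theorem iso_cst {R S : Term (constVar C hC).sig (Fin n) → Term (constVar C hC).sig (Fin n) → Prop}
    (φ : (present (constVar C hC) R).carrier ≃ (present (constVar C hC) S).carrier)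
    (hφ : ∀ (f : ℕ) (hf : f ∈ (constVar C hC).sig.sym)
      (a : Fin ((constVar C hC).sig.ar f) → (present (constVar C hC) R).carrier),
      φ ((present (constVar C hC) R).op f hf a) =
        (present (constVar C hC) S).op f hf fun i => φ (a i)) (c : ℕ) (hc : c ∈ C) :
    φ (cls R (cst c hc)) = cls S (cst c hc) := by
  have h1 := hφ c hc (fun i => Fin.elim0 (i : Fin 0))
  rw [op_cst, op_cst] at h1
  exact h1

/-- a bijection that preserves the constants is an isomorphism -/
theorem iso_of_cst
    {R S : Term (constVar C hC).sig (Fin n) → Term (constVar C hC).sig (Fin n) → Prop}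
    (φ : (present (constVar C hC) R).carrier ≃ (present (constVar C hC) S).carrier)
    (hφ : ∀ (c : ℕ) (hc : c ∈ C), φ (cls R (cst c hc)) = cls S (cst c hc)) :
    (present (constVar C hC) R).Iso (present (constVar C hC) S) := by
  refine ⟨φ, fun c hc a => ?_⟩
  rw [op_cst, op_cst]
  exact hφ c hc

end

end V11259.CeAlg
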