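import Mathlib

/-!
# Arenas, strategies, memory structures

Games on finite graphs with edges labelled by colours; general and chromatic memory.
-/

namespace V11259.Mem

/-- An arena over the set of colours `C`: a finite nonempty set of nodes, split into the nodes of
Protagonist (`prot v`) and of Antagonist (`¬ prot v`), a finite set of coloured edges, every node
having an outgoing edge. -/
structure Arena (C : Type) where
  V : Type
  finV : Finite V
  neV : Nonempty V
  prot : V → Prop
  E : Set (V × C × V)
  finE : E.Finite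
  out : ∀ v, ∃ e ∈ E, e.1 = v

namespace Arena

variable {C : Type} (A : Arena C)

/-- Triples (source, colour, target). -/
abbrev Edge : Type := A.V × C × A.V

/-- The last node of the path with start node `u` and list of edges `p`. -/
def last : A.V → List A.Edge → A.V
  | u, [] => u
  | _, e :: p => last e.2.2 p

/-- `p` is the list of edges of a finite path with start node `u`. -/
def IsPath : A.V → List A.Edge → Prop
  | _, [] => True
  | u, e :: p => e ∈ A.E ∧ e.1 = u ∧ IsPath e.2.2 p

/-- `π` is (the sequence of edges of) an infinite play from `u`. -/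
def IsPlay (u : A.V) (π : ℕ → A.Edge) : Prop :=
  (π 0).1 = u ∧ ∀ n, π n ∈ A.E ∧ (π (n + 1)).1 = (π n).2.2

/-- A strategy of Protagonist: it assigns to every finite path (start node, list of edges) ending
in a node of Protagonist an outgoing edge of its last node. -/
structure Strat where
  act : A.V → List A.Edge → A.Edge
  valid : ∀ u p, A.IsPath u p → A.prot (A.last u p) →
    act u p ∈ A.E ∧ (act u p).1 = A.last u p

/-- The play `π` from `u` is consistent with the strategy `S`. -/
def Consistent (S : A.Strat) (u : A.V) (π : ℕ → A.Edge) : Prop :=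
  ∀ n, A.prot (π n).1 → π n = S.act u ((List.range n).map π)

/-- `S` wins from `u` for the winning condition `W`. -/
def Wins (W : Set (ℕ → C)) (S : A.Strat) (u : A.V) : Prop :=
  ∀ π, A.IsPlay u π → A.Consistent S u π → (fun n => (π n).2.1) ∈ W

/-- `S` is optimal for `W`: it wins from every node from which some strategy wins. -/
def Optimal (W : Set (ℕ → C)) (S : A.Strat) : Prop :=
  ∀ u, (∃ S' : A.Strat, A.Wins W S' u) → A.Wins W S u

/-- A memory structure. -/
structure Memory where
  M : Type
  fin : Finite M
  init : M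
  upd : M → A.Edge → M

/-- The memory structure is chromatic: the update on edges of the arena depends only on the
colour. -/
def Memory.Chromatic {A : Arena C} (M : A.Memory) : Prop :=
  ∀ m, ∀ e ∈ A.E, ∀ e' ∈ A.E, e.2.1 = e'.2.1 → M.upd m e = M.upd m e'

/-- `S` is built on the memory structure `M`. -/
def BuiltOn (S : A.Strat) (M : A.Memory) : Prop :=
  ∀ u₁ p₁ u₂ p₂, A.IsPath u₁ p₁ → A.IsPath u₂ p₂ → A.prot (A.last u₁ p₁) →
    A.last u₁ p₁ = A.last u₂ p₂ → p₁.foldl M.upd M.init = p₂.foldl M.upd M.init →
    S.act u₁ p₁ = S.act u₂ p₂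

end Arena

/-- `k` states of general memory suffice for `W` in every arena. -/
def GenSuffices {C : Type} (W : Set (ℕ → C)) (k : ℕ) : Prop :=
  ∀ A : Arena C, ∃ M : A.Memory, Nat.card M.M = k ∧ ∃ S : A.Strat, A.BuiltOn S M ∧ A.Optimal W S

/-- `k` states of chromatic memory suffice for `W` in every arena. -/
def ChrSuffices {C : Type} (W : Set (ℕ → C)) (k : ℕ) : Prop :=
  ∀ A : Arena C, ∃ M : A.Memory, M.Chromatic ∧ Nat.card M.M = k ∧
    ∃ S : A.Strat, A.BuiltOn S M ∧ A.Optimal W S

/-- `GenMem W`: the least positive number of states of general memory that suffices, `⊤` if there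
is none. -/
noncomputable def genMem {C : Type} (W : Set (ℕ → C)) : ℕ∞ :=
  sInf {x : ℕ∞ | ∃ k : ℕ, 1 ≤ k ∧ GenSuffices W k ∧ x = k}

/-- `ChrMem W`: the least positive number of states of chromatic memory that suffices, `⊤` if
there is none. -/
noncomputable def chrMem {C : Type} (W : Set (ℕ → C)) : ℕ∞ :=
  sInf {x : ℕ∞ | ∃ k : ℕ, 1 ≤ k ∧ ChrSuffices W k ∧ x = k}

/-! ### Basic facts -/

namespace Arena

variable {C : Type} {A : Arena C}

lemma last_append (u : A.V) (p : List A.Edge) (e : A.Edge) : A.last u (p ++ [e]) = e.2.2 := by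
  induction p generalizing u with
  | nil => rfl
  | cons a p ih => exact ih _

lemma isPath_append (u : A.V) (p : List A.Edge) (e : A.Edge) :
    A.IsPath u (p ++ [e]) ↔ A.IsPath u p ∧ e ∈ A.E ∧ e.1 = A.last u p := by
  induction p generalizing u with
  | nil => simp [IsPath, last]
  | cons a p ih =>
    simp only [List.cons_append, IsPath, last, ih]
    tauto

lemma hist_succ {α : Type} (π : ℕ → α) (n : ℕ) :
    (List.range (n + 1)).map π = (List.range n).map π ++ [π n] := by
  simp [List.range_succ]

lemma IsPlay.last {u : A.V} {π : ℕ → A.Edge} (h : A.IsPlay u π) (n : ℕ) :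
    A.last u ((List.range n).map π) = (π n).1 := by
  cases n with
  | zero => exact h.1.symm
  | succ n => rw [hist_succ, last_append, (h.2 n).2]

lemma IsPlay.path {u : A.V} {π : ℕ → A.Edge} (h : A.IsPlay u π) (n : ℕ) :
    A.IsPath u ((List.range n).map π) := by
  induction n with
  | zero => exact trivial
  | succ n ih =>
    rw [hist_succ, isPath_append]
    exact ⟨ih, (h.2 n).1, (h.last n).symm⟩

/-- A profile of moves generates a play. -/
lemma exists_play (u : A.V) (T : List A.Edge → A.Edge)
    (hT : ∀ p, A.IsPath u p → T p ∈ A.E ∧ (T p).1 = A.last u p) :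
    ∃ π, A.IsPlay u π ∧ ∀ n, π n = T ((List.range n).map π) := by
  let h : ℕ → List A.Edge := fun n => Nat.rec [] (fun _ p => p ++ [T p]) n
  have hs : ∀ n, h (n + 1) = h n ++ [T (h n)] := fun _ => rfl
  have hp : ∀ n, A.IsPath u (h n) := by
    intro n
    induction n with
    | zero => exact trivial
    | succ n ih =>
      rw [hs, isPath_append]
      exact ⟨ih, hT _ ih⟩
  have hh : ∀ n, (List.range n).map (fun n => T (h n)) = h n := by
    intro n
    induction n with
    | zero => rfl
    | succ n ih => rw [hist_succ, ih, hs]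
  refine ⟨fun n => T (h n), ⟨?_, fun n => ⟨(hT _ (hp n)).1, ?_⟩⟩, fun n => by rw [hh]⟩
  · exact (hT _ (hp 0)).2
  · rw [(hT _ (hp (n + 1))).2, hs, last_append]

/-- The strategy `S` after the edge `e` has been played. -/
noncomputable def shift (S : A.Strat) (e : A.Edge) (he : e ∈ A.E) : A.Strat := by
  classical
  exact
  { act := fun u p => if u = e.2.2 then S.act e.1 (e :: p) else S.act u p
    valid := by
      intro u p hp hl
      by_cases h : u = e.2.2
      · subst h
        simp only [if_true]
        exact S.valid e.1 (e :: p) ⟨he, rfl, hp⟩ hl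
      · simp only [if_neg h]
        exact S.valid u p hp hl }

lemma shift_play {S : A.Strat} {v : A.V} {e : A.Edge} (he : e ∈ A.E) (hv : e.1 = v)
    (hS : A.prot v → e = S.act v []) {π : ℕ → A.Edge} (hπ : A.IsPlay e.2.2 π)
    (hc : A.Consistent (shift S e he) e.2.2 π) :
    A.IsPlay v (fun n => Nat.casesOn n e π) ∧
      A.Consistent S v (fun n => Nat.casesOn n e π) := by
  constructor
  · refine ⟨hv, fun n => ?_⟩
    cases n with
    | zero => exact ⟨he, hπ.1⟩
    | succ n => exact hπ.2 n
  · intro n hn
    cases n with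
    | zero =>
      have hn' : A.prot e.1 := hn
      rw [hv] at hn'
      exact hS hn'
    | succ n =>
      have h1 := hc n hn
      have h2 : (List.range (n + 1)).map (fun n => (Nat.casesOn n e π : A.Edge)) =
          e :: (List.range n).map π := by
        rw [List.range_succ_eq_map]
        simp [Function.comp_def]
      rw [h2]
      show π n = _
      rw [h1]
      simp only [shift, if_true]
      rw [hv]

end Arena

/-! ### A sufficient condition for finite general memory of safety conditions -/

section Safety

variable {C P : Type}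

/-- The safety condition given by a (possibly infinite) deterministic automaton. -/
def Safe (δ : P → C → P) (bad : P → Prop) (r : P) : Set (ℕ → C) :=
  {w | ∀ n, ¬ bad (((List.range n).map w).foldl δ r)}

lemma safe_cons {δ : P → C → P} {bad : P → Prop} {r : P} {w : ℕ → C} {c : C}
    (h : (fun n => (Nat.casesOn n c w : C)) ∈ Safe δ bad r) : w ∈ Safe δ bad (δ r c) := by
  intro n
  have := h (n + 1)
  have h2 : (List.range (n + 1)).map (fun n => (Nat.casesOn n c w : C)) =
      c :: (List.range n).map w := by
    rw [List.range_succ_eq_map]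
    simp [Function.comp_def]
  rw [h2] at this
  exact this

lemma foldl_map_color {A : Arena C} {δ : P → C → P} (r : P) (l : List A.Edge) :
    (l.map (fun e => e.2.1)).foldl δ r = l.foldl (fun r e => δ r e.2.1) r := by
  rw [List.foldl_map]

theorem gen_suffices {K : Type} [Finite K] (δ : P → C → P) (bad : P → Prop)
    (le : P → P → Prop)
    (le_trans : ∀ r r' r'', le r r' → le r' r'' → le r r'')
    (hmono : ∀ r r' c, le r r' → le (δ r c) (δ r' c))
    (hbad : ∀ r r', le r r' → bad r' → bad r) (idx : P → K) (lv : P → ℕ)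
    (hchain : ∀ r r', idx r = idx r' → lv r ≤ lv r' → le r r') (r0 : P) :
    GenSuffices (Safe δ bad r0) (Nat.card K) := by
  classical
  intro A
  -- winning positions
  let Win : A.V → P → Prop := fun v r => ∃ S : A.Strat, A.Wins (Safe δ bad r) S v
  have win_not_bad : ∀ v r, Win v r → ¬ bad r := by
    rintro v r ⟨S, hS⟩ hb
    obtain ⟨π, h1, h2⟩ := Arena.exists_play v
      (fun p => if A.prot (A.last v p) then S.act v p else (A.out (A.last v p)).choose) (by
        intro p hp
        by_cases h : A.prot (A.last v p)
        · simp only [if_pos h]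
          exact S.valid v p hp h
        · simp only [if_neg h]
          exact (A.out (A.last v p)).choose_spec)
    have := hS π h1 (by
      intro n hn
      rw [h2 n, h1.last n, if_pos hn])
    exact this 0 hb
  have win_step : ∀ v r, Win v r → ∃ a : A.Edge, (A.prot v → a ∈ A.E ∧ a.1 = v) ∧
      ∀ e ∈ A.E, e.1 = v → (A.prot v → e = a) → Win e.2.2 (δ r e.2.1) := by
    rintro v r ⟨S, hS⟩
    refine ⟨S.act v [], fun h => S.valid v [] trivial h, fun e he hev hea => ?_⟩
    refine ⟨Arena.shift S e he, fun π hπ hc => ?_⟩
    obtain ⟨h1, h2⟩ := Arena.shift_play he hev hea hπ hc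
    have := hS _ h1 h2
    apply safe_cons (c := e.2.1)
    convert this using 1
    funext n
    cases n <;> rfl
  -- minimal elements
  have hmin : ∀ v i, (∃ r, Win v r ∧ idx r = i) →
      ∃ r, Win v r ∧ idx r = i ∧ ∀ r', Win v r' → idx r' = i → lv r ≤ lv r' := by
    intro v i h
    have h' : ∃ n, ∃ r, Win v r ∧ idx r = i ∧ lv r = n := by
      obtain ⟨r, h1, h2⟩ := h
      exact ⟨lv r, r, h1, h2, rfl⟩
    obtain ⟨r, h1, h2, h3⟩ := Nat.find_spec h'
    refine ⟨r, h1, h2, fun r' h4 h5 => ?_⟩
    rw [h3]
    exact Nat.find_min' h' ⟨r', h4, h5, rfl⟩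
  let mm : A.V → K → P := fun v i =>
    if h : ∃ r, Win v r ∧ idx r = i then (hmin v i h).choose else r0
  have hmm : ∀ v r, Win v r → Win v (mm v (idx r)) ∧ idx (mm v (idx r)) = idx r ∧
      le (mm v (idx r)) r := by
    intro v r hr
    have h : ∃ r', Win v r' ∧ idx r' = idx r := ⟨r, hr, rfl⟩
    have hs := (hmin v (idx r) h).choose_spec
    have he : mm v (idx r) = (hmin v (idx r) h).choose := dif_pos h
    rw [he]
    exact ⟨hs.1, hs.2.1, hchain _ _ hs.2.1 (hs.2.2 r hr rfl)⟩
  let upd : K → A.Edge → K := fun i e => idx (δ (mm e.1 i) e.2.1)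
  let M : A.Memory := ⟨K, inferInstance, idx r0, upd⟩
  let mv : A.V → K → A.Edge := fun v i =>
    if h : ∃ e ∈ A.E, e.1 = v ∧ Win e.2.2 (δ (mm v i) e.2.1) then h.choose else (A.out v).choose
  have hmv : ∀ v i, mv v i ∈ A.E ∧ (mv v i).1 = v := by
    intro v i
    by_cases h : ∃ e ∈ A.E, e.1 = v ∧ Win e.2.2 (δ (mm v i) e.2.1)
    · have : mv v i = h.choose := dif_pos h
      rw [this]
      exact ⟨h.choose_spec.1, h.choose_spec.2.1⟩
    · have : mv v i = (A.out v).choose := dif_neg h
      rw [this]
      exact (A.out v).choose_spec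
  let S : A.Strat :=
    { act := fun u p => mv (A.last u p) (p.foldl upd (idx r0))
      valid := fun u p _ _ => hmv _ _ }
  refine ⟨M, rfl, S, ?_, ?_⟩
  · intro u₁ p₁ u₂ p₂ _ _ _ hl hf
    show mv _ _ = mv _ _
    rw [hl]
    have : p₁.foldl upd (idx r0) = p₂.foldl upd (idx r0) := hf
    rw [this]
  · rintro u hu π hπ hc
    have hu' : Win u r0 := hu
    have key : ∀ n, ∃ r, Win (π n).1 r ∧ idx r = ((List.range n).map π).foldl upd (idx r0) ∧
        le r (((List.range n).map (fun n => (π n).2.1)).foldl δ r0) ∧
        r = mm (π n).1 (idx r) := by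
      intro n
      induction n with
      | zero =>
        obtain ⟨h1, h2, h3⟩ := hmm u r0 hu'
        refine ⟨mm u (idx r0), ?_, h2, h3, ?_⟩
        · rw [hπ.1]; exact h1
        · rw [hπ.1, h2]
      | succ n ih =>
        obtain ⟨r, h1, h2, h3, h4⟩ := ih
        have hE := (hπ.2 n).1
        have hnext := (hπ.2 n).2
        obtain ⟨a, ha, hstep⟩ := win_step _ r h1
        have hW : Win (π n).2.2 (δ r (π n).2.1) := by
          by_cases hp : A.prot (π n).1
          · have hact : π n = mv (π n).1 (idx r) := by
              have h5 : π n = mv (A.last u ((List.range n).map π))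
                (((List.range n).map π).foldl upd (idx r0)) := hc n hp
              rw [hπ.last n, ← h2] at h5
              exact h5
            have hex : ∃ e ∈ A.E, e.1 = (π n).1 ∧ Win e.2.2 (δ (mm (π n).1 (idx r)) e.2.1) := by
              refine ⟨a, (ha hp).1, (ha hp).2, ?_⟩
              rw [← h4]
              exact hstep a (ha hp).1 (ha hp).2 (fun _ => rfl)
            have hm : mv (π n).1 (idx r) = hex.choose := dif_pos hex
            have hspec := hex.choose_spec.2.2
            rw [← hm, ← hact, ← h4] at hspec
            exact hspec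
          · exact hstep (π n) hE rfl (fun h => absurd h hp)
        obtain ⟨g1, g2, g3⟩ := hmm _ _ hW
        refine ⟨mm (π n).2.2 (idx (δ r (π n).2.1)), ?_, ?_, ?_, ?_⟩
        · rw [hnext]; exact g1
        · rw [g2, Arena.hist_succ, List.foldl_append, ← h2]
          show _ = idx (δ (mm (π n).1 (idx r)) (π n).2.1)
          rw [← h4]
        · rw [Arena.hist_succ, List.foldl_append]
          exact le_trans _ _ _ g3 (hmono _ _ _ h3)
        · rw [hnext, g2]
    intro n hb
    obtain ⟨r, h1, _, h3, _⟩ := key n
    exact win_not_bad _ _ h1 (hbad _ _ h3 hb)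

end Safety

end V11259.Mem
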