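import Mathlib
import Pool.Agent.V11259.Mem

/-!
# The ladder condition

A safety condition over six colours given by an infinite monotone automaton whose states form four
well-ordered chains. General memory four suffices, no finite chromatic memory does.
-/

namespace V11259.Mem

open Arena

/-- The six colours. -/
inductive Col : Type
  | a : Col
  | b : Col
  | d (k : Bool) : Col
  | e : Col
  | f : Col
  deriving DecidableEq, Fintype

/-- The states of the ladder automaton. -/
inductive Q : Type
  | lad (i : Bool) (n : ℕ) : Q
  | t (n : ℕ) : Q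
  | top : Q
  | bot : Q
  deriving DecidableEq

/-- The transitions. -/
def δ : Q → Col → Q
  | .lad i n, .a => .lad i (n + 1)
  | .lad i n, .b => .lad (Bool.xor i (decide (IsSquare n))) n
  | .lad i n, .d k => if k = i then .t n else
      match n with
      | 0 => .bot
      | m + 1 => .t m
  | .lad _ _, .e => .bot
  | .lad _ _, .f => .bot
  | .t 0, .e => .bot
  | .t (n + 1), .e => .t n
  | .t _, .f => .top
  | .t _, .a => .bot
  | .t _, .b => .bot
  | .t _, .d _ => .bot
  | .top, _ => .top
  | .bot, _ => .bot

/-- The order on the states. -/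
def le : Q → Q → Prop
  | .bot, _ => True
  | _, .top => True
  | .lad i n, .lad j m => n < m ∨ (n = m ∧ i = j)
  | .t n, .t m => n ≤ m
  | _, _ => False

/-- The ladder condition: the run never reaches `bot`. -/
def ladder : Set (ℕ → Col) := Safe δ (fun q => q = .bot) (.lad false 0)

lemma le_refl (r : Q) : le r r := by
  cases r <;> simp [le]

lemma le_trans' (r r' r'' : Q) (h : le r r') (h' : le r' r'') : le r r'' := by
  cases r <;> cases r' <;> cases r'' <;> simp only [le] at * <;> try trivial
  · rename_i i n j m l k
    rcases h with h | ⟨h, h2⟩ <;> rcases h' with h' | ⟨h', h3⟩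
    · left; omega
    · left; omega
    · left; omega
    · right; exact ⟨h.trans h', h2.trans h3⟩
  · omega

lemma le_mono (r r' : Q) (c : Col) (h : le r r') : le (δ r c) (δ r' c) := by
  cases r with
  | bot => cases c <;> simp [δ, le]
  | top =>
    cases r' <;> simp only [le] at h
    cases c <;> simp [δ, le]
  | t n =>
    cases r' with
    | bot => simp [le] at h
    | lad j m => simp [le] at h
    | top => cases c <;> cases n <;> simp [δ, le]
    | t m =>
      simp only [le] at h
      cases c <;> cases n <;> cases m <;> simp [δ, le] <;> omega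
  | lad i n =>
    cases r' with
    | bot => simp [le] at h
    | t m => simp [le] at h
    | top =>
      cases c with
      | d k =>
        simp only [δ]
        split_ifs
        · simp [le]
        · cases n <;> simp [le]
      | _ => simp [δ, le]
    | lad j m =>
      simp only [le] at h
      cases c with
      | a =>
        simp only [δ, le]
        rcases h with h | ⟨h1, h2⟩
        · exact Or.inl (by omega)
        · exact Or.inr ⟨by omega, h2⟩
      | b =>
        simp only [δ, le]
        rcases h with h | ⟨h1, h2⟩
        · exact Or.inl h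
        · subst h1; subst h2; exact Or.inr ⟨rfl, rfl⟩
      | d k =>
        rcases h with h | ⟨h1, h2⟩
        · obtain ⟨m, rfl⟩ : ∃ m', m = m' + 1 := ⟨m - 1, by omega⟩
          simp only [δ]
          split_ifs
          · simp only [le]; omega
          · simp only [le]; omega
          · cases n with
            | zero => simp [le]
            | succ n => simp only [le]; omega
          · cases n with
            | zero => simp [le]
            | succ n => simp only [le]; omega
        · subst h1; subst h2; exact le_refl _
      | e => simp [δ, le]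
      | f => simp [δ, le]

/-- The chain of a state. -/
def chain : Q → Bool × Bool
  | .lad i _ => (true, i)
  | .t _ => (false, false)
  | .bot => (false, false)
  | .top => (false, true)

/-- The level of a state in its chain. -/
def level : Q → ℕ
  | .lad _ n => n
  | .t n => n + 1
  | .bot => 0
  | .top => 0

theorem ladder_gen : GenSuffices ladder 4 := by
  have h : Nat.card (Bool × Bool) = 4 := by simp
  have := gen_suffices (K := Bool × Bool) δ (fun q => q = .bot) le le_trans' le_mono
    (by
      rintro r r' h rfl
      cases r <;> simp [le] at h ⊢) chain level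
    (by
      intro r r' h1 h2
      cases r <;> cases r' <;> simp_all [chain, level, le]
      omega) (.lad false 0)
  rw [h] at this
  exact this

/-! ### Chromatic memory does not suffice -/

lemma iter_eq {M : Type} [Finite M] (f : M → M) (k : ℕ) (hk : Nat.card M = k) (n : ℕ)
    (hn : k ≤ n) : f^[n + k.factorial] = f^[n] := by
  funext m
  obtain ⟨i, j, hij, hjk, heq⟩ : ∃ i j, i < j ∧ j ≤ k ∧ f^[i] m = f^[j] m := by
    by_contra hcon
    push Not at hcon
    have hinj : Function.Injective (fun i : Fin (k + 1) => f^[(i : ℕ)] m) := by
      intro x y hxy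
      simp only at hxy
      rcases lt_trichotomy x y with h | h | h
      · exact absurd hxy (hcon x y h (Nat.lt_succ_iff.1 y.2))
      · exact h
      · exact absurd hxy.symm (hcon y x h (Nat.lt_succ_iff.1 x.2))
    have := Nat.card_le_card_of_injective _ hinj
    rw [hk, Nat.card_eq_fintype_card, Fintype.card_fin] at this
    omega
  have hper : ∀ q t, i ≤ t → f^[t + q * (j - i)] m = f^[t] m := by
    intro q
    induction q with
    | zero => intro t _; simp
    | succ q ih =>
      intro t ht
      have h1 : f^[t + (j - i)] m = f^[t] m := by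
        have e1 : t + (j - i) = (t - i) + j := by omega
        have e2 : t = (t - i) + i := by omega
        conv_rhs => rw [e2]
        rw [e1, Function.iterate_add_apply, Function.iterate_add_apply, heq]
      have e3 : t + (q + 1) * (j - i) = (t + q * (j - i)) + (j - i) := by ring
      have e4 : t + (q + 1) * (j - i) = (t + (j - i)) + q * (j - i) := by ring
      rw [e4, ih _ (by omega), h1]
  obtain ⟨q, hq⟩ : (j - i) ∣ k.factorial := Nat.dvd_factorial (by omega) (by omega)
  rw [hq, mul_comm]
  exact hper q n (by omega)

section Arena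

variable (s L k : ℕ)

/-- The position of the letter `b`. -/
def pos (i : Bool) : ℕ := if i then s else s + L

/-- The colours of the arena. -/
def colr (i : Bool) (j : ℕ) (c : Bool) : Col :=
  if j ≤ s + L + k then (if j = pos s L i then .b else .a)
  else if j = s + L + k + 1 then .d c
  else if j ≤ 2 * (s + L + k) + 1 then .e
  else .f

/-- The nodes of the arena. -/
def nd (i : Bool) (t : ℕ) : Bool × Fin (2 * (s + L + k) + 3) :=
  (if t ≤ s + L + k then i else false, ⟨min t (2 * (s + L + k) + 2), by omega⟩)

/-- The successor. -/
def sc (v : Bool × Fin (2 * (s + L + k) + 3)) : Bool × Fin (2 * (s + L + k) + 3) :=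
  (if v.2.val < s + L + k then v.1 else false, ⟨min (v.2.val + 1) (2 * (s + L + k) + 2), by omega⟩)

lemma sc_nd (i : Bool) (t : ℕ) : sc s L k (nd s L k i t) = nd s L k i (t + 1) := by
  simp only [sc, nd, Prod.mk.injEq, Fin.mk.injEq]
  constructor
  · by_cases h : t < s + L + k
    · have h1 : min t (2 * (s + L + k) + 2) < s + L + k := by omega
      rw [if_pos h1, if_pos (by omega), if_pos (by omega)]
    · have h1 : ¬ min t (2 * (s + L + k) + 2) < s + L + k := by omega
      rw [if_neg h1, if_neg (by omega)]
  · omega

/-- The arena separating the words `a^s b a^(L+k)` and `a^(s+L) b a^k`. -/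
def arena : Arena Col where
  V := Bool × Fin (2 * (s + L + k) + 3)
  finV := inferInstance
  neV := ⟨(false, 0)⟩
  prot _ := True
  E := {e | ∃ c : Bool, e.2.1 = colr s L k e.1.1 e.1.2 c ∧ e.2.2 = sc s L k e.1}
  finE := Set.toFinite _
  out v := ⟨(v, colr s L k v.1 v.2 false, sc s L k v), ⟨false, rfl, rfl⟩, rfl⟩

variable {s L k}

lemma play_nd {i : Bool} {π : ℕ → (arena s L k).Edge}
    (h : (arena s L k).IsPlay (nd s L k i 0) π) (n : ℕ) : (π n).1 = nd s L k i n := by
  induction n with
  | zero => exact h.1
  | succ n ih =>
    rw [(h.2 n).2]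
    obtain ⟨c, _, h2⟩ := (h.2 n).1
    rw [h2, ih, sc_nd]

lemma colr_min (i : Bool) (n : ℕ) (c : Bool) :
    colr s L k (if n ≤ s + L + k then i else false) (min n (2 * (s + L + k) + 2)) c =
      colr s L k i n c := by
  by_cases hn : n ≤ s + L + k
  · rw [if_pos hn, min_eq_left (by omega)]
  · rw [if_neg hn]
    unfold colr
    rw [if_neg (by omega), if_neg hn]
    by_cases h2 : n = s + L + k + 1
    · rw [if_pos (by omega), if_pos h2]
    · rw [if_neg (by omega), if_neg h2]
      by_cases h3 : n ≤ 2 * (s + L + k) + 1
      · rw [if_pos (by omega), if_pos h3]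
      · rw [if_neg (by omega), if_neg h3]

lemma colr_mid (i : Bool) (c : Bool) : colr s L k i (s + L + k + 1) c = .d c := by
  simp [colr]

lemma play_col {i : Bool} {π : ℕ → (arena s L k).Edge}
    (h : (arena s L k).IsPlay (nd s L k i 0) π) :
    ∃ c, ∀ n, (π n).2.1 = colr s L k i n c := by
  have h1 : ∀ n, ∃ c, (π n).2.1 = colr s L k i n c := by
    intro n
    obtain ⟨c, h1, _⟩ := (h.2 n).1
    refine ⟨c, ?_⟩
    rw [h1, play_nd h n]
    exact colr_min i n c
  obtain ⟨c, hc⟩ := h1 (s + L + k + 1)
  refine ⟨c, fun n => ?_⟩
  obtain ⟨c', hc'⟩ := h1 n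
  by_cases hn : n = s + L + k + 1
  · rw [hn, hc]
  · rw [hc']
    simp only [colr, if_neg hn]

/-- The run of the automaton. -/
def run (w : ℕ → Col) (n : ℕ) : Q := ((List.range n).map w).foldl δ (.lad false 0)

lemma run_succ (w : ℕ → Col) (n : ℕ) : run w (n + 1) = δ (run w n) (w n) := by
  rw [run, run, hist_succ, List.foldl_append]
  rfl

lemma pos_le (i : Bool) : pos s L i ≤ s + L + k := by
  cases i
  · simp [pos]
  · simp [pos]; omega

lemma run_word (i c : Bool) (n : ℕ) (hn : n ≤ s + L + k + 1) :
    run (fun n => colr s L k i n c) n =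
      if n ≤ pos s L i then .lad false n else .lad (decide (IsSquare (pos s L i))) (n - 1) := by
  induction n with
  | zero => simp [run]
  | succ n ih =>
    rw [run_succ, ih (by omega)]
    have hcol : colr s L k i n c = if n = pos s L i then .b else .a := by
      simp only [colr]
      rw [if_pos (by omega)]
    rw [hcol]
    rcases lt_trichotomy n (pos s L i) with h | h | h
    · rw [if_pos h.le, if_neg (by omega), if_pos (by omega)]
      rfl
    · rw [if_pos h.le, if_pos h, if_neg (by omega)]
      simp [δ, ← h]
    · rw [if_neg (by omega), if_neg (by omega), if_neg (by omega)]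
      show Q.lad _ (n - 1 + 1) = _
      congr 1
      omega

lemma run_good (i : Bool) (j : ℕ) (hj : j ≤ s + L + k) :
    run (fun n => colr s L k i n (decide (IsSquare (pos s L i)))) (s + L + k + 2 + j) =
      .t (s + L + k - j) := by
  induction j with
  | zero =>
    rw [add_zero, run_succ, run_word i _ _ le_rfl, if_neg (by have := pos_le (k := k) (s := s) (L := L) i; omega)]
    have hcol : colr s L k i (s + L + k + 1) (decide (IsSquare (pos s L i))) =
        .d (decide (IsSquare (pos s L i))) := by
      simp [colr]
    rw [hcol]
    simp [δ]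
  | succ j ih =>
    rw [← add_assoc, run_succ, ih (by omega)]
    have hcol : colr s L k i (s + L + k + 2 + j) (decide (IsSquare (pos s L i))) = .e := by
      simp only [colr]
      rw [if_neg (by omega), if_neg (by omega), if_pos (by omega)]
    rw [hcol]
    obtain ⟨m, hm⟩ : ∃ m, s + L + k - j = m + 1 := ⟨s + L + k - j - 1, by omega⟩
    rw [hm]
    show Q.t m = _
    congr 1
    omega

lemma run_good_top (i : Bool) (j : ℕ) :
    run (fun n => colr s L k i n (decide (IsSquare (pos s L i)))) (2 * (s + L + k) + 3 + j) =
      .top := by
  induction j with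
  | zero =>
    have e : 2 * (s + L + k) + 3 + 0 = (s + L + k + 2 + (s + L + k)) + 1 := by ring
    rw [e, run_succ, run_good i _ le_rfl]
    have hcol : colr s L k i (s + L + k + 2 + (s + L + k)) (decide (IsSquare (pos s L i))) = .f := by
      simp only [colr]
      rw [if_neg (by omega), if_neg (by omega), if_neg (by omega)]
    rw [hcol]
    simp [δ]
  | succ j ih =>
    rw [← add_assoc, run_succ, ih]
    rfl

lemma good_mem (i : Bool) :
    (fun n => colr s L k i n (decide (IsSquare (pos s L i)))) ∈ ladder := by
  intro n
  show run _ n ≠ .bot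
  rcases le_or_gt n (s + L + k + 1) with h | h
  · rw [run_word i _ n h]
    split_ifs <;> simp
  · rcases le_or_gt n (2 * (s + L + k) + 2) with h2 | h2
    · obtain ⟨j, rfl⟩ : ∃ j, n = s + L + k + 2 + j := ⟨n - (s + L + k + 2), by omega⟩
      rw [run_good i j (by omega)]
      simp
    · obtain ⟨j, rfl⟩ : ∃ j, n = 2 * (s + L + k) + 3 + j := ⟨n - (2 * (s + L + k) + 3), by omega⟩
      rw [run_good_top i j]
      simp

lemma run_bad (i c : Bool) (hc : c ≠ decide (IsSquare (pos s L i))) (j : ℕ)
    (hj : j < s + L + k) :
    run (fun n => colr s L k i n c) (s + L + k + 2 + j) = .t (s + L + k - 1 - j) := by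
  induction j with
  | zero =>
    rw [add_zero, run_succ, run_word i _ _ le_rfl, if_neg (by have := pos_le (k := k) (s := s) (L := L) i; omega)]
    have hcol : colr s L k i (s + L + k + 1) c = .d c := by
      simp [colr]
    rw [hcol]
    obtain ⟨m, hm⟩ : ∃ m, s + L + k = m + 1 := ⟨s + L + k - 1, by omega⟩
    have e1 : s + L + k + 1 - 1 = m + 1 := by omega
    have e2 : s + L + k - 1 - 0 = m := by omega
    rw [e1, e2]
    simp only [δ, if_neg hc]
  | succ j ih =>
    rw [← add_assoc, run_succ, ih (by omega)]
    have hcol : colr s L k i (s + L + k + 2 + j) c = .e := by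
      simp only [colr]
      rw [if_neg (by omega), if_neg (by omega), if_pos (by omega)]
    rw [hcol]
    obtain ⟨m, hm⟩ : ∃ m, s + L + k - 1 - j = m + 1 := ⟨s + L + k - 1 - j - 1, by omega⟩
    rw [hm]
    show Q.t m = _
    congr 1
    omega

lemma bad_not_mem (i c : Bool) (hc : c ≠ decide (IsSquare (pos s L i))) (hN : 0 < s + L + k) :
    (fun n => colr s L k i n c) ∉ ladder := by
  intro h
  apply h (2 * (s + L + k) + 2)
  show run _ _ = .bot
  have e : 2 * (s + L + k) + 2 = (s + L + k + 2 + (s + L + k - 1)) + 1 := by omega
  rw [e, run_succ, run_bad i c hc _ (by omega)]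
  have hcol : colr s L k i (s + L + k + 2 + (s + L + k - 1)) c = .e := by
    simp only [colr]
    rw [if_neg (by omega), if_neg (by omega), if_pos (by omega)]
  rw [hcol]
  have : s + L + k - 1 - (s + L + k - 1) = 0 := by omega
  rw [this]
  rfl

/-- The strategy that plays `d c`. -/
def strat (s L k : ℕ) (c : Bool) : (arena s L k).Strat where
  act u p := ((arena s L k).last u p,
    colr s L k ((arena s L k).last u p).1 ((arena s L k).last u p).2 c,
    sc s L k ((arena s L k).last u p))
  valid _ _ _ _ := ⟨⟨c, rfl, rfl⟩, rfl⟩

lemma strat_wins (i : Bool) :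
    (arena s L k).Wins ladder (strat s L k (decide (IsSquare (pos s L i)))) (nd s L k i 0) := by
  intro π hπ hc
  obtain ⟨c, hcol⟩ := play_col hπ
  have h1 := hcol (s + L + k + 1)
  have h2 := hc (s + L + k + 1) trivial
  have h3 : (π (s + L + k + 1)).2.1 = .d (decide (IsSquare (pos s L i))) := by
    rw [h2]
    show colr s L k _ _ _ = _
    rw [hπ.last, play_nd hπ]
    simp only [nd, colr]
    rw [if_neg (by omega), if_pos (by omega)]
  have h4 : colr s L k i (s + L + k + 1) c = .d c := by simp [colr]
  rw [h3, h4] at h1
  injection h1 with h1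
  have : (fun n => (π n).2.1) = fun n => colr s L k i n (decide (IsSquare (pos s L i))) := by
    funext n
    rw [hcol n, h1]
  rw [this]
  exact good_mem i

end Arena

lemma foldl_word {M : Type} (g : M → Col → M) (m : M) {s L k : ℕ} (i c : Bool) (n : ℕ)
    (hn : n ≤ s + L + k + 1) :
    ((List.range n).map (fun n => colr s L k i n c)).foldl g m =
      if n ≤ pos s L i then (fun m => g m .a)^[n] m
      else (fun m => g m .a)^[n - 1 - pos s L i] (g ((fun m => g m .a)^[pos s L i] m) .b) := by
  induction n with
  | zero => simp
  | succ n ih =>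
    rw [hist_succ, List.foldl_append, ih (by omega)]
    have hcol : colr s L k i n c = if n = pos s L i then .b else .a := by
      simp only [colr]
      rw [if_pos (by omega)]
    rw [hcol]
    rcases lt_trichotomy n (pos s L i) with h | h | h
    · rw [if_pos h.le, if_neg (by omega), if_pos (by omega)]
      simp only [List.foldl_cons, List.foldl_nil]
      rw [Function.iterate_succ_apply']
    · rw [if_pos h.le, if_pos h, if_neg (by omega)]
      have : n + 1 - 1 - pos s L i = 0 := by omega
      rw [this, ← h]
      rfl
    · rw [if_neg (by omega), if_neg (by omega), if_neg (by omega)]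
      have : n + 1 - 1 - pos s L i = (n - 1 - pos s L i) + 1 := by omega
      rw [this, Function.iterate_succ_apply']
      rfl

lemma ladder_chr (k : ℕ) (hk : 1 ≤ k) : ¬ ChrSuffices ladder k := by
  classical
  intro hsuff
  set L := k.factorial with hL
  have hLpos : 0 < L := Nat.factorial_pos k
  set m := L + k with hm
  set s := m * m with hs
  obtain ⟨M, hchr, hcard, S, hbuilt, hopt⟩ := hsuff (arena s L k)
  have := M.fin
  have hsk : k ≤ s := by nlinarith
  have sq1 : IsSquare s := ⟨m, rfl⟩
  have sq2 : ¬ IsSquare (s + L) := by
    rintro ⟨r, hr⟩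
    have h1 : m < r := by
      by_contra hcon
      push Not at hcon
      have : r * r ≤ m * m := Nat.mul_le_mul hcon hcon
      omega
    have h2 : (m + 1) * (m + 1) ≤ r * r := Nat.mul_le_mul h1 h1
    nlinarith
  -- chromatic update
  let g : M.M → Col → M.M := fun q c =>
    if h : ∃ e ∈ (arena s L k).E, e.2.1 = c then M.upd q h.choose else q
  have hg : ∀ q, ∀ e ∈ (arena s L k).E, M.upd q e = g q e.2.1 := by
    intro q e he
    have h : ∃ e' ∈ (arena s L k).E, e'.2.1 = e.2.1 := ⟨e, he, rfl⟩
    show _ = (if h : ∃ e' ∈ (arena s L k).E, e'.2.1 = e.2.1 then M.upd q h.choose else q)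
    rw [dif_pos h]
    exact hchr q e he _ h.choose_spec.1 h.choose_spec.2.symm
  have hfold : ∀ (l : List (arena s L k).Edge) (q : M.M), (∀ e ∈ l, e ∈ (arena s L k).E) →
      l.foldl M.upd q = (l.map (fun e => e.2.1)).foldl g q := by
    intro l
    induction l with
    | nil => intro q _; rfl
    | cons e l ih =>
      intro q hl
      simp only [List.foldl_cons, List.map_cons]
      rw [hg q e (hl e (by simp)), ih _ (fun e' he' => hl e' (by simp [he']))]
  -- the two plays
  have hplay : ∀ i, ∃ π, (arena s L k).IsPlay (nd s L k i 0) π ∧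
      ∀ n, π n = S.act (nd s L k i 0) ((List.range n).map π) := by
    intro i
    exact exists_play _ _ (fun p hp => S.valid _ p hp trivial)
  choose π hπ hact using hplay
  have hcol : ∀ i, ∀ n, (π i n).2.1 = colr s L k i n (decide (IsSquare (pos s L i))) := by
    intro i
    have hw : (arena s L k).Wins ladder S (nd s L k i 0) :=
      hopt _ ⟨_, strat_wins i⟩
    have h1 := hw (π i) (hπ i) (fun n _ => hact i n)
    obtain ⟨c, hc⟩ := play_col (hπ i)
    by_cases hcc : c = decide (IsSquare (pos s L i))
    · rw [← hcc]; exact hc
    · exfalso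
      apply bad_not_mem (s := s) (L := L) (k := k) i c hcc (by omega)
      have : (fun n => (π i n).2.1) = fun n => colr s L k i n c := funext hc
      rw [← this]
      exact h1
  have hmem : ∀ i, ((List.range (s + L + k + 1)).map (π i)).foldl M.upd M.init =
      (fun m => g m .a)^[k] (g ((fun m => g m .a)^[s] M.init) .b) := by
    intro i
    rw [hfold _ _ (by
      intro e he
      obtain ⟨n, _, rfl⟩ := List.mem_map.1 he
      exact ((hπ i).2 n).1), List.map_map]
    have : ((fun e : (arena s L k).Edge => e.2.1) ∘ π i) =
        fun n => colr s L k i n (decide (IsSquare (pos s L i))) := funext (hcol i)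
    rw [this, foldl_word g M.init i _ _ le_rfl, if_neg (by
      have := pos_le (s := s) (L := L) (k := k) i
      omega)]
    cases i with
    | true =>
      have e1 : s + L + k + 1 - 1 - pos s L true = k + L := by simp [pos]; omega
      have e2 : pos s L true = s := by simp [pos]
      rw [e1, e2, iter_eq _ k hcard k le_rfl]
    | false =>
      have e1 : s + L + k + 1 - 1 - pos s L false = k := by simp [pos]
      have e2 : pos s L false = s + L := by simp [pos]
      rw [e1, e2, iter_eq _ k hcard s hsk]
  have hsame : S.act (nd s L k true 0) ((List.range (s + L + k + 1)).map (π true)) =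
      S.act (nd s L k false 0) ((List.range (s + L + k + 1)).map (π false)) := by
    apply hbuilt
    · exact (hπ true).path _
    · exact (hπ false).path _
    · trivial
    · rw [(hπ true).last, (hπ false).last, play_nd (hπ true), play_nd (hπ false)]
      simp [nd]
    · rw [hmem, hmem]
  rw [← hact, ← hact] at hsame
  have h1 := hcol true (s + L + k + 1)
  have h2 := hcol false (s + L + k + 1)
  rw [hsame, h2, colr_mid, colr_mid] at h1
  injection h1 with h1
  have e1 : pos s L true = s := by simp [pos]
  have e2 : pos s L false = s + L := by simp [pos]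
  rw [e1, e2] at h1
  simp [sq1, sq2] at h1

theorem ladder_chrMem : chrMem ladder = ⊤ := by
  unfold chrMem
  have : {x : ℕ∞ | ∃ k : ℕ, 1 ≤ k ∧ ChrSuffices ladder k ∧ x = k} = ∅ := by
    ext x
    constructor
    · rintro ⟨k, h1, h2, _⟩
      exact absurd h2 (ladder_chr k h1)
    · intro h
      exact absurd h (Set.notMem_empty _)
  rw [this, sInf_empty]

theorem ladder_genMem : genMem ladder < ⊤ := by
  refine lt_of_le_of_lt (sInf_le ⟨4, by norm_num, ladder_gen, rfl⟩) ?_
  exact WithTop.coe_lt_top 4

end V11259.Mem
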