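import Mathlib
import Pool.Agent.V11259.MemLadder

/-!
# The complement of the ladder condition

The player who wants to leave the ladder condition also needs only finite general memory.
-/

namespace V11259.Mem

open Arena

section

variable (A : Arena Col)

/-- The protagonist can force the run to reach `bot` within `k` steps. -/
def Att : ℕ → A.V → Q → Prop
  | 0, _, r => r = .bot
  | k + 1, v, r => r = .bot ∨ (A.prot v ∧ ∃ e ∈ A.E, e.1 = v ∧ Att k e.2.2 (δ r e.2.1)) ∨
      (¬ A.prot v ∧ ∀ e ∈ A.E, e.1 = v → Att k e.2.2 (δ r e.2.1))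

variable {A}

lemma att_succ {k : ℕ} : ∀ {v : A.V} {r : Q}, Att A k v r → Att A (k + 1) v r := by
  induction k with
  | zero => intro v r h; exact Or.inl h
  | succ k ih =>
    intro v r h
    rcases h with h | ⟨h1, e, he, h2, h3⟩ | ⟨h1, h2⟩
    · exact Or.inl h
    · exact Or.inr (Or.inl ⟨h1, e, he, h2, ih h3⟩)
    · exact Or.inr (Or.inr ⟨h1, fun e he hv => ih (h2 e he hv)⟩)

lemma att_le {k k' : ℕ} (hk : k ≤ k') {v : A.V} {r : Q} (h : Att A k v r) : Att A k' v r := by
  induction hk with
  | refl => exact h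
  | step _ ih => exact att_succ ih

lemma att_mono {k : ℕ} : ∀ {v : A.V} {r r' : Q}, le r r' → Att A k v r' → Att A k v r := by
  induction k with
  | zero =>
    intro v r r' hle h
    have h' : r' = .bot := h
    subst h'
    show r = .bot
    cases r <;> simp [le] at hle ⊢
  | succ k ih =>
    intro v r r' hle h
    rcases h with h | ⟨h1, e, he, h2, h3⟩ | ⟨h1, h2⟩
    · subst h
      left
      cases r <;> simp [le] at hle ⊢
    · exact Or.inr (Or.inl ⟨h1, e, he, h2, ih (le_mono _ _ _ hle) h3⟩)
    · exact Or.inr (Or.inr ⟨h1, fun e he hv => ih (le_mono _ _ _ hle) (h2 e he hv)⟩)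

/-- Winning positions. -/
def Win (A : Arena Col) (v : A.V) (r : Q) : Prop := ∃ k, Att A k v r

lemma Win.mono {v : A.V} {r r' : Q} (hle : le r r') (h : Win A v r') : Win A v r := by
  obtain ⟨k, h⟩ := h
  exact ⟨k, att_mono hle h⟩

/-- The rank of a winning position. -/
noncomputable def rank (A : Arena Col) (v : A.V) (r : Q) : ℕ := sInf {k | Att A k v r}

lemma Win.rank_spec {v : A.V} {r : Q} (h : Win A v r) : Att A (rank A v r) v r :=
  Nat.sInf_mem (s := {k | Att A k v r}) h

lemma rank_le {v : A.V} {r : Q} {k : ℕ} (h : Att A k v r) : rank A v r ≤ k :=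
  Nat.sInf_le (s := {k | Att A k v r}) h

lemma rank_mono {v : A.V} {r r' : Q} (hle : le r r') (h : Win A v r') :
    rank A v r ≤ rank A v r' := rank_le (att_mono hle h.rank_spec)

lemma win_step {v : A.V} {r : Q} (h : Win A v r) (hr : r ≠ .bot) :
    (A.prot v → ∃ e ∈ A.E, e.1 = v ∧ Win A e.2.2 (δ r e.2.1) ∧
      rank A e.2.2 (δ r e.2.1) < rank A v r) ∧
    (¬ A.prot v → ∀ e ∈ A.E, e.1 = v → Win A e.2.2 (δ r e.2.1) ∧
      rank A e.2.2 (δ r e.2.1) < rank A v r) := by
  have hs := h.rank_spec
  obtain ⟨k, hk⟩ : ∃ k, rank A v r = k + 1 := by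
    rcases Nat.eq_zero_or_pos (rank A v r) with h0 | h0
    · rw [h0] at hs
      exact absurd hs hr
    · exact ⟨rank A v r - 1, by omega⟩
  rw [hk] at hs ⊢
  rcases hs with hs | ⟨h1, e, he, h2, h3⟩ | ⟨h1, h2⟩
  · exact absurd hs hr
  · exact ⟨fun _ => ⟨e, he, h2, ⟨k, h3⟩, Nat.lt_succ_of_le (rank_le h3)⟩, fun h => absurd h1 h⟩
  · exact ⟨fun h => absurd h h1,
      fun _ e he hv => ⟨⟨k, h2 e he hv⟩, Nat.lt_succ_of_le (rank_le (h2 e he hv))⟩⟩

lemma not_win_prot {v : A.V} {r : Q} (h : ¬ Win A v r) (hp : A.prot v) (e : A.Edge)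
    (he : e ∈ A.E) (hv : e.1 = v) : ¬ Win A e.2.2 (δ r e.2.1) := by
  rintro ⟨k, hk⟩
  exact h ⟨k + 1, Or.inr (Or.inl ⟨hp, e, he, hv, hk⟩)⟩

lemma not_win_ant {v : A.V} {r : Q} (h : ¬ Win A v r) (hp : ¬ A.prot v) :
    ∃ e ∈ A.E, e.1 = v ∧ ¬ Win A e.2.2 (δ r e.2.1) := by
  by_contra hcon
  push Not at hcon
  apply h
  have h1 : ∀ e ∈ A.E, ∃ k, e.1 = v → Att A k e.2.2 (δ r e.2.1) := by
    intro e he
    by_cases hv : e.1 = v
    · obtain ⟨k, hk⟩ := hcon e he hv
      exact ⟨k, fun _ => hk⟩
    · exact ⟨0, fun h => absurd h hv⟩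
  choose! f hf using h1
  obtain ⟨K, hK⟩ := (A.finE.image f).bddAbove
  refine ⟨K + 1, Or.inr (Or.inr ⟨hp, fun e he hv => ?_⟩)⟩
  exact att_le (hK ⟨e, he, rfl⟩) (hf e he hv)

lemma not_win_top (v : A.V) : ¬ Win A v .top := by
  rintro ⟨k, hk⟩
  induction k generalizing v with
  | zero => cases hk
  | succ k ih =>
    rcases hk with h | ⟨_, e, _, _, h3⟩ | ⟨_, h2⟩
    · cases h
    · exact ih _ h3
    · obtain ⟨e, he, hv⟩ := A.out v
      exact ih _ (h2 e he hv)

lemma win_of_wins {u : A.V} {r : Q} {S : A.Strat}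
    (hS : A.Wins {w | ∃ n, ((List.range n).map w).foldl δ r = .bot} S u) : Win A u r := by
  classical
  by_contra hcon
  let T : List A.Edge → A.Edge := fun p =>
    if A.prot (A.last u p) then S.act u p
    else if h : ∃ e ∈ A.E, e.1 = A.last u p ∧
      ¬ Win A e.2.2 (δ ((p.map (fun e => e.2.1)).foldl δ r) e.2.1) then h.choose
    else (A.out (A.last u p)).choose
  obtain ⟨π, hπ, hact⟩ := exists_play u T (by
    intro p hp
    show (if A.prot (A.last u p) then S.act u p
    else if h : ∃ e ∈ A.E, e.1 = A.last u p ∧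
      ¬ Win A e.2.2 (δ ((p.map (fun e => e.2.1)).foldl δ r) e.2.1) then h.choose
    else (A.out (A.last u p)).choose) ∈ A.E ∧ _
    show _ ∧ (if A.prot (A.last u p) then S.act u p
    else if h : ∃ e ∈ A.E, e.1 = A.last u p ∧
      ¬ Win A e.2.2 (δ ((p.map (fun e => e.2.1)).foldl δ r) e.2.1) then h.choose
    else (A.out (A.last u p)).choose).1 = _
    split_ifs with h1 h2
    · exact S.valid u p hp h1
    · exact ⟨h2.choose_spec.1, h2.choose_spec.2.1⟩
    · exact (A.out (A.last u p)).choose_spec)
  have hcons : A.Consistent S u π := by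
    intro n hn
    have h1 := hact n
    rw [h1]
    show (if A.prot (A.last u _) then _ else _) = _
    rw [hπ.last n, if_pos hn]
  obtain ⟨n, hn⟩ := hS π hπ hcons
  have key : ∀ n, ¬ Win A (π n).1 (((List.range n).map (fun n => (π n).2.1)).foldl δ r) := by
    intro n
    induction n with
    | zero => rw [hπ.1]; exact hcon
    | succ n ih =>
      rw [(hπ.2 n).2, hist_succ, List.foldl_append]
      show ¬ Win A (π n).2.2 (δ _ (π n).2.1)
      by_cases hp : A.prot (π n).1
      · exact not_win_prot ih hp _ (hπ.2 n).1 rfl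
      · have hex : ∃ e ∈ A.E, e.1 = A.last u ((List.range n).map π) ∧
            ¬ Win A e.2.2 (δ ((((List.range n).map π).map (fun e => e.2.1)).foldl δ r) e.2.1) := by
          rw [hπ.last n, List.map_map]
          exact not_win_ant ih hp
        have h1 : π n = hex.choose := by
          have h2 := hact n
          have h3 : T ((List.range n).map π) = hex.choose := by
            show (if A.prot (A.last u _) then _ else _) = _
            rw [if_neg (by rw [hπ.last n]; exact hp)]
            exact dif_pos hex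
          rw [h3] at h2
          exact h2
        have h4 := hex.choose_spec.2.2
        rw [← h1, List.map_map] at h4
        exact h4
  apply key n
  have hn' : ((List.range n).map (fun n => (π n).2.1)).foldl δ r = .bot := hn
  rw [hn']
  exact ⟨0, rfl⟩

/-! ### Thresholds -/

/-- The nodes from which all ladder levels are winning. -/
def ZL (A : Arena Col) (v : A.V) : Prop := ∀ i n, Win A v (.lad i n)

/-- The nodes from which all `t`-levels are winning. -/
def ZT (A : Arena Col) (v : A.V) : Prop := ∀ n, Win A v (.t n)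

lemma exists_bound (A : Arena Col) : ∃ B : ℕ, ∀ v : A.V,
    (∀ i n, B ≤ n → Win A v (.lad i n) → ZL A v) ∧ (∀ n, B ≤ n → Win A v (.t n) → ZT A v) := by
  have h1 : ∀ v : A.V, ∃ b : ℕ, (∀ i n, b ≤ n → Win A v (.lad i n) → ZL A v) ∧
      (∀ n, b ≤ n → Win A v (.t n) → ZT A v) := by
    intro v
    have hL : ∃ b : ℕ, ∀ i n, b ≤ n → Win A v (.lad i n) → ZL A v := by
      by_cases h : ZL A v
      · exact ⟨0, fun _ _ _ _ => h⟩
      · unfold ZL at h
        push Not at h
        obtain ⟨i0, n0, h0⟩ := h
        refine ⟨n0 + 1, fun i n hn hw => absurd (hw.mono ?_) h0⟩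
        exact Or.inl (by omega)
    have hT : ∃ b : ℕ, ∀ n, b ≤ n → Win A v (.t n) → ZT A v := by
      by_cases h : ZT A v
      · exact ⟨0, fun _ _ _ => h⟩
      · unfold ZT at h
        push Not at h
        obtain ⟨n0, h0⟩ := h
        refine ⟨n0, fun n hn hw => absurd (hw.mono ?_) h0⟩
        exact hn
    obtain ⟨b1, hb1⟩ := hL
    obtain ⟨b2, hb2⟩ := hT
    exact ⟨max b1 b2, fun i n hn => hb1 i n (le_of_max_le_left hn),
      fun n hn => hb2 n (le_of_max_le_right hn)⟩
  choose b hb using h1
  have := A.finV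
  obtain ⟨B, hB⟩ := (Set.finite_range b).bddAbove
  refine ⟨B, fun v => ⟨fun i n hn => (hb v).1 i n ((hB ⟨v, rfl⟩).trans hn),
    fun n hn => (hb v).2 n ((hB ⟨v, rfl⟩).trans hn)⟩⟩

open Classical in
/-- The greatest winning ladder level up to `B + 1` in the chain `i`. -/
noncomputable def NL (A : Arena Col) (B : ℕ) (v : A.V) (i : Bool) : ℕ :=
  Nat.findGreatest (fun n => Win A v (.lad i n)) (B + 1)

open Classical in
/-- The greatest winning `t`-level up to `B + 1`. -/
noncomputable def NT (A : Arena Col) (B : ℕ) (v : A.V) : ℕ :=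
  Nat.findGreatest (fun n => Win A v (.t n)) (B + 1)

lemma NL_spec {B : ℕ} {v : A.V} {i : Bool} {n : ℕ} (hn : n ≤ B + 1) (h : Win A v (.lad i n)) :
    Win A v (.lad i (NL A B v i)) ∧ n ≤ NL A B v i ∧ NL A B v i ≤ B + 1 := by
  classical
  exact ⟨Nat.findGreatest_spec (P := fun n => Win A v (.lad i n)) hn h,
    Nat.le_findGreatest hn h, Nat.findGreatest_le _⟩

lemma NT_spec {B : ℕ} {v : A.V} {n : ℕ} (hn : n ≤ B + 1) (h : Win A v (.t n)) :
    Win A v (.t (NT A B v)) ∧ n ≤ NT A B v ∧ NT A B v ≤ B + 1 := by
  classical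
  exact ⟨Nat.findGreatest_spec (P := fun n => Win A v (.t n)) hn h,
    Nat.le_findGreatest hn h, Nat.findGreatest_le _⟩

/-- The virtual state. -/
noncomputable def vs (A : Arena Col) (B : ℕ) (v : A.V) : Option Bool → Q
  | some i => .lad i (NL A B v i)
  | none => .t (NT A B v)

/-- The chain of a state. -/
def ch : Q → Option Bool
  | .lad i _ => some i
  | _ => none

/-- The memory update. -/
noncomputable def updB (A : Arena Col) (B : ℕ) : Option Bool → A.Edge → Option Bool
  | none, _ => none
  | some i, e => ch (δ (vs A B e.1 (some i)) e.2.1)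

open Classical in
/-- The move. -/
noncomputable def mvB (A : Arena Col) (B : ℕ) (v : A.V) (m : Option Bool) : A.Edge :=
  if h : ∃ e ∈ A.E, e.1 = v ∧ Win A e.2.2 (δ (vs A B v m) e.2.1) ∧
    rank A e.2.2 (δ (vs A B v m) e.2.1) < rank A v (vs A B v m) then h.choose
  else (A.out v).choose

lemma mvB_spec (B : ℕ) (v : A.V) (m : Option Bool) : mvB A B v m ∈ A.E ∧ (mvB A B v m).1 = v := by
  unfold mvB
  split_ifs with h
  · exact ⟨h.choose_spec.1, h.choose_spec.2.1⟩
  · exact (A.out v).choose_spec

/-- The strategy. -/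
noncomputable def stratB (A : Arena Col) (B : ℕ) : A.Strat where
  act u p := mvB A B (A.last u p) (p.foldl (updB A B) (some false))
  valid _ _ _ _ := mvB_spec _ _ _

/-! ### The main argument -/

/-- The data of a play consistent with the strategy. -/
structure Run (A : Arena Col) (B : ℕ) where
  v : ℕ → A.V
  c : ℕ → Col
  m : ℕ → Option Bool
  r : ℕ → Q
  hm : ∀ t, m (t + 1) = updB A B (m t) (v t, c t, v (t + 1))
  hr : ∀ t, r (t + 1) = δ (r t) (c t)
  key : ∀ t, Win A (v t) (vs A B (v t) (m t)) →
    Win A (v (t + 1)) (δ (vs A B (v t) (m t)) (c t)) ∧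
      rank A (v (t + 1)) (δ (vs A B (v t) (m t)) (c t)) < rank A (v t) (vs A B (v t) (m t))

lemma run_T {B : ℕ} (hB : ∀ v : A.V, ∀ n, B ≤ n → Win A v (.t n) → ZT A v) (R : Run A B) :
    ∀ (n' t : ℕ), R.m t = none → R.r t = .t n' → Win A (R.v t) (.t (NT A B (R.v t))) →
      (ZT A (R.v t) ∨ n' ≤ NT A B (R.v t)) → ∃ n, R.r n = .bot := by
  intro n'
  induction n' with
  | zero =>
    intro t hm hr hW _
    have hk := R.key t
    rw [hm] at hk
    have hk := hk hW
    have hr' := R.hr t
    rw [hr] at hr'
    cases hc : R.c t with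
    | f =>
      rw [hc] at hk
      exact absurd hk.1 (by
        have : δ (vs A B (R.v t) none) .f = .top := by
          show δ (.t (NT A B (R.v t))) .f = .top
          cases NT A B (R.v t) <;> rfl
        rw [this]
        exact not_win_top _)
    | _ => rw [hc] at hr'; exact ⟨t + 1, hr'⟩
  | succ n' ih =>
    intro t hm hr hW hZ
    have hk := R.key t
    rw [hm] at hk
    have hk := hk hW
    have hr' := R.hr t
    rw [hr] at hr'
    have hm' := R.hm t
    rw [hm] at hm'
    have hm'' : R.m (t + 1) = none := hm'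
    cases hc : R.c t with
    | f =>
      rw [hc] at hk
      exact absurd hk.1 (by
        have : δ (vs A B (R.v t) none) .f = .top := by
          show δ (.t (NT A B (R.v t))) .f = .top
          cases NT A B (R.v t) <;> rfl
        rw [this]
        exact not_win_top _)
    | e =>
      rw [hc] at hr' hk
      have hr'' : R.r (t + 1) = .t n' := hr'
      rcases hZ with hZ | hZ
      · have h1 : NT A B (R.v t) = B + 1 := by
          have := NT_spec (A := A) (B := B) le_rfl (hZ (B + 1))
          omega
        have h2 : Win A (R.v (t + 1)) (.t B) := by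
          have := hk.1
          have e1 : δ (vs A B (R.v t) none) .e = .t B := by
            show δ (.t (NT A B (R.v t))) .e = .t B
            rw [h1]
            rfl
          rw [e1] at this
          exact this
        have h3 := hB _ _ le_rfl h2
        exact ih (t + 1) hm'' hr'' (NT_spec (n := 0) (by omega) (h3 0)).1 (Or.inl h3)
      · obtain ⟨N, hN⟩ : ∃ N, NT A B (R.v t) = N + 1 := ⟨NT A B (R.v t) - 1, by omega⟩
        have hNB : N + 1 ≤ B + 1 := by
          have : NT A B (R.v t) ≤ B + 1 := by
            classical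
            exact Nat.findGreatest_le _
          omega
        have h2 : Win A (R.v (t + 1)) (.t N) := by
          have := hk.1
          have e1 : δ (vs A B (R.v t) none) .e = .t N := by
            show δ (.t (NT A B (R.v t))) .e = .t N
            rw [hN]
            rfl
          rw [e1] at this
          exact this
        have h3 := NT_spec (A := A) (B := B) (by omega) h2
        exact ih (t + 1) hm'' hr'' h3.1 (Or.inr (by omega))
    | _ => rw [hc] at hr'; exact ⟨t + 1, hr'⟩

lemma run_LZ {B : ℕ} (hB : ∀ v : A.V, (∀ i n, B ≤ n → Win A v (.lad i n) → ZL A v) ∧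
      (∀ n, B ≤ n → Win A v (.t n) → ZT A v)) (R : Run A B) :
    ∀ (ρ t : ℕ) (i : Bool), R.m t = some i → (∃ i' n', R.r t = .lad i' n') → ZL A (R.v t) →
      rank A (R.v t) (.lad i (B + 1)) ≤ ρ → ∃ n, R.r n = .bot := by
  intro ρ
  induction ρ with
  | zero =>
    intro t i _ _ hZ hρ
    have h1 := (hZ i (B + 1)).rank_spec
    have h2 : rank A (R.v t) (.lad i (B + 1)) = 0 := by omega
    rw [h2] at h1
    cases h1
  | succ ρ ih =>
    rintro t i hm ⟨i', n', hr⟩ hZ hρ
    have hNL : NL A B (R.v t) i = B + 1 := by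
      have := NL_spec (A := A) (B := B) le_rfl (hZ i (B + 1))
      omega
    have hk := R.key t
    have hvs : vs A B (R.v t) (some i) = .lad i (B + 1) := by
      show Q.lad i (NL A B (R.v t) i) = _
      rw [hNL]
    rw [hm, hvs] at hk
    have hk := hk (hZ i (B + 1))
    have hr' := R.hr t
    rw [hr] at hr'
    have hm' := R.hm t
    rw [hm] at hm'
    have hm'' : R.m (t + 1) = ch (δ (vs A B (R.v t) (some i)) (R.c t)) := hm'
    rw [hvs] at hm''
    cases hc : R.c t with
    | e => rw [hc] at hr'; exact ⟨t + 1, hr'⟩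
    | f => rw [hc] at hr'; exact ⟨t + 1, hr'⟩
    | a =>
      rw [hc] at hr' hk hm''
      have h1 : Win A (R.v (t + 1)) (.lad i (B + 1 + 1)) := hk.1
      have h2 : rank A (R.v (t + 1)) (.lad i (B + 1 + 1)) < rank A (R.v t) (.lad i (B + 1)) := hk.2
      have hZ' : ZL A (R.v (t + 1)) := (hB _).1 i _ (by omega) h1
      refine ih (t + 1) i hm'' ⟨_, _, hr'⟩ hZ' ?_
      have h3 : rank A (R.v (t + 1)) (.lad i (B + 1)) ≤ rank A (R.v (t + 1)) (.lad i (B + 1 + 1)) :=
        rank_mono (Or.inl (by omega)) h1
      omega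
    | b =>
      rw [hc] at hr' hk hm''
      have h1 : Win A (R.v (t + 1)) (.lad (Bool.xor i (decide (IsSquare (B + 1)))) (B + 1)) := hk.1
      have h2 : rank A (R.v (t + 1)) (.lad (Bool.xor i (decide (IsSquare (B + 1)))) (B + 1)) <
        rank A (R.v t) (.lad i (B + 1)) := hk.2
      have hZ' : ZL A (R.v (t + 1)) := (hB _).1 _ _ (by omega) h1
      exact ih (t + 1) _ hm'' ⟨_, _, hr'⟩ hZ' (by omega)
    | d k =>
      rw [hc] at hr' hk hm''
      have hcase : ∃ x, B ≤ x ∧ δ (.lad i (B + 1)) (.d k) = .t x := by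
        simp only [δ]
        split_ifs
        · exact ⟨B + 1, by omega, rfl⟩
        · exact ⟨B, le_rfl, rfl⟩
      obtain ⟨x, hx, hδ⟩ := hcase
      rw [hδ] at hk hm''
      have hZ' : ZT A (R.v (t + 1)) := (hB _).2 x hx hk.1
      have hm3 : R.m (t + 1) = none := hm''
      have hcase2 : R.r (t + 1) = .bot ∨ ∃ y, R.r (t + 1) = .t y := by
        rw [hr']
        simp only [δ]
        split_ifs
        · exact Or.inr ⟨_, rfl⟩
        · cases n' with
          | zero => exact Or.inl rfl
          | succ n' => exact Or.inr ⟨_, rfl⟩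
      rcases hcase2 with h | ⟨y, hy⟩
      · exact ⟨_, h⟩
      · exact run_T (fun v => (hB v).2) R y (t + 1) hm3 hy
          (NT_spec (n := 0) (by omega) (hZ' 0)).1 (Or.inl hZ')

lemma run_LN {B : ℕ} (hB : ∀ v : A.V, (∀ i n, B ≤ n → Win A v (.lad i n) → ZL A v) ∧
      (∀ n, B ≤ n → Win A v (.t n) → ZT A v)) (R : Run A B) :
    ∀ (β ρ t : ℕ) (i i' : Bool) (n' : ℕ), R.m t = some i → R.r t = .lad i' n' →
      Win A (R.v t) (.lad i (NL A B (R.v t) i)) → le (.lad i' n') (.lad i (NL A B (R.v t) i)) →
      B + 1 - (NL A B (R.v t) i - n') ≤ β → rank A (R.v t) (.lad i (NL A B (R.v t) i)) ≤ ρ →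
      ∃ n, R.r n = .bot := by
  intro β
  induction β using Nat.strong_induction_on with
  | _ β ihβ =>
    intro ρ
    induction ρ using Nat.strong_induction_on with
    | _ ρ ihρ =>
      intro t i i' n' hm hr hW hle hβ hρ
      by_cases hZ : ZL A (R.v t)
      · exact run_LZ hB R _ t i hm ⟨_, _, hr⟩ hZ le_rfl
      have hk := R.key t
      set N := NL A B (R.v t) i with hN
      have hNB : N < B := by
        by_contra hcon
        exact hZ ((hB _).1 i N (not_lt.1 hcon) hW)
      have hvs : vs A B (R.v t) (some i) = .lad i N := rfl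
      rw [hm, hvs] at hk
      have hk := hk hW
      have hr' := R.hr t
      rw [hr] at hr'
      have hm' := R.hm t
      rw [hm] at hm'
      have hm'' : R.m (t + 1) = ch (δ (vs A B (R.v t) (some i)) (R.c t)) := hm'
      rw [hvs] at hm''
      -- the common continuation in ladder mode
      have cont : ∀ (j j' : Bool) (N1 n1 : ℕ), R.m (t + 1) = some j → R.r (t + 1) = .lad j' n1 →
          Win A (R.v (t + 1)) (.lad j N1) →
          rank A (R.v (t + 1)) (.lad j N1) < rank A (R.v t) (.lad i N) →
          le (.lad j' n1) (.lad j N1) → N1 ≤ B + 1 → N1 - n1 = N - n' → n1 ≤ N1 →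
          ∃ n, R.r n = .bot := by
        intro j j' N1 n1 hm1 hr1 hW1 hrk hle1 hN1 hsl hn1
        obtain ⟨g1, g2, g3⟩ := NL_spec (A := A) (B := B) hN1 hW1
        have hle2 : le (.lad j' n1) (.lad j (NL A B (R.v (t + 1)) j)) := by
          refine le_trans' _ _ _ hle1 ?_
          rcases Nat.lt_or_ge N1 (NL A B (R.v (t + 1)) j) with h | h
          · exact Or.inl h
          · exact Or.inr ⟨by omega, rfl⟩
        rcases Nat.lt_or_ge N1 (NL A B (R.v (t + 1)) j) with h | h
        · exact ihβ (B + 1 - (NL A B (R.v (t + 1)) j - n1)) (by omega) _ (t + 1) j j' n1 hm1 hr1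
            g1 hle2 le_rfl le_rfl
        · have hE : NL A B (R.v (t + 1)) j = N1 := by omega
          refine ihρ (rank A (R.v (t + 1)) (.lad j N1)) (by omega) (t + 1) j j' n1 hm1 hr1
            g1 hle2 ?_ ?_
          · rw [hE]; omega
          · rw [hE]
      have hn'N : n' ≤ N := by
        rcases hle with h | ⟨h, _⟩
        · exact h.le
        · exact h.le
      cases hc : R.c t with
      | e => rw [hc] at hr'; exact ⟨t + 1, hr'⟩
      | f => rw [hc] at hr'; exact ⟨t + 1, hr'⟩
      | a =>
        rw [hc] at hr' hk hm''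
        exact cont i i' (N + 1) (n' + 1) hm'' hr' hk.1 hk.2 (le_mono _ _ .a hle) (by omega)
          (by omega) (by omega)
      | b =>
        rw [hc] at hr' hk hm''
        exact cont _ _ N n' hm'' hr' hk.1 hk.2 (le_mono _ _ .b hle) (by omega) rfl hn'N
      | d k =>
        rw [hc] at hr' hk hm''
        have hle' := le_mono _ _ (.d k) hle
        rw [← hr'] at hle'
        have hcase : δ (.lad i N) (.d k) = .bot ∨ ∃ x, x ≤ N ∧ δ (.lad i N) (.d k) = .t x := by
          simp only [δ]
          split_ifs
          · exact Or.inr ⟨N, le_rfl, rfl⟩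
          · cases N with
            | zero => exact Or.inl rfl
            | succ N => exact Or.inr ⟨N, by omega, rfl⟩
        rcases hcase with hb | ⟨x, hx, hδ⟩
        · rw [hb] at hle'
          refine ⟨t + 1, ?_⟩
          generalize R.r (t + 1) = q at hle'
          cases q <;> simp [le] at hle' ⊢
        · rw [hδ] at hk hm'' hle'
          have hm3 : R.m (t + 1) = none := hm''
          have hcase2 : R.r (t + 1) = .bot ∨ ∃ y, y ≤ x ∧ R.r (t + 1) = .t y := by
            generalize R.r (t + 1) = q at hle'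
            cases q with
            | bot => exact Or.inl rfl
            | t y => exact Or.inr ⟨y, hle', rfl⟩
            | lad _ _ => exact absurd hle' (by simp [le])
            | top => exact absurd hle' (by simp [le])
          rcases hcase2 with h | ⟨y, hy, hry⟩
          · exact ⟨_, h⟩
          · obtain ⟨g1, g2, _⟩ := NT_spec (A := A) (B := B) (n := x) (by omega) hk.1
            exact run_T (fun v => (hB v).2) R y (t + 1) hm3 hry g1 (Or.inr (by omega))

theorem co_gen : GenSuffices ladderᶜ 3 := by
  classical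
  intro A
  obtain ⟨B, hB⟩ := exists_bound A
  have hobj : ladderᶜ = {w | ∃ n, ((List.range n).map w).foldl δ (.lad false 0) = .bot} := by
    ext w
    simp [ladder, Safe]
  refine ⟨⟨Option Bool, inferInstance, some false, updB A B⟩, by simp, stratB A B, ?_, ?_⟩
  · intro u₁ p₁ u₂ p₂ _ _ _ hl hf
    show mvB _ _ _ _ = mvB _ _ _ _
    rw [hl]
    have : p₁.foldl (updB A B) (some false) = p₂.foldl (updB A B) (some false) := hf
    rw [this]
  · rintro u ⟨S, hS⟩ π hπ hc
    rw [hobj] at hS ⊢
    have hW := win_of_wins hS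
    let R : Run A B :=
      { v := fun t => (π t).1
        c := fun t => (π t).2.1
        m := fun t => ((List.range t).map π).foldl (updB A B) (some false)
        r := fun t => ((List.range t).map (fun n => (π n).2.1)).foldl δ (.lad false 0)
        hm := by
          intro t
          rw [hist_succ, List.foldl_append, (hπ.2 t).2]
          rfl
        hr := by
          intro t
          rw [hist_succ, List.foldl_append]
          rfl
        key := by
          intro t hWt
          have hne : vs A B (π t).1 (((List.range t).map π).foldl (updB A B) (some false)) ≠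
              .bot := by
            generalize ((List.range t).map π).foldl (updB A B) (some false) = m
            cases m <;> simp [vs]
          have hst := win_step hWt hne
          rw [(hπ.2 t).2]
          by_cases hp : A.prot (π t).1
          · have hex := hst.1 hp
            have h1 : π t = mvB A B (π t).1
                (((List.range t).map π).foldl (updB A B) (some false)) := by
              have h2 : π t = mvB A B (A.last u ((List.range t).map π))
                (((List.range t).map π).foldl (updB A B) (some false)) := hc t hp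
              rw [hπ.last t] at h2
              exact h2
            have h3 : mvB A B (π t).1
                (((List.range t).map π).foldl (updB A B) (some false)) = hex.choose :=
              dif_pos hex
            have h4 := hex.choose_spec.2.2
            rw [← h3, ← h1] at h4
            exact h4
          · exact hst.2 hp (π t) (hπ.2 t).1 rfl }
    have h0 : R.v 0 = u := hπ.1
    obtain ⟨g1, g2, g3⟩ := NL_spec (A := A) (B := B) (by omega : 0 ≤ B + 1) hW
    obtain ⟨n, hn⟩ := run_LN hB R _ _ 0 false false 0 rfl rfl (by rw [h0]; exact g1) (by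
      rcases Nat.eq_zero_or_pos (NL A B (R.v 0) false) with h | h
      · exact Or.inr ⟨h.symm, rfl⟩
      · exact Or.inl h) le_rfl le_rfl
    exact ⟨n, hn⟩

theorem co_genMem : genMem ladderᶜ < ⊤ := by
  refine lt_of_le_of_lt (sInf_le ⟨3, by norm_num, co_gen, rfl⟩) ?_
  exact WithTop.coe_lt_top 3

end

end V11259.Mem
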