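import Mathlib

set_option autoImplicit false

/-! Inverse monoids given by presentations, and their representations. -/

namespace Pool.Agent.V11259.TreeMon

/-- Words over `A ∪ A⁻¹`: the letter `(a, true)` is `a` and `(a, false)` is `a⁻¹`. -/
abbrev Wd (α : Type) : Type := List (α × Bool)

/-- The formal inverse of a word. -/
def wi {α : Type} (w : Wd α) : Wd α := (w.map (fun x => (x.1, !x.2))).reverse

section words

variable {α : Type}

@[simp] theorem wi_nil : wi ([] : Wd α) = [] := rfl

@[simp] theorem wi_append (u v : Wd α) : wi (u ++ v) = wi v ++ wi u := by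
  simp [wi]

@[simp] theorem wi_wi (u : Wd α) : wi (wi u) = u := by
  simp [wi, List.map_reverse, Function.comp_def]

theorem wi_cons (x : α × Bool) (u : Wd α) : wi (x :: u) = wi u ++ [(x.1, !x.2)] := by
  simp [wi]

@[simp] theorem wi_singleton (x : α × Bool) : wi [x] = [(x.1, !x.2)] := rfl

end words

/-- The congruence on words defining the inverse monoid `Inv⟨α | R⟩`: it is generated by `R` and
the Vagner relations `w w⁻¹ w = w` and `w w⁻¹ v v⁻¹ = v v⁻¹ w w⁻¹`. -/
inductive Eqv {α : Type} (R : Wd α → Wd α → Prop) : Wd α → Wd α → Prop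
  | of {u v : Wd α} : R u v → Eqv R u v
  | vag (w : Wd α) : Eqv R (w ++ wi w ++ w) w
  | vag' (w v : Wd α) : Eqv R (w ++ wi w ++ (v ++ wi v)) (v ++ wi v ++ (w ++ wi w))
  | refl (u : Wd α) : Eqv R u u
  | symm {u v : Wd α} : Eqv R u v → Eqv R v u
  | trans {u v w : Wd α} : Eqv R u v → Eqv R v w → Eqv R u w
  | app {u v u' v' : Wd α} : Eqv R u v → Eqv R u' v' → Eqv R (u ++ u') (v ++ v')

/-- The setoid. -/
def eqvSetoid {α : Type} (R : Wd α → Wd α → Prop) : Setoid (Wd α) :=
  ⟨Eqv R, ⟨Eqv.refl, Eqv.symm, Eqv.trans⟩⟩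

/-- The inverse monoid `Inv⟨α | R⟩`. -/
def IM {α : Type} (R : Wd α → Wd α → Prop) : Type := Quotient (eqvSetoid R)

section basic

variable {α : Type} {R : Wd α → Wd α → Prop}

/-- The element represented by a word. -/
def mk (R : Wd α → Wd α → Prop) (w : Wd α) : IM R := Quotient.mk (eqvSetoid R) w

theorem mk_eq {u v : Wd α} (h : Eqv R u v) : mk R u = mk R v := Quotient.sound h

theorem mk_exact {u v : Wd α} (h : mk R u = mk R v) : Eqv R u v := Quotient.exact h

instance : Monoid (IM R) where
  mul := Quotient.map₂ (fun u v : Wd α => u ++ v) (fun _ _ h _ _ h' => Eqv.app h h')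
  one := mk R []
  mul_assoc := by
    rintro ⟨a⟩ ⟨b⟩ ⟨c⟩
    exact congrArg (mk R) (List.append_assoc a b c)
  one_mul := by
    rintro ⟨a⟩
    exact congrArg (mk R) (List.nil_append a)
  mul_one := by
    rintro ⟨a⟩
    exact congrArg (mk R) (List.append_nil a)

theorem mk_append (u v : Wd α) : mk R (u ++ v) = mk R u * mk R v := rfl

theorem mk_cons (x : α × Bool) (v : Wd α) : mk R (x :: v) = mk R [x] * mk R v := rfl

theorem mk_nil : mk R [] = 1 := rfl

theorem mk_surj (s : IM R) : ∃ w, mk R w = s := Quotient.exists_rep s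

theorem mk_mk_mk (w : Wd α) : mk R w * mk R (wi w) * mk R w = mk R w := mk_eq (Eqv.vag w)

theorem mki_mk_mki (w : Wd α) : mk R (wi w) * mk R w * mk R (wi w) = mk R (wi w) := by
  have := mk_mk_mk (R := R) (wi w)
  rwa [wi_wi] at this

theorem mk_comm (w v : Wd α) : mk R w * mk R (wi w) * (mk R v * mk R (wi v)) =
    mk R v * mk R (wi v) * (mk R w * mk R (wi w)) := mk_eq (Eqv.vag' w v)

theorem idem_mk (w : Wd α) : mk R w * mk R (wi w) * (mk R w * mk R (wi w)) =
    mk R w * mk R (wi w) := by
  rw [← mul_assoc, mk_mk_mk]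

theorem idem_form {w : Wd α} (h : mk R w * mk R w = mk R w) :
    mk R (wi w) = mk R w ∧ mk R w * mk R (wi w) = mk R w := by
  set e := mk R w with he
  set i := mk R (wi w) with hi
  have h1 : e * i * e = e := mk_mk_mk w
  have h2 : i * e * i = i := mki_mk_mki w
  have h3 : e * i * (i * e) = i * e * (e * i) := by
    have := mk_comm (R := R) w (wi w)
    rwa [wi_wi] at this
  have h4 : i = e * (i * i) * e := by
    calc i = i * e * i := h2.symm
      _ = i * (e * e) * i := by rw [h]
      _ = i * e * (e * i) := by simp only [mul_assoc]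
      _ = e * i * (i * e) := h3.symm
      _ = _ := by simp only [mul_assoc]
  have h5 : e * i = i := by
    calc e * i = e * (e * (i * i) * e) := by rw [← h4]
      _ = (e * e) * (i * i) * e := by simp only [mul_assoc]
      _ = e * (i * i) * e := by rw [h]
      _ = i := h4.symm
  have h6 : i * e = i := by
    calc i * e = (e * (i * i) * e) * e := by rw [← h4]
      _ = e * (i * i) * (e * e) := by simp only [mul_assoc]
      _ = e * (i * i) * e := by rw [h]
      _ = i := h4.symm
  have h7 : e = i := by
    calc e = e * i * e := h1.symm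
      _ = i := by rw [h5, h6]
  refine ⟨h7.symm, ?_⟩
  rw [h5, ← h7]

theorem idem_comm {e f : IM R} (he : e * e = e) (hf : f * f = f) : e * f = f * e := by
  obtain ⟨w, rfl⟩ := mk_surj e
  obtain ⟨v, rfl⟩ := mk_surj f
  have h := mk_comm (R := R) w v
  rwa [(idem_form he).2, (idem_form hf).2] at h

theorem idem_mul {e f : IM R} (he : e * e = e) (hf : f * f = f) : e * f * (e * f) = e * f := by
  calc e * f * (e * f) = e * (f * e) * f := by simp only [mul_assoc]
    _ = e * (e * f) * f := by rw [idem_comm he hf]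
    _ = (e * e) * (f * f) := by simp only [mul_assoc]
    _ = e * f := by rw [he, hf]

theorem mul_idem (w : Wd α) {e : IM R} (he : e * e = e) :
    mk R w * e = mk R w * e * mk R (wi w) * mk R w := by
  have h1 : mk R (wi w) * mk R w * (mk R (wi w) * mk R w) = mk R (wi w) * mk R w := by
    have := idem_mk (R := R) (wi w)
    rwa [wi_wi] at this
  calc mk R w * e = (mk R w * mk R (wi w) * mk R w) * e := by rw [mk_mk_mk]
    _ = mk R w * (mk R (wi w) * mk R w * e) := by simp only [mul_assoc]
    _ = mk R w * (e * (mk R (wi w) * mk R w)) := by rw [idem_comm h1 he]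
    _ = _ := by simp only [mul_assoc]

theorem conj_idem (w : Wd α) {e : IM R} (he : e * e = e) :
    mk R w * e * mk R (wi w) * (mk R w * e * mk R (wi w)) = mk R w * e * mk R (wi w) := by
  calc mk R w * e * mk R (wi w) * (mk R w * e * mk R (wi w))
      = (mk R w * e * mk R (wi w) * mk R w) * e * mk R (wi w) := by simp only [mul_assoc]
    _ = (mk R w * e) * e * mk R (wi w) := by rw [← mul_idem w he]
    _ = mk R w * (e * e) * mk R (wi w) := by simp only [mul_assoc]
    _ = _ := by rw [he]

/-- If `s u` is in the `R`-class of `s` then `s u u⁻¹ = s`. -/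
theorem rclass_unit {s : IM R} {u : Wd α} {v : IM R} (h : s * mk R u * v = s) :
    s * mk R u * mk R (wi u) = s := by
  obtain ⟨w, rfl⟩ := mk_surj s
  set e := mk R (wi w) * mk R w with he
  have hee : e * e = e := by
    have := idem_mk (R := R) (wi w)
    rwa [wi_wi] at this
  set f := mk R u * mk R (wi u) with hf
  have hff : f * f = f := idem_mk u
  have h1 : e * f * (mk R u * v) = e := by
    calc e * f * (mk R u * v)
        = mk R (wi w) * (mk R w * (mk R u * mk R (wi u) * mk R u) * v) := by
          simp only [he, hf, mul_assoc]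
      _ = mk R (wi w) * (mk R w * mk R u * v) := by rw [mk_mk_mk]
      _ = e := by rw [h]
  have h2 : e * f * e = e := by
    calc e * f * e = e * f * (e * f * (mk R u * v)) := by rw [h1]
      _ = (e * f * (e * f)) * (mk R u * v) := by simp only [mul_assoc]
      _ = e * f * (mk R u * v) := by rw [idem_mul hee hff]
      _ = e := h1
  have h3 : e * f = e := by
    calc e * f = (e * e) * f := by rw [hee]
      _ = e * (e * f) := mul_assoc _ _ _
      _ = e * (f * e) := by rw [idem_comm hee hff]
      _ = e * f * e := (mul_assoc _ _ _).symm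
      _ = e := h2
  calc mk R w * mk R u * mk R (wi u) = (mk R w * mk R (wi w) * mk R w) * f := by
        rw [mk_mk_mk, hf, mul_assoc]
    _ = mk R w * (e * f) := by simp only [he, mul_assoc]
    _ = mk R w * e := by rw [h3]
    _ = mk R w := by rw [he, ← mul_assoc, mk_mk_mk]

/-- Renaming the letters. -/
def rn {α β : Type} (f : β → α) (w : Wd β) : Wd α := w.map (fun x => (f x.1, x.2))

theorem rn_append {β : Type} (f : β → α) (u v : Wd β) : rn f (u ++ v) = rn f u ++ rn f v := by
  simp [rn]

theorem rn_cons {β : Type} (f : β → α) (x : β × Bool) (v : Wd β) :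
    rn f (x :: v) = (f x.1, x.2) :: rn f v := rfl

/-- Words reducing freely to the empty word are idempotents. -/
theorem idem_of_red {β : Type} (f : β → α) {u v : Wd β} (h : FreeGroup.Red u v) :
    ∃ e : IM R, e * e = e ∧ mk R (rn f u) = e * mk R (rn f v) := by
  induction h with
  | refl => exact ⟨1, one_mul 1, (one_mul _).symm⟩
  | tail _ hs ih =>
    obtain ⟨e, he, hu⟩ := ih
    cases hs with
    | @not L1 L2 x b =>
    have hf : mk R [(f x, b)] * mk R [(f x, !b)] * (mk R [(f x, b)] * mk R [(f x, !b)]) =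
      mk R [(f x, b)] * mk R [(f x, !b)] := idem_mk [(f x, b)]
    refine ⟨e * (mk R (rn f L1) * (mk R [(f x, b)] * mk R [(f x, !b)]) * mk R (wi (rn f L1))),
      idem_mul he (conj_idem _ hf), ?_⟩
    have e1 : mk R (rn f (L1 ++ (x, b) :: (x, !b) :: L2)) =
      mk R (rn f L1) * (mk R [(f x, b)] * mk R [(f x, !b)]) * mk R (rn f L2) := by
      rw [rn_append, rn_cons, rn_cons, mk_append]
      rw [mk_cons, mk_cons (f x, !b)]
      simp only [mul_assoc]
    rw [hu, e1, rn_append, mk_append]
    have h8 := mul_idem (rn f L1) hf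
    calc e * (mk R (rn f L1) * (mk R [(f x, b)] * mk R [(f x, !b)]) * mk R (rn f L2))
        = e * ((mk R (rn f L1) * (mk R [(f x, b)] * mk R [(f x, !b)]) * mk R (wi (rn f L1)) *
            mk R (rn f L1)) * mk R (rn f L2)) := by rw [← h8]
      _ = _ := by simp only [mul_assoc]

end basic

/-! ### Representations by labelled functions -/

/-- A monoid with an involution satisfying the laws of inverse monoids. -/
class Lab (E : Type) extends Monoid E where
  iv : E → E
  iv_mul : ∀ e f, iv (e * f) = iv f * iv e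
  iv_iv : ∀ e, iv (iv e) = e
  vag : ∀ e, e * iv e * e = e
  comm : ∀ e f, e * iv e * (f * iv f) = f * iv f * (e * iv e)

/-- Labelled functions on `S`. -/
def K (S E : Type) : Type := S → Option (S × E)

section K

variable {S E : Type}

/-- Composition. -/
def K.mul [Monoid E] (f g : K S E) : K S E := fun s => match f s with
  | none => none
  | some (s1, e1) => match g s1 with
    | none => none
    | some (s2, e2) => some (s2, e1 * e2)

instance [Monoid E] : Monoid (K S E) where
  mul := K.mul
  one := fun s => some (s, 1)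
  mul_assoc f g h := by
    funext s
    change K.mul (K.mul f g) h s = K.mul f (K.mul g h) s
    simp only [K.mul]
    rcases f s with _ | ⟨s1, e1⟩
    · rfl
    · simp only
      rcases g s1 with _ | ⟨s2, e2⟩
      · rfl
      · simp only
        rcases h s2 with _ | ⟨s3, e3⟩
        · rfl
        · simp only [mul_assoc]
  one_mul f := by
    funext s
    change K.mul (fun s => some (s, 1)) f s = f s
    simp only [K.mul]
    rcases f s with _ | ⟨s1, e1⟩
    · rfl
    · simp only [one_mul]
  mul_one f := by
    funext s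
    change K.mul f (fun s => some (s, 1)) s = f s
    simp only [K.mul]
    rcases f s with _ | ⟨s1, e1⟩
    · rfl
    · simp only [mul_one]

theorem K.mul_eq [Monoid E] (f g : K S E) (s : S) : (f * g) s = match f s with
  | none => none
  | some (s1, e1) => match g s1 with
    | none => none
    | some (s2, e2) => some (s2, e1 * e2) := rfl

theorem K.mul_none [Monoid E] {f g : K S E} {s : S} (h : f s = none) : (f * g) s = none := by
  rw [K.mul_eq, h]

theorem K.mul_some [Monoid E] {f g : K S E} {s s1 : S} {e1 : E} (h : f s = some (s1, e1)) :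
    (f * g) s = (g s1).map (fun p => (p.1, e1 * p.2)) := by
  rw [K.mul_eq, h]
  simp only
  rcases g s1 with _ | ⟨s2, e2⟩ <;> rfl

theorem K.one_eq [Monoid E] (s : S) : (1 : K S E) s = some (s, 1) := rfl

/-- Mutually inverse labelled functions. -/
def IsInv [Lab E] (f g : K S E) : Prop :=
  ∀ s t e, f s = some (t, e) ↔ g t = some (s, Lab.iv e)

variable [Lab E]

theorem IsInv.symm {f g : K S E} (h : IsInv f g) : IsInv g f := by
  intro s t e
  have := h t s (Lab.iv e)
  rw [Lab.iv_iv] at this
  exact this.symm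

theorem iv_one : Lab.iv (1 : E) = 1 := by
  have h := Lab.iv_mul (Lab.iv (1 : E)) 1
  simp only [mul_one, Lab.iv_iv] at h
  exact h.symm

theorem IsInv.one : IsInv (1 : K S E) 1 := by
  intro s t e
  constructor
  · intro h
    have := Option.some.inj h
    rw [Prod.mk.injEq] at this
    obtain ⟨rfl, rfl⟩ := this
    rw [iv_one]; rfl
  · intro h
    have := Option.some.inj h
    rw [Prod.mk.injEq] at this
    obtain ⟨rfl, he⟩ := this
    have : e = 1 := by rw [← Lab.iv_iv e, ← he, iv_one]
    rw [this]; rfl

theorem K.mul_eq_some (f g : K S E) (s t : S) (e : E) : (f * g) s = some (t, e) ↔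
    ∃ r e1 e2, f s = some (r, e1) ∧ g r = some (t, e2) ∧ e = e1 * e2 := by
  constructor
  · intro h
    rcases hf : f s with _ | ⟨r, e1⟩
    · rw [K.mul_none hf] at h; cases h
    · rw [K.mul_some hf] at h
      rcases hg : g r with _ | ⟨t', e2⟩
      · rw [hg] at h; cases h
      · rw [hg] at h
        have := Option.some.inj h
        rw [Prod.mk.injEq] at this
        obtain ⟨rfl, rfl⟩ := this
        exact ⟨r, e1, e2, rfl, hg, rfl⟩
  · rintro ⟨r, e1, e2, h1, h2, rfl⟩
    rw [K.mul_some h1, h2]
    rfl

theorem IsInv.mul {f f' g g' : K S E} (hf : IsInv f f') (hg : IsInv g g') :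
    IsInv (f * g) (g' * f') := by
  intro s t e
  rw [K.mul_eq_some, K.mul_eq_some]
  constructor
  · rintro ⟨r, e1, e2, h1, h2, rfl⟩
    exact ⟨r, _, _, (hg _ _ _).mp h2, (hf _ _ _).mp h1, Lab.iv_mul _ _⟩
  · rintro ⟨r, e1, e2, h1, h2, h3⟩
    have h1' := (hg.symm _ _ _).mp h1
    have h2' := (hf.symm _ _ _).mp h2
    refine ⟨r, _, _, h2', h1', ?_⟩
    rw [← Lab.iv_iv e, h3, Lab.iv_mul]

theorem IsInv.unit {f f' : K S E} (hf : IsInv f f') (s : S) :
    (f s = none ∧ (f * f') s = none) ∨
    ∃ t e, f s = some (t, e) ∧ (f * f') s = some (s, e * Lab.iv e) := by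
  rcases h : f s with _ | ⟨t, e⟩
  · left; exact ⟨rfl, K.mul_none h⟩
  · right
    refine ⟨t, e, rfl, ?_⟩
    rw [K.mul_some h, (hf _ _ _).mp h]
    rfl

theorem IsInv.vag {f f' : K S E} (hf : IsInv f f') : f * f' * f = f := by
  funext s
  rcases hf.unit s with ⟨h1, h2⟩ | ⟨t, e, h1, h2⟩
  · rw [K.mul_none h2, h1]
  · rw [K.mul_some h2, h1]
    simp only [Option.map_some, Lab.vag]

theorem IsInv.comm {f f' g g' : K S E} (hf : IsInv f f') (hg : IsInv g g') :
    f * f' * (g * g') = g * g' * (f * f') := by
  funext s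
  rcases hf.unit s with ⟨_, h2⟩ | ⟨t, e, _, h2⟩
  · rw [K.mul_none h2]
    rcases hg.unit s with ⟨_, h4⟩ | ⟨t', e', _, h4⟩
    · rw [K.mul_none h4]
    · rw [K.mul_some h4, h2]; rfl
  · rcases hg.unit s with ⟨_, h4⟩ | ⟨t', e', _, h4⟩
    · rw [K.mul_some h2, h4, K.mul_none h4]; rfl
    · rw [K.mul_some h2, K.mul_some h4, h2, h4]
      simp only [Option.map_some, Lab.comm]

/-- Evaluation of words. -/
def ev {α : Type} (v : α × Bool → K S E) (w : Wd α) : K S E := (w.map v).prod

theorem ev_append {α : Type} (v : α × Bool → K S E) (u w : Wd α) :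
    ev v (u ++ w) = ev v u * ev v w := by
  simp [ev]

theorem ev_cons {α : Type} (v : α × Bool → K S E) (x : α × Bool) (w : Wd α) :
    ev v (x :: w) = v x * ev v w := by
  simp [ev]

theorem ev_nil {α : Type} (v : α × Bool → K S E) : ev v [] = 1 := rfl

theorem ev_isInv {α : Type} {v : α × Bool → K S E}
    (hv : ∀ a, IsInv (v (a, true)) (v (a, false))) (w : Wd α) : IsInv (ev v w) (ev v (wi w)) := by
  induction w with
  | nil => exact IsInv.one
  | cons x w ih =>
    rw [ev_cons, wi_cons, ev_append]
    refine IsInv.mul ?_ ih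
    obtain ⟨a, b⟩ := x
    cases b
    · change IsInv _ (ev v [(a, true)])
      rw [ev_cons, ev_nil, mul_one]
      exact (hv a).symm
    · change IsInv _ (ev v [(a, false)])
      rw [ev_cons, ev_nil, mul_one]
      exact hv a

theorem ev_eqv {α : Type} {R : Wd α → Wd α → Prop} {v : α × Bool → K S E}
    (hv : ∀ a, IsInv (v (a, true)) (v (a, false)))
    (hR : ∀ u w, R u w → ev v u = ev v w) {u w : Wd α} (h : Eqv R u w) : ev v u = ev v w := by
  induction h with
  | of h => exact hR _ _ h
  | vag w =>
    rw [ev_append, ev_append]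
    exact (ev_isInv hv w).vag
  | vag' w w' =>
    simp only [ev_append]
    exact (ev_isInv hv w).comm (ev_isInv hv w')
  | refl => rfl
  | symm _ ih => exact ih.symm
  | trans _ _ ih1 ih2 => exact ih1.trans ih2
  | app _ _ ih1 ih2 => rw [ev_append, ev_append, ih1, ih2]

end K

end Pool.Agent.V11259.TreeMon
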