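import Mathlib
import Pool.Agent.V11259.TreeA

set_option autoImplicit false

/-! The finitely presented inverse monoid and the finiteness of its `R`-classes. -/

namespace Pool.Agent.V11259.TreeMon

/-- The generators: two alphabets `g false i`, `g true i`, two marks `r false`, `r true`, and a
zero `z`. -/
inductive Ge (m : ℕ) : Type
  | g (s : Bool) (i : Fin m)
  | r (b : Bool)
  | z
  deriving DecidableEq

/-- The types of vertices. -/
inductive Ty : Type
  | base
  | rho (b : Bool)
  deriving DecidableEq

/-- The source and target types of a letter. -/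
def ends {m : ℕ} : Ge m × Bool → Option (Ty × Ty)
  | (.g _ _, _) => some (.base, .base)
  | (.r b, true) => some (.base, .rho b)
  | (.r b, false) => some (.rho b, .base)
  | (.z, _) => none

/-- The defining relations: the letters `g false i` commute with the letters `g true j` and their
inverses; `z` is a zero; two consecutive letters of incompatible types give zero;
`(r b)⁻¹ (r b')` is zero for `b' ≠ b`. -/
inductive Rel (m : ℕ) : Wd (Ge m) → Wd (Ge m) → Prop
  | sq (i j : Fin m) (b c : Bool) :
      Rel m [(.g false i, b), (.g true j, c)] [(.g true j, c), (.g false i, b)]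
  | zl (x : Ge m × Bool) : Rel m [(.z, true), x] [(.z, true)]
  | zr (x : Ge m × Bool) : Rel m [x, (.z, true)] [(.z, true)]
  | ty (x y : Ge m × Bool) (p q : Ty × Ty) (hx : ends x = some p) (hy : ends y = some q)
      (h : p.2 ≠ q.1) : Rel m [x, y] [(.z, true)]
  | cf (b : Bool) : Rel m [(.r b, false), (.r (!b), true)] [(.z, true)]

/-- The monoid. -/
abbrev TM (m : ℕ) : Type := IM (Rel m)

section

variable {m : ℕ}

/-- The value of a word in the monoid. -/
abbrev mt (w : Wd (Ge m)) : TM m := mk (Rel m) w

/-- The zero. -/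
def zz : TM m := mt [(.z, true)]

theorem mt_rel {u v : Wd (Ge m)} (h : Rel m u v) : mt u = mt v := mk_eq (Eqv.of h)

theorem zz_mul (w : Wd (Ge m)) : zz * mt w = zz := by
  induction w with
  | nil => exact mul_one _
  | cons x w ih =>
    have h1 : (zz : TM m) * mt [x] = zz := mt_rel (Rel.zl x)
    change zz * mt (x :: w) = zz
    rw [show mt (x :: w) = mt [x] * mt w from rfl, ← mul_assoc, h1, ih]

theorem mul_zz (w : Wd (Ge m)) : mt w * zz = zz := by
  induction w with
  | nil => exact one_mul _
  | cons x w ih =>
    have h1 : mt [x] * (zz : TM m) = zz := mt_rel (Rel.zr x)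
    rw [show mt (x :: w) = mt [x] * mt w from rfl, mul_assoc, ih, h1]

theorem zz_inv : mt [((Ge.z : Ge m), false)] = zz := by
  have h := mki_mk_mki (R := Rel m) [((Ge.z : Ge m), true)]
  have e : wi [((Ge.z : Ge m), true)] = [((Ge.z : Ge m), false)] := rfl
  rw [e] at h
  have h1 : mt [((Ge.z : Ge m), false)] * (zz : TM m) = zz := mul_zz _
  have h2 : (zz : TM m) * mt [((Ge.z : Ge m), false)] = zz := zz_mul _
  refine h.symm.trans ?_
  change mt [((Ge.z : Ge m), false)] * zz * mt [((Ge.z : Ge m), false)] = zz
  rw [h1, h2]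

instance labUnit : Lab Unit where
  iv := id
  iv_mul _ _ := rfl
  iv_iv _ := rfl
  vag _ := rfl
  comm _ _ := rfl

/-- Positions. -/
abbrev Pos (m : ℕ) : Type := Ty × (Bool → FreeGroup (Fin m))

/-- The value of a letter. -/
def lv (i : Fin m) (b : Bool) : FreeGroup (Fin m) := FreeGroup.mk [(i, b)]

theorem lv_mul (i : Fin m) (b : Bool) : lv i b * lv i (!b) = 1 := by
  cases b
  · change (FreeGroup.of i)⁻¹ * FreeGroup.of i = 1
    exact inv_mul_cancel _
  · change FreeGroup.of i * (FreeGroup.of i)⁻¹ = 1
    exact mul_inv_cancel _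

open Classical in
/-- The injective function of a letter on positions, inside the box `P`, the mark `r b` being
placed at the positions of `Q b`. -/
noncomputable def va (P : Bool → Set (FreeGroup (Fin m))) (Q : Bool → Set (Bool → FreeGroup (Fin m)))
    (x : Ge m × Bool) : K (Pos m) Unit := fun σ => match x, σ with
  | (.g s i, b), (.base, p) =>
      if p s ∈ P s ∧ p s * lv i b ∈ P s then
        some ((.base, Function.update p s (p s * lv i b)), ()) else none
  | (.r b, true), (.base, p) => if p ∈ Q b then some ((.rho b, p), ()) else none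
  | (.r b, false), (.rho c, p) => if b = c ∧ p ∈ Q b then some ((.base, p), ()) else none
  | _, _ => none

variable (P : Bool → Set (FreeGroup (Fin m))) (Q : Bool → Set (Bool → FreeGroup (Fin m)))

theorem va_g (s : Bool) (i : Fin m) (b : Bool) (p : Bool → FreeGroup (Fin m)) (τ : Pos m) :
    va P Q (.g s i, b) (.base, p) = some (τ, ()) ↔
      p s ∈ P s ∧ p s * lv i b ∈ P s ∧ τ = (.base, Function.update p s (p s * lv i b)) := by
  classical
  simp only [va]
  split_ifs with h
  · simp [h.1, h.2, eq_comm]
  · constructor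
    · intro h'; cases h'
    · rintro ⟨h1, h2, _⟩; exact absurd ⟨h1, h2⟩ h

theorem va_g' (s : Bool) (i : Fin m) (b c : Bool) (p : Bool → FreeGroup (Fin m)) :
    va P Q (.g s i, b) (.rho c, p) = none := rfl

theorem va_r (b : Bool) (p : Bool → FreeGroup (Fin m)) (τ : Pos m) :
    va P Q (.r b, true) (.base, p) = some (τ, ()) ↔ p ∈ Q b ∧ τ = (.rho b, p) := by
  classical
  simp only [va]
  split_ifs with h
  · simp [h, eq_comm]
  · constructor
    · intro h'; cases h'
    · rintro ⟨h1, _⟩; exact absurd h1 h

theorem va_r' (b c : Bool) (p : Bool → FreeGroup (Fin m)) :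
    va P Q (.r b, true) (.rho c, p) = none := rfl

theorem va_i (b c : Bool) (p : Bool → FreeGroup (Fin m)) (τ : Pos m) :
    va P Q (.r b, false) (.rho c, p) = some (τ, ()) ↔ b = c ∧ p ∈ Q b ∧ τ = (.base, p) := by
  classical
  simp only [va]
  split_ifs with h
  · simp [h.1, h.2, eq_comm]
    intro h1
    rw [← h.1]; exact h.2
  · constructor
    · intro h'; cases h'
    · rintro ⟨h1, h2, _⟩; exact absurd ⟨h1, h2⟩ h

theorem va_i' (b : Bool) (p : Bool → FreeGroup (Fin m)) :
    va P Q (.r b, false) (.base, p) = none := rfl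

theorem va_z (b : Bool) (σ : Pos m) : va P Q (.z, b) σ = none := by
  obtain ⟨t, p⟩ := σ
  cases t <;> rfl

end

end Pool.Agent.V11259.TreeMon
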