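import Mathlib
import Pool.Agent.V11259.TreeB

set_option autoImplicit false

/-! Representations of the monoid by injective functions between subsets of positions. -/

namespace Pool.Agent.V11259.TreeMon

section

variable {m : ℕ} (P : Bool → Set (FreeGroup (Fin m))) (Q : Bool → Set (Bool → FreeGroup (Fin m)))

theorem va_isInv (a : Ge m) : IsInv (va P Q (a, true)) (va P Q (a, false)) := by
  classical
  rintro ⟨s, p⟩ ⟨t, q⟩ ⟨⟩
  cases a with
  | g c i =>
    cases s with
    | rho d =>
      rw [va_g']
      cases t with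
      | rho d' => rw [va_g']; simp
      | base =>
        constructor
        · intro h; cases h
        · intro h
          have := (va_g P Q _ _ _ _ _).mp h
          have := congrArg Prod.fst this.2.2
          cases this
    | base =>
      rw [va_g]
      cases t with
      | rho d' =>
        rw [va_g']
        constructor
        · rintro ⟨_, _, h⟩; cases congrArg Prod.fst h
        · intro h; cases h
      | base =>
        change _ ↔ va P Q (.g c i, false) (.base, q) = some ((.base, p), ())
        rw [va_g]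
        have hl : lv i true * lv i false = 1 := lv_mul i true
        have hl' : lv i false * lv i true = 1 := lv_mul i false
        constructor
        · rintro ⟨h1, h2, h3⟩
          have h3 : q = Function.update p c (p c * lv i true) := congrArg Prod.snd h3
          subst h3
          refine ⟨by simpa using h2, ?_, ?_⟩
          · simpa [mul_assoc, hl] using h1
          · simp [mul_assoc, hl]
        · rintro ⟨h1, h2, h3⟩
          have h3 : p = Function.update q c (q c * lv i false) := congrArg Prod.snd h3
          subst h3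
          refine ⟨by simpa using h2, ?_, ?_⟩
          · simpa [mul_assoc, hl'] using h1
          · simp [mul_assoc, hl']
  | r c =>
    cases s with
    | rho d =>
      rw [va_r']
      cases t with
      | rho d' =>
        constructor
        · intro h; cases h
        · intro h
          have := (va_i P Q _ _ _ _).mp h
          cases congrArg Prod.fst this.2.2
      | base => rw [va_i']; simp
    | base =>
      rw [va_r]
      cases t with
      | rho d' =>
        change _ ↔ va P Q (.r c, false) (.rho d', q) = some ((.base, p), ())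
        rw [va_i]
        constructor
        · rintro ⟨h1, h2⟩
          rw [Prod.mk.injEq, Ty.rho.injEq] at h2
          obtain ⟨rfl, rfl⟩ := h2
          exact ⟨rfl, h1, rfl⟩
        · rintro ⟨rfl, h1, h2⟩
          have h2 : p = q := congrArg Prod.snd h2
          subst h2
          exact ⟨h1, rfl⟩
      | base =>
        rw [va_i']
        constructor
        · rintro ⟨_, h⟩; cases congrArg Prod.fst h
        · intro h; cases h
  | z =>
    rw [va_z, va_z]
    simp

theorem ev_single {S E α : Type} [Lab E] (v : α × Bool → K S E) (x : α × Bool) :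
    ev v [x] = v x := by
  rw [ev_cons, ev_nil, mul_one]

theorem ev_cons_some {v : Ge m × Bool → K (Pos m) Unit} {x : Ge m × Bool} {w : Wd (Ge m)}
    {σ τ : Pos m} : ev v (x :: w) σ = some (τ, ()) ↔
      ∃ ρ, v x σ = some (ρ, ()) ∧ ev v w ρ = some (τ, ()) := by
  rw [ev_cons, K.mul_eq_some]
  constructor
  · rintro ⟨r, _, _, h1, h2, _⟩
    exact ⟨r, h1, h2⟩
  · rintro ⟨r, h1, h2⟩
    exact ⟨r, (), (), h1, h2, rfl⟩

theorem ev_append_some {v : Ge m × Bool → K (Pos m) Unit} {u w : Wd (Ge m)}
    {σ τ : Pos m} : ev v (u ++ w) σ = some (τ, ()) ↔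
      ∃ ρ, ev v u σ = some (ρ, ()) ∧ ev v w ρ = some (τ, ()) := by
  rw [ev_append, K.mul_eq_some]
  constructor
  · rintro ⟨r, _, _, h1, h2, _⟩
    exact ⟨r, h1, h2⟩
  · rintro ⟨r, h1, h2⟩
    exact ⟨r, (), (), h1, h2, rfl⟩

theorem ev_single_some {v : Ge m × Bool → K (Pos m) Unit} {x : Ge m × Bool}
    {σ τ : Pos m} : ev v [x] σ = some (τ, ()) ↔ v x σ = some (τ, ()) := by
  rw [ev_single]

theorem ev_pair_some {v : Ge m × Bool → K (Pos m) Unit} {x y : Ge m × Bool}
    {σ τ : Pos m} : ev v [x, y] σ = some (τ, ()) ↔
      ∃ ρ, v x σ = some (ρ, ()) ∧ v y ρ = some (τ, ()) := by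
  rw [ev_cons_some, ev_single]

/-- Two labelled functions with the same values are equal. -/
theorem K_ext {f g : K (Pos m) Unit} (h : ∀ σ τ, f σ = some (τ, ()) ↔ g σ = some (τ, ())) :
    f = g := by
  funext σ
  rcases hf : f σ with _ | ⟨τ, ⟨⟩⟩
  · rcases hg : g σ with _ | ⟨τ, ⟨⟩⟩
    · rfl
    · rw [(h σ τ).mpr hg] at hf; cases hf
  · exact ((h σ τ).mp hf).symm

/-- The ends of letters are those of their action. -/
theorem va_ends {x : Ge m × Bool} {σ τ : Pos m} (h : va P Q x σ = some (τ, ())) :
    ends x = some (σ.1, τ.1) := by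
  obtain ⟨a, b⟩ := x
  obtain ⟨s, p⟩ := σ
  cases a with
  | g c i =>
    cases s with
    | rho d => rw [va_g'] at h; cases h
    | base =>
      obtain ⟨_, _, rfl⟩ := (va_g P Q _ _ _ _ _).mp h
      cases b <;> rfl
  | r c =>
    cases b with
    | true =>
      cases s with
      | rho d => rw [va_r'] at h; cases h
      | base =>
        obtain ⟨_, rfl⟩ := (va_r P Q _ _ _).mp h
        rfl
    | false =>
      cases s with
      | rho d =>
        obtain ⟨rfl, _, rfl⟩ := (va_i P Q _ _ _ _).mp h
        rfl
      | base => rw [va_i'] at h; cases h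
  | z => rw [va_z] at h; cases h

theorem va_rel (hQ : ∀ p, ¬ (p ∈ Q false ∧ p ∈ Q true)) {u w : Wd (Ge m)} (h : Rel m u w) :
    ev (va P Q) u = ev (va P Q) w := by
  classical
  apply K_ext
  rintro ⟨s, p⟩ ⟨t, q⟩
  cases h with
  | sq i j b c =>
    rw [ev_pair_some, ev_pair_some]
    have key : ∀ (s s' : Bool) (hs : s ≠ s') (i j : Fin m) (b c : Bool) (ρ : Pos m),
        va P Q (.g s i, b) (.base, p) = some (ρ, ()) →
        va P Q (.g s' j, c) ρ = some ((t, q), ()) →
        ∃ ρ', va P Q (.g s' j, c) (.base, p) = some (ρ', ()) ∧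
          va P Q (.g s i, b) ρ' = some ((t, q), ()) := by
      intro s s' hs i j b c ρ h1 h2
      obtain ⟨h3, h4, rfl⟩ := (va_g P Q _ _ _ _ _).mp h1
      obtain ⟨h5, h6, h7⟩ := (va_g P Q _ _ _ _ _).mp h2
      rw [Function.update_of_ne hs.symm] at h5 h6 h7
      refine ⟨_, (va_g P Q _ _ _ _ _).mpr ⟨h5, h6, rfl⟩, (va_g P Q _ _ _ _ _).mpr ⟨?_, ?_, ?_⟩⟩
      · rw [Function.update_of_ne hs]; exact h3
      · rw [Function.update_of_ne hs]; exact h4
      · rw [h7, Function.update_of_ne hs, Function.update_comm hs]
    cases s with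
    | rho d =>
      constructor
      · rintro ⟨ρ, h, _⟩; rw [va_g'] at h; cases h
      · rintro ⟨ρ, h, _⟩; rw [va_g'] at h; cases h
    | base =>
      constructor
      · rintro ⟨ρ, h1, h2⟩
        exact key false true (by simp) i j b c ρ h1 h2
      · rintro ⟨ρ, h1, h2⟩
        exact key true false (by simp) j i c b ρ h1 h2
  | zl x =>
    rw [ev_pair_some, ev_single_some, va_z]
    constructor
    · rintro ⟨ρ, h, _⟩; cases h
    · intro h; cases h
  | zr x =>
    rw [ev_pair_some, ev_single_some, va_z]
    constructor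
    · rintro ⟨ρ, _, h⟩; rw [va_z] at h; cases h
    · intro h; cases h
  | ty x y a b hx hy hne =>
    rw [ev_pair_some, ev_single_some, va_z]
    constructor
    · rintro ⟨ρ, h1, h2⟩
      have e1 := va_ends P Q h1
      have e2 := va_ends P Q h2
      rw [hx] at e1
      rw [hy] at e2
      have e1' := Option.some.inj e1
      have e2' := Option.some.inj e2
      rw [e1', e2'] at hne
      exact absurd rfl hne
    · intro h; cases h
  | cf b =>
    rw [ev_pair_some, ev_single_some, va_z]
    constructor
    · rintro ⟨ρ, h1, h2⟩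
      cases s with
      | base => rw [va_i'] at h1; cases h1
      | rho d =>
        obtain ⟨rfl, h3, rfl⟩ := (va_i P Q _ _ _ _).mp h1
        obtain ⟨h4, _⟩ := (va_r P Q _ _ _).mp h2
        exfalso
        apply hQ p
        cases b
        · exact ⟨h3, h4⟩
        · exact ⟨h4, h3⟩
    · intro h; cases h

/-- The representation. -/
theorem ev_mt (hQ : ∀ p, ¬ (p ∈ Q false ∧ p ∈ Q true)) {u w : Wd (Ge m)} (h : mt u = mt w) :
    ev (va P Q) u = ev (va P Q) w :=
  ev_eqv (va_isInv P Q) (fun _ _ h => va_rel P Q hQ h) (mk_exact h)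

/-- Without restriction. -/
noncomputable abbrev vf : Ge m × Bool → K (Pos m) Unit := va (fun _ => Set.univ) (fun _ => Set.univ)

theorem va_le_vf {x : Ge m × Bool} {σ τ : Pos m} (h : va P Q x σ = some (τ, ())) :
    vf x σ = some (τ, ()) := by
  obtain ⟨a, b⟩ := x
  obtain ⟨s, p⟩ := σ
  cases a with
  | g c i =>
    cases s with
    | rho d => rw [va_g'] at h; cases h
    | base =>
      obtain ⟨_, _, h3⟩ := (va_g P Q _ _ _ _ _).mp h
      exact (va_g _ _ _ _ _ _ _).mpr ⟨trivial, trivial, h3⟩
  | r c =>
    cases b with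
    | true =>
      cases s with
      | rho d => rw [va_r'] at h; cases h
      | base =>
        obtain ⟨_, h2⟩ := (va_r P Q _ _ _).mp h
        exact (va_r _ _ _ _ _).mpr ⟨trivial, h2⟩
    | false =>
      cases s with
      | rho d =>
        obtain ⟨h1, _, h3⟩ := (va_i P Q _ _ _ _).mp h
        exact (va_i _ _ _ _ _ _).mpr ⟨h1, trivial, h3⟩
      | base => rw [va_i'] at h; cases h
  | z => rw [va_z] at h; cases h

theorem ev_le_vf {w : Wd (Ge m)} {σ τ : Pos m} (h : ev (va P Q) w σ = some (τ, ())) :
    ev vf w σ = some (τ, ()) := by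
  induction w generalizing σ with
  | nil => exact h
  | cons x w ih =>
    obtain ⟨ρ, h1, h2⟩ := ev_cons_some.mp h
    exact ev_cons_some.mpr ⟨ρ, va_le_vf P Q h1, ih h2⟩

end

end Pool.Agent.V11259.TreeMon
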