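import Mathlib
import Pool.Agent.V11259.TreeC

set_option autoImplicit false

/-! Words with trivial value are idempotents; finiteness of the `R`-classes. -/

namespace Pool.Agent.V11259.TreeMon

section

variable {m : ℕ}

theorem vf_g (s : Bool) (i : Fin m) (b : Bool) (p : Bool → FreeGroup (Fin m)) :
    vf (.g s i, b) (.base, p) = some ((.base, Function.update p s (p s * lv i b)), ()) :=
  (va_g _ _ _ _ _ _ _).mpr ⟨trivial, trivial, rfl⟩

theorem vf_r (b : Bool) (p : Bool → FreeGroup (Fin m)) :
    vf (.r b, true) (.base, p) = some ((.rho b, p), ()) :=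
  (va_r _ _ _ _ _).mpr ⟨trivial, rfl⟩

theorem vf_i (b : Bool) (p : Bool → FreeGroup (Fin m)) :
    vf (.r b, false) (.rho b, p) = some ((.base, p), ()) :=
  (va_i _ _ _ _ _ _).mpr ⟨rfl, trivial, rfl⟩

/-- The element of a word in the letters `g s`. -/
def ge (s : Bool) (u : Wd (Fin m)) : TM m := mt (rn (Ge.g s) u)

theorem comm_letters (i j : Fin m) (b c : Bool) :
    mt [(Ge.g true j, c)] * mt [(Ge.g false i, b)] =
      mt [(Ge.g false i, b)] * mt [(Ge.g true j, c)] :=
  (mt_rel (Rel.sq i j b c)).symm

theorem comm_letter (j : Fin m) (c : Bool) (u : Wd (Fin m)) :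
    mt [(Ge.g true j, c)] * ge false u = ge false u * mt [(Ge.g true j, c)] := by
  induction u with
  | nil => exact (mul_one _).trans (one_mul _).symm
  | cons x u ih =>
    have e : ge false (x :: u) = mt [(Ge.g false x.1, x.2)] * ge false u := rfl
    rw [e, ← mul_assoc, comm_letters, mul_assoc, ih, mul_assoc]

/-- Typed words from the base to the base. -/
theorem base_form {u : Wd (Ge m)} {p q : Bool → FreeGroup (Fin m)}
    (h : ev vf u (.base, p) = some ((.base, q), ())) :
    ∃ (e : TM m) (a b : Wd (Fin m)), e * e = e ∧ mt u = e * ge false a * ge true b ∧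
      q false = p false * FreeGroup.mk a ∧ q true = p true * FreeGroup.mk b := by
  induction hn : u.length using Nat.strong_induction_on generalizing u p with
  | _ n ih =>
    rcases u with _ | ⟨⟨a, b⟩, u⟩
    · have h' := Option.some.inj h
      rw [Prod.mk.injEq, Prod.mk.injEq] at h'
      obtain ⟨⟨_, rfl⟩, _⟩ := h'
      refine ⟨1, [], [], one_mul 1, ?_, (mul_one _).symm, (mul_one _).symm⟩
      change (1 : TM m) = 1 * 1 * 1
      simp
    · obtain ⟨ρ, h1, h2⟩ := ev_cons_some.mp h
      cases a with
      | g s i =>
        rw [vf_g] at h1
        have h1' : ρ = _ := (congrArg Prod.fst (Option.some.inj h1)).symm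
        subst h1'
        obtain ⟨e, a', b', he, hu, hf, ht⟩ := ih u.length (by rw [← hn]; simp) h2 rfl
        refine ⟨mt [(Ge.g s i, b)] * e * mt (wi [(Ge.g s i, b)]), ?_⟩
        have hc := conj_idem (R := Rel m) [(Ge.g s i, b)] he
        have hm := mul_idem (R := Rel m) [(Ge.g s i, b)] he
        have e1 : mt ((Ge.g s i, b) :: u) = mt [(Ge.g s i, b)] * mt u := rfl
        cases s with
        | false =>
          refine ⟨(i, b) :: a', b', hc, ?_, ?_, ?_⟩
          · have e2 : ge false ((i, b) :: a') = mt [(Ge.g false i, b)] * ge false a' := rfl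
            rw [e1, hu, e2]
            calc mt [(Ge.g false i, b)] * (e * ge false a' * ge true b')
                = (mt [(Ge.g false i, b)] * e) * (ge false a' * ge true b') := by
                  simp only [mul_assoc]
              _ = (mt [(Ge.g false i, b)] * e * mt (wi [(Ge.g false i, b)]) *
                  mt [(Ge.g false i, b)]) * (ge false a' * ge true b') := by rw [← hm]
              _ = _ := by simp only [mul_assoc]
          · rw [hf, Function.update_self, mul_assoc]
            congr 1
          · rw [ht, Function.update_of_ne (by simp)]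
        | true =>
          refine ⟨a', (i, b) :: b', hc, ?_, ?_, ?_⟩
          · have e2 : ge true ((i, b) :: b') = mt [(Ge.g true i, b)] * ge true b' := rfl
            rw [e1, hu, e2]
            calc mt [(Ge.g true i, b)] * (e * ge false a' * ge true b')
                = (mt [(Ge.g true i, b)] * e) * (ge false a' * ge true b') := by
                  simp only [mul_assoc]
              _ = (mt [(Ge.g true i, b)] * e * mt (wi [(Ge.g true i, b)]) *
                  mt [(Ge.g true i, b)]) * (ge false a' * ge true b') := by rw [← hm]
              _ = mt [(Ge.g true i, b)] * e * mt (wi [(Ge.g true i, b)]) *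
                  (mt [(Ge.g true i, b)] * ge false a') * ge true b' := by
                  simp only [mul_assoc]
              _ = mt [(Ge.g true i, b)] * e * mt (wi [(Ge.g true i, b)]) *
                  (ge false a' * mt [(Ge.g true i, b)]) * ge true b' := by
                  rw [comm_letter]
              _ = _ := by simp only [mul_assoc]
          · rw [hf, Function.update_of_ne (by simp)]
          · rw [ht, Function.update_self, mul_assoc]
            congr 1
      | r c =>
        cases b with
        | false =>
          cases (va_i' (fun _ => Set.univ) (fun _ => Set.univ) c p).symm.trans h1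
        | true =>
          rw [vf_r] at h1
          have h1' : ρ = _ := (congrArg Prod.fst (Option.some.inj h1)).symm
          subst h1'
          rcases u with _ | ⟨⟨a, b⟩, u⟩
          · have := congrArg Prod.fst (Option.some.inj h2)
            cases congrArg Prod.fst this
          · obtain ⟨ρ, h3, h4⟩ := ev_cons_some.mp h2
            have hends := va_ends _ _ h3
            have hab : (a, b) = (Ge.r c, false) := by
              cases a with
              | g s i => cases b <;> cases hends
              | z => cases hends
              | r d =>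
                cases b with
                | true => cases hends
                | false =>
                  have := Option.some.inj hends
                  rw [Prod.mk.injEq, Ty.rho.injEq] at this
                  rw [this.1]
            rw [hab] at h3
            rw [vf_i] at h3
            have h3' : ρ = _ := (congrArg Prod.fst (Option.some.inj h3)).symm
            subst h3'
            obtain ⟨e, a', b', he, hu, hf, ht⟩ := ih u.length
              (by rw [← hn]; simp only [List.length_cons]; omega) h4 rfl
            refine ⟨mt [(Ge.r c, true)] * mt [(Ge.r c, false)] * e, a', b',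
              idem_mul (idem_mk [(Ge.r c, true)]) he, ?_, hf, ht⟩
            rw [hab]
            have e1 : mt ((Ge.r c, true) :: (Ge.r c, false) :: u) =
              mt [(Ge.r c, true)] * (mt [(Ge.r c, false)] * mt u) := rfl
            rw [e1, hu]
            simp only [mul_assoc]
      | z => cases (va_z (fun _ => Set.univ) (fun _ => Set.univ) b _).symm.trans h1

theorem ge_idem (s : Bool) {a : Wd (Fin m)} (h : FreeGroup.mk a = 1) :
    ge s a * ge s a = (ge s a : TM m) := by
  have hr : FreeGroup.Red a [] := by
    have h1 : FreeGroup.mk a = FreeGroup.mk [] := h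
    obtain ⟨c, hc1, hc2⟩ := FreeGroup.Red.exact.mp h1
    rw [FreeGroup.Red.nil_iff] at hc2
    rw [← hc2]; exact hc1
  obtain ⟨e, he, h2⟩ := idem_of_red (R := Rel m) (Ge.g s) hr
  have h3 : ge s a = e := by
    change mk (Rel m) (rn (Ge.g s) a) = e
    rw [h2]
    exact mul_one e
  rw [h3]; exact he

/-- Words with trivial value at the base are idempotents. -/
theorem kl_base {u : Wd (Ge m)} {p : Bool → FreeGroup (Fin m)}
    (h : ev vf u (.base, p) = some ((.base, p), ())) : mt u * mt u = mt u := by
  obtain ⟨e, a, b, he, hu, hf, ht⟩ := base_form h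
  have ha : FreeGroup.mk a = 1 := by
    have : p false * 1 = p false * FreeGroup.mk a := by rw [mul_one]; exact hf
    exact (mul_left_cancel this).symm
  have hb : FreeGroup.mk b = 1 := by
    have : p true * 1 = p true * FreeGroup.mk b := by rw [mul_one]; exact ht
    exact (mul_left_cancel this).symm
  rw [hu]
  exact idem_mul (idem_mul he (ge_idem false ha)) (ge_idem true hb)

theorem concat_rho {u : Wd (Ge m)} {σ : Pos m} {b : Bool} {p : Bool → FreeGroup (Fin m)}
    (h : ev vf u σ = some ((.rho b, p), ())) (hu : u ≠ []) :
    ∃ u', u = u' ++ [(Ge.r b, true)] ∧ ev vf u' σ = some ((.base, p), ()) := by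
  rcases List.eq_nil_or_concat u with rfl | ⟨u', x, rfl⟩
  · exact absurd rfl hu
  · rw [List.concat_eq_append] at h ⊢
    obtain ⟨ρ, h1, h2⟩ := ev_append_some.mp h
    rw [ev_single_some] at h2
    have he := va_ends _ _ h2
    obtain ⟨a, c⟩ := x
    cases a with
    | g s i =>
      cases c <;> exact absurd (congrArg (Option.map Prod.snd) he) (by simp [ends])
    | z => cases he
    | r d =>
      cases c with
      | false => exact absurd (congrArg (Option.map Prod.snd) he) (by simp [ends])
      | true =>
        have := Option.some.inj he
        rw [Prod.mk.injEq, Ty.rho.injEq] at this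
        obtain ⟨h3, rfl⟩ := this
        obtain ⟨s, q⟩ := ρ
        have h3 : s = Ty.base := h3.symm
        subst h3
        rw [vf_r] at h2
        have h4 := congrArg Prod.fst (Option.some.inj h2)
        have h5 : q = p := congrArg Prod.snd h4
        subst h5
        exact ⟨u', rfl, h1⟩

theorem cons_rho {u : Wd (Ge m)} {τ : Pos m} {b : Bool} {p : Bool → FreeGroup (Fin m)}
    (h : ev vf u (.rho b, p) = some (τ, ())) (hu : u ≠ []) :
    ∃ u', u = (Ge.r b, false) :: u' ∧ ev vf u' (.base, p) = some (τ, ()) := by
  rcases u with _ | ⟨⟨a, c⟩, u⟩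
  · exact absurd rfl hu
  · obtain ⟨ρ, h1, h2⟩ := ev_cons_some.mp h
    have he := va_ends _ _ h1
    cases a with
    | g s i => cases c <;> cases he
    | z => cases he
    | r d =>
      cases c with
      | true => cases he
      | false =>
        have := Option.some.inj he
        rw [Prod.mk.injEq, Ty.rho.injEq] at this
        obtain ⟨rfl, h3⟩ := this
        rw [vf_i] at h1
        have h4 : ρ = _ := (congrArg Prod.fst (Option.some.inj h1)).symm
        subst h4
        exact ⟨u, rfl, h2⟩

/-- Words with trivial value are idempotents. -/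
theorem kl {u : Wd (Ge m)} {σ : Pos m} (h : ev vf u σ = some (σ, ())) : mt u * mt u = mt u := by
  obtain ⟨s, p⟩ := σ
  cases s with
  | base => exact kl_base h
  | rho b =>
    rcases u with _ | ⟨x, u⟩
    · exact one_mul 1
    · obtain ⟨u1, hu1, h1⟩ := cons_rho h (by simp)
      rw [hu1]
      rcases u1 with _ | ⟨y, u2⟩
      · have := congrArg Prod.fst (Option.some.inj h1)
        cases congrArg Prod.fst this
      · obtain ⟨u3, hu3, h3⟩ := concat_rho h1 (by simp)
        rw [hu3]
        have hE := kl_base h3
        have e1 : mt ((Ge.r b, false) :: (u3 ++ [(Ge.r b, true)])) =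
          mt [(Ge.r b, false)] * mt u3 * mt [(Ge.r b, true)] := by
          rw [mul_assoc]; rfl
        rw [e1]
        exact conj_idem (R := Rel m) [(Ge.r b, false)] hE

/-- Untyped words are zero. -/
theorem untyped {x : Ge m × Bool} {u : Wd (Ge m)} {p q : Ty} {g : Bool → FreeGroup (Fin m)}
    (hx : ends x = some (p, q)) (h : ev vf u (q, g) = none) : mt (x :: u) = zz := by
  induction u generalizing x p q g with
  | nil => cases h
  | cons y u ih =>
    have e1 : mt (x :: y :: u) = mt [x, y] * mt u := rfl
    have e2 : mt (x :: y :: u) = mt [x] * mt (y :: u) := rfl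
    rcases hy : ends y with _ | ⟨p', q'⟩
    · have hz : mt [y] = zz := by
        obtain ⟨a, b⟩ := y
        cases a with
        | g s i => cases b <;> cases hy
        | r d => cases b <;> cases hy
        | z =>
          cases b
          · exact zz_inv
          · rfl
      have e3 : mt (x :: y :: u) = mt [x] * (mt [y] * mt u) := rfl
      rw [e3, hz, zz_mul, mul_zz]
    · by_cases hqp : q = p'
      · subst hqp
        rw [e2]
        have hstep : ∃ g', vf y (q, g) = some ((q', g'), ()) := by
          obtain ⟨a, b⟩ := y
          cases a with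
          | g s i =>
            have hy' : (Ty.base, Ty.base) = (q, q') := by cases b <;> exact Option.some.inj hy
            obtain ⟨rfl, rfl⟩ := Prod.mk.inj hy'
            exact ⟨_, vf_g s i b g⟩
          | r d =>
            cases b with
            | true =>
              obtain ⟨rfl, rfl⟩ := Prod.mk.inj (Option.some.inj hy)
              exact ⟨_, vf_r d g⟩
            | false =>
              obtain ⟨rfl, rfl⟩ := Prod.mk.inj (Option.some.inj hy)
              exact ⟨_, vf_i d g⟩
          | z => cases hy
        obtain ⟨g', hg'⟩ := hstep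
        have h2 : ev vf u (q', g') = none := by
          rcases hu : ev vf u (q', g') with _ | ⟨τ, ⟨⟩⟩
          · rfl
          · rw [ev_cons_some.mpr ⟨_, hg', hu⟩] at h; cases h
        rw [ih hy h2, mul_zz]
      · have h3 : mt [x, y] = zz := mt_rel (Rel.ty x y _ _ hx hy hqp)
        rw [e1, h3, zz_mul]

theorem zero_of_untyped {w : Wd (Ge m)} (h : ∀ t : Ty, ev vf w (t, 1) = none) : mt w = zz := by
  rcases w with _ | ⟨x, u⟩
  · cases h .base
  · rcases hx : ends x with _ | ⟨p, q⟩
    · have hz : mt [x] = zz := by
        obtain ⟨a, b⟩ := x
        cases a with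
        | g s i => cases b <;> cases hx
        | r d => cases b <;> cases hx
        | z =>
          cases b
          · exact zz_inv
          · rfl
      have e3 : mt (x :: u) = mt [x] * mt u := rfl
      rw [e3, hz, zz_mul]
    · have hstep : ∃ g', vf x (p, 1) = some ((q, g'), ()) := by
        obtain ⟨a, b⟩ := x
        cases a with
        | g s i =>
          have hy' : (Ty.base, Ty.base) = (p, q) := by cases b <;> exact Option.some.inj hx
          obtain ⟨rfl, rfl⟩ := Prod.mk.inj hy'
          exact ⟨_, vf_g s i b 1⟩
        | r d =>
          cases b with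
          | true =>
            obtain ⟨rfl, rfl⟩ := Prod.mk.inj (Option.some.inj hx)
            exact ⟨_, vf_r d 1⟩
          | false =>
            obtain ⟨rfl, rfl⟩ := Prod.mk.inj (Option.some.inj hx)
            exact ⟨_, vf_i d 1⟩
        | z => cases hx
      obtain ⟨g', hg'⟩ := hstep
      apply untyped hx (g := g')
      rcases hu : ev vf u (q, g') with _ | ⟨τ, ⟨⟩⟩
      · rfl
      · have := h p
        rw [ev_cons_some.mpr ⟨_, hg', hu⟩] at this; cases this

/-- Conflicting marks give zero. -/
theorem conflict {c : Wd (Ge m)} {b : Bool} {p : Bool → FreeGroup (Fin m)}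
    (h : ev vf c (.rho b, p) = some ((.rho (!b), p), ())) : mt c = zz := by
  have hc : c ≠ [] := by
    rintro rfl
    have := congrArg Prod.fst (Option.some.inj h)
    have := congrArg Prod.fst this
    rw [Ty.rho.injEq] at this
    cases b <;> cases this
  obtain ⟨u1, hu1, h1⟩ := cons_rho h hc
  have hu1' : u1 ≠ [] := by
    rintro rfl
    have := congrArg Prod.fst (Option.some.inj h1)
    cases congrArg Prod.fst this
  obtain ⟨u2, hu2, h2⟩ := concat_rho h1 hu1'
  have hE := kl_base h2
  rw [hu1, hu2]
  have e1 : mt ((Ge.r b, false) :: (u2 ++ [(Ge.r (!b), true)])) =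
    mt [(Ge.r b, false)] * mt u2 * mt [(Ge.r (!b), true)] := by
    rw [mul_assoc]; rfl
  rw [e1]
  have h5 := mul_idem (R := Rel m) [(Ge.r b, false)] hE
  have h6 : (mt [(Ge.r b, false)] * mt [(Ge.r (!b), true)] : TM m) = zz := mt_rel (Rel.cf b)
  calc mt [(Ge.r b, false)] * mt u2 * mt [(Ge.r (!b), true)]
      = (mt [(Ge.r b, false)] * mt u2 * mt (wi [(Ge.r b, false)]) * mt [(Ge.r b, false)]) *
          mt [(Ge.r (!b), true)] := by rw [← h5]
    _ = mt [(Ge.r b, false)] * mt u2 * mt (wi [(Ge.r b, false)]) *
          (mt [(Ge.r b, false)] * mt [(Ge.r (!b), true)]) := by simp only [mul_assoc]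
    _ = zz := by
      rw [h6]
      have : mt [(Ge.r b, false)] * mt u2 * mt (wi [(Ge.r b, false)]) =
        mt ([(Ge.r b, false)] ++ u2 ++ wi [(Ge.r b, false)]) := rfl
      rw [this, mul_zz]

end

end Pool.Agent.V11259.TreeMon
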