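import Mathlib
import Pool.Agent.V11259.TreeD

set_option autoImplicit false

/-! Finiteness of the `R`-classes. -/

namespace Pool.Agent.V11259.TreeMon

instance : Finite Ty :=
  Finite.of_injective (β := Option Bool) (fun t => match t with
    | .base => none
    | .rho b => some b) (by
      intro a b h
      cases a <;> cases b
      · rfl
      · cases h
      · cases h
      · simp only [Option.some.injEq] at h; rw [h])

section

variable {m : ℕ} (w : Wd (Ge m)) (σ₀ : Pos m)

/-- The box of the coordinates of the positions visited by the initial segments of a word. -/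
def Pb (s : Bool) : Set (FreeGroup (Fin m)) :=
  {x | ∃ (w1 w2 : Wd (Ge m)) (σ : Pos m), w = w1 ++ w2 ∧ ev vf w1 σ₀ = some (σ, ()) ∧ σ.2 s = x}

/-- The marked positions visited by a word. -/
def Qb (b : Bool) : Set (Bool → FreeGroup (Fin m)) :=
  {p | ∃ (w1 w2 : Wd (Ge m)), w = w1 ++ w2 ∧ ev vf w1 σ₀ = some ((.rho b, p), ())}

theorem Pb_finite (s : Bool) : (Pb w σ₀ s).Finite := by
  classical
  let f : Fin (w.length + 1) → FreeGroup (Fin m) := fun n =>
    match ev vf (w.take n) σ₀ with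
    | some (σ, _) => σ.2 s
    | none => 1
  apply (Set.finite_range f).subset
  rintro x ⟨w1, w2, σ, rfl, h, rfl⟩
  refine ⟨⟨w1.length, by simp⟩, ?_⟩
  have : (w1 ++ w2).take w1.length = w1 := by simp
  simp only [f, this, h]

theorem Qb_disjoint (hw : mt w ≠ zz) (p : Bool → FreeGroup (Fin m)) :
    ¬ (p ∈ Qb w σ₀ false ∧ p ∈ Qb w σ₀ true) := by
  rintro ⟨⟨w1, w2, h1, h2⟩, ⟨w1', w2', h1', h2'⟩⟩
  have key : ∀ (b : Bool) (c v v' : Wd (Ge m)), w = v ++ c ++ v' →
      ev vf v σ₀ = some ((.rho b, p), ()) → ev vf (v ++ c) σ₀ = some ((.rho (!b), p), ()) →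
      False := by
    intro b c v v' hv e1 e2
    obtain ⟨ρ, e3, e4⟩ := ev_append_some.mp e2
    rw [e1] at e3
    have : ρ = _ := (congrArg Prod.fst (Option.some.inj e3)).symm
    subst this
    have hz := conflict e4
    apply hw
    have : mt w = mt v * mt c * mt v' := by rw [hv]; rfl
    rw [this, hz, mul_zz, zz_mul]
  rw [h1] at h1'
  rcases List.append_eq_append_iff.mp h1' with ⟨c, hc1, hc2⟩ | ⟨c, hc1, hc2⟩
  · refine key false c w1 w2' ?_ h2 ?_
    · rw [h1, hc2, List.append_assoc]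
    · rw [← hc1]; exact h2'
  · refine key true c w1' w2 ?_ h2' ?_
    · rw [h1, hc1]
    · rw [← hc1]; exact h2

theorem ev_box {w1 w2 : Wd (Ge m)} (hw : w = w1 ++ w2) {σ : Pos m}
    (h : ev vf w1 σ₀ = some (σ, ())) :
    ev (va (Pb w σ₀) (Qb w σ₀)) w1 σ₀ = some (σ, ()) := by
  induction w1 using List.reverseRecOn generalizing w2 σ with
  | nil => exact h
  | append_singleton l x ih =>
    obtain ⟨ρ, h1, h2⟩ := ev_append_some.mp h
    rw [ev_single_some] at h2
    have hl : w = l ++ ([x] ++ w2) := by rw [hw, List.append_assoc]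
    refine ev_append_some.mpr ⟨ρ, ih hl h1, ?_⟩
    rw [ev_single_some]
    obtain ⟨a, b⟩ := x
    obtain ⟨s, p⟩ := ρ
    cases a with
    | g c i =>
      cases s with
      | rho d => cases h2
      | base =>
        have h2' := h2
        rw [vf_g] at h2'
        have e : σ = _ := (congrArg Prod.fst (Option.some.inj h2')).symm
        subst e
        refine (va_g _ _ _ _ _ _ _).mpr ⟨⟨l, _, _, hl, h1, rfl⟩, ⟨_, _, _, hw, h, ?_⟩, rfl⟩
        simp
    | r c =>
      cases b with
      | true =>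
        cases s with
        | rho d => cases h2
        | base =>
          have h2' := h2
          rw [vf_r] at h2'
          have e : σ = _ := (congrArg Prod.fst (Option.some.inj h2')).symm
          subst e
          exact (va_r _ _ _ _ _).mpr ⟨⟨_, _, hw, h⟩, rfl⟩
      | false =>
        cases s with
        | base => cases h2
        | rho d =>
          obtain ⟨rfl, _, rfl⟩ := (va_i _ _ _ _ _ _).mp h2
          exact (va_i _ _ _ _ _ _).mpr ⟨rfl, ⟨_, _, hl, h1⟩, rfl⟩
    | z => cases (va_z (fun _ => Set.univ) (fun _ => Set.univ) b _).symm.trans h2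

/-- Positions in the box. -/
def Bx : Set (Pos m) := {σ | ∀ s, σ.2 s ∈ Pb w σ₀ s}

theorem Bx_finite : (Bx w σ₀).Finite := by
  have h : Bx w σ₀ = Set.univ ×ˢ Set.pi Set.univ (Pb w σ₀) := by
    ext ⟨a, b⟩
    simp [Bx]
  rw [h]
  exact Set.finite_univ.prod (Set.Finite.pi (fun s => Pb_finite w σ₀ s))

theorem va_Bx (Q : Bool → Set (Bool → FreeGroup (Fin m))) {x : Ge m × Bool} {σ τ : Pos m}
    (h : va (Pb w σ₀) Q x σ = some (τ, ())) (hσ : σ ∈ Bx w σ₀) : τ ∈ Bx w σ₀ := by
  obtain ⟨a, b⟩ := x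
  obtain ⟨s, p⟩ := σ
  cases a with
  | g c i =>
    cases s with
    | rho d => cases h
    | base =>
      obtain ⟨h1, h2, rfl⟩ := (va_g _ _ _ _ _ _ _).mp h
      intro s'
      by_cases hs : s' = c
      · subst hs
        change Function.update p s' _ s' ∈ _
        rw [Function.update_self]; exact h2
      · change Function.update p c _ s' ∈ _
        rw [Function.update_of_ne hs]; exact hσ s'
  | r c =>
    cases b with
    | true =>
      cases s with
      | rho d => cases h
      | base =>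
        obtain ⟨_, rfl⟩ := (va_r _ _ _ _ _).mp h
        exact hσ
    | false =>
      cases s with
      | base => cases h
      | rho d =>
        obtain ⟨_, _, rfl⟩ := (va_i _ _ _ _ _ _).mp h
        exact hσ
  | z => cases (va_z _ _ b _).symm.trans h

theorem ev_Bx (Q : Bool → Set (Bool → FreeGroup (Fin m))) {u : Wd (Ge m)} {σ τ : Pos m}
    (h : ev (va (Pb w σ₀) Q) u σ = some (τ, ())) (hσ : σ ∈ Bx w σ₀) : τ ∈ Bx w σ₀ := by
  induction u generalizing σ with
  | nil =>
    have : σ = τ := congrArg Prod.fst (Option.some.inj h)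
    rwa [← this]
  | cons x u ih =>
    obtain ⟨ρ, h1, h2⟩ := ev_cons_some.mp h
    exact ih h2 (va_Bx w σ₀ Q h1 hσ)

end

/-- Every `R`-class is finite. -/
theorem rclass_finite {m : ℕ} (s : TM m) :
    {t : TM m | (∃ u, s * u = t) ∧ (∃ v, t * v = s)}.Finite := by
  classical
  by_cases hs : s = zz
  · apply (Set.finite_singleton (zz : TM m)).subset
    rintro t ⟨⟨u, hu⟩, _⟩
    obtain ⟨u, rfl⟩ := mk_surj u
    rw [hs, zz_mul] at hu
    exact hu.symm
  · obtain ⟨w, rfl⟩ := mk_surj s
    have h0 : ∃ t : Ty, ev vf w (t, 1) ≠ none := by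
      by_contra hcon
      push Not at hcon
      exact hs (zero_of_untyped hcon)
    obtain ⟨τ0, hτ0⟩ := h0
    obtain ⟨⟨σ1, ⟨⟩⟩, hσ1⟩ := Option.ne_none_iff_exists'.mp hτ0
    let σ₀ : Pos m := (τ0, 1)
    let P := Pb w σ₀
    let Q := Qb w σ₀
    have hQ : ∀ p, ¬ (p ∈ Q false ∧ p ∈ Q true) := Qb_disjoint w σ₀ hs
    have hw1 : ev (va P Q) w σ₀ = some (σ1, ()) :=
      ev_box w σ₀ (w2 := []) (by simp) hσ1
    have hσ₀ : σ₀ ∈ Bx w σ₀ := fun s => ⟨[], w, σ₀, rfl, rfl, rfl⟩
    have key : ∀ t ∈ {t : TM m | (∃ u, mk (Rel m) w * u = t) ∧ (∃ v, t * v = mk (Rel m) w)},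
        ∃ σ2 ∈ Bx w σ₀, ∃ u : Wd (Ge m), t = mt w * mt u ∧ mt w * mt u * mt (wi u) = mt w ∧
          ev (va P Q) u σ1 = some (σ2, ()) := by
      rintro t ⟨⟨u, rfl⟩, ⟨v, hv⟩⟩
      obtain ⟨u, rfl⟩ := mk_surj u
      have h1 : mt w * mt u * mt (wi u) = mt w := rclass_unit hv
      have h2 : mt (w ++ u ++ wi u) = mt w := h1
      have h3 := congrFun (ev_mt P Q hQ h2) σ₀
      rw [hw1] at h3
      obtain ⟨σ2, h4, h5⟩ := ev_append_some.mp h3
      obtain ⟨ρ, h6, h7⟩ := ev_append_some.mp h4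
      rw [hw1] at h6
      have : ρ = σ1 := (congrArg Prod.fst (Option.some.inj h6)).symm
      subst this
      exact ⟨σ2, ev_Bx w σ₀ Q h4 hσ₀, u, rfl, h1, h7⟩
    have : Nonempty (Pos m) := ⟨σ₀⟩
    choose! f hf using key
    refine Set.Finite.of_injOn (f := f) (t := Bx w σ₀) (fun t ht => (hf t ht).1) ?_
      (Bx_finite w σ₀)
    intro t ht t' ht' heq
    obtain ⟨_, u, hu1, hu2, hu3⟩ := hf t ht
    obtain ⟨_, u', hu1', hu2', hu3'⟩ := hf t' ht'
    rw [← heq] at hu3'
    have hinv := (ev_isInv (va_isInv P Q) u σ1 (f t) ()).mp hu3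
    have hc : ev (va P Q) (wi u ++ u') (f t) = some (f t, ()) :=
      ev_append_some.mpr ⟨σ1, hinv, hu3'⟩
    have hid := kl (ev_le_vf P Q hc)
    have hform := (idem_form hid).1
    have e1 : t' = t * mt (wi u ++ u') := by
      rw [hu1, hu1']
      change _ = mt w * mt u * (mt (wi u) * mt u')
      rw [← mul_assoc, hu2]
    have e2 : t = t' * mt (wi u ++ u') := by
      have e3 : mt (wi u ++ u') = mt (wi u') * mt u :=
        hform.symm.trans (by rw [wi_append, wi_wi]; rfl)
      rw [e3, ← mul_assoc, hu1', hu2', hu1]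
    calc t = t' * mt (wi u ++ u') := e2
      _ = t * mt (wi u ++ u') * mt (wi u ++ u') := by rw [← e1]
      _ = t * mt (wi u ++ u') := by rw [mul_assoc, hid]
      _ = t' := e1.symm

end Pool.Agent.V11259.TreeMon
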