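import Mathlib
import Pool.Agent.V11259.TreeE

set_option autoImplicit false

/-! The subgroup of pairs, and the key equivalence. -/

namespace Pool.Agent.V11259.TreeMon

section

variable {m : ℕ}

theorem vf_ends {x : Ge m × Bool} {σ τ : Pos m} (h : vf x σ = some (τ, ())) :
    ends x = some (σ.1, τ.1) := va_ends _ _ h

/-- Left translations commute with the action. -/
theorem vf_translate (g : Bool → FreeGroup (Fin m)) {x : Ge m × Bool} {σ τ : Pos m}
    (h : vf x σ = some (τ, ())) : vf x (σ.1, g * σ.2) = some ((τ.1, g * τ.2), ()) := by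
  obtain ⟨a, b⟩ := x
  obtain ⟨s, p⟩ := σ
  cases a with
  | g c i =>
    cases s with
    | rho d => cases h
    | base =>
      obtain ⟨_, _, rfl⟩ := (va_g _ _ _ _ _ _ _).mp h
      refine (va_g _ _ _ _ _ _ _).mpr ⟨trivial, trivial, ?_⟩
      refine Prod.ext rfl ?_
      funext s'
      by_cases hs : s' = c
      · subst hs
        simp [mul_assoc]
      · simp [Function.update_of_ne hs]
  | r c =>
    cases b with
    | true =>
      cases s with
      | rho d => cases h
      | base =>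
        obtain ⟨_, rfl⟩ := (va_r _ _ _ _ _).mp h
        exact vf_r c _
    | false =>
      cases s with
      | base => cases h
      | rho d =>
        obtain ⟨rfl, _, rfl⟩ := (va_i _ _ _ _ _ _).mp h
        exact vf_i c _
  | z => cases (va_z (fun _ => Set.univ) (fun _ => Set.univ) b _).symm.trans h

theorem ev_translate (g : Bool → FreeGroup (Fin m)) {u : Wd (Ge m)} {σ τ : Pos m}
    (h : ev vf u σ = some (τ, ())) : ev vf u (σ.1, g * σ.2) = some ((τ.1, g * τ.2), ()) := by
  induction u generalizing σ with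
  | nil =>
    have : σ = τ := congrArg Prod.fst (Option.some.inj h)
    rw [this]; rfl
  | cons x u ih =>
    obtain ⟨ρ, h1, h2⟩ := ev_cons_some.mp h
    exact ev_cons_some.mpr ⟨_, vf_translate g h1, ih h2⟩

/-- The embedding of the free group as the first coordinate. -/
def emb (x : FreeGroup (Fin m)) : Bool → FreeGroup (Fin m) := fun s => bif s then 1 else x

theorem emb_mul (x y : FreeGroup (Fin m)) : emb (x * y) = emb x * emb y := by
  funext s; cases s <;> simp [emb]

theorem emb_one : emb (1 : FreeGroup (Fin m)) = 1 := by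
  funext s; cases s <;> simp [emb]

theorem emb_inv (x : FreeGroup (Fin m)) : emb x⁻¹ = (emb x)⁻¹ := by
  funext s; cases s <;> simp [emb]

theorem ev_word_false (w : Wd (Fin m)) (p : Bool → FreeGroup (Fin m)) :
    ev vf (rn (Ge.g false) w) (.base, p) = some ((.base, p * emb (FreeGroup.mk w)), ()) := by
  induction w generalizing p with
  | nil =>
    have : emb (FreeGroup.mk ([] : Wd (Fin m))) = 1 := emb_one
    rw [this, mul_one]; rfl
  | cons x w ih =>
    rw [rn_cons]
    refine ev_cons_some.mpr ⟨_, vf_g _ _ _ _, ?_⟩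
    rw [ih]
    congr 3
    have e : FreeGroup.mk (x :: w) = lv x.1 x.2 * FreeGroup.mk w := by
      rw [lv, FreeGroup.mul_mk]; rfl
    rw [e, emb_mul, ← mul_assoc]
    congr 1
    funext s
    cases s
    · simp [emb]
    · simp [emb]

variable (R₀ : Set (FreeGroup (Fin m)))

/-- The subgroup of the pairs congruent modulo the normal closure. -/
def Hs : Subgroup (Bool → FreeGroup (Fin m)) where
  carrier := {p | QuotientGroup.mk' (Subgroup.normalClosure R₀) (p false) =
    QuotientGroup.mk' (Subgroup.normalClosure R₀) (p true)}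
  mul_mem' := by
    intro a b ha hb
    have ha : QuotientGroup.mk' (Subgroup.normalClosure R₀) (a false) =
      QuotientGroup.mk' (Subgroup.normalClosure R₀) (a true) := ha
    have hb : QuotientGroup.mk' (Subgroup.normalClosure R₀) (b false) =
      QuotientGroup.mk' (Subgroup.normalClosure R₀) (b true) := hb
    change QuotientGroup.mk' _ (a false * b false) = QuotientGroup.mk' _ (a true * b true)
    rw [map_mul, map_mul, ha, hb]
  one_mem' := rfl
  inv_mem' := by
    intro a ha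
    have ha : QuotientGroup.mk' (Subgroup.normalClosure R₀) (a false) =
      QuotientGroup.mk' (Subgroup.normalClosure R₀) (a true) := ha
    change QuotientGroup.mk' _ (a false)⁻¹ = QuotientGroup.mk' _ (a true)⁻¹
    rw [map_inv, map_inv, ha]

theorem mem_Hs {p : Bool → FreeGroup (Fin m)} : p ∈ Hs R₀ ↔
    QuotientGroup.mk' (Subgroup.normalClosure R₀) (p false) =
    QuotientGroup.mk' (Subgroup.normalClosure R₀) (p true) := Iff.rfl

theorem emb_mem {x : FreeGroup (Fin m)} : emb x ∈ Hs R₀ ↔ x ∈ Subgroup.normalClosure R₀ := by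
  rw [mem_Hs]
  change QuotientGroup.mk' _ x = QuotientGroup.mk' _ 1 ↔ _
  rw [map_one]
  exact QuotientGroup.eq_one_iff x

theorem diag_mem (x : FreeGroup (Fin m)) : (fun _ => x) ∈ Hs R₀ := rfl

/-- The words whose class, and whose inverse, are in a submonoid. -/
def Two (T : Submonoid (TM m)) (u : Wd (Ge m)) : Prop := mt u ∈ T ∧ mt (wi u) ∈ T

/-- The values of the words in a submonoid. -/
def Vals (T : Submonoid (TM m)) : Subgroup (Bool → FreeGroup (Fin m)) where
  carrier := {p | ∃ u, Two T u ∧ ev vf u (.base, 1) = some ((.base, p), ())}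
  mul_mem' := by
    rintro a b ⟨u, ⟨h1, h2⟩, h3⟩ ⟨v, ⟨h4, h5⟩, h6⟩
    refine ⟨u ++ v, ⟨mul_mem h1 h4, ?_⟩, ?_⟩
    · rw [wi_append]; exact mul_mem h5 h2
    · refine ev_append_some.mpr ⟨_, h3, ?_⟩
      have := ev_translate a h6
      simpa using this
  one_mem' := ⟨[], ⟨one_mem T, one_mem T⟩, rfl⟩
  inv_mem' := by
    rintro a ⟨u, ⟨h1, h2⟩, h3⟩
    refine ⟨wi u, ⟨h2, by rw [wi_wi]; exact h1⟩, ?_⟩
    have h4 := (ev_isInv (va_isInv (fun _ => Set.univ) (fun _ => Set.univ)) u _ _ ()).mp h3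
    have := ev_translate a⁻¹ h4
    simpa using this

/-- The generators of the subgroup. -/
def dg (i : Fin m) : Wd (Ge m) := [(.g false i, true), (.g true i, true)]

theorem ev_dg (i : Fin m) (p : Bool → FreeGroup (Fin m)) :
    ev vf (dg i) (.base, p) = some ((.base, p * fun _ => FreeGroup.of i), ()) := by
  refine ev_pair_some.mpr ⟨_, vf_g _ _ _ _, ?_⟩
  rw [vf_g]
  congr 3
  funext s
  cases s
  · simp [lv]; rfl
  · simp [lv]; rfl

theorem Hs_le_Vals (T : Submonoid (TM m)) (h1 : ∀ i, Two T (dg i))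
    (h2 : ∀ r ∈ R₀, ∃ w, FreeGroup.mk w = r ∧ Two T (rn (Ge.g false) w)) :
    Hs R₀ ≤ Vals T := by
  have hdiag : ∀ x : FreeGroup (Fin m), (fun _ => x) ∈ Vals T := by
    intro x
    let D : FreeGroup (Fin m) →* (Bool → FreeGroup (Fin m)) :=
      { toFun := fun x _ => x, map_one' := rfl, map_mul' := fun _ _ => rfl }
    have : (⊤ : Subgroup (FreeGroup (Fin m))) ≤ (Vals T).comap D := by
      rw [← FreeGroup.closure_range_of, Subgroup.closure_le]
      rintro _ ⟨i, rfl⟩
      refine ⟨dg i, h1 i, ?_⟩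
      have := ev_dg i 1
      rw [one_mul] at this
      exact this
    exact this (Subgroup.mem_top x)
  have hN : ∀ x ∈ Subgroup.normalClosure R₀, emb x ∈ Vals T := by
    let M : FreeGroup (Fin m) →* (Bool → FreeGroup (Fin m)) :=
      { toFun := emb, map_one' := emb_one, map_mul' := emb_mul }
    have hnorm : ((Vals T).comap M).Normal := by
      constructor
      intro n hn g
      have e : M (g * n * g⁻¹) = (fun _ => g) * M n * (fun _ => g)⁻¹ := by
        funext s
        change emb (g * n * g⁻¹) s = g * emb n s * g⁻¹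
        cases s <;> simp [emb]
      change M (g * n * g⁻¹) ∈ Vals T
      rw [e]
      exact mul_mem (mul_mem (hdiag g) hn) (inv_mem (hdiag g))
    have : Subgroup.normalClosure R₀ ≤ (Vals T).comap M := by
      apply Subgroup.normalClosure_le_normal
      intro r hr
      obtain ⟨w, hw, hT⟩ := h2 r hr
      refine ⟨_, hT, ?_⟩
      have := ev_word_false w 1
      rw [one_mul, hw] at this
      exact this
    exact fun x hx => this hx
  intro p hp
  have e : p = emb (p false * (p true)⁻¹) * fun _ => p true := by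
    funext s
    cases s <;> simp [emb]
  rw [e]
  refine mul_mem (hN _ ?_) (hdiag _)
  rw [← QuotientGroup.eq_one_iff]
  change QuotientGroup.mk' _ (p false * (p true)⁻¹) = 1
  rw [map_mul, map_inv, (mem_Hs R₀).mp hp, mul_inv_cancel]

/-- The varying element. -/
def fw (w : Wd (Fin m)) : Wd (Ge m) :=
  rn (Ge.g false) w ++ ([(.r true, true), (.r true, false)] ++ wi (rn (Ge.g false) w))

/-- If the word is trivial then zero is generated. -/
theorem zero_mem (T : Submonoid (TM m)) (h1 : ∀ i, Two T (dg i))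
    (h2 : ∀ r ∈ R₀, ∃ w, FreeGroup.mk w = r ∧ Two T (rn (Ge.g false) w))
    (h3 : mt [(Ge.r false, true), (Ge.r false, false)] ∈ T) (w : Wd (Fin m)) (h4 : mt (fw w) ∈ T)
    (hw : FreeGroup.mk w ∈ Subgroup.normalClosure R₀) : zz ∈ T := by
  obtain ⟨u, ⟨hu1, hu2⟩, hu3⟩ := Hs_le_Vals R₀ T h1 h2 ((emb_mem R₀).mpr hw)
  have hinv := (ev_isInv (va_isInv (fun _ => Set.univ) (fun _ => Set.univ)) u _ _ ()).mp hu3
  have hc : ev vf ([(Ge.r false, false)] ++ (wi u ++ rn (Ge.g false) w) ++ [(Ge.r true, true)])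
      (.rho false, emb (FreeGroup.mk w)) = some ((.rho (!false), emb (FreeGroup.mk w)), ()) := by
    refine ev_append_some.mpr ⟨(.base, emb (FreeGroup.mk w)), ?_, ?_⟩
    · refine ev_append_some.mpr ⟨(.base, emb (FreeGroup.mk w)), ?_, ?_⟩
      · rw [ev_single_some]; exact vf_i _ _
      · refine ev_append_some.mpr ⟨_, hinv, ?_⟩
        have := ev_word_false w 1
        rw [one_mul] at this
        exact this
    · rw [ev_single_some]; exact vf_r _ _
  have hz := conflict hc
  have hprod : mt u * mt [(Ge.r false, true), (Ge.r false, false)] * mt (wi u) * mt (fw w) ∈ T :=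
    mul_mem (mul_mem (mul_mem hu1 h3) hu2) h4
  have e : mt u * mt [(Ge.r false, true), (Ge.r false, false)] * mt (wi u) * mt (fw w) =
      mt (u ++ [(Ge.r false, true)]) *
      mt ([(Ge.r false, false)] ++ (wi u ++ rn (Ge.g false) w) ++ [(Ge.r true, true)]) *
      mt ([(Ge.r true, false)] ++ wi (rn (Ge.g false) w)) := by
    simp only [← mk_append, fw]
    simp
  rw [e, hz, mul_zz, zz_mul] at hprod
  exact hprod

/-- The marks of the representation used when the word is not trivial. -/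
def Qm (w : FreeGroup (Fin m)) : Bool → Set (Bool → FreeGroup (Fin m)) := fun b =>
  bif b then {p | p * (emb w)⁻¹ ∈ Hs R₀} else {p | p ∈ Hs R₀}

theorem Qm_disjoint {w : FreeGroup (Fin m)} (hw : w ∉ Subgroup.normalClosure R₀)
    (p : Bool → FreeGroup (Fin m)) : ¬ (p ∈ Qm R₀ w false ∧ p ∈ Qm R₀ w true) := by
  rintro ⟨h1, h2⟩
  apply hw
  rw [← emb_mem]
  have h1 : p ∈ Hs R₀ := h1
  have h2 : p * (emb w)⁻¹ ∈ Hs R₀ := h2
  have := mul_mem (inv_mem h2) h1
  simpa using this

/-- Words acting as right multiplications on the subgroup. -/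
def Good (w : FreeGroup (Fin m)) (u : Wd (Ge m)) : Prop :=
  ∃ g ∈ Hs R₀, ∀ h ∈ Hs R₀,
    ev (va (fun _ => Set.univ) (Qm R₀ w)) u (.base, h) = some ((.base, h * g), ())

variable {R₀}

theorem Good.congr {w : FreeGroup (Fin m)} (hw : w ∉ Subgroup.normalClosure R₀)
    {u v : Wd (Ge m)} (h : mt u = mt v) (hu : Good R₀ w u) : Good R₀ w v := by
  obtain ⟨g, hg, h1⟩ := hu
  refine ⟨g, hg, ?_⟩
  rw [← ev_mt _ _ (Qm_disjoint R₀ hw) h]
  exact h1

theorem Good.app {w : FreeGroup (Fin m)} {u v : Wd (Ge m)} (hu : Good R₀ w u)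
    (hv : Good R₀ w v) : Good R₀ w (u ++ v) := by
  obtain ⟨g, hg, h1⟩ := hu
  obtain ⟨g', hg', h1'⟩ := hv
  refine ⟨g * g', mul_mem hg hg', fun h hh => ?_⟩
  refine ev_append_some.mpr ⟨_, h1 h hh, ?_⟩
  rw [h1' _ (mul_mem hh hg), mul_assoc]

theorem Good.inv {w : FreeGroup (Fin m)} {u : Wd (Ge m)} (hu : Good R₀ w u) :
    Good R₀ w (wi u) := by
  obtain ⟨g, hg, h1⟩ := hu
  refine ⟨g⁻¹, inv_mem hg, fun h hh => ?_⟩
  have h2 := h1 (h * g⁻¹) (mul_mem hh (inv_mem hg))
  rw [inv_mul_cancel_right] at h2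
  exact (ev_isInv (va_isInv _ _) u _ _ ()).mp h2

theorem Good.up {w : FreeGroup (Fin m)} (hw : w ∉ Subgroup.normalClosure R₀)
    {u v : Wd (Ge m)} {e : TM m} (he : e * e = e) (h : mt u = e * mt v) (hu : Good R₀ w u) :
    Good R₀ w v := by
  obtain ⟨c, rfl⟩ := mk_surj e
  have hu' : Good R₀ w (c ++ v) := hu.congr hw (v := c ++ v) h
  obtain ⟨g, hg, h1⟩ := hu'
  refine ⟨g, hg, fun p hp => ?_⟩
  obtain ⟨ρ, h2, h3⟩ := ev_append_some.mp (h1 p hp)
  have hform := (idem_form he).1
  have e1 : ev (va (fun _ => Set.univ) (Qm R₀ w)) (wi c) =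
      ev (va (fun _ => Set.univ) (Qm R₀ w)) c := ev_mt _ _ (Qm_disjoint R₀ hw) hform
  have h4 := (ev_isInv (va_isInv _ _) c _ _ ()).mp h2
  rw [e1] at h4
  have e2 : ev (va (fun _ => Set.univ) (Qm R₀ w)) (c ++ c) =
      ev (va (fun _ => Set.univ) (Qm R₀ w)) c := ev_mt _ _ (Qm_disjoint R₀ hw) he
  have h5 : ev (va (fun _ => Set.univ) (Qm R₀ w)) (c ++ c) (.base, p) = some (ρ, ()) := by
    rw [e2]; exact h2
  obtain ⟨ρ', h6, h7⟩ := ev_append_some.mp h5
  rw [h2] at h6
  have : ρ = ρ' := congrArg Prod.fst (Option.some.inj h6)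
  subst this
  rw [h4] at h7
  have : (Ty.base, p) = ρ := congrArg Prod.fst (Option.some.inj h7)
  rw [← this] at h3
  exact h3

theorem good_nil (w : FreeGroup (Fin m)) : Good R₀ w [] :=
  ⟨1, one_mem _, fun h _ => by rw [mul_one]; rfl⟩

theorem va_univ_g (Q : Bool → Set (Bool → FreeGroup (Fin m))) (s : Bool) (i : Fin m) (b : Bool)
    (p : Bool → FreeGroup (Fin m)) : va (fun _ => Set.univ) Q (.g s i, b) (.base, p) =
      some ((.base, Function.update p s (p s * lv i b)), ()) :=
  (va_g _ _ _ _ _ _ _).mpr ⟨trivial, trivial, rfl⟩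

theorem ev_dg' (Q : Bool → Set (Bool → FreeGroup (Fin m))) (i : Fin m)
    (p : Bool → FreeGroup (Fin m)) : ev (va (fun _ => Set.univ) Q) (dg i) (.base, p) =
      some ((.base, p * fun _ => FreeGroup.of i), ()) := by
  refine ev_pair_some.mpr ⟨_, va_univ_g Q _ _ _ _, ?_⟩
  rw [va_univ_g]
  congr 3
  funext s
  cases s
  · simp [lv]; rfl
  · simp [lv]; rfl

theorem ev_word_false' (Q : Bool → Set (Bool → FreeGroup (Fin m))) (w : Wd (Fin m))
    (p : Bool → FreeGroup (Fin m)) :
    ev (va (fun _ => Set.univ) Q) (rn (Ge.g false) w) (.base, p) =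
      some ((.base, p * emb (FreeGroup.mk w)), ()) := by
  induction w generalizing p with
  | nil =>
    have : emb (FreeGroup.mk ([] : Wd (Fin m))) = 1 := emb_one
    rw [this, mul_one]; rfl
  | cons x w ih =>
    rw [rn_cons]
    refine ev_cons_some.mpr ⟨_, va_univ_g Q _ _ _ _, ?_⟩
    rw [ih]
    congr 3
    have e : FreeGroup.mk (x :: w) = lv x.1 x.2 * FreeGroup.mk w := by
      rw [lv, FreeGroup.mul_mk]; rfl
    rw [e, emb_mul, ← mul_assoc]
    congr 1
    funext s
    cases s
    · simp [emb]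
    · simp [emb]

theorem good_dg (w : FreeGroup (Fin m)) (i : Fin m) : Good R₀ w (dg i) :=
  ⟨_, diag_mem R₀ _, fun h _ => ev_dg' _ i h⟩

theorem good_rel (w : FreeGroup (Fin m)) {r : Wd (Fin m)}
    (hr : FreeGroup.mk r ∈ Subgroup.normalClosure R₀) : Good R₀ w (rn (Ge.g false) r) :=
  ⟨_, (emb_mem R₀).mpr hr, fun h _ => ev_word_false' _ r h⟩

theorem good_mark (w : FreeGroup (Fin m)) :
    Good R₀ w [(Ge.r false, true), (Ge.r false, false)] := by
  refine ⟨1, one_mem _, fun h hh => ?_⟩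
  rw [mul_one]
  refine ev_pair_some.mpr ⟨(.rho false, h), ?_, ?_⟩
  · exact (va_r _ _ _ _ _).mpr ⟨hh, rfl⟩
  · exact (va_i _ _ _ _ _ _).mpr ⟨rfl, hh, rfl⟩

theorem good_fw (w : Wd (Fin m)) : Good R₀ (FreeGroup.mk w) (fw w) := by
  refine ⟨1, one_mem _, fun h hh => ?_⟩
  rw [mul_one]
  have h1 := ev_word_false' (Qm R₀ (FreeGroup.mk w)) w h
  have hq : h * emb (FreeGroup.mk w) ∈ Qm R₀ (FreeGroup.mk w) true := by
    change h * emb (FreeGroup.mk w) * (emb (FreeGroup.mk w))⁻¹ ∈ Hs R₀
    rw [mul_inv_cancel_right]; exact hh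
  refine ev_append_some.mpr ⟨_, h1, ev_append_some.mpr ⟨(.base, h * emb (FreeGroup.mk w)), ?_, ?_⟩⟩
  · refine ev_pair_some.mpr ⟨(.rho true, h * emb (FreeGroup.mk w)), ?_, ?_⟩
    · exact (va_r _ _ _ _ _).mpr ⟨hq, rfl⟩
    · exact (va_i _ _ _ _ _ _).mpr ⟨rfl, hq, rfl⟩
  · exact (ev_isInv (va_isInv _ _) _ _ _ ()).mp h1

theorem not_good_zero (w : FreeGroup (Fin m)) : ¬ Good R₀ w [(Ge.z, true)] := by
  rintro ⟨g, _, h⟩
  have := h 1 (one_mem _)
  rw [ev_single, va_z] at this
  cases this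

theorem not_good_r (w : FreeGroup (Fin m)) : ¬ Good R₀ w [(Ge.r false, true)] := by
  rintro ⟨g, _, h⟩
  have := h 1 (one_mem _)
  rw [ev_single_some] at this
  have h2 := ((va_r _ _ _ _ _).mp this).2
  cases congrArg Prod.fst h2

end

end Pool.Agent.V11259.TreeMon
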