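import Mathlib
import Pool.Agent.V11259.TreeF

set_option autoImplicit false

/-! The statements of the problem. -/

namespace Pool.Agent.V11259.TreeMon

section defs

variable {α : Type} (R : Wd α → Wd α → Prop)

/-- A monoid is an inverse monoid if every element has a unique inverse. -/
def IsInverseMonoid (M : Type) [Monoid M] : Prop :=
  ∀ s : M, ∃! t : M, s * t * s = s ∧ t * s * t = t

/-- `t` is in the strongly connected component of `s` in the right Cayley graph. -/
def Strong (s t : IM R) : Prop := (∃ u, s * u = t) ∧ ∃ v, t * v = s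

/-- The Schützenberger graph of `s`: the strongly connected component of `s` in the Cayley graph,
with an (undirected) edge between `t` and `t x` for every letter `x`. -/
def schutz (s : IM R) : SimpleGraph {t : IM R // Strong R s t} :=
  SimpleGraph.fromRel (fun t t' => ∃ x : α × Bool, t.1 * mk R [x] = t'.1)

/-- Quasi-isometry of graphs with their path metrics. -/
def QuasiIsometric {V V' : Type} (G : SimpleGraph V) (G' : SimpleGraph V') : Prop :=
  ∃ (f : V → V') (k c : ℕ), (∀ x y, G'.dist (f x) (f y) ≤ k * G.dist x y + c) ∧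
    (∀ x y, G.dist x y ≤ k * G'.dist (f x) (f y) + c) ∧ ∀ z, ∃ x, G'.dist z (f x) ≤ c

/-- `Inv⟨α | R⟩` is tree-like: every Schützenberger graph is quasi-isometric to a tree. -/
def TreeLike : Prop :=
  ∀ s : IM R, ∃ (V : Type) (T : SimpleGraph V), T.IsTree ∧ QuasiIsometric (schutz R s) T

/-- The submonoid generated by a finite set of words. -/
def subm (X : List (Wd α)) : Submonoid (IM R) := Submonoid.closure {s | ∃ x ∈ X, s = mk R x}

/-- The inverse submonoid generated by a finite set of words. -/
def invm (X : List (Wd α)) : Submonoid (IM R) :=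
  Submonoid.closure {s | ∃ x ∈ X, s = mk R x ∨ s = mk R (wi x)}

/-- A closed inverse submonoid: closed under inverses and upwards in the natural order
(`s ≤ t` if `s = e t` for an idempotent `e`). -/
def ClosedInv (T : Submonoid (IM R)) : Prop :=
  (∀ w, mk R w ∈ T → mk R (wi w) ∈ T) ∧ ∀ e s t, e * e = e → s = e * t → s ∈ T → t ∈ T

/-- Finite automata over `A ∪ A⁻¹`: an initial state, a list of final states, and a list of
transitions. -/
abbrev Auto (α : Type) : Type := ℕ × List ℕ × List (ℕ × (α × Bool) × ℕ)

/-- Paths of an automaton. -/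
def path (δ : List (ℕ × (α × Bool) × ℕ)) : Wd α → ℕ → ℕ → Prop
  | [], p, q => p = q
  | x :: w, p, q => ∃ r, (p, x, r) ∈ δ ∧ path δ w r q

/-- The accepted words. -/
def Accepts (A : Auto α) (w : Wd α) : Prop := ∃ q ∈ A.2.1, path A.2.2 w A.1 q

/-- (a) The rational subset membership problem. -/
def RationalMem (p : Auto α × Wd α) : Prop := ∃ u, Accepts p.1 u ∧ mk R u = mk R p.2

/-- (b) The submonoid membership problem. -/
def SubmonoidMem (p : List (Wd α) × Wd α) : Prop := mk R p.2 ∈ subm R p.1

/-- (c) The inverse submonoid membership problem. -/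
def InverseMem (p : List (Wd α) × Wd α) : Prop := mk R p.2 ∈ invm R p.1

/-- (d) The closed inverse submonoid membership problem: membership in the smallest closed inverse
submonoid containing the given words. -/
def ClosedMem (p : List (Wd α) × Wd α) : Prop :=
  ∀ T : Submonoid (IM R), ClosedInv R T → (∀ x ∈ p.1, mk R x ∈ T) → mk R p.2 ∈ T

end defs

section general

variable {α : Type} {R : Wd α → Wd α → Prop}

theorem isInverse : IsInverseMonoid (IM R) := by
  intro s
  obtain ⟨w, rfl⟩ := mk_surj s
  refine ⟨mk R (wi w), ⟨mk_mk_mk w, mki_mk_mki w⟩, ?_⟩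
  intro t ht
  obtain ⟨h1, h2⟩ : mk R w * t * mk R w = mk R w ∧ t * mk R w * t = t := ht
  set s := mk R w with hs
  set t' := mk R (wi w) with ht'
  have h3 : s * t' * s = s := mk_mk_mk w
  have h4 : t' * s * t' = t' := mki_mk_mki w
  have i1 : t * s * (t * s) = t * s := by
    calc t * s * (t * s) = (t * s * t) * s := by simp only [mul_assoc]
      _ = t * s := by rw [h2]
  have i2 : t' * s * (t' * s) = t' * s := by
    calc t' * s * (t' * s) = (t' * s * t') * s := by simp only [mul_assoc]
      _ = t' * s := by rw [h4]
  have j1 : s * t * (s * t) = s * t := by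
    calc s * t * (s * t) = (s * t * s) * t := by simp only [mul_assoc]
      _ = s * t := by rw [h1]
  have j2 : s * t' * (s * t') = s * t' := by
    calc s * t' * (s * t') = (s * t' * s) * t' := by simp only [mul_assoc]
      _ = s * t' := by rw [h3]
  calc t = t * s * t := h2.symm
    _ = t * (s * t' * s) * t := by rw [h3]
    _ = (t * s) * (t' * s) * t := by simp only [mul_assoc]
    _ = (t' * s) * (t * s) * t := by rw [idem_comm i1 i2]
    _ = t' * (s * (t * s * t)) := by simp only [mul_assoc]
    _ = t' * (s * t) := by rw [h2]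
    _ = (t' * s * t') * (s * t) := by rw [h4]
    _ = t' * ((s * t') * (s * t)) := by simp only [mul_assoc]
    _ = t' * ((s * t) * (s * t')) := by rw [idem_comm j2 j1]
    _ = t' * ((s * t * s) * t') := by simp only [mul_assoc]
    _ = t' * (s * t') := by rw [h1]
    _ = t' * s * t' := by simp only [mul_assoc]
    _ = t' := h4

theorem tree_of_finite (h : ∀ s : IM R, {t : IM R | Strong R s t}.Finite) : TreeLike R := by
  intro s
  have hf : Finite {t : IM R // Strong R s t} := (h s).to_subtype
  refine ⟨Unit, ⊥, ?_, ?_⟩
  · refine ⟨?_, SimpleGraph.isAcyclic_bot⟩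
    exact (SimpleGraph.connected_iff _).mpr ⟨fun a b => by
      cases a; cases b; exact SimpleGraph.Reachable.refl _, ⟨()⟩⟩
  · have hb : ∃ c : ℕ, ∀ x y, (schutz R s).dist x y ≤ c := by
      have : (Set.range (fun p : {t : IM R // Strong R s t} × {t : IM R // Strong R s t} =>
        (schutz R s).dist p.1 p.2)).Finite := Set.finite_range _
      obtain ⟨c, hc⟩ := this.bddAbove
      exact ⟨c, fun x y => hc ⟨(x, y), rfl⟩⟩
    obtain ⟨c, hc⟩ := hb
    refine ⟨fun _ => (), 0, c, ?_, ?_, ?_⟩
    · intro x y
      rw [SimpleGraph.dist_self]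
      exact Nat.zero_le _
    · intro x y
      rw [zero_mul, zero_add]
      exact hc x y
    · intro z
      refine ⟨⟨s, ⟨1, mul_one s⟩, ⟨1, mul_one s⟩⟩, ?_⟩
      cases z
      rw [SimpleGraph.dist_self]
      exact Nat.zero_le _

end general

end Pool.Agent.V11259.TreeMon
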