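import Mathlib
import Pool.Agent.V11259.TreeG

set_option autoImplicit false

/-! The automaton of a finitely generated submonoid. -/

namespace Pool.Agent.V11259.TreeMon

section flower

variable {α : Type} [Primcodable α]

/-- Numbers of states. -/
def en (w : Wd α) : ℕ := Encodable.encode w

theorem en_inj {u v : Wd α} (h : en u = en v) : u = v := Encodable.encode_injective h

/-- Transitions. -/
abbrev Tr (α : Type) : Type := ℕ × (α × Bool) × ℕ

/-- The transitions of a word: reading the suffixes, and the first letter from the base. -/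
def tr : Wd α → Wd α × List (Tr α) × List (Tr α)
  | [] => ([], [], [])
  | c :: u => (c :: (tr u).1, (en (c :: (tr u).1), c, en (tr u).1) :: (tr u).2.1,
      [(en ([] : Wd α), c, en (tr u).1)])

theorem tr_fst (u : Wd α) : (tr u).1 = u := by
  induction u with
  | nil => rfl
  | cons c u ih => rw [tr]; simp only [ih]

theorem tr_sound (x : Wd α) {t : Tr α} :
    (t ∈ (tr x).2.1 → ∃ c u, t = (en (c :: u), c, en u)) ∧
    (t ∈ (tr x).2.2 → ∃ c u, x = c :: u ∧ t = (en ([] : Wd α), c, en u)) := by
  induction x with
  | nil => constructor <;> intro h <;> simp [tr] at h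
  | cons c u ih =>
    constructor
    · intro h
      simp only [tr, tr_fst, List.mem_cons] at h
      rcases h with h | h
      · exact ⟨c, u, h⟩
      · exact ih.1 h
    · intro h
      simp only [tr, tr_fst, List.mem_singleton] at h
      exact ⟨c, u, rfl, h⟩

theorem tr_complete (v : Wd α) (c : α × Bool) (u : Wd α) :
    (en (c :: u), c, en u) ∈ (tr (v ++ c :: u)).2.1 := by
  induction v with
  | nil =>
    simp only [List.nil_append, tr, tr_fst, List.mem_cons]
    left; trivial
  | cons d v ih =>
    simp only [List.cons_append, tr, List.mem_cons]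
    right; exact ih

theorem tr_complete' (c : α × Bool) (u : Wd α) :
    (en ([] : Wd α), c, en u) ∈ (tr (c :: u)).2.2 := by
  simp only [tr, tr_fst, List.mem_singleton]

/-- The transitions of the automaton. -/
def trs (X : List (Wd α)) : List (Tr α) := X.flatMap (fun x => (tr x).2.1 ++ (tr x).2.2)

/-- The automaton accepting the products of words of a list. -/
def flower (X : List (Wd α)) : Auto α := (en ([] : Wd α), [en ([] : Wd α)], trs X)

theorem path_append {δ : List (Tr α)} {u v : Wd α} {p q r : ℕ} (h1 : path δ u p q)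
    (h2 : path δ v q r) : path δ (u ++ v) p r := by
  induction u generalizing p with
  | nil =>
    have h1 : p = q := h1
    rw [h1]; exact h2
  | cons x u ih =>
    obtain ⟨s, h3, h4⟩ := h1
    exact ⟨s, h3, ih h4⟩

theorem path_sound {X : List (Wd α)} {y v : Wd α} (h : path (trs X) y (en v) (en ([] : Wd α))) :
    ∃ ys : List (Wd α), (∀ x ∈ ys, x ∈ X) ∧ y = v ++ ys.flatten := by
  induction y generalizing v with
  | nil =>
    have h : en v = en ([] : Wd α) := h
    refine ⟨[], by simp, ?_⟩
    rw [en_inj h]; rfl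
  | cons c y ih =>
    obtain ⟨r, h1, h2⟩ := h
    obtain ⟨x, hx, h3⟩ := List.mem_flatMap.mp h1
    rcases List.mem_append.mp h3 with h4 | h4
    · obtain ⟨d, u, h5⟩ := (tr_sound x).1 h4
      rw [Prod.mk.injEq, Prod.mk.injEq] at h5
      obtain ⟨h6, rfl, rfl⟩ := h5
      obtain ⟨ys, h7, h8⟩ := ih h2
      refine ⟨ys, h7, ?_⟩
      rw [en_inj h6, h8]; rfl
    · obtain ⟨d, u, h9, h5⟩ := (tr_sound x).2 h4
      rw [Prod.mk.injEq, Prod.mk.injEq] at h5
      obtain ⟨h6, rfl, rfl⟩ := h5
      obtain ⟨ys, h7, h8⟩ := ih h2
      refine ⟨x :: ys, ?_, ?_⟩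
      · intro z hz
        rcases List.mem_cons.mp hz with rfl | hz
        · exact hx
        · exact h7 z hz
      · rw [en_inj h6, h8, h9, List.flatten_cons]; rfl

theorem path_word {X : List (Wd α)} {x : Wd α} (hx : x ∈ X) :
    path (trs X) x (en ([] : Wd α)) (en ([] : Wd α)) := by
  have key : ∀ (v u : Wd α), x = v ++ u → path (trs X) u (en u) (en ([] : Wd α)) := by
    intro v u
    induction u generalizing v with
    | nil => intro _; rfl
    | cons c u ih =>
      intro h
      refine ⟨en u, ?_, ih (v ++ [c]) (by rw [h]; simp)⟩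
      apply List.mem_flatMap.mpr
      refine ⟨x, hx, List.mem_append.mpr (Or.inl ?_)⟩
      rw [h]
      exact tr_complete v c u
  rcases x with _ | ⟨c, u⟩
  · rfl
  · refine ⟨en u, ?_, key [c] u rfl⟩
    apply List.mem_flatMap.mpr
    exact ⟨c :: u, hx, List.mem_append.mpr (Or.inr (tr_complete' c u))⟩

theorem path_words {X : List (Wd α)} {ys : List (Wd α)} (h : ∀ x ∈ ys, x ∈ X) :
    path (trs X) ys.flatten (en ([] : Wd α)) (en ([] : Wd α)) := by
  induction ys with
  | nil => rfl
  | cons x ys ih =>
    rw [List.flatten_cons]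
    exact path_append (path_word (h x (by simp))) (ih (fun z hz => h z (by simp [hz])))

theorem mk_flatten {R : Wd α → Wd α → Prop} (ys : List (Wd α)) :
    mk R ys.flatten = (ys.map (mk R)).prod := by
  induction ys with
  | nil => rfl
  | cons x ys ih => rw [List.flatten_cons, mk_append, ih, List.map_cons, List.prod_cons]

theorem rational_flower (R : Wd α → Wd α → Prop) (X : List (Wd α)) (w : Wd α) :
    RationalMem R (flower X, w) ↔ SubmonoidMem R (X, w) := by
  constructor
  · rintro ⟨u, ⟨q, hq, hp⟩, hu⟩
    have hq : q = en ([] : Wd α) := List.mem_singleton.mp hq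
    subst hq
    obtain ⟨ys, h1, h2⟩ := path_sound hp
    change mk R w ∈ subm R X
    change mk R u = mk R w at hu
    rw [← hu, h2, List.nil_append, mk_flatten]
    apply Submonoid.list_prod_mem
    intro s hs
    obtain ⟨x, hx, rfl⟩ := List.mem_map.mp hs
    exact Submonoid.subset_closure ⟨x, h1 x hx, rfl⟩
  · intro h
    obtain ⟨l, hl, hp⟩ := Submonoid.exists_list_of_mem_closure h
    have hex : ∃ ys : List (Wd α), (∀ x ∈ ys, x ∈ X) ∧ l = ys.map (mk R) := by
      clear hp
      induction l with
      | nil => exact ⟨[], by simp, rfl⟩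
      | cons s l ih =>
        obtain ⟨ys, h1, h2⟩ := ih (fun y hy => hl y (by simp [hy]))
        obtain ⟨x, hx, rfl⟩ := hl s (by simp)
        refine ⟨x :: ys, ?_, by rw [h2]; rfl⟩
        intro z hz
        rcases List.mem_cons.mp hz with rfl | hz
        · exact hx
        · exact h1 z hz
    obtain ⟨ys, h1, rfl⟩ := hex
    refine ⟨ys.flatten, ⟨en ([] : Wd α), List.mem_singleton.mpr rfl, path_words h1⟩, ?_⟩
    rw [mk_flatten, hp]

theorem tr_eq_foldr (x : Wd α) : tr x = x.foldr (fun c s =>
    ((c :: s.1, (en (c :: s.1), c, en s.1) :: s.2.1, [(en ([] : Wd α), c, en s.1)]) :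
      Wd α × List (Tr α) × List (Tr α))) ([], [], []) := by
  induction x with
  | nil => rfl
  | cons c x ih => rw [tr, List.foldr_cons, ← ih]

theorem en_primrec : Primrec (en : Wd α → ℕ) := Primrec.encode

theorem tr_primrec : Primrec (tr : Wd α → _) := by
  have hs : Primrec (fun q : (Wd α) × ((α × Bool) × (Wd α × List (Tr α) × List (Tr α))) =>
      q.2.2.1) := Primrec.fst.comp (Primrec.snd.comp Primrec.snd)
  have hc : Primrec (fun q : (Wd α) × ((α × Bool) × (Wd α × List (Tr α) × List (Tr α))) =>
      q.2.1) := Primrec.fst.comp Primrec.snd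
  have hl : Primrec (fun q : (Wd α) × ((α × Bool) × (Wd α × List (Tr α) × List (Tr α))) =>
      q.2.2.2.1) := Primrec.fst.comp (Primrec.snd.comp (Primrec.snd.comp Primrec.snd))
  have hcs := Primrec.list_cons.comp hc hs
  have hes := en_primrec.comp hs
  have h : Primrec (fun x : Wd α => x.foldr (fun c s =>
      ((c :: s.1, (en (c :: s.1), c, en s.1) :: s.2.1, [(en ([] : Wd α), c, en s.1)]) :
      Wd α × List (Tr α) × List (Tr α))) ([], [], [])) := by
    refine Primrec.list_foldr (α := Wd α) (β := α × Bool)
      (σ := Wd α × List (Tr α) × List (Tr α)) (f := fun x => x)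
      (g := fun _ => (([] : Wd α), ([] : List (Tr α)), ([] : List (Tr α))))
      (h := fun _ q => (q.1 :: q.2.1, (en (q.1 :: q.2.1), q.1, en q.2.1) :: q.2.2.1,
        [(en ([] : Wd α), q.1, en q.2.1)])) Primrec.id (Primrec.const _) ?_
    exact (Primrec.pair hcs (Primrec.pair
      (Primrec.list_cons.comp (Primrec.pair (en_primrec.comp hcs) (Primrec.pair hc hes)) hl)
      (Primrec.list_cons.comp (Primrec.pair (Primrec.const (en ([] : Wd α))) (Primrec.pair hc hes))
        (Primrec.const ([] : List (Tr α)))))).to₂
  exact h.of_eq (fun x => (tr_eq_foldr x).symm)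

theorem flower_primrec : Primrec (flower : List (Wd α) → Auto α) := by
  have h1 : Primrec (trs : List (Wd α) → List (Tr α)) := by
    unfold trs
    refine Primrec.list_flatMap Primrec.id ?_
    exact (Primrec.list_append.comp
      (Primrec.fst.comp (Primrec.snd.comp (tr_primrec.comp Primrec.snd)))
      (Primrec.snd.comp (Primrec.snd.comp (tr_primrec.comp Primrec.snd)))).to₂
  exact Primrec.pair (Primrec.const _) (Primrec.pair (Primrec.const _) h1)

end flower

end Pool.Agent.V11259.TreeMon
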