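import Mathlib
import Pool.Agent.V11259.CeAlg

/-!
Computable reducibility: equality and almost equality of c.e. sets, and the class of
`Σ⁰₃` equivalence relations.
-/

set_option autoImplicit false

open Encodable Denumerable
open Nat.Partrec (Code)

namespace V11259.CeRel

open V11259.RE V11259.CeAlg

/-- the stage approximation of the c.e. sets -/
def st (e z s : ℕ) : Bool := (Code.evaln s (ofNat Code e) z).isSome

theorem st_prim : Primrec fun q : ℕ × ℕ × ℕ => st q.1 q.2.1 q.2.2 := by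
  unfold st
  apply Primrec.option_isSome.comp
  have h2 : Primrec fun q : ℕ × ℕ × ℕ => ((q.2.2, ofNat Code q.1), q.2.1) :=
    Primrec.pair (Primrec.pair (Primrec.snd.comp Primrec.snd) ((Primrec.ofNat Code).comp
      Primrec.fst)) (Primrec.fst.comp Primrec.snd)
  exact Code.primrec_evaln.comp h2

theorem st_mono {e z s t : ℕ} (h : s ≤ t) (hs : st e z s = true) : st e z t = true := by
  unfold st at *
  rw [Option.isSome_iff_exists] at *
  obtain ⟨x, hx⟩ := hs
  exact ⟨x, Code.evaln_mono h hx⟩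

theorem mem_W {e z : ℕ} : z ∈ W e ↔ ∃ s, st e z s = true := by
  show (Code.eval (ofNat Code e) z).Dom ↔ _
  rw [Part.dom_iff_mem]
  constructor
  · rintro ⟨y, hy⟩
    obtain ⟨k, hk⟩ := Code.evaln_complete.1 hy
    exact ⟨k, Option.isSome_iff_exists.2 ⟨y, hk⟩⟩
  · rintro ⟨k, hk⟩
    obtain ⟨y, hy⟩ := Option.isSome_iff_exists.1 hk
    exact ⟨y, Code.evaln_sound hy⟩

/-- `=^ce`: equality of c.e. sets -/
def ceEq (x y : ℕ) : Prop := W x = W y

/-- `E₀^ce`: almost equality of c.e. sets -/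
def ceEq0 (x y : ℕ) : Prop := (symmDiff (W x) (W y)).Finite

/-- The relation `E` on `ℕ` is `Σ⁰₃`. -/
def Sigma3 (E : ℕ → ℕ → Prop) : Prop :=
  ∃ R : ℕ × ℕ × ℕ × ℕ × ℕ → Prop, ComputablePred R ∧
    ∀ x y, E x y ↔ ∃ a, ∀ b, ∃ c, R (x, y, a, b, c)

/-- `E` is a `Σ⁰₃`-complete equivalence relation. -/
def Sigma3Complete (E : ℕ → ℕ → Prop) : Prop :=
  Equivalence E ∧ Sigma3 E ∧ ∀ F : ℕ → ℕ → Prop, Equivalence F → Sigma3 F → CRed F E

theorem Sigma3.of_cred {E F : ℕ → ℕ → Prop} (h : CRed E F) (hF : Sigma3 F) : Sigma3 E := by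
  obtain ⟨h, hh, hr⟩ := h
  obtain ⟨R, hR, hR2⟩ := hF
  refine ⟨fun q => R (h q.1, h q.2.1, q.2.2), ?_, fun x y => ?_⟩
  · obtain ⟨D, hD⟩ := hR
    refine ⟨fun q => D _, ?_⟩
    exact hD.comp (Computable.pair (hh.comp Computable.fst) (Computable.pair
      (hh.comp (Computable.fst.comp Computable.snd)) (Computable.snd.comp Computable.snd)))
  · rw [hr, hR2]

/-- the matrix of `=^ce` -/
def mat (x y z s c : ℕ) : Bool := (!st x z s || st y z c) && (!st y z s || st x z c)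

theorem mat_prim : Primrec fun q : ℕ × ℕ × ℕ × ℕ × ℕ =>
    mat q.1 q.2.1 q.2.2.1 q.2.2.2.1 q.2.2.2.2 := by
  unfold mat
  have p1 : Primrec fun q : ℕ × ℕ × ℕ × ℕ × ℕ => q.1 := Primrec.fst
  have p2 : Primrec fun q : ℕ × ℕ × ℕ × ℕ × ℕ => q.2.1 := Primrec.fst.comp Primrec.snd
  have p3 : Primrec fun q : ℕ × ℕ × ℕ × ℕ × ℕ => q.2.2.1 :=
    Primrec.fst.comp (Primrec.snd.comp Primrec.snd)
  have p4 : Primrec fun q : ℕ × ℕ × ℕ × ℕ × ℕ => q.2.2.2.1 :=
    Primrec.fst.comp (Primrec.snd.comp (Primrec.snd.comp Primrec.snd))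
  have p5 : Primrec fun q : ℕ × ℕ × ℕ × ℕ × ℕ => q.2.2.2.2 :=
    Primrec.snd.comp (Primrec.snd.comp (Primrec.snd.comp Primrec.snd))
  have s1 : Primrec fun q : ℕ × ℕ × ℕ × ℕ × ℕ => st q.1 q.2.2.1 q.2.2.2.1 :=
    st_prim.comp (p1.pair (p3.pair p4))
  have s2 : Primrec fun q : ℕ × ℕ × ℕ × ℕ × ℕ => st q.2.1 q.2.2.1 q.2.2.2.2 :=
    st_prim.comp (p2.pair (p3.pair p5))
  have s3 : Primrec fun q : ℕ × ℕ × ℕ × ℕ × ℕ => st q.2.1 q.2.2.1 q.2.2.2.1 :=
    st_prim.comp (p2.pair (p3.pair p4))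
  have s4 : Primrec fun q : ℕ × ℕ × ℕ × ℕ × ℕ => st q.1 q.2.2.1 q.2.2.2.2 :=
    st_prim.comp (p1.pair (p3.pair p5))
  exact Primrec.and.comp (Primrec.or.comp (Primrec.not.comp s1) s2)
    (Primrec.or.comp (Primrec.not.comp s3) s4)

theorem mat_iff {x y z : ℕ} : (∀ s, ∃ c, mat x y z s c = true) ↔ (z ∈ W x ↔ z ∈ W y) := by
  constructor
  · intro h
    rw [mem_W, mem_W]
    constructor
    · rintro ⟨s, hs⟩
      obtain ⟨c, hc⟩ := h s
      simp only [mat, hs, Bool.not_true, Bool.false_or, Bool.and_eq_true] at hc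
      exact ⟨c, hc.1⟩
    · rintro ⟨s, hs⟩
      obtain ⟨c, hc⟩ := h s
      simp only [mat, hs, Bool.not_true, Bool.false_or, Bool.and_eq_true] at hc
      exact ⟨c, hc.2⟩
  · intro h s
    rw [mem_W, mem_W] at h
    by_cases h1 : ∃ t, st x z t = true
    · obtain ⟨t, ht⟩ := h1
      obtain ⟨u, hu⟩ := h.1 ⟨t, ht⟩
      refine ⟨max t u, ?_⟩
      simp [mat, st_mono (le_max_left t u) ht, st_mono (le_max_right t u) hu]
    · have h2 : ¬ ∃ t, st y z t = true := fun h3 => h1 (h.2 h3)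
      refine ⟨0, ?_⟩
      have h3 : st x z s = false := by
        by_contra h4
        exact h1 ⟨s, by simpa using h4⟩
      have h4 : st y z s = false := by
        by_contra h4
        exact h2 ⟨s, by simpa using h4⟩
      simp [mat, h3, h4]

theorem ceEq_equivalence : Equivalence ceEq := ⟨fun _ => rfl, Eq.symm, Eq.trans⟩

theorem ceEq0_equivalence : Equivalence ceEq0 := by
  refine ⟨fun x => ?_, fun {x y} h => ?_, fun {x y z} h1 h2 => ?_⟩
  · simp [ceEq0]
  · unfold ceEq0 at *; rwa [symmDiff_comm]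
  · unfold ceEq0 at *
    exact (h1.union h2).subset (symmDiff_triangle _ _ _)

theorem ceEq_iff {x y : ℕ} : ceEq x y ↔ ∀ z s, ∃ c, mat x y z s c = true := by
  unfold ceEq
  rw [Set.ext_iff]
  exact forall_congr' fun z => mat_iff.symm

theorem sigma3_ceEq : Sigma3 ceEq := by
  refine ⟨fun q => mat q.1 q.2.1 q.2.2.2.1.unpair.1 q.2.2.2.1.unpair.2 q.2.2.2.2 = true, ?_, ?_⟩
  · have p1 : Primrec fun q : ℕ × ℕ × ℕ × ℕ × ℕ => q.1 := Primrec.fst
    have p2 : Primrec fun q : ℕ × ℕ × ℕ × ℕ × ℕ => q.2.1 := Primrec.fst.comp Primrec.snd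
    have p4 : Primrec fun q : ℕ × ℕ × ℕ × ℕ × ℕ => q.2.2.2.1 :=
      Primrec.fst.comp (Primrec.snd.comp (Primrec.snd.comp Primrec.snd))
    have p5 : Primrec fun q : ℕ × ℕ × ℕ × ℕ × ℕ => q.2.2.2.2 :=
      Primrec.snd.comp (Primrec.snd.comp (Primrec.snd.comp Primrec.snd))
    have h : Primrec fun q : ℕ × ℕ × ℕ × ℕ × ℕ =>
        mat q.1 q.2.1 q.2.2.2.1.unpair.1 q.2.2.2.1.unpair.2 q.2.2.2.2 :=
      mat_prim.comp (p1.pair (p2.pair ((Primrec.fst.comp (Primrec.unpair.comp p4)).pair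
        ((Primrec.snd.comp (Primrec.unpair.comp p4)).pair p5))))
    exact (Primrec.eq.comp h (Primrec.const true)).computablePred
  · intro x y
    rw [ceEq_iff]
    constructor
    · intro h
      exact ⟨0, fun b => h b.unpair.1 b.unpair.2⟩
    · rintro ⟨a, h⟩ z s
      simpa using h (Nat.pair z s)

theorem ceEq0_iff {x y : ℕ} : ceEq0 x y ↔ ∃ a, ∀ z s, ∃ c, z < a ∨ mat x y z s c = true := by
  constructor
  · intro h
    obtain ⟨a, ha⟩ := h.bddAbove
    refine ⟨a + 1, fun z s => ?_⟩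
    by_cases hz : z < a + 1
    · exact ⟨0, Or.inl hz⟩
    · have h1 : z ∈ W x ↔ z ∈ W y := by
        by_contra h2
        have h3 : z ∈ symmDiff (W x) (W y) := by
          rw [Set.mem_symmDiff]; tauto
        have := ha h3
        omega
      obtain ⟨c, hc⟩ := mat_iff.2 h1 s
      exact ⟨c, Or.inr hc⟩
  · rintro ⟨a, ha⟩
    refine (Set.finite_lt_nat a).subset fun z hz => ?_
    by_contra h1
    have h1 : ¬ z < a := h1
    have h2 : z ∈ W x ↔ z ∈ W y := by
      apply mat_iff.1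
      intro s
      obtain ⟨c, hc⟩ := ha z s
      exact ⟨c, hc.resolve_left h1⟩
    rw [Set.mem_symmDiff] at hz
    tauto

theorem sigma3_ceEq0 : Sigma3 ceEq0 := by
  refine ⟨fun q => q.2.2.2.1.unpair.1 < q.2.2.1 ∨
    mat q.1 q.2.1 q.2.2.2.1.unpair.1 q.2.2.2.1.unpair.2 q.2.2.2.2 = true, ?_, ?_⟩
  · have p1 : Primrec fun q : ℕ × ℕ × ℕ × ℕ × ℕ => q.1 := Primrec.fst
    have p2 : Primrec fun q : ℕ × ℕ × ℕ × ℕ × ℕ => q.2.1 := Primrec.fst.comp Primrec.snd
    have p3 : Primrec fun q : ℕ × ℕ × ℕ × ℕ × ℕ => q.2.2.1 :=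
      Primrec.fst.comp (Primrec.snd.comp Primrec.snd)
    have p4 : Primrec fun q : ℕ × ℕ × ℕ × ℕ × ℕ => q.2.2.2.1 :=
      Primrec.fst.comp (Primrec.snd.comp (Primrec.snd.comp Primrec.snd))
    have p5 : Primrec fun q : ℕ × ℕ × ℕ × ℕ × ℕ => q.2.2.2.2 :=
      Primrec.snd.comp (Primrec.snd.comp (Primrec.snd.comp Primrec.snd))
    have h : Primrec fun q : ℕ × ℕ × ℕ × ℕ × ℕ =>
        mat q.1 q.2.1 q.2.2.2.1.unpair.1 q.2.2.2.1.unpair.2 q.2.2.2.2 :=
      mat_prim.comp (p1.pair (p2.pair ((Primrec.fst.comp (Primrec.unpair.comp p4)).pair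
        ((Primrec.snd.comp (Primrec.unpair.comp p4)).pair p5))))
    exact (PrimrecPred.or (Primrec.nat_lt.comp (Primrec.fst.comp (Primrec.unpair.comp p4)) p3)
      (Primrec.eq.comp h (Primrec.const true))).computablePred
  · intro x y
    rw [ceEq0_iff]
    constructor
    · rintro ⟨a, h⟩
      exact ⟨a, fun b => h b.unpair.1 b.unpair.2⟩
    · rintro ⟨a, h⟩
      refine ⟨a, fun z s => ?_⟩
      simpa using h (Nat.pair z s)

theorem ceEq_le_ceEq0 : CRed ceEq ceEq0 := by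
  have hp : REPred fun q : ℕ × ℕ => q.2.unpair.1 ∈ W q.1 :=
    comp re_W (f := fun q : ℕ × ℕ => (q.1, q.2.unpair.1))
      (Primrec.to_comp (Primrec.fst.pair (Primrec.fst.comp (Primrec.unpair.comp Primrec.snd))))
  obtain ⟨g, hg, hg2⟩ := exists_smn hp
  refine ⟨g, hg, fun x y => ⟨fun h => ?_, fun h => ?_⟩⟩
  · have h1 : W (g x) = W (g y) := by
      ext z
      rw [hg2, hg2]
      show _ ∈ W x ↔ _ ∈ W y
      rw [h]
    show (symmDiff (W (g x)) (W (g y))).Finite
    rw [h1, symmDiff_self]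
    exact Set.finite_empty
  · show W x = W y
    ext z
    by_contra hz
    have h1 : Set.range (fun k => Nat.pair z k) ⊆ symmDiff (W (g x)) (W (g y)) := by
      rintro _ ⟨k, rfl⟩
      rw [Set.mem_symmDiff, hg2, hg2]
      simp only [Nat.unpair_pair]
      tauto
    have h2 : (Set.range fun k => Nat.pair z k).Infinite :=
      Set.infinite_range_of_injective fun a b hab => (Nat.pair_eq_pair.1 hab).2
    exact h2 (h.subset h1)

theorem ceEq0_not_le_ceEq : ¬ CRed ceEq0 ceEq := by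
  rintro ⟨h, hh, hr⟩
  -- `S = {e | ∃ x, ⟨e, x⟩ ∉ W e}` is reducible to finiteness
  have hp : REPred fun q : ℕ × ℕ => ∀ x ∈ List.range q.2, Nat.pair q.1 x ∈ W q.1 := by
    have h1 : REPred fun q : ℕ × ℕ => Nat.pair q.1 q.2 ∈ W q.1 :=
      comp re_W (f := fun q : ℕ × ℕ => (q.1, Nat.pair q.1 q.2))
        (Primrec.to_comp (Primrec.fst.pair (Primrec₂.natPair.comp Primrec.fst Primrec.snd)))
    exact comp (forall_mem h1) (f := fun q : ℕ × ℕ => (q.1, List.range q.2))
      (Primrec.to_comp (Primrec.fst.pair (Primrec.list_range.comp Primrec.snd)))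
  obtain ⟨g, hg, hg2⟩ := exists_smn hp
  obtain ⟨e0, he0⟩ := exists_index (const (α := ℕ) False)
  have hS : ∀ e, (∃ x, Nat.pair e x ∉ W e) ↔ ceEq0 (g e) e0 := by
    intro e
    have h0 : W e0 = ∅ := by ext x; simp [he0]
    unfold ceEq0
    rw [h0]
    have : symmDiff (W (g e)) (∅ : Set ℕ) = W (g e) := symmDiff_bot _
    rw [this]
    constructor
    · rintro ⟨x, hx⟩
      refine (Set.finite_le_nat x).subset fun s hs => ?_
      rw [hg2] at hs
      by_contra hsx
      have hsx : ¬ s ≤ x := hsx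
      exact hx (hs x (List.mem_range.2 (by omega)))
    · intro hfin
      by_contra hn
      push Not at hn
      have : W (g e) = Set.univ := by
        ext s
        simp only [Set.mem_univ, iff_true]
        rw [hg2]
        intro x _
        exact hn x
      rw [this] at hfin
      exact Set.infinite_univ hfin
  have hD : REPred fun x : ℕ => ∃ c, mat (h (g x.unpair.1)) (h e0) x.unpair.2.unpair.1
      x.unpair.2.unpair.2 c = true := by
    refine ex (p := fun q : ℕ × ℕ => mat (h (g q.1.unpair.1)) (h e0) q.1.unpair.2.unpair.1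
      q.1.unpair.2.unpair.2 q.2 = true) ?_
    have c0 : Computable fun q : ℕ × ℕ => q.1.unpair.1 :=
      Primrec.to_comp (Primrec.fst.comp (Primrec.unpair.comp Primrec.fst))
    have c1 : Computable fun q : ℕ × ℕ => h (g q.1.unpair.1) := hh.comp (hg.comp c0)
    have c2 : Computable fun q : ℕ × ℕ => q.1.unpair.2.unpair.1 :=
      Primrec.to_comp (Primrec.fst.comp (Primrec.unpair.comp (Primrec.snd.comp
        (Primrec.unpair.comp Primrec.fst))))
    have c3 : Computable fun q : ℕ × ℕ => q.1.unpair.2.unpair.2 :=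
      Primrec.to_comp (Primrec.snd.comp (Primrec.unpair.comp (Primrec.snd.comp
        (Primrec.unpair.comp Primrec.fst))))
    have c4 : Computable fun q : ℕ × ℕ => mat (h (g q.1.unpair.1)) (h e0) q.1.unpair.2.unpair.1
        q.1.unpair.2.unpair.2 q.2 :=
      Computable.comp (f := fun q : ℕ × ℕ × ℕ × ℕ × ℕ => mat q.1 q.2.1 q.2.2.1 q.2.2.2.1 q.2.2.2.2)
        (g := fun q : ℕ × ℕ => (h (g q.1.unpair.1), h e0, q.1.unpair.2.unpair.1,
          q.1.unpair.2.unpair.2, q.2)) mat_prim.to_comp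
        (c1.pair ((Computable.const (h e0)).pair (c2.pair (c3.pair Computable.snd))))
    exact of_bool c4
  obtain ⟨D, hD2⟩ := exists_index hD
  have key : (∃ x, Nat.pair D x ∉ W D) ↔ ¬ ∃ x, Nat.pair D x ∉ W D := by
    conv_rhs => rw [hS, hr, ceEq_iff]
    push Not
    constructor
    · rintro ⟨x, hx⟩
      rw [hD2] at hx
      simp only [Nat.unpair_pair] at hx
      push Not at hx
      exact ⟨x.unpair.1, x.unpair.2, hx⟩
    · rintro ⟨z, s, hzs⟩
      refine ⟨Nat.pair z s, ?_⟩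
      rw [hD2]
      simp only [Nat.unpair_pair]
      push Not
      exact hzs
  tauto

end V11259.CeRel
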