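import Mathlib
import Pool.Agent.V11259.CeRel

/-!
Almost equality of c.e. sets: the class of the empty set is not a finite union of computable
preimages of classes of equality of c.e. sets.
-/

set_option autoImplicit false

open Encodable Denumerable

namespace V11259.CeRel

open V11259.RE V11259.CeAlg

theorem ceEq0_not_finite_union {h : ℕ → ℕ} (hh : Computable h) (I : List ℕ) {e0 : ℕ}
    (h0 : W e0 = ∅) (hr : ∀ x, ceEq0 x e0 ↔ ∃ i ∈ I, ceEq (h x) i) : False := by
  have hp : REPred fun q : ℕ × ℕ => ∀ x ∈ List.range q.2, Nat.pair q.1 x ∈ W q.1 := by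
    have h1 : REPred fun q : ℕ × ℕ => Nat.pair q.1 q.2 ∈ W q.1 :=
      comp re_W (f := fun q : ℕ × ℕ => (q.1, Nat.pair q.1 q.2))
        (Primrec.to_comp (Primrec.fst.pair (Primrec₂.natPair.comp Primrec.fst Primrec.snd)))
    exact comp (forall_mem h1) (f := fun q : ℕ × ℕ => (q.1, List.range q.2))
      (Primrec.to_comp (Primrec.fst.pair (Primrec.list_range.comp Primrec.snd)))
  obtain ⟨g, hg, hg2⟩ := exists_smn hp
  have hS : ∀ e, (∃ x, Nat.pair e x ∉ W e) ↔ ceEq0 (g e) e0 := by
    intro e
    unfold ceEq0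
    rw [h0]
    have : symmDiff (W (g e)) (∅ : Set ℕ) = W (g e) := symmDiff_bot _
    rw [this]
    constructor
    · rintro ⟨x, hx⟩
      refine (Set.finite_le_nat x).subset fun s hs => ?_
      rw [hg2] at hs
      by_contra hsx
      have hsx : ¬ s ≤ x := hsx
      exact hx (hs x (List.mem_range.2 (by omega)))
    · intro hfin
      by_contra hn
      push Not at hn
      have : W (g e) = Set.univ := by
        ext s
        simp only [Set.mem_univ, iff_true]
        rw [hg2]
        intro x _
        exact hn x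
      rw [this] at hfin
      exact Set.infinite_univ hfin
  -- the diagonal set
  have hD : REPred fun x : ℕ => ∃ j, j < I.length ∧ ∃ c, mat (h (g x.unpair.1)) (I.getD j 0)
      ((ofNat (List ℕ) x.unpair.2).getD j 0).unpair.1
      ((ofNat (List ℕ) x.unpair.2).getD j 0).unpair.2 c = true := by
    refine ex (p := fun q : ℕ × ℕ => q.2 < I.length ∧ ∃ c, mat (h (g q.1.unpair.1))
      (I.getD q.2 0) ((ofNat (List ℕ) q.1.unpair.2).getD q.2 0).unpair.1
      ((ofNat (List ℕ) q.1.unpair.2).getD q.2 0).unpair.2 c = true) (and ?_ ?_)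
    · exact of_prim (Primrec.nat_lt.comp Primrec.snd (Primrec.const _))
    · refine ex (p := fun q : (ℕ × ℕ) × ℕ => mat (h (g q.1.1.unpair.1))
        (I.getD q.1.2 0) ((ofNat (List ℕ) q.1.1.unpair.2).getD q.1.2 0).unpair.1
        ((ofNat (List ℕ) q.1.1.unpair.2).getD q.1.2 0).unpair.2 q.2 = true) ?_
      have c0 : Computable fun q : (ℕ × ℕ) × ℕ => q.1.1.unpair.1 :=
        Primrec.to_comp (Primrec.fst.comp (Primrec.unpair.comp (Primrec.fst.comp Primrec.fst)))
      have c1 : Computable fun q : (ℕ × ℕ) × ℕ => h (g q.1.1.unpair.1) := hh.comp (hg.comp c0)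
      have c2 : Computable fun q : (ℕ × ℕ) × ℕ => I.getD q.1.2 0 :=
        Primrec.to_comp ((Primrec.list_getD 0).comp (Primrec.const I)
          (Primrec.snd.comp Primrec.fst))
      have c5 : Primrec fun q : (ℕ × ℕ) × ℕ => (ofNat (List ℕ) q.1.1.unpair.2).getD q.1.2 0 :=
        (Primrec.list_getD 0).comp ((Primrec.ofNat (List ℕ)).comp (Primrec.snd.comp
          (Primrec.unpair.comp (Primrec.fst.comp Primrec.fst)))) (Primrec.snd.comp Primrec.fst)
      have c3 : Computable fun q : (ℕ × ℕ) × ℕ =>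
          ((ofNat (List ℕ) q.1.1.unpair.2).getD q.1.2 0).unpair.1 :=
        Primrec.to_comp (Primrec.fst.comp (Primrec.unpair.comp c5))
      have c4 : Computable fun q : (ℕ × ℕ) × ℕ =>
          ((ofNat (List ℕ) q.1.1.unpair.2).getD q.1.2 0).unpair.2 :=
        Primrec.to_comp (Primrec.snd.comp (Primrec.unpair.comp c5))
      have c6 : Computable fun q : (ℕ × ℕ) × ℕ => mat (h (g q.1.1.unpair.1))
          (I.getD q.1.2 0) ((ofNat (List ℕ) q.1.1.unpair.2).getD q.1.2 0).unpair.1
          ((ofNat (List ℕ) q.1.1.unpair.2).getD q.1.2 0).unpair.2 q.2 :=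
        Computable.comp
          (f := fun q : ℕ × ℕ × ℕ × ℕ × ℕ => mat q.1 q.2.1 q.2.2.1 q.2.2.2.1 q.2.2.2.2)
          (g := fun q : (ℕ × ℕ) × ℕ => (h (g q.1.1.unpair.1), I.getD q.1.2 0,
            ((ofNat (List ℕ) q.1.1.unpair.2).getD q.1.2 0).unpair.1,
            ((ofNat (List ℕ) q.1.1.unpair.2).getD q.1.2 0).unpair.2, q.2)) mat_prim.to_comp
          (c1.pair (c2.pair (c3.pair (c4.pair Computable.snd))))
      exact of_bool c6
  obtain ⟨D, hD2⟩ := exists_index hD
  have key : (∃ x, Nat.pair D x ∉ W D) ↔ ¬ ∃ x, Nat.pair D x ∉ W D := by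
    conv_rhs => rw [hS, hr]
    constructor
    · rintro ⟨x, hx⟩ ⟨i, hi, hci⟩
      rw [hD2] at hx
      simp only [Nat.unpair_pair] at hx
      obtain ⟨j, hj, rfl⟩ := List.getElem_of_mem hi
      apply hx
      refine ⟨j, hj, ?_⟩
      have h1 : I.getD j 0 = I[j] := by simp [List.getD, hj]
      rw [h1]
      exact ceEq_iff.1 hci _ _
    · intro hn
      have h2 : ∀ j, ∃ y : ℕ, j < I.length → ¬ ∃ c, mat (h (g D)) (I.getD j 0) y.unpair.1
          y.unpair.2 c = true := by
        intro j
        by_cases hj : j < I.length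
        · have h1 : I.getD j 0 = I[j] := by simp [List.getD, hj]
          have h3 : ¬ ceEq (h (g D)) I[j] := fun h4 => hn ⟨I[j], List.getElem_mem hj, h4⟩
          rw [ceEq_iff] at h3
          push Not at h3
          obtain ⟨z, s, hzs⟩ := h3
          refine ⟨Nat.pair z s, fun _ => ?_⟩
          rw [h1, Nat.unpair_pair]
          push Not
          exact hzs
        · exact ⟨0, fun h => absurd h hj⟩
      choose y hy using h2
      refine ⟨encode ((List.range I.length).map y), ?_⟩
      rw [hD2]
      rintro ⟨j, hj, hc⟩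
      simp only [Nat.unpair_pair, ofNat_encode] at hc
      have h5 : ((List.range I.length).map y).getD j 0 = y j := by
        simp [List.getD, hj]
      rw [h5] at hc
      exact hy j hj hc
  tauto

end V11259.CeRel
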