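import Mathlib

set_option autoImplicit false

/-! Free products: reduced words, elements centralising the derived subgroup. -/

namespace Pool.Agent.V11259.Integ

open Monoid CoprodI
open scoped commutatorElement

section FP

variable {ι : Type} {M : ι → Type} [∀ i, Group (M i)]

theorem ends_of_prod_eq {i j k l : ι} (u : NeWord M i j) (u' : NeWord M k l)
    (h : u.prod = u'.prod) : i = k ∧ j = l := by
  classical
  have h1 : u.toWord = u'.toWord := Word.equiv.symm.injective h
  have h2 : u.toList = u'.toList := congrArg Word.toList h1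
  have h3 := u.toList_head?
  have h4 := u'.toList_head?
  have h5 := u.toList_getLast?
  have h6 := u'.toList_getLast?
  rw [h2, h4] at h3
  rw [h2, h6] at h5
  have h7 := Option.some.inj h3
  have h8 := Option.some.inj h5
  exact ⟨(congrArg Sigma.fst h7).symm, (congrArg Sigma.fst h8).symm⟩

theorem prod_ne_one {i j : ι} (u : NeWord M i j) : u.prod ≠ 1 := by
  classical
  intro h
  have h1 : u.toWord = Word.empty := Word.equiv.symm.injective (by
    change u.toWord.prod = Word.empty.prod
    rw [Word.prod_empty]; exact h)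
  have h2 : u.toList = [] := congrArg Word.toList h1
  exact u.toList_ne_nil h2

theorem exists_neWord {q : CoprodI M} (hq : q ≠ 1) : ∃ (i j : ι) (u : NeWord M i j), u.prod = q := by
  classical
  have h1 : Word.equiv q ≠ Word.empty := by
    intro h
    apply hq
    have : Word.equiv.symm (Word.equiv q) = Word.prod (Word.empty : Word M) := by
      rw [h]; rfl
    rwa [Equiv.symm_apply_apply, Word.prod_empty] at this
  obtain ⟨i, j, u, hu⟩ := NeWord.of_word _ h1
  refine ⟨i, j, u, ?_⟩
  change u.toWord.prod = q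
  rw [hu]
  exact Word.equiv.symm_apply_apply q

/-- The commutator of two non trivial elements of different factors has infinite order. -/
theorem comm_infinite {i j : ι} (hij : i ≠ j) (a : M i) (b : M j) (ha : a ≠ 1) (hb : b ≠ 1)
    (n : ℕ) : ((of a : CoprodI M) * of b * (of a)⁻¹ * (of b)⁻¹) ^ (n + 1) ≠ 1 := by
  have ha' : a⁻¹ ≠ 1 := mt inv_eq_one.mp ha
  have hb' : b⁻¹ ≠ 1 := mt inv_eq_one.mp hb
  let u : NeWord M i j := .append (.append (.append (.singleton a ha) hij (.singleton b hb))
    hij.symm (.singleton a⁻¹ ha')) hij (.singleton b⁻¹ hb')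
  have hu : u.prod = (of a : CoprodI M) * of b * (of a)⁻¹ * (of b)⁻¹ := by
    simp only [u, NeWord.append_prod, NeWord.prod_singleton, map_inv]
  have key : ∀ n : ℕ, ∃ v : NeWord M i j,
      v.prod = ((of a : CoprodI M) * of b * (of a)⁻¹ * (of b)⁻¹) ^ (n + 1) := by
    intro n
    induction n with
    | zero => exact ⟨u, by rw [hu, pow_one]⟩
    | succ n ih =>
      obtain ⟨v, hv⟩ := ih
      refine ⟨.append v hij.symm u, ?_⟩
      rw [NeWord.append_prod, hv, hu, ← pow_succ]
  obtain ⟨v, hv⟩ := key n
  rw [← hv]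
  exact prod_ne_one v

/-- In a free product, an element which commutes with all commutators of a subgroup `S`
containing elements `a i` with `a i ≠ 1`, `a i ^ 2 ≠ 1` in the factors is trivial. -/
theorem central_trivial (a : ∀ i, M i) (h1 : ∀ i, a i ≠ 1) (h2 : ∀ i, a i * a i ≠ 1)
    (hother : ∀ i : ι, ∃ j, j ≠ i) (S : Subgroup (CoprodI M)) (hS : ∀ i, of (a i) ∈ S)
    (q : CoprodI M) (hq : ∀ g ∈ ⁅S, S⁆, q * g = g * q) : q = 1 := by
  by_contra hne
  have hconj : ∀ x ∈ S, ∀ g ∈ ⁅S, S⁆,
      (x * q * x⁻¹) * g = g * (x * q * x⁻¹) := by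
    intro x hx g hg
    have : x⁻¹ * g * x ∈ ⁅S, S⁆ := by
      have hle : ⁅S, S⁆ ≤ ⁅S, S⁆.comap (MulAut.conj x⁻¹).toMonoidHom := by
        rw [Subgroup.commutator_le]
        intro g1 hg1 g2 hg2
        rw [Subgroup.mem_comap, map_commutatorElement]
        refine Subgroup.commutator_mem_commutator ?_ ?_
        · exact mul_mem (mul_mem (inv_mem hx) hg1) (inv_mem (inv_mem hx))
        · exact mul_mem (mul_mem (inv_mem hx) hg2) (inv_mem (inv_mem hx))
      have := hle hg
      simpa [Subgroup.mem_comap, MulAut.conj_apply] using this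
    have h := hq _ this
    calc (x * q * x⁻¹) * g = x * (q * (x⁻¹ * g * x)) * x⁻¹ := by group
      _ = x * ((x⁻¹ * g * x) * q) * x⁻¹ := by rw [h]
      _ = _ := by group
  have h1' : ∀ i, (a i)⁻¹ ≠ 1 := fun i => mt inv_eq_one.mp (h1 i)
  -- the test element
  have test : ∀ k l : ι, k ≠ l → ∃ g : NeWord M k k, g.prod ∈ ⁅S, S⁆ := by
    intro k l hkl
    have h3 : (a l)⁻¹ * (a l)⁻¹ ≠ 1 := by
      intro h
      apply h2 l
      rw [← mul_inv_rev, inv_eq_one] at h
      exact h
    let g : NeWord M k k :=
      .append (.append (.append (.append (.append (.append (.singleton (a k) (h1 k)) hkl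
        (.singleton (a l) (h1 l))) hkl.symm (.singleton (a k)⁻¹ (h1' k))) hkl
        (.singleton ((a l)⁻¹ * (a l)⁻¹) h3)) hkl.symm (.singleton (a k)⁻¹ (h1' k))) hkl
        (.singleton (a l) (h1 l))) hkl.symm (.singleton (a k) (h1 k))
    refine ⟨g, ?_⟩
    have e : g.prod = ⁅(of (a k) : CoprodI M), of (a l)⁆ *
        ⁅(of (a l) : CoprodI M)⁻¹, (of (a k))⁻¹⁆ := by
      simp only [g, NeWord.append_prod, NeWord.prod_singleton, map_inv, map_mul,
        commutatorElement_def]
      group
    rw [e]
    exact mul_mem (Subgroup.commutator_mem_commutator (hS k) (hS l))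
      (Subgroup.commutator_mem_commutator (inv_mem (hS l)) (inv_mem (hS k)))
  -- no element with both ends in the same factor
  have same : ∀ (i : ι) (u : NeWord M i i), (∀ g ∈ ⁅S, S⁆,
      u.prod * g = g * u.prod) → False := by
    intro i u hu
    obtain ⟨k, hk⟩ := hother i
    obtain ⟨g, hg⟩ := test k i hk
    have h := hu _ hg
    rw [← NeWord.append_prod (hne := hk.symm), ← NeWord.append_prod (hne := hk)] at h
    exact hk (ends_of_prod_eq _ _ h).1.symm
  obtain ⟨i, j, u, hu⟩ := exists_neWord hne
  by_cases hij : i = j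
  · subst hij
    exact same i u (by rw [hu]; exact hq)
  · obtain ⟨x, hxS, hx, hxu⟩ : ∃ x : M i, (of x : CoprodI M) ∈ S ∧ x ≠ 1 ∧ x * u.head ≠ 1 := by
      by_cases h : a i * u.head = 1
      · refine ⟨a i * a i, ?_, h2 i, ?_⟩
        · rw [map_mul]
          exact mul_mem (hS i) (hS i)
        · rw [mul_assoc, h, mul_one]
          exact h1 i
      · exact ⟨a i, hS i, h1 i, h⟩
    have hx' : x⁻¹ ≠ 1 := mt inv_eq_one.mp hx
    apply same i (.append (NeWord.mulHead u x hxu) (Ne.symm hij) (.singleton x⁻¹ hx'))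
    rw [NeWord.append_prod, NeWord.mulHead_prod, NeWord.prod_singleton, hu, map_inv]
    exact hconj _ hxS

end FP

/-- A height function for an element of infinite order. -/
theorem exists_height {K : Type} [Group K] (g : K) (hg : ∀ n : ℕ, g ^ (n + 1) ≠ 1) :
    ∃ f : K → ℤ, ∀ y, f (g * y) = f y + 1 := by
  classical
  have hfin : ¬ IsOfFinOrder g := by
    rw [isOfFinOrder_iff_pow_eq_one]
    rintro ⟨n, hn, h⟩
    obtain ⟨k, rfl⟩ := Nat.exists_eq_succ_of_ne_zero hn.ne'
    exact hg k h
  have hinj : Function.Injective (fun n : ℤ => g ^ n) :=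
    injective_zpow_iff_not_isOfFinOrder.mpr hfin
  let r : K → K := fun y => (Quotient.mk (QuotientGroup.rightRel (Subgroup.zpowers g)) y).out
  have hr : ∀ y, ∃ n : ℤ, g ^ n * r y = y := by
    intro y
    have h1 : (QuotientGroup.rightRel (Subgroup.zpowers g)) (r y) y :=
      Quotient.exact (Quotient.out_eq _)
    rw [QuotientGroup.rightRel_apply] at h1
    obtain ⟨n, hn⟩ := h1
    refine ⟨n, ?_⟩
    change g ^ n = _ at hn
    rw [hn]; group
  have hrg : ∀ y, r (g * y) = r y := by
    intro y
    have : (Quotient.mk (QuotientGroup.rightRel (Subgroup.zpowers g)) (g * y)) =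
        Quotient.mk (QuotientGroup.rightRel (Subgroup.zpowers g)) y := by
      apply Quotient.sound
      change (QuotientGroup.rightRel (Subgroup.zpowers g)) (g * y) y
      rw [QuotientGroup.rightRel_apply]
      refine ⟨-1, ?_⟩
      change g ^ (-1 : ℤ) = _
      group
    simp only [r, this]
  choose f hf using hr
  refine ⟨f, fun y => ?_⟩
  apply hinj
  change g ^ f (g * y) = g ^ (f y + 1)
  have h1 := hf (g * y)
  rw [hrg] at h1
  have h2 : g ^ (f y + 1) * r y = g * y := by
    rw [zpow_add, zpow_one, mul_assoc]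
    have : g * r y = g ^ (1 : ℤ) * r y := by rw [zpow_one]
    rw [this, ← mul_assoc, ← zpow_add, add_comm, zpow_add, zpow_one, mul_assoc, hf y]
  exact mul_right_cancel (h1.trans h2.symm)

end Pool.Agent.V11259.Integ
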