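import Mathlib
import Pool.Agent.V11259.IntegA

set_option autoImplicit false

/-! A criterion for not being a derived subgroup, and the family of presentations. -/

namespace Pool.Agent.V11259.Integ

open Monoid CoprodI
open scoped commutatorElement

/-- `G` is integrable: it is isomorphic to the derived subgroup of some group. -/
def Integrable (G : Type) [Group G] : Prop :=
  ∃ (H : Type) (_ : Group H), Nonempty (commutator H ≃* G)

theorem Integrable.congr {G G' : Type} [Group G] [Group G'] (e : G ≃* G') :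
    Integrable G ↔ Integrable G' := by
  constructor
  · rintro ⟨H, iH, ⟨f⟩⟩
    exact ⟨H, iH, ⟨f.trans e⟩⟩
  · rintro ⟨H, iH, ⟨f⟩⟩
    exact ⟨H, iH, ⟨f.trans e.symm⟩⟩

theorem commutator_mem_of_aut {G : Type} [Group G] (σ : MulAut G) {x : G}
    (hx : x ∈ commutator G) : σ x ∈ commutator G := by
  have h : (commutator G).map σ.toMonoidHom = commutator G :=
    (Subgroup.characteristic_iff_map_eq.mp inferInstance) σ
  have : σ x ∈ (commutator G).map σ.toMonoidHom := ⟨x, hx, rfl⟩
  rwa [h] at this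

/-- If the centraliser of the derived subgroup is a cyclic group whose generator is inverted by
some element and not of order at most two, then the group is not integrable. -/
theorem not_integrable {G : Type} [Group G] (c s : G)
    (h1 : ∀ g : G, (∀ k ∈ commutator G, g * k = k * g) → g ∈ Subgroup.zpowers c)
    (h2 : ∀ k ∈ commutator G, c * k = k * c) (h3 : s * c * s⁻¹ = c⁻¹) (h4 : c * c ≠ 1) :
    ¬ Integrable G := by
  rintro ⟨H, iH, ⟨e⟩⟩
  let Φ : H →* MulAut G := (MulAut.congr e).toMonoidHom.comp MulAut.conjNormal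
  have key : ∀ h : H, ∃ n : ℤ, c ^ n = Φ h c := by
    intro h
    apply Subgroup.mem_zpowers_iff.mp
    apply h1
    intro k hk
    have hk' : (Φ h)⁻¹ k ∈ commutator G := commutator_mem_of_aut _ hk
    have e1 := congrArg (Φ h) (h2 _ hk')
    rw [map_mul, map_mul] at e1
    have e2 : Φ h ((Φ h)⁻¹ k) = k := by
      rw [← MulAut.mul_apply, mul_inv_cancel, MulAut.one_apply]
    rwa [e2] at e1
  have comm : ∀ a b : H, Φ (a * b) c = Φ (b * a) c := by
    intro a b
    obtain ⟨m, hm⟩ := key a
    obtain ⟨n, hn⟩ := key b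
    rw [map_mul, map_mul, MulAut.mul_apply, MulAut.mul_apply, ← hm, ← hn, map_zpow, map_zpow,
      ← hm, ← hn, ← zpow_mul, ← zpow_mul, mul_comm]
  let T : Subgroup H :=
    { carrier := {h | Φ h c = c}
      mul_mem' := by
        intro a b ha hb
        change Φ (a * b) c = c
        have ha : Φ a c = c := ha
        have hb : Φ b c = c := hb
        rw [map_mul, MulAut.mul_apply, hb, ha]
      one_mem' := by
        change Φ 1 c = c
        rw [map_one, MulAut.one_apply]
      inv_mem' := by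
        intro a ha
        have ha : Φ a c = c := ha
        change Φ a⁻¹ c = c
        conv_lhs => rw [← ha]
        rw [← MulAut.mul_apply, ← map_mul, inv_mul_cancel, map_one, MulAut.one_apply] }
  have hT : commutator H ≤ T := by
    rw [commutator_def, Subgroup.commutator_le]
    intro a _ b _
    change Φ ⁅a, b⁆ c = c
    have e1 := comm (a⁻¹) (b⁻¹)
    have e2 : ⁅a, b⁆ = (b⁻¹ * a⁻¹)⁻¹ * (a⁻¹ * b⁻¹) := by
      rw [commutatorElement_def]; group
    rw [e2, map_mul, MulAut.mul_apply, e1, ← MulAut.mul_apply, ← map_mul, inv_mul_cancel,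
      map_one, MulAut.one_apply]
  have h5 : Φ (e.symm s : H) c = c := hT (e.symm s).2
  have h6 : Φ (e.symm s : H) c = s * c * s⁻¹ := by
    change e (MulAut.conjNormal ((e.symm s : commutator H) : H) (e.symm c)) = _
    have : MulAut.conjNormal ((e.symm s : commutator H) : H) (e.symm c) =
        e.symm s * e.symm c * (e.symm s)⁻¹ := by
      apply Subtype.ext
      rw [MulAut.conjNormal_apply]
      rfl
    rw [this, map_mul, map_mul, map_inv, e.apply_symm_apply, e.apply_symm_apply]
  rw [h6, h3] at h5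
  apply h4
  nth_rewrite 1 [← h5]
  exact inv_mul_cancel c

/-- The generators. -/
inductive Gn (m : ℕ) : Type
  | x (i : Fin m)
  | y (i : Fin m)
  | z (i : Fin m)
  | v
  | t
  | s
  | c

/-- Elements of a group satisfying the relations of the family. -/
structure Dat {m : ℕ} (R : Set (FreeGroup (Fin m))) (w : FreeGroup (Fin m))
    (H : Type) [Group H] where
  x : Fin m → H
  y : Fin m → H
  z : Fin m → H
  v : H
  t : H
  s : H
  c : H
  hR : ∀ r ∈ R, FreeGroup.lift x r = 1
  hx : ∀ i, x i * (y i * z i * (y i)⁻¹ * (z i)⁻¹)⁻¹ = 1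
  hy : ∀ i, c * y i * c⁻¹ * (y i)⁻¹ = 1
  hz : ∀ i, c * z i * c⁻¹ * (z i)⁻¹ = 1
  hv : c * v * c⁻¹ * v⁻¹ = 1
  ht : c * t * c⁻¹ * t⁻¹ = 1
  hs : s * c * s⁻¹ * c = 1
  hw : t * (FreeGroup.lift x w * v * (FreeGroup.lift x w)⁻¹ * v⁻¹) * t⁻¹ *
    (FreeGroup.lift x w * v * (FreeGroup.lift x w)⁻¹ * v⁻¹)⁻¹ * c⁻¹ = 1

section Group

variable {m : ℕ} (R : Set (FreeGroup (Fin m))) (w : FreeGroup (Fin m))

/-- The generators in the free group. -/
def gx (i : Fin m) : FreeGroup (Gn m) := FreeGroup.of (.x i)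
def gy (i : Fin m) : FreeGroup (Gn m) := FreeGroup.of (.y i)
def gz (i : Fin m) : FreeGroup (Gn m) := FreeGroup.of (.z i)
def gv : FreeGroup (Gn m) := FreeGroup.of .v
def gt : FreeGroup (Gn m) := FreeGroup.of .t
def gs : FreeGroup (Gn m) := FreeGroup.of .s
def gc : FreeGroup (Gn m) := FreeGroup.of .c

/-- The relators not depending on the word. -/
def rel0 : Set (FreeGroup (Gn m)) :=
  (FreeGroup.lift gx '' R) ∪
  Set.range (fun i => gx i * (gy i * gz i * (gy i)⁻¹ * (gz i)⁻¹)⁻¹) ∪
  Set.range (fun i => gc * gy i * gc⁻¹ * (gy i)⁻¹) ∪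
  Set.range (fun i => gc * gz i * gc⁻¹ * (gz i)⁻¹) ∪
  {gc * gv * gc⁻¹ * gv⁻¹} ∪ {gc * gt * gc⁻¹ * gt⁻¹} ∪ {gs * gc * gs⁻¹ * gc}

/-- The relator depending on the word. -/
def relw : FreeGroup (Gn m) :=
  gt * (FreeGroup.lift gx w * gv * (FreeGroup.lift gx w)⁻¹ * gv⁻¹) * gt⁻¹ *
    (FreeGroup.lift gx w * gv * (FreeGroup.lift gx w)⁻¹ * gv⁻¹)⁻¹ * gc⁻¹

/-- The relators. -/
def rels : Set (FreeGroup (Gn m)) := insert (relw w) (rel0 R)

/-- The group. -/
abbrev Gp : Type := PresentedGroup (rels R w)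

variable {R w}

/-- The values of the generators. -/
def Dat.val {H : Type} [Group H] (D : Dat R w H) : Gn m → H
  | .x i => D.x i
  | .y i => D.y i
  | .z i => D.z i
  | .v => D.v
  | .t => D.t
  | .s => D.s
  | .c => D.c

theorem lift_lift {H : Type} [Group H] (f : Gn m → H) (r : FreeGroup (Fin m)) :
    FreeGroup.lift f (FreeGroup.lift gx r) = FreeGroup.lift (fun i => f (.x i)) r := by
  have : (FreeGroup.lift f).comp (FreeGroup.lift gx) = FreeGroup.lift (fun i => f (.x i)) := by
    ext i
    simp [gx]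
  exact DFunLike.congr_fun this r

theorem Dat.rel {H : Type} [Group H] (D : Dat R w H) :
    ∀ r ∈ rels R w, FreeGroup.lift D.val r = 1 := by
  intro r hr
  have vx : ∀ i, FreeGroup.lift D.val (gx i) = D.x i := fun i => FreeGroup.lift_apply_of
  have vy : ∀ i, FreeGroup.lift D.val (gy i) = D.y i := fun i => FreeGroup.lift_apply_of
  have vz : ∀ i, FreeGroup.lift D.val (gz i) = D.z i := fun i => FreeGroup.lift_apply_of
  have vv : FreeGroup.lift D.val gv = D.v := FreeGroup.lift_apply_of
  have vt : FreeGroup.lift D.val gt = D.t := FreeGroup.lift_apply_of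
  have vs : FreeGroup.lift D.val gs = D.s := FreeGroup.lift_apply_of
  have vc : FreeGroup.lift D.val gc = D.c := FreeGroup.lift_apply_of
  have vl : ∀ u, FreeGroup.lift D.val (FreeGroup.lift gx u) = FreeGroup.lift D.x u :=
    fun u => lift_lift D.val u
  rcases hr with hr | ((((((⟨r, hr, rfl⟩ | ⟨i, rfl⟩) | ⟨i, rfl⟩) | ⟨i, rfl⟩) | hr) | hr) | hr)
  · rw [hr, relw]
    simp only [map_mul, map_inv, vt, vv, vc, vl]
    exact D.hw
  · rw [vl]; exact D.hR r hr
  · simp only [map_mul, map_inv, vx, vy, vz]; exact D.hx i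
  · simp only [map_mul, map_inv, vc, vy]; exact D.hy i
  · simp only [map_mul, map_inv, vc, vz]; exact D.hz i
  · rw [Set.mem_singleton_iff.mp hr]
    simp only [map_mul, map_inv, vc, vv]; exact D.hv
  · rw [Set.mem_singleton_iff.mp hr]
    simp only [map_mul, map_inv, vc, vt]; exact D.ht
  · rw [Set.mem_singleton_iff.mp hr]
    simp only [map_mul, map_inv, vc, vs]; exact D.hs

/-- The universal property. -/
def Dat.hom {H : Type} [Group H] (D : Dat R w H) : Gp R w →* H := PresentedGroup.toGroup D.rel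

theorem Dat.hom_of {H : Type} [Group H] (D : Dat R w H) (g : Gn m) :
    D.hom (PresentedGroup.of g) = D.val g := PresentedGroup.toGroup.of D.rel

variable (R w)

/-- The generic data. -/
def gdat : Dat R w (Gp R w) where
  x i := PresentedGroup.of (.x i)
  y i := PresentedGroup.of (.y i)
  z i := PresentedGroup.of (.z i)
  v := PresentedGroup.of .v
  t := PresentedGroup.of .t
  s := PresentedGroup.of .s
  c := PresentedGroup.of .c
  hR := by
    intro r hr
    have h1 : PresentedGroup.mk (rels R w) (FreeGroup.lift gx r) = 1 :=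
      PresentedGroup.one_of_mem (Or.inr (Or.inl (Or.inl (Or.inl (Or.inl (Or.inl (Or.inl
        ⟨r, hr, rfl⟩)))))))
    have h2 : (PresentedGroup.mk (rels R w)).comp (FreeGroup.lift gx) =
        FreeGroup.lift (fun i => PresentedGroup.of (.x i)) := by
      ext i; simp [gx]; rfl
    rw [← h2]; exact h1
  hx i := PresentedGroup.one_of_mem (rels := rels R w)
    (Or.inr (Or.inl (Or.inl (Or.inl (Or.inl (Or.inl (Or.inr ⟨i, rfl⟩)))))))
  hy i := PresentedGroup.one_of_mem (rels := rels R w)
    (Or.inr (Or.inl (Or.inl (Or.inl (Or.inl (Or.inr ⟨i, rfl⟩))))))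
  hz i := PresentedGroup.one_of_mem (rels := rels R w)
    (Or.inr (Or.inl (Or.inl (Or.inl (Or.inr ⟨i, rfl⟩)))))
  hv := PresentedGroup.one_of_mem (rels := rels R w)
    (Or.inr (Or.inl (Or.inl (Or.inr rfl))))
  ht := PresentedGroup.one_of_mem (rels := rels R w)
    (Or.inr (Or.inl (Or.inr rfl)))
  hs := PresentedGroup.one_of_mem (rels := rels R w)
    (Or.inr (Or.inr rfl))
  hw := by
    have h1 : PresentedGroup.mk (rels R w) (relw w) = 1 :=
      PresentedGroup.one_of_mem (Or.inl rfl)
    have h2 : (PresentedGroup.mk (rels R w)).comp (FreeGroup.lift gx) =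
        FreeGroup.lift (fun i => PresentedGroup.of (.x i)) := by
      ext i; simp [gx]; rfl
    rw [← h2]; exact h1

theorem gdat_val (g : Gn m) : (gdat R w).val g = PresentedGroup.of g := by
  cases g <;> rfl

end Group

end Pool.Agent.V11259.Integ
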