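import Mathlib
import Pool.Agent.V11259.IntegB

set_option autoImplicit false

/-! If the word is not a consequence of the relations then the group is not integrable. -/

namespace Pool.Agent.V11259.Integ

open Monoid CoprodI
open scoped commutatorElement

/-- The action of `U` on the levels of `U × ℤ` in `p`. -/
def actp {U : Type} [Group U] (p : ℤ → Bool) : U →* Equiv.Perm (U × ℤ) where
  toFun u :=
    { toFun := fun a => (bif p a.2 then u * a.1 else a.1, a.2)
      invFun := fun a => (bif p a.2 then u⁻¹ * a.1 else a.1, a.2)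
      left_inv := by
        rintro ⟨a, k⟩
        cases h : p k <;> simp [h]
      right_inv := by
        rintro ⟨a, k⟩
        cases h : p k <;> simp [h] }
  map_one' := by
    ext ⟨a, k⟩
    · cases h : p k <;> simp [h]
    · rfl
  map_mul' u v := by
    ext ⟨a, k⟩
    · cases h : p k <;> simp [h, mul_assoc]
    · rfl

theorem actp_apply {U : Type} [Group U] (p : ℤ → Bool) (u : U) (a : U × ℤ) :
    actp p u a = (bif p a.2 then u * a.1 else a.1, a.2) := rfl

/-- The shift. -/
def shiftp (U : Type) : Equiv.Perm (U × ℤ) where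
  toFun a := (a.1, a.2 + 1)
  invFun a := (a.1, a.2 - 1)
  left_inv a := by simp
  right_inv a := by simp

theorem shiftp_apply {U : Type} (a : U × ℤ) : shiftp U a = (a.1, a.2 + 1) := rfl

theorem actp_eq {U : Type} [Group U] (u : U) :
    actp (fun k => decide (k = 0)) u = actp (fun k => decide (0 ≤ k)) u * shiftp U *
      (actp (fun k => decide (0 ≤ k)) u)⁻¹ * (shiftp U)⁻¹ := by
  rw [eq_mul_inv_iff_mul_eq, eq_mul_inv_iff_mul_eq]
  ext1 ⟨a, k⟩
  simp only [Equiv.Perm.mul_apply, actp_apply, shiftp_apply]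
  by_cases h : 0 ≤ k
  · have h1 : k + 1 ≠ 0 := by omega
    have h2 : 0 ≤ k + 1 := by omega
    simp [h, h1, h2]
  · by_cases h3 : k = -1
    · subst h3
      simp
    · have h1 : k + 1 ≠ 0 := by omega
      have h2 : ¬ 0 ≤ k + 1 := by omega
      simp [h, h1, h2]

theorem actp_injective {U : Type} [Group U] (u : U) (hu : u ≠ 1) :
    actp (fun k => decide (k = 0)) u ≠ 1 := by
  intro h
  apply hu
  have := congrArg (fun σ => (σ ((1 : U), (0 : ℤ))).1) h
  simpa [actp_apply] using this

theorem shiftp_ne_one {U : Type} [Group U] : shiftp U ≠ 1 := by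
  intro h
  have := congrArg (fun σ => (σ ((1 : U), (0 : ℤ))).2) h
  simp [shiftp_apply] at this

/-- Translations on `K × ℤ`. -/
def lam {K : Type} [Group K] : K →* Equiv.Perm (K × ℤ) where
  toFun k :=
    { toFun := fun a => (k * a.1, a.2)
      invFun := fun a => (k⁻¹ * a.1, a.2)
      left_inv := by intro a; simp
      right_inv := by intro a; simp }
  map_one' := by ext a <;> simp
  map_mul' u v := by ext a <;> simp [mul_assoc]

theorem lam_apply {K : Type} [Group K] (k : K) (a : K × ℤ) : lam k a = (k * a.1, a.2) := rfl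

/-- Vertical translation by a function. -/
def vert {K : Type} (f : K → ℤ) : Equiv.Perm (K × ℤ) where
  toFun a := (a.1, a.2 + f a.1)
  invFun a := (a.1, a.2 - f a.1)
  left_inv a := by simp
  right_inv a := by simp

theorem vert_apply {K : Type} (f : K → ℤ) (a : K × ℤ) : vert f a = (a.1, a.2 + f a.1) := rfl

/-- Vertical reflection. -/
def refl (K : Type) : Equiv.Perm (K × ℤ) where
  toFun a := (a.1, - a.2)
  invFun a := (a.1, - a.2)
  left_inv a := by simp
  right_inv a := by simp

theorem refl_apply {K : Type} (a : K × ℤ) : refl K a = (a.1, - a.2) := rfl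

section F1

variable {m : ℕ} (R : Set (FreeGroup (Fin m))) (w : FreeGroup (Fin m))

theorem exists_dat (hw : w ∉ Subgroup.normalClosure R) :
    ∃ (H : Type) (_ : Group H) (D : Dat R w H), D.c * D.c ≠ 1 := by
  classical
  let U := PresentedGroup R
  let V := Equiv.Perm (U × ℤ)
  let K := CoprodI (fun _ : Bool => V)
  let E : U →* V := actp (fun k => decide (k = 0))
  let D : U →* V := actp (fun k => decide (0 ≤ k))
  let i0 : V →* K := of (M := fun _ : Bool => V) (i := false)
  let i1 : V →* K := of (M := fun _ : Bool => V) (i := true)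
  let Λ : U →* Equiv.Perm (K × ℤ) := (lam (K := K)).comp (i0.comp E)
  let W : U := PresentedGroup.mk R w
  have hW : W ≠ 1 := fun h => hw ((QuotientGroup.eq_one_iff _).mp h)
  have hinf := comm_infinite (M := fun _ : Bool => V) (i := false) (j := true) (by simp)
    (E W) (shiftp U) (actp_injective W hW) shiftp_ne_one
  obtain ⟨f, hf⟩ := exists_height _ hinf
  have hlift : ∀ r : FreeGroup (Fin m), FreeGroup.lift (fun i => Λ (PresentedGroup.of i)) r =
      Λ (PresentedGroup.mk R r) := by
    intro r
    have : FreeGroup.lift (fun i => Λ (PresentedGroup.of i)) =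
        Λ.comp (PresentedGroup.mk R) := by
      ext1 i
      rw [FreeGroup.lift_apply_of]
      rfl
    exact DFunLike.congr_fun this r
  let x' : Fin m → Equiv.Perm (K × ℤ) := fun i => Λ (PresentedGroup.of i)
  let dat : Dat R w (Equiv.Perm (K × ℤ)) :=
    { x := x'
      y := fun i => lam (i0 (D (PresentedGroup.of i)))
      z := fun _ => lam (i0 (shiftp U))
      v := lam (i1 (shiftp U))
      t := vert f
      s := refl K
      c := vert (fun _ => 1)
      hR := by
        intro r hr
        rw [hlift, PresentedGroup.one_of_mem hr, map_one]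
      hx := by
        intro i
        rw [mul_inv_eq_one]
        have h := congrArg (fun σ => lam (i0 σ))
          (actp_eq (U := U) (PresentedGroup.of (rels := R) i))
        simp only [map_mul, map_inv] at h
        exact h
      hy := by
        intro i
        rw [mul_inv_eq_one, mul_inv_eq_iff_eq_mul]
        ext1 a
        rfl
      hz := by
        intro i
        rw [mul_inv_eq_one, mul_inv_eq_iff_eq_mul]
        ext1 a
        rfl
      hv := by
        rw [mul_inv_eq_one, mul_inv_eq_iff_eq_mul]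
        ext1 a
        rfl
      ht := by
        rw [mul_inv_eq_one, mul_inv_eq_iff_eq_mul]
        ext1 a
        simp only [Equiv.Perm.mul_apply, vert_apply]
        ext1
        · rfl
        · change a.2 + f a.1 + 1 = a.2 + 1 + f a.1
          ring
      hs := by
        rw [mul_eq_one_iff_eq_inv, mul_inv_eq_iff_eq_mul, eq_inv_mul_iff_mul_eq]
        ext1 a
        simp only [Equiv.Perm.mul_apply, vert_apply, refl_apply]
        ext1
        · rfl
        · change -(a.2 + 1) + 1 = - a.2
          ring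
      hw := by
        rw [hlift]
        change vert f * (lam (i0 (E W)) * lam (i1 (shiftp U)) * (lam (i0 (E W)))⁻¹ *
          (lam (i1 (shiftp U)))⁻¹) * (vert f)⁻¹ * (lam (i0 (E W)) * lam (i1 (shiftp U)) *
          (lam (i0 (E W)))⁻¹ * (lam (i1 (shiftp U)))⁻¹)⁻¹ * (vert fun _ => 1)⁻¹ = 1
        simp only [← map_mul, ← map_inv]
        rw [mul_inv_eq_one, map_inv, mul_inv_eq_iff_eq_mul, mul_inv_eq_iff_eq_mul]
        ext1 a
        simp only [Equiv.Perm.mul_apply, vert_apply, lam_apply]
        ext1
        · rfl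
        · have := hf a.1
          change a.2 + f _ = a.2 + f a.1 + 1
          rw [add_assoc, ← this] }
  refine ⟨Equiv.Perm (K × ℤ), inferInstance, dat, ?_⟩
  intro h
  have := congrArg (fun σ => (σ ((1 : K), (0 : ℤ))).2) h
  change (0 : ℤ) + 1 + 1 = 0 at this
  norm_num at this

end F1

section F2

variable {m : ℕ} (R : Set (FreeGroup (Fin m))) (w : FreeGroup (Fin m))

/-- The generator `c` of the group. -/
abbrev cc : Gp R w := (gdat R w).c

theorem gp_induction (T : Subgroup (Gp R w)) (h : ∀ g : Gn m, PresentedGroup.of g ∈ T) (a : Gp R w) :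
    a ∈ T := by
  have h1 : Subgroup.closure (Set.range (PresentedGroup.of : Gn m → Gp R w)) ≤ T := by
    rw [Subgroup.closure_le]
    rintro _ ⟨g, rfl⟩
    exact h g
  rw [PresentedGroup.closure_range_of] at h1
  exact h1 (Subgroup.mem_top a)

theorem conj_cc (g : Gp R w) : g * cc R w * g⁻¹ = cc R w ∨ g * cc R w * g⁻¹ = (cc R w)⁻¹ := by
  let T : Subgroup (Gp R w) :=
    { carrier := {g | g * cc R w * g⁻¹ = cc R w ∨ g * cc R w * g⁻¹ = (cc R w)⁻¹}
      mul_mem' := by
        intro a b ha hb
        have e : a * b * cc R w * (a * b)⁻¹ = a * (b * cc R w * b⁻¹) * a⁻¹ := by group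
        change a * b * cc R w * (a * b)⁻¹ = _ ∨ a * b * cc R w * (a * b)⁻¹ = _
        rw [e]
        have e2 : a * (cc R w)⁻¹ * a⁻¹ = (a * cc R w * a⁻¹)⁻¹ := by group
        rcases hb with hb | hb <;> rcases ha with ha | ha <;> rw [hb]
        · left; exact ha
        · right; exact ha
        · right; rw [e2, ha]
        · left; rw [e2, ha, inv_inv]
      one_mem' := by left; group
      inv_mem' := by
        intro a ha
        have e : a⁻¹ * cc R w * a⁻¹⁻¹ = a⁻¹ * cc R w * a := by rw [inv_inv]
        change a⁻¹ * cc R w * a⁻¹⁻¹ = _ ∨ a⁻¹ * cc R w * a⁻¹⁻¹ = _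
        rw [e]
        rcases ha with ha | ha
        · left
          have : cc R w = a⁻¹ * (a * cc R w * a⁻¹) * a := by group
          rw [ha] at this
          exact this.symm
        · right
          have : (cc R w)⁻¹ = (a⁻¹ * (a * cc R w * a⁻¹) * a)⁻¹ := by group
          rw [ha] at this
          rw [this]
          group }
  refine gp_induction R w T ?_ g
  have comm : ∀ a : Gp R w, cc R w * a * (cc R w)⁻¹ * a⁻¹ = 1 → a ∈ T := by
    intro a ha
    left
    rw [mul_inv_eq_one, mul_inv_eq_iff_eq_mul] at ha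
    rw [mul_inv_eq_iff_eq_mul]
    exact ha.symm
  intro g
  cases g with
  | x i =>
    have h := (gdat R w).hx i
    rw [mul_inv_eq_one] at h
    have hy : (gdat R w).y i ∈ T := comm _ ((gdat R w).hy i)
    have hz : (gdat R w).z i ∈ T := comm _ ((gdat R w).hz i)
    change (gdat R w).x i ∈ T
    rw [h]
    exact mul_mem (mul_mem (mul_mem hy hz) (inv_mem hy)) (inv_mem hz)
  | y i => exact comm _ ((gdat R w).hy i)
  | z i => exact comm _ ((gdat R w).hz i)
  | v => exact comm _ (gdat R w).hv
  | t => exact comm _ (gdat R w).ht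
  | s =>
    right
    have h := (gdat R w).hs
    rw [mul_eq_one_iff_eq_inv] at h
    exact h
  | c => left; change cc R w * cc R w * (cc R w)⁻¹ = cc R w; group

theorem cc_comm (k : Gp R w) (hk : k ∈ commutator (Gp R w)) :
    cc R w * k = k * cc R w := by
  have key : ∀ a b : Gp R w, (a * b) * cc R w * (a * b)⁻¹ = (b * a) * cc R w * (b * a)⁻¹ := by
    intro a b
    have e : ∀ a b : Gp R w, a * b * cc R w * (a * b)⁻¹ = a * (b * cc R w * b⁻¹) * a⁻¹ := by
      intro a b; group
    have e2 : ∀ a : Gp R w, a * (cc R w)⁻¹ * a⁻¹ = (a * cc R w * a⁻¹)⁻¹ := by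
      intro a; group
    rw [e, e]
    rcases conj_cc R w a with ha | ha <;> rcases conj_cc R w b with hb | hb <;>
      rw [ha, hb] <;> simp only [e2, ha, hb]
  have hle : commutator (Gp R w) ≤ Subgroup.centralizer {cc R w} := by
    rw [commutator_def, Subgroup.commutator_le]
    intro a _ b _
    rw [Subgroup.mem_centralizer_singleton_iff]
    have h := key a⁻¹ b⁻¹
    have e : ⁅a, b⁆ = (b⁻¹ * a⁻¹)⁻¹ * (a⁻¹ * b⁻¹) := by
      rw [commutatorElement_def]; group
    rw [e, ← mul_inv_eq_iff_eq_mul]
    calc (b⁻¹ * a⁻¹)⁻¹ * (a⁻¹ * b⁻¹) * cc R w * ((b⁻¹ * a⁻¹)⁻¹ * (a⁻¹ * b⁻¹))⁻¹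
        = (b⁻¹ * a⁻¹)⁻¹ * ((a⁻¹ * b⁻¹) * cc R w * (a⁻¹ * b⁻¹)⁻¹) * (b⁻¹ * a⁻¹) := by group
      _ = (b⁻¹ * a⁻¹)⁻¹ * ((b⁻¹ * a⁻¹) * cc R w * (b⁻¹ * a⁻¹)⁻¹) * (b⁻¹ * a⁻¹) := by rw [h]
      _ = cc R w := by group
  have := hle hk
  rw [Subgroup.mem_centralizer_singleton_iff] at this
  exact this.symm

instance normal_cc : (Subgroup.zpowers (cc R w)).Normal := by
  constructor
  rintro _ ⟨n, rfl⟩ g
  have e : g * (cc R w) ^ n * g⁻¹ = (g * cc R w * g⁻¹) ^ n := by rw [conj_zpow]
  change g * (cc R w) ^ n * g⁻¹ ∈ _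
  rw [e]
  rcases conj_cc R w g with h | h
  · rw [h]; exact zpow_mem (Subgroup.mem_zpowers _) n
  · rw [h]; exact zpow_mem (inv_mem (Subgroup.mem_zpowers _)) n

/-- The image of the data with `c` and `s` changed. -/
def datMk : Dat R w (Gp R w ⧸ Subgroup.zpowers (cc R w)) where
  x i := QuotientGroup.mk' _ ((gdat R w).x i)
  y i := QuotientGroup.mk' _ ((gdat R w).y i)
  z i := QuotientGroup.mk' _ ((gdat R w).z i)
  v := QuotientGroup.mk' _ (gdat R w).v
  t := QuotientGroup.mk' _ (gdat R w).t
  s := 1
  c := 1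
  hR := by
    intro r hr
    have : FreeGroup.lift (fun i => QuotientGroup.mk' (Subgroup.zpowers (cc R w)) ((gdat R w).x i)) =
        (QuotientGroup.mk' (Subgroup.zpowers (cc R w))).comp (FreeGroup.lift (gdat R w).x) := by
      ext1 i
      rw [FreeGroup.lift_apply_of, MonoidHom.comp_apply, FreeGroup.lift_apply_of]
    rw [this, MonoidHom.comp_apply, (gdat R w).hR r hr, map_one]
  hx i := by
    simp only [← map_mul, ← map_inv]
    rw [(gdat R w).hx i, map_one]
  hy i := by group
  hz i := by group
  hv := by group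
  ht := by group
  hs := by group
  hw := by
    have : FreeGroup.lift (fun i => QuotientGroup.mk' (Subgroup.zpowers (cc R w)) ((gdat R w).x i)) =
        (QuotientGroup.mk' (Subgroup.zpowers (cc R w))).comp (FreeGroup.lift (gdat R w).x) := by
      ext1 i
      rw [FreeGroup.lift_apply_of, MonoidHom.comp_apply, FreeGroup.lift_apply_of]
    rw [this, MonoidHom.comp_apply]
    have h := (gdat R w).hw
    rw [mul_inv_eq_one] at h
    have h2 := congrArg (QuotientGroup.mk' (Subgroup.zpowers (cc R w))) h
    rw [(QuotientGroup.eq_one_iff _).mpr (Subgroup.mem_zpowers (cc R w)) |> (show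
      QuotientGroup.mk' (Subgroup.zpowers (cc R w)) (gdat R w).c = 1 from ·)] at h2
    simp only [map_mul, map_inv] at h2
    rw [h2, inv_one, mul_one]

end F2

end Pool.Agent.V11259.Integ
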