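import Mathlib
import Pool.Agent.V11259.IntegC

set_option autoImplicit false

/-! The centraliser of the derived subgroup. -/

namespace Pool.Agent.V11259.Integ

open Monoid CoprodI
open scoped commutatorElement

section F2

variable {m : ℕ} (R : Set (FreeGroup (Fin m))) (w : FreeGroup (Fin m))

/-- The group with `s` and `c` killed. -/
abbrev AA : Type := Gp R w ⧸ Subgroup.normalClosure {(gdat R w).s, (gdat R w).c}

/-- The quotient map. -/
def mkA : Gp R w →* AA R w := QuotientGroup.mk' _

theorem mkA_s : mkA R w (gdat R w).s = 1 :=
  (QuotientGroup.eq_one_iff _).mpr (Subgroup.subset_normalClosure (Or.inl rfl))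

theorem mkA_c : mkA R w (gdat R w).c = 1 :=
  (QuotientGroup.eq_one_iff _).mpr (Subgroup.subset_normalClosure (Or.inr rfl))

/-- Descending homomorphisms. -/
def descA {H : Type} [Group H] (f : Gp R w →* H) (hs : f (gdat R w).s = 1)
    (hc : f (gdat R w).c = 1) : AA R w →* H :=
  QuotientGroup.lift _ f (by
    intro g hg
    have : Subgroup.normalClosure {(gdat R w).s, (gdat R w).c} ≤ f.ker := by
      apply Subgroup.normalClosure_le_normal
      rintro a (ha | ha)
      · rw [ha]; exact hs
      · rw [Set.mem_singleton_iff.mp ha]; exact hc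
    exact this hg)

theorem descA_mk {H : Type} [Group H] (f : Gp R w →* H) (hs : f (gdat R w).s = 1)
    (hc : f (gdat R w).c = 1) (g : Gp R w) : descA R w f hs hc (mkA R w g) = f g := rfl

/-- Counting the letter `t`. -/
def datT : Dat R w (Multiplicative ℤ) where
  x _ := 1
  y _ := 1
  z _ := 1
  v := 1
  t := Multiplicative.ofAdd 1
  s := 1
  c := 1
  hR := by
    intro r _
    have : FreeGroup.lift (fun _ : Fin m => (1 : Multiplicative ℤ)) = 1 := by
      ext1 i; rw [FreeGroup.lift_apply_of]; rfl
    rw [this]; rfl
  hx i := by group
  hy i := by group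
  hz i := by group
  hv := by group
  ht := by group
  hs := by group
  hw := by
    have : FreeGroup.lift (fun _ : Fin m => (1 : Multiplicative ℤ)) = 1 := by
      ext1 i; rw [FreeGroup.lift_apply_of]; rfl
    rw [this]
    simp

/-- The two factors. -/
def Fam : Bool → Type
  | false => AA R w
  | true => Multiplicative ℤ

instance famGroup : ∀ b, Group (Fam R w b)
  | false => inferInstanceAs (Group (AA R w))
  | true => inferInstanceAs (Group (Multiplicative ℤ))

/-- The embedding of the first factor. -/
def inA : AA R w →* CoprodI (Fam R w) := of (M := Fam R w) (i := false)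

/-- The embedding of the second factor. -/
def inZ : Multiplicative ℤ →* CoprodI (Fam R w) := of (M := Fam R w) (i := true)

/-- The data in the free product. -/
def datQ : Dat R w (CoprodI (Fam R w)) where
  x i := inA R w (mkA R w ((gdat R w).x i))
  y i := inA R w (mkA R w ((gdat R w).y i))
  z i := inA R w (mkA R w ((gdat R w).z i))
  v := inA R w (mkA R w (gdat R w).v)
  t := inA R w (mkA R w (gdat R w).t)
  s := inZ R w (Multiplicative.ofAdd 1)
  c := 1
  hR := by
    intro r hr
    have : FreeGroup.lift (fun i => inA R w (mkA R w ((gdat R w).x i))) =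
        ((inA R w).comp (mkA R w)).comp (FreeGroup.lift (gdat R w).x) := by
      ext1 i
      rw [FreeGroup.lift_apply_of, MonoidHom.comp_apply, FreeGroup.lift_apply_of]
      rfl
    rw [this, MonoidHom.comp_apply, (gdat R w).hR r hr, map_one]
  hx i := by
    simp only [← map_mul, ← map_inv]
    rw [(gdat R w).hx i, map_one, map_one]
  hy i := by group
  hz i := by group
  hv := by group
  ht := by group
  hs := by group
  hw := by
    have : FreeGroup.lift (fun i => inA R w (mkA R w ((gdat R w).x i))) =
        ((inA R w).comp (mkA R w)).comp (FreeGroup.lift (gdat R w).x) := by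
      ext1 i
      rw [FreeGroup.lift_apply_of, MonoidHom.comp_apply, FreeGroup.lift_apply_of]
      rfl
    rw [this, MonoidHom.comp_apply, MonoidHom.comp_apply]
    have h := (gdat R w).hw
    rw [mul_inv_eq_one] at h
    have h2 := congrArg (fun g => inA R w (mkA R w g)) h
    simp only [mkA_c, map_mul, map_inv, map_one] at h2
    rw [h2, inv_one, mul_one]

/-- Back to the quotient by `c`. -/
def psi : CoprodI (Fam R w) →* Gp R w ⧸ Subgroup.zpowers (cc R w) :=
  CoprodI.lift (fun b => match b with
    | false => descA R w (datMk R w).hom (Dat.hom_of _ .s) (Dat.hom_of _ .c)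
    | true => zpowersHom _ (QuotientGroup.mk' _ (gdat R w).s))

theorem psi_A (a : AA R w) : psi R w (inA R w a) =
    descA R w (datMk R w).hom (Dat.hom_of _ .s) (Dat.hom_of _ .c) a := by
  rw [psi, inA]
  exact CoprodI.lift_of _ _

theorem psi_Z (a : Multiplicative ℤ) : psi R w (inZ R w a) =
    zpowersHom _ (QuotientGroup.mk' _ (gdat R w).s) a := by
  rw [psi, inZ]
  exact CoprodI.lift_of _ _

theorem psi_pi (g : Gp R w) : psi R w ((datQ R w).hom g) =
    QuotientGroup.mk' (Subgroup.zpowers (cc R w)) g := by
  have : (psi R w).comp (datQ R w).hom = QuotientGroup.mk' (Subgroup.zpowers (cc R w)) := by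
    apply PresentedGroup.ext
    intro g
    rw [MonoidHom.comp_apply, Dat.hom_of]
    cases g with
    | x i => exact (psi_A R w _).trans (Dat.hom_of _ (.x i))
    | y i => exact (psi_A R w _).trans (Dat.hom_of _ (.y i))
    | z i => exact (psi_A R w _).trans (Dat.hom_of _ (.z i))
    | v => exact (psi_A R w _).trans (Dat.hom_of _ .v)
    | t => exact (psi_A R w _).trans (Dat.hom_of _ .t)
    | s =>
      refine (psi_Z R w _).trans ?_
      simp [zpowersHom_apply]
      rfl
    | c =>
      refine (map_one (psi R w)).trans ?_
      exact ((QuotientGroup.eq_one_iff _).mpr (Subgroup.mem_zpowers (cc R w))).symm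
  exact DFunLike.congr_fun this g

theorem centraliser_le (g : Gp R w) (hg : ∀ k ∈ commutator (Gp R w), g * k = k * g) :
    g ∈ Subgroup.zpowers (cc R w) := by
  have h1 : (datQ R w).hom g = 1 := by
    have ht : ∀ f : AA R w →* Multiplicative ℤ, f (mkA R w (gdat R w).t) = Multiplicative.ofAdd 1 →
        mkA R w (gdat R w).t ≠ 1 ∧ mkA R w (gdat R w).t * mkA R w (gdat R w).t ≠ 1 := by
      intro f hf
      constructor
      · intro h
        rw [h, map_one] at hf
        have := congrArg Multiplicative.toAdd hf
        simp at this
      · intro h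
        have h2 := congrArg f h
        rw [map_mul, hf, map_one f] at h2
        have := congrArg Multiplicative.toAdd h2
        simp at this
    have ht' := ht (descA R w (datT R w).hom (Dat.hom_of _ .s) (Dat.hom_of _ .c))
      (Dat.hom_of _ .t)
    refine central_trivial (M := Fam R w) (fun b => match b with
      | false => (mkA R w (gdat R w).t : AA R w)
      | true => Multiplicative.ofAdd (1 : ℤ)) ?_ ?_ ?_ (datQ R w).hom.range ?_ _ ?_
    · rintro (_ | _)
      · exact ht'.1
      · intro h
        have := congrArg Multiplicative.toAdd (show Multiplicative.ofAdd (1 : ℤ) = 1 from h)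
        simp at this
    · rintro (_ | _)
      · exact ht'.2
      · intro h
        have := congrArg Multiplicative.toAdd
          (show Multiplicative.ofAdd (1 : ℤ) * Multiplicative.ofAdd (1 : ℤ) = 1 from h)
        simp at this
    · rintro (_ | _)
      · exact ⟨true, by simp⟩
      · exact ⟨false, by simp⟩
    · rintro (_ | _)
      · exact ⟨(gdat R w).t, Dat.hom_of _ .t⟩
      · exact ⟨(gdat R w).s, Dat.hom_of _ .s⟩
    · intro k hk
      have : ⁅(datQ R w).hom.range, (datQ R w).hom.range⁆ =
          (commutator (Gp R w)).map (datQ R w).hom := by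
        rw [commutator_def, Subgroup.map_commutator, ← MonoidHom.range_eq_map]
      rw [this] at hk
      obtain ⟨k', hk', rfl⟩ := hk
      rw [← map_mul, ← map_mul, hg k' hk']
  have h2 := psi_pi R w g
  rw [h1, map_one] at h2
  exact (QuotientGroup.eq_one_iff _).mp h2.symm

/-- If the word is not a consequence of the relations, the group is not integrable. -/
theorem not_integrable_of_notMem (hw : w ∉ Subgroup.normalClosure R) : ¬ Integrable (Gp R w) := by
  apply not_integrable (cc R w) (gdat R w).s (centraliser_le R w) (cc_comm R w)
  · have h := (gdat R w).hs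
    rw [mul_eq_one_iff_eq_inv] at h
    exact h
  · intro h
    obtain ⟨H, iH, D, hD⟩ := exists_dat R w hw
    apply hD
    have h2 := congrArg D.hom h
    have h3 : D.hom (cc R w) = D.c := D.hom_of .c
    rw [map_mul, map_one, h3] at h2
    exact h2

end F2

end Pool.Agent.V11259.Integ
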