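import Mathlib
import Pool.Agent.V11259.IntegB

set_option autoImplicit false

/-! If the word is a consequence of the relations then the group is integrable. -/

namespace Pool.Agent.V11259.Integ

open scoped commutatorElement

section Int

variable {m : ℕ} (R : Set (FreeGroup (Fin m))) (w : FreeGroup (Fin m))

theorem lift_eq_one (hw : w ∈ Subgroup.normalClosure R) :
    FreeGroup.lift (gdat R w).x w = 1 := by
  have : Subgroup.normalClosure R ≤ (FreeGroup.lift (gdat R w).x).ker := by
    apply Subgroup.normalClosure_le_normal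
    intro r hr
    exact (gdat R w).hR r hr
  exact this hw

theorem c_eq_one (hw : w ∈ Subgroup.normalClosure R) : (gdat R w).c = 1 := by
  have h := (gdat R w).hw
  rw [lift_eq_one R w hw] at h
  have e : (gdat R w).t * (1 * (gdat R w).v * 1⁻¹ * (gdat R w).v⁻¹) * ((gdat R w).t)⁻¹ *
    (1 * (gdat R w).v * 1⁻¹ * (gdat R w).v⁻¹)⁻¹ * (gdat R w).c⁻¹ = (gdat R w).c⁻¹ := by group
  rw [e] at h
  exact inv_eq_one.mp h

/-- The automorphism. -/
def dalpha (hw : w ∈ Subgroup.normalClosure R) : Dat R w (Gp R w) where
  x := (gdat R w).x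
  y i := (gdat R w).y i * (gdat R w).z i * (gdat R w).y i
  z i := (gdat R w).z i * (gdat R w).y i
  v := (gdat R w).t
  t := (gdat R w).s
  s := (gdat R w).v * (gdat R w).t
  c := 1
  hR := (gdat R w).hR
  hx i := by
    have h := (gdat R w).hx i
    rw [← h]
    group
  hy i := by group
  hz i := by group
  hv := by group
  ht := by group
  hs := by group
  hw := by
    rw [lift_eq_one R w hw]
    group

/-- The inverse. -/
def dbeta (hw : w ∈ Subgroup.normalClosure R) : Dat R w (Gp R w) where
  x := (gdat R w).x
  y i := (gdat R w).y i * ((gdat R w).z i)⁻¹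
  z i := (gdat R w).z i * (gdat R w).z i * ((gdat R w).y i)⁻¹
  v := (gdat R w).s * (gdat R w).v⁻¹
  t := (gdat R w).v
  s := (gdat R w).t
  c := 1
  hR := (gdat R w).hR
  hx i := by
    have h := (gdat R w).hx i
    rw [← h]
    group
  hy i := by group
  hz i := by group
  hv := by group
  ht := by group
  hs := by group
  hw := by
    rw [lift_eq_one R w hw]
    group

theorem alpha_beta (hw : w ∈ Subgroup.normalClosure R) :
    (dalpha R w hw).hom.comp (dbeta R w hw).hom = MonoidHom.id _ := by
  apply PresentedGroup.ext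
  intro g
  rw [MonoidHom.comp_apply, Dat.hom_of]
  have ax : ∀ i, (dalpha R w hw).hom ((gdat R w).x i) = _ := fun i => Dat.hom_of _ (.x i)
  have ay : ∀ i, (dalpha R w hw).hom ((gdat R w).y i) = _ := fun i => Dat.hom_of _ (.y i)
  have az : ∀ i, (dalpha R w hw).hom ((gdat R w).z i) = _ := fun i => Dat.hom_of _ (.z i)
  have av : (dalpha R w hw).hom (gdat R w).v = _ := Dat.hom_of _ .v
  have at' : (dalpha R w hw).hom (gdat R w).t = _ := Dat.hom_of _ .t
  have as : (dalpha R w hw).hom (gdat R w).s = _ := Dat.hom_of _ .s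
  cases g with
  | x i => exact ax i
  | y i =>
    change (dalpha R w hw).hom ((gdat R w).y i * ((gdat R w).z i)⁻¹) = (gdat R w).y i
    rw [map_mul, map_inv, ay, az]
    change (gdat R w).y i * (gdat R w).z i * (gdat R w).y i *
      ((gdat R w).z i * (gdat R w).y i)⁻¹ = (gdat R w).y i
    group
  | z i =>
    change (dalpha R w hw).hom ((gdat R w).z i * (gdat R w).z i * ((gdat R w).y i)⁻¹) =
      (gdat R w).z i
    rw [map_mul, map_mul, map_inv, ay, az]
    change (gdat R w).z i * (gdat R w).y i * ((gdat R w).z i * (gdat R w).y i) *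
      ((gdat R w).y i * (gdat R w).z i * (gdat R w).y i)⁻¹ = (gdat R w).z i
    group
  | v =>
    change (dalpha R w hw).hom ((gdat R w).s * (gdat R w).v⁻¹) = (gdat R w).v
    rw [map_mul, map_inv, as, av]
    change (gdat R w).v * (gdat R w).t * (gdat R w).t⁻¹ = (gdat R w).v
    group
  | t => exact av
  | s => exact at'
  | c =>
    change (dalpha R w hw).hom 1 = (gdat R w).c
    rw [map_one, c_eq_one R w hw]

theorem beta_alpha (hw : w ∈ Subgroup.normalClosure R) :
    (dbeta R w hw).hom.comp (dalpha R w hw).hom = MonoidHom.id _ := by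
  apply PresentedGroup.ext
  intro g
  rw [MonoidHom.comp_apply, Dat.hom_of]
  have ax : ∀ i, (dbeta R w hw).hom ((gdat R w).x i) = _ := fun i => Dat.hom_of _ (.x i)
  have ay : ∀ i, (dbeta R w hw).hom ((gdat R w).y i) = _ := fun i => Dat.hom_of _ (.y i)
  have az : ∀ i, (dbeta R w hw).hom ((gdat R w).z i) = _ := fun i => Dat.hom_of _ (.z i)
  have av : (dbeta R w hw).hom (gdat R w).v = _ := Dat.hom_of _ .v
  have at' : (dbeta R w hw).hom (gdat R w).t = _ := Dat.hom_of _ .t
  have as : (dbeta R w hw).hom (gdat R w).s = _ := Dat.hom_of _ .s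
  cases g with
  | x i => exact ax i
  | y i =>
    change (dbeta R w hw).hom ((gdat R w).y i * (gdat R w).z i * (gdat R w).y i) = (gdat R w).y i
    rw [map_mul, map_mul, ay, az]
    change (gdat R w).y i * ((gdat R w).z i)⁻¹ *
      ((gdat R w).z i * (gdat R w).z i * ((gdat R w).y i)⁻¹) *
      ((gdat R w).y i * ((gdat R w).z i)⁻¹) = (gdat R w).y i
    group
  | z i =>
    change (dbeta R w hw).hom ((gdat R w).z i * (gdat R w).y i) = (gdat R w).z i
    rw [map_mul, ay, az]
    change (gdat R w).z i * (gdat R w).z i * ((gdat R w).y i)⁻¹ *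
      ((gdat R w).y i * ((gdat R w).z i)⁻¹) = (gdat R w).z i
    group
  | v => exact at'
  | t => exact as
  | s =>
    change (dbeta R w hw).hom ((gdat R w).v * (gdat R w).t) = (gdat R w).s
    rw [map_mul, at', av]
    change (gdat R w).s * (gdat R w).v⁻¹ * (gdat R w).v = (gdat R w).s
    group
  | c =>
    change (dbeta R w hw).hom 1 = (gdat R w).c
    rw [map_one, c_eq_one R w hw]

/-- The automorphism. -/
def alpha (hw : w ∈ Subgroup.normalClosure R) : MulAut (Gp R w) :=
  MonoidHom.toMulEquiv (dalpha R w hw).hom (dbeta R w hw).hom (beta_alpha R w hw)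
    (alpha_beta R w hw)

theorem alpha_of (hw : w ∈ Subgroup.normalClosure R) (g : Gn m) :
    alpha R w hw ((gdat R w).val g) = (dalpha R w hw).val g := by
  rw [gdat_val]
  exact Dat.hom_of _ g

/-- A group with an automorphism acting without coinvariants on its abelianisation is
integrable. -/
theorem integrable_of_aut {G : Type} [Group G] (α : MulAut G)
    (h : ∀ S : Subgroup G, S.Normal → (∀ g, α g * g⁻¹ ∈ S) → commutator G ≤ S → S = ⊤) :
    Integrable G := by
  let φ : Multiplicative ℤ →* MulAut G := zpowersHom _ α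
  let H := G ⋊[φ] Multiplicative ℤ
  let inl : G →* H := SemidirectProduct.inl
  let S : Subgroup G := (commutator H).comap inl
  have hS : S = ⊤ := by
    apply h
    · infer_instance
    · intro g
      have e : inl (α g * g⁻¹) = ⁅(SemidirectProduct.inr (Multiplicative.ofAdd 1) : H), inl g⁆ := by
        rw [commutatorElement_def, map_mul, map_inv]
        congr 1
        have := SemidirectProduct.inl_aut (φ := φ) (Multiplicative.ofAdd 1) g
        rw [← map_inv, ← this]
        simp only [φ, zpowersHom_apply, toAdd_ofAdd, zpow_one]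
        rfl
      change inl (α g * g⁻¹) ∈ commutator H
      rw [e]
      exact Subgroup.commutator_mem_commutator (Subgroup.mem_top _) (Subgroup.mem_top _)
    · rw [commutator_def, Subgroup.commutator_le]
      intro a _ b _
      change inl ⁅a, b⁆ ∈ commutator H
      rw [map_commutatorElement]
      exact Subgroup.commutator_mem_commutator (Subgroup.mem_top _) (Subgroup.mem_top _)
  have hrange : commutator H = inl.range := by
    apply le_antisymm
    · have h1 : inl.range = (SemidirectProduct.rightHom : H →* Multiplicative ℤ).ker :=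
        SemidirectProduct.range_inl_eq_ker_rightHom
      rw [h1]
      exact Abelianization.commutator_subset_ker _
    · rintro _ ⟨g, rfl⟩
      have : g ∈ S := by rw [hS]; exact Subgroup.mem_top g
      exact this
  refine ⟨H, inferInstance, ⟨?_⟩⟩
  exact (MulEquiv.subgroupCongr hrange).trans
    (MonoidHom.ofInjective (f := inl) SemidirectProduct.inl_injective).symm

theorem integrable_of_mem (hw : w ∈ Subgroup.normalClosure R) : Integrable (Gp R w) := by
  apply integrable_of_aut (alpha R w hw)
  intro S hN hα hc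
  have comm : ∀ a b : Gp R w, a * b * a⁻¹ * b⁻¹ ∈ S := fun a b => hc
    (Subgroup.commutator_mem_commutator (Subgroup.mem_top _) (Subgroup.mem_top _))
  have hy : ∀ i, (gdat R w).y i ∈ S := by
    intro i
    have h := hα ((gdat R w).z i)
    have e : alpha R w hw ((gdat R w).z i) = (gdat R w).z i * (gdat R w).y i :=
      alpha_of R w hw (.z i)
    rw [e] at h
    have h2 := hN.conj_mem _ h ((gdat R w).z i)⁻¹
    have e2 : ((gdat R w).z i)⁻¹ * ((gdat R w).z i * (gdat R w).y i * ((gdat R w).z i)⁻¹) *
      ((gdat R w).z i)⁻¹⁻¹ = (gdat R w).y i := by group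
    rwa [e2] at h2
  have hz : ∀ i, (gdat R w).z i ∈ S := by
    intro i
    have h := hα ((gdat R w).y i)
    have e : alpha R w hw ((gdat R w).y i) =
      (gdat R w).y i * (gdat R w).z i * (gdat R w).y i := alpha_of R w hw (.y i)
    rw [e] at h
    have h2 := mul_mem (inv_mem (hy i)) h
    have e2 : ((gdat R w).y i)⁻¹ * ((gdat R w).y i * (gdat R w).z i * (gdat R w).y i *
      ((gdat R w).y i)⁻¹) = (gdat R w).z i := by group
    rwa [e2] at h2
  have hx : ∀ i, (gdat R w).x i ∈ S := by
    intro i
    have h := (gdat R w).hx i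
    rw [mul_inv_eq_one] at h
    rw [h]
    exact comm _ _
  have h1 : (gdat R w).t * (gdat R w).v⁻¹ ∈ S := by
    have h := hα (gdat R w).v
    have e : alpha R w hw (gdat R w).v = (gdat R w).t := alpha_of R w hw .v
    rwa [e] at h
  have h2 : (gdat R w).s * (gdat R w).t⁻¹ ∈ S := by
    have h := hα (gdat R w).t
    have e : alpha R w hw (gdat R w).t = (gdat R w).s := alpha_of R w hw .t
    rwa [e] at h
  have h3 : (gdat R w).v * (gdat R w).t * (gdat R w).s⁻¹ ∈ S := by
    have h := hα (gdat R w).s
    have e : alpha R w hw (gdat R w).s = (gdat R w).v * (gdat R w).t := alpha_of R w hw .s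
    rwa [e] at h
  have hv : (gdat R w).v ∈ S := by
    have h4 := mul_mem h3 h2
    have e : (gdat R w).v * (gdat R w).t * (gdat R w).s⁻¹ * ((gdat R w).s * (gdat R w).t⁻¹) =
      (gdat R w).v := by group
    rwa [e] at h4
  have ht : (gdat R w).t ∈ S := by
    have h4 := mul_mem h1 hv
    have e : (gdat R w).t * (gdat R w).v⁻¹ * (gdat R w).v = (gdat R w).t := by group
    rwa [e] at h4
  have hs : (gdat R w).s ∈ S := by
    have h4 := mul_mem h2 ht
    have e : (gdat R w).s * (gdat R w).t⁻¹ * (gdat R w).t = (gdat R w).s := by group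
    rwa [e] at h4
  rw [eq_top_iff, ← PresentedGroup.closure_range_of, Subgroup.closure_le]
  rintro _ ⟨g, rfl⟩
  rw [← gdat_val]
  cases g with
  | x i => exact hx i
  | y i => exact hy i
  | z i => exact hz i
  | v => exact hv
  | t => exact ht
  | s => exact hs
  | c =>
    change (gdat R w).c ∈ S
    rw [c_eq_one R w hw]
    exact one_mem S

end Int

end Pool.Agent.V11259.Integ
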