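import Mathlib
import Pool.Agent.V11259.Mem

/-!
# General memory for prefix-independent conditions given by monotone automata

A word is accepted when the run of a (possibly infinite) deterministic automaton on it fails only
finitely often. If the automaton is monotone for an order that has a greatest element and whose
states form finitely many well-ordered chains, and acceptance does not depend on the initial
state, then the number of chains bounds the general memory.
-/

namespace V11259.Mem

open Arena

section Lists

variable {α : Type}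

/-- A sequence of strictly growing lists has a limit. -/
lemma exists_limit [Inhabited α] (p : ℕ → List α)
    (hp : ∀ k, ∃ q, q ≠ [] ∧ p (k + 1) = p k ++ q) :
    ∃ π : ℕ → α, ∀ k n, n ≤ (p k).length → (List.range n).map π = (p k).take n := by
  have hlen : ∀ k, k ≤ (p k).length := by
    intro k
    induction k with
    | zero => simp
    | succ k ih =>
      obtain ⟨q, hq, he⟩ := hp k
      have : 0 < q.length := List.length_pos_iff.2 hq
      rw [he, List.length_append]
      omega
  have hpre : ∀ k m, k ≤ m → p k <+: p m := by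
    intro k m hkm
    induction hkm with
    | refl => exact List.prefix_refl _
    | step h ih =>
      obtain ⟨q, _, he⟩ := hp _
      exact ih.trans ⟨q, he.symm⟩
  refine ⟨fun n => (p (n + 1)).getD n default, fun k n hn => ?_⟩
  apply List.ext_getElem
  · simp [hn]
  · intro i h1 h2
    simp only [List.length_map, List.length_range] at h1
    have hi : i < (p (i + 1)).length := by have := hlen (i + 1); omega
    rw [List.getElem_map, List.getElem_range, List.getElem_take,
      List.getD_eq_getElem _ _ hi]
    rcases le_total (i + 1) k with h | h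
    · exact (hpre _ _ h).getElem hi
    · exact ((hpre _ _ h).getElem (by omega)).symm

end Lists

section Tail

variable {C P : Type}

/-- The run of the automaton from the state `r` on the word `w`. -/
def rn (δ : P → C → P) (r : P) (w : ℕ → C) (n : ℕ) : P := ((List.range n).map w).foldl δ r

lemma rn_succ (δ : P → C → P) (r : P) (w : ℕ → C) (n : ℕ) :
    rn δ r w (n + 1) = δ (rn δ r w n) (w n) := by
  rw [rn, rn, hist_succ, List.foldl_append]
  rfl

lemma rn_add (δ : P → C → P) (r : P) (w : ℕ → C) (n m : ℕ) :
    rn δ r w (n + m) = rn δ (rn δ r w n) (fun k => w (n + k)) m := by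
  induction m with
  | zero => rfl
  | succ m ih => rw [← add_assoc, rn_succ, ih, rn_succ]

/-- The run from `r` on `w` fails only finitely often. -/
def FinFail (δ : P → C → P) (fail : P → C → Prop) (r : P) (w : ℕ → C) : Prop :=
  ∃ N, ∀ n, N ≤ n → ¬ fail (rn δ r w n) (w n)

lemma finFail_shift {δ : P → C → P} {fail : P → C → Prop} {r : P} {w : ℕ → C} (n : ℕ) :
    FinFail δ fail r w ↔ FinFail δ fail (rn δ r w n) (fun k => w (n + k)) := by
  constructor
  · rintro ⟨N, hN⟩
    refine ⟨N, fun m hm => ?_⟩
    rw [← rn_add]
    exact hN _ (by omega)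
  · rintro ⟨N, hN⟩
    refine ⟨N + n, fun m hm => ?_⟩
    have := hN (m - n) (by omega)
    rw [← rn_add] at this
    have e : n + (m - n) = m := by omega
    simp only [e] at this
    exact this

/-- The condition given by the automaton with initial state `r`. -/
def Tail (δ : P → C → P) (fail : P → C → Prop) (r : P) : Set (ℕ → C) :=
  {w | FinFail δ fail r w}

/-- Histories consistent with a strategy. -/
inductive Cons {A : Arena C} (S : A.Strat) (u : A.V) : List A.Edge → Prop
  | nil : Cons S u []
  | snoc (p : List A.Edge) (e : A.Edge) (hp : Cons S u p) (he : e ∈ A.E)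
      (hl : e.1 = A.last u p) (ha : A.prot e.1 → e = S.act u p) : Cons S u (p ++ [e])

lemma cons_path {A : Arena C} {S : A.Strat} {u : A.V} {p : List A.Edge} (h : Cons S u p) :
    A.IsPath u p := by
  induction h with
  | nil => trivial
  | snoc p e hp he hl ha ih => rw [isPath_append]; exact ⟨ih, he, hl⟩

lemma cons_inv {A : Arena C} {S : A.Strat} {u : A.V} {p : List A.Edge} {e : A.Edge}
    (h : Cons S u (p ++ [e])) :
    Cons S u p ∧ e ∈ A.E ∧ e.1 = A.last u p ∧ (A.prot e.1 → e = S.act u p) := by
  generalize hq : p ++ [e] = q at h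
  cases h with
  | nil => simp at hq
  | snoc p' e' hp he hl ha =>
    obtain ⟨h1, h2⟩ := List.append_inj' hq rfl
    simp only [List.cons.injEq, and_true] at h2
    subst h1; subst h2
    exact ⟨hp, he, hl, ha⟩

lemma cons_play {A : Arena C} {S : A.Strat} {u : A.V} {π : ℕ → A.Edge}
    (h : ∀ n, Cons S u ((List.range n).map π)) : A.IsPlay u π ∧ A.Consistent S u π := by
  have h1 : ∀ n, π n ∈ A.E ∧ (π n).1 = A.last u ((List.range n).map π) ∧
      (A.prot (π n).1 → π n = S.act u ((List.range n).map π)) := by
    intro n
    have := h (n + 1)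
    rw [hist_succ] at this
    exact (cons_inv this).2
  refine ⟨⟨(h1 0).2.1, fun n => ⟨(h1 n).1, ?_⟩⟩, fun n => (h1 n).2.2⟩
  rw [(h1 (n + 1)).2.1, hist_succ, last_append]

lemma cons_take {A : Arena C} {S : A.Strat} {u : A.V} {p : List A.Edge} (h : Cons S u p)
    (n : ℕ) : Cons S u (p.take n) := by
  induction h with
  | nil => simpa using Cons.nil
  | snoc p e hp he hl ha ih =>
    rcases le_or_gt n p.length with h | h
    · rw [List.take_append_of_le_length h]
      exact ih
    · rw [List.take_of_length_le (by simp; omega)]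
      exact Cons.snoc p e hp he hl ha

/-- `H` is closed for the safety game with target `X`. -/
def Closed (A : Arena C) (δ : P → C → P) (fail : P → C → Prop) (X : Set A.V)
    (H : A.V → P → Prop) : Prop :=
  ∀ v r, H v r → ∃ a : A.Edge, (A.prot v → a ∈ A.E ∧ a.1 = v) ∧
    ∀ e ∈ A.E, e.1 = v → (A.prot v → e = a) →
      e.2.2 ∈ X ∨ (¬ fail r e.2.1 ∧ H e.2.2 (δ r e.2.1))

/-- The winning region of the safety game with target `X`. -/
def G (A : Arena C) (δ : P → C → P) (fail : P → C → Prop) (X : Set A.V) (v : A.V) (r : P) :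
    Prop :=
  ∃ H, Closed A δ fail X H ∧ H v r

lemma G_closed (A : Arena C) (δ : P → C → P) (fail : P → C → Prop) (X : Set A.V) :
    Closed A δ fail X (G A δ fail X) := by
  rintro v r ⟨H, hH, hv⟩
  obtain ⟨a, h1, h2⟩ := hH v r hv
  refine ⟨a, h1, fun e he hev hea => ?_⟩
  rcases h2 e he hev hea with h | ⟨h3, h4⟩
  · exact Or.inl h
  · exact Or.inr ⟨h3, H, hH, h4⟩

lemma G_target {A : Arena C} {δ : P → C → P} {fail : P → C → Prop} {X Y : Set A.V}
    (hXY : X ⊆ Y) {v : A.V} {r : P} (h : G A δ fail X v r) : G A δ fail Y v r := by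
  obtain ⟨H, hH, hv⟩ := h
  refine ⟨H, fun v r hv => ?_, hv⟩
  obtain ⟨a, h1, h2⟩ := hH v r hv
  refine ⟨a, h1, fun e he hev hea => ?_⟩
  rcases h2 e he hev hea with h | h
  · exact Or.inl (hXY h)
  · exact Or.inr h

/-- The ranks. -/
def X (A : Arena C) (δ : P → C → P) (fail : P → C → Prop) (top : P) : ℕ → Set A.V
  | 0 => ∅
  | n + 1 => {v | G A δ fail (X A δ fail top n) v top}

lemma X_mono (A : Arena C) (δ : P → C → P) (fail : P → C → Prop) (top : P) :
    Monotone (X A δ fail top) := by
  apply monotone_nat_of_le_succ
  intro n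
  induction n with
  | zero => exact Set.empty_subset _
  | succ n ih =>
    intro v hv
    exact G_target ih hv

theorem tail_gen_suffices {K : Type} [Finite K] (δ : P → C → P) (fail : P → C → Prop)
    (le : P → P → Prop) (top : P)
    (le_trans : ∀ r r' r'', le r r' → le r' r'' → le r r'')
    (hmono : ∀ r r' c, le r r' → ¬ fail r c → le (δ r c) (δ r' c))
    (hfail : ∀ r r' c, le r r' → fail r' c → fail r c)
    (htop : ∀ r, le r top)
    (hpi : ∀ r r' w, FinFail δ fail r w → FinFail δ fail r' w)
    (idx : P → K) (lv : P → ℕ)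
    (hchain : ∀ r r', idx r = idx r' → lv r ≤ lv r' → le r r') :
    GenSuffices (Tail δ fail top) (Nat.card K) := by
  classical
  intro A
  have := A.finV
  set XX := X A δ fail top with hXX
  -- stabilisation
  obtain ⟨N, hN⟩ : ∃ N, ∀ n v, v ∈ XX n → v ∈ XX N := by
    have h1 : ∀ v : A.V, ∃ m, ∀ n, v ∈ XX n → v ∈ XX m := by
      intro v
      by_cases h : ∃ n, v ∈ XX n
      · obtain ⟨n, hn⟩ := h
        exact ⟨n, fun _ _ => hn⟩
      · exact ⟨0, fun n hn => absurd ⟨n, hn⟩ h⟩
    choose m hm using h1
    obtain ⟨N, hN⟩ := Finite.exists_le m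
    exact ⟨N, fun n v hv => X_mono A δ fail top (hN v) (hm v n hv)⟩
  -- winning positions have a rank
  have hwin : ∀ u, (∃ S : A.Strat, A.Wins (Tail δ fail top) S u) → u ∈ XX N := by
    rintro u ⟨S, hS⟩
    by_contra hu
    have hbad : ∀ p, Cons S u p → A.last u p ∉ XX N →
        ∃ q e, Cons S u (p ++ (q ++ [e])) ∧ A.last u (p ++ (q ++ [e])) ∉ XX N ∧
          fail ((q.map (fun e => e.2.1)).foldl δ top) e.2.1 := by
      intro p hp hl
      by_contra hcon
      push Not at hcon
      apply hl
      apply hN (N + 1)
      refine ⟨fun v r => ∃ q, Cons S u (p ++ q) ∧ v = A.last u (p ++ q) ∧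
        r = (q.map (fun e => e.2.1)).foldl δ top, ?_, ⟨[], by simpa using hp, by simp, rfl⟩⟩
      rintro v r ⟨q, hq, rfl, rfl⟩
      refine ⟨S.act u (p ++ q), fun h => S.valid _ _ (cons_path hq) h, fun e he hev hea => ?_⟩
      by_cases hX : e.2.2 ∈ XX N
      · exact Or.inl hX
      · right
        have hc : Cons S u (p ++ (q ++ [e])) := by
          rw [← List.append_assoc]
          exact Cons.snoc _ _ hq he hev (fun h => hea (hev ▸ h))
        have hlast : A.last u (p ++ (q ++ [e])) = e.2.2 := by
          rw [← List.append_assoc, last_append]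
        refine ⟨hcon q e hc (by rw [hlast]; exact hX), q ++ [e], hc, hlast.symm, ?_⟩
        simp
    choose q e h1 h2 h3 using hbad
    let T := {p : List A.Edge // Cons S u p ∧ A.last u p ∉ XX N}
    let nx : T → T := fun p => ⟨p.1 ++ (q p.1 p.2.1 p.2.2 ++ [e p.1 p.2.1 p.2.2]),
      h1 p.1 p.2.1 p.2.2, h2 p.1 p.2.1 p.2.2⟩
    let t0 : T := ⟨[], Cons.nil, hu⟩
    let f : ℕ → T := fun n => nx^[n] t0
    have hf : ∀ n, f (n + 1) = nx (f n) := fun n => Function.iterate_succ_apply' nx n t0
    have : Inhabited A.Edge := ⟨(A.out u).choose⟩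
    obtain ⟨π, hπ⟩ := exists_limit (fun n => (f n).1) (by
      intro k
      refine ⟨q (f k).1 (f k).2.1 (f k).2.2 ++ [e (f k).1 (f k).2.1 (f k).2.2], by simp, ?_⟩
      show (f (k + 1)).1 = _
      rw [hf])
    have hlen : ∀ k, k ≤ (f k).1.length := by
      intro k
      induction k with
      | zero => simp
      | succ k ih =>
        rw [hf]
        show k + 1 ≤ ((f k).1 ++ _).length
        simp only [List.length_append, List.length_cons, List.length_nil]
        omega
    obtain ⟨hplay, hcons⟩ := cons_play (S := S) (u := u) (π := π) (by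
      intro n
      rw [hπ n n (hlen n)]
      exact cons_take (f n).2.1 n)
    obtain ⟨M, hM⟩ := hS π hplay hcons
    -- a failure after `M`
    set w : ℕ → C := fun n => (π n).2.1 with hw
    set p0 := (f M).1 with hp0
    set q0 := q (f M).1 (f M).2.1 (f M).2.2 with hq0
    set e0 := e (f M).1 (f M).2.1 (f M).2.2 with he0
    have hlist : (List.range (p0.length + (q0.length + 1))).map π = p0 ++ (q0 ++ [e0]) := by
      have h := hπ (M + 1) (p0.length + (q0.length + 1)) (by
        show _ ≤ (f (M + 1)).1.length
        rw [hf]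
        show _ ≤ ((f M).1 ++ _).length
        simp [hp0, hq0])
      rw [h]
      show (f (M + 1)).1.take _ = _
      rw [hf]
      show ((f M).1 ++ (q0 ++ [e0])).take _ = _
      rw [List.take_of_length_le (by simp [hp0])]
    have hget : ∀ i, i < p0.length + (q0.length + 1) →
        (p0 ++ (q0 ++ [e0]))[i]? = some (π i) := by
      intro i hi
      rw [← hlist]
      simp [hi]
    have hq : ∀ i, i ≤ q0.length → (q0.take i).map (fun e => e.2.1) =
        (List.range i).map (fun k => w (p0.length + k)) := by
      intro i hi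
      apply List.ext_getElem
      · simp [hi]
      · intro j hj1 hj2
        simp only [List.length_map, List.length_range] at hj2
        have := hget (p0.length + j) (by omega)
        rw [List.getElem?_append_right (by omega)] at this
        rw [List.getElem?_append_left (by omega)] at this
        have e1 : p0.length + j - p0.length = j := by omega
        rw [e1, List.getElem?_eq_getElem (by omega)] at this
        simp only [Option.some.injEq] at this
        simp [this, hw]
    have hMp : M ≤ p0.length := hlen M
    have key : ∀ i, i ≤ q0.length →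
        le (rn δ (rn δ top w p0.length) (fun k => w (p0.length + k)) i)
          (rn δ top (fun k => w (p0.length + k)) i) := by
      intro i
      induction i with
      | zero => intro _; exact htop _
      | succ i ih =>
        intro hi
        rw [rn_succ, rn_succ]
        apply hmono _ _ _ (ih (by omega))
        rw [← rn_add]
        exact hM _ (by omega)
    have h4 := h3 (f M).1 (f M).2.1 (f M).2.2
    rw [← hq0, ← he0] at h4
    have h5 := hq q0.length le_rfl
    rw [List.take_length] at h5
    rw [h5] at h4
    have h6 : e0.2.1 = w (p0.length + q0.length) := by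
      have := hget (p0.length + q0.length) (by omega)
      rw [List.getElem?_append_right (by omega), List.getElem?_append_right (by omega)] at this
      have e1 : p0.length + q0.length - p0.length - q0.length = 0 := by omega
      rw [e1] at this
      simp only [List.getElem?_cons_zero, Option.some.injEq] at this
      rw [this, hw]
    rw [h6] at h4
    have h7 := hfail _ _ _ (key q0.length le_rfl) h4
    rw [← rn_add] at h7
    exact hM _ (by omega) h7
  -- representatives
  let Win : ℕ → A.V → P → Prop := fun j v r => G A δ fail (XX j) v r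
  have hmin : ∀ v i, (∃ j r, Win j v r ∧ idx r = i) →
      ∃ j r, Win j v r ∧ idx r = i ∧ ∀ j' r', Win j' v r' → idx r' = i →
        j ≤ j' ∧ (j = j' → lv r ≤ lv r') := by
    intro v i h
    obtain ⟨r1, h1, h2⟩ := Nat.find_spec h
    have h' : ∃ n, ∃ r, Win (Nat.find h) v r ∧ idx r = i ∧ lv r = n := ⟨_, r1, h1, h2, rfl⟩
    obtain ⟨r, h3, h4, h5⟩ := Nat.find_spec h'
    refine ⟨Nat.find h, r, h3, h4, fun j' r' h6 h7 => ?_⟩
    have h8 : Nat.find h ≤ j' := Nat.find_min' h ⟨r', h6, h7⟩
    refine ⟨h8, fun h9 => ?_⟩
    rw [h5]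
    refine Nat.find_min' h' ⟨r', ?_, h7, rfl⟩
    rw [h9]
    exact h6
  let jj : A.V → K → ℕ := fun v i =>
    if h : ∃ j r, Win j v r ∧ idx r = i then (hmin v i h).choose else 0
  let mm : A.V → K → P := fun v i =>
    if h : ∃ j r, Win j v r ∧ idx r = i then (hmin v i h).choose_spec.choose else top
  have hmm : ∀ v j r, Win j v r → Win (jj v (idx r)) v (mm v (idx r)) ∧
      idx (mm v (idx r)) = idx r ∧ jj v (idx r) ≤ j ∧
      (jj v (idx r) = j → le (mm v (idx r)) r) := by
    intro v j r hr
    have h : ∃ j' r', Win j' v r' ∧ idx r' = idx r := ⟨j, r, hr, rfl⟩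
    have hs := (hmin v (idx r) h).choose_spec.choose_spec
    have he1 : jj v (idx r) = (hmin v (idx r) h).choose := dif_pos h
    have he2 : mm v (idx r) = (hmin v (idx r) h).choose_spec.choose := dif_pos h
    rw [he1, he2]
    refine ⟨hs.1, hs.2.1, (hs.2.2 j r hr rfl).1, fun hj => ?_⟩
    exact hchain _ _ hs.2.1 ((hs.2.2 j r hr rfl).2 hj)
  let upd : K → A.Edge → K := fun i e =>
    if e.2.2 ∈ XX (jj e.1 i) then idx top else idx (δ (mm e.1 i) e.2.1)
  let M : A.Memory := ⟨K, inferInstance, idx top, upd⟩
  -- moves
  let good : A.V → K → A.Edge → Prop := fun v i e =>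
    e.2.2 ∈ XX (jj v i) ∨ (¬ fail (mm v i) e.2.1 ∧ Win (jj v i) e.2.2 (δ (mm v i) e.2.1))
  let mv : A.V → K → A.Edge := fun v i =>
    if h : ∃ e ∈ A.E, e.1 = v ∧ good v i e then h.choose else (A.out v).choose
  have hmv : ∀ v i, mv v i ∈ A.E ∧ (mv v i).1 = v := by
    intro v i
    by_cases h : ∃ e ∈ A.E, e.1 = v ∧ good v i e
    · have : mv v i = h.choose := dif_pos h
      rw [this]
      exact ⟨h.choose_spec.1, h.choose_spec.2.1⟩
    · have : mv v i = (A.out v).choose := dif_neg h
      rw [this]
      exact (A.out v).choose_spec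
  let S : A.Strat :=
    { act := fun u p => mv (A.last u p) (p.foldl upd (idx top))
      valid := fun u p _ _ => hmv _ _ }
  refine ⟨M, rfl, S, ?_, ?_⟩
  · intro u₁ p₁ u₂ p₂ _ _ _ hl hf
    show mv _ _ = mv _ _
    rw [hl]
    have : p₁.foldl upd (idx top) = p₂.foldl upd (idx top) := hf
    rw [this]
  · rintro u hu π hπ hc
    have hu' := hwin u hu
    let I : ℕ → K := fun n => ((List.range n).map π).foldl upd (idx top)
    have hI0 : I 0 = idx top := rfl
    have hIs : ∀ n, I (n + 1) = upd (I n) (π n) := by
      intro n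
      show ((List.range (n + 1)).map π).foldl upd (idx top) = _
      rw [hist_succ, List.foldl_append]
      rfl
    let J : ℕ → ℕ := fun n => jj (π n).1 (I n)
    let R : ℕ → P := fun n => mm (π n).1 (I n)
    have hgood : ∀ n, Win (J n) (π n).1 (R n) → good (π n).1 (I n) (π n) := by
      intro n h1
      obtain ⟨a, ha, hstep⟩ := G_closed A δ fail (XX (J n)) _ _ h1
      have hE := (hπ.2 n).1
      by_cases hp : A.prot (π n).1
      · have hact : π n = mv (π n).1 (I n) := by
          have h5 : π n = mv (A.last u ((List.range n).map π)) (I n) := hc n hp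
          rw [hπ.last n] at h5
          exact h5
        have hex : ∃ e ∈ A.E, e.1 = (π n).1 ∧ good (π n).1 (I n) e := by
          refine ⟨a, (ha hp).1, (ha hp).2, ?_⟩
          exact hstep a (ha hp).1 (ha hp).2 (fun _ => rfl)
        have hm : mv (π n).1 (I n) = hex.choose := dif_pos hex
        have hspec := hex.choose_spec.2.2
        rw [← hm, ← hact] at hspec
        exact hspec
      · exact hstep (π n) hE rfl (fun h => absurd h hp)
    have hstep : ∀ n, Win (J n) (π n).1 (R n) → idx (R n) = I n →
        Win (J (n + 1)) (π (n + 1)).1 (R (n + 1)) ∧ idx (R (n + 1)) = I (n + 1) ∧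
        J (n + 1) ≤ J n ∧
        (J (n + 1) = J n → ¬ fail (R n) (π n).2.1 ∧ le (R (n + 1)) (δ (R n) (π n).2.1)) := by
      intro n h1 h2
      have hnext := (hπ.2 n).2
      by_cases hX : (π n).2.2 ∈ XX (J n)
      · have hJ : J n ≠ 0 := by
          intro h0
          rw [h0] at hX
          exact hX
        obtain ⟨j, hj⟩ := Nat.exists_eq_succ_of_ne_zero hJ
        have hW : Win j (π (n + 1)).1 top := by
          rw [hj] at hX
          rw [hnext]
          exact hX
        have hI : I (n + 1) = idx top := by
          rw [hIs]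
          exact if_pos hX
        obtain ⟨g1, g2, g3, _⟩ := hmm _ _ _ hW
        have hlt : J (n + 1) < J n := by
          show jj (π (n + 1)).1 (I (n + 1)) < J n
          rw [hI, hj]
          omega
        refine ⟨?_, ?_, hlt.le, fun h => absurd h hlt.ne⟩
        · show Win (jj (π (n + 1)).1 (I (n + 1))) (π (n + 1)).1 (mm (π (n + 1)).1 (I (n + 1)))
          rw [hI]
          exact g1
        · show idx (mm (π (n + 1)).1 (I (n + 1))) = I (n + 1)
          rw [hI]
          exact g2
      · have hI : I (n + 1) = idx (δ (R n) (π n).2.1) := by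
          rw [hIs]
          exact if_neg hX
        rcases hgood n h1 with h | ⟨h3, h4⟩
        · exact absurd h hX
        · rw [← hnext] at h4
          obtain ⟨g1, g2, g3, g4⟩ := hmm _ _ _ h4
          refine ⟨?_, ?_, ?_, fun h => ⟨h3, ?_⟩⟩
          · show Win (jj (π (n + 1)).1 (I (n + 1))) (π (n + 1)).1 (mm (π (n + 1)).1 (I (n + 1)))
            rw [hI]
            exact g1
          · show idx (mm (π (n + 1)).1 (I (n + 1))) = I (n + 1)
            rw [hI]
            exact g2
          · show jj (π (n + 1)).1 (I (n + 1)) ≤ _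
            rw [hI]
            exact g3
          · show le (mm (π (n + 1)).1 (I (n + 1))) _
            rw [hI]
            apply g4
            have h' : jj (π (n + 1)).1 (I (n + 1)) = jj (π n).1 (I n) := h
            rw [hI] at h'
            exact h'
    have hinv : ∀ n, Win (J n) (π n).1 (R n) ∧ idx (R n) = I n := by
      intro n
      induction n with
      | zero =>
        have hN0 : N ≠ 0 := by
          intro h0
          rw [h0] at hu'
          exact hu'
        obtain ⟨j, hj⟩ := Nat.exists_eq_succ_of_ne_zero hN0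
        rw [hj, ← hπ.1] at hu'
        have hW : Win j (π 0).1 top := hu'
        obtain ⟨g1, g2, _, _⟩ := hmm _ _ _ hW
        exact ⟨g1, g2⟩
      | succ n ih =>
        have := hstep n ih.1 ih.2
        exact ⟨this.1, this.2.1⟩
    have hJanti : Antitone J := antitone_nat_of_succ_le
      (fun n => (hstep n (hinv n).1 (hinv n).2).2.2.1)
    obtain ⟨n0, hn0⟩ : ∃ n0, ∀ n, n0 ≤ n → J n = J n0 := by
      have h : ∃ j, ∃ n, J n = j := ⟨_, 0, rfl⟩
      obtain ⟨n0, hn0⟩ := Nat.find_spec h
      refine ⟨n0, fun n hn => le_antisymm (hJanti hn) ?_⟩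
      rw [hn0]
      exact Nat.find_min' h ⟨n, rfl⟩
    set w : ℕ → C := fun n => (π n).2.1 with hw
    have hfin : FinFail δ fail (R n0) (fun k => w (n0 + k)) := by
      have key : ∀ k, le (R (n0 + k)) (rn δ (R n0) (fun k => w (n0 + k)) k) ∧
          ¬ fail (R (n0 + k)) (w (n0 + k)) := by
        intro k
        have hs : ∀ n, n0 ≤ n → ¬ fail (R n) (w n) ∧ le (R (n + 1)) (δ (R n) (w n)) := by
          intro n hn
          apply (hstep n (hinv n).1 (hinv n).2).2.2.2
          rw [hn0 n hn, hn0 (n + 1) (by omega)]
        refine ⟨?_, (hs _ (by omega)).1⟩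
        induction k with
        | zero =>
          show le (R n0) (R n0)
          exact hchain _ _ rfl le_rfl
        | succ k ih =>
          rw [rn_succ]
          have h1 := hs (n0 + k) (by omega)
          exact le_trans _ _ _ h1.2 (hmono _ _ _ ih h1.1)
      exact ⟨0, fun k _ hk => (key k).2 (hfail _ _ _ (key k).1 hk)⟩
    show FinFail δ fail top w
    rw [finFail_shift n0]
    exact hpi _ _ _ hfin

end Tail

end V11259.Mem
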