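import Mathlib
import Pool.Agent.V11259.MemTail
import Pool.Agent.V11259.MemLadder

/-!
# The prefix-independent ladder condition

The ladder automaton with a reset colour `none`; a word is accepted when the run fails only
finitely often. General memory four suffices, no finite chromatic memory does.
-/

namespace V11259.Mem

open Arena

/-- The transitions with the reset colour: after a failure the automaton waits for a reset. -/
def δr : Q → Option Col → Q
  | _, none => .lad false 0
  | q, some c => if δ q c = .bot then .top else δ q c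

/-- The failing transitions. -/
def failr : Q → Option Col → Prop
  | _, none => False
  | q, some c => δ q c = .bot

/-- The prefix-independent ladder condition: the run fails only finitely often. -/
def tailLadder : Set (ℕ → Option Col) := Tail δr failr .top

lemma le_bot_eq {q : Q} (h : le q .bot) : q = .bot := by
  cases q <;> simp [le] at h ⊢

lemma rn_top {w : ℕ → Option Col} (h : ∀ n, w n ≠ none) (n : ℕ) : rn δr .top w n = .top := by
  induction n with
  | zero => rfl
  | succ n ih =>
    rw [rn_succ, ih]
    obtain ⟨c, hc⟩ := Option.ne_none_iff_exists'.1 (h n)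
    rw [hc]
    rfl

lemma finFail_indep (r r' : Q) (w : ℕ → Option Col) (h : FinFail δr failr r w) :
    FinFail δr failr r' w := by
  by_cases hw : ∃ n, w n = none
  · obtain ⟨n, hn⟩ := hw
    rw [finFail_shift (n + 1), rn_succ, hn] at h ⊢
    exact h
  · push Not at hw
    by_cases hf : ∃ n, failr (rn δr r' w n) (w n)
    · obtain ⟨n, hn⟩ := hf
      rw [finFail_shift (n + 1), rn_succ]
      obtain ⟨c, hc⟩ := Option.ne_none_iff_exists'.1 (hw n)
      rw [hc] at hn ⊢
      have hn' : δ (rn δr r' w n) c = .bot := hn
      have h1 : δr (rn δr r' w n) (some c) = .top := by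
        show (if _ then _ else _) = _
        rw [if_pos hn']
      rw [h1]
      refine ⟨0, fun m _ => ?_⟩
      rw [rn_top (fun k => hw _)]
      obtain ⟨c', hc'⟩ := Option.ne_none_iff_exists'.1 (hw (n + 1 + m))
      show ¬ failr Q.top (w (n + 1 + m))
      rw [hc']
      show ¬ (Q.top = Q.bot)
      simp
    · exact ⟨0, fun n _ hn => hf ⟨n, hn⟩⟩

theorem tailLadder_gen : GenSuffices tailLadder 4 := by
  have h : Nat.card (Bool × Bool) = 4 := by simp
  have := tail_gen_suffices (K := Bool × Bool) δr failr le .top le_trans'
    (by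
      intro r r' c hle hf
      cases c with
      | none => exact le_refl _
      | some c =>
        have hf' : δ r c ≠ .bot := hf
        have h1 := le_mono r r' c hle
        have h2 : δ r' c ≠ .bot := by
          intro h
          rw [h] at h1
          exact hf' (le_bot_eq h1)
        show le (if _ then _ else _) (if _ then _ else _)
        rw [if_neg hf', if_neg h2]
        exact h1)
    (by
      intro r r' c hle hf
      cases c with
      | none => exact hf
      | some c =>
        have hf' : δ r' c = .bot := hf
        have h1 := le_mono r r' c hle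
        rw [hf'] at h1
        exact le_bot_eq h1)
    (by intro r; cases r <;> simp [le])
    finFail_indep chain level
    (by
      intro r r' h1 h2
      cases r <;> cases r' <;> simp_all [chain, level, le]
      omega)
  rw [h] at this
  exact this

/-! ### Runs inside one block -/

lemma sim {w : ℕ → Option Col} {v : ℕ → Col} {n0 M : ℕ} (r : Q) (h0 : w n0 = none)
    (hv : ∀ j, j < M → w (n0 + 1 + j) = some (v j)) (m : ℕ) (hm : m ≤ M)
    (hb : ∀ j, j ≤ m → run v j ≠ .bot) : rn δr r w (n0 + 1 + m) = run v m := by
  induction m with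
  | zero =>
    rw [add_zero, rn_succ, h0]
    rfl
  | succ m ih =>
    rw [← add_assoc, rn_succ, ih (by omega) (fun j hj => hb j (by omega)), hv m (by omega),
      run_succ]
    have := hb (m + 1) le_rfl
    rw [run_succ] at this
    show (if _ then _ else _) = _
    rw [if_neg this]

lemma block_fail {w : ℕ → Option Col} {v : ℕ → Col} {n0 M : ℕ} (r : Q) (h0 : w n0 = none)
    (hv : ∀ j, j < M → w (n0 + 1 + j) = some (v j)) (hb : run v M = .bot) :
    ∃ n, n0 ≤ n ∧ failr (rn δr r w n) (w n) := by
  classical
  have hex : ∃ m, run v m = .bot := ⟨M, hb⟩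
  have hs := Nat.find_spec hex
  have hle : Nat.find hex ≤ M := Nat.find_min' hex hb
  have hmin : ∀ j, j < Nat.find hex → run v j ≠ .bot := fun j hj => Nat.find_min hex hj
  cases hf : Nat.find hex with
  | zero =>
    rw [hf] at hs
    simp [run] at hs
  | succ m =>
    rw [hf] at hs hle hmin
    refine ⟨n0 + 1 + m, by omega, ?_⟩
    rw [sim r h0 hv m (by omega) (fun j hj => hmin j (by omega)), hv m (by omega)]
    rw [run_succ] at hs
    exact hs

lemma block_ok {w : ℕ → Option Col} {v : ℕ → Col} {n0 M : ℕ} (r : Q) (h0 : w n0 = none)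
    (hv : ∀ j, j < M → w (n0 + 1 + j) = some (v j)) (hb : ∀ j, run v j ≠ .bot) (m : ℕ)
    (hm : m < M) : ¬ failr (rn δr r w (n0 + 1 + m)) (w (n0 + 1 + m)) := by
  rw [sim r h0 hv m (by omega) (fun j _ => hb j), hv m hm]
  have := hb (m + 1)
  rw [run_succ] at this
  exact this

/-! ### The arena -/

section LoopArena

variable (s L k : ℕ)

lemma colr_low {s L k : ℕ} (i c c' : Bool) {j : ℕ} (hj : j ≤ s + L + k) :
    colr s L k i j c = colr s L k i j c' := by
  simp only [colr]
  rw [if_pos hj, if_pos hj]

lemma colr_high {s L k : ℕ} (i i' c c' : Bool) {j : ℕ} (hj : s + L + k + 1 < j) :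
    colr s L k i j c = colr s L k i' j c' := by
  have h1 : ¬ j ≤ s + L + k := by omega
  have h2 : ¬ j = s + L + k + 1 := by omega
  simp only [colr, if_neg h1, if_neg h2]

/-- The length of a block. -/
def per : ℕ := 2 * (s + L + k) + 4

lemma per_pos : 0 < per s L k := by unfold per; omega

/-- The nodes. -/
abbrev LV : Type := Bool × Fin (per s L k)

/-- The colour of the edges out of a node. -/
def lcol (v : LV s L k) (c : Bool) : Option Col :=
  if v.2.val = 0 then none else some (colr s L k v.1 (v.2.val - 1) c)

/-- The successor of a node. -/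
def lnxt (v : LV s L k) (i : Bool) : LV s L k :=
  (if v.2.val = 0 then i else if v.2.val ≤ s + L + k then v.1 else false,
    ⟨(v.2.val + 1) % per s L k, Nat.mod_lt _ (per_pos s L k)⟩)

/-- The arena: Antagonist picks one of two words, Protagonist answers, and the game restarts. -/
def loopArena : Arena (Option Col) where
  V := LV s L k
  finV := inferInstance
  neV := ⟨(false, ⟨0, per_pos s L k⟩)⟩
  prot v := v.2.val ≠ 0
  E := {e | ∃ c i : Bool, e.2.1 = lcol s L k e.1 c ∧ e.2.2 = lnxt s L k e.1 i}
  finE := by
    apply Set.Finite.subset (Set.finite_range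
      (fun x : LV s L k × Bool × Bool => ((x.1, lcol s L k x.1 x.2.1, lnxt s L k x.1 x.2.2) :
        LV s L k × Option Col × LV s L k)))
    rintro ⟨v, c, v'⟩ ⟨c', i, h1, h2⟩
    refine ⟨(v, c', i), ?_⟩
    simp only at h1 h2 ⊢
    rw [h1, h2]
  out v := ⟨(v, lcol s L k v false, lnxt s L k v false), ⟨false, false, rfl, rfl⟩, rfl⟩

/-- The start node. -/
def st : LV s L k := (false, ⟨0, per_pos s L k⟩)

variable {s L k}

section Play

variable {π : ℕ → (loopArena s L k).Edge} (hπ : (loopArena s L k).IsPlay (st s L k) π)

include hπ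

lemma play_pos (n : ℕ) : (π n).1.2.val = n % per s L k := by
  induction n with
  | zero =>
    rw [hπ.1]
    simp [st]
  | succ n ih =>
    obtain ⟨c, i, h1, h2⟩ := (hπ.2 n).1
    rw [(hπ.2 n).2, h2]
    show ((π n).1.2.val + 1) % per s L k = _
    rw [ih, Nat.mod_add_mod]

lemma pos_block (b p : ℕ) (hp : p < per s L k) :
    (π (b * per s L k + p)).1.2.val = p := by
  rw [play_pos hπ, Nat.mul_add_mod_self_right, Nat.mod_eq_of_lt hp]

lemma play_start (b : ℕ) : (π (b * per s L k)).1 = st s L k := by
  cases b with
  | zero => rw [zero_mul]; exact hπ.1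
  | succ b =>
    have hper : per s L k = 2 * (s + L + k) + 4 := rfl
    have e : (b + 1) * per s L k = (b * per s L k + (2 * (s + L + k) + 3)) + 1 := by
      rw [Nat.add_mul, one_mul]
      omega
    have h1 := pos_block hπ (b + 1) 0 (per_pos s L k)
    have h2 := pos_block hπ b (2 * (s + L + k) + 3) (by omega)
    obtain ⟨c, i, _, h3⟩ := (hπ.2 (b * per s L k + (2 * (s + L + k) + 3))).1
    have h4 := (hπ.2 (b * per s L k + (2 * (s + L + k) + 3))).2
    rw [add_zero] at h1
    apply Prod.ext
    · rw [e, h4, h3]
      show (if _ then _ else if _ then _ else false) = false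
      rw [h2, if_neg (by omega), if_neg (by omega)]
    · apply Fin.ext
      rw [h1]
      rfl

lemma play_branch (b j : ℕ) (hj : j ≤ s + L + k) :
    (π (b * per s L k + 1 + j)).1.1 = (π (b * per s L k + 1)).1.1 := by
  have hper : per s L k = 2 * (s + L + k) + 4 := rfl
  induction j with
  | zero => rfl
  | succ j ih =>
    rw [← ih (by omega)]
    obtain ⟨c, i, _, h3⟩ := (hπ.2 (b * per s L k + 1 + j)).1
    have h4 := (hπ.2 (b * per s L k + 1 + j)).2
    rw [← add_assoc, h4, h3]
    have h2 := pos_block hπ b (1 + j) (by omega)
    rw [← add_assoc] at h2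
    show (if _ then _ else if _ then _ else false) = _
    rw [h2, if_neg (by omega), if_pos (by omega)]

lemma play_merge (b : ℕ) :
    (π (b * per s L k + 1 + (s + L + k + 1))).1.1 = false := by
  have hper : per s L k = 2 * (s + L + k) + 4 := rfl
  obtain ⟨c, i, _, h3⟩ := (hπ.2 (b * per s L k + 1 + (s + L + k))).1
  have h4 := (hπ.2 (b * per s L k + 1 + (s + L + k))).2
  rw [← add_assoc, h4, h3]
  have h2 := pos_block hπ b (1 + (s + L + k)) (by omega)
  rw [← add_assoc] at h2
  show (if _ then _ else if _ then _ else false) = _
  rw [h2, if_neg (by omega), if_neg (by omega)]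

lemma play_none (b : ℕ) : (π (b * per s L k)).2.1 = none := by
  obtain ⟨c, i, h3, _⟩ := (hπ.2 (b * per s L k)).1
  rw [h3, play_start hπ]
  rfl

lemma play_block (b : ℕ) : ∃ c, (π (b * per s L k + 1 + (s + L + k + 1))).2.1 = some (.d c) ∧
    ∀ j, j < 2 * (s + L + k) + 3 →
      (π (b * per s L k + 1 + j)).2.1 = some (colr s L k (π (b * per s L k + 1)).1.1 j c) := by
  have hper : per s L k = 2 * (s + L + k) + 4 := rfl
  have h1 : ∀ j, j < 2 * (s + L + k) + 3 → ∃ c, (π (b * per s L k + 1 + j)).2.1 =
      some (colr s L k (π (b * per s L k + 1 + j)).1.1 j c) := by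
    intro j hj
    obtain ⟨c, i, h3, _⟩ := (hπ.2 (b * per s L k + 1 + j)).1
    refine ⟨c, ?_⟩
    rw [h3]
    have h2 := pos_block hπ b (1 + j) (by omega)
    rw [← add_assoc] at h2
    show (if _ then _ else some (colr s L k _ (_ - 1) _)) = _
    rw [h2, if_neg (by omega)]
    have e : 1 + j - 1 = j := by omega
    rw [e]
  obtain ⟨c, hc⟩ := h1 (s + L + k + 1) (by omega)
  rw [colr_mid] at hc
  refine ⟨c, hc, fun j hj => ?_⟩
  obtain ⟨c', hc'⟩ := h1 j hj
  rcases lt_trichotomy j (s + L + k + 1) with h | h | h
  · rw [hc', play_branch hπ b j (by omega), colr_low _ c' c (by omega)]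
  · subst h
    rw [hc, colr_mid]
  · rw [hc', colr_high _ (π (b * per s L k + 1)).1.1 c' c h]

end Play

/-- The strategy that answers correctly. -/
noncomputable def loopStrat (s L k : ℕ) : (loopArena s L k).Strat where
  act u p :=
    let v := (loopArena s L k).last u p
    let i : Bool := (p.getLast?).elim false (fun e => e.1.1)
    (v, lcol s L k v (decide (IsSquare (pos s L i))), lnxt s L k v false)
  valid _ _ _ _ := ⟨⟨_, _, rfl, rfl⟩, rfl⟩

lemma loopStrat_wins : (loopArena s L k).Wins tailLadder (loopStrat s L k) (st s L k) := by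
  intro π hπ hc
  have hper : per s L k = 2 * (s + L + k) + 4 := rfl
  refine ⟨0, fun n _ => ?_⟩
  obtain ⟨b, p, hp, rfl⟩ : ∃ b p, p < per s L k ∧ n = b * per s L k + p :=
    ⟨n / per s L k, n % per s L k, Nat.mod_lt _ (per_pos s L k), by
      rw [mul_comm]; exact (Nat.div_add_mod _ _).symm⟩
  cases p with
  | zero =>
    rw [add_zero]
    simp only [play_none hπ]
    exact fun h => h
  | succ p =>
    obtain ⟨c, hc1, hc2⟩ := play_block hπ b
    have hcc : c = decide (IsSquare (pos s L (π (b * per s L k + 1)).1.1)) := by
      have hpo := pos_block hπ b (1 + (s + L + k + 1)) (by omega)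
      rw [← add_assoc] at hpo
      have h2 := hc (b * per s L k + 1 + (s + L + k + 1)) (by
        show (π _).1.2.val ≠ 0
        rw [hpo]
        omega)
      have h3 : (π (b * per s L k + 1 + (s + L + k + 1))).2.1 =
          some (.d (decide (IsSquare (pos s L (π (b * per s L k + 1 + (s + L + k))).1.1)))) := by
        rw [h2]
        show lcol s L k ((loopArena s L k).last (st s L k) _) (decide (IsSquare (pos s L
          ((List.getLast? _).elim false (fun e : (loopArena s L k).Edge => e.1.1))))) = _
        rw [hπ.last, ← add_assoc, hist_succ, List.getLast?_concat]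
        show (if _ then _ else some (colr s L k _ (_ - 1) _)) = _
        rw [← add_assoc] at hpo
        rw [hpo, if_neg (by omega)]
        have e : 1 + (s + L + k + 1) - 1 = s + L + k + 1 := by omega
        rw [e, colr_mid]
        rfl
      rw [hc1, play_branch hπ b _ le_rfl] at h3
      simpa using h3
    have h0 : (fun n => (π n).2.1) (b * per s L k) = none := play_none hπ b
    have := block_ok (w := fun n => (π n).2.1) (n0 := b * per s L k)
      (M := 2 * (s + L + k) + 3) (v := fun j => colr s L k (π (b * per s L k + 1)).1.1 j c)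
      .top h0 hc2 (by
        rw [hcc]
        exact good_mem _) p (by omega)
    have e : b * per s L k + (p + 1) = b * per s L k + 1 + p := by omega
    rw [e]
    exact this

lemma run_bad_bot (i c : Bool) (hc : c ≠ decide (IsSquare (pos s L i))) (hN : 0 < s + L + k) :
    run (fun n => colr s L k i n c) (2 * (s + L + k) + 2) = .bot := by
  have e : 2 * (s + L + k) + 2 = (s + L + k + 2 + (s + L + k - 1)) + 1 := by omega
  rw [e, run_succ, run_bad i c hc _ (by omega)]
  have hcol : colr s L k i (s + L + k + 2 + (s + L + k - 1)) c = .e := by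
    simp only [colr]
    rw [if_neg (by omega), if_neg (by omega), if_pos (by omega)]
  rw [hcol]
  have : s + L + k - 1 - (s + L + k - 1) = 0 := by omega
  rw [this]
  rfl

end LoopArena

theorem tailLadder_chr (k : ℕ) : ¬ ChrSuffices tailLadder k := by
  classical
  intro hsuff
  set L := k.factorial with hL
  have hLpos : 0 < L := Nat.factorial_pos k
  set m := L + k with hm
  set s := m * m with hs
  obtain ⟨M, hchr, hcard, S, hbuilt, hopt⟩ := hsuff (loopArena s L k)
  have := M.fin
  have hsk : k ≤ s := by nlinarith
  have sq1 : IsSquare s := ⟨m, rfl⟩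
  have sq2 : ¬ IsSquare (s + L) := by
    rintro ⟨r, hr⟩
    have h1 : m < r := by
      by_contra hcon
      push Not at hcon
      have : r * r ≤ m * m := Nat.mul_le_mul hcon hcon
      omega
    have h2 : (m + 1) * (m + 1) ≤ r * r := Nat.mul_le_mul h1 h1
    nlinarith
  have e1 : pos s L true = s := by simp [pos]
  have e2 : pos s L false = s + L := by simp [pos]
  have hper : per s L k = 2 * (s + L + k) + 4 := rfl
  -- chromatic update
  let g : M.M → Option Col → M.M := fun q c =>
    if h : ∃ e ∈ (loopArena s L k).E, e.2.1 = c then M.upd q h.choose else q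
  have hg : ∀ q, ∀ e ∈ (loopArena s L k).E, M.upd q e = g q e.2.1 := by
    intro q e he
    have h : ∃ e' ∈ (loopArena s L k).E, e'.2.1 = e.2.1 := ⟨e, he, rfl⟩
    show _ = (if h : ∃ e' ∈ (loopArena s L k).E, e'.2.1 = e.2.1 then M.upd q h.choose else q)
    rw [dif_pos h]
    exact hchr q e he _ h.choose_spec.1 h.choose_spec.2.symm
  -- the answer of the strategy as a function of the memory state
  let y : LV s L k := (false, ⟨s + L + k + 2, by omega⟩)
  let resp : M.M → (loopArena s L k).Edge := fun q =>
    if h : ∃ u p, (loopArena s L k).IsPath u p ∧ (loopArena s L k).last u p = y ∧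
      p.foldl M.upd M.init = q then S.act h.choose h.choose_spec.choose
    else ((loopArena s L k).out y).choose
  have hresp : ∀ u p, (loopArena s L k).IsPath u p → (loopArena s L k).last u p = y →
      S.act u p = resp (p.foldl M.upd M.init) := by
    intro u p hp hl
    have h : ∃ u' p', (loopArena s L k).IsPath u' p' ∧ (loopArena s L k).last u' p' = y ∧
      p'.foldl M.upd M.init = p.foldl M.upd M.init := ⟨u, p, hp, hl, rfl⟩
    have h1 : resp (p.foldl M.upd M.init) = S.act h.choose h.choose_spec.choose := dif_pos h
    rw [h1]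
    have h2 := h.choose_spec.choose_spec
    apply hbuilt _ _ _ _ hp h2.1
    · rw [hl]
      show s + L + k + 2 ≠ 0
      omega
    · rw [hl, h2.2.1]
    · exact h2.2.2.symm
  let nu : M.M → M.M := fun q =>
    (fun m => g m (some .a))^[k] (g ((fun m => g m (some .a))^[s] (g q none)) (some .b))
  let bb : M.M → Bool := fun q => if (resp (nu q)).2.1 = some (.d true) then false else true
  obtain ⟨π, hπ, hT⟩ := exists_play (A := loopArena s L k) (st s L k)
    (fun p => if (loopArena s L k).prot ((loopArena s L k).last (st s L k) p) then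
      S.act (st s L k) p else ((loopArena s L k).last (st s L k) p, none,
        lnxt s L k ((loopArena s L k).last (st s L k) p) (bb (p.foldl M.upd M.init)))) (by
      intro p hp
      by_cases h : (loopArena s L k).prot ((loopArena s L k).last (st s L k) p)
      · simp only [if_pos h]
        exact S.valid _ p hp h
      · simp only [if_neg h]
        refine ⟨⟨false, bb (p.foldl M.upd M.init), ?_, rfl⟩, trivial⟩
        have h0 : ((loopArena s L k).last (st s L k) p).2.val = 0 := not_not.1 h
        show none = (if _ then _ else _)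
        rw [if_pos h0])
  have hcons : (loopArena s L k).Consistent S (st s L k) π := by
    intro n hn
    rw [hT n, hπ.last n, if_pos hn]
  have hwin := hopt (st s L k) ⟨_, loopStrat_wins⟩ π hπ hcons
  obtain ⟨N0, hN0⟩ := hwin
  let I : ℕ → M.M := fun n => ((List.range n).map π).foldl M.upd M.init
  have hIs : ∀ n, I (n + 1) = g (I n) (π n).2.1 := by
    intro n
    show ((List.range (n + 1)).map π).foldl M.upd M.init = _
    rw [hist_succ, List.foldl_append]
    exact hg _ _ (hπ.2 n).1
  obtain ⟨c, hc1, hc2⟩ := play_block hπ N0
  set n0 := N0 * per s L k with hn0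
  -- the branch
  have hbr : (π (n0 + 1)).1.1 = bb (I n0) := by
    have h1 : π n0 = (st s L k, none, lnxt s L k (st s L k) (bb (I n0))) := by
      rw [hT n0, hπ.last n0, play_start hπ, if_neg (by
        intro h
        exact h rfl)]
      rfl
    rw [(hπ.2 n0).2, h1]
    show (lnxt s L k (st s L k) (bb (I n0))).1 = _
    simp [lnxt, st]
  -- the memory
  set i := (π (n0 + 1)).1.1 with hi
  have hmem1 : ∀ j, j ≤ s + L + k + 1 → I (n0 + 1 + j) =
      ((List.range j).map (fun j => colr s L k i j c)).foldl (fun m c => g m (some c))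
        (g (I n0) none) := by
    intro j
    induction j with
    | zero =>
      intro _
      rw [add_zero, hIs, play_none hπ]
      rfl
    | succ j ih =>
      intro hj
      rw [← add_assoc, hIs, ih (by omega), hc2 j (by omega), hist_succ, List.foldl_append]
      rfl
  have hmem : I (n0 + 1 + (s + L + k + 1)) = nu (I n0) := by
    rw [hmem1 _ le_rfl, foldl_word _ _ i _ _ le_rfl, if_neg (by
      have := pos_le (s := s) (L := L) (k := k) i
      omega)]
    cases i with
    | true =>
      have e3 : s + L + k + 1 - 1 - pos s L true = k + L := by rw [e1]; omega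
      rw [e3, e1, iter_eq _ k hcard k le_rfl]
    | false =>
      have e3 : s + L + k + 1 - 1 - pos s L false = k := by rw [e2]; omega
      rw [e3, e2, iter_eq _ k hcard s hsk]
  -- the answer
  have hans : π (n0 + 1 + (s + L + k + 1)) = resp (nu (I n0)) := by
    have hpo := pos_block hπ N0 (1 + (s + L + k + 1)) (by omega)
    rw [← add_assoc, ← hn0] at hpo
    have h1 := hcons (n0 + 1 + (s + L + k + 1)) (by
      show (π _).1.2.val ≠ 0
      rw [hpo]
      omega)
    rw [h1, hresp _ _ (hπ.path _) (by
      rw [hπ.last]
      apply Prod.ext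
      · exact play_merge hπ N0
      · apply Fin.ext
        rw [hpo]
        show 1 + (s + L + k + 1) = s + L + k + 2
        omega)]
    show resp (I _) = _
    rw [hmem]
  have hcne : c ≠ decide (IsSquare (pos s L i)) := by
    intro hcc
    rw [hans] at hc1
    have hbb : bb (I n0) = if (resp (nu (I n0))).2.1 = some (.d true) then false else true := rfl
    rw [hc1] at hbb
    rw [hbr] at hcc
    rw [hcc] at hbb
    cases hb : bb (I n0) with
    | true =>
      rw [hb, e1] at hbb
      simp [sq1] at hbb
    | false =>
      rw [hb, e2] at hbb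
      simp [sq2] at hbb
  obtain ⟨n, hn1, hn2⟩ := block_fail (w := fun n => (π n).2.1) (n0 := n0)
    (M := 2 * (s + L + k) + 2) (v := fun j => colr s L k i j c) .top (play_none hπ N0)
    (fun j hj => hc2 j (by omega)) (run_bad_bot i c hcne (by omega))
  refine hN0 n ?_ hn2
  have : N0 * 1 ≤ N0 * per s L k := Nat.mul_le_mul_left _ (per_pos s L k)
  omega

theorem tailLadder_chrMem : chrMem tailLadder = ⊤ := by
  unfold chrMem
  have : {x : ℕ∞ | ∃ k : ℕ, 1 ≤ k ∧ ChrSuffices tailLadder k ∧ x = k} = ∅ := by
    ext x
    constructor
    · rintro ⟨k, _, h2, _⟩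
      exact absurd h2 (tailLadder_chr k)
    · intro h
      exact absurd h (Set.notMem_empty _)
  rw [this, sInf_empty]

theorem tailLadder_genMem : genMem tailLadder < ⊤ := by
  refine lt_of_le_of_lt (sInf_le ⟨4, by norm_num, tailLadder_gen, rfl⟩) ?_
  exact WithTop.coe_lt_top 4

/-- The concatenation of a finite and an infinite word. -/
def cat {C : Type} (x : List C) (y : ℕ → C) : ℕ → C :=
  fun n => if h : n < x.length then x[n] else y (n - x.length)

/-- Prefix-independent winning conditions. -/
def PrefixIndependent {C : Type} (W : Set (ℕ → C)) : Prop :=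
  ∀ (x : List C) (y : ℕ → C), cat x y ∈ W ↔ y ∈ W

theorem tailLadder_prefixIndependent : PrefixIndependent tailLadder := by
  intro x y
  have h1 : (fun k => cat x y (x.length + k)) = y := by
    funext k
    unfold cat
    rw [dif_neg (by omega)]
    congr 1
    omega
  show FinFail δr failr .top (cat x y) ↔ FinFail δr failr .top y
  rw [finFail_shift x.length, h1]
  exact ⟨finFail_indep _ _ _, finFail_indep _ _ _⟩

end V11259.Mem
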