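import Mathlib

/-!
A countable infinite set with decidable equality of names has a computable enumeration without
repetition.
-/

set_option autoImplicit false

namespace V11259.Enum

theorem computable_count {r : ℕ → Bool} (hr : Computable r) :
    Computable fun n => Nat.count (fun m => r m = true) n := by
  have h : Computable fun n : ℕ => Nat.rec (motive := fun _ => ℕ) 0
      (fun m acc => acc + (if r m = true then 1 else 0)) n := by
    refine Computable.nat_rec (f := fun n : ℕ => n) (g := fun _ => 0)
      (h := fun (_ : ℕ) (q : ℕ × ℕ) => q.2 + (if r q.1 = true then 1 else 0))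
      Computable.id (Computable.const 0) ?_
    have h1 : Computable fun q : ℕ × ℕ × ℕ => r q.2.1 :=
      hr.comp (Computable.fst.comp Computable.snd)
    have h2 : Computable fun q : ℕ × ℕ × ℕ => cond (r q.2.1) 1 0 :=
      Computable.cond h1 (Computable.const 1) (Computable.const 0)
    have h3 : Computable fun q : ℕ × ℕ × ℕ => q.2.2 + cond (r q.2.1) 1 0 :=
      (Primrec.nat_add.to_comp).comp (Computable.snd.comp Computable.snd) h2
    exact (h3.of_eq fun q => by simp [Bool.cond_eq_ite])
  refine h.of_eq fun n => ?_
  induction n with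
  | zero => simp
  | succ n ih =>
    rw [Nat.count_succ, ← ih]

theorem computable_bforall {D : ℕ × ℕ → Bool} (hD : Computable D) :
    ∃ r : ℕ → Bool, Computable r ∧ ∀ n, r n = true ↔ ∀ m < n, D (m, n) = false := by
  refine ⟨fun n => Nat.rec (motive := fun _ => Bool) true
      (fun m acc => acc && !D (m, n)) n, ?_, fun n => ?_⟩
  · refine Computable.nat_rec (f := fun n : ℕ => n) (g := fun _ => true)
      (h := fun (n : ℕ) (q : ℕ × Bool) => q.2 && !D (q.1, n))
      Computable.id (Computable.const true) ?_
    have h1 : Computable fun q : ℕ × ℕ × Bool => D (q.2.1, q.1) :=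
      hD.comp (Computable.pair (Computable.fst.comp Computable.snd) Computable.fst)
    have h2 : Computable fun q : ℕ × ℕ × Bool => !D (q.2.1, q.1) :=
      (Primrec.not.to_comp).comp h1
    exact (Primrec.and.to_comp).comp (Computable.snd.comp Computable.snd) h2
  · have h : ∀ k, (Nat.rec (motive := fun _ => Bool) true
      (fun m acc => acc && !D (m, n)) k = true) ↔ ∀ m < k, D (m, n) = false := by
      intro k
      induction k with
      | zero => simp
      | succ k ih =>
        simp only [Bool.and_eq_true, ih, Bool.not_eq_true']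
        constructor
        · rintro ⟨h1, h2⟩ m hm
          rcases Nat.lt_succ_iff_lt_or_eq.1 hm with h | rfl
          · exact h1 m h
          · exact h2
        · intro h1
          exact ⟨fun m hm => h1 m (by omega), h1 k (by omega)⟩
    exact h n

theorem exists_equiv {α : Type} [Infinite α] (π : ℕ → α) (hπ : Function.Surjective π)
    (hdec : ComputablePred fun p : ℕ × ℕ => π p.1 = π p.2) :
    ∃ (e : ℕ ≃ α) (f g : ℕ → ℕ), Computable f ∧ Computable g ∧ (∀ k, e k = π (f k)) ∧
      ∀ n, e.symm (π n) = g n := by
  classical
  obtain ⟨D, hD, hD2⟩ := ComputablePred.computable_iff.1 hdec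
  have hD3 : ∀ m n, D (m, n) = true ↔ π m = π n := by
    intro m n
    have := congrFun hD2 (m, n)
    simp only at this
    rw [this]
  obtain ⟨r, hr, hr2⟩ := computable_bforall hD
  set R : ℕ → Prop := fun n => r n = true with hR
  have hR2 : ∀ n, R n ↔ ∀ m < n, π m ≠ π n := by
    intro n
    rw [hR]
    simp only [hr2]
    refine forall_congr' fun m => forall_congr' fun _ => ?_
    rw [← Bool.not_eq_true, hD3]
  -- representatives
  have hrep : ∀ n, ∃ m, D (m, n) = true := fun n => ⟨n, (hD3 n n).2 rfl⟩
  have hfind : ∀ n, R (Nat.find (hrep n)) ∧ π (Nat.find (hrep n)) = π n := by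
    intro n
    have h1 := (hD3 _ _).1 (Nat.find_spec (hrep n))
    refine ⟨(hR2 _).2 fun m hm h => ?_, h1⟩
    exact Nat.find_min (hrep n) hm ((hD3 _ _).2 (h.trans h1))
  have hinf : (Set.ofPred R).Infinite := by
    intro hfin
    have h1 : (Set.range π).Finite := by
      refine (hfin.image π).subset ?_
      rintro _ ⟨n, rfl⟩
      exact ⟨_, (hfind n).1, (hfind n).2⟩
    rw [hπ.range_eq] at h1
    exact Set.infinite_univ h1
  have hcount : Computable fun n => Nat.count R n := (computable_count hr).of_eq fun n => rfl
  have hf : Computable (Nat.nth R) := by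
    have hex : ∀ k : ℕ, ∃ n, r n = true ∧ Nat.count R n = k := fun k =>
      ⟨Nat.nth R k, Nat.nth_mem_of_infinite hinf k, Nat.count_nth_of_infinite hinf k⟩
    have h1 : Computable fun k => Nat.find (hex k) := by
      refine Computable.find (P := fun k n => r n = true ∧ Nat.count R n = k) ?_ hex
      have h2 : Computable fun p : ℕ × ℕ => r p.2 && decide (Nat.count R p.2 = p.1) := by
        refine (Primrec.and.to_comp).comp (hr.comp Computable.snd) ?_
        exact (Primrec.eq.decide.to_comp).comp (hcount.comp Computable.snd) Computable.fst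
      exact ComputablePred.computable_iff.2 ⟨_, h2, by funext p; simp⟩
    refine h1.of_eq fun k => ?_
    obtain ⟨h3, h4⟩ := Nat.find_spec (hex k)
    have h5 : Nat.nth R (Nat.count R (Nat.find (hex k))) = Nat.find (hex k) := Nat.nth_count h3
    rw [h4] at h5
    exact h5.symm
  have hg : Computable fun n => Nat.count R (Nat.find (hrep n)) := by
    refine hcount.comp ?_
    refine Computable.find (P := fun n m => D (m, n) = true) ?_ hrep
    have h2 : Computable fun p : ℕ × ℕ => D (p.2, p.1) :=
      hD.comp (Computable.pair Computable.snd Computable.fst)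
    exact ComputablePred.computable_iff.2 ⟨_, h2, rfl⟩
  have hbij : Function.Bijective fun k => π (Nat.nth R k) := by
    constructor
    · intro i j hij
      have hij : π (Nat.nth R i) = π (Nat.nth R j) := hij
      have h1 := Nat.nth_mem_of_infinite hinf i
      have h2 := Nat.nth_mem_of_infinite hinf j
      apply Nat.nth_injective hinf
      rcases lt_trichotomy (Nat.nth R i) (Nat.nth R j) with h | h | h
      · exact absurd hij ((hR2 _).1 h2 _ h)
      · exact h
      · exact absurd hij.symm ((hR2 _).1 h1 _ h)
    · intro a
      obtain ⟨n, rfl⟩ := hπ a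
      refine ⟨Nat.count R (Nat.find (hrep n)), ?_⟩
      show π (Nat.nth R (Nat.count R _)) = _
      rw [Nat.nth_count (hfind n).1, (hfind n).2]
  refine ⟨Equiv.ofBijective _ hbij, Nat.nth R, fun n => Nat.count R (Nat.find (hrep n)),
    hf, hg, fun k => rfl, fun n => ?_⟩
  rw [Equiv.symm_apply_eq]
  show π n = π (Nat.nth R (Nat.count R _))
  rw [Nat.nth_count (hfind n).1, (hfind n).2]

end V11259.Enum
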