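import Mathlib.Computability.Halting
import Mathlib.Computability.Primrec.List

/-!
Closure properties of recursively enumerable predicates.
-/

set_option autoImplicit false

open Nat.Partrec (Code)
open Encodable Denumerable

namespace V11259.RE

variable {α β γ : Type} [Primcodable α] [Primcodable β] [Primcodable γ]

theorem of_stage {p : α → Prop} {f : α → ℕ → Bool} (hf : Computable₂ f)
    (h : ∀ a, p a ↔ ∃ n, f a n = true) : REPred p := by
  have h1 : Partrec fun a => Nat.rfind fun v => Part.some (f a v) :=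
    Partrec.rfind hf.partrec₂
  refine h1.dom_re.of_eq fun a => ?_
  rw [h a]
  refine (Nat.rfind_dom (p := fun v => (Part.some (f a v) : Part Bool))).trans ?_
  simp

theorem exists_stage {p : α → Prop} (hp : REPred p) :
    ∃ f : α → ℕ → Bool, Primrec₂ f ∧ (∀ a m n, m ≤ n → f a m = true → f a n = true) ∧
      ∀ a, p a ↔ ∃ n, f a n = true := by
  have h1 : Partrec fun a => (Part.assert (p a) fun _ => Part.some ()).map (fun _ => 0) :=
    Partrec.map hp (Computable.const 0).to₂
  obtain ⟨c, hc⟩ := Code.exists_code.1 h1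
  refine ⟨fun a n => (Code.evaln n c (encode a)).isSome, ?_, ?_, ?_⟩
  · apply Primrec.option_isSome.comp
    have h2 : Primrec fun q : α × ℕ => ((q.2, c), encode q.1) :=
      Primrec.pair (Primrec.pair Primrec.snd (Primrec.const c)) (Primrec.encode.comp Primrec.fst)
    exact Code.primrec_evaln.comp h2
  · intro a m n hmn h
    rw [Option.isSome_iff_exists] at *
    obtain ⟨x, hx⟩ := h
    exact ⟨x, Code.evaln_mono hmn hx⟩
  · intro a
    have h3 : p a ↔ (Code.eval c (encode a)).Dom := by
      rw [hc]; simp [Part.assert]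
    rw [h3, Part.dom_iff_mem]
    constructor
    · rintro ⟨y, hy⟩
      obtain ⟨k, hk⟩ := Code.evaln_complete.1 hy
      exact ⟨k, Option.isSome_iff_exists.2 ⟨y, hk⟩⟩
    · rintro ⟨k, hk⟩
      obtain ⟨y, hy⟩ := Option.isSome_iff_exists.1 hk
      exact ⟨y, Code.evaln_sound hy⟩

theorem comp {p : β → Prop} (hp : REPred p) {f : α → β} (hf : Computable f) :
    REPred fun a => p (f a) := Partrec.comp hp hf

theorem and {p q : α → Prop} (hp : REPred p) (hq : REPred q) : REPred fun a => p a ∧ q a := by
  obtain ⟨f, hf, hfm, hf2⟩ := exists_stage hp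
  obtain ⟨g, hg, hgm, hg2⟩ := exists_stage hq
  refine of_stage (f := fun a n => f a n && g a n)
    (Primrec.to_comp (Primrec.and.comp hf hg)) fun a => ?_
  rw [hf2, hg2]
  constructor
  · rintro ⟨⟨m, hm⟩, ⟨n, hn⟩⟩
    refine ⟨max m n, ?_⟩
    rw [Bool.and_eq_true]
    exact ⟨hfm _ _ _ (le_max_left _ _) hm, hgm _ _ _ (le_max_right _ _) hn⟩
  · rintro ⟨n, hn⟩
    rw [Bool.and_eq_true] at hn
    exact ⟨⟨n, hn.1⟩, ⟨n, hn.2⟩⟩

theorem or {p q : α → Prop} (hp : REPred p) (hq : REPred q) : REPred fun a => p a ∨ q a := by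
  obtain ⟨f, hf, hfm, hf2⟩ := exists_stage hp
  obtain ⟨g, hg, hgm, hg2⟩ := exists_stage hq
  refine of_stage (f := fun a n => f a n || g a n)
    (Primrec.to_comp (Primrec.or.comp hf hg)) fun a => ?_
  rw [hf2, hg2]
  constructor
  · rintro (⟨m, hm⟩ | ⟨n, hn⟩)
    · exact ⟨m, by simp [hm]⟩
    · exact ⟨n, by simp [hn]⟩
  · rintro ⟨n, hn⟩
    rw [Bool.or_eq_true] at hn
    rcases hn with h | h
    · exact Or.inl ⟨n, h⟩
    · exact Or.inr ⟨n, h⟩

theorem of_comp {p : α → Prop} (hp : ComputablePred p) : REPred p := hp.to_re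

theorem of_prim {p : α → Prop} (hp : PrimrecPred p) : REPred p := hp.computablePred.to_re

theorem cp_bool {f : α → Bool} (hf : Computable f) : ComputablePred fun a => f a = true :=
  Computable.computablePred (hf.of_eq fun a => by cases f a <;> rfl)

theorem of_bool {f : α → Bool} (hf : Computable f) : REPred fun a => f a = true :=
  (cp_bool hf).to_re

theorem const (P : Prop) : REPred fun _ : α => P := by
  by_cases h : P
  · exact (of_prim (Primrec.eq.comp (Primrec.const 0) (Primrec.const 0) :
      PrimrecPred fun _ : α => (0:ℕ) = 0)).of_eq fun a => by simp [h]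
  · exact (of_prim (Primrec.eq.comp (Primrec.const 0) (Primrec.const 1) :
      PrimrecPred fun _ : α => (0:ℕ) = 1)).of_eq fun a => by simp [h]

theorem ex {p : α × β → Prop} (hp : REPred p) : REPred fun a => ∃ b, p (a, b) := by
  obtain ⟨f, hf, hfm, hf2⟩ := exists_stage hp
  refine of_stage (f := fun a n => ((decode (α := β) n.unpair.1).map
    fun b => f (a, b) n.unpair.2).getD false) ?_ fun a => ?_
  · apply Primrec.to_comp
    refine Primrec.option_getD.comp (Primrec.option_map ?_ ?_) (Primrec.const false)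
    · exact Primrec.decode.comp (Primrec.fst.comp (Primrec.unpair.comp Primrec.snd))
    · refine Primrec₂.comp hf ?_ ?_
      · exact Primrec.pair (Primrec.fst.comp Primrec.fst) Primrec.snd
      · exact Primrec.snd.comp (Primrec.unpair.comp (Primrec.snd.comp Primrec.fst))
  · constructor
    · rintro ⟨b, hb⟩
      obtain ⟨n, hn⟩ := (hf2 _).1 hb
      exact ⟨Nat.pair (encode b) n, by simp [hn]⟩
    · rintro ⟨n, hn⟩
      cases hd : decode (α := β) n.unpair.1 with
      | none => simp [hd] at hn
      | some b =>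
        refine ⟨b, (hf2 _).2 ⟨n.unpair.2, ?_⟩⟩
        simpa [hd] using hn

theorem forall_mem {p : α × β → Prop} (hp : REPred p) :
    REPred fun q : α × List β => ∀ b ∈ q.2, p (q.1, b) := by
  obtain ⟨f, hf, hfm, hf2⟩ := exists_stage hp
  have hd : PrimrecPred fun q : (α × List β) × ℕ => ∀ b ∈ q.1.2, f (q.1.1, b) q.2 = true := by
    have h1 : PrimrecRel fun (b : β) (q : (α × List β) × ℕ) => f (q.1.1, b) q.2 = true := by
      refine Primrec.eq.comp (Primrec₂.comp hf ?_ ?_) (Primrec.const true)
      · exact Primrec.pair (Primrec.fst.comp (Primrec.fst.comp Primrec.snd)) Primrec.fst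
      · exact Primrec.snd.comp Primrec.snd
    have h2 := h1.forall_mem_list
    exact PrimrecPred.comp (f := fun q : (α × List β) × ℕ => (q.1.2, q)) h2
      (Primrec.pair (Primrec.snd.comp Primrec.fst) Primrec.id)
  have h3 : REPred fun q : (α × List β) × ℕ => ∀ b ∈ q.1.2, f (q.1.1, b) q.2 = true := of_prim hd
  refine (ex h3).of_eq fun q => ?_
  constructor
  · rintro ⟨n, hn⟩ b hb
    exact (hf2 _).2 ⟨n, hn b hb⟩
  · intro h
    have h4 : ∀ l : List β, (∀ b ∈ l, p (q.1, b)) → ∃ n, ∀ b ∈ l, f (q.1, b) n = true := by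
      intro l
      induction l with
      | nil => intro _; exact ⟨0, by simp⟩
      | cons b l ih =>
        intro hl
        obtain ⟨n, hn⟩ := ih fun b hb => hl b (by simp [hb])
        obtain ⟨m, hm⟩ := (hf2 _).1 (hl b (by simp))
        refine ⟨max m n, fun c hc => ?_⟩
        rcases List.mem_cons.1 hc with rfl | hc
        · exact hfm _ _ _ (le_max_left _ _) hm
        · exact hfm _ _ _ (le_max_right _ _) (hn c hc)
    exact h4 q.2 h

/-- finite conjunctions -/
theorem forall_finset {ι : Type} {s : Finset ι} {p : ι → α → Prop} (hp : ∀ i ∈ s, REPred (p i)) :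
    REPred fun a => ∀ i ∈ s, p i a := by
  classical
  induction s using Finset.induction_on with
  | empty => exact (const True).of_eq fun a => by simp
  | insert i s hi ih =>
    refine (and (hp i (by simp)) (ih fun j hj => hp j (by simp [hj]))).of_eq fun a => ?_
    simp

/-- finite disjunctions -/
theorem exists_finset {ι : Type} {s : Finset ι} {p : ι → α → Prop} (hp : ∀ i ∈ s, REPred (p i)) :
    REPred fun a => ∃ i ∈ s, p i a := by
  classical
  induction s using Finset.induction_on with
  | empty => exact (const False).of_eq fun a => by simp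
  | insert i s hi ih =>
    refine (or (hp i (by simp)) (ih fun j hj => hp j (by simp [hj]))).of_eq fun a => ?_
    simp

/-- the `e`-th c.e. set -/
def W (e : ℕ) : Set ℕ := {x | (Code.eval (ofNat Code e) x).Dom}

theorem re_W : REPred fun q : ℕ × ℕ => q.2 ∈ W q.1 := by
  refine of_stage (f := fun q n => (Code.evaln n (ofNat Code q.1) q.2).isSome) ?_ fun q => ?_
  · apply Primrec.to_comp
    apply Primrec.option_isSome.comp
    have h2 : Primrec fun q : (ℕ × ℕ) × ℕ => ((q.2, ofNat Code q.1.1), q.1.2) :=
      Primrec.pair (Primrec.pair Primrec.snd ((Primrec.ofNat Code).comp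
        (Primrec.fst.comp Primrec.fst))) (Primrec.snd.comp Primrec.fst)
    exact Code.primrec_evaln.comp h2
  · show (Code.eval (ofNat Code q.1) q.2).Dom ↔ _
    rw [Part.dom_iff_mem]
    constructor
    · rintro ⟨y, hy⟩
      obtain ⟨k, hk⟩ := Code.evaln_complete.1 hy
      exact ⟨k, Option.isSome_iff_exists.2 ⟨y, hk⟩⟩
    · rintro ⟨k, hk⟩
      obtain ⟨y, hy⟩ := Option.isSome_iff_exists.1 hk
      exact ⟨y, Code.evaln_sound hy⟩

/-- s-m-n for c.e. sets -/
theorem exists_smn {p : ℕ × ℕ → Prop} (hp : REPred p) :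
    ∃ f : ℕ → ℕ, Computable f ∧ ∀ e x, x ∈ W (f e) ↔ p (e, x) := by
  have h1 : Partrec fun a : ℕ × ℕ => (Part.assert (p a) fun _ => Part.some ()).map (fun _ => 0) :=
    Partrec.map hp (Computable.const 0).to₂
  have h2 : Partrec fun n : ℕ => ((Part.assert (p n.unpair) fun _ => Part.some ()).map
      (fun _ => 0) : Part ℕ) := h1.comp Primrec.unpair.to_comp
  obtain ⟨c, hc⟩ := Code.exists_code.1 (Partrec.nat_iff.1 h2)
  refine ⟨fun e => encode (Code.curry c e), ?_, ?_⟩
  · exact (Primrec.encode.comp (Code.primrec₂_curry.comp (Primrec.const c) Primrec.id)).to_comp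
  · intro e x
    show (Code.eval (ofNat Code (encode (Code.curry c e))) x).Dom ↔ _
    rw [ofNat_encode, Code.eval_curry, hc]
    simp [Part.assert]

/-- the recursion theorem for c.e. sets -/
theorem exists_fix {p : ℕ × ℕ → Prop} (hp : REPred p) : ∃ e, ∀ x, x ∈ W e ↔ p (e, x) := by
  have h1 : Partrec fun a : Code × ℕ =>
      ((Part.assert (p (encode a.1, a.2)) fun _ => Part.some ()).map (fun _ => 0) : Part ℕ) := by
    have h2 : REPred fun a : Code × ℕ => p (encode a.1, a.2) :=
      comp hp (f := fun a : Code × ℕ => (encode a.1, a.2))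
        (Computable.pair (Computable.encode.comp Computable.fst) Computable.snd)
    exact Partrec.map h2 (Computable.const 0).to₂
  obtain ⟨c, hc⟩ := Code.fixed_point₂ (f := fun (c : Code) (x : ℕ) =>
    ((Part.assert (p (encode c, x)) fun _ => Part.some ()).map (fun _ => 0) : Part ℕ)) h1
  refine ⟨encode c, fun x => ?_⟩
  show (Code.eval (ofNat Code (encode c)) x).Dom ↔ _
  rw [ofNat_encode, hc]
  simp [Part.assert]

theorem exists_index {p : ℕ → Prop} (hp : REPred p) : ∃ e, ∀ x, x ∈ W e ↔ p x := by
  obtain ⟨f, -, hf⟩ := exists_smn (p := fun q : ℕ × ℕ => p q.2) (comp hp Computable.snd)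
  exact ⟨f 0, fun x => hf 0 x⟩

/-- inductively derivable elements -/
inductive Der {σ : Type} (R : List σ → σ → Prop) : σ → Prop
  | mk (l : List σ) (x : σ) : R l x → (∀ y ∈ l, Der R y) → Der R x

/-- certificates -/
def Valid {σ : Type} (R : List σ → σ → Prop) : List (List σ × σ) → Prop
  | [] => True
  | e :: L => R e.1 e.2 ∧ (∀ y ∈ e.1, y ∈ L.map Prod.snd) ∧ Valid R L

theorem Valid.der {σ : Type} {R : List σ → σ → Prop} : ∀ {L : List (List σ × σ)}, Valid R L →
    ∀ x ∈ L.map Prod.snd, Der R x
  | [], _, x, hx => by simp at hx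
  | e :: L, h, x, hx => by
    obtain ⟨h1, h2, h3⟩ := h
    rw [List.map_cons, List.mem_cons] at hx
    rcases hx with rfl | hx
    · exact Der.mk e.1 e.2 h1 fun y hy => h3.der y (h2 y hy)
    · exact h3.der x hx

theorem Valid.append {σ : Type} {R : List σ → σ → Prop} : ∀ {L M : List (List σ × σ)},
    Valid R L → Valid R M → Valid R (L ++ M)
  | [], M, _, hM => hM
  | e :: L, M, hL, hM => by
    obtain ⟨h1, h2, h3⟩ := hL
    refine ⟨h1, fun y hy => ?_, h3.append hM⟩
    have := h2 y hy
    show y ∈ List.map Prod.snd (L ++ M)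
    rw [List.map_append, List.mem_append]
    exact Or.inl this

theorem Der.exists_valid {σ : Type} {R : List σ → σ → Prop} {x : σ} (h : Der R x) :
    ∃ L, Valid R L ∧ x ∈ L.map Prod.snd := by
  induction h with
  | mk l x hR hl ih =>
    have h1 : ∀ m : List σ, (∀ y ∈ m, y ∈ l) →
        ∃ L, Valid R L ∧ ∀ y ∈ m, y ∈ L.map Prod.snd := by
      intro m
      induction m with
      | nil => intro _; exact ⟨[], trivial, by simp⟩
      | cons y m ihm =>
        intro hm
        obtain ⟨L, hL, hL2⟩ := ihm fun z hz => hm z (by simp [hz])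
        obtain ⟨M, hM, hM2⟩ := ih y (hm y (by simp))
        refine ⟨M ++ L, hM.append hL, fun z hz => ?_⟩
        rw [List.map_append, List.mem_append]
        rcases List.mem_cons.1 hz with rfl | hz
        · exact Or.inl hM2
        · exact Or.inr (hL2 z hz)
    obtain ⟨L, hL, hL2⟩ := h1 l fun y hy => hy
    exact ⟨(l, x) :: L, ⟨hR, hL2, hL⟩, by simp⟩

theorem der_iff {σ : Type} {R : List σ → σ → Prop} {x : σ} :
    Der R x ↔ ∃ L, Valid R L ∧ x ∈ L.map Prod.snd :=
  ⟨Der.exists_valid, fun ⟨_, hL, hx⟩ => hL.der _ hx⟩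

theorem valid_iff {σ : Type} (R : List σ → σ → Prop) (L : List (List σ × σ)) :
    Valid R L ↔ (∀ e ∈ L, R e.1 e.2) ∧
      ∀ i < L.length, ∀ y ∈ ((L.drop i).head?.map Prod.fst).getD [],
        y ∈ (L.drop (i + 1)).map Prod.snd := by
  induction L with
  | nil => simp [Valid]
  | cons e L ih =>
    simp only [Valid, ih]
    constructor
    · rintro ⟨h1, h2, h3, h4⟩
      refine ⟨?_, ?_⟩
      · intro e' he'
        rcases List.mem_cons.1 he' with rfl | he'
        · exact h1
        · exact h3 e' he'
      · intro i hi y hy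
        cases i with
        | zero => simpa using h2 y (by simpa using hy)
        | succ i =>
          have hi' : i < L.length := by simpa using hi
          simpa using h4 i hi' y (by simpa using hy)
    · rintro ⟨h1, h2⟩
      refine ⟨h1 e (by simp), ?_, fun e' he' => h1 e' (by simp [he']), ?_⟩
      · intro y hy
        simpa using h2 0 (by simp) y (by simpa using hy)
      · intro i hi y hy
        simpa using h2 (i + 1) (by simpa using hi) y (by simpa using hy)

theorem re_valid {σ : Type} [Primcodable σ] {p : α × (List σ × σ) → Prop} (hp : REPred p) :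
    REPred fun q : α × List (List σ × σ) => Valid (fun l x => p (q.1, l, x)) q.2 := by
  classical
  have h1 : REPred fun q : α × List (List σ × σ) => ∀ e ∈ q.2, p (q.1, e) := forall_mem hp
  have h2 : PrimrecPred fun L : List (List σ × σ) =>
      ∀ i < L.length, ∀ y ∈ ((L.drop i).head?.map Prod.fst).getD [],
        y ∈ (L.drop (i + 1)).map Prod.snd := by
    have hm : PrimrecRel fun (y : σ) (l : List σ) => y ∈ l := by
      have h5 : PrimrecRel fun (l : List σ) (y : σ) => ∃ a ∈ l, a = y :=
        PrimrecRel.exists_mem_list (R := fun a b : σ => a = b) Primrec.eq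
      exact (PrimrecPred.comp (f := fun q : σ × List σ => (q.2, q.1)) h5
        (Primrec.pair Primrec.snd Primrec.fst)).of_eq fun q => by simp
    have h3 : PrimrecRel fun (y : σ) (q : ℕ × List (List σ × σ)) =>
        y ∈ (q.2.drop (q.1 + 1)).map Prod.snd := by
      refine PrimrecPred.comp (f := fun q : σ × ℕ × List (List σ × σ) =>
        (q.1, (q.2.2.drop (q.2.1 + 1)).map Prod.snd)) hm ?_
      refine Primrec.pair Primrec.fst (Primrec.list_map ?_ (Primrec.snd.comp Primrec.snd).to₂)
      exact Primrec.list_drop.comp (Primrec.succ.comp (Primrec.fst.comp Primrec.snd))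
        (Primrec.snd.comp Primrec.snd)
    have h4 : PrimrecRel fun (i : ℕ) (L : List (List σ × σ)) =>
        ∀ y ∈ ((L.drop i).head?.map Prod.fst).getD [], y ∈ (L.drop (i + 1)).map Prod.snd := by
      refine PrimrecPred.comp (f := fun q : ℕ × List (List σ × σ) =>
        (((q.2.drop q.1).head?.map Prod.fst).getD [], q)) h3.forall_mem_list ?_
      refine Primrec.pair (Primrec.option_getD.comp (Primrec.option_map ?_
        (Primrec.fst.comp Primrec.snd).to₂) (Primrec.const [])) Primrec.id
      exact Primrec.list_head?.comp (Primrec.list_drop.comp Primrec.fst Primrec.snd)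
    have h6 := h4.forall_mem_list
    exact (PrimrecPred.comp (f := fun L : List (List σ × σ) => (List.range L.length, L)) h6
      (Primrec.pair (Primrec.list_range.comp Primrec.list_length) Primrec.id)).of_eq
      fun L => by simp only [List.mem_range]
  refine (and h1 (comp (of_prim h2) (f := fun q : α × List (List σ × σ) => q.2)
    Computable.snd)).of_eq fun q => ?_
  rw [valid_iff]

theorem re_der {σ : Type} [Primcodable σ] {p : α × (List σ × σ) → Prop} (hp : REPred p) :
    REPred fun q : α × σ => Der (fun l x => p (q.1, l, x)) q.2 := by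
  classical
  have hm : PrimrecPred fun q : σ × List (List σ × σ) => q.1 ∈ q.2.map Prod.snd := by
    have h5 : PrimrecRel fun (l : List σ) (y : σ) => ∃ a ∈ l, a = y :=
      PrimrecRel.exists_mem_list (R := fun a b : σ => a = b) Primrec.eq
    exact (PrimrecPred.comp (f := fun q : σ × List (List σ × σ) => (q.2.map Prod.snd, q.1)) h5
      (Primrec.pair (Primrec.list_map Primrec.snd (Primrec.snd.comp Primrec.snd).to₂)
        Primrec.fst)).of_eq fun q => by simp
  have h1 : REPred fun q : (α × σ) × List (List σ × σ) =>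
      Valid (fun l x => p (q.1.1, l, x)) q.2 ∧ q.1.2 ∈ q.2.map Prod.snd := by
    refine and ?_ ?_
    · exact comp (re_valid hp) (f := fun q : (α × σ) × List (List σ × σ) => (q.1.1, q.2))
        (Primrec.to_comp (Primrec.pair (Primrec.fst.comp Primrec.fst) Primrec.snd))
    · exact comp (of_prim hm) (f := fun q : (α × σ) × List (List σ × σ) => (q.1.2, q.2))
        (Primrec.to_comp (Primrec.pair (Primrec.snd.comp Primrec.fst) Primrec.snd))
  refine (ex h1).of_eq fun q => ?_
  exact (der_iff (R := fun l x => p (q.1, l, x)) (x := q.2)).symm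

end V11259.RE
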