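import Mathlib
import Pool.Agent.V11259.RE

/-!
A computable linear order of type `ω + ω*` whose cut is not computable.
-/

set_option autoImplicit false

open Encodable Denumerable
open Nat.Partrec (Code)

namespace V11259.OmegaStar

/-- program `e` halts on `0` within `s` steps -/
def hs (e s : ℕ) : Bool := (Code.evaln s (ofNat Code e) 0).isSome

theorem hs_prim : Primrec₂ hs := by
  unfold hs
  apply Primrec.option_isSome.comp
  have h2 : Primrec fun q : ℕ × ℕ => ((q.2, ofNat Code q.1), 0) :=
    Primrec.pair (Primrec.pair Primrec.snd ((Primrec.ofNat Code).comp Primrec.fst))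
      (Primrec.const 0)
  exact Code.primrec_evaln.comp h2

theorem hs_mono {e s t : ℕ} (h : s ≤ t) (hs' : hs e s = true) : hs e t = true := by
  unfold hs at *
  rw [Option.isSome_iff_exists] at *
  obtain ⟨x, hx⟩ := hs'
  exact ⟨x, Code.evaln_mono h hx⟩

/-- program `e` halts on `0` -/
def Halts (e : ℕ) : Prop := ∃ s, hs e s = true

theorem not_computable_halts : ¬ ComputablePred Halts := by
  intro h
  apply ComputablePred.halting_problem 0
  have h1 : ComputablePred fun c : Code => Halts (encode c) := by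
    obtain ⟨f, hf, hf2⟩ := ComputablePred.computable_iff.1 h
    refine ComputablePred.computable_iff.2 ⟨fun c => f (encode c),
      hf.comp Computable.encode, ?_⟩
    rw [hf2]
  refine h1.of_eq fun c => ?_
  unfold Halts hs
  simp only [ofNat_encode]
  rw [Part.dom_iff_mem]
  constructor
  · rintro ⟨k, hk⟩
    obtain ⟨y, hy⟩ := Option.isSome_iff_exists.1 hk
    exact ⟨y, Code.evaln_sound hy⟩
  · rintro ⟨y, hy⟩
    obtain ⟨k, hk⟩ := Code.evaln_complete.1 hy
    exact ⟨k, Option.isSome_iff_exists.2 ⟨y, hk⟩⟩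

/-- program `e` halts at stage exactly `s` -/
def ent (e s : ℕ) : Bool := hs e s && !hs e (s - 1)

theorem ent_prim : Primrec₂ ent := by
  unfold ent
  exact Primrec.and.comp hs_prim (Primrec.not.comp (hs_prim.comp Primrec.fst
    (Primrec.pred.comp Primrec.snd)))

/-- the least program that halts at stage exactly `s` -/
def k (s : ℕ) : ℕ := if s = 0 then 0 else (List.range (s + 1)).findIdx fun e => ent e s

theorem k_prim : Primrec k := by
  unfold k
  refine Primrec.ite (Primrec.eq.comp Primrec.id (Primrec.const 0)) (Primrec.const 0) ?_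
  exact Primrec.list_findIdx (Primrec.list_range.comp Primrec.succ)
    (ent_prim.comp Primrec.snd Primrec.fst).to₂

theorem k_zero : k 0 = 0 := rfl

theorem k_le {e s : ℕ} (hs0 : s ≠ 0) (he : e ≤ s) (h : ent e s = true) : k s ≤ e := by
  unfold k
  rw [if_neg hs0]
  by_contra hn
  have h1 : e < (List.range (s + 1)).findIdx fun e => ent e s := by omega
  have h2 := List.not_of_lt_findIdx h1
  simp [h] at h2

theorem ent_k {s : ℕ} (hs0 : s ≠ 0) (h : k s ≤ s) : ent (k s) s = true := by
  unfold k at *
  rw [if_neg hs0] at *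
  have h1 : (List.range (s + 1)).findIdx (fun e => ent e s) < (List.range (s + 1)).length := by
    rw [List.length_range]; omega
  have h2 := List.findIdx_getElem (w := h1)
  simpa using h2

theorem k_large (e : ℕ) : ∃ N, ∀ m, N < m → e < k m := by
  induction e with
  | zero =>
    by_cases h : Halts 0
    · obtain ⟨s, hs'⟩ := h
      refine ⟨s, fun m hm => ?_⟩
      by_contra hk
      have hk0 : k m = 0 := by omega
      have h1 := ent_k (s := m) (by omega) (by omega)
      rw [hk0] at h1
      unfold ent at h1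
      rw [hs_mono (show s ≤ m - 1 by omega) hs'] at h1
      simp at h1
    · refine ⟨0, fun m hm => ?_⟩
      by_contra hk
      have hk0 : k m = 0 := by omega
      have h1 := ent_k (s := m) (by omega) (by omega)
      rw [hk0] at h1
      unfold ent at h1
      rw [Bool.and_eq_true] at h1
      exact h ⟨m, h1.1⟩
  | succ e ih =>
    obtain ⟨N, hN⟩ := ih
    by_cases h : Halts (e + 1)
    · obtain ⟨s, hs'⟩ := h
      refine ⟨max N (max s (e + 1)), fun m hm => ?_⟩
      have h3 := hN m (by omega)
      by_contra hk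
      have hk0 : k m = e + 1 := by omega
      have h1 := ent_k (s := m) (by omega) (by omega)
      rw [hk0] at h1
      unfold ent at h1
      rw [hs_mono (show s ≤ m - 1 by omega) hs'] at h1
      simp at h1
    · refine ⟨max N (e + 1), fun m hm => ?_⟩
      have h3 := hN m (by omega)
      by_contra hk
      have hk0 : k m = e + 1 := by omega
      have h1 := ent_k (s := m) (by omega) (by omega)
      rw [hk0] at h1
      unfold ent at h1
      rw [Bool.and_eq_true] at h1
      exact h ⟨m, h1.1⟩

/-- stage `n` still looks true at stage `m` -/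
def L (n m : ℕ) : Prop := ∀ j, n < j → j ≤ m → k n ≤ k j

instance : DecidableRel L := fun n m =>
  decidable_of_iff (∀ j < m + 1, n < j → k n ≤ k j)
    ⟨fun h j h1 h2 => h j (by omega) h1, fun h j h1 h2 => h j h2 (by omega)⟩

theorem L_prim : PrimrecRel L := by
  have h1 : PrimrecRel fun (j : ℕ) (q : ℕ) => ¬ q < j ∨ k q ≤ k j := by
    refine PrimrecPred.or (PrimrecPred.not (Primrec.nat_lt.comp Primrec.snd Primrec.fst)) ?_
    exact Primrec.nat_le.comp (k_prim.comp Primrec.snd) (k_prim.comp Primrec.fst)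
  have h2 := h1.forall_lt
  refine (PrimrecPred.comp (f := fun q : ℕ × ℕ => (q.2 + 1, q.1)) h2
    ((Primrec.succ.comp Primrec.snd).pair Primrec.fst)).of_eq fun q => ?_
  simp only [L]
  constructor
  · intro h j h3 h4
    rcases h j (by omega) with h5 | h5
    · exact absurd h3 h5
    · exact h5
  · intro h j hj
    by_cases h3 : q.1 < j
    · exact Or.inr (h j h3 (by omega))
    · exact Or.inl h3

/-- stage `n` is true -/
def T (n : ℕ) : Prop := ∀ j, n < j → k n ≤ k j

/-- the order -/
def le (n m : ℕ) : Prop := n = m ∨ (n < m ∧ L n m) ∨ (m < n ∧ ¬ L m n)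

instance : DecidableRel le := fun n m => by unfold le; infer_instance

theorem le_prim : PrimrecRel le := by
  unfold le
  refine PrimrecPred.or (Primrec.eq.comp Primrec.fst Primrec.snd) (PrimrecPred.or ?_ ?_)
  · exact PrimrecPred.and (Primrec.nat_lt.comp Primrec.fst Primrec.snd)
      (L_prim.comp Primrec.fst Primrec.snd)
  · exact PrimrecPred.and (Primrec.nat_lt.comp Primrec.snd Primrec.fst)
      (PrimrecPred.not (L_prim.comp Primrec.snd Primrec.fst))

theorem L.trans {a b c : ℕ} (h1 : L a b) (hab : a < b) (h2 : L b c) : L a c := by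
  intro j hj hjc
  by_cases hjb : j ≤ b
  · exact h1 j hj hjb
  · exact (h1 b hab le_rfl).trans (h2 j (by omega) hjc)

theorem L.anti {a b c : ℕ} (h : L a c) (hbc : b ≤ c) : L a b := fun j hj hjb =>
  h j hj (hjb.trans hbc)

theorem le_refl (a : ℕ) : le a a := Or.inl rfl

theorem le_total (a b : ℕ) : le a b ∨ le b a := by
  unfold le
  rcases lt_trichotomy a b with h | h | h
  · by_cases h1 : L a b
    · exact Or.inl (Or.inr (Or.inl ⟨h, h1⟩))
    · exact Or.inr (Or.inr (Or.inr ⟨h, h1⟩))
  · exact Or.inl (Or.inl h)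
  · by_cases h1 : L b a
    · exact Or.inr (Or.inr (Or.inl ⟨h, h1⟩))
    · exact Or.inl (Or.inr (Or.inr ⟨h, h1⟩))

theorem le_antisymm {a b : ℕ} (h1 : le a b) (h2 : le b a) : a = b := by
  rcases h1 with h1 | ⟨h1, h3⟩ | ⟨h1, h3⟩
  · exact h1
  · rcases h2 with h2 | ⟨h2, h4⟩ | ⟨h2, h4⟩
    · exact h2.symm
    · omega
    · exact absurd h3 h4
  · rcases h2 with h2 | ⟨h2, h4⟩ | ⟨h2, h4⟩
    · exact h2.symm
    · exact absurd h4 h3
    · omega

theorem le_trans {a b c : ℕ} (h1 : le a b) (h2 : le b c) : le a c := by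
  rcases h1 with rfl | ⟨h1, h3⟩ | ⟨h1, h3⟩
  · exact h2
  · rcases h2 with rfl | ⟨h2, h4⟩ | ⟨h2, h4⟩
    · exact Or.inr (Or.inl ⟨h1, h3⟩)
    · exact Or.inr (Or.inl ⟨h1.trans h2, h3.trans h1 h4⟩)
    · -- `a < b`, `c < b`
      rcases lt_trichotomy a c with h | h | h
      · exact Or.inr (Or.inl ⟨h, h3.anti (by omega)⟩)
      · exact Or.inl h
      · exact Or.inr (Or.inr ⟨h, fun h5 => h4 (h5.trans h h3)⟩)
  · rcases h2 with rfl | ⟨h2, h4⟩ | ⟨h2, h4⟩
    · exact Or.inr (Or.inr ⟨h1, h3⟩)
    · -- `b < a`, `b < c`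
      rcases lt_trichotomy a c with h | h | h
      · exact absurd (h4.anti h.le) h3
      · exact Or.inl h
      · exact Or.inr (Or.inr ⟨h, fun h5 => h3 (h4.trans h2 h5)⟩)
    · exact Or.inr (Or.inr ⟨h2.trans h1, fun h5 => h4 (h5.anti h1.le)⟩)

/-- below a true stage there are only smaller numbers -/
theorem T.le_iff {n m : ℕ} (h : T n) (hm : n ≤ m) : le n m := by
  rcases Nat.eq_or_lt_of_le hm with h1 | h1
  · exact Or.inl h1
  · exact Or.inr (Or.inl ⟨h1, fun j hj _ => h j hj⟩)

/-- the elements above a false stage are bounded -/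
theorem bounded_above {n : ℕ} (h : ¬ T n) : ∃ N, ∀ m, le n m → m < N := by
  unfold T at h
  push Not at h
  obtain ⟨j, hj, hk⟩ := h
  refine ⟨j, fun m hm => ?_⟩
  by_contra hmj
  rcases hm with rfl | ⟨h1, h2⟩ | ⟨h1, h2⟩
  · omega
  · have := h2 j hj (by omega); omega
  · omega

theorem exists_true (N : ℕ) : ∃ n, N < n ∧ T n := by
  classical
  have hex : ∃ v, ∃ n, N < n ∧ k n = v := ⟨_, N + 1, by omega, rfl⟩
  obtain ⟨n, hn, hv⟩ := Nat.find_spec hex
  refine ⟨n, hn, fun j hj => ?_⟩
  rw [hv]
  exact Nat.find_min' hex ⟨j, by omega, rfl⟩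

theorem halts_iff {n e : ℕ} (hT : T n) (hk : e < k n) (hn : e ≤ n) :
    Halts e ↔ hs e n = true := by
  classical
  constructor
  · intro h
    have hmin := Nat.find_spec h
    set m := Nat.find h with hm
    by_contra hc
    have hmn : n < m := by
      by_contra h1
      exact hc (hs_mono (by omega) hmin)
    have h2 : ¬ hs e (m - 1) = true := Nat.find_min h (by omega)
    have h3 : ent e m = true := by
      unfold ent
      rw [hmin]
      simpa using h2
    have h4 := k_le (by omega) (by omega) h3
    have h5 := hT m hmn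
    omega
  · intro h
    exact ⟨n, h⟩

theorem not_computable_T : ¬ ComputablePred T := by
  classical
  intro hT
  apply not_computable_halts
  have hex : ∀ e : ℕ, ∃ n, T n ∧ e < k n ∧ e ≤ n := by
    intro e
    obtain ⟨N, hN⟩ := k_large e
    obtain ⟨n, hn, hTn⟩ := exists_true (max N e)
    exact ⟨n, hTn, hN n (by omega), by omega⟩
  obtain ⟨D, hD, hD2⟩ := ComputablePred.computable_iff.1 hT
  have h1 : Computable fun e => Nat.find (hex e) := by
    refine Computable.find (P := fun e n => T n ∧ e < k n ∧ e ≤ n) ?_ hex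
    have h2 : Computable fun p : ℕ × ℕ =>
        (D p.2 && (decide (p.1 < k p.2) && decide (p.1 ≤ p.2))) := by
      refine (Primrec.and.to_comp).comp (hD.comp Computable.snd) ?_
      refine Primrec.to_comp (Primrec.and.comp ?_ ?_)
      · exact (Primrec.nat_lt.comp Primrec.fst (k_prim.comp Primrec.snd)).decide
      · exact (Primrec.nat_le.comp Primrec.fst Primrec.snd).decide
    refine ComputablePred.computable_iff.2 ⟨_, h2, ?_⟩
    funext p
    simp [hD2]
  have h3 : Computable fun e => hs e (Nat.find (hex e)) :=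
    (hs_prim.to_comp).comp Computable.id h1
  refine ComputablePred.computable_iff.2 ⟨_, h3, ?_⟩
  funext e
  obtain ⟨h4, h5, h6⟩ := Nat.find_spec (hex e)
  exact propext (halts_iff h4 h5 h6)

end V11259.OmegaStar
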