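import Mathlib
import Pool.Agent.V11259.Enum
import Pool.Agent.V11259.OmegaStar

/-!
A computable copy of the algebra of finite and cofinite sets in which finiteness is not
computable.
-/

set_option autoImplicit false

open Encodable Denumerable

namespace V11259.FinCof

open V11259.OmegaStar (le T k)

/-- the algebra of finite and cofinite sets of natural numbers -/
def FC : BooleanSubalgebra (Set ℕ) where
  carrier := {X | X.Finite ∨ Xᶜ.Finite}
  supClosed' := by
    rintro X hX Y hY
    rcases hX with hX | hX
    · rcases hY with hY | hY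
      · exact Or.inl (hX.union hY)
      · exact Or.inr (hY.subset (Set.compl_subset_compl.2 Set.subset_union_right))
    · exact Or.inr (hX.subset (Set.compl_subset_compl.2 Set.subset_union_left))
  infClosed' := by
    rintro X hX Y hY
    rcases hX with hX | hX
    · exact Or.inl (hX.subset Set.inter_subset_left)
    · rcases hY with hY | hY
      · exact Or.inl (hY.subset Set.inter_subset_right)
      · refine Or.inr ?_
        show ((X ∩ Y)ᶜ).Finite
        rw [Set.compl_inter]
        exact hX.union hY
  compl_mem' := by
    rintro X hX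
    rcases hX with hX | hX
    · exact Or.inr (by rwa [compl_compl])
    · exact Or.inl hX
  bot_mem' := Or.inl Set.finite_empty

theorem mem_FC {X : Set ℕ} : X ∈ FC ↔ X.Finite ∨ Xᶜ.Finite := Iff.rfl

/-- the number of entries of `l` that are below `x` -/
def cnt (l : List ℕ) (x : ℕ) : ℕ := (l.filter fun s => decide (le s x)).length

/-- the set coded by a list -/
def X (l : List ℕ) : Set ℕ := {x | Odd (cnt l x)}

theorem cnt_append (l m : List ℕ) (x : ℕ) : cnt (l ++ m) x = cnt l x + cnt m x := by
  simp [cnt]

theorem cnt_cons (s : ℕ) (l : List ℕ) (x : ℕ) :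
    cnt (s :: l) x = (if le s x then 1 else 0) + cnt l x := by
  by_cases h : le s x
  · simp [cnt, h]; omega
  · simp [cnt, h]

theorem zero_le' (x : ℕ) : le 0 x := by
  have h : T 0 := fun j _ => by rw [OmegaStar.k_zero]; exact Nat.zero_le _
  exact h.le_iff (Nat.zero_le x)

/-- the set of elements above `s` -/
def up (s : ℕ) : Set ℕ := {x | le s x}

theorem up_true {s : ℕ} (h : T s) : ((up s)ᶜ).Finite := by
  refine (Set.finite_lt_nat s).subset fun x hx => ?_
  by_contra h1
  have h1 : ¬ x < s := h1
  exact hx (h.le_iff (by omega))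

theorem up_false {s : ℕ} (h : ¬ T s) : (up s).Finite := by
  obtain ⟨N, hN⟩ := OmegaStar.bounded_above h
  exact (Set.finite_lt_nat N).subset fun x hx => hN x hx

theorem up_mem (s : ℕ) : up s ∈ FC := by
  by_cases h : T s
  · exact Or.inr (up_true h)
  · exact Or.inl (up_false h)

theorem symmDiff_mem {A B : Set ℕ} (hA : A ∈ FC) (hB : B ∈ FC) : symmDiff A B ∈ FC :=
  BooleanSubalgebra.sup_mem (BooleanSubalgebra.sdiff_mem hA hB)
    (BooleanSubalgebra.sdiff_mem hB hA)

theorem X_nil : X [] = ∅ := by ext x; simp [X, cnt]

theorem X_append (l m : List ℕ) : X (l ++ m) = symmDiff (X l) (X m) := by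
  ext x
  simp only [X, Set.mem_symmDiff, Set.mem_ofPred_eq, cnt_append]
  rw [Nat.odd_add]
  simp only [← Nat.not_odd_iff_even]
  tauto

theorem X_single (s : ℕ) : X [s] = up s := by
  ext x
  simp only [X, up, Set.mem_ofPred_eq, cnt_cons]
  by_cases h : le s x
  · simp [h, cnt]
  · simp [h, cnt]

theorem X_cons (s : ℕ) (l : List ℕ) : X (s :: l) = symmDiff (up s) (X l) := by
  rw [← X_single, ← X_append]; rfl

theorem X_mem (l : List ℕ) : X l ∈ FC := by
  induction l with
  | nil => rw [X_nil]; exact Or.inl Set.finite_empty
  | cons s l ih => rw [X_cons]; exact symmDiff_mem (up_mem s) ih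

theorem X_compl (l : List ℕ) : X (0 :: l) = (X l)ᶜ := by
  rw [X_cons]
  have : up 0 = Set.univ := by ext x; simp [up, zero_le']
  rw [this]
  ext x
  simp [Set.mem_symmDiff]

/-- the greater of two elements -/
def mx (s t : ℕ) : ℕ := if le s t then t else s

theorem le_mx {s t x : ℕ} : le (mx s t) x ↔ le s x ∧ le t x := by
  unfold mx
  by_cases h : le s t
  · rw [if_pos h]
    exact ⟨fun h1 => ⟨OmegaStar.le_trans h h1, h1⟩, fun h1 => h1.2⟩
  · rw [if_neg h]
    have h2 : le t s := (OmegaStar.le_total s t).resolve_left h
    exact ⟨fun h1 => ⟨h1, OmegaStar.le_trans h2 h1⟩, fun h1 => h1.1⟩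

/-- code of the intersection -/
def inter (l m : List ℕ) : List ℕ := l.flatMap fun s => m.map fun t => mx s t

theorem cnt_map_mx (s : ℕ) (m : List ℕ) (x : ℕ) :
    cnt (m.map fun t => mx s t) x = if le s x then cnt m x else 0 := by
  induction m with
  | nil => simp [cnt]
  | cons t m ih =>
    rw [List.map_cons, cnt_cons, ih, cnt_cons]
    by_cases h : le s x
    · by_cases h2 : le t x
      · simp [le_mx, h, h2]
      · simp [le_mx, h, h2]
    · simp [le_mx, h]

theorem cnt_inter (l m : List ℕ) (x : ℕ) : cnt (inter l m) x = cnt l x * cnt m x := by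
  induction l with
  | nil => simp [inter, cnt]
  | cons s l ih =>
    have : inter (s :: l) m = (m.map fun t => mx s t) ++ inter l m := by simp [inter]
    rw [this, cnt_append, ih, cnt_map_mx, cnt_cons]
    by_cases h : le s x
    · simp [h]; ring
    · simp [h]

theorem X_inter (l m : List ℕ) : X (inter l m) = X l ∩ X m := by
  ext x
  simp only [X, Set.mem_inter_iff, Set.mem_ofPred_eq, cnt_inter, Nat.odd_mul]

theorem X_union (l m : List ℕ) :
    X (0 :: inter (0 :: l) (0 :: m)) = X l ∪ X m := by
  rw [X_compl, X_inter, X_compl, X_compl, Set.compl_inter, compl_compl, compl_compl]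

/-- emptiness can be tested at the points of the list -/
theorem X_eq_empty {l : List ℕ} : X l = ∅ ↔ ∀ x ∈ l, ¬ Odd (cnt l x) := by
  constructor
  · intro h x _ h1
    have : x ∈ X l := h1
    rw [h] at this
    exact this
  · intro h
    ext y
    simp only [X, Set.mem_ofPred_eq, Set.mem_empty_iff_false, iff_false]
    intro hy
    -- the greatest entry below `y`
    have key : ∀ m : List ℕ, (∀ s ∈ m, ¬ le s y) ∨ ∃ s ∈ m, le s y ∧ ∀ t ∈ m, le t y → le t s := by
      intro m
      induction m with
      | nil => left; simp
      | cons a m ih =>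
        by_cases ha : le a y
        · right
          rcases ih with ih | ⟨s, hs, hsy, hmax⟩
          · refine ⟨a, by simp, ha, fun t ht hty => ?_⟩
            rcases List.mem_cons.1 ht with rfl | ht
            · exact OmegaStar.le_refl _
            · exact absurd hty (ih t ht)
          · rcases OmegaStar.le_total a s with h1 | h1
            · refine ⟨s, by simp [hs], hsy, fun t ht hty => ?_⟩
              rcases List.mem_cons.1 ht with rfl | ht
              · exact h1
              · exact hmax t ht hty
            · refine ⟨a, by simp, ha, fun t ht hty => ?_⟩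
              rcases List.mem_cons.1 ht with rfl | ht
              · exact OmegaStar.le_refl _
              · exact OmegaStar.le_trans (hmax t ht hty) h1
        · rcases ih with ih | ⟨s, hs, hsy, hmax⟩
          · left
            intro s hs
            rcases List.mem_cons.1 hs with rfl | hs
            · exact ha
            · exact ih s hs
          · right
            refine ⟨s, by simp [hs], hsy, fun t ht hty => ?_⟩
            rcases List.mem_cons.1 ht with rfl | ht
            · exact absurd hty ha
            · exact hmax t ht hty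
    rcases key l with h1 | ⟨s, hs, hsy, hmax⟩
    · have : cnt l y = 0 := by
        unfold cnt
        rw [List.length_eq_zero_iff, List.filter_eq_nil_iff]
        intro s hs
        simpa using h1 s hs
      rw [this] at hy
      simp at hy
    · have : cnt l y = cnt l s := by
        unfold cnt
        congr 1
        apply List.filter_congr
        intro t ht
        rw [decide_eq_decide]
        exact ⟨fun h2 => hmax t ht h2, fun h2 => OmegaStar.le_trans h2 hsy⟩
      rw [this] at hy
      exact h s hs hy

theorem X_eq {l m : List ℕ} : X l = X m ↔ ∀ x ∈ l ++ m, ¬ Odd (cnt (l ++ m) x) := by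
  rw [← X_eq_empty, X_append]
  exact symmDiff_eq_bot.symm

/-! every finite or cofinite set has a code -/

theorem single_code (x : ℕ) : ∃ l, X l = {x} := by
  classical
  by_cases h : ∃ y, le x y ∧ y ≠ x ∧ {z | le x z ∧ z ≠ x ∧ le z y}.Finite
  · obtain ⟨y, hxy, hyx, hfin⟩ := h
    -- the least element above `x`
    obtain ⟨z, hz1, hz2⟩ : ∃ z, (le x z ∧ z ≠ x) ∧ ∀ w, le x w → w ≠ x → le z w := by
      have hne : hfin.toFinset.Nonempty := ⟨y, by
        rw [Set.Finite.mem_toFinset]; exact ⟨hxy, hyx, OmegaStar.le_refl y⟩⟩
      have hmin : ∀ F : Finset ℕ, F.Nonempty → ∃ z ∈ F, ∀ w ∈ F, le z w := by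
        intro F hF
        induction F using Finset.induction_on with
        | empty => exact absurd hF (by simp)
        | insert a F ha ih =>
          by_cases hF' : F.Nonempty
          · obtain ⟨z, hz, hzm⟩ := ih hF'
            rcases OmegaStar.le_total a z with h1 | h1
            · refine ⟨a, by simp, fun w hw => ?_⟩
              rcases Finset.mem_insert.1 hw with rfl | hw
              · exact OmegaStar.le_refl _
              · exact OmegaStar.le_trans h1 (hzm w hw)
            · refine ⟨z, by simp [hz], fun w hw => ?_⟩
              rcases Finset.mem_insert.1 hw with rfl | hw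
              · exact h1
              · exact hzm w hw
          · refine ⟨a, by simp, fun w hw => ?_⟩
            rcases Finset.mem_insert.1 hw with rfl | hw
            · exact OmegaStar.le_refl _
            · exact absurd ⟨w, hw⟩ hF'
      obtain ⟨z, hz, hzm⟩ := hmin _ hne
      rw [Set.Finite.mem_toFinset] at hz
      refine ⟨z, ⟨hz.1, hz.2.1⟩, fun w hw1 hw2 => ?_⟩
      rcases OmegaStar.le_total w y with h1 | h1
      · exact hzm w (by rw [Set.Finite.mem_toFinset]; exact ⟨hw1, hw2, h1⟩)
      · exact OmegaStar.le_trans hz.2.2 h1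
    refine ⟨[x, z], ?_⟩
    rw [X_cons, X_single]
    ext w
    simp only [Set.mem_symmDiff, up, Set.mem_ofPred_eq, Set.mem_singleton_iff]
    constructor
    · rintro (⟨h1, h2⟩ | ⟨h1, h2⟩)
      · by_contra h3
        exact h2 (hz2 w h1 h3)
      · exact absurd (OmegaStar.le_trans hz1.1 h1) h2
    · rintro rfl
      left
      exact ⟨OmegaStar.le_refl _, fun h1 => hz1.2 (OmegaStar.le_antisymm h1 hz1.1)⟩
  · -- then `x` is the greatest element
    refine ⟨[x], ?_⟩
    rw [X_single]
    ext w
    simp only [up, Set.mem_ofPred_eq, Set.mem_singleton_iff]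
    constructor
    · intro h1
      by_contra h2
      -- find a bound
      by_cases hT : T x
      · obtain ⟨y, hy, hTy⟩ := OmegaStar.exists_true x
        refine h ⟨y, hT.le_iff hy.le, by omega, ?_⟩
        refine (Set.finite_le_nat y).subset fun z hz => ?_
        obtain ⟨-, -, hz⟩ := hz
        by_contra h3
        have h3 : ¬ z ≤ y := h3
        have h4 := hTy.le_iff (show y ≤ z by omega)
        exact h3 (OmegaStar.le_antisymm hz h4).le
      · obtain ⟨N, hN⟩ := OmegaStar.bounded_above hT
        exact h ⟨w, h1, h2, (Set.finite_lt_nat N).subset fun z hz => hN z hz.1⟩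
    · rintro rfl
      exact OmegaStar.le_refl _

theorem exists_code {A : Set ℕ} (hA : A ∈ FC) : ∃ l, X l = A := by
  have hfin : ∀ F : Set ℕ, F.Finite → ∃ l, X l = F := by
    intro F hF
    induction F, hF using Set.Finite.induction_on with
    | empty => exact ⟨[], X_nil⟩
    | @insert a F _ _ ih =>
      obtain ⟨l, hl⟩ := ih
      obtain ⟨m, hm⟩ := single_code a
      exact ⟨_, by rw [X_union m l, hl, hm]; rfl⟩
  rcases hA with hA | hA
  · exact hfin A hA
  · obtain ⟨l, hl⟩ := hfin _ hA
    exact ⟨0 :: l, by rw [X_compl, hl, compl_compl]⟩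

/-! ### computability -/

theorem cnt_prim : Primrec₂ cnt := by
  unfold cnt
  have h := OmegaStar.le_prim.listFilter
  exact Primrec.list_length.comp h

theorem mx_prim : Primrec₂ mx := by
  unfold mx
  exact Primrec.ite (OmegaStar.le_prim.comp Primrec.fst Primrec.snd) Primrec.snd Primrec.fst

theorem inter_prim : Primrec₂ inter := by
  unfold inter
  refine Primrec.list_flatMap Primrec.fst ?_
  refine Primrec.list_map (Primrec.snd.comp Primrec.fst) ?_
  exact mx_prim.comp (Primrec.snd.comp Primrec.fst) Primrec.snd

theorem odd_prim : PrimrecPred fun n : ℕ => Odd n := by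
  refine (Primrec.eq.comp (Primrec.nat_mod.comp Primrec.id (Primrec.const 2))
    (Primrec.const 1) : PrimrecPred fun n : ℕ => n % 2 = 1).of_eq fun n => ?_
  exact Nat.odd_iff.symm

theorem eq_prim : PrimrecRel fun l m : List ℕ => X l = X m := by
  have h1 : PrimrecRel fun (x : ℕ) (l : List ℕ) => ¬ Odd (cnt l x) :=
    PrimrecPred.not (odd_prim.comp (cnt_prim.comp Primrec.snd Primrec.fst))
  have h2 := h1.forall_mem_list
  have h3 : Primrec fun q : List ℕ × List ℕ => q.1 ++ q.2 :=
    Primrec.list_append.comp Primrec.fst Primrec.snd
  refine (PrimrecPred.comp (f := fun q : List ℕ × List ℕ => (q.1 ++ q.2, q.1 ++ q.2)) h2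
    (h3.pair h3)).of_eq fun q => ?_
  exact X_eq.symm

/-- the element of the algebra coded by a number -/
def elt (n : ℕ) : FC := ⟨X (ofNat (List ℕ) n), X_mem _⟩

theorem elt_surj : Function.Surjective elt := by
  rintro ⟨A, hA⟩
  obtain ⟨l, hl⟩ := exists_code hA
  refine ⟨encode l, ?_⟩
  apply Subtype.ext
  show X (ofNat (List ℕ) (encode l)) = A
  rw [ofNat_encode, hl]

instance : Infinite FC := by
  refine Infinite.of_injective (fun n : ℕ => (⟨{n}, Or.inl (Set.finite_singleton n)⟩ : FC)) ?_
  intro m n h
  exact Set.singleton_injective (Subtype.ext_iff.1 h)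

/-- A computable copy of the algebra of finite and cofinite sets in which finiteness is not
computable. -/
theorem exists_copy : ∃ e : ℕ ≃ FC,
    Computable₂ (fun m n : ℕ => e.symm (e m ⊔ e n)) ∧
    Computable₂ (fun m n : ℕ => e.symm (e m ⊓ e n)) ∧
    Computable (fun n : ℕ => e.symm (e n)ᶜ) ∧
    ¬ ComputablePred fun n : ℕ => (e n : Set ℕ).Finite := by
  have hdec : ComputablePred fun p : ℕ × ℕ => elt p.1 = elt p.2 := by
    have h1 : PrimrecPred fun p : ℕ × ℕ => X (ofNat (List ℕ) p.1) = X (ofNat (List ℕ) p.2) :=
      eq_prim.comp ((Primrec.ofNat (List ℕ)).comp Primrec.fst)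
        ((Primrec.ofNat (List ℕ)).comp Primrec.snd)
    exact h1.computablePred.of_eq fun p =>
      ⟨fun h => Subtype.ext h, fun h => congrArg Subtype.val h⟩
  obtain ⟨e, f, g, hf, hg, he, hes⟩ := Enum.exists_equiv elt elt_surj hdec
  have hcode : ∀ l : List ℕ, e.symm ⟨X l, X_mem l⟩ = g (encode l) := by
    intro l
    rw [← hes]
    congr 1
    apply Subtype.ext
    show X l = X (ofNat (List ℕ) (encode l))
    rw [ofNat_encode]
  have hf' : Computable fun n => ofNat (List ℕ) (f n) := (Primrec.ofNat (List ℕ)).to_comp.comp hf
  refine ⟨e, ?_, ?_, ?_, ?_⟩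
  · have h1 : Computable₂ fun m n : ℕ => g (encode (0 :: inter (0 :: ofNat (List ℕ) (f m))
        (0 :: ofNat (List ℕ) (f n)))) := by
      refine hg.comp (Computable.encode.comp ?_)
      have c0 : Primrec₂ fun l m : List ℕ => 0 :: inter (0 :: l) (0 :: m) :=
        Primrec.list_cons.comp (Primrec.const 0) (inter_prim.comp
          (Primrec.list_cons.comp (Primrec.const 0) Primrec.fst)
          (Primrec.list_cons.comp (Primrec.const 0) Primrec.snd))
      exact c0.to_comp.comp (hf'.comp Computable.fst) (hf'.comp Computable.snd)
    refine h1.of_eq fun q => ?_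
    obtain ⟨m, n⟩ := q
    show g _ = e.symm (e m ⊔ e n)
    rw [← hcode]
    congr 1
    apply Subtype.ext
    rw [he, he]
    exact X_union _ _
  · have h1 : Computable₂ fun m n : ℕ => g (encode (inter (ofNat (List ℕ) (f m))
        (ofNat (List ℕ) (f n)))) := by
      refine hg.comp (Computable.encode.comp ?_)
      exact inter_prim.to_comp.comp (hf'.comp Computable.fst) (hf'.comp Computable.snd)
    refine h1.of_eq fun q => ?_
    obtain ⟨m, n⟩ := q
    show g _ = e.symm (e m ⊓ e n)
    rw [← hcode]
    congr 1
    apply Subtype.ext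
    rw [he, he]
    exact X_inter _ _
  · have h1 : Computable fun n : ℕ => g (encode (0 :: ofNat (List ℕ) (f n))) := by
      refine hg.comp (Computable.encode.comp ?_)
      exact Primrec.list_cons.to_comp.comp (Computable.const 0) hf'
    refine h1.of_eq fun n => ?_
    rw [← hcode]
    congr 1
    apply Subtype.ext
    rw [he]
    exact X_compl _
  · intro hfin
    apply OmegaStar.not_computable_T
    have h1 : Computable fun s : ℕ => g (encode [s]) :=
      hg.comp (Computable.encode.comp (Primrec.list_cons.to_comp.comp Computable.id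
        (Computable.const [])))
    obtain ⟨D, hD, hD2⟩ := ComputablePred.computable_iff.1 hfin
    refine ComputablePred.computable_iff.2 ⟨fun s => !D (g (encode [s])),
      (Primrec.not.to_comp).comp (hD.comp h1), ?_⟩
    funext s
    have h2 : (D (g (encode [s])) = true) = ((e (g (encode [s])) : FC) : Set ℕ).Finite := by
      have := congrFun hD2 (g (encode [s]))
      exact this.symm
    have h3 : ((e (g (encode [s])) : FC) : Set ℕ) = up s := by
      rw [← hcode, Equiv.apply_symm_apply]
      exact X_single s
    rw [h3] at h2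
    apply propext
    constructor
    · intro hT
      have h4 : ¬ (up s).Finite := by
        intro h5
        have := h5.union (up_true hT)
        rw [Set.union_compl_self] at this
        exact Set.infinite_univ this
      rw [← h2] at h4
      simpa using h4
    · intro h4
      by_contra hT
      have h5 := up_false hT
      rw [← h2] at h5
      have h4 : (!D (g (encode [s]))) = true := h4
      rw [h5] at h4
      simp at h4

end V11259.FinCof
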