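import Mathlib

/-!
# The defect of finite words

Adding a letter keeps the defect if a new palindromic suffix appears, and otherwise increases it by
one.
-/

namespace Pool.Agent.V11259.Def

variable {α : Type}

/-- the palindromic factors of `w` -/
def Pals (w : List α) : Set (List α) := {u | u <:+: w ∧ u.reverse = u}

/-- the defect of `w` -/
noncomputable def defect (w : List α) : ℕ := w.length + 1 - (Pals w).ncard

theorem pals_finite (w : List α) : (Pals w).Finite := by
  classical
  refine ((List.finite_toSet (w.tails.flatMap List.inits))).subset ?_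
  rintro u ⟨hu, -⟩
  simp only [List.mem_flatMap, Set.mem_ofPred_eq, List.mem_tails, List.mem_inits]
  obtain ⟨s, t, rfl⟩ := hu
  exact ⟨u ++ t, ⟨s, by simp⟩, ⟨t, rfl⟩⟩

/-- adding the letter `x` creates a new palindromic suffix -/
def New (u : List α) (x : α) : Prop :=
  ∃ t, t <:+ u ++ [x] ∧ t.reverse = t ∧ ¬ t <:+: u

theorem infix_concat {t u : List α} {x : α} (h : t <:+: u ++ [x]) : t <:+: u ∨ t <:+ u ++ [x] := by
  obtain ⟨s, r, h⟩ := h
  rcases List.eq_nil_or_concat r with rfl | ⟨r', y, rfl⟩
  · right
    exact ⟨s, by simpa using h⟩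
  · left
    refine ⟨s, r', ?_⟩
    have h1 : (s ++ t ++ r') ++ [y] = u ++ [x] := by
      rw [← h]; simp
    exact (List.append_inj' h1 rfl).1

theorem infix_of_short {t t' u : List α} {x : α} (h : t <:+ u ++ [x]) (h' : t' <:+ u ++ [x])
    (ht : t.reverse = t) (ht' : t'.reverse = t') (hl : t'.length < t.length) : t' <:+: u := by
  have h1 : t' <:+ t := List.suffix_of_suffix_length_le h' h hl.le
  have h2 : t' <+: t := by
    rw [← List.reverse_suffix, ht, ht']
    exact h1
  obtain ⟨r, hr⟩ := h2
  obtain ⟨s, hs⟩ := h
  rcases List.eq_nil_or_concat r with rfl | ⟨r', y, rfl⟩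
  · rw [List.append_nil] at hr
    rw [hr] at hl
    exact absurd hl (lt_irrefl _)
  · refine ⟨s, r', ?_⟩
    have h3 : (s ++ t' ++ r') ++ [y] = u ++ [x] := by
      rw [← hs, ← hr]; simp
    exact (List.append_inj' h3 rfl).1

theorem pals_mono {u v : List α} (h : u <:+: v) : Pals u ⊆ Pals v :=
  fun _ ht => ⟨ht.1.trans h, ht.2⟩

theorem pals_new {u : List α} {x : α} {t : List α} (h1 : t <:+ u ++ [x]) (h2 : t.reverse = t)
    (h3 : ¬ t <:+: u) : Pals (u ++ [x]) = insert t (Pals u) := by
  ext s
  constructor
  · rintro ⟨hs, hp⟩
    rcases infix_concat hs with h | h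
    · exact Or.inr ⟨h, hp⟩
    · by_cases he : s <:+: u
      · exact Or.inr ⟨he, hp⟩
      · left
        rcases lt_trichotomy s.length t.length with hl | hl | hl
        · exact absurd (infix_of_short h1 h h2 hp hl) he
        · exact (List.suffix_of_suffix_length_le h h1 hl.le).eq_of_length hl
        · exact absurd (infix_of_short h h1 hp h2 hl) h3
  · rintro (rfl | hs)
    · exact ⟨h1.isInfix, h2⟩
    · exact pals_mono ⟨[], [x], by simp⟩ hs

theorem pals_not_new {u : List α} {x : α} (h : ¬ New u x) : Pals (u ++ [x]) = Pals u := by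
  ext s
  constructor
  · rintro ⟨hs, hp⟩
    rcases infix_concat hs with h1 | h1
    · exact ⟨h1, hp⟩
    · by_cases he : s <:+: u
      · exact ⟨he, hp⟩
      · exact absurd ⟨s, h1, hp, he⟩ h
  · exact fun hs => pals_mono ⟨[], [x], by simp⟩ hs

theorem card_pals_le (w : List α) : (Pals w).ncard ≤ w.length + 1 := by
  induction w using List.reverseRecOn with
  | nil =>
    have : Pals ([] : List α) = {[]} := by
      ext s
      simp only [Pals, Set.mem_ofPred_eq, List.infix_nil, Set.mem_singleton_iff]
      constructor
      · exact fun h => h.1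
      · rintro rfl; exact ⟨rfl, rfl⟩
    rw [this, Set.ncard_singleton]
    simp
  | append_singleton u x ih =>
    by_cases h : New u x
    · obtain ⟨t, h1, h2, h3⟩ := h
      rw [pals_new h1 h2 h3]
      refine (Set.ncard_insert_le _ _).trans ?_
      simp only [List.length_append, List.length_singleton]
      omega
    · rw [pals_not_new h]
      simp only [List.length_append, List.length_singleton]
      omega

theorem defect_new {u : List α} {x : α} (h : New u x) : defect (u ++ [x]) = defect u := by
  obtain ⟨t, h1, h2, h3⟩ := h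
  have h4 : t ∉ Pals u := fun h => h3 h.1
  rw [defect, defect, pals_new h1 h2 h3, Set.ncard_insert_of_notMem h4 (pals_finite u)]
  simp only [List.length_append, List.length_singleton]
  omega

theorem defect_not_new {u : List α} {x : α} (h : ¬ New u x) :
    defect (u ++ [x]) = defect u + 1 := by
  have := card_pals_le u
  rw [defect, defect, pals_not_new h]
  simp only [List.length_append, List.length_singleton]
  omega

theorem defect_concat_le (u : List α) (x : α) : defect u ≤ defect (u ++ [x]) := by
  by_cases h : New u x
  · rw [defect_new h]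
  · rw [defect_not_new h]; omega

theorem defect_append_le (u v : List α) : defect u ≤ defect (u ++ v) := by
  induction v using List.reverseRecOn with
  | nil => simp
  | append_singleton v x ih =>
    rw [← List.append_assoc]
    exact ih.trans (defect_concat_le _ _)

theorem defect_reverse (u : List α) : defect u.reverse = defect u := by
  have : Pals u.reverse = Pals u := by
    ext s
    constructor
    · rintro ⟨h, hp⟩
      refine ⟨?_, hp⟩
      rw [← List.reverse_infix, hp]
      exact h
    · rintro ⟨h, hp⟩
      refine ⟨?_, hp⟩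
      rw [← List.reverse_infix, hp, List.reverse_reverse]
      exact h
  rw [defect, defect, this, List.length_reverse]

theorem defect_mono {u v : List α} (h : u <:+: v) : defect u ≤ defect v := by
  obtain ⟨s, t, rfl⟩ := h
  refine le_trans ?_ (defect_append_le _ _)
  rw [← defect_reverse u, ← defect_reverse (s ++ u), List.reverse_append]
  exact defect_append_le _ _

/-! ### prefixes of infinite words -/

/-- the factor of length `l` starting at `a` -/
def seg (g : ℕ → α) (a l : ℕ) : List α := (List.range l).map fun i => g (a + i)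

@[simp] theorem seg_length (g : ℕ → α) (a l : ℕ) : (seg g a l).length = l := by simp [seg]

theorem seg_getElem (g : ℕ → α) (a l i : ℕ) (h : i < (seg g a l).length) :
    (seg g a l)[i] = g (a + i) := by simp [seg]

theorem seg_succ (g : ℕ → α) (a l : ℕ) : seg g a (l + 1) = seg g a l ++ [g (a + l)] := by
  simp [seg, List.range_succ]

theorem seg_append (g : ℕ → α) (a l m : ℕ) : seg g a (l + m) = seg g a l ++ seg g (a + l) m := by
  induction m with
  | zero => simp [seg]
  | succ m ih => rw [← Nat.add_assoc, seg_succ, seg_succ, ih, List.append_assoc, Nat.add_assoc]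

theorem seg_eq {g : ℕ → α} {t : List α} {a : ℕ} :
    t = seg g a t.length ↔ ∀ i (h : i < t.length), t[i] = g (a + i) := by
  constructor
  · intro h i hi
    have h2 : t[i] = (seg g a t.length)[i]'(by simpa using hi) := by
      congr 1
    rw [h2, seg_getElem]
  · intro h
    apply List.ext_getElem (by simp)
    intro i h1 h2
    rw [seg_getElem, h i h1]

theorem infix_seg {g : ℕ → α} {t : List α} {a n : ℕ} :
    t <:+: seg g a n ↔ ∃ b, a ≤ b ∧ b + t.length ≤ a + n ∧ t = seg g b t.length := by
  constructor
  · rintro ⟨s, r, h⟩
    have h0 := congrArg List.length h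
    simp only [List.length_append, seg_length] at h0
    refine ⟨a + s.length, by omega, by omega, ?_⟩
    rw [seg_eq]
    intro i hi
    have h1 : (s ++ t ++ r)[s.length + i]'(by simp; omega) = t[i] := by
      rw [List.getElem_append_left (by simp; omega), List.getElem_append_right (by omega)]
      simp
    rw [← h1]
    have h2 : (s ++ t ++ r)[s.length + i]'(by simp; omega) =
        (seg g a n)[s.length + i]'(by simp; omega) := by
      congr 1
    rw [h2, seg_getElem, Nat.add_assoc]
  · rintro ⟨b, h1, h2, h3⟩
    obtain ⟨c, rfl⟩ := Nat.exists_eq_add_of_le h1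
    obtain ⟨d, hd⟩ := Nat.exists_eq_add_of_le h2
    have h4 : n = c + t.length + d := by omega
    refine ⟨seg g a c, seg g (a + c + t.length) d, ?_⟩
    rw [h4, seg_append, seg_append, ← h3, ← Nat.add_assoc]

theorem suffix_seg {g : ℕ → α} {t : List α} {n : ℕ} (h : t <:+ seg g 0 n) :
    t.length ≤ n ∧ t = seg g (n - t.length) t.length := by
  obtain ⟨s, h⟩ := h
  have h0 := congrArg List.length h
  simp only [List.length_append, seg_length] at h0
  refine ⟨by omega, ?_⟩
  rw [seg_eq]
  intro i hi
  have h1 : (s ++ t)[s.length + i]'(by simp; omega) = t[i] := by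
    rw [List.getElem_append_right (by omega)]
    simp
  rw [← h1]
  have h2 : (s ++ t)[s.length + i]'(by simp; omega) =
      (seg g 0 n)[s.length + i]'(by simp; omega) := by
    congr 1
  rw [h2, seg_getElem]
  congr 1
  omega

theorem seg_reverse {g : ℕ → α} {a l : ℕ} :
    (seg g a l).reverse = seg g a l ↔ ∀ i < l, g (a + i) = g (a + (l - 1 - i)) := by
  constructor
  · intro h i hi
    have h1 : (seg g a l)[i]'(by simpa using hi) = (seg g a l).reverse[i]'(by simpa using hi) := by
      congr 1; exact h.symm
    rw [List.getElem_reverse] at h1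
    simpa [seg_getElem] using h1
  · intro h
    apply List.ext_getElem (by simp)
    intro i h1 h2
    rw [List.getElem_reverse, seg_getElem, seg_getElem]
    simp only [seg_length] at h2 ⊢
    exact (h i h2).symm

/-- `[a, m)` is a palindrome -/
def Pal (g : ℕ → α) (a m : ℕ) : Prop := ∀ i, a ≤ i → i < m → g i = g (a + m - 1 - i)

/-- `[a, m)` does not occur earlier -/
def Fst (g : ℕ → α) (a m : ℕ) : Prop := ∀ b < a, ∃ i < m - a, g (b + i) ≠ g (a + i)

/-- the prefix of length `m` has a new palindromic suffix -/
def NewAt (g : ℕ → α) (m : ℕ) : Prop := ∃ a < m, Pal g a m ∧ Fst g a m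

theorem new_iff {g : ℕ → α} {n : ℕ} : New (seg g 0 n) (g n) ↔ NewAt g (n + 1) := by
  have e : seg g 0 n ++ [g n] = seg g 0 (n + 1) := by
    rw [seg_succ, Nat.zero_add]
  rw [New, e]
  constructor
  · rintro ⟨t, h1, h2, h3⟩
    obtain ⟨h4, h5⟩ := suffix_seg h1
    have h6 : t.length ≠ 0 := by
      intro h
      rw [List.length_eq_zero_iff] at h
      subst h
      exact h3 (List.nil_infix)
    refine ⟨n + 1 - t.length, by omega, ?_, ?_⟩
    · rw [h5, seg_reverse] at h2
      intro i h7 h8
      have h9 := h2 (i - (n + 1 - t.length)) (by omega)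
      have e1 : n + 1 - t.length + (i - (n + 1 - t.length)) = i := by omega
      have e2 : n + 1 - t.length + (t.length - 1 - (i - (n + 1 - t.length))) =
          n + 1 - t.length + (n + 1) - 1 - i := by omega
      rw [e1, e2] at h9
      exact h9
    · intro b hb
      by_contra hc
      push Not at hc
      apply h3
      rw [infix_seg]
      refine ⟨b, by omega, by omega, ?_⟩
      rw [h5]
      simp only [seg_length]
      apply List.ext_getElem (by simp)
      intro i h7 h8
      rw [seg_getElem, seg_getElem]
      simp only [seg_length] at h7 h8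
      exact (hc i (by omega)).symm
  · rintro ⟨a, ha, hp, hf⟩
    refine ⟨seg g a (n + 1 - a), ?_, ?_, ?_⟩
    · refine ⟨seg g 0 a, ?_⟩
      have e2 : n + 1 = a + (n + 1 - a) := by omega
      conv_rhs => rw [e2, seg_append, Nat.zero_add]
    · rw [seg_reverse]
      intro i hi
      have h1 := hp (a + i) (by omega) (by omega)
      rw [h1]
      congr 1
      omega
    · intro h
      rw [infix_seg] at h
      obtain ⟨b, -, h1, h2⟩ := h
      simp only [seg_length] at h1 h2
      obtain ⟨i, hi, h3⟩ := hf b (by omega)
      apply h3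
      have h4 : (seg g a (n + 1 - a))[i]'(by simpa using hi) =
          (seg g b (n + 1 - a))[i]'(by simpa using hi) := by
        congr 1
      rw [seg_getElem, seg_getElem] at h4
      exact h4.symm

theorem defect_newAt {g : ℕ → α} {n : ℕ} (h : NewAt g (n + 1)) :
    defect (seg g 0 (n + 1)) = defect (seg g 0 n) := by
  rw [seg_succ, Nat.zero_add]
  exact defect_new (new_iff.2 h)

theorem defect_not_newAt {g : ℕ → α} {n : ℕ} (h : ¬ NewAt g (n + 1)) :
    defect (seg g 0 (n + 1)) = defect (seg g 0 n) + 1 := by
  rw [seg_succ, Nat.zero_add]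
  exact defect_not_new fun h' => h (new_iff.1 h')

theorem defect_seg_mono (g : ℕ → α) {m n : ℕ} (h : m ≤ n) :
    defect (seg g 0 m) ≤ defect (seg g 0 n) := by
  obtain ⟨d, rfl⟩ := Nat.exists_eq_add_of_le h
  rw [seg_append]
  exact defect_append_le _ _

end Pool.Agent.V11259.Def
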