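import Pool.Agent.V11259.DefA

/-!
# Extending a word without increasing the defect

If the defect stays constant for `n + 2` steps after a prefix of length `n`, then the prefix has an
infinite (ultimately periodic) extension with the same defect.
-/

namespace Pool.Agent.V11259.Def

variable {α : Type}

theorem NewAt.congr {g h : ℕ → α} {m : ℕ} (hgh : ∀ i < m, h i = g i) (hn : NewAt g m) :
    NewAt h m := by
  obtain ⟨a, ha, hp, hf⟩ := hn
  refine ⟨a, ha, ?_, ?_⟩
  · intro i h1 h2
    rw [hgh i h2, hgh _ (by omega)]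
    exact hp i h1 h2
  · intro b hb
    obtain ⟨i, hi, h1⟩ := hf b hb
    refine ⟨i, hi, ?_⟩
    rw [hgh _ (by omega), hgh _ (by omega)]
    exact h1

/-- consecutive new palindromic suffixes: either it grows or it breaks -/
theorem grow_or_break {g : ℕ → α} {n a a' : ℕ} (ha : a < n) (hp : Pal g a n) (hf : Fst g a n)
    (hp' : Pal g a' (n + 1)) : a ≤ a' ∨ a' + 1 = a := by
  by_contra hc
  push Not at hc
  have h1 : a' + 1 < a := by omega
  obtain ⟨i, hi, h2⟩ := hf (a' + 1) h1
  apply h2
  have h3 := hp' (a' + 1 + i) (by omega) (by omega)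
  have h4 := hp (a + i) (by omega) (by omega)
  rw [h3, h4]
  congr 1
  omega

section Periodic

variable {g : ℕ → α} {n a a' : ℕ}

/-- the periodic continuation -/
def ext (g : ℕ → α) (a π : ℕ) : ℕ → α := fun i => if i < a then g i else g (a + (i - a) % π)

theorem ext_low {π i : ℕ} (h : i < a) : ext g a π i = g i := by simp [ext, h]

theorem ext_high {π i : ℕ} (h : a ≤ i) : ext g a π i = g (a + (i - a) % π) := by
  simp [ext, not_lt.2 h]

theorem ext_mod {π i j : ℕ} (hi : a ≤ i) (hj : a ≤ j) (h : (i - a) % π = (j - a) % π) :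
    ext g a π i = ext g a π j := by
  rw [ext_high hi, ext_high hj, h]

/-- hypotheses of a break -/
structure Brk (g : ℕ → α) (n a a' : ℕ) : Prop where
  ha : a < n
  hp : Pal g a n
  hf : Fst g a n
  hp' : Pal g a' (n + 1)
  hf' : Fst g a' (n + 1)
  hle : a ≤ a'
  hlt : a' < n

variable (B : Brk g n a a')

include B in
theorem Brk.period {i : ℕ} (h1 : a ≤ i) (h2 : i + (a' + 1 - a) < n) :
    g i = g (i + (a' + 1 - a)) := by
  have hle := B.hle
  have h3 := B.hp i h1 (by omega)
  have h4 := B.hp' (i + (a' + 1 - a)) (by omega) (by omega)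
  rw [h3, h4]
  congr 1
  omega

include B in
theorem Brk.ext_eq : ∀ k i : ℕ, i < n → i < a + k → ext g a (a' + 1 - a) i = g i := by
  have hle := B.hle
  intro k
  induction k with
  | zero => intro i _ h; exact ext_low (by omega)
  | succ k ih =>
    intro i h1 h2
    by_cases h3 : i < a
    · exact ext_low h3
    · by_cases h4 : i - a < a' + 1 - a
      · rw [ext_high (by omega), Nat.mod_eq_of_lt h4]
        congr 1
        omega
      · have h5 := ih (i - (a' + 1 - a)) (by omega) (by omega)
        have h6 := B.period (i := i - (a' + 1 - a)) (by omega) (by omega)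
        have e : i - (a' + 1 - a) + (a' + 1 - a) = i := by omega
        rw [e] at h6
        rw [← h6, ← h5]
        apply ext_mod (by omega) (by omega)
        have e2 : i - a = (i - (a' + 1 - a) - a) + (a' + 1 - a) := by omega
        rw [e2, Nat.add_mod_right]

include B in
theorem Brk.ext_eq' {i : ℕ} (h : i < n) : ext g a (a' + 1 - a) i = g i :=
  B.ext_eq n i h (by omega)

include B in
theorem Brk.last : g n = g a' := by
  have hlt := B.hlt
  have h := B.hp' a' le_rfl (by omega)
  rw [h]
  congr 1
  omega

include B in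
theorem Brk.ext_n : ext g a (a' + 1 - a) n = g n := by
  have hle := B.hle
  have hlt := B.hlt
  rw [B.last]
  have h1 : ext g a (a' + 1 - a) n = ext g a (a' + 1 - a) (n - (a' + 1 - a)) := by
    apply ext_mod (by omega) (by omega)
    have e2 : n - a = (n - (a' + 1 - a) - a) + (a' + 1 - a) := by omega
    rw [e2, Nat.add_mod_right]
  rw [h1, B.ext_eq' (by omega)]
  have h2 := B.hp (n - (a' + 1 - a)) (by omega) (by omega)
  rw [h2]
  congr 1
  omega

include B in
theorem Brk.ext_le {i : ℕ} (h : i ≤ n) : ext g a (a' + 1 - a) i = g i := by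
  rcases Nat.lt_or_ge i n with h1 | h1
  · exact B.ext_eq' h1
  · have : i = n := by omega
    subst this
    exact B.ext_n

include B in
/-- the symmetries of the periodic part -/
theorem Brk.symm {i j : ℕ} (hi : a ≤ i) (hj : a ≤ j)
    (h : (i + j) % (a' + 1 - a) = (a + n - 1) % (a' + 1 - a)) :
    ext g a (a' + 1 - a) i = ext g a (a' + 1 - a) j := by
  have hle := B.hle
  have hlt := B.hlt
  set π := a' + 1 - a with hπ
  have hπ0 : 0 < π := by omega
  have hm := Nat.mod_lt (i - a) hπ0
  -- the representative of `i`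
  have h1 : ext g a π i = ext g a π (a + (i - a) % π) := by
    apply ext_mod hi (by omega)
    rw [Nat.add_sub_cancel_left, Nat.mod_mod]
  have h2 : ext g a π (a + (i - a) % π) = ext g a π (n - 1 - (i - a) % π) := by
    rw [B.ext_eq' (by omega), B.ext_eq' (by omega)]
    have h3 := B.hp (a + (i - a) % π) (by omega) (by omega)
    rw [h3]
    congr 1
    omega
  rw [h1, h2]
  apply ext_mod (by omega) hj
  -- congruence
  have h4 : (n - 1 - (i - a) % π - a + (i - a)) ≡ (n - 1 - a) [MOD π] := by
    have h5 : (n - 1 - (i - a) % π - a) + (i - a) ≡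
        (n - 1 - (i - a) % π - a) + (i - a) % π [MOD π] :=
      Nat.ModEq.add_left _ (Nat.mod_modEq _ _).symm
    have e : (n - 1 - (i - a) % π - a) + (i - a) % π = n - 1 - a := by omega
    rw [e] at h5
    exact h5
  have h6 : (j - a + (i - a)) ≡ (n - 1 - a) [MOD π] := by
    have h7 : (j - a + (i - a)) + 2 * a ≡ (n - 1 - a) + 2 * a [MOD π] := by
      have e1 : (j - a + (i - a)) + 2 * a = i + j := by omega
      have e2 : (n - 1 - a) + 2 * a = a + n - 1 := by omega
      rw [e1, e2]
      exact h
    exact Nat.ModEq.add_right_cancel' _ h7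
  exact Nat.ModEq.add_right_cancel' (i - a) (h4.trans h6.symm)

include B in
/-- the letter before `[a, n)` differs from `g n` -/
theorem Brk.before (h0 : 0 < a) : g (a - 1) ≠ g n := by
  have hle := B.hle
  have hlt := B.hlt
  intro hx
  obtain ⟨i, hi, h1⟩ := B.hf' (a - 1) (by omega)
  apply h1
  have h2 := B.hp' (a' + i) (by omega) (by omega)
  rw [h2]
  by_cases h3 : i = 0
  · subst h3
    rw [Nat.add_zero, hx]
    congr 1
    omega
  · have h4 := B.hp (a - 1 + i) (by omega) (by omega)
    rw [h4]
    congr 1
    omega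

include B in
/-- **The periodic continuation creates a new palindromic suffix in each step.** -/
theorem Brk.newAt (j : ℕ) (hj : 1 ≤ j) : NewAt (ext g a (a' + 1 - a)) (n + j) := by
  have hle := B.hle
  have hlt := B.hlt
  have ha := B.ha
  set π := a' + 1 - a with hπ
  have hπ0 : 0 < π := by omega
  set k := (j - 1) / π with hk
  set r := (j - 1) % π with hr
  have hjk : j = k * π + r + 1 := by
    have := Nat.div_add_mod (j - 1) π
    rw [← hk, ← hr] at this
    rw [Nat.mul_comm] at this
    omega
  have hr' : r < π := Nat.mod_lt _ hπ0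
  have hA : a + π - (r + 1) < n + j := by omega
  refine ⟨a + π - (r + 1), hA, ?_, ?_⟩
  · intro i h1 h2
    apply B.symm (by omega) (by omega)
    have e : i + (a + π - (r + 1) + (n + j) - 1 - i) = a + n - 1 + (k + 1) * π := by
      have : (k + 1) * π = k * π + π := by ring
      omega
    rw [e, Nat.add_mul_mod_self_right]
  · intro b hb
    by_contra hc
    push Not at hc
    rcases Nat.eq_zero_or_pos k with h0 | h0
    · -- the palindrome `[a', n + 1)` would occur earlier
      rw [h0, Nat.zero_mul, Nat.zero_add] at hjk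
      obtain ⟨i, hi, h1⟩ := B.hf' (b + r) (by omega)
      apply h1
      have h2 := hc (r + i) (by omega)
      have e1 : b + (r + i) = b + r + i := by omega
      have e2 : a + π - (r + 1) + (r + i) = a' + i := by omega
      rw [e1, e2, B.ext_le (by omega), B.ext_le (by omega)] at h2
      exact h2
    · -- an occurrence of `[a, n)` at `b + r + 1`, preceded by the letter `g a'`
      have hkπ : π ≤ k * π := Nat.le_mul_of_pos_left _ h0
      have hocc : ∀ i < n - a, ext g a π (b + (r + 1) + i) = g (a + i) := by
        intro i hi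
        have h2 := hc (r + 1 + i) (by omega)
        have e1 : b + (r + 1 + i) = b + (r + 1) + i := by omega
        have e2 : a + π - (r + 1) + (r + 1 + i) = (a + i) + π := by omega
        rw [e1, e2] at h2
        rw [h2]
        have h3 : ext g a π (a + i + π) = ext g a π (a + i) := by
          apply ext_mod (by omega) (by omega)
          have e3 : a + i + π - a = (a + i - a) + π := by omega
          rw [e3, Nat.add_mod_right]
        rw [h3, B.ext_eq' (by omega)]
      have hprev : ext g a π (b + r) = g n := by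
        have h2 := hc r (by omega)
        have e2 : a + π - (r + 1) + r = a' := by omega
        rw [e2] at h2
        rw [h2, B.ext_le (show a' ≤ n by omega), B.last]
      rcases lt_trichotomy (b + (r + 1)) a with h1 | h1 | h1
      · obtain ⟨i, hi, h2⟩ := B.hf (b + (r + 1)) h1
        apply h2
        have h3 := hocc i hi
        rw [B.ext_le (by omega)] at h3
        exact h3
      · have h2 := B.before (by omega)
        apply h2
        rw [← hprev, B.ext_le (by omega)]
        congr 1
        omega
      · -- a shift by less than the period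
        obtain ⟨δ, hδ⟩ := Nat.exists_eq_add_of_lt h1
        have hδ' : δ + 1 < π := by omega
        obtain ⟨i, hi, h2⟩ := B.hf' (a' - (δ + 1)) (by omega)
        apply h2
        have h3 := hocc (a' - (δ + 1) + i - a) (by omega)
        have e1 : b + (r + 1) + (a' - (δ + 1) + i - a) = a' + i := by omega
        have e2 : a + (a' - (δ + 1) + i - a) = a' - (δ + 1) + i := by omega
        rw [e1, e2, B.ext_le (by omega)] at h3
        exact h3.symm

end Periodic

/-- **Constant defect for `n₀ + 2` steps gives an infinite extension.** -/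
theorem constant {g : ℕ → α} {n₀ : ℕ} (h0 : 1 ≤ n₀) (hl : ∀ i, ∃ j < n₀, g i = g j)
    (hn : ∀ m, n₀ < m → m ≤ 2 * n₀ + 2 → NewAt g m) :
    ∃ h : ℕ → α, (∀ i < n₀, h i = g i) ∧ (∀ i, ∃ j < n₀, h i = g j) ∧ ∀ m > n₀, NewAt h m := by
  classical
  -- starting points
  have hn' : ∀ m, ∃ a, n₀ < m → m ≤ 2 * n₀ + 2 → a < m ∧ Pal g a m ∧ Fst g a m := by
    intro m
    by_cases h : n₀ < m ∧ m ≤ 2 * n₀ + 2
    · obtain ⟨a, ha⟩ := hn m h.1 h.2
      exact ⟨a, fun _ _ => ha⟩
    · exact ⟨0, fun h1 h2 => absurd ⟨h1, h2⟩ h⟩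
  choose A hA using hn'
  -- there is a break
  have hbr : ∃ n, n₀ < n ∧ n < 2 * n₀ + 2 ∧ A n ≤ A (n + 1) := by
    by_contra hc
    push Not at hc
    have hg : ∀ i, i ≤ n₀ + 1 → A (n₀ + 1 + i) + i = A (n₀ + 1) := by
      intro i
      induction i with
      | zero => intro _; rfl
      | succ i ih =>
        intro hi
        have h1 := ih (by omega)
        have h2 := hA (n₀ + 1 + i) (by omega) (by omega)
        have h3 := hA (n₀ + 1 + i + 1) (by omega) (by omega)
        have h4 := hc (n₀ + 1 + i) (by omega) (by omega)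
        rcases grow_or_break h2.1 h2.2.1 h2.2.2 h3.2.1 with h5 | h5
        · omega
        · have e : n₀ + 1 + (i + 1) = n₀ + 1 + i + 1 := by omega
          rw [e]
          omega
    have h1 := hg (n₀ + 1) le_rfl
    have h2 := (hA (n₀ + 1) (by omega) (by omega)).1
    omega
  obtain ⟨n, hn1, hn2, hn3⟩ := hbr
  have h1 := hA n hn1 (by omega)
  have h2 := hA (n + 1) (by omega) (by omega)
  have hlt : A (n + 1) < n := by
    by_contra hc
    have he : A (n + 1) = n := by omega
    obtain ⟨j, hj, hj'⟩ := hl n
    obtain ⟨i, hi, h3⟩ := h2.2.2 j (by omega)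
    apply h3
    have : i = 0 := by omega
    subst this
    rw [he, Nat.add_zero, Nat.add_zero, hj']
  have B : Brk g n (A n) (A (n + 1)) :=
    ⟨h1.1, h1.2.1, h1.2.2, h2.2.1, h2.2.2, hn3, hlt⟩
  refine ⟨ext g (A n) (A (n + 1) + 1 - A n), fun i hi => B.ext_le (by omega), ?_, ?_⟩
  · intro i
    by_cases hi : i < A n
    · rw [ext_low hi]; exact hl i
    · rw [ext_high (by omega)]; exact hl _
  · intro m hm
    rcases Nat.lt_or_ge n m with h3 | h3
    · obtain ⟨j, rfl⟩ := Nat.exists_eq_add_of_le h3.le
      exact B.newAt j (by omega)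
    · exact (hn m hm (by omega)).congr fun i hi => B.ext_le (by omega)

/-- **A long extension with defect at most `k` gives an infinite one.** -/
theorem bound (k : ℕ) : ∀ (j n₀ : ℕ) (g : ℕ → α), 1 ≤ n₀ → (∀ i, ∃ i' < n₀, g i = g i') →
    k < defect (seg g 0 n₀) + j → defect (seg g 0 (n₀ + (2 ^ j - 1) * (n₀ + 2))) ≤ k →
    ∃ h : ℕ → α, (∀ i < n₀, h i = g i) ∧ (∀ i, ∃ i' < n₀, h i = g i') ∧
      ∀ m, defect (seg h 0 m) ≤ k := by
  intro j
  induction j with
  | zero =>
    intro n₀ g _ _ h1 h2
    have h3 := defect_seg_mono g (show n₀ ≤ n₀ + (2 ^ 0 - 1) * (n₀ + 2) by omega)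
    omega
  | succ j ih =>
    intro n₀ g h0 hl h1 h2
    have hpow : 1 ≤ 2 ^ j := Nat.one_le_two_pow
    by_cases hall : ∀ m, n₀ < m → m ≤ 2 * n₀ + 2 → NewAt g m
    · obtain ⟨h, h3, h4, h5⟩ := constant h0 hl hall
      refine ⟨h, h3, h4, ?_⟩
      have h6 : seg h 0 n₀ = seg g 0 n₀ := by
        apply List.ext_getElem (by simp)
        intro i hi hi'
        rw [seg_getElem, seg_getElem]
        simp only [seg_length] at hi
        exact h3 _ (by omega)
      have h7 : ∀ d, defect (seg h 0 (n₀ + d)) = defect (seg g 0 n₀) := by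
        intro d
        induction d with
        | zero => rw [Nat.add_zero, h6]
        | succ d ih => rw [← Nat.add_assoc, defect_newAt (h5 _ (by omega)), ih]
      intro m
      refine (defect_seg_mono h (show m ≤ n₀ + m by omega)).trans ?_
      rw [h7]
      refine le_trans ?_ h2
      exact defect_seg_mono g (by omega)
    · push Not at hall
      obtain ⟨m, hm1, hm2, hm3⟩ := hall
      obtain ⟨m, rfl⟩ : ∃ m', m = m' + 1 := ⟨m - 1, by omega⟩
      have h3 := defect_not_newAt hm3
      have h4 := defect_seg_mono g (show n₀ ≤ m by omega)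
      obtain ⟨h, h5, h6, h7⟩ := ih (m + 1) g (by omega)
        (fun i => by obtain ⟨i', hi', he⟩ := hl i; exact ⟨i', by omega, he⟩) (by omega) (by
          refine (defect_seg_mono g ?_).trans h2
          have e1 : n₀ + (2 ^ (j + 1) - 1) * (n₀ + 2) = 2 ^ (j + 1) * (n₀ + 2) - 2 := by
            rw [Nat.sub_mul]
            have : 1 * (n₀ + 2) ≤ 2 ^ (j + 1) * (n₀ + 2) :=
              Nat.mul_le_mul_right _ Nat.one_le_two_pow
            omega
          have e2 : m + 1 + (2 ^ j - 1) * (m + 1 + 2) = 2 ^ j * (m + 1 + 2) - 2 := by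
            rw [Nat.sub_mul]
            have : 1 * (m + 1 + 2) ≤ 2 ^ j * (m + 1 + 2) := Nat.mul_le_mul_right _ hpow
            omega
          rw [e1, e2]
          have e3 : 2 ^ j * (m + 1 + 2) ≤ 2 ^ (j + 1) * (n₀ + 2) := by
            rw [pow_succ, Nat.mul_assoc]
            exact Nat.mul_le_mul_left _ (by omega)
          omega)
      refine ⟨h, fun i hi => h5 i (by omega), ?_, h7⟩
      intro i
      obtain ⟨i', -, he⟩ := h6 i
      obtain ⟨i'', hi'', he'⟩ := hl i'
      exact ⟨i'', hi'', he.trans he'⟩

end Pool.Agent.V11259.Def
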