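import Pool.Agent.V11259.DefB

/-!
# The infinite defect of a finite word

`R w k`: the word `w` has an extension to the right by a word of bounded length over its own letters
with defect at most `k`.  The infinite defect is the least `k` with `R w k` or `R w.reverse k`.
-/

namespace Pool.Agent.V11259.Def

/-- The index sets of right-infinite (`ℤ₊`), left-infinite (`ℤ₋`) and two-way infinite (`ℤ`)
words. -/
def IsIndex (I : Set ℤ) : Prop := I = Set.Ici 1 ∨ I = Set.Iic (-1) ∨ I = Set.univ

/-- `u` is a factor of the infinite word `z` indexed by `I` -/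
def Factor (I : Set ℤ) (z : ℤ → ℕ) (u : List ℕ) : Prop :=
  ∃ i : ℤ, ∀ (j : ℕ) (h : j < u.length), i + j ∈ I ∧ z (i + j) = u[j]

/-- the defect of an infinite word -/
noncomputable def wdefect (I : Set ℤ) (z : ℤ → ℕ) : ℕ∞ :=
  ⨆ (u : List ℕ) (_ : Factor I z u), (defect u : ℕ∞)

/-- the bound for the length of the extensions -/
def len (w : List ℕ) (k : ℕ) : ℕ := (2 ^ (k + 1) - 1) * (w.length + 2)

/-- a long extension to the right with defect at most `k` exists -/
def R (w : List ℕ) (k : ℕ) : Prop :=
  ∃ v : List ℕ, v.length = len w k ∧ (∀ a ∈ v, a ∈ w) ∧ defect (w ++ v) ≤ k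

/-- an infinite extension to the right with defect at most `k` exists -/
def Good (w : List ℕ) (k : ℕ) : Prop :=
  ∃ h : ℕ → ℕ, (∀ (i : ℕ) (hi : i < w.length), h i = w[i]) ∧ (∀ i, h i ∈ w) ∧
    ∀ m, defect (seg h 0 m) ≤ k

theorem good_of_R {w : List ℕ} {k : ℕ} (hw : w ≠ []) (h : R w k) : Good w k := by
  obtain ⟨v, hv, ha, hd⟩ := h
  have hpos : 1 ≤ w.length := List.length_pos_iff.2 hw
  set g : ℕ → ℕ := fun i => (w ++ v).getD i (w[0]) with hg
  have hmem : ∀ i, g i ∈ w := by
    intro i
    simp only [hg]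
    by_cases hi : i < (w ++ v).length
    · rw [List.getD_eq_getElem _ _ hi]
      have := List.getElem_mem hi
      rcases List.mem_append.1 this with h | h
      · exact h
      · exact ha _ h
    · rw [List.getD_eq_default _ _ (by omega)]
      exact List.getElem_mem _
  have hgw : ∀ (i : ℕ) (hi : i < w.length), g i = w[i] := by
    intro i hi
    simp only [hg]
    rw [List.getD_eq_getElem _ _ (by rw [List.length_append]; omega)]
    exact List.getElem_append_left hi
  have hl : ∀ i, ∃ i' < w.length, g i = g i' := by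
    intro i
    obtain ⟨i', hi', he⟩ := List.getElem_of_mem (hmem i)
    exact ⟨i', hi', by rw [hgw i' hi', he]⟩
  have hseg : seg g 0 (w.length + (2 ^ (k + 1) - 1) * (w.length + 2)) = w ++ v := by
    apply List.ext_getElem
    · rw [seg_length, List.length_append, hv]; rfl
    · intro i h1 h2
      rw [seg_getElem, Nat.zero_add]
      simp only [hg]
      rw [List.getD_eq_getElem _ _ h2]
  obtain ⟨h, h1, h2, h3⟩ := bound k (k + 1) w.length g hpos hl (by omega) (by rw [hseg]; exact hd)
  refine ⟨h, fun i hi => by rw [h1 i hi, hgw i hi], fun i => ?_, h3⟩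
  obtain ⟨i', -, he⟩ := h2 i
  rw [he]
  exact hmem i'

theorem seg_good {w : List ℕ} {h : ℕ → ℕ} (h1 : ∀ (i : ℕ) (hi : i < w.length), h i = w[i]) :
    seg h 0 w.length = w := by
  apply List.ext_getElem (by simp)
  intro i h2 h3
  rw [seg_getElem, Nat.zero_add, h1 i h3]

theorem R_of_good {w : List ℕ} {k : ℕ} (h : Good w k) : R w k := by
  obtain ⟨h, h1, h2, h3⟩ := h
  refine ⟨seg h w.length (len w k), by simp, ?_, ?_⟩
  · intro a ha
    simp only [seg, List.mem_map] at ha
    obtain ⟨i, -, rfl⟩ := ha
    exact h2 _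
  · have h4 := h3 (w.length + len w k)
    rw [seg_append, Nat.zero_add, seg_good h1] at h4
    exact h4

theorem R_mono {w : List ℕ} {k l : ℕ} (hw : w ≠ []) (hkl : k ≤ l) (h : R w k) : R w l := by
  obtain ⟨g, h1, h2, h3⟩ := good_of_R hw h
  exact R_of_good ⟨g, h1, h2, fun m => (h3 m).trans hkl⟩

theorem R_length {w : List ℕ} (hw : w ≠ []) : R w w.length := by
  have hpos : 0 < w.length := List.length_pos_iff.2 hw
  set n := len w w.length with hn
  refine ⟨List.replicate n w[0], by rw [List.length_replicate, hn], ?_, ?_⟩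
  · intro a ha
    rw [List.eq_of_mem_replicate ha]
    exact List.getElem_mem _
  · have h1 : (fun i => List.replicate i w[0]) '' (Set.Iio (n + 1)) ⊆
        Pals (w ++ List.replicate n w[0]) := by
      rintro _ ⟨i, hi, rfl⟩
      refine ⟨?_, by simp⟩
      simp only [Set.mem_Iio] at hi
      refine List.IsInfix.trans ?_ (List.suffix_append _ _).isInfix
      refine ⟨[], List.replicate (n - i) w[0], ?_⟩
      rw [List.nil_append, List.replicate_append_replicate]
      congr 1
      omega
    have h2 := Set.ncard_le_ncard h1 (pals_finite _)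
    rw [Set.ncard_image_of_injective _ (by
      intro i j hij
      have := congrArg List.length hij
      simpa using this)] at h2
    have h3 : (Set.Iio (n + 1)).ncard = n + 1 := by
      rw [Set.ncard_eq_toFinset_card', Set.toFinset_Iio, Nat.card_Iio]
    rw [h3] at h2
    rw [defect, List.length_append, List.length_replicate]
    omega

/-- the infinite defect -/
noncomputable def dinf (w : List ℕ) : ℕ :=
  sInf {k | R w k ∨ R w.reverse k}

theorem defect_nil : defect ([] : List ℕ) = 0 := by
  have h := card_pals_le ([] : List ℕ)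
  have h1 : ([] : List ℕ) ∈ Pals ([] : List ℕ) := ⟨List.nil_infix, rfl⟩
  have h2 : 0 < (Pals ([] : List ℕ)).ncard := (Set.ncard_pos (pals_finite _)).2 ⟨_, h1⟩
  rw [defect]
  simp only [List.length_nil] at h ⊢
  omega

theorem factor_right {w : List ℕ} {k : ℕ} (h : Good w k) :
    ∃ I z, IsIndex I ∧ (∀ i ∈ I, z i ∈ w) ∧ Factor I z w ∧ wdefect I z ≤ k := by
  obtain ⟨h, h1, h2, h3⟩ := h
  refine ⟨Set.Ici 1, fun i => h (i - 1).toNat, Or.inl rfl, fun i _ => h2 _, ⟨1, ?_⟩, ?_⟩
  · intro j hj
    refine ⟨by simp, ?_⟩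
    rw [← h1 j hj]
    beta_reduce
    congr 1
    omega
  · refine iSup₂_le fun u hu => ?_
    rcases List.eq_nil_or_concat u with rfl | hne
    · rw [defect_nil]; simp
    have hpos : 0 < u.length := by
      obtain ⟨u', a, rfl⟩ := hne
      simp
    obtain ⟨i, hi⟩ := hu
    have h4 := (hi 0 hpos).1
    simp only [Nat.cast_zero, add_zero, Set.mem_Ici] at h4
    have h5 : u = seg h (i - 1).toNat u.length := by
      rw [seg_eq]
      intro j hj
      rw [← (hi j hj).2]
      beta_reduce
      congr 1
      omega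
    have h6 : u <:+: seg h 0 ((i - 1).toNat + u.length) := by
      rw [infix_seg]
      exact ⟨(i - 1).toNat, by omega, by omega, h5⟩
    exact_mod_cast (defect_mono h6).trans (h3 _)

theorem factor_left {w : List ℕ} {k : ℕ} (h : Good w.reverse k) :
    ∃ I z, IsIndex I ∧ (∀ i ∈ I, z i ∈ w) ∧ Factor I z w ∧ wdefect I z ≤ k := by
  obtain ⟨h, h1, h2, h3⟩ := h
  refine ⟨Set.Iic (-1), fun i => h (-1 - i).toNat, Or.inr (Or.inl rfl),
    fun i _ => by simpa using h2 (-1 - i).toNat, ⟨-w.length, ?_⟩, ?_⟩
  · intro j hj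
    refine ⟨by simp only [Set.mem_Iic]; omega, ?_⟩
    have h4 := h1 (w.length - 1 - j) (by rw [List.length_reverse]; omega)
    rw [List.getElem_reverse] at h4
    have e : (-1 - (-(w.length : ℤ) + j)).toNat = w.length - 1 - j := by omega
    simp only [e, h4]
    congr 1
    omega
  · refine iSup₂_le fun u hu => ?_
    rcases List.eq_nil_or_concat u with rfl | hne
    · rw [defect_nil]; simp
    have hpos : 0 < u.length := by
      obtain ⟨u', a, rfl⟩ := hne
      simp
    obtain ⟨i, hi⟩ := hu
    have h4 := (hi (u.length - 1) (by omega)).1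
    simp only [Set.mem_Iic] at h4
    have h5 : u.reverse = seg h (-1 - (i + (u.length - 1 : ℕ))).toNat u.reverse.length := by
      rw [seg_eq]
      intro j hj
      rw [List.length_reverse] at hj
      rw [List.getElem_reverse, ← (hi (u.length - 1 - j) (by omega)).2]
      beta_reduce
      congr 1
      omega
    have h6 : u.reverse <:+: seg h 0 ((-1 - (i + (u.length - 1 : ℕ))).toNat + u.reverse.length) := by
      rw [infix_seg]
      exact ⟨_, by omega, by omega, h5⟩
    rw [← defect_reverse u]
    exact_mod_cast (defect_mono h6).trans (h3 _)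

theorem R_of_factor {w : List ℕ} {k : ℕ} (hw : w ≠ []) {I : Set ℤ} {z : ℤ → ℕ} (hI : IsIndex I)
    (hz : ∀ i ∈ I, z i ∈ w) (hf : Factor I z w) (hd : wdefect I z ≤ k) :
    R w k ∨ R w.reverse k := by
  have hpos : 0 < w.length := List.length_pos_iff.2 hw
  obtain ⟨i, hi⟩ := hf
  have key : ∀ u, Factor I z u → defect u ≤ k := by
    intro u hu
    have h1 : (defect u : ℕ∞) ≤ wdefect I z := le_iSup₂_of_le u hu le_rfl
    exact_mod_cast h1.trans hd
  have right : (∀ m : ℕ, i + m ∈ I) → R w k := by
    intro hm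
    refine R_of_good ⟨fun m => z (i + m), fun j hj => (hi j hj).2, fun m => hz _ (hm m),
      fun m => key _ ⟨i, fun j hj => ⟨hm j, ?_⟩⟩⟩
    rw [seg_getElem, Nat.zero_add]
  rcases hI with rfl | rfl | rfl
  · left
    apply right
    intro m
    have h1 := (hi 0 hpos).1
    simp only [Nat.cast_zero, add_zero, Set.mem_Ici] at h1 ⊢
    omega
  · right
    have h1 := (hi (w.length - 1) (by omega)).1
    simp only [Set.mem_Iic] at h1
    refine R_of_good ⟨fun m => z (i + (w.length - 1 : ℕ) - m), fun j hj => ?_, fun m => ?_,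
      fun m => ?_⟩
    · rw [List.length_reverse] at hj
      rw [List.getElem_reverse, ← (hi (w.length - 1 - j) (by omega)).2]
      beta_reduce
      congr 1
      omega
    · rw [List.mem_reverse]
      apply hz
      simp only [Set.mem_Iic]
      omega
    · rw [← defect_reverse]
      apply key
      refine ⟨i + (w.length - 1 : ℕ) - (m : ℤ) + 1, fun j hj => ?_⟩
      rw [List.length_reverse, seg_length] at hj
      refine ⟨by simp only [Set.mem_Iic]; omega, ?_⟩
      rw [List.getElem_reverse, seg_getElem]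
      congr 1
      rw [seg_length]
      omega
  · left
    apply right
    intro m
    trivial

/-- `D_∞(w)` -/
theorem isLeast_dinf {w : List ℕ} (hw : w ≠ []) :
    IsLeast {d : ℕ∞ | ∃ I z, IsIndex I ∧ (∀ i ∈ I, z i ∈ w) ∧ Factor I z w ∧ wdefect I z = d}
      (dinf w : ℕ∞) := by
  have hne : {k | R w k ∨ R w.reverse k}.Nonempty := ⟨_, Or.inl (R_length hw)⟩
  have hmem : R w (dinf w) ∨ R w.reverse (dinf w) := Nat.sInf_mem hne
  have hmin : ∀ k, R w k ∨ R w.reverse k → dinf w ≤ k := fun k hk => Nat.sInf_le hk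
  have hrev : w.reverse ≠ [] := by simpa using hw
  constructor
  · have h1 : ∃ I z, IsIndex I ∧ (∀ i ∈ I, z i ∈ w) ∧ Factor I z w ∧ wdefect I z ≤ dinf w := by
      rcases hmem with h | h
      · exact factor_right (good_of_R hw h)
      · exact factor_left (good_of_R hrev h)
    obtain ⟨I, z, h2, h3, h4, h5⟩ := h1
    refine ⟨I, z, h2, h3, h4, le_antisymm h5 ?_⟩
    obtain ⟨d, hd⟩ : ∃ d : ℕ, wdefect I z = d := by
      have : wdefect I z ≠ ⊤ := fun h => by rw [h] at h5; simp at h5
      exact ⟨_, (ENat.natCast_toNat this).symm⟩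
    rw [hd]
    exact_mod_cast hmin d (R_of_factor hw h2 h3 h4 hd.le)
  · rintro d ⟨I, z, h2, h3, h4, rfl⟩
    rcases eq_or_ne (wdefect I z) ⊤ with h | h
    · rw [h]; exact le_top
    · obtain ⟨d, hd⟩ : ∃ d : ℕ, wdefect I z = d := ⟨_, (ENat.natCast_toNat h).symm⟩
      rw [hd]
      exact_mod_cast hmin d (R_of_factor hw h2 h3 h4 hd.le)

end Pool.Agent.V11259.Def
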