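import Pool.Agent.V11259.DefC

/-!
# The infinite defect is primitive recursive
-/

namespace Pool.Agent.V11259.Def

open Primrec

/-- all factors of `w` -/
def facs (w : List ℕ) : List (List ℕ) :=
  (List.range (w.length + 1)).flatMap fun i =>
    (List.range (w.length + 1)).map fun j => (w.drop i).take j

theorem mem_facs {w u : List ℕ} : u ∈ facs w ↔ u <:+: w := by
  simp only [facs, List.mem_flatMap, List.mem_map, List.mem_range]
  constructor
  · rintro ⟨i, -, j, -, rfl⟩
    exact (List.take_prefix _ _).isInfix.trans (List.drop_suffix _ _).isInfix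
  · rintro ⟨s, t, rfl⟩
    refine ⟨s.length, by simp only [List.length_append]; omega, u.length,
      by simp only [List.length_append]; omega, ?_⟩
    rw [List.append_assoc, List.drop_left, List.take_left]

/-- remove repetitions -/
def dd (l : List (List ℕ)) : List (List ℕ) :=
  l.foldr (fun a acc => if ∃ b ∈ acc, b = a then acc else a :: acc) []

theorem dd_eq (l : List (List ℕ)) : dd l = l.dedup := by
  induction l with
  | nil => rfl
  | cons a l ih =>
    rw [dd, List.foldr_cons]
    change (if ∃ b ∈ dd l, b = a then dd l else a :: dd l) = _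
    rw [ih]
    by_cases h : a ∈ l
    · rw [List.dedup_cons_of_mem h, if_pos ⟨a, List.mem_dedup.2 h, rfl⟩]
    · rw [List.dedup_cons_of_notMem h, if_neg]
      rintro ⟨b, hb, rfl⟩
      exact h (List.mem_dedup.1 hb)

/-- the defect, computed -/
def cdefect (w : List ℕ) : ℕ :=
  w.length + 1 - (dd ((facs w).filter fun u => u.reverse = u)).length

theorem cdefect_eq (w : List ℕ) : cdefect w = defect w := by
  have h : Pals w = ↑(((facs w).filter fun u => u.reverse = u).toFinset) := by
    ext u
    simp [Pals, mem_facs]
  rw [cdefect, defect, dd_eq, h, Set.ncard_coe_finset, List.card_toFinset]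

theorem primrec_facs : Primrec facs := by
  refine list_flatMap (list_range.comp (succ.comp list_length)) ?_
  refine list_map (list_range.comp (succ.comp (list_length.comp fst))) ?_
  exact list_take.comp snd (list_drop.comp (snd.comp fst) (fst.comp fst))

theorem primrec_dd : Primrec dd := by
  have h : PrimrecRel fun (L : List (List ℕ)) (a : List ℕ) => ∃ b ∈ L, b = a :=
    PrimrecRel.exists_mem_list (R := fun b a : List ℕ => b = a) Primrec.eq
  refine (list_foldr (σ := List (List ℕ)) (f := id)
    (h := fun _ p => if ∃ b ∈ p.2, b = p.1 then p.2 else p.1 :: p.2) Primrec.id (const []) ?_)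
  refine Primrec.ite (h.comp (snd.comp snd) (fst.comp snd)) (snd.comp snd) ?_
  exact list_cons.comp (fst.comp snd) (snd.comp snd)

theorem primrec_cdefect : Primrec cdefect := by
  have h : PrimrecPred fun u : List ℕ => u.reverse = u := Primrec.eq.comp list_reverse Primrec.id
  exact nat_sub.comp (succ.comp list_length)
    (list_length.comp (primrec_dd.comp ((Primrec.listFilter h).comp primrec_facs)))

/-- the words of length `n` over the letters of `w` -/
def allW (w : List ℕ) (n : ℕ) : List (List ℕ) :=
  n.rec [[]] fun _ L => L.flatMap fun v => w.map fun a => a :: v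

theorem mem_allW {w : List ℕ} {n : ℕ} : ∀ {v : List ℕ},
    v ∈ allW w n ↔ v.length = n ∧ ∀ a ∈ v, a ∈ w := by
  induction n with
  | zero =>
    intro v
    change v ∈ [[]] ↔ _
    rw [List.mem_singleton, List.length_eq_zero_iff]
    constructor
    · rintro rfl; simp
    · exact fun h => h.1
  | succ n ih =>
    intro v
    change v ∈ (allW w n).flatMap (fun v => w.map fun a => a :: v) ↔ _
    simp only [List.mem_flatMap, List.mem_map, ih]
    constructor
    · rintro ⟨v, ⟨h1, h2⟩, a, ha, rfl⟩
      refine ⟨by simp [h1], ?_⟩
      intro b hb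
      rcases List.mem_cons.1 hb with rfl | hb
      · exact ha
      · exact h2 b hb
    · rintro ⟨h1, h2⟩
      cases v with
      | nil => simp at h1
      | cons a v =>
        exact ⟨v, ⟨by simpa using h1, fun b hb => h2 b (List.mem_cons_of_mem _ hb)⟩, a,
          h2 a List.mem_cons_self, rfl⟩

theorem R_iff {w : List ℕ} {k : ℕ} : R w k ↔ ∃ v ∈ allW w (len w k), cdefect (w ++ v) ≤ k := by
  simp only [R, mem_allW, cdefect_eq]
  constructor
  · rintro ⟨v, h1, h2, h3⟩; exact ⟨v, ⟨h1, h2⟩, h3⟩
  · rintro ⟨v, ⟨h1, h2⟩, h3⟩; exact ⟨v, h1, h2, h3⟩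

theorem primrec_two_pow : Primrec fun k : ℕ => 2 ^ k := by
  have h : Primrec fun k : ℕ => (Nat.rec 1 (fun _ r => 2 * r) k : ℕ) :=
    nat_rec₁ 1 (nat_mul.comp (const 2) snd)
  refine h.of_eq fun k => ?_
  induction k with
  | zero => rfl
  | succ k ih =>
    change 2 * (Nat.rec 1 (fun _ r => 2 * r) k : ℕ) = _
    rw [ih, pow_succ, Nat.mul_comm]

theorem primrec_len : Primrec₂ len := by
  refine nat_mul.comp (nat_sub.comp (primrec_two_pow.comp (succ.comp snd)) (const 1)) ?_
  exact nat_add.comp (list_length.comp fst) (const 2)

theorem primrec_allW : Primrec₂ allW := by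
  refine nat_rec (f := fun _ : List ℕ => [[]])
    (g := fun w p => p.2.flatMap fun v => w.map fun a => a :: v) (const [[]]) ?_
  refine list_flatMap (snd.comp snd) ?_
  refine list_map (fst.comp fst) ?_
  exact list_cons.comp snd (snd.comp fst)

theorem primrec_R : PrimrecRel R := by
  have h1 : PrimrecRel fun (v : List ℕ) (b : List ℕ × ℕ) => cdefect (b.1 ++ v) ≤ b.2 :=
    nat_le.comp (primrec_cdefect.comp (list_append.comp (fst.comp snd) fst)) (snd.comp snd)
  have h2 := PrimrecRel.exists_mem_list h1
  have h3 : PrimrecPred fun b : List ℕ × ℕ =>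
      ∃ v ∈ allW b.1 (len b.1 b.2), cdefect (b.1 ++ v) ≤ b.2 :=
    h2.comp (primrec_allW.comp fst (primrec_len.comp fst snd)) Primrec.id
  exact h3.of_eq fun b => R_iff.symm

open Classical in
/-- the infinite defect, computed by counting -/
noncomputable def cinf (w : List ℕ) : ℕ :=
  ((List.range (w.length + 1)).filter fun k => ¬ (R w k ∨ R w.reverse k)).length

theorem cinf_eq {w : List ℕ} (hw : w ≠ []) : cinf w = dinf w := by
  classical
  have hne : {k | R w k ∨ R w.reverse k}.Nonempty := ⟨_, Or.inl (R_length hw)⟩
  have hmem : R w (dinf w) ∨ R w.reverse (dinf w) := Nat.sInf_mem hne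
  have hmin : ∀ k, R w k ∨ R w.reverse k → dinf w ≤ k := fun k hk => Nat.sInf_le hk
  have hrev : w.reverse ≠ [] := by simpa using hw
  have hle : dinf w ≤ w.length := hmin _ (Or.inl (R_length hw))
  have h1 : ∀ k, ¬ (R w k ∨ R w.reverse k) ↔ k < dinf w := by
    intro k
    constructor
    · intro h
      by_contra hc
      apply h
      rcases hmem with h2 | h2
      · exact Or.inl (R_mono hw (by omega) h2)
      · exact Or.inr (R_mono hrev (by omega) h2)
    · intro h h2
      have := hmin k h2
      omega
  have h2 : (List.range (w.length + 1)).filter (fun k => ¬ (R w k ∨ R w.reverse k)) =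
      (List.range (w.length + 1)).filter (fun k => k < dinf w) := by
    apply List.filter_congr
    intro k _
    simp only [h1 k]
  have h3 : (List.range (w.length + 1)).filter (fun k => k < dinf w) = List.range (dinf w) := by
    obtain ⟨d, hd⟩ := Nat.exists_eq_add_of_le hle
    have e : w.length + 1 = dinf w + (d + 1) := by omega
    rw [e, List.range_add, List.filter_append]
    have h4 : (List.range (dinf w)).filter (fun k => k < dinf w) = List.range (dinf w) := by
      rw [List.filter_eq_self]
      intro k hk
      simpa using hk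
    have h5 : ((List.range (d + 1)).map fun x => dinf w + x).filter (fun k => k < dinf w) = [] := by
      rw [List.filter_eq_nil_iff]
      intro k hk
      rw [List.mem_map] at hk
      obtain ⟨x, -, rfl⟩ := hk
      simp
    rw [h4, h5, List.append_nil]
  rw [cinf, h2, h3, List.length_range]

theorem primrec_cinf : Primrec cinf := by
  classical
  have h1 : PrimrecRel fun (k : ℕ) (w : List ℕ) => ¬ (R w k ∨ R w.reverse k) := by
    refine PrimrecPred.not (PrimrecPred.or ?_ ?_)
    · exact primrec_R.comp snd fst
    · exact primrec_R.comp (list_reverse.comp snd) fst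
  have h2 := PrimrecRel.listFilter h1
  exact list_length.comp (h2.comp (list_range.comp (succ.comp list_length)) Primrec.id)

end Pool.Agent.V11259.Def
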