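import Pool.Agent.V11259.EMvas

/-!
# Two-component even matrix grammars: modes 0 and 1

The main result of this file: if a mode 0 language contains `c ^ n z` for infinitely many `n`,
then these `n` contain an infinite arithmetic progression.
-/

namespace Pool.Agent.V11259.EM

open Relation EMvas

/-- A two-component even matrix grammar with nonterminal alphabets `N₁`, `N₂` and terminal
alphabet `T`. A letter `Sum.inl A` is a nonterminal, a letter `Sum.inr a` a terminal. -/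
structure Gram (N₁ N₂ T : Type) where
  /-- the rules `(S) → (v)` with `v ∈ T^*` -/
  fin : List (List T)
  /-- the rules `(S) → (v₁v₂)` -/
  ini : List (List (N₁ ⊕ T) × List (N₂ ⊕ T))
  /-- the rules `(A₁, A₂) → (v₁, v₂)` -/
  rul : List ((N₁ × List (N₁ ⊕ T)) × (N₂ × List (N₂ ⊕ T)))
  /-- `v₁` contains a nonterminal of the first component -/
  ini_fst : ∀ p ∈ ini, ∃ A, Sum.inl A ∈ p.1
  /-- `v₂` contains a nonterminal of the second component -/
  ini_snd : ∀ p ∈ ini, ∃ A, Sum.inl A ∈ p.2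

variable {N₁ N₂ T : Type}

/-- One step in mode 0 (`j = false`) or mode 1 (`j = true`); the pair `(x₁, x₂)` stands for the
sentential form `x₁x₂`. -/
def Step (G : Gram N₁ N₂ T) (j : Bool) (x y : List (N₁ ⊕ T) × List (N₂ ⊕ T)) : Prop :=
  ∃ A₁ v₁ A₂ v₂ u₁ w₁ u₂ w₂, ((A₁, v₁), (A₂, v₂)) ∈ G.rul ∧
    x = (u₁ ++ Sum.inl A₁ :: w₁, u₂ ++ Sum.inl A₂ :: w₂) ∧
    y = (u₁ ++ v₁ ++ w₁, u₂ ++ v₂ ++ w₂) ∧
    (j = true → Sum.inl A₁ ∉ u₁ ∧ Sum.inl A₂ ∉ u₂)

/-- the generated language -/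
def Lang (G : Gram N₁ N₂ T) (j : Bool) : Set (List T) :=
  {w | w ∈ G.fin ∨ ∃ p ∈ G.ini, ∃ y₁ y₂ : List T, w = y₁ ++ y₂ ∧
    ReflTransGen (Step G j) p (y₁.map Sum.inr, y₂.map Sum.inr)}

/-- the family `₂EM_j` of languages over the alphabet `T` -/
def Family (T : Type) (j : Bool) : Set (Set (List T)) :=
  {L | ∃ (N₁ N₂ : Type) (_ : Finite N₁) (_ : Finite N₂) (G : Gram N₁ N₂ T), L = Lang G j}

section Ann

variable (c z : T) {N : Type}

/-- annotated reading of a word by the automaton of `c^* z` -/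
inductive Ann : Bool → List (N ⊕ T) → Multiset (N × Bool × Bool) → ℕ → Bool → Prop
  | nil (p : Bool) : Ann p [] 0 0 p
  | c {x : List (N ⊕ T)} {μ : Multiset (N × Bool × Bool)} {s : ℕ} {q : Bool}
      (h : Ann false x μ s q) : Ann false (Sum.inr c :: x) μ (s + 1) q
  | z {x : List (N ⊕ T)} {μ : Multiset (N × Bool × Bool)} {s : ℕ} {q : Bool}
      (h : Ann true x μ s q) : Ann false (Sum.inr z :: x) μ s q
  | n {A : N} {p p' : Bool} {x : List (N ⊕ T)} {μ : Multiset (N × Bool × Bool)} {s : ℕ}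
      {q : Bool} (h : Ann p' x μ s q) : Ann p (Sum.inl A :: x) ((A, p, p') ::ₘ μ) s q

variable {c z}

theorem Ann.append {p r q : Bool} {x y : List (N ⊕ T)} {μ ν : Multiset (N × Bool × Bool)}
    {s t : ℕ} (h1 : Ann c z p x μ s r) (h2 : Ann c z r y ν t q) :
    Ann c z p (x ++ y) (μ + ν) (s + t) q := by
  induction h1 with
  | nil => simpa using h2
  | c _ ih =>
    have e : ∀ s : ℕ, s + 1 + t = (s + t) + 1 := fun s => by ring
    rw [e]
    exact Ann.c (ih h2)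
  | z _ ih => exact Ann.z (ih h2)
  | n _ ih =>
    rw [Multiset.cons_add]
    exact Ann.n (ih h2)

theorem Ann.split {x y : List (N ⊕ T)} : ∀ {p q : Bool} {μ : Multiset (N × Bool × Bool)}
    {s : ℕ}, Ann c z p (x ++ y) μ s q → ∃ r μ₁ μ₂ s₁ s₂, Ann c z p x μ₁ s₁ r ∧
      Ann c z r y μ₂ s₂ q ∧ μ = μ₁ + μ₂ ∧ s = s₁ + s₂ := by
  induction x with
  | nil =>
    intro p q μ s h
    exact ⟨p, 0, μ, 0, s, Ann.nil p, h, by simp, by simp⟩
  | cons a x ih =>
    intro p q μ s h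
    rw [List.cons_append] at h
    cases h with
    | c h =>
      obtain ⟨r, μ₁, μ₂, s₁, s₂, h1, h2, h3, h4⟩ := ih h
      exact ⟨r, μ₁, μ₂, s₁ + 1, s₂, Ann.c h1, h2, h3, by omega⟩
    | z h =>
      obtain ⟨r, μ₁, μ₂, s₁, s₂, h1, h2, h3, h4⟩ := ih h
      exact ⟨r, μ₁, μ₂, s₁, s₂, Ann.z h1, h2, h3, h4⟩
    | n h =>
      obtain ⟨r, μ₁, μ₂, s₁, s₂, h1, h2, h3, h4⟩ := ih h
      refine ⟨r, _, μ₂, s₁, s₂, Ann.n h1, h2, ?_, h4⟩
      rw [h3, Multiset.cons_add]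

theorem Ann.find {p q : Bool} {x : List (N ⊕ T)} {μ : Multiset (N × Bool × Bool)} {s : ℕ}
    (h : Ann c z p x μ s q) {A : N} {p₁ q₁ : Bool} (hm : (A, p₁, q₁) ∈ μ) :
    ∃ u w μ₁ μ₂ s₁ s₂, x = u ++ Sum.inl A :: w ∧ Ann c z p u μ₁ s₁ p₁ ∧
      Ann c z q₁ w μ₂ s₂ q ∧ μ = (A, p₁, q₁) ::ₘ (μ₁ + μ₂) ∧ s = s₁ + s₂ := by
  induction h with
  | nil => simp at hm
  | c h ih =>
    obtain ⟨u, w, μ₁, μ₂, s₁, s₂, h1, h2, h3, h4, h5⟩ := ih hm
    exact ⟨_, w, μ₁, μ₂, s₁ + 1, s₂, by rw [h1]; rfl, Ann.c h2, h3, h4, by omega⟩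
  | z h ih =>
    obtain ⟨u, w, μ₁, μ₂, s₁, s₂, h1, h2, h3, h4, h5⟩ := ih hm
    exact ⟨_, w, μ₁, μ₂, s₁, s₂, by rw [h1]; rfl, Ann.z h2, h3, h4, h5⟩
  | n h ih =>
    rename_i B p p' x μ s q
    by_cases he : (A, p₁, q₁) = (B, p, p')
    · simp only [Prod.mk.injEq] at he
      obtain ⟨rfl, rfl, rfl⟩ := he
      exact ⟨[], x, 0, μ, 0, s, rfl, Ann.nil _, h, by simp, by simp⟩
    · rw [Multiset.mem_cons] at hm
      rcases hm with hm | hm
      · exact absurd hm he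
      · obtain ⟨u, w, μ₁, μ₂, s₁, s₂, h1, h2, h3, h4, h5⟩ := ih hm
        refine ⟨_, w, _, μ₂, s₁, s₂, by rw [h1]; rfl, Ann.n h2, h3, ?_, h5⟩
        rw [h4, Multiset.cons_add, Multiset.cons_swap]

theorem Ann.finite (x : List (N ⊕ T)) : ∀ p : Bool,
    {t : Multiset (N × Bool × Bool) × ℕ × Bool | Ann c z p x t.1 t.2.1 t.2.2}.Finite := by
  induction x with
  | nil =>
    intro p
    refine (Set.finite_singleton ((0 : Multiset (N × Bool × Bool)), 0, p)).subset ?_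
    rintro ⟨μ, s, q⟩ h
    simp only [Set.mem_ofPred_eq] at h
    cases h
    rfl
  | cons a x ih =>
    intro p
    refine ((((ih false).image fun t => (t.1, t.2.1 + 1, t.2.2)).union (ih true)).union
      ((((ih false).image fun t => ((Sum.elim (fun A => {(A, p, false)}) (fun _ => 0) a) + t.1,
        t.2.1, t.2.2))).union (((ih true).image fun t =>
        ((Sum.elim (fun A => {(A, p, true)}) (fun _ => 0) a) + t.1,
        t.2.1, t.2.2))))).subset ?_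
    rintro ⟨μ, s, q⟩ h
    simp only [Set.mem_ofPred_eq] at h
    cases h with
    | c h =>
      refine Or.inl (Or.inl ⟨(μ, _, q), h, rfl⟩)
    | z h =>
      exact Or.inl (Or.inr h)
    | n h =>
      rename_i A p' μ
      cases p'
      · refine Or.inr (Or.inl ⟨(μ, s, q), h, ?_⟩)
        simp
      · refine Or.inr (Or.inr ⟨(μ, s, q), h, ?_⟩)
        simp

/-- reading a terminal word -/
def TA (c z : T) (p : Bool) (y : List T) (s : ℕ) (q : Bool) : Prop :=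
  y ++ (bif q then [] else [z]) = List.replicate s c ++ (bif p then [] else [z]) ∧
    (p = true → s = 0)

theorem Ann.terminal {p q : Bool} {x : List (N ⊕ T)} {μ : Multiset (N × Bool × Bool)} {s : ℕ}
    (h : Ann c z p x μ s q) (hμ : μ = 0) :
    ∃ y : List T, x = y.map Sum.inr ∧ TA c z p y s q := by
  induction h with
  | nil p => exact ⟨[], rfl, by cases p <;> simp [TA]⟩
  | c h ih =>
    obtain ⟨y, hy, h1, h2⟩ := ih hμ
    refine ⟨c :: y, by rw [hy]; rfl, ?_, by simp⟩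
    rw [List.cons_append, h1, List.replicate_succ, List.cons_append]
  | z h ih =>
    rename_i q
    obtain ⟨y, hy, h1, h2⟩ := ih hμ
    refine ⟨z :: y, by rw [hy]; rfl, ?_, by simp⟩
    rw [h2 rfl] at h1 ⊢
    rw [List.cons_append, h1]
    rfl
  | n h ih =>
    exact absurd hμ (Multiset.cons_ne_zero)

theorem TA.comp {p q r : Bool} {y y' : List T} {s s' : ℕ}
    (h1 : TA c z p y s r) (h2 : TA c z r y' s' q) : TA c z p (y ++ y') (s + s') q := by
  obtain ⟨h1, h1'⟩ := h1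
  obtain ⟨h2, h2'⟩ := h2
  cases r
  · cases p
    · simp only [cond_false] at h1 h2
      refine ⟨?_, by simp⟩
      have h3 : y = List.replicate s c := List.append_cancel_right h1
      rw [List.append_assoc, h2, h3, ← List.append_assoc, List.replicate_append_replicate]
      rfl
    · exfalso
      rw [h1' rfl] at h1
      simp at h1
  · have h3 := h2' rfl
    subst h3
    simp only [cond_true, List.replicate_zero, List.append_nil] at h2 h1
    have h4 : y' = [] := by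
      cases y' with
      | nil => rfl
      | cons a l => simp at h2
    subst h4
    cases q
    · simp at h2
    · refine ⟨?_, ?_⟩
      · simpa using h1
      · intro hp; simp [h1' hp]

theorem ann_word (n : ℕ) : Ann c z (N := N) false
    ((List.replicate n c ++ [z]).map Sum.inr) 0 n true := by
  induction n with
  | zero => exact Ann.z (Ann.nil _)
  | succ n ih =>
    rw [List.replicate_succ, List.cons_append, List.map_cons]
    exact Ann.c ih

theorem ann_change {N' : Type} {y : List T} : ∀ {p q : Bool} {μ : Multiset (N × Bool × Bool)}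
    {s : ℕ}, Ann c z p (y.map Sum.inr : List (N ⊕ T)) μ s q →
      μ = 0 ∧ Ann c z p (y.map Sum.inr : List (N' ⊕ T)) 0 s q := by
  induction y with
  | nil =>
    intro p q μ s h
    cases h
    exact ⟨rfl, Ann.nil _⟩
  | cons a y ih =>
    intro p q μ s h
    rw [List.map_cons] at h
    cases h with
    | c h => exact ⟨(ih h).1, Ann.c (ih h).2⟩
    | z h => exact ⟨(ih h).1, Ann.z (ih h).2⟩

end Ann

section VAS

variable (G : Gram N₁ N₂ T) (c z : T)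

/-- markings of the vector addition system -/
abbrev Mark (N₁ N₂ : Type) : Type :=
  Multiset (N₁ × Bool × Bool) × Multiset (N₂ × Bool × Bool)

/-- the transitions -/
def Tr : Set (Mark N₁ N₂ × ℕ × Mark N₁ N₂) :=
  {t | ∃ A₁ v₁ A₂ v₂ p₁ q₁ p₂ q₂ ν₁ o₁ ν₂ o₂, ((A₁, v₁), (A₂, v₂)) ∈ G.rul ∧
    Ann c z p₁ v₁ ν₁ o₁ q₁ ∧ Ann c z p₂ v₂ ν₂ o₂ q₂ ∧
    t = (({(A₁, p₁, q₁)}, {(A₂, p₂, q₂)}), o₁ + o₂, (ν₁, ν₂))}

theorem tr_finite : (Tr G c z).Finite := by
  have h1 : (⋃ ρ ∈ {ρ | ρ ∈ G.rul}, ⋃ p₁ ∈ (Set.univ : Set Bool), ⋃ p₂ ∈ (Set.univ : Set Bool),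
      ⋃ a ∈ {t : Multiset (N₁ × Bool × Bool) × ℕ × Bool | Ann c z p₁ ρ.1.2 t.1 t.2.1 t.2.2},
      ⋃ b ∈ {t : Multiset (N₂ × Bool × Bool) × ℕ × Bool | Ann c z p₂ ρ.2.2 t.1 t.2.1 t.2.2},
      ({((({(ρ.1.1, p₁, a.2.2)}, {(ρ.2.1, p₂, b.2.2)}) : Mark N₁ N₂), a.2.1 + b.2.1,
        ((a.1, b.1) : Mark N₁ N₂))} : Set (Mark N₁ N₂ × ℕ × Mark N₁ N₂))).Finite := by
    refine (List.finite_toSet G.rul).biUnion fun ρ _ => ?_
    refine Set.finite_univ.biUnion fun p₁ _ => ?_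
    refine Set.finite_univ.biUnion fun p₂ _ => ?_
    refine (Ann.finite ρ.1.2 p₁).biUnion fun a _ => ?_
    refine (Ann.finite ρ.2.2 p₂).biUnion fun b _ => ?_
    exact Set.finite_singleton _
  refine h1.subset ?_
  rintro t ⟨A₁, v₁, A₂, v₂, p₁, q₁, p₂, q₂, ν₁, o₁, ν₂, o₂, hr, ha, hb, rfl⟩
  simp only [Set.mem_iUnion]
  exact ⟨((A₁, v₁), (A₂, v₂)), hr, p₁, trivial, p₂, trivial, (ν₁, o₁, q₁), ha, (ν₂, o₂, q₂), hb,
    rfl⟩

variable {G c z}

theorem toVas {p : List (N₁ ⊕ T) × List (N₂ ⊕ T)} {y₁ y₂ : List T} {n : ℕ}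
    (h : ReflTransGen (Step G false) p (y₁.map Sum.inr, y₂.map Sum.inr))
    (hy : y₁ ++ y₂ = List.replicate n c ++ [z]) :
    ∃ μ₁ s₁ r μ₂ s₂ o, Ann c z false p.1 μ₁ s₁ r ∧ Ann c z r p.2 μ₂ s₂ true ∧
      Rch (Tr G c z) (μ₁, μ₂) o 0 ∧ s₁ + s₂ + o = n := by
  induction h using ReflTransGen.head_induction_on with
  | refl =>
    have h1 := ann_word (c := c) (z := z) (N := N₁) n
    rw [← hy, List.map_append] at h1
    obtain ⟨r, μ₁, μ₂, s₁, s₂, h2, h3, h4, h5⟩ := h1.split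
    obtain ⟨h6, h7⟩ := ann_change (N' := N₁) h2
    obtain ⟨h8, h9⟩ := ann_change (N' := N₂) h3
    exact ⟨0, s₁, r, 0, s₂, 0, h7, h9, Rch.refl _, by omega⟩
  | head hs _ ih =>
    rename_i a b
    obtain ⟨A₁, v₁, A₂, v₂, u₁, w₁, u₂, w₂, hr, rfl, rfl, -⟩ := hs
    obtain ⟨μ₁, s₁, r, μ₂, s₂, o, h1, h2, h3, h4⟩ := ih
    simp only at h1 h2 ⊢
    obtain ⟨q₁, m₁, n₁, t₁, t₁', h5, h6, rfl, rfl⟩ := h1.split
    obtain ⟨p₁, m₁', k₁, i₁, i₁', h7, h8, rfl, rfl⟩ := h5.split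
    obtain ⟨q₂, m₂, n₂, t₂, t₂', h9, h10, rfl, rfl⟩ := h2.split
    obtain ⟨p₂, m₂', k₂, i₂, i₂', h11, h12, rfl, rfl⟩ := h9.split
    refine ⟨m₁' + ((A₁, p₁, q₁) ::ₘ n₁), i₁ + t₁', r, m₂' + ((A₂, p₂, q₂) ::ₘ n₂), i₂ + t₂',
      (i₁' + i₂') + o, h7.append (Ann.n h6), h11.append (Ann.n h10), ?_, by omega⟩
    have e1 : ((m₁' + ((A₁, p₁, q₁) ::ₘ n₁), m₂' + ((A₂, p₂, q₂) ::ₘ n₂)) : Mark N₁ N₂) =
        (({(A₁, p₁, q₁)}, {(A₂, p₂, q₂)}) : Mark N₁ N₂) + (m₁' + n₁, m₂' + n₂) := by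
      rw [Prod.mk_add_mk, Multiset.add_cons, Multiset.add_cons, Multiset.singleton_add,
        Multiset.singleton_add]
    rw [e1]
    refine Rch.step (b := (k₁, k₂)) _ ⟨A₁, v₁, A₂, v₂, p₁, q₁, p₂, q₂, k₁, i₁', k₂, i₂', hr, h8,
      h12, rfl⟩ ?_
    have e2 : ((k₁, k₂) : Mark N₁ N₂) + (m₁' + n₁, m₂' + n₂) =
        (m₁' + k₁ + n₁, m₂' + k₂ + n₂) := by
      rw [Prod.mk_add_mk]
      congr 1 <;> abel
    rw [e2]
    exact h3

theorem ofVas {m f : Mark N₁ N₂} {o : ℕ} (h : Rch (Tr G c z) m o f)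
    (hf : f = 0) : ∀ {x₁ : List (N₁ ⊕ T)} {x₂ : List (N₂ ⊕ T)} {s₁ s₂ : ℕ} {r : Bool},
      Ann c z false x₁ m.1 s₁ r → Ann c z r x₂ m.2 s₂ true →
      ∃ y₁ y₂ : List T, ReflTransGen (Step G false) (x₁, x₂) (y₁.map Sum.inr, y₂.map Sum.inr) ∧
        y₁ ++ y₂ = List.replicate (s₁ + s₂ + o) c ++ [z] := by
  induction h with
  | refl x =>
    subst hf
    intro x₁ x₂ s₁ s₂ r h1 h2
    obtain ⟨y₁, rfl, h3⟩ := h1.terminal rfl
    obtain ⟨y₂, rfl, h4⟩ := h2.terminal rfl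
    refine ⟨y₁, y₂, ReflTransGen.refl, ?_⟩
    have h5 := (TA.comp h3 h4).1
    simpa using h5
  | step ζ hW _ ih =>
    intro x₁ x₂ s₁ s₂ r h1 h2
    obtain ⟨A₁, v₁, A₂, v₂, p₁, q₁, p₂, q₂, ν₁, o₁, ν₂, o₂, hr, ha, hb, he⟩ := hW
    simp only [Prod.mk.injEq] at he
    obtain ⟨rfl, rfl, rfl⟩ := he
    obtain ⟨u₁, w₁, m₁, n₁, t₁, t₁', rfl, h3, h4, h5, rfl⟩ :=
      h1.find (A := A₁) (p₁ := p₁) (q₁ := q₁) (by simp)
    obtain ⟨u₂, w₂, m₂, n₂, t₂, t₂', rfl, h6, h7, h8, rfl⟩ :=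
      h2.find (A := A₂) (p₁ := p₂) (q₁ := q₂) (by simp)
    have h5' : ζ.1 = m₁ + n₁ := by
      simpa [Multiset.singleton_add] using h5
    have h8' : ζ.2 = m₂ + n₂ := by
      simpa [Multiset.singleton_add] using h8
    have h9 := (h3.append ha).append h4
    have h10 := (h6.append hb).append h7
    obtain ⟨y₁, y₂, hd, hy⟩ := ih hf (x₁ := u₁ ++ v₁ ++ w₁) (x₂ := u₂ ++ v₂ ++ w₂)
      (s₁ := t₁ + o₁ + t₁') (s₂ := t₂ + o₂ + t₂') (r := r)
      (by
        have e : (((ν₁, ν₂) : Mark N₁ N₂) + ζ).1 = m₁ + ν₁ + n₁ := by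
          rw [Prod.fst_add, h5']; abel
        rw [e]; exact h9)
      (by
        have e : (((ν₁, ν₂) : Mark N₁ N₂) + ζ).2 = m₂ + ν₂ + n₂ := by
          rw [Prod.snd_add, h8']; abel
        rw [e]; exact h10)
    refine ⟨y₁, y₂, ReflTransGen.head ⟨A₁, v₁, A₂, v₂, u₁, w₁, u₂, w₂, hr, rfl, rfl, by simp⟩ hd,
      ?_⟩
    rw [hy]
    congr 2
    omega

theorem multiset_pwo (A : Type) [Finite A] : WellQuasiOrderedLE (Multiset A) := by
  classical
  refine ⟨fun f => ?_⟩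
  obtain ⟨m, n, hmn, h⟩ := wellQuasiOrdered_le (α := A → ℕ) fun n a => (f n).count a
  exact ⟨m, n, hmn, Multiset.le_iff_count.2 fun a => h a⟩

/-- **A mode 0 language with infinitely many words `c ^ n z` contains them along an arithmetic
progression.** -/
theorem progression_zero [Finite N₁] [Finite N₂]
    (hinf : {n : ℕ | List.replicate n c ++ [z] ∈ Lang G false}.Infinite) :
    ∃ a d : ℕ, 0 < d ∧ ∀ k : ℕ, List.replicate (a + k * d) c ++ [z] ∈ Lang G false := by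
  classical
  by_contra hno
  apply hinf
  -- the finitely many words coming from start rules
  have hF : {n : ℕ | List.replicate n c ++ [z] ∈ G.fin}.Finite := by
    refine Set.Finite.preimage (f := fun n => List.replicate n c ++ [z]) ?_
      (List.finite_toSet G.fin)
    intro a _ b _ hab
    have := congrArg List.length hab
    simpa using this
  have hS : (⋃ p ∈ {p | p ∈ G.ini},
      ⋃ a ∈ {t : Multiset (N₁ × Bool × Bool) × ℕ × Bool | Ann c z false p.1 t.1 t.2.1 t.2.2},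
      ⋃ b ∈ {t : Multiset (N₂ × Bool × Bool) × ℕ × Bool | Ann c z a.2.2 p.2 t.1 t.2.1 t.2.2},
      {n : ℕ | b.2.2 = true ∧ ∃ o, Rch (Tr G c z) (a.1, b.1) o 0 ∧
        a.2.1 + b.2.1 + o = n}).Finite := by
    refine (List.finite_toSet G.ini).biUnion fun p hp => ?_
    refine (Ann.finite p.1 false).biUnion fun a ha => ?_
    refine (Ann.finite p.2 a.2.2).biUnion fun b hb => ?_
    by_cases hbt : b.2.2 = true
    · have h1 : {o : ℕ | Rch (Tr G c z) (a.1, b.1) o 0}.Finite := by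
        by_contra hinf'
        have hw1 := multiset_pwo (N₁ × Bool × Bool)
        have hw2 := multiset_pwo (N₂ × Bool × Bool)
        obtain ⟨e, d, hd, H⟩ := progression (M := Mark N₁ N₂)
          (fun a b hab => by
            obtain ⟨u, hu⟩ := le_iff_exists_add.1 hab.1
            obtain ⟨v, hv⟩ := le_iff_exists_add.1 hab.2
            exact ⟨(u, v), Prod.ext hu hv⟩)
          (fun a b c h => add_left_cancel h)
          (Set.isPWO_of_wellQuasiOrderedLE _) (tr_finite G c z) hinf'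
        apply hno
        refine ⟨a.2.1 + b.2.1 + e, d, hd, fun k => Or.inr ⟨p, hp, ?_⟩⟩
        have hb' : Ann c z a.2.2 p.2 b.1 b.2.1 true := by rw [← hbt]; exact hb
        obtain ⟨y₁, y₂, hd, hy⟩ := ofVas (H k) rfl (x₁ := p.1) (x₂ := p.2) ha hb'
        refine ⟨y₁, y₂, ?_, hd⟩
        rw [hy]
        congr 2
        ring
      refine (h1.image fun o => a.2.1 + b.2.1 + o).subset ?_
      rintro n ⟨-, o, ho, rfl⟩
      exact ⟨o, ho, rfl⟩
    · refine Set.finite_empty.subset ?_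
      rintro n ⟨h, -⟩
      exact absurd h hbt
  refine (hF.union hS).subset ?_
  rintro n (hn | ⟨p, hp, y₁, y₂, hy, hd⟩)
  · exact Or.inl hn
  · right
    obtain ⟨μ₁, s₁, r, μ₂, s₂, o, h1, h2, h3, h4⟩ := toVas hd hy.symm
    simp only [Set.mem_iUnion]
    exact ⟨p, hp, (μ₁, s₁, r), h1, (μ₂, s₂, true), h2, rfl, o, h3, h4⟩

end VAS

end Pool.Agent.V11259.EM
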