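import Pool.Agent.V11259.EMdef

/-!
# A mode 1 language which is not a mode 0 language

The grammar doubles the number of nonterminals in each round; the end of a round is guessed, and a
wrong guess moves the end marker away from the right end of the first component.
-/

namespace Pool.Agent.V11259.EM

open Relation

variable {T : Type}

/-- nonterminals of the first component: `some b` is a counted symbol, `none` the end marker -/
abbrev P₁ : Type := Option Bool

/-- nonterminals of the second component: the states -/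
abbrev P₂ : Type := Option (Bool × Bool)

/-- round `b` -/
def qs (b : Bool) : P₂ := some (false, b)

/-- the end marker is replaced by a symbol `b` -/
def ts (b : Bool) : P₂ := some (true, b)

/-- the last phase -/
def fs : P₂ := none

/-- a symbol of the first component -/
def sy (b : Bool) : P₁ ⊕ T := Sum.inl (some b)

/-- the end marker -/
def mk : P₁ ⊕ T := Sum.inl none

/-- the grammar -/
def dbl (c z : T) : Gram P₁ P₂ T where
  fin := []
  ini := [([sy false, mk], [Sum.inl (qs false)])]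
  rul := [((some false, [sy true, sy true]), (qs false, [Sum.inl (qs false)])),
    ((some true, [sy false, sy false]), (qs true, [Sum.inl (qs true)])),
    ((none, [sy false]), (qs false, [Sum.inl (ts false)])),
    ((none, [sy true]), (qs true, [Sum.inl (ts true)])),
    ((some false, [mk]), (ts false, [Sum.inl (qs true)])),
    ((some true, [mk]), (ts true, [Sum.inl (qs false)])),
    ((some false, [Sum.inr c]), (qs false, [Sum.inl fs])),
    ((some false, [Sum.inr c]), (fs, [Sum.inl fs])),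
    ((none, [Sum.inr z]), (fs, []))]
  ini_fst := by
    intro p hp
    rw [List.mem_singleton] at hp
    subst hp
    exact ⟨some false, by simp [sy]⟩
  ini_snd := by
    intro p hp
    rw [List.mem_singleton] at hp
    subst hp
    exact ⟨qs false, by simp⟩

/-- is it the symbol `b`? -/
def isS (b : Bool) : P₁ ⊕ T → Bool
  | Sum.inl (some b') => b == b'
  | _ => false

/-- is it the end marker? -/
def isM : P₁ ⊕ T → Bool
  | Sum.inl none => true
  | _ => false

/-- is it a terminal? -/
def isT : P₁ ⊕ T → Bool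
  | Sum.inr _ => true
  | _ => false

/-- the intended configurations -/
def Gd (b : Bool) (γ : List (P₁ ⊕ T)) : Prop :=
  γ.countP isM = 0 ∧ γ.countP isT = 0 ∧
    ∃ k, 2 * γ.countP (isS b) + γ.countP (isS (!b)) = 2 ^ (k + 1) ∧ (Even k ↔ b = false)

/-- the intended configurations of the last phase -/
def Ge (c : T) (γ : List (P₁ ⊕ T)) : Prop :=
  (∀ a, Sum.inr a ∈ γ → a = c) ∧
    (0 < γ.countP (isS true) ∨ ∃ j, γ.countP (isS false) + γ.countP isT = 4 ^ j)

/-- the invariant -/
def Inv (c z : T) (x : List (P₁ ⊕ T) × List (P₂ ⊕ T)) : Prop :=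
  ∃ γ σ, x.1 = γ ++ [σ] ∧
    ((∃ b, x.2 = [Sum.inl (qs b)] ∧ ((σ ≠ mk ∧ σ ≠ Sum.inr z) ∨ (σ = mk ∧ Gd b γ))) ∨
     (∃ b, x.2 = [Sum.inl (ts b)] ∧ ((0 < γ.countP (isS b) ∧ σ ≠ mk ∧ σ ≠ Sum.inr z) ∨
        (σ = sy b ∧ Gd b γ))) ∨
     (x.2 = [Sum.inl fs] ∧ ((σ ≠ mk ∧ σ ≠ Sum.inr z) ∨
        (σ = mk ∧ γ.countP isM = 0 ∧ Ge c γ))) ∨
     (x.2 = [] ∧ ((σ ≠ mk ∧ σ ≠ Sum.inr z) ∨ (σ = Sum.inr z ∧ Ge c γ))))

theorem lastc {α : Type} {u w γ : List α} {a σ : α} (h : u ++ a :: w = γ ++ [σ]) :
    (w = [] ∧ u = γ ∧ a = σ) ∨ (∃ w', w = w' ++ [σ] ∧ γ = u ++ a :: w') := by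
  rcases List.eq_nil_or_concat w with rfl | ⟨w', τ, rfl⟩
  · left
    have h1 := List.append_inj' h rfl
    exact ⟨rfl, h1.1, by simpa using h1.2⟩
  · right
    have h2 : (u ++ a :: w') ++ [τ] = γ ++ [σ] := by
      rw [← h]; simp
    have h1 := List.append_inj' h2 rfl
    have h3 : τ = σ := by simpa using h1.2
    subst h3
    exact ⟨w', by simp, h1.1.symm⟩

theorem single {α : Type} {u w : List α} {a s : α} (h : [s] = u ++ a :: w) :
    u = [] ∧ w = [] ∧ a = s := by
  cases u with
  | nil =>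
    simp only [List.nil_append, List.cons.injEq] at h
    exact ⟨rfl, h.2.symm, h.1.symm⟩
  | cons b u =>
    simp at h

theorem inv_start (c z : T) : Inv c z ([sy false, mk], [Sum.inl (qs false)]) := by
  refine ⟨[sy false], mk, rfl, Or.inl ⟨false, rfl, Or.inr ⟨rfl, ?_⟩⟩⟩
  refine ⟨by simp [sy, isM], by simp [sy, isT], 0, ?_, by simp⟩
  simp [sy, isS]

theorem mem_rul {c z : T} {A₁ : P₁} {v₁ : List (P₁ ⊕ T)} {A₂ : P₂} {v₂ : List (P₂ ⊕ T)}
    (h : ((A₁, v₁), (A₂, v₂)) ∈ (dbl c z).rul) :
    (∃ b, A₁ = some b ∧ v₁ = [sy !b, sy !b] ∧ A₂ = qs b ∧ v₂ = [Sum.inl (qs b)]) ∨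
    (∃ b, A₁ = none ∧ v₁ = [sy b] ∧ A₂ = qs b ∧ v₂ = [Sum.inl (ts b)]) ∨
    (∃ b, A₁ = some b ∧ v₁ = [mk] ∧ A₂ = ts b ∧ v₂ = [Sum.inl (qs !b)]) ∨
    (A₁ = some false ∧ v₁ = [Sum.inr c] ∧ A₂ = qs false ∧ v₂ = [Sum.inl fs]) ∨
    (A₁ = some false ∧ v₁ = [Sum.inr c] ∧ A₂ = fs ∧ v₂ = [Sum.inl fs]) ∨
    (A₁ = none ∧ v₁ = [Sum.inr z] ∧ A₂ = fs ∧ v₂ = []) := by
  simp only [dbl, List.mem_cons, Prod.mk.injEq, List.not_mem_nil, or_false] at h
  rcases h with h | h | h | h | h | h | h | h | h <;> obtain ⟨⟨rfl, rfl⟩, rfl, rfl⟩ := h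
  · exact Or.inl ⟨false, rfl, rfl, rfl, rfl⟩
  · exact Or.inl ⟨true, rfl, rfl, rfl, rfl⟩
  · exact Or.inr (Or.inl ⟨false, rfl, rfl, rfl, rfl⟩)
  · exact Or.inr (Or.inl ⟨true, rfl, rfl, rfl, rfl⟩)
  · exact Or.inr (Or.inr (Or.inl ⟨false, rfl, rfl, rfl, rfl⟩))
  · exact Or.inr (Or.inr (Or.inl ⟨true, rfl, rfl, rfl, rfl⟩))
  · exact Or.inr (Or.inr (Or.inr (Or.inl ⟨rfl, rfl, rfl, rfl⟩)))
  · exact Or.inr (Or.inr (Or.inr (Or.inr (Or.inl ⟨rfl, rfl, rfl, rfl⟩))))
  · exact Or.inr (Or.inr (Or.inr (Or.inr (Or.inr ⟨rfl, rfl, rfl, rfl⟩))))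

@[simp] theorem isS_sy (b b' : Bool) : isS (T := T) b (sy b') = (b == b') := rfl
@[simp] theorem isS_mk (b : Bool) : isS (T := T) b mk = false := rfl
@[simp] theorem isS_inr (b : Bool) (a : T) : isS b (Sum.inr a) = false := rfl
@[simp] theorem isM_sy (b : Bool) : isM (T := T) (sy b) = false := rfl
@[simp] theorem isM_mk : isM (T := T) mk = true := rfl
@[simp] theorem isM_inr (a : T) : isM (Sum.inr a) = false := rfl
@[simp] theorem isT_sy (b : Bool) : isT (T := T) (sy b) = false := rfl
@[simp] theorem isT_mk : isT (T := T) mk = false := rfl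
@[simp] theorem isT_inr (a : T) : isT (Sum.inr a) = true := rfl

theorem sy_ne_mk (b : Bool) : (sy b : P₁ ⊕ T) ≠ mk := by simp [sy, mk]
theorem sy_ne_inr (b : Bool) (a : T) : (sy b : P₁ ⊕ T) ≠ Sum.inr a := by simp [sy]
theorem inr_ne_mk (a : T) : (Sum.inr a : P₁ ⊕ T) ≠ mk := by simp [mk]

theorem inv_step {c z : T} (hcz : c ≠ z) {x y : List (P₁ ⊕ T) × List (P₂ ⊕ T)}
    (h : Inv c z x) (hs : Step (dbl c z) true x y) : Inv c z y := by
  obtain ⟨A₁, v₁, A₂, v₂, u₁, w₁, u₂, w₂, hr, rfl, rfl, hm⟩ := hs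
  have hm1 := (hm rfl).1
  clear hm
  obtain ⟨γ, σ, h1, h2⟩ := h
  simp only at h1 h2
  have hcz' : (Sum.inr c : P₁ ⊕ T) ≠ Sum.inr z := by simpa using hcz
  rcases h2 with ⟨b, hx, h3⟩ | ⟨b, hx, h3⟩ | ⟨hx, h3⟩ | ⟨hx, h3⟩
  · -- round `b`
    obtain ⟨rfl, rfl, hA⟩ := single hx.symm
    simp only [List.nil_append, List.append_nil]
    rcases mem_rul hr with ⟨b', rfl, rfl, h4, rfl⟩ | ⟨b', rfl, rfl, h4, rfl⟩ |
      ⟨b', rfl, rfl, h4, rfl⟩ | ⟨rfl, rfl, h4, rfl⟩ | ⟨rfl, rfl, h4, rfl⟩ | ⟨rfl, rfl, h4, rfl⟩ <;>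
      subst h4 <;> simp only [Sum.inl.injEq, qs, ts, fs, Option.some.injEq, Prod.mk.injEq,
        true_and, reduceCtorEq, Bool.true_eq_false, false_and] at hA
    · subst hA
      rcases lastc h1 with ⟨rfl, rfl, rfl⟩ | ⟨w', rfl, rfl⟩
      · refine ⟨u₁ ++ [sy !b'], sy !b', by simp, Or.inl ⟨b', rfl, Or.inl ⟨sy_ne_mk _,
          sy_ne_inr _ _⟩⟩⟩
      · refine ⟨u₁ ++ [sy !b', sy !b'] ++ w', σ, by simp, Or.inl ⟨b', rfl, ?_⟩⟩
        rcases h3 with h3 | ⟨h3, h5, h6, k, h7, h8⟩
        · exact Or.inl h3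
        · refine Or.inr ⟨h3, ?_, ?_, k, ?_, h8⟩
          · change List.countP isM (u₁ ++ sy b' :: w') = 0 at h5
            simp only [List.countP_append, List.countP_cons, isM_sy, List.countP_nil,
              Bool.false_eq_true, if_false] at h5 ⊢
            omega
          · change List.countP isT (u₁ ++ sy b' :: w') = 0 at h6
            simp only [List.countP_append, List.countP_cons, isT_sy, List.countP_nil,
              Bool.false_eq_true, if_false] at h6 ⊢
            omega
          · change 2 * List.countP (isS b') (u₁ ++ sy b' :: w') +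
              List.countP (isS !b') (u₁ ++ sy b' :: w') = 2 ^ (k + 1) at h7
            rw [← h7]
            cases b' <;> simp <;> ring
    · subst hA
      rcases lastc h1 with ⟨rfl, rfl, rfl⟩ | ⟨w', rfl, rfl⟩
      · refine ⟨u₁, sy b', by simp, Or.inr (Or.inl ⟨b', rfl, ?_⟩)⟩
        rcases h3 with h3 | ⟨h3, h5⟩
        · exact absurd rfl h3.1
        · exact Or.inr ⟨rfl, h5⟩
      · refine ⟨u₁ ++ [sy b'] ++ w', σ, by simp, Or.inr (Or.inl ⟨b', rfl, ?_⟩)⟩
        rcases h3 with h3 | ⟨h3, h5, -⟩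
        · refine Or.inl ⟨?_, h3⟩
          simp only [List.countP_append, List.countP_cons, isS_sy, List.countP_nil, beq_self_eq_true,
            if_true]
          omega
        · change List.countP isM (u₁ ++ mk :: w') = 0 at h5
          simp only [List.countP_append, List.countP_cons, isM_mk, if_true] at h5
          omega
    · subst hA
      rcases lastc h1 with ⟨rfl, rfl, rfl⟩ | ⟨w', rfl, rfl⟩
      · refine ⟨u₁, Sum.inr c, by simp, Or.inr (Or.inr (Or.inl ⟨rfl, Or.inl ⟨inr_ne_mk _,
          hcz'⟩⟩))⟩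
      · refine ⟨u₁ ++ [Sum.inr c] ++ w', σ, by simp, Or.inr (Or.inr (Or.inl ⟨rfl, ?_⟩))⟩
        rcases h3 with h3 | ⟨h3, h5, h6, k, h7, h8⟩
        · exact Or.inl h3
        · change List.countP isM (u₁ ++ sy false :: w') = 0 at h5
          change List.countP isT (u₁ ++ sy false :: w') = 0 at h6
          change 2 * List.countP (isS false) (u₁ ++ sy false :: w') +
              List.countP (isS true) (u₁ ++ sy false :: w') = 2 ^ (k + 1) at h7
          refine Or.inr ⟨h3, ?_, ?_, ?_⟩
          · simp only [List.countP_append, List.countP_cons, isM_sy, List.countP_nil,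
              isM_inr, Bool.false_eq_true, if_false] at h5 ⊢
            omega
          · intro a ha
            simp only [List.append_assoc, List.cons_append, List.nil_append, List.mem_append,
              List.mem_cons] at ha
            rcases ha with ha | ha | ha
            · exfalso
              have := List.countP_eq_zero.1 h6 (Sum.inr a) (by simp [ha])
              simp at this
            · simpa using ha
            · exfalso
              have := List.countP_eq_zero.1 h6 (Sum.inr a) (by simp [ha])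
              simp at this
          · have e1 : ((true : Bool) == false) = false := rfl
            have e2 : ((false : Bool) == false) = true := rfl
            simp only [List.countP_append, List.countP_cons, isT_sy, List.countP_nil,
              isT_inr, isS_sy, isS_inr, if_true, e1, e2, Bool.false_eq_true, if_false,
              add_zero, zero_add] at h6 h7 ⊢
            by_cases h0 : 0 < List.countP (isS true) u₁ + List.countP (isS true) w'
            · left; exact h0
            · right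
              obtain ⟨j, rfl⟩ := h8.2 rfl
              refine ⟨j, ?_⟩
              have h9 : (4 : ℕ) ^ j = 2 ^ (j + j) := by
                rw [← two_mul, pow_mul]; norm_num
              rw [h9]
              rw [pow_succ] at h7
              omega
  · -- test
    obtain ⟨rfl, rfl, hA⟩ := single hx.symm
    simp only [List.nil_append, List.append_nil]
    rcases mem_rul hr with ⟨b', rfl, rfl, h4, rfl⟩ | ⟨b', rfl, rfl, h4, rfl⟩ |
      ⟨b', rfl, rfl, h4, rfl⟩ | ⟨rfl, rfl, h4, rfl⟩ | ⟨rfl, rfl, h4, rfl⟩ | ⟨rfl, rfl, h4, rfl⟩ <;>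
      subst h4 <;> simp only [Sum.inl.injEq, qs, ts, fs, Option.some.injEq, Prod.mk.injEq,
        true_and, reduceCtorEq, Bool.false_eq_true, false_and] at hA
    subst hA
    rcases lastc h1 with ⟨rfl, rfl, rfl⟩ | ⟨w', rfl, rfl⟩
    · have h0 : List.countP (isS b') u₁ = 0 := by
        rw [List.countP_eq_zero]
        intro a ha hb
        rcases a with (_ | b'') | a
        · simp [isS] at hb
        · simp only [isS, beq_iff_eq] at hb
          subst hb
          exact hm1 ha
        · simp [isS] at hb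
      refine ⟨u₁, mk, by simp, Or.inl ⟨!b', rfl, Or.inr ⟨rfl, ?_⟩⟩⟩
      rcases h3 with ⟨h3, -⟩ | ⟨-, h5, h6, k, h7, h8⟩
      · omega
      · refine ⟨h5, h6, k + 1, ?_, ?_⟩
        · rw [h0] at h7
          rw [Bool.not_not, h0, pow_succ, ← h7]
          ring
        · rw [Nat.even_add_one, h8]
          cases b' <;> simp
    · refine ⟨u₁ ++ [mk] ++ w', σ, by simp, Or.inl ⟨!b', rfl, Or.inl ?_⟩⟩
      rcases h3 with ⟨-, h3⟩ | ⟨h3, -⟩
      · exact h3
      · rw [h3]; exact ⟨sy_ne_mk _, sy_ne_inr _ _⟩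
  · -- last phase
    obtain ⟨rfl, rfl, hA⟩ := single hx.symm
    simp only [List.nil_append, List.append_nil]
    rcases mem_rul hr with ⟨b', rfl, rfl, h4, rfl⟩ | ⟨b', rfl, rfl, h4, rfl⟩ |
      ⟨b', rfl, rfl, h4, rfl⟩ | ⟨rfl, rfl, h4, rfl⟩ | ⟨rfl, rfl, h4, rfl⟩ | ⟨rfl, rfl, h4, rfl⟩ <;>
      subst h4 <;> simp only [Sum.inl.injEq, qs, ts, fs, reduceCtorEq] at hA
    · rcases lastc h1 with ⟨rfl, rfl, rfl⟩ | ⟨w', rfl, rfl⟩
      · refine ⟨u₁, Sum.inr c, by simp, Or.inr (Or.inr (Or.inl ⟨rfl, Or.inl ⟨inr_ne_mk _,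
          hcz'⟩⟩))⟩
      · refine ⟨u₁ ++ [Sum.inr c] ++ w', σ, by simp, Or.inr (Or.inr (Or.inl ⟨rfl, ?_⟩))⟩
        rcases h3 with h3 | ⟨h3, h5, h6, h7⟩
        · exact Or.inl h3
        · change List.countP isM (u₁ ++ sy false :: w') = 0 at h5
          change 0 < List.countP (isS true) (u₁ ++ sy false :: w') ∨
            ∃ j, List.countP (isS false) (u₁ ++ sy false :: w') +
              List.countP isT (u₁ ++ sy false :: w') = 4 ^ j at h7
          refine Or.inr ⟨h3, ?_, ?_, ?_⟩
          · simp only [List.countP_append, List.countP_cons, isM_sy, List.countP_nil,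
              isM_inr, Bool.false_eq_true, if_false] at h5 ⊢
            omega
          · intro a ha
            simp only [List.append_assoc, List.cons_append, List.nil_append, List.mem_append,
              List.mem_cons] at ha
            rcases ha with ha | ha | ha
            · exact h6 a (by simp [ha])
            · simpa using ha
            · exact h6 a (by simp [ha])
          · simp only [List.countP_append, List.countP_cons, isT_sy, List.countP_nil,
              isT_inr, isS_sy, isS_inr, if_true] at h7 ⊢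
            rcases h7 with h7 | ⟨j, hj⟩
            · left; simpa using h7
            · right
              refine ⟨j, ?_⟩
              rw [← hj]
              simp
              ring
    · rcases lastc h1 with ⟨rfl, rfl, rfl⟩ | ⟨w', rfl, rfl⟩
      · refine ⟨u₁, Sum.inr z, by simp, Or.inr (Or.inr (Or.inr ⟨rfl, Or.inr ⟨rfl, ?_⟩⟩))⟩
        rcases h3 with h3 | ⟨-, -, h5⟩
        · exact absurd rfl h3.1
        · exact h5
      · refine ⟨u₁ ++ [Sum.inr z] ++ w', σ, by simp, Or.inr (Or.inr (Or.inr ⟨rfl, Or.inl ?_⟩))⟩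
        rcases h3 with h3 | ⟨-, h5, -⟩
        · exact h3
        · change List.countP isM (u₁ ++ mk :: w') = 0 at h5
          simp only [List.countP_append, List.countP_cons, isM_mk, if_true] at h5
          omega
  · exact absurd hx (by simp)

theorem inv_reach {c z : T} (hcz : c ≠ z) {x y : List (P₁ ⊕ T) × List (P₂ ⊕ T)}
    (h : Inv c z x) (hs : ReflTransGen (Step (dbl c z) true) x y) : Inv c z y := by
  induction hs with
  | refl => exact h
  | tail _ hs ih => exact inv_step hcz ih hs

theorem upper {c z : T} (hcz : c ≠ z) {n : ℕ}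
    (h : List.replicate n c ++ [z] ∈ Lang (dbl c z) true) : ∃ j, n = 4 ^ j := by
  rcases h with h | ⟨p, hp, y₁, y₂, hy, hd⟩
  · simp [dbl] at h
  · simp only [dbl, List.mem_singleton] at hp
    subst hp
    obtain ⟨γ, σ, h1, h2⟩ := inv_reach hcz (inv_start c z) hd
    simp only at h1 h2
    have hy2 : y₂ = [] ∧ ((σ ≠ mk ∧ σ ≠ Sum.inr z) ∨ (σ = Sum.inr z ∧ Ge c γ)) := by
      rcases h2 with ⟨b, hx, -⟩ | ⟨b, hx, -⟩ | ⟨hx, -⟩ | ⟨hx, h3⟩
      · exfalso
        cases y₂ <;> simp at hx
      · exfalso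
        cases y₂ <;> simp at hx
      · exfalso
        cases y₂ <;> simp at hx
      · exact ⟨by simpa using hx, h3⟩
    obtain ⟨rfl, h3⟩ := hy2
    rw [List.append_nil] at hy
    subst hy
    rw [List.map_append] at h1
    have h4 := List.append_inj' h1 rfl
    have h5 : Sum.inr z = σ := by simpa using h4.2
    subst h5
    rcases h3 with h3 | ⟨-, -, h3⟩
    · exact absurd rfl h3.2
    · rw [← h4.1] at h3
      have e1 : List.countP (isS true) ((List.replicate n c).map Sum.inr : List (P₁ ⊕ T)) = 0 := by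
        rw [List.countP_eq_zero]
        intro a ha
        rw [List.mem_map] at ha
        obtain ⟨a', -, rfl⟩ := ha
        simp
      have e2 : List.countP (isS false) ((List.replicate n c).map Sum.inr : List (P₁ ⊕ T)) = 0 := by
        rw [List.countP_eq_zero]
        intro a ha
        rw [List.mem_map] at ha
        obtain ⟨a', -, rfl⟩ := ha
        simp
      have e3 : List.countP isT ((List.replicate n c).map Sum.inr : List (P₁ ⊕ T)) = n := by
        have : List.countP isT ((List.replicate n c).map Sum.inr : List (P₁ ⊕ T)) =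
            ((List.replicate n c).map Sum.inr : List (P₁ ⊕ T)).length := by
          rw [List.countP_eq_length]
          intro a ha
          rw [List.mem_map] at ha
          obtain ⟨a', -, rfl⟩ := ha
          simp
        rw [this]; simp
      rw [e1, e2, e3] at h3
      rcases h3 with h3 | ⟨j, hj⟩
      · omega
      · exact ⟨j, by omega⟩

/-! ### the derivations -/

theorem stepI {G : Gram P₁ P₂ T} {A₁ : P₁} {v₁ : List (P₁ ⊕ T)} {A₂ : P₂}
    {v₂ : List (P₂ ⊕ T)} (hr : ((A₁, v₁), (A₂, v₂)) ∈ G.rul) {u w x y : List (P₁ ⊕ T)}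
    (hu : Sum.inl A₁ ∉ u) (hx : x = u ++ Sum.inl A₁ :: w) (hy : y = u ++ v₁ ++ w) :
    Step G true (x, [Sum.inl A₂]) (y, v₂) :=
  ⟨A₁, v₁, A₂, v₂, u, w, [], [], hr, by rw [hx]; rfl, by rw [hy]; simp, fun _ => ⟨hu, by simp⟩⟩

/-- a run of symbols -/
def rs (b : Bool) (n : ℕ) : List (P₁ ⊕ T) := List.replicate n (sy b)

theorem not_mem_rs (b b' : Bool) (n : ℕ) (h : b ≠ b') : (Sum.inl (some b) : P₁ ⊕ T) ∉ rs b' n := by
  intro hm
  rw [rs, List.mem_replicate] at hm
  simp only [sy, Sum.inl.injEq, Option.some.injEq] at hm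
  exact h hm.2

theorem rul1 (c z : T) (b : Bool) :
    ((some b, [sy !b, sy !b]), (qs b, [Sum.inl (qs b)])) ∈ (dbl c z).rul := by
  cases b <;> simp [dbl, sy, qs]

theorem rul2 (c z : T) (b : Bool) :
    ((none, [sy b]), (qs b, [Sum.inl (ts b)])) ∈ (dbl c z).rul := by
  cases b <;> simp [dbl, sy, qs, ts]

theorem rul3 (c z : T) (b : Bool) :
    ((some b, [mk]), (ts b, [Sum.inl (qs !b)])) ∈ (dbl c z).rul := by
  cases b <;> simp [dbl, mk, qs, ts]

theorem doubling (c z : T) (b : Bool) (n : ℕ) : ∀ i,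
    ReflTransGen (Step (dbl c z) true) (rs (!b) i ++ rs b n ++ [mk], [Sum.inl (qs b)])
      (rs (!b) (i + 2 * n) ++ [mk], [Sum.inl (qs b)]) := by
  induction n with
  | zero =>
    intro i
    have : (rs b 0 : List (P₁ ⊕ T)) = [] := rfl
    rw [this, List.append_nil]
    exact ReflTransGen.refl
  | succ n ih =>
    intro i
    have h1 := ih (i + 2)
    have e1 : i + 2 + 2 * n = i + 2 * (n + 1) := by ring
    rw [e1] at h1
    refine ReflTransGen.head ?_ h1
    refine stepI (rul1 c z b) (u := rs (!b) i) (w := rs b n ++ [mk]) ?_ ?_ ?_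
    · exact not_mem_rs _ _ _ (by cases b <;> simp)
    · simp [rs, List.replicate_succ, sy]
    · simp only [rs]
      rw [show i + 2 = i + 2 from rfl, List.replicate_add]
      simp [List.replicate_succ]

theorem round (c z : T) (b : Bool) (n : ℕ) :
    ReflTransGen (Step (dbl c z) true) (rs b n ++ [mk], [Sum.inl (qs b)])
      (rs (!b) (2 * n) ++ [mk], [Sum.inl (qs !b)]) := by
  have h1 := doubling c z b n 0
  rw [Nat.zero_add] at h1
  have e0 : (rs (!b) 0 : List (P₁ ⊕ T)) = [] := rfl
  rw [e0, List.nil_append] at h1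
  refine h1.trans ?_
  refine ReflTransGen.head (b := (rs (!b) (2 * n) ++ [sy b], [Sum.inl (ts b)])) ?_ ?_
  · refine stepI (rul2 c z b) (u := rs (!b) (2 * n)) (w := []) ?_ rfl (by simp)
    intro hm
    rw [rs, List.mem_replicate] at hm
    simp [sy] at hm
  · refine ReflTransGen.single ?_
    refine stepI (rul3 c z b) (u := rs (!b) (2 * n)) (w := []) ?_ rfl (by simp)
    exact not_mem_rs _ _ _ (by cases b <;> simp)

theorem rounds (c z : T) (j : ℕ) :
    ReflTransGen (Step (dbl c z) true) ([sy false, mk], [Sum.inl (qs false)])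
      (rs false (4 ^ j) ++ [mk], [Sum.inl (qs false)]) := by
  induction j with
  | zero => exact ReflTransGen.refl
  | succ j ih =>
    have h1 := round c z false (4 ^ j)
    have h2 := round c z true (2 * 4 ^ j)
    have e1 : 2 * (2 * 4 ^ j) = 4 ^ (j + 1) := by ring
    rw [e1] at h2
    exact (ih.trans h1).trans h2

theorem printing (c z : T) (n : ℕ) : ∀ i,
    ReflTransGen (Step (dbl c z) true)
      (List.replicate i (Sum.inr c) ++ rs false n ++ [mk], [Sum.inl fs])
      (List.replicate (i + n) (Sum.inr c) ++ [mk], [Sum.inl fs]) := by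
  induction n with
  | zero =>
    intro i
    have : (rs false 0 : List (P₁ ⊕ T)) = [] := rfl
    rw [this, List.append_nil]
    exact ReflTransGen.refl
  | succ n ih =>
    intro i
    have h1 := ih (i + 1)
    have e1 : i + 1 + n = i + (n + 1) := by ring
    rw [e1] at h1
    refine ReflTransGen.head ?_ h1
    refine stepI (A₁ := some false) (v₁ := [Sum.inr c]) (by simp [dbl, fs])
      (u := List.replicate i (Sum.inr c)) (w := rs false n ++ [mk]) ?_ ?_ ?_
    · intro hm
      rw [List.mem_replicate] at hm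
      simp at hm
    · simp [rs, List.replicate_succ, sy]
    · rw [List.replicate_add]
      simp

theorem lower (c z : T) (j : ℕ) :
    List.replicate (4 ^ j) c ++ [z] ∈ Lang (dbl c z) true := by
  refine Or.inr ⟨([sy false, mk], [Sum.inl (qs false)]), by simp [dbl],
    List.replicate (4 ^ j) c ++ [z], [], by simp, ?_⟩
  obtain ⟨n, hn⟩ : ∃ n, 4 ^ j = n + 1 := ⟨4 ^ j - 1, by
    have : 0 < 4 ^ j := by positivity
    omega⟩
  refine (rounds c z j).trans ?_
  rw [hn]
  refine ReflTransGen.head (b := (List.replicate 1 (Sum.inr c) ++ rs false n ++ [mk],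
    [Sum.inl fs])) ?_ ?_
  · refine stepI (A₁ := some false) (v₁ := [Sum.inr c]) (by simp [dbl, qs, fs])
      (u := []) (w := rs false n ++ [mk]) (by simp) ?_ ?_
    · simp [rs, List.replicate_succ, sy]
    · simp
  · refine (printing c z n 1).trans ?_
    refine ReflTransGen.single ?_
    refine stepI (A₁ := none) (v₁ := [Sum.inr z]) (by simp [dbl, fs])
      (u := List.replicate (1 + n) (Sum.inr c)) (w := []) ?_ ?_ ?_
    · intro hm
      rw [List.mem_replicate] at hm
      simp at hm
    · rfl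
    · simp [Nat.add_comm]

/-- **The mode 1 language of `dbl` is not a mode 0 language.** -/
theorem not_zero {c z : T} (hcz : c ≠ z) {N₁ N₂ : Type} [Finite N₁] [Finite N₂]
    (G : Gram N₁ N₂ T) : Lang (dbl c z) true ≠ Lang G false := by
  intro he
  have hinf : {n : ℕ | List.replicate n c ++ [z] ∈ Lang G false}.Infinite := by
    rw [← he]
    refine Set.infinite_of_injective_forall_mem (f := fun j => 4 ^ j) ?_ fun j => lower c z j
    exact Nat.pow_right_injective (by norm_num)
  obtain ⟨a, d, hd, H⟩ := progression_zero hinf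
  rw [← he] at H
  obtain ⟨i, hi⟩ := upper hcz (H (d + 1))
  obtain ⟨j, hj⟩ := upper hcz (H (d + 2))
  have e1 : a + (d + 2) * d = a + (d + 1) * d + d := by ring
  have h1 : d < 4 ^ i := by
    rw [← hi]
    nlinarith
  have h2 : 4 ^ i < 4 ^ j := by omega
  have h3 : i < j := (Nat.pow_lt_pow_iff_right (by norm_num)).1 h2
  have h4 : 4 ^ (i + 1) ≤ 4 ^ j := Nat.pow_le_pow_right (by norm_num) h3
  rw [pow_succ] at h4
  omega

end Pool.Agent.V11259.EM
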