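import Pool.Agent.V11259.EMgr

/-!
# Every mode 0 language is a mode 1 language

Each nonterminal gets two copies; a dummy rule replaces the leftmost occurrence of one copy by the
other one, so that any chosen occurrence can be made the leftmost one of its copy.
-/

namespace Pool.Agent.V11259.EM

open Relation

variable {N₁ N₂ T : Type}

/-- choose the copy `b` of each nonterminal -/
def tag {N : Type} (b : Bool) : N ⊕ T → (N × Bool) ⊕ T := Sum.map (fun A => (A, b)) id

/-- forget the copies -/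
def unt {N : Type} : (N × Bool) ⊕ T → N ⊕ T := Sum.map Prod.fst id

@[simp] theorem unt_tag {N : Type} (b : Bool) (a : N ⊕ T) : unt (tag b a) = a := by
  rcases a with a | a <;> rfl

@[simp] theorem map_unt_tag {N : Type} (b : Bool) (l : List (N ⊕ T)) :
    (l.map (tag b)).map unt = l := by
  rw [List.map_map]
  conv_rhs => rw [← List.map_id l]
  congr 1
  funext a
  simp

@[simp] theorem unt_inl_mk {N : Type} (A : N) (b : Bool) :
    unt (T := T) (Sum.inl (A, b)) = Sum.inl A := rfl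

theorem unt_inr {N : Type} {a : (N × Bool) ⊕ T} {t : T} (h : unt a = Sum.inr t) :
    a = Sum.inr t := by
  rcases a with a | a
  · simp [unt] at h
  · simpa [unt] using h

theorem unt_inl {N : Type} {a : (N × Bool) ⊕ T} {A : N} (h : unt a = Sum.inl A) :
    ∃ b, a = Sum.inl (A, b) := by
  rcases a with ⟨A', b⟩ | a
  · simp only [unt, Sum.map_inl, Sum.inl.injEq] at h
    exact ⟨b, by rw [h]⟩
  · simp [unt] at h

theorem map_unt_inr {N : Type} {l : List ((N × Bool) ⊕ T)} : ∀ {y : List T},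
    l.map unt = y.map Sum.inr → l = y.map Sum.inr := by
  induction l with
  | nil =>
    intro y h
    cases y with
    | nil => rfl
    | cons a y => simp at h
  | cons a l ih =>
    intro y h
    cases y with
    | nil => simp at h
    | cons t y =>
      simp only [List.map_cons, List.cons.injEq] at h
      rw [unt_inr h.1, ih h.2]
      rfl

theorem split_unt {N : Type} {l : List ((N × Bool) ⊕ T)} {u w : List (N ⊕ T)} {A : N}
    (h : l.map unt = u ++ Sum.inl A :: w) :
    ∃ u' b w', l = u' ++ Sum.inl (A, b) :: w' ∧ u'.map unt = u ∧ w'.map unt = w := by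
  rw [List.map_eq_append_iff] at h
  obtain ⟨u', r, rfl, h1, h2⟩ := h
  rw [List.map_eq_cons_iff] at h2
  obtain ⟨a, w', rfl, h3, h4⟩ := h2
  obtain ⟨b, rfl⟩ := unt_inl h3
  exact ⟨u', b, w', rfl, h1, h4⟩

/-- the grammar with two copies of each nonterminal -/
noncomputable def copy (G : Gram N₁ N₂ T) [Fintype N₁] [Fintype N₂] :
    Gram (N₁ × Bool) (N₂ × Bool) T where
  fin := G.fin
  ini := G.ini.map fun p => (p.1.map (tag false), p.2.map (tag false))
  rul := (G.rul.flatMap fun r => (Finset.univ : Finset (Bool × Bool)).toList.map fun b =>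
      (((r.1.1, b.1), r.1.2.map (tag false)), ((r.2.1, b.2), r.2.2.map (tag false)))) ++
    ((Finset.univ : Finset ((N₁ × Bool) × (N₂ × Bool))).toList.map fun t =>
      ((t.1, [Sum.inl (t.1.1, !t.1.2)]), (t.2, [Sum.inl t.2]))) ++
    ((Finset.univ : Finset ((N₁ × Bool) × (N₂ × Bool))).toList.map fun t =>
      ((t.1, [Sum.inl t.1]), (t.2, [Sum.inl (t.2.1, !t.2.2)])))
  ini_fst := by
    intro p hp
    rw [List.mem_map] at hp
    obtain ⟨p, hp, rfl⟩ := hp
    obtain ⟨A, hA⟩ := G.ini_fst p hp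
    exact ⟨(A, false), List.mem_map.2 ⟨_, hA, rfl⟩⟩
  ini_snd := by
    intro p hp
    rw [List.mem_map] at hp
    obtain ⟨p, hp, rfl⟩ := hp
    obtain ⟨A, hA⟩ := G.ini_snd p hp
    exact ⟨(A, false), List.mem_map.2 ⟨_, hA, rfl⟩⟩

variable {G : Gram N₁ N₂ T} [Fintype N₁] [Fintype N₂]

theorem copy_rule {A₁ : N₁} {v₁ : List (N₁ ⊕ T)} {A₂ : N₂} {v₂ : List (N₂ ⊕ T)}
    (h : ((A₁, v₁), (A₂, v₂)) ∈ G.rul) (b₁ b₂ : Bool) :
    (((A₁, b₁), v₁.map (tag false)), ((A₂, b₂), v₂.map (tag false))) ∈ (copy G).rul := by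
  simp only [copy, List.mem_append, List.mem_flatMap, List.mem_map, Finset.mem_toList,
    Finset.mem_univ, true_and]
  exact Or.inl (Or.inl ⟨_, h, (b₁, b₂), rfl⟩)

theorem copy_one (A : N₁) (b : Bool) (B : N₂) (b' : Bool) :
    (((A, b), [Sum.inl (A, !b)]), ((B, b'), [Sum.inl (B, b')])) ∈ (copy G).rul := by
  simp only [copy, List.mem_append, List.mem_flatMap, List.mem_map, Finset.mem_toList,
    Finset.mem_univ, true_and]
  exact Or.inl (Or.inr ⟨((A, b), (B, b')), rfl⟩)

theorem copy_two (A : N₁) (b : Bool) (B : N₂) (b' : Bool) :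
    (((A, b), [Sum.inl (A, b)]), ((B, b'), [Sum.inl (B, !b')])) ∈ (copy G).rul := by
  simp only [copy, List.mem_append, List.mem_flatMap, List.mem_map, Finset.mem_toList,
    Finset.mem_univ, true_and]
  exact Or.inr ⟨((A, b), (B, b')), rfl⟩

theorem toggle_one (A : N₁) (b : Bool) (B : N₂) (b' : Bool)
    {x₂ : List ((N₂ × Bool) ⊕ T)} (hB : Sum.inl (B, b') ∈ x₂) {w : List ((N₁ × Bool) ⊕ T)}
    (l : List ((N₁ × Bool) ⊕ T)) : ∀ a : List ((N₁ × Bool) ⊕ T), Sum.inl (A, b) ∉ a →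
      ∃ l', Sum.inl (A, b) ∉ a ++ l' ∧ l'.map unt = l.map unt ∧
        ReflTransGen (Step (copy G) true) (a ++ l ++ w, x₂) (a ++ l' ++ w, x₂) := by
  induction l with
  | nil => exact fun a ha => ⟨[], by simpa using ha, rfl, ReflTransGen.refl⟩
  | cons s l ih =>
    intro a ha
    by_cases hs : s = Sum.inl (A, b)
    · subst hs
      obtain ⟨l', h1, h2, h3⟩ := ih (a ++ [Sum.inl (A, !b)]) (by
        simp only [List.mem_append, List.mem_singleton, not_or]
        refine ⟨ha, ?_⟩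
        cases b <;> simp)
      refine ⟨Sum.inl (A, !b) :: l', by simpa using h1, by simp [h2], ?_⟩
      have h4 : ReflTransGen (Step (copy G) true) (a ++ Sum.inl (A, !b) :: l ++ w, x₂)
          (a ++ Sum.inl (A, !b) :: l' ++ w, x₂) := by simpa using h3
      refine ReflTransGen.head ?_ h4
      obtain ⟨p, q, hpq, hp⟩ := List.eq_append_cons_of_mem hB
      refine ⟨(A, b), _, (B, b'), _, a, l ++ w, p, q, copy_one A b B b', ?_, ?_, fun _ => ⟨ha, hp⟩⟩
      · rw [hpq]; simp
      · rw [hpq]; simp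
    · obtain ⟨l', h1, h2, h3⟩ := ih (a ++ [s]) (by
        simp only [List.mem_append, List.mem_singleton, not_or]
        exact ⟨ha, fun h => hs h.symm⟩)
      exact ⟨s :: l', by simpa using h1, by simp [h2], by simpa using h3⟩

theorem toggle_two (A : N₁) (b : Bool) (B : N₂) (b' : Bool)
    {x₁ : List ((N₁ × Bool) ⊕ T)} (hA : Sum.inl (A, b) ∈ x₁) {w : List ((N₂ × Bool) ⊕ T)}
    (l : List ((N₂ × Bool) ⊕ T)) : ∀ a : List ((N₂ × Bool) ⊕ T), Sum.inl (B, b') ∉ a →
      ∃ l', Sum.inl (B, b') ∉ a ++ l' ∧ l'.map unt = l.map unt ∧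
        ReflTransGen (Step (copy G) true) (x₁, a ++ l ++ w) (x₁, a ++ l' ++ w) := by
  induction l with
  | nil => exact fun a ha => ⟨[], by simpa using ha, rfl, ReflTransGen.refl⟩
  | cons s l ih =>
    intro a ha
    by_cases hs : s = Sum.inl (B, b')
    · subst hs
      obtain ⟨l', h1, h2, h3⟩ := ih (a ++ [Sum.inl (B, !b')]) (by
        simp only [List.mem_append, List.mem_singleton, not_or]
        refine ⟨ha, ?_⟩
        cases b' <;> simp)
      refine ⟨Sum.inl (B, !b') :: l', by simpa using h1, by simp [h2], ?_⟩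
      have h4 : ReflTransGen (Step (copy G) true) (x₁, a ++ Sum.inl (B, !b') :: l ++ w)
          (x₁, a ++ Sum.inl (B, !b') :: l' ++ w) := by simpa using h3
      refine ReflTransGen.head ?_ h4
      obtain ⟨p, q, hpq, hp⟩ := List.eq_append_cons_of_mem hA
      refine ⟨(A, b), _, (B, b'), _, p, q, a, l ++ w, copy_two A b B b', ?_, ?_, fun _ => ⟨hp, ha⟩⟩
      · rw [hpq]; simp
      · rw [hpq]; simp
    · obtain ⟨l', h1, h2, h3⟩ := ih (a ++ [s]) (by
        simp only [List.mem_append, List.mem_singleton, not_or]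
        exact ⟨ha, fun h => hs h.symm⟩)
      exact ⟨s :: l', by simpa using h1, by simp [h2], by simpa using h3⟩

theorem simulate {p : List (N₁ ⊕ T) × List (N₂ ⊕ T)} {y₁ y₂ : List T}
    (h : ReflTransGen (Step G false) p (y₁.map Sum.inr, y₂.map Sum.inr)) :
    ∀ {x₁ : List ((N₁ × Bool) ⊕ T)} {x₂ : List ((N₂ × Bool) ⊕ T)},
      x₁.map unt = p.1 → x₂.map unt = p.2 →
      ReflTransGen (Step (copy G) true) (x₁, x₂) (y₁.map Sum.inr, y₂.map Sum.inr) := by
  induction h using ReflTransGen.head_induction_on with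
  | refl =>
    intro x₁ x₂ h1 h2
    rw [map_unt_inr h1, map_unt_inr h2]
  | head hs _ ih =>
    intro x₁ x₂ h1 h2
    obtain ⟨A₁, v₁, A₂, v₂, u₁, w₁, u₂, w₂, hr, rfl, rfl, -⟩ := hs
    simp only at h1 h2
    obtain ⟨u₁', b₁, w₁', rfl, rfl, rfl⟩ := split_unt h1
    obtain ⟨u₂', b₂, w₂', rfl, rfl, rfl⟩ := split_unt h2
    obtain ⟨a₁, h3, h4, h5⟩ := toggle_one (G := G) A₁ b₁ A₂ b₂
      (x₂ := u₂' ++ Sum.inl (A₂, b₂) :: w₂') (by simp) (w := Sum.inl (A₁, b₁) :: w₁') u₁' []
      (by simp)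
    obtain ⟨a₂, h6, h7, h8⟩ := toggle_two (G := G) A₁ b₁ A₂ b₂
      (x₁ := a₁ ++ Sum.inl (A₁, b₁) :: w₁') (by simp) (w := Sum.inl (A₂, b₂) :: w₂') u₂' []
      (by simp)
    rw [List.nil_append] at h3 h6
    rw [List.nil_append, List.nil_append] at h5 h8
    refine (h5.trans h8).trans (ReflTransGen.head ?_ (ih
      (x₁ := a₁ ++ v₁.map (tag false) ++ w₁') (x₂ := a₂ ++ v₂.map (tag false) ++ w₂') ?_ ?_))
    · exact ⟨(A₁, b₁), _, (A₂, b₂), _, a₁, w₁', a₂, w₂', copy_rule hr b₁ b₂, rfl, rfl,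
        fun _ => ⟨h3, h6⟩⟩
    · simp only [List.map_append, map_unt_tag, h4]
    · simp only [List.map_append, map_unt_tag, h7]

theorem project {x y : List ((N₁ × Bool) ⊕ T) × List ((N₂ × Bool) ⊕ T)}
    (h : Step (copy G) true x y) :
    ReflTransGen (Step G false) (x.1.map unt, x.2.map unt) (y.1.map unt, y.2.map unt) := by
  obtain ⟨A₁, v₁, A₂, v₂, u₁, w₁, u₂, w₂, hr, rfl, rfl, -⟩ := h
  simp only [copy, List.mem_append, List.mem_flatMap, List.mem_map, Finset.mem_toList,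
    Finset.mem_univ, true_and] at hr
  rcases hr with (⟨⟨⟨B₁, k₁⟩, ⟨B₂, k₂⟩⟩, hr, ⟨b₁, b₂⟩, he⟩ | ⟨t, he⟩) | ⟨t, he⟩
  · simp only [Prod.mk.injEq] at he
    obtain ⟨⟨rfl, rfl⟩, rfl, rfl⟩ := he
    refine ReflTransGen.single ⟨B₁, k₁, B₂, k₂, u₁.map unt, w₁.map unt, u₂.map unt, w₂.map unt,
      hr, ?_, ?_, by simp⟩
    · simp [unt]
    · simp only [List.map_append, map_unt_tag]
  · simp only [Prod.mk.injEq] at he
    obtain ⟨⟨rfl, rfl⟩, rfl, rfl⟩ := he
    have e : ((u₁ ++ Sum.inl t.1 :: w₁).map unt, (u₂ ++ Sum.inl t.2 :: w₂).map unt) =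
      ((u₁ ++ [Sum.inl (t.1.1, !t.1.2)] ++ w₁).map unt,
        (u₂ ++ [Sum.inl t.2] ++ w₂).map (unt (N := N₂) (T := T))) := by
      simp [unt]
    rw [e]
  · simp only [Prod.mk.injEq] at he
    obtain ⟨⟨rfl, rfl⟩, rfl, rfl⟩ := he
    have e : ((u₁ ++ Sum.inl t.1 :: w₁).map unt, (u₂ ++ Sum.inl t.2 :: w₂).map unt) =
      ((u₁ ++ [Sum.inl t.1] ++ w₁).map unt,
        (u₂ ++ [Sum.inl (t.2.1, !t.2.2)] ++ w₂).map (unt (N := N₂) (T := T))) := by
      simp [unt]
    rw [e]

theorem projects {x y : List ((N₁ × Bool) ⊕ T) × List ((N₂ × Bool) ⊕ T)}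
    (h : ReflTransGen (Step (copy G) true) x y) :
    ReflTransGen (Step G false) (x.1.map unt, x.2.map unt) (y.1.map unt, y.2.map unt) := by
  induction h with
  | refl => exact ReflTransGen.refl
  | tail _ hs ih => exact ih.trans (project hs)

theorem copy_lang : Lang (copy G) true = Lang G false := by
  ext w
  constructor
  · rintro (h | ⟨p, hp, y₁, y₂, rfl, hd⟩)
    · exact Or.inl h
    · simp only [copy, List.mem_map] at hp
      obtain ⟨p, hp, rfl⟩ := hp
      have h1 := projects hd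
      simp only [map_unt_tag] at h1
      refine Or.inr ⟨p, hp, y₁, y₂, rfl, ?_⟩
      have e : ∀ {N : Type} (y : List T), ((y.map Sum.inr : List ((N × Bool) ⊕ T)).map unt) =
          y.map Sum.inr := by
        intro N y
        rw [List.map_map]
        rfl
      rw [e, e] at h1
      exact h1
  · rintro (h | ⟨p, hp, y₁, y₂, rfl, hd⟩)
    · exact Or.inl h
    · refine Or.inr ⟨(p.1.map (tag false), p.2.map (tag false)), ?_, y₁, y₂, rfl,
        simulate hd (map_unt_tag _ _) (map_unt_tag _ _)⟩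
      simp only [copy, List.mem_map]
      exact ⟨p, hp, rfl⟩

theorem family_subset (T : Type) : Family T false ⊆ Family T true := by
  rintro L ⟨N₁, N₂, h1, h2, G, rfl⟩
  have := Fintype.ofFinite N₁
  have := Fintype.ofFinite N₂
  exact ⟨N₁ × Bool, N₂ × Bool, inferInstance, inferInstance, copy G, copy_lang.symm⟩

end Pool.Agent.V11259.EM
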