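import Pool.Agent.V11259.EMincl

/-!
# Even matrix grammars of arbitrary degree in mode 1

* The lengths of the words of a mode 1 language, if there are infinitely many, contain an infinite
  arithmetic progression.
* Two-component grammars are even matrix grammars of degree two.
-/

namespace Pool.Agent.V11259.EM

open Relation EMvas

/-- An even matrix grammar of degree `n`: the nonterminal alphabet of component `i` is the `i`-th
copy of `N`; a letter `Sum.inl A` in component `i` is the nonterminal `A` of this copy, a letter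
`Sum.inr a` is a terminal. -/
structure GramN (n : ℕ) (N T : Type) where
  /-- the rules `(S) → (v)` with `v ∈ T^*` -/
  fin : List (List T)
  /-- the rules `(S) → (v₁ ⋯ vₙ)` -/
  ini : List (Fin n → List (N ⊕ T))
  /-- the rules `(A₁, …, Aₙ) → (v₁, …, vₙ)` -/
  rul : List (Fin n → N × List (N ⊕ T))
  /-- each `vᵢ` in a rule `(S) → (v₁ ⋯ vₙ)` contains a nonterminal -/
  ini_nt : ∀ p ∈ ini, ∀ i, ∃ A, Sum.inl A ∈ p i

variable {n : ℕ} {N T : Type}

/-- One step in mode 0 (`j = false`) or mode 1 (`j = true`). -/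
def StepN (G : GramN n N T) (j : Bool) (x y : Fin n → List (N ⊕ T)) : Prop :=
  ∃ r ∈ G.rul, ∀ i, ∃ u w, x i = u ++ Sum.inl (r i).1 :: w ∧ y i = u ++ (r i).2 ++ w ∧
    (j = true → Sum.inl (r i).1 ∉ u)

/-- the generated language -/
def LangN (G : GramN n N T) (j : Bool) : Set (List T) :=
  {w | w ∈ G.fin ∨ ∃ p ∈ G.ini, ∃ y : Fin n → List T, w = (List.ofFn y).flatten ∧
    ReflTransGen (StepN G j) p fun i => (y i).map Sum.inr}

/-- the languages over `T` of even matrix grammars of any degree `n ≥ 1` -/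
def FamilyN (T : Type) (j : Bool) : Set (Set (List T)) :=
  {L | ∃ (n : ℕ) (N : Type) (_ : Finite N) (G : GramN (n + 1) N T), L = LangN G j}

/-- the multiset of nonterminals -/
def mark : List (N ⊕ T) → Multiset N
  | [] => 0
  | Sum.inl A :: l => A ::ₘ mark l
  | Sum.inr _ :: l => mark l

/-- the number of terminals -/
def tl : List (N ⊕ T) → ℕ
  | [] => 0
  | Sum.inl _ :: l => tl l
  | Sum.inr _ :: l => tl l + 1

theorem mark_append (x y : List (N ⊕ T)) : mark (x ++ y) = mark x + mark y := by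
  induction x with
  | nil => simp [mark]
  | cons a x ih =>
    rcases a with a | a
    · simp [mark, ih]
    · simp [mark, ih]

theorem tl_append (x y : List (N ⊕ T)) : tl (x ++ y) = tl x + tl y := by
  induction x with
  | nil => simp [tl]
  | cons a x ih =>
    rcases a with a | a
    · simp [tl, ih]
    · simp [tl, ih]; ring

theorem mem_mark {A : N} {x : List (N ⊕ T)} (h : A ∈ mark x) : Sum.inl A ∈ x := by
  induction x with
  | nil => simp [mark] at h
  | cons a x ih =>
    rcases a with a | a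
    · simp only [mark, Multiset.mem_cons] at h
      rcases h with rfl | h
      · simp
      · simp [ih h]
    · simp [ih h]

theorem mark_zero {x : List (N ⊕ T)} (h : mark x = 0) :
    ∃ y : List T, x = y.map Sum.inr ∧ y.length = tl x := by
  induction x with
  | nil => exact ⟨[], rfl, rfl⟩
  | cons a x ih =>
    rcases a with a | a
    · simp [mark] at h
    · obtain ⟨y, rfl, hy⟩ := ih h
      exact ⟨a :: y, rfl, by simp [tl, hy]⟩

theorem mark_map (y : List T) : mark (y.map Sum.inr : List (N ⊕ T)) = 0 := by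
  induction y with
  | nil => rfl
  | cons a y ih => exact ih

theorem tl_map (y : List T) : tl (y.map Sum.inr : List (N ⊕ T)) = y.length := by
  induction y with
  | nil => rfl
  | cons a y ih => simp [tl, ih]

/-- the transitions -/
def TrU (G : GramN n N T) : Set ((Fin n → Multiset N) × ℕ × (Fin n → Multiset N)) :=
  {t | ∃ r ∈ G.rul, t = (fun i => {(r i).1}, ∑ i, tl (r i).2, fun i => mark (r i).2)}

theorem trU_finite (G : GramN n N T) : (TrU G).Finite := by
  refine ((List.finite_toSet G.rul).image fun r =>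
    ((fun i => {(r i).1} : Fin n → Multiset N), ∑ i, tl (r i).2,
      (fun i => mark (r i).2 : Fin n → Multiset N))).subset ?_
  rintro t ⟨r, hr, rfl⟩
  exact ⟨r, hr, rfl⟩

theorem length_flatten_ofFn (y : Fin n → List T) :
    (List.ofFn y).flatten.length = ∑ i, (y i).length := by
  rw [List.length_flatten, List.map_ofFn, List.sum_ofFn]
  rfl

theorem toU {G : GramN n N T} {j : Bool} {p : Fin n → List (N ⊕ T)} {y : Fin n → List T}
    (h : ReflTransGen (StepN G j) p fun i => (y i).map Sum.inr) :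
    ∃ o, Rch (TrU G) (fun i => mark (p i)) o 0 ∧
      ∑ i, tl (p i) + o = (List.ofFn y).flatten.length := by
  induction h using ReflTransGen.head_induction_on with
  | refl =>
    refine ⟨0, ?_, ?_⟩
    · have : (fun i => mark ((y i).map Sum.inr : List (N ⊕ T))) = 0 := by
        funext i; exact mark_map _
      rw [this]
      exact Rch.refl _
    · rw [length_flatten_ofFn, Nat.add_zero]
      exact Finset.sum_congr rfl fun i _ => tl_map _
  | head hs hrest ih =>
    rename_i a b
    obtain ⟨r, hr, hi⟩ := hs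
    choose u w h1 h2 _ using hi
    obtain ⟨o, ho, he⟩ := ih
    refine ⟨(∑ i, tl (r i).2) + o, ?_, ?_⟩
    · have e1 : (fun i => mark (a i)) = (fun i => {(r i).1}) + fun i => mark (u i) + mark (w i) := by
        funext i
        rw [h1 i, mark_append]
        simp only [mark, Pi.add_apply, Multiset.singleton_add, Multiset.add_cons]
      rw [e1]
      refine Rch.step _ ⟨r, hr, rfl⟩ ?_
      have e2 : ((fun i => mark (r i).2) + fun i => mark (u i) + mark (w i)) =
          fun i => mark (b i) := by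
        funext i
        rw [h2 i, mark_append, mark_append]
        simp only [Pi.add_apply]
        abel
      rw [e2]
      exact ho
    · rw [← he]
      have e3 : ∑ i, tl (b i) = ∑ i, tl (a i) + ∑ i, tl (r i).2 := by
        rw [← Finset.sum_add_distrib]
        refine Finset.sum_congr rfl fun i _ => ?_
        rw [h1 i, h2 i, tl_append, tl_append, tl_append]
        simp only [tl]
        ring
      omega

theorem ofU {G : GramN n N T} {m f : Fin n → Multiset N} {o : ℕ} (h : Rch (TrU G) m o f)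
    (hf : f = 0) : ∀ {x : Fin n → List (N ⊕ T)}, (∀ i, mark (x i) = m i) →
      ∃ y : Fin n → List T, ReflTransGen (StepN G true) x (fun i => (y i).map Sum.inr) ∧
        (List.ofFn y).flatten.length = ∑ i, tl (x i) + o := by
  induction h with
  | refl m =>
    subst hf
    intro x hx
    have h1 : ∀ i, ∃ y : List T, x i = y.map Sum.inr ∧ y.length = tl (x i) := fun i =>
      mark_zero (hx i)
    choose y hy hy' using h1
    refine ⟨y, ?_, ?_⟩
    · have : x = fun i => (y i).map Sum.inr := funext hy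
      rw [← this]
    · rw [length_flatten_ofFn, Nat.add_zero]
      exact Finset.sum_congr rfl fun i _ => hy' i
  | step ζ hW _ ih =>
    intro x hx
    obtain ⟨r, hr, he⟩ := hW
    simp only [Prod.mk.injEq] at he
    obtain ⟨rfl, rfl, rfl⟩ := he
    have h1 : ∀ i, ∃ u w, x i = u ++ Sum.inl (r i).1 :: w ∧ Sum.inl (r i).1 ∉ u := by
      intro i
      have h2 : (r i).1 ∈ mark (x i) := by
        rw [hx i]; simp
      exact List.eq_append_cons_of_mem (mem_mark h2)
    choose u w h2 h3 using h1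
    obtain ⟨y, hd, hy⟩ := ih hf (x := fun i => u i ++ (r i).2 ++ w i) (by
      intro i
      have h4 := hx i
      rw [h2 i, mark_append] at h4
      simp only [mark, Pi.add_apply, Multiset.singleton_add, Multiset.add_cons,
        Multiset.cons_inj_right] at h4
      rw [mark_append, mark_append, Pi.add_apply, ← h4]
      abel)
    refine ⟨y, ReflTransGen.head ⟨r, hr, fun i => ⟨u i, w i, h2 i, rfl, fun _ => h3 i⟩⟩ hd, ?_⟩
    rw [hy]
    have e3 : ∑ i, tl (u i ++ (r i).2 ++ w i) = ∑ i, tl (x i) + ∑ i, tl (r i).2 := by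
      rw [← Finset.sum_add_distrib]
      refine Finset.sum_congr rfl fun i _ => ?_
      rw [h2 i, tl_append, tl_append, tl_append]
      simp only [tl]
      ring
    omega

/-- **The set of word lengths of a mode 1 language, if infinite, contains an infinite arithmetic
progression.** -/
theorem progression_one [Finite N] {G : GramN n N T}
    (hinf : {m : ℕ | ∃ w ∈ LangN G true, w.length = m}.Infinite) :
    ∃ a d : ℕ, 0 < d ∧ ∀ k : ℕ, ∃ w ∈ LangN G true, w.length = a + k * d := by
  classical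
  by_contra hno
  apply hinf
  have hF : {m : ℕ | ∃ w ∈ G.fin, w.length = m}.Finite :=
    ((List.finite_toSet G.fin).image List.length).subset (by
      rintro m ⟨w, hw, rfl⟩
      exact ⟨w, hw, rfl⟩)
  have hS : (⋃ p ∈ {p | p ∈ G.ini},
      {m : ℕ | ∃ o, Rch (TrU G) (fun i => mark (p i)) o 0 ∧ ∑ i, tl (p i) + o = m}).Finite := by
    refine (List.finite_toSet G.ini).biUnion fun p hp => ?_
    have h1 : {o : ℕ | Rch (TrU G) (fun i => mark (p i)) o 0}.Finite := by
      by_contra hinf'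
      have hw1 := multiset_pwo N
      obtain ⟨e, d, hd, H⟩ := progression (M := Fin n → Multiset N)
        (fun a b hab => by
          have h2 : ∀ i, ∃ c, b i = a i + c := fun i => le_iff_exists_add.1 (hab i)
          choose c hc using h2
          exact ⟨c, funext hc⟩)
        (fun a b c h => add_left_cancel h)
        (Set.isPWO_of_wellQuasiOrderedLE _) (trU_finite G) hinf'
      apply hno
      refine ⟨∑ i, tl (p i) + e, d, hd, fun k => ?_⟩
      obtain ⟨y, hd, hy⟩ := ofU (H k) rfl (x := p) fun i => rfl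
      exact ⟨_, Or.inr ⟨p, hp, y, rfl, hd⟩, by rw [hy]; ring⟩
    refine (h1.image fun o => ∑ i, tl (p i) + o).subset ?_
    rintro m ⟨o, ho, rfl⟩
    exact ⟨o, ho, rfl⟩
  refine (hF.union hS).subset ?_
  rintro m ⟨w, hn | ⟨p, hp, y, rfl, hd⟩, rfl⟩
  · exact Or.inl ⟨w, hn, rfl⟩
  · right
    obtain ⟨o, h1, h2⟩ := toU hd
    simp only [Set.mem_iUnion]
    exact ⟨p, hp, o, h1, h2⟩

/-- powers of two are not the lengths of a mode 1 language -/
theorem powers_not_mem (c : T) :
    {w : List T | ∃ k, w = List.replicate (2 ^ k) c} ∉ FamilyN T true := by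
  rintro ⟨n, N, _, G, hG⟩
  have hinf : {m : ℕ | ∃ w ∈ LangN G true, w.length = m}.Infinite := by
    rw [← hG]
    refine Set.infinite_of_injective_forall_mem (f := fun k => 2 ^ k)
      (Nat.pow_right_injective (by norm_num)) fun k => ⟨_, ⟨k, rfl⟩, by simp⟩
  obtain ⟨a, d, hd, H⟩ := progression_one hinf
  rw [← hG] at H
  have H' : ∀ k, ∃ i, a + k * d = 2 ^ i := by
    intro k
    obtain ⟨w, ⟨i, rfl⟩, h⟩ := H k
    rw [List.length_replicate] at h
    exact ⟨i, h.symm⟩
  obtain ⟨i, hi⟩ := H' (d + 1)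
  obtain ⟨j, hj⟩ := H' (d + 2)
  have e1 : a + (d + 2) * d = a + (d + 1) * d + d := by ring
  have h1 : d < 2 ^ i := by
    rw [← hi]
    nlinarith
  have h2 : 2 ^ i < 2 ^ j := by omega
  have h3 : i < j := (Nat.pow_lt_pow_iff_right (by norm_num)).1 h2
  have h4 : 2 ^ (i + 1) ≤ 2 ^ j := Nat.pow_le_pow_right (by norm_num) h3
  rw [pow_succ] at h4
  omega

/-! ### two-component grammars have degree two -/

section Two

variable {N₁ N₂ : Type}

/-- letters of the first component -/
def em₁ : N₁ ⊕ T → (N₁ ⊕ N₂) ⊕ T := Sum.map Sum.inl id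

/-- letters of the second component -/
def em₂ : N₂ ⊕ T → (N₁ ⊕ N₂) ⊕ T := Sum.map Sum.inr id

theorem em₁_injective : Function.Injective (em₁ : N₁ ⊕ T → (N₁ ⊕ N₂) ⊕ T) :=
  Sum.map_injective.2 ⟨Sum.inl_injective, Function.injective_id⟩

theorem em₂_injective : Function.Injective (em₂ : N₂ ⊕ T → (N₁ ⊕ N₂) ⊕ T) :=
  Sum.map_injective.2 ⟨Sum.inr_injective, Function.injective_id⟩

/-- a pair as a function on `Fin 2` -/
def two (x : List (N₁ ⊕ T) × List (N₂ ⊕ T)) : Fin 2 → List ((N₁ ⊕ N₂) ⊕ T) :=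
  ![x.1.map em₁, x.2.map em₂]

/-- the two-component grammar `G` as a grammar of degree two -/
def ofGram (G : Gram N₁ N₂ T) : GramN 2 (N₁ ⊕ N₂) T where
  fin := G.fin
  ini := G.ini.map two
  rul := G.rul.map fun r => ![(Sum.inl r.1.1, r.1.2.map em₁), (Sum.inr r.2.1, r.2.2.map em₂)]
  ini_nt := by
    intro p hp
    rw [List.mem_map] at hp
    obtain ⟨q, hq, rfl⟩ := hp
    obtain ⟨A, hA⟩ := G.ini_fst q hq
    obtain ⟨B, hB⟩ := G.ini_snd q hq
    rw [Fin.forall_fin_two]
    exact ⟨⟨Sum.inl A, List.mem_map.2 ⟨_, hA, rfl⟩⟩, ⟨Sum.inr B, List.mem_map.2 ⟨_, hB, rfl⟩⟩⟩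

theorem step_two {G : Gram N₁ N₂ T} {j : Bool} {x y : List (N₁ ⊕ T) × List (N₂ ⊕ T)}
    (h : Step G j x y) : StepN (ofGram G) j (two x) (two y) := by
  obtain ⟨A₁, v₁, A₂, v₂, u₁, w₁, u₂, w₂, hr, rfl, rfl, hm⟩ := h
  refine ⟨_, List.mem_map.2 ⟨_, hr, rfl⟩, ?_⟩
  rw [Fin.forall_fin_two]
  refine ⟨⟨u₁.map em₁, w₁.map em₁, by simp [two, em₁], by simp [two], fun hj hmem => ?_⟩,
    ⟨u₂.map em₂, w₂.map em₂, by simp [two, em₂], by simp [two], fun hj hmem => ?_⟩⟩
  · rw [List.mem_map] at hmem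
    obtain ⟨a, ha, he⟩ := hmem
    have : a = Sum.inl A₁ := em₁_injective (N₂ := N₂) he
    subst this
    exact (hm hj).1 ha
  · rw [List.mem_map] at hmem
    obtain ⟨a, ha, he⟩ := hmem
    have : a = Sum.inl A₂ := em₂_injective (N₁ := N₁) he
    subst this
    exact (hm hj).2 ha

theorem step_of_two {G : Gram N₁ N₂ T} {j : Bool} {x : List (N₁ ⊕ T) × List (N₂ ⊕ T)}
    {y' : Fin 2 → List ((N₁ ⊕ N₂) ⊕ T)} (h : StepN (ofGram G) j (two x) y') :
    ∃ y, y' = two y ∧ Step G j x y := by
  obtain ⟨r, hr, hi⟩ := h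
  simp only [ofGram, List.mem_map] at hr
  obtain ⟨⟨⟨A₁, v₁⟩, ⟨A₂, v₂⟩⟩, hr, rfl⟩ := hr
  rw [Fin.forall_fin_two] at hi
  obtain ⟨⟨u₁, w₁, h1, h2, h3⟩, ⟨u₂, w₂, h4, h5, h6⟩⟩ := hi
  simp only [two, Matrix.cons_val_zero, Matrix.cons_val_one, List.map_eq_append_iff,
    List.map_eq_cons_iff] at h1 h2 h3 h4 h5 h6
  obtain ⟨a₁, r₁, hx1, rfl, c₁, b₁, rfl, hc1, rfl⟩ := h1
  obtain ⟨a₂, r₂, hx2, rfl, c₂, b₂, rfl, hc2, rfl⟩ := h4
  have e1 : c₁ = Sum.inl A₁ := em₁_injective (N₂ := N₂) hc1
  have e2 : c₂ = Sum.inl A₂ := em₂_injective (N₁ := N₁) hc2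
  subst e1 e2
  refine ⟨(a₁ ++ v₁ ++ b₁, a₂ ++ v₂ ++ b₂), ?_, A₁, v₁, A₂, v₂, a₁, b₁, a₂, b₂, hr,
    Prod.ext hx1 hx2, rfl, fun hj => ⟨fun hm => ?_, fun hm => ?_⟩⟩
  · funext i
    revert i
    rw [Fin.forall_fin_two]
    refine ⟨?_, ?_⟩
    · rw [h2]; simp [two]
    · rw [h5]; simp [two]
  · exact h3 hj (List.mem_map.2 ⟨_, hm, rfl⟩)
  · exact h6 hj (List.mem_map.2 ⟨_, hm, rfl⟩)

theorem reach_two {G : Gram N₁ N₂ T} {j : Bool} {x y : List (N₁ ⊕ T) × List (N₂ ⊕ T)}
    (h : ReflTransGen (Step G j) x y) : ReflTransGen (StepN (ofGram G) j) (two x) (two y) := by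
  induction h with
  | refl => exact ReflTransGen.refl
  | tail _ hs ih => exact ih.tail (step_two hs)

theorem reach_of_two {G : Gram N₁ N₂ T} {j : Bool} {x : List (N₁ ⊕ T) × List (N₂ ⊕ T)}
    {y' : Fin 2 → List ((N₁ ⊕ N₂) ⊕ T)} (h : ReflTransGen (StepN (ofGram G) j) (two x) y') :
    ∃ y, y' = two y ∧ ReflTransGen (Step G j) x y := by
  induction h with
  | refl => exact ⟨x, rfl, ReflTransGen.refl⟩
  | tail _ hs ih =>
    obtain ⟨y, rfl, h1⟩ := ih
    obtain ⟨z, rfl, h2⟩ := step_of_two hs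
    exact ⟨z, rfl, h1.tail h2⟩

theorem map_em₁ {x : List (N₁ ⊕ T)} : ∀ {y : List T},
    x.map (em₁ (N₂ := N₂)) = y.map Sum.inr → x = y.map Sum.inr := by
  intro y h
  have h1 : (y.map Sum.inr : List ((N₁ ⊕ N₂) ⊕ T)) =
      (y.map Sum.inr : List (N₁ ⊕ T)).map (em₁ (N₂ := N₂)) := by
    rw [List.map_map]; rfl
  rw [h1] at h
  exact em₁_injective.list_map h

theorem map_em₂ {x : List (N₂ ⊕ T)} : ∀ {y : List T},
    x.map (em₂ (N₁ := N₁)) = y.map Sum.inr → x = y.map Sum.inr := by
  intro y h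
  have h1 : (y.map Sum.inr : List ((N₁ ⊕ N₂) ⊕ T)) =
      (y.map Sum.inr : List (N₂ ⊕ T)).map (em₂ (N₁ := N₁)) := by
    rw [List.map_map]; rfl
  rw [h1] at h
  exact em₂_injective.list_map h

theorem lang_two (G : Gram N₁ N₂ T) (j : Bool) : LangN (ofGram G) j = Lang G j := by
  ext w
  constructor
  · rintro (h | ⟨p, hp, y, rfl, hd⟩)
    · exact Or.inl h
    · simp only [ofGram, List.mem_map] at hp
      obtain ⟨p, hp, rfl⟩ := hp
      obtain ⟨q, h1, h2⟩ := reach_of_two hd
      have h3 := congrFun h1 0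
      have h4 := congrFun h1 1
      simp only [two, Matrix.cons_val_zero, Matrix.cons_val_one] at h3 h4
      have h5 := map_em₁ h3.symm
      have h6 := map_em₂ h4.symm
      refine Or.inr ⟨p, hp, y 0, y 1, by simp [List.ofFn_succ], ?_⟩
      rw [← h5, ← h6]
      exact h2
  · rintro (h | ⟨p, hp, y₁, y₂, rfl, hd⟩)
    · exact Or.inl h
    · refine Or.inr ⟨two p, List.mem_map.2 ⟨p, hp, rfl⟩, ![y₁, y₂], by simp [List.ofFn_succ], ?_⟩
      have h1 := reach_two hd
      have h2 : two (N₁ := N₁) (N₂ := N₂) (y₁.map Sum.inr, y₂.map Sum.inr) =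
          fun i => ((![y₁, y₂] : Fin 2 → List T) i).map Sum.inr := by
        funext i
        revert i
        rw [Fin.forall_fin_two]
        refine ⟨?_, ?_⟩
        · simp only [two, Matrix.cons_val_zero, List.map_map]; rfl
        · simp only [two, Matrix.cons_val_one, List.map_map]; rfl
      rw [h2] at h1
      exact h1

theorem family_two (T : Type) (j : Bool) : Family T j ⊆ FamilyN T j := by
  rintro L ⟨N₁, N₂, h1, h2, G, rfl⟩
  exact ⟨1, N₁ ⊕ N₂, inferInstance, ofGram G, (lang_two G j).symm⟩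

end Two

end Pool.Agent.V11259.EM
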