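import Mathlib

/-!
# Amalgamation of runs of vector addition systems

`W` is a set of transitions `(a, o, b)`: it rewrites `a + z` to `b + z` and outputs the number
`o`.  If `W` is finite, and infinitely many numbers are outputs of runs from `m` to `f`, then the
outputs contain an infinite arithmetic progression.
-/

namespace Pool.Agent.V11259.EMvas

set_option linter.unusedSectionVars false

variable {M : Type*} [AddCommMonoid M] [PartialOrder M]

/-- reachability with output -/
inductive Rch (W : Set (M × ℕ × M)) : M → ℕ → M → Prop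
  | refl (x : M) : Rch W x 0 x
  | step {a b : M} {o : ℕ} (z : M) {y : M} {s : ℕ} (h : (a, o, b) ∈ W)
      (hr : Rch W (b + z) s y) : Rch W (a + z) (o + s) y

theorem Rch.trans {W : Set (M × ℕ × M)} {x y z : M} {s t : ℕ} (h1 : Rch W x s y)
    (h2 : Rch W y t z) : Rch W x (s + t) z := by
  induction h1 with
  | refl => simpa using h2
  | step w h hr ih => rw [Nat.add_assoc]; exact Rch.step w h (ih h2)

theorem Rch.shift {W : Set (M × ℕ × M)} {x y : M} {s : ℕ} (h : Rch W x s y) (w : M) :
    Rch W (x + w) s (y + w) := by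
  induction h with
  | refl => exact Rch.refl _
  | step z h hr ih =>
    rw [add_assoc]
    apply Rch.step _ h
    rw [← add_assoc]; exact ih

theorem Rch.iter {W : Set (M × ℕ × M)} {m δ δ' : M} {e : ℕ}
    (h : Rch W (m + δ) e (m + δ')) (k : ℕ) :
    Rch W (m + k • δ) (k * e) (m + k • δ') := by
  induction k with
  | zero => simpa using Rch.refl (W := W) m
  | succ k ih =>
    have h1 := h.shift (k • δ)
    have h2 := ih.shift δ'
    have e1 : m + (k + 1) • δ = m + δ + k • δ := by
      rw [succ_nsmul, add_assoc, add_comm δ]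
    have e2 : m + δ' + k • δ = m + k • δ + δ' := by
      rw [add_assoc, add_assoc, add_comm δ']
    have e3 : m + (k + 1) • δ' = m + k • δ' + δ' := by
      rw [succ_nsmul, add_assoc]
    have e4 : (k + 1) * e = e + k * e := by ring
    rw [e1, e3, e4]
    rw [e2] at h1
    exact h1.trans h2

/-- runs with recorded markings -/
inductive Run (W : Set (M × ℕ × M)) (f : M) : M → ℕ → List ((M × ℕ × M) × M) → Prop
  | nil : Run W f f 0 []
  | cons {a b z : M} {o s : ℕ} {l : List ((M × ℕ × M) × M)} (h : (a, o, b) ∈ W)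
      (hr : Run W f (b + z) s l) : Run W f (a + z) (o + s) (((a, o, b), a + z) :: l)

theorem exists_run {W : Set (M × ℕ × M)} {f m : M} {s : ℕ} (h : Rch W m s f) :
    ∃ l, Run W f m s l := by
  induction h with
  | refl => exact ⟨[], Run.nil⟩
  | step z h hr ih =>
    obtain ⟨l, hl⟩ := ih
    exact ⟨_, Run.cons h hl⟩

theorem Run.rch {W : Set (M × ℕ × M)} {f m : M} {s : ℕ} {l : List ((M × ℕ × M) × M)}
    (h : Run W f m s l) : Rch W m s f := by
  induction h with
  | nil => exact Rch.refl _
  | cons h hr ih => exact Rch.step _ h ih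

theorem Run.mem {W : Set (M × ℕ × M)} {f m : M} {s : ℕ} {l : List ((M × ℕ × M) × M)}
    (h : Run W f m s l) : ∀ x ∈ l, x ∈ W ×ˢ (Set.univ : Set M) := by
  induction h with
  | nil => simp
  | cons h hr ih =>
    intro x hx
    rcases List.mem_cons.1 hx with rfl | hx
    · exact ⟨h, trivial⟩
    · exact ih x hx

theorem amalg (hle : ∀ a b : M, a ≤ b → ∃ c, b = a + c)
    (hc : ∀ a b c : M, a + b = a + c → b = c) {W : Set (M × ℕ × M)} {f : M}
    {l0 l1 : List ((M × ℕ × M) × M)}
    (h : List.SublistForall₂ (fun x y : (M × ℕ × M) × M => x.1 = y.1 ∧ x.2 ≤ y.2) l0 l1) :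
    ∀ {m n : M} {s0 s1 : ℕ}, Run W f m s0 l0 → Run W f n s1 l1 →
      ∃ e, s1 = s0 + e ∧ ∀ (δ : M) (e0 : ℕ), Rch W (m + δ) e0 n →
        ∀ k : ℕ, Rch W (m + k • δ) (s0 + k * (e0 + e)) f := by
  induction h with
  | nil =>
    intro m n s0 s1 h0 h1
    cases h0
    refine ⟨s1, by simp, fun δ e0 hp k => ?_⟩
    have h2 : Rch W (f + δ) (e0 + s1) (f + 0) := by
      rw [add_zero]; exact hp.trans h1.rch
    have h3 := h2.iter k
    simpa using h3
  | cons hr _ ih =>
    intro m n s0 s1 h0 h1
    cases h0 with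
    | cons hw h0' =>
      rename_i a b z o s
      cases h1 with
      | cons hw' h1' =>
        rename_i a' b' z' o' s'
        obtain ⟨hr1, hr2⟩ := hr
        simp only [Prod.mk.injEq] at hr1
        obtain ⟨rfl, rfl, rfl⟩ := hr1
        simp only at hr2
        obtain ⟨δ', hδ'⟩ := hle _ _ hr2
        have hz : z' = z + δ' := by
          apply hc a
          rw [hδ', add_assoc]
        subst hz
        obtain ⟨e, he, H⟩ := ih h0' h1'
        refine ⟨e, by omega, fun δ e0 hp k => ?_⟩
        have h4 := H δ' 0 (by rw [add_assoc]; exact Rch.refl _) k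
        have h5 : Rch W (a + z + k • δ) (k * e0) (a + z + k • δ') := by
          apply Rch.iter
          rw [add_assoc a z δ']
          exact hp
        have h6 : Rch W (a + z + k • δ') (o + (s + k * (0 + e))) f := by
          rw [add_assoc]
          apply Rch.step _ hw
          rw [← add_assoc]
          exact h4
        have h7 := h5.trans h6
        have e1 : k * e0 + (o + (s + k * (0 + e))) = o + s + k * (e0 + e) := by ring
        rw [e1] at h7
        exact h7
  | cons_right _ ih =>
    intro m n s0 s1 h0 h1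
    cases h1 with
    | cons hw' h1' =>
      rename_i a' b' z' o' s'
      obtain ⟨e, he, H⟩ := ih h0 h1'
      refine ⟨o' + e, by omega, fun δ e0 hp k => ?_⟩
      have h4 := H δ (e0 + o') (by
        have h5 : Rch W (a' + z') (o' + 0) (b' + z') := Rch.step _ hw' (Rch.refl _)
        exact hp.trans h5) k
      have e1 : s0 + k * (e0 + o' + e) = s0 + k * (e0 + (o' + e)) := by ring
      rw [e1] at h4
      exact h4

/-- **Infinitely many outputs contain an arithmetic progression.** -/
theorem progression (hle : ∀ a b : M, a ≤ b → ∃ c, b = a + c)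
    (hc : ∀ a b c : M, a + b = a + c → b = c) (hw : (Set.univ : Set M).IsPWO)
    {W : Set (M × ℕ × M)} (hW : W.Finite) {m f : M}
    (hinf : {o : ℕ | Rch W m o f}.Infinite) :
    ∃ a d : ℕ, 0 < d ∧ ∀ k : ℕ, Rch W m (a + k * d) f := by
  classical
  set O : Set ℕ := {o : ℕ | Rch W m o f} with hO
  have hInf : Infinite O := hinf.to_subtype
  let g : ℕ ↪o O := (Nat.Subtype.orderIsoOfNat O).toOrderEmbedding
  have hrun : ∀ i, ∃ l, Run W f m (g i : ℕ) l := fun i => exists_run (g i).2
  choose l hl using hrun
  have hpre : IsPreorder ((M × ℕ × M) × M) (fun x y => x.1 = y.1 ∧ x.2 ≤ y.2) :=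
    { refl := fun x => ⟨rfl, le_rfl⟩
      trans := fun x y z h1 h2 => ⟨h1.1.trans h2.1, h1.2.trans h2.2⟩ }
  have hp : (W ×ˢ (Set.univ : Set M)).PartiallyWellOrderedOn
      (fun x y : (M × ℕ × M) × M => x.1 = y.1 ∧ x.2 ≤ y.2) :=
    (hW.partiallyWellOrderedOn (r := (· = ·))).prod hw
  have hH := Set.PartiallyWellOrderedOn.partiallyWellOrderedOn_sublistForall₂ _ hp
  obtain ⟨i, j, hij, hs⟩ := hH.exists_lt (f := l) (fun n => (hl n).mem)
  obtain ⟨e, he, H⟩ := amalg hle hc hs (hl i) (hl j)
  refine ⟨g i, e, ?_, fun k => ?_⟩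
  · have h1 : g i < g j := g.lt_iff_lt.2 hij
    have h2 : ((g i : O) : ℕ) < (g j : O) := h1
    omega
  · have h3 := H 0 0 (by rw [add_zero]; exact Rch.refl _) k
    simpa using h3

end Pool.Agent.V11259.EMvas
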