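import Mathlib.Computability.ContextFreeGrammar

/-!
Linear context-free grammars: a direct description of the generated language.
-/

namespace Pool.Agent.V11259.LinGram

variable {T : Type} {N : Type}

/-- A rule of a linear grammar: either `X → u Y v` or `X → w`. -/
inductive LRule (T N : Type) : Type
  | step (X : N) (u : List T) (Y : N) (v : List T) : LRule T N
  | stop (X : N) (w : List T) : LRule T N

/-- The context-free rule of a linear rule. -/
def LRule.toCF : LRule T N → ContextFreeRule T N
  | .step X u Y v => ⟨X, u.map Symbol.terminal ++ Symbol.nonterminal Y :: v.map Symbol.terminal⟩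
  | .stop X w => ⟨X, w.map Symbol.terminal⟩

/-- The words generated from a nonterminal. -/
inductive Gen (R : List (LRule T N)) : N → List T → Prop
  | stop {X w} : LRule.stop X w ∈ R → Gen R X w
  | step {X u Y v w} : LRule.step X u Y v ∈ R → Gen R Y w → Gen R X (u ++ w ++ v)

open Classical in
/-- The set of context-free rules. -/
noncomputable def ruleSet (R : List (LRule T N)) : Finset (ContextFreeRule T N) :=
  (R.map LRule.toCF).toFinset

/-- The grammar of a list of linear rules. -/
noncomputable def gram (R : List (LRule T N)) (S : N) : ContextFreeGrammar T where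
  NT := N
  initial := S
  rules := ruleSet R

/-- One step. -/
def Step (R : List (LRule T N)) (u v : List (Symbol T N)) : Prop :=
  ∃ r ∈ ruleSet R, r.Rewrites u v

theorem mem_rules {R : List (LRule T N)} {r : ContextFreeRule T N} :
    r ∈ ruleSet R ↔ ∃ l ∈ R, l.toCF = r := by
  simp [ruleSet]

theorem split_unique {p : List T} {X Y : N} {q : List T} {p' q' : List (Symbol T N)}
    (h : p.map Symbol.terminal ++ Symbol.nonterminal X :: q.map Symbol.terminal
      = p' ++ [Symbol.nonterminal Y] ++ q') :
    p' = p.map Symbol.terminal ∧ X = Y ∧ q' = q.map Symbol.terminal := by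
  induction p generalizing p' with
  | nil =>
    cases p' with
    | nil =>
      simp only [List.map_nil, List.nil_append, List.cons_append, List.cons.injEq,
        Symbol.nonterminal.injEq] at h
      exact ⟨rfl, h.1, h.2.symm⟩
    | cons c p' =>
      exfalso
      simp only [List.map_nil, List.nil_append, List.cons_append, List.cons.injEq] at h
      have h2 : Symbol.nonterminal Y ∈ q.map (Symbol.terminal : T → Symbol T N) := by
        rw [h.2]; simp
      simp at h2
  | cons a p ih =>
    cases p' with
    | nil => simp at h
    | cons c p' =>
      simp only [List.map_cons, List.cons_append, List.cons.injEq] at h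
      obtain ⟨h1, h2⟩ := h
      obtain ⟨h3, h4, h5⟩ := ih h2
      exact ⟨by rw [h3, ← h1]; rfl, h4, h5⟩

theorem step_append {R : List (LRule T N)} {s t : List (Symbol T N)} (h : Step R s t)
    (p q : List (Symbol T N)) : Step R (p ++ s ++ q) (p ++ t ++ q) := by
  obtain ⟨r, hr, h⟩ := h
  exact ⟨r, hr, (h.append_left p).append_right q⟩

theorem derives_append {R : List (LRule T N)} {s t : List (Symbol T N)}
    (h : Relation.ReflTransGen (Step R) s t)
    (p q : List (Symbol T N)) :
    Relation.ReflTransGen (Step R) (p ++ s ++ q) (p ++ t ++ q) := by
  induction h with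
  | refl => exact Relation.ReflTransGen.refl
  | tail _ h ih => exact ih.tail (step_append h p q)

theorem derives_of_gen {R : List (LRule T N)} {X : N} {w : List T} (h : Gen R X w) :
    Relation.ReflTransGen (Step R) [Symbol.nonterminal X] (w.map Symbol.terminal) := by
  induction h with
  | @stop X w h =>
    apply Relation.ReflTransGen.single
    exact ⟨⟨X, w.map Symbol.terminal⟩, mem_rules.2 ⟨_, h, rfl⟩,
      ContextFreeRule.Rewrites.input_output⟩
  | @step X u Y v w h _ ih =>
    have h1 : Step R [Symbol.nonterminal X]
        (u.map Symbol.terminal ++ Symbol.nonterminal Y :: v.map Symbol.terminal) :=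
      ⟨⟨X, u.map Symbol.terminal ++ Symbol.nonterminal Y :: v.map Symbol.terminal⟩,
        mem_rules.2 ⟨_, h, rfl⟩, ContextFreeRule.Rewrites.input_output⟩
    have h2 := derives_append ih (u.map Symbol.terminal) (v.map Symbol.terminal)
    refine Relation.ReflTransGen.head h1 ?_
    simpa using h2

theorem gen_of_derives {R : List (LRule T N)} {w : List T}
    {s : List (Symbol T N)}
    (h : Relation.ReflTransGen (Step R) s (w.map Symbol.terminal)) :
    (∀ z : List T, s = z.map Symbol.terminal → w = z) ∧
    (∀ (p : List T) (X : N) (q : List T),
      s = p.map Symbol.terminal ++ Symbol.nonterminal X :: q.map Symbol.terminal →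
      ∃ m, w = p ++ m ++ q ∧ Gen R X m) := by
  have hinj : Function.Injective (Symbol.terminal : T → Symbol T N) := by
    intro a b hab
    simpa using hab
  induction h using Relation.ReflTransGen.head_induction_on with
  | refl =>
    constructor
    · intro z hz
      exact List.map_injective_iff.2 hinj hz
    · intro p X q h
      exfalso
      have : (Symbol.nonterminal X : Symbol T N) ∈ w.map Symbol.terminal := by
        rw [h]; simp
      simp at this
  | @head s s' hs _ ih =>
    obtain ⟨r, hr, hrw⟩ := hs
    obtain ⟨p', q', hp, hp'⟩ := hrw.exists_parts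
    constructor
    · intro z hz
      exfalso
      have : (Symbol.nonterminal r.input : Symbol T N) ∈ z.map Symbol.terminal := by
        rw [← hz, hp]; simp
      simp at this
    · intro p X q h
      have h0 := h.symm.trans hp
      obtain ⟨h1, h2, h3⟩ := split_unique h0
      obtain ⟨l, hl, hlr⟩ := mem_rules.1 hr
      subst h1 h3
      cases l with
      | stop X' w' =>
        simp only [LRule.toCF] at hlr
        subst hlr
        simp only at h2
        subst h2
        refine ⟨w', ?_, Gen.stop hl⟩
        apply ih.1
        rw [hp']
        simp
      | step X' u Y v =>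
        simp only [LRule.toCF] at hlr
        subst hlr
        simp only at h2
        subst h2
        obtain ⟨m, hm1, hm2⟩ := ih.2 (p ++ u) Y (v ++ q) (by rw [hp']; simp)
        exact ⟨u ++ m ++ v, by rw [hm1]; simp, Gen.step hl hm2⟩

/-- The language of a linear grammar. -/
theorem mem_gram_language {R : List (LRule T N)} {S : N} {w : List T} :
    w ∈ (gram R S).language ↔ Gen R S w := by
  constructor
  · intro h
    have h' : Relation.ReflTransGen (Step R) [Symbol.nonterminal S] (w.map Symbol.terminal) := h
    obtain ⟨m, hm1, hm2⟩ := (gen_of_derives h').2 [] S [] (by simp)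
    simp only [List.nil_append, List.append_nil] at hm1
    rw [hm1]; exact hm2
  · intro h
    have h' := derives_of_gen h
    exact h'

theorem isContextFree_of_gen {R : List (LRule T N)} {S : N} {L : Language T}
    (h : ∀ w, w ∈ L ↔ Gen R S w) : L.IsContextFree := by
  refine ⟨gram R S, ?_⟩
  ext w
  rw [mem_gram_language, h]

end Pool.Agent.V11259.LinGram
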