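import Mathlib

/-!
# Finite transducers, their composition, and rational cones
-/

namespace Pool.Agent.V11259.Rat

/-- A finite transducer: finitely many states, each transition reads at most one letter and writes
at most one letter. -/
structure Transducer (X Y : Type) where
  Q : Type
  fin : Fintype Q
  tr : Q → Option X → Option Y → Q → Prop
  start : Set Q
  final : Set Q

/-- runs -/
inductive Run {X Y : Type} (t : Transducer X Y) : t.Q → List X → List Y → t.Q → Prop
  | nil (q : t.Q) : Run t q [] [] q
  | cons {q q1 q2 : t.Q} {x : Option X} {y : Option Y} {u : List X} {v : List Y} :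
      t.tr q x y q1 → Run t q1 u v q2 → Run t q (x.toList ++ u) (y.toList ++ v) q2

/-- the image of a language -/
def image {X Y : Type} (t : Transducer X Y) (L : Set (List X)) : Set (List Y) :=
  {v | ∃ u ∈ L, ∃ q ∈ t.start, ∃ q' ∈ t.final, Run t q u v q'}

variable {X Y Z : Type}

theorem Run.trans {t : Transducer X Y} {q1 q2 q3 : t.Q} {u u' : List X} {v v' : List Y}
    (h : Run t q1 u v q2) (h' : Run t q2 u' v' q3) : Run t q1 (u ++ u') (v ++ v') q3 := by
  induction h with
  | nil q => exact h'
  | cons hs _ ih =>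
    rw [List.append_assoc, List.append_assoc]
    exact Run.cons hs (ih h')

theorem Run.single {t : Transducer X Y} {q q1 : t.Q} {x : Option X} {y : Option Y}
    (h : t.tr q x y q1) : Run t q x.toList y.toList q1 := by
  have := Run.cons h (Run.nil q1)
  rwa [List.append_nil, List.append_nil] at this

/-- cutting a run along its output -/
theorem Run.cut {t : Transducer X Y} {q q' : t.Q} {u : List X} {w : List Y}
    (h : Run t q u w q') : ∀ v v' : List Y, w = v ++ v' →
    ∃ p u1 u2, u = u1 ++ u2 ∧ Run t q u1 v p ∧ Run t p u2 v' q' := by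
  induction h with
  | nil q =>
    intro v v' hw
    have h1 : v = [] ∧ v' = [] := List.append_eq_nil_iff.1 hw.symm
    exact ⟨q, [], [], rfl, h1.1 ▸ Run.nil q, h1.2 ▸ Run.nil q⟩
  | @cons q q1 q2 x y u w hs hr ih =>
    intro v v' hw
    cases y with
    | none =>
      obtain ⟨p, u1, u2, rfl, h1, h2⟩ := ih v v' hw
      exact ⟨p, x.toList ++ u1, u2, by rw [List.append_assoc], Run.cons hs h1, h2⟩
    | some y =>
      cases v with
      | nil =>
        refine ⟨q, [], x.toList ++ u, rfl, Run.nil q, ?_⟩
        rw [List.nil_append] at hw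
        rw [← hw]
        exact Run.cons hs hr
      | cons b v =>
        have hw' : y :: w = b :: (v ++ v') := hw
        obtain ⟨rfl, hw2⟩ := List.cons.inj hw'
        obtain ⟨p, u1, u2, rfl, h1, h2⟩ := ih v v' hw2
        exact ⟨p, x.toList ++ u1, u2, by rw [List.append_assoc], Run.cons hs h1, h2⟩

/-- cutting a run along the first letter of its input -/
theorem Run.read {t : Transducer X Y} {q q' : t.Q} {w : List X} {v : List Y}
    (h : Run t q w v q') : ∀ (c : X) (u : List X), w = c :: u →
    ∃ p1 p2 b v1 v2, v = v1 ++ (Option.toList b ++ v2) ∧ Run t q [] v1 p1 ∧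
      t.tr p1 (some c) b p2 ∧ Run t p2 u v2 q' := by
  induction h with
  | nil q =>
    intro c u hw
    exact absurd hw (by simp)
  | @cons q q1 q2 x y w v hs hr ih =>
    intro c u hw
    cases x with
    | none =>
      obtain ⟨p1, p2, b, v1, v2, rfl, h1, h2, h3⟩ := ih c u hw
      refine ⟨p1, p2, b, y.toList ++ v1, v2, by rw [List.append_assoc], ?_, h2, h3⟩
      exact Run.cons (x := none) hs h1
    | some x =>
      have hw' : x :: w = c :: u := hw
      obtain ⟨rfl, rfl⟩ := List.cons.inj hw'
      exact ⟨q, q1, y, [], v, rfl, Run.nil q, hs, hr⟩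

/-- composition of transducers -/
def comp (s : Transducer X Y) (t : Transducer Y Z) : Transducer X Z where
  Q := s.Q × t.Q
  fin := by
    haveI := s.fin
    haveI := t.fin
    exact inferInstance
  tr p x z p' :=
    (s.tr p.1 x none p'.1 ∧ z = none ∧ p.2 = p'.2) ∨
    (t.tr p.2 none z p'.2 ∧ x = none ∧ p.1 = p'.1) ∨
    (∃ y, s.tr p.1 x (some y) p'.1 ∧ t.tr p.2 (some y) z p'.2)
  start := {p | p.1 ∈ s.start ∧ p.2 ∈ t.start}
  final := {p | p.1 ∈ s.final ∧ p.2 ∈ t.final}

theorem comp_split {s : Transducer X Y} {t : Transducer Y Z} {p p' : (comp s t).Q}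
    {u : List X} {w : List Z} (h : Run (comp s t) p u w p') :
    ∃ v, Run s p.1 u v p'.1 ∧ Run t p.2 v w p'.2 := by
  induction h with
  | nil q => exact ⟨[], Run.nil _, Run.nil _⟩
  | @cons q q1 q2 x z u w hs hr ih =>
    obtain ⟨v, h1, h2⟩ := ih
    rcases hs with ⟨ha, rfl, hb⟩ | ⟨ha, rfl, hb⟩ | ⟨y, ha, hb⟩
    · refine ⟨v, Run.cons (y := none) ha h1, ?_⟩
      rw [hb]; exact h2
    · refine ⟨v, ?_, Run.cons (x := none) ha h2⟩
      rw [hb]; exact h1
    · exact ⟨y :: v, Run.cons (y := some y) ha h1, Run.cons (x := some y) hb h2⟩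

theorem comp_second {s : Transducer X Y} {t : Transducer Y Z} (a : s.Q) {b b' : t.Q}
    {v : List Y} {w : List Z} (h : Run t b v w b') (hv : v = []) :
    Run (comp s t) (a, b) [] w (a, b') := by
  induction h with
  | nil q => exact Run.nil _
  | @cons q q1 q2 x z u w hs hr ih =>
    cases x with
    | none =>
      exact Run.cons (t := comp s t) (q := (a, q)) (q1 := (a, q1)) (x := none)
        (Or.inr (Or.inl ⟨hs, rfl, rfl⟩)) (ih hv)
    | some x => exact absurd hv (by simp)

theorem comp_join {s : Transducer X Y} {t : Transducer Y Z} {a a' : s.Q} {u : List X}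
    {v : List Y} (h : Run s a u v a') : ∀ {b b' : t.Q} {w : List Z}, Run t b v w b' →
    Run (comp s t) (a, b) u w (a', b') := by
  induction h with
  | nil q =>
    intro b b' w h'
    exact comp_second q h' rfl
  | @cons q q1 q2 x y u v hs hr ih =>
    intro b b' w h'
    cases y with
    | none =>
      exact Run.cons (t := comp s t) (q := (q, b)) (q1 := (q1, b)) (y := none)
        (Or.inl ⟨hs, rfl, rfl⟩) (ih h')
    | some y =>
      obtain ⟨p1, p2, c, v1, v2, rfl, h1, h2, h3⟩ := h'.read y v rfl
      have h4 := comp_second (s := s) q h1 rfl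
      have h5 : Run (comp s t) (q, p1) (x.toList ++ u) (c.toList ++ v2) (q2, b') :=
        Run.cons (t := comp s t) (q := (q, p1)) (q1 := (q1, p2)) (Or.inr (Or.inr ⟨y, hs, h2⟩))
          (ih h3)
      have h6 := Run.trans h4 h5
      rwa [List.nil_append] at h6

theorem image_comp (s : Transducer X Y) (t : Transducer Y Z) (L : Set (List X)) :
    image (comp s t) L = image t (image s L) := by
  ext w
  constructor
  · rintro ⟨u, hu, q, hq, q', hq', h⟩
    obtain ⟨v, h1, h2⟩ := comp_split h
    exact ⟨v, ⟨u, hu, q.1, hq.1, q'.1, hq'.1, h1⟩, q.2, hq.2, q'.2, hq'.2, h2⟩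
  · rintro ⟨v, ⟨u, hu, a, ha, a', ha', h1⟩, b, hb, b', hb', h2⟩
    exact ⟨u, hu, (a, b), ⟨ha, hb⟩, (a', b'), ⟨ha', hb'⟩, comp_join h1 h2⟩

/-- the identity transducer -/
def idt (X : Type) : Transducer X X where
  Q := Unit
  fin := inferInstance
  tr _ x y _ := x = y
  start := Set.univ
  final := Set.univ

theorem image_idt (L : Set (List X)) : image (idt X) L = L := by
  ext w
  constructor
  · rintro ⟨u, hu, q, -, q', -, h⟩
    have : u = w := by
      clear hu
      induction h with
      | nil q => rfl
      | cons hs _ ih =>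
        have hs' := hs
        change _ = _ at hs'
        rw [hs', ih]
    rwa [← this]
  · intro hw
    refine ⟨w, hw, (), trivial, (), trivial, ?_⟩
    clear hw
    induction w with
    | nil => exact Run.nil _
    | cons a w ih => exact Run.cons (t := idt X) (x := some a) (y := some a) rfl ih

end Pool.Agent.V11259.Rat
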