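import Pool.Agent.V11259.RatA

/-!
# `{a^m b^n : m ≠ n}` is not a transduction of `{a^i b^j c^k : i, j, k not all equal}`
-/

namespace Pool.Agent.V11259.Rat

/-- the concatenation of the segments `z a, …, z (a + k - 1)` -/
def seg {X : Type} (z : ℕ → List X) (a k : ℕ) : List X := ((List.range' a k).map z).flatten

theorem seg_zero {X : Type} (z : ℕ → List X) (a : ℕ) : seg z a 0 = [] := rfl

theorem seg_add {X : Type} (z : ℕ → List X) (a j k : ℕ) :
    seg z a (j + k) = seg z a j ++ seg z (a + j) k := by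
  unfold seg
  rw [← List.range'_append_1, List.map_append, List.flatten_append]

theorem seg_one {X : Type} (z : ℕ → List X) (a : ℕ) : seg z a 1 = z a := by
  simp [seg, List.range'_one]

theorem chain {X Y : Type} (t : Transducer X Y) (y : Y) : ∀ (n : ℕ) (q q' : t.Q) (u : List X),
    Run t q u (List.replicate n y) q' → ∃ (s : ℕ → t.Q) (z : ℕ → List X) (rest : List X),
      s 0 = q ∧ (∀ l < n, Run t (s l) (z l) [y] (s (l + 1))) ∧ Run t (s n) rest [] q' ∧
      u = seg z 0 n ++ rest := by
  classical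
  intro n
  induction n with
  | zero =>
    intro q q' u h
    exact ⟨fun _ => q, fun _ => [], u, rfl, fun l hl => absurd hl (by omega), h, rfl⟩
  | succ n ih =>
    intro q q' u h
    obtain ⟨p, u1, u2, rfl, h1, h2⟩ := h.cut (List.replicate n y) [y]
      (by rw [List.replicate_succ'])
    obtain ⟨s, z, rest, hs0, hs, hr, rfl⟩ := ih q p u1 h1
    refine ⟨fun l => if l = n + 1 then q' else s l, fun l => if l = n then rest ++ u2 else z l,
      [], ?_, ?_, ?_, ?_⟩
    · change (if 0 = n + 1 then q' else s 0) = q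
      rw [if_neg (by omega)]; exact hs0
    · intro l hl
      by_cases h3 : l = n
      · subst h3
        change Run t (if l = l + 1 then q' else s l) (if l = l then rest ++ u2 else z l) [y]
          (if l + 1 = l + 1 then q' else s (l + 1))
        rw [if_neg (by omega), if_pos rfl, if_pos rfl]
        exact Run.trans hr h2
      · change Run t (if l = n + 1 then q' else s l) (if l = n then rest ++ u2 else z l) [y]
          (if l + 1 = n + 1 then q' else s (l + 1))
        rw [if_neg (by omega), if_neg h3, if_neg (by omega)]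
        exact hs l (by omega)
    · change Run t (if n + 1 = n + 1 then q' else s (n + 1)) [] [] q'
      rw [if_pos rfl]
      exact Run.nil q'
    · rw [seg_add, seg_one, Nat.zero_add, List.append_nil]
      have e1 : seg (fun l => if l = n then rest ++ u2 else z l) 0 n = seg z 0 n := by
        unfold seg
        congr 1
        refine List.map_congr_left fun l hl => ?_
        have := List.mem_range'_1.1 hl
        exact if_neg (by omega)
      rw [e1, List.append_assoc]
      change _ = seg z 0 n ++ (if n = n then rest ++ u2 else z n)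
      rw [if_pos rfl]

theorem run_seg {X Y : Type} {t : Transducer X Y} {y : Y} {n : ℕ} {s : ℕ → t.Q}
    {z : ℕ → List X} (hs : ∀ l < n, Run t (s l) (z l) [y] (s (l + 1))) : ∀ (k a : ℕ), a + k ≤ n →
    Run t (s a) (seg z a k) (List.replicate k y) (s (a + k)) := by
  intro k
  induction k with
  | zero => intro a _; exact Run.nil _
  | succ k ih =>
    intro a ha
    rw [Nat.add_comm k 1, seg_add, seg_one, List.replicate_add]
    have h1 := ih (a + 1) (by omega)
    have e : a + (1 + k) = a + 1 + k := by omega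
    rw [e]
    exact Run.trans (hs a (by omega)) h1

/-- the largest letter -/
def top (w : List (Fin 3)) : Fin 3 := w.foldr max 0

theorem le_top {w : List (Fin 3)} {a : Fin 3} (ha : a ∈ w) : a ≤ top w := by
  induction w with
  | nil => exact absurd ha (by simp)
  | cons b w ih =>
    change a ≤ max b (top w)
    rcases List.mem_cons.1 ha with rfl | h
    · exact le_max_left _ _
    · exact (ih h).trans (le_max_right _ _)

theorem top_le {w : List (Fin 3)} {a : Fin 3} (ha : ∀ b ∈ w, b ≤ a) : top w ≤ a := by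
  induction w with
  | nil => exact Fin.zero_le a
  | cons b w ih =>
    change max b (top w) ≤ a
    exact max_le (ha b List.mem_cons_self) (ih fun c hc => ha c (List.mem_cons_of_mem _ hc))

theorem loop {Y : Type} {t : Transducer (Fin 3) Y} {y : Y} {q q' : t.Q} {u : List (Fin 3)} {n N : ℕ}
    (hN : N = 3 * @Fintype.card t.Q t.fin) (hn : N ≤ n) (hu : u.Pairwise (· ≤ ·))
    (h : Run t q u (List.replicate n y) q') :
    ∃ (p : t.Q) (u1 z u2 : List (Fin 3)) (x : Fin 3) (n1 w n2 : ℕ), u = u1 ++ (z ++ u2) ∧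
      (∀ a ∈ z, a = x) ∧ n = n1 + (w + n2) ∧ 1 ≤ w ∧ w ≤ N ∧
      Run t q u1 (List.replicate n1 y) p ∧ Run t p z (List.replicate w y) p ∧
      Run t p u2 (List.replicate n2 y) q' := by
  classical
  letI : Fintype t.Q := t.fin
  obtain ⟨s, z, rest, hs0, hs, hr, rfl⟩ := chain t y n q q' u h
  have hcard : Fintype.card (t.Q × Fin 3) < Fintype.card (Fin (N + 1)) := by
    rw [Fintype.card_prod, Fintype.card_fin, Fintype.card_fin, hN]
    omega
  obtain ⟨i, j, hne, heq⟩ := Fintype.exists_ne_map_eq_of_card_lt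
    (fun l : Fin (N + 1) => (s l, top (seg z 0 l))) hcard
  obtain ⟨l, w, hw1, hw2, hst, htop⟩ : ∃ l w : ℕ, 1 ≤ w ∧ l + w ≤ N ∧ s l = s (l + w) ∧
      top (seg z 0 l) = top (seg z 0 (l + w)) := by
    have h1 := (Prod.ext_iff.1 heq).1
    have h2 := (Prod.ext_iff.1 heq).2
    simp only at h1 h2
    rcases lt_trichotomy (i : ℕ) (j : ℕ) with h3 | h3 | h3
    · refine ⟨i, j - i, by omega, by omega, ?_, ?_⟩
      · rw [Nat.add_sub_cancel' h3.le]; exact h1
      · rw [Nat.add_sub_cancel' h3.le]; exact h2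
    · exact absurd (Fin.ext h3) hne
    · refine ⟨j, i - j, by omega, by omega, ?_, ?_⟩
      · rw [Nat.add_sub_cancel' h3.le]; exact h1.symm
      · rw [Nat.add_sub_cancel' h3.le]; exact h2.symm
  have hsplit : seg z 0 n = seg z 0 l ++ (seg z l w ++ seg z (l + w) (n - (l + w))) := by
    have e : n = l + (w + (n - (l + w))) := by omega
    conv_lhs => rw [e]
    rw [seg_add, seg_add, Nat.zero_add]
  refine ⟨s l, seg z 0 l, seg z l w, seg z (l + w) (n - (l + w)) ++ rest, top (seg z 0 l), l, w,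
    n - (l + w), ?_, ?_, by omega, hw1, by omega, ?_, ?_, ?_⟩
  · rw [hsplit, List.append_assoc, List.append_assoc]
  · intro a ha
    apply le_antisymm
    · rw [htop, seg_add, Nat.zero_add]
      exact le_top (List.mem_append_right _ ha)
    · apply top_le
      intro b hb
      rw [hsplit, List.append_assoc, List.append_assoc] at hu
      exact (List.pairwise_append.1 hu).2.2 b hb a (List.mem_append_left _ ha)
  · have := run_seg hs l 0 (by omega)
    rwa [Nat.zero_add, hs0] at this
  · have := run_seg hs w l (by omega)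
    rwa [← hst] at this
  · have h1 := run_seg hs (n - (l + w)) (l + w) (by omega)
    have e : l + w + (n - (l + w)) = n := by omega
    rw [e, ← hst] at h1
    have h2 := Run.trans h1 hr
    rwa [List.append_nil] at h2

/-- repetition -/
def rp {X : Type} (k : ℕ) (z : List X) : List X := (List.replicate k z).flatten

theorem mem_rp {X : Type} {k : ℕ} {z : List X} {a : X} (h : a ∈ rp k z) : a ∈ z := by
  obtain ⟨l, hl, ha⟩ := List.mem_flatten.1 h
  rw [(List.mem_replicate.1 hl).2] at ha
  exact ha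

theorem rp_succ {X : Type} (k : ℕ) (z : List X) : rp (k + 1) z = z ++ rp k z := by
  rw [rp, List.replicate_succ, List.flatten_cons]; rfl

theorem count_rp {k : ℕ} {z : List (Fin 3)} (a : Fin 3) :
    (rp k z).count a = k * z.count a := by
  induction k with
  | zero => simp [rp]
  | succ k ih => rw [rp_succ, List.count_append, ih]; ring

theorem run_rp {X Y : Type} {t : Transducer X Y} {p : t.Q} {z : List X} {w : ℕ} {y : Y}
    (h : Run t p z (List.replicate w y) p) (k : ℕ) :
    Run t p (rp k z) (List.replicate (k * w) y) p := by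
  induction k with
  | zero => rw [Nat.zero_mul]; exact Run.nil p
  | succ k ih =>
    rw [rp_succ, Nat.succ_mul, Nat.add_comm, List.replicate_add]
    exact Run.trans h ih

/-- `a^i b^j c^k` with `i, j, k` not all equal -/
def L3 : Set (List (Fin 3)) :=
  {u | u.Pairwise (· ≤ ·) ∧ ¬ (u.count 0 = u.count 1 ∧ u.count 1 = u.count 2)}

/-- `a^m b^n` with `n ≠ m` -/
def sNe : Set (List (Fin 2)) :=
  {v | ∃ m n : ℕ, n ≠ m ∧ v = List.replicate m 0 ++ List.replicate n 1}

theorem not_sNe (M : ℕ) : List.replicate M (0 : Fin 2) ++ List.replicate M 1 ∉ sNe := by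
  rintro ⟨m, n, hne, h⟩
  have h0 := congrArg (List.count 0) h
  have h1 := congrArg (List.count 1) h
  simp [List.count_replicate] at h0 h1
  omega

theorem pairwise_rp {u1 z u2 : List (Fin 3)} {x : Fin 3} (hz : ∀ a ∈ z, a = x)
    (h : (u1 ++ (z ++ u2)).Pairwise (· ≤ ·)) (k : ℕ) :
    (u1 ++ (rp k z ++ u2)).Pairwise (· ≤ ·) := by
  rw [List.pairwise_append, List.pairwise_append] at h ⊢
  obtain ⟨h1, ⟨h2, h3, h4⟩, h5⟩ := h
  refine ⟨h1, ⟨?_, h3, fun a ha b hb => h4 a (mem_rp ha) b hb⟩, ?_⟩
  · refine List.pairwise_of_forall_mem_list fun a ha b hb => ?_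
    rw [hz a (mem_rp ha), hz b (mem_rp hb)]
  · intro a ha b hb
    rcases List.mem_append.1 hb with hb | hb
    · exact h5 a ha b (List.mem_append_left _ (mem_rp hb))
    · exact h5 a ha b (List.mem_append_right _ hb)

theorem core (t : Transducer (Fin 3) (Fin 2)) (ht : image t L3 = sNe) : False := by
  classical
  obtain ⟨N, hN⟩ : ∃ N, N = 3 * @Fintype.card t.Q t.fin := ⟨_, rfl⟩
  have hfac : 1 ≤ N.factorial := Nat.factorial_pos N
  have hv : List.replicate N (0 : Fin 2) ++ List.replicate (N + N.factorial) 1 ∈ image t L3 := by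
    rw [ht]
    exact ⟨N, N + N.factorial, by omega, rfl⟩
  obtain ⟨u, ⟨hu1, hu2⟩, q, hq, q', hq', hrun⟩ := hv
  obtain ⟨p, uA, uB, rfl, hA, hB⟩ := hrun.cut _ _ rfl
  have hsA := (List.pairwise_append.1 hu1).1
  have hsB := (List.pairwise_append.1 hu1).2.1
  obtain ⟨pa, u1, z1, u2, x1, n1, w1, n2, rfl, hz1, hn1, hw1, hw1N, ra1, ra2, ra3⟩ :=
    loop hN le_rfl hsA hA
  obtain ⟨pb, u3, z2, u4, x2, n3, w2, n4, rfl, hz2, hn2, hw2, -, rb1, rb2, rb3⟩ :=
    loop hN (by omega) hsB hB
  obtain ⟨d, hd⟩ : w1 ∣ N.factorial := Nat.dvd_factorial hw1 hw1N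
  -- pumping
  have key : ∀ k1 k2 : ℕ, n1 + (k1 * w1 + n2) = n3 + (k2 * w2 + n4) →
      ((u1 ++ (rp k1 z1 ++ u2)) ++ (u3 ++ (rp k2 z2 ++ u4))).count 0 =
        ((u1 ++ (rp k1 z1 ++ u2)) ++ (u3 ++ (rp k2 z2 ++ u4))).count 1 ∧
      ((u1 ++ (rp k1 z1 ++ u2)) ++ (u3 ++ (rp k2 z2 ++ u4))).count 1 =
        ((u1 ++ (rp k1 z1 ++ u2)) ++ (u3 ++ (rp k2 z2 ++ u4))).count 2 := by
    intro k1 k2 hk
    by_contra hcon
    have hsort : ((u1 ++ (rp k1 z1 ++ u2)) ++ (u3 ++ (rp k2 z2 ++ u4))).Pairwise (· ≤ ·) := by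
      have e1 : (u1 ++ (z1 ++ (u2 ++ (u3 ++ (z2 ++ u4))))).Pairwise (· ≤ ·) := by
        simpa only [List.append_assoc] using hu1
      have e2 := pairwise_rp hz1 e1 k1
      have e3 : ((u1 ++ (rp k1 z1 ++ (u2 ++ u3))) ++ (z2 ++ u4)).Pairwise (· ≤ ·) := by
        simpa only [List.append_assoc] using e2
      have e4 := pairwise_rp hz2 e3 k2
      simpa only [List.append_assoc] using e4
    have hrun : Run t q ((u1 ++ (rp k1 z1 ++ u2)) ++ (u3 ++ (rp k2 z2 ++ u4)))
        (List.replicate (n1 + (k1 * w1 + n2)) 0 ++ List.replicate (n3 + (k2 * w2 + n4)) 1) q' := by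
      have f1 : Run t q (u1 ++ (rp k1 z1 ++ u2)) (List.replicate (n1 + (k1 * w1 + n2)) 0) p := by
        rw [List.replicate_add, List.replicate_add]
        exact Run.trans ra1 (Run.trans (run_rp ra2 k1) ra3)
      have f2 : Run t p (u3 ++ (rp k2 z2 ++ u4)) (List.replicate (n3 + (k2 * w2 + n4)) 1) q' := by
        rw [List.replicate_add, List.replicate_add]
        exact Run.trans rb1 (Run.trans (run_rp rb2 k2) rb3)
      exact Run.trans f1 f2
    have hin : List.replicate (n1 + (k1 * w1 + n2)) (0 : Fin 2) ++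
        List.replicate (n3 + (k2 * w2 + n4)) 1 ∈ image t L3 :=
      ⟨_, ⟨hsort, hcon⟩, q, hq, q', hq', hrun⟩
    rw [ht, hk] at hin
    exact not_sNe _ hin
  have hcount : ∀ (k1 k2 : ℕ) (a : Fin 3),
      ((u1 ++ (rp k1 z1 ++ u2)) ++ (u3 ++ (rp k2 z2 ++ u4))).count a =
        (u1.count a + u2.count a + u3.count a + u4.count a) + k1 * z1.count a +
          k2 * z2.count a := by
    intro k1 k2 a
    simp only [List.count_append, count_rp]
    ring
  have E1 := key (1 + d) 1 (by
    have : (1 + d) * w1 = w1 + N.factorial := by rw [hd]; ring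
    rw [this]; omega)
  have E2 := key (1 + d + w2) (1 + w1) (by
    have e1 : (1 + d + w2) * w1 = w1 + N.factorial + w1 * w2 := by rw [hd]; ring
    have e2 : (1 + w1) * w2 = w2 + w1 * w2 := by ring
    rw [e1, e2]; omega)
  have hE2 : ∀ a : Fin 3,
      ((u1 ++ (rp (1 + d + w2) z1 ++ u2)) ++ (u3 ++ (rp (1 + w1) z2 ++ u4))).count a =
        ((u1 ++ (rp (1 + d) z1 ++ u2)) ++ (u3 ++ (rp 1 z2 ++ u4))).count a +
          (w2 * z1.count a + w1 * z2.count a) := by
    intro a
    rw [hcount, hcount]; ring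
  rw [hE2, hE2, hE2] at E2
  have hA0 : ∀ a, a ≠ x1 → z1.count a = 0 := fun a ha => List.count_eq_zero.2 fun h =>
    ha (hz1 a h)
  have hB0 : ∀ a, a ≠ x2 → z2.count a = 0 := fun a ha => List.count_eq_zero.2 fun h =>
    ha (hz2 a h)
  have D1 : w2 * z1.count 0 + w1 * z2.count 0 = w2 * z1.count 1 + w1 * z2.count 1 := by
    have a1 := E1.1
    have a2 := E2.1
    omega
  have D2 : w2 * z1.count 1 + w1 * z2.count 1 = w2 * z1.count 2 + w1 * z2.count 2 := by
    have a1 := E1.2
    have a2 := E2.2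
    omega
  have hthird : ∀ x1 x2 : Fin 3, ∃ a : Fin 3, a ≠ x1 ∧ a ≠ x2 := by decide
  obtain ⟨a, ha1, ha2⟩ := hthird x1 x2
  have hz : w2 * z1.count a + w1 * z2.count a = 0 := by
    rw [hA0 a ha1, hB0 a ha2, Nat.mul_zero, Nat.mul_zero]
  have hall : w2 * z1.count 0 = 0 ∧ w2 * z1.count 1 = 0 ∧ w2 * z1.count 2 = 0 := by
    have ha : a = 0 ∨ a = 1 ∨ a = 2 := by
      clear hz ha1 ha2
      revert a
      decide
    rcases ha with rfl | rfl | rfl <;> omega
  have hcz : z1.count 0 = 0 ∧ z1.count 1 = 0 ∧ z1.count 2 = 0 := by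
    refine ⟨?_, ?_, ?_⟩
    · rcases Nat.mul_eq_zero.1 hall.1 with h | h <;> omega
    · rcases Nat.mul_eq_zero.1 hall.2.1 with h | h <;> omega
    · rcases Nat.mul_eq_zero.1 hall.2.2 with h | h <;> omega
  rw [hcount, hcount, hcount, hcz.1, hcz.2.1, hcz.2.2] at E1
  apply hu2
  simp only [List.count_append, hcz.1, hcz.2.1, hcz.2.2]
  omega

end Pool.Agent.V11259.Rat
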