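import Pool.Agent.V11259.RatB

/-!
# `{a^i b^j c^k : i, j, k not all equal}` is a transduction of `{a^m b^n : m ≠ n}` and not regular
-/

namespace Pool.Agent.V11259.Rat

theorem run_both {X Y : Type} {t : Transducer X Y} {q : t.Q} {x : X} {y : Y}
    (h : t.tr q (some x) (some y) q) : ∀ n, Run t q (List.replicate n x) (List.replicate n y) q := by
  intro n
  induction n with
  | zero => exact Run.nil q
  | succ n ih => exact Run.cons (x := some x) (y := some y) h ih

theorem run_out {X Y : Type} {t : Transducer X Y} {q : t.Q} {y : Y}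
    (h : t.tr q none (some y) q) : ∀ n, Run t q [] (List.replicate n y) q := by
  intro n
  induction n with
  | zero => exact Run.nil q
  | succ n ih => exact Run.cons (x := none) (y := some y) h ih

theorem run_eps {X Y : Type} {t : Transducer X Y} {q q1 q2 : t.Q} {u : List X} {v : List Y}
    (h : t.tr q none none q1) (h' : Run t q1 u v q2) : Run t q u v q2 :=
  Run.cons (x := none) (y := none) h h'

theorem form_mem (i j k : ℕ) :
    List.replicate i (0 : Fin 3) ++ (List.replicate j 1 ++ List.replicate k 2) ∈ L3 ↔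
      ¬ (i = j ∧ j = k) := by
  have hs : (List.replicate i (0 : Fin 3) ++
      (List.replicate j 1 ++ List.replicate k 2)).Pairwise (· ≤ ·) := by
    rw [List.pairwise_append, List.pairwise_append]
    refine ⟨?_, ⟨?_, ?_, ?_⟩, ?_⟩
    · exact List.pairwise_replicate.2 (Or.inr le_rfl)
    · exact List.pairwise_replicate.2 (Or.inr le_rfl)
    · exact List.pairwise_replicate.2 (Or.inr le_rfl)
    · intro a ha b hb
      rw [(List.mem_replicate.1 ha).2, (List.mem_replicate.1 hb).2]
      decide
    · intro a ha b hb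
      rw [(List.mem_replicate.1 ha).2]
      exact Fin.zero_le b
  have h0 : (List.replicate i (0 : Fin 3) ++
      (List.replicate j 1 ++ List.replicate k 2)).count 0 = i := by
    simp [List.count_replicate]
  have h1 : (List.replicate i (0 : Fin 3) ++
      (List.replicate j 1 ++ List.replicate k 2)).count 1 = j := by
    simp [List.count_replicate]
  have h2 : (List.replicate i (0 : Fin 3) ++
      (List.replicate j 1 ++ List.replicate k 2)).count 2 = k := by
    simp [List.count_replicate]
  unfold L3
  change _ ∧ _ ↔ _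
  rw [h0, h1, h2]
  exact ⟨fun h => h.2, fun h => ⟨hs, h⟩⟩

theorem sorted_form {u : List (Fin 3)} (hu : u.Pairwise (· ≤ ·)) : ∃ i j k : ℕ,
    u = List.replicate i 0 ++ (List.replicate j 1 ++ List.replicate k 2) := by
  induction u with
  | nil => exact ⟨0, 0, 0, rfl⟩
  | cons a u ih =>
    obtain ⟨h1, h2⟩ := List.pairwise_cons.1 hu
    obtain ⟨i, j, k, rfl⟩ := ih h2
    have ha : a = 0 ∨ a = 1 ∨ a = 2 := by
      clear h1 hu
      revert a
      decide
    rcases ha with rfl | rfl | rfl
    · exact ⟨i + 1, j, k, by rw [List.replicate_succ, List.cons_append]⟩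
    · have hi : i = 0 := by
        by_contra hi
        have := h1 0 (List.mem_append_left _ (List.mem_replicate.2 ⟨hi, rfl⟩))
        exact absurd this (by decide)
      subst hi
      exact ⟨0, j + 1, k, by
        rw [List.replicate_succ, List.cons_append]; rfl⟩
    · have hi : i = 0 := by
        by_contra hi
        have := h1 0 (List.mem_append_left _ (List.mem_replicate.2 ⟨hi, rfl⟩))
        exact absurd this (by decide)
      have hj : j = 0 := by
        by_contra hj
        have := h1 1 (List.mem_append_right _ (List.mem_append_left _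
          (List.mem_replicate.2 ⟨hj, rfl⟩)))
        exact absurd this (by decide)
      subst hi hj
      exact ⟨0, 0, k + 1, by rw [List.replicate_succ]; rfl⟩

/-- states -/
inductive St | A0 | A1 | A2 | B0 | B1 | B2
  deriving DecidableEq, Fintype

open St

/-- transitions -/
inductive Tr : St → Option (Fin 2) → Option (Fin 3) → St → Prop
  | a0 : Tr A0 (some 0) (some 0) A0
  | a01 : Tr A0 none none A1
  | a1 : Tr A1 (some 1) (some 1) A1
  | a12 : Tr A1 none none A2
  | a2 : Tr A2 none (some 2) A2
  | b0 : Tr B0 none (some 0) B0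
  | b01 : Tr B0 none none B1
  | b1 : Tr B1 (some 0) (some 1) B1
  | b12 : Tr B1 none none B2
  | b2 : Tr B2 (some 1) (some 2) B2

/-- the transducer -/
def U : Transducer (Fin 2) (Fin 3) where
  Q := St
  fin := inferInstance
  tr := Tr
  start := {q | q = A0 ∨ q = B0}
  final := {q | q = A2 ∨ q = B2}

/-- what is read and written -/
def Inv (u : List (Fin 2)) (v : List (Fin 3)) : St → Prop
  | A0 => ∃ m n k, u = List.replicate m 0 ++ List.replicate n 1 ∧
      v = List.replicate m 0 ++ (List.replicate n 1 ++ List.replicate k 2)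
  | A1 => ∃ n k, u = List.replicate n 1 ∧ v = List.replicate n 1 ++ List.replicate k 2
  | A2 => ∃ k, u = [] ∧ v = List.replicate k 2
  | B0 => ∃ i m n, u = List.replicate m 0 ++ List.replicate n 1 ∧
      v = List.replicate i 0 ++ (List.replicate m 1 ++ List.replicate n 2)
  | B1 => ∃ m n, u = List.replicate m 0 ++ List.replicate n 1 ∧
      v = List.replicate m 1 ++ List.replicate n 2
  | B2 => ∃ n, u = List.replicate n 1 ∧ v = List.replicate n 2

theorem inv {q q' : U.Q} {u : List (Fin 2)} {v : List (Fin 3)} (h : Run U q u v q') :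
    q' ∈ U.final → Inv u v q := by
  induction h with
  | nil q =>
    rintro (rfl | rfl)
    · exact ⟨0, rfl, rfl⟩
    · exact ⟨0, rfl, rfl⟩
  | cons hs _ ih =>
    intro hq
    have ih' := ih hq
    cases hs with
    | a0 =>
      obtain ⟨m, n, k, rfl, rfl⟩ := ih'
      exact ⟨m + 1, n, k, rfl, rfl⟩
    | a01 =>
      obtain ⟨n, k, rfl, rfl⟩ := ih'
      exact ⟨0, n, k, rfl, rfl⟩
    | a1 =>
      obtain ⟨n, k, rfl, rfl⟩ := ih'
      exact ⟨n + 1, k, rfl, rfl⟩
    | a12 =>
      obtain ⟨k, rfl, rfl⟩ := ih'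
      exact ⟨0, k, rfl, rfl⟩
    | a2 =>
      obtain ⟨k, rfl, rfl⟩ := ih'
      exact ⟨k + 1, rfl, rfl⟩
    | b0 =>
      obtain ⟨i, m, n, rfl, rfl⟩ := ih'
      exact ⟨i + 1, m, n, rfl, rfl⟩
    | b01 =>
      obtain ⟨m, n, rfl, rfl⟩ := ih'
      exact ⟨0, m, n, rfl, rfl⟩
    | b1 =>
      obtain ⟨m, n, rfl, rfl⟩ := ih'
      exact ⟨m + 1, n, rfl, rfl⟩
    | b12 =>
      obtain ⟨n, rfl, rfl⟩ := ih'
      exact ⟨0, n, rfl, rfl⟩
    | b2 =>
      obtain ⟨n, rfl, rfl⟩ := ih'
      exact ⟨n + 1, rfl, rfl⟩

theorem image_U : image U sNe = L3 := by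
  ext v
  constructor
  · rintro ⟨u, hu, q, hq, q', hq', hr⟩
    have h := inv hr hq'
    rcases hq with rfl | rfl
    · obtain ⟨m, n, k, rfl, rfl⟩ := h
      rw [form_mem]
      rintro ⟨rfl, -⟩
      exact not_sNe _ hu
    · obtain ⟨i, m, n, rfl, rfl⟩ := h
      rw [form_mem]
      rintro ⟨-, rfl⟩
      exact not_sNe _ hu
  · intro hv
    obtain ⟨i, j, k, rfl⟩ := sorted_form hv.1
    rw [form_mem] at hv
    by_cases hij : i = j
    · have hjk : j ≠ k := fun h => hv ⟨hij, h⟩
      refine ⟨List.replicate j 0 ++ List.replicate k 1, ⟨j, k, hjk.symm, rfl⟩, B0, Or.inr rfl, B2,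
        Or.inr rfl, ?_⟩
      have h1 : Run U B0 [] (List.replicate i 0) B0 := run_out (t := U) Tr.b0 i
      have h2 : Run U B1 (List.replicate j 0) (List.replicate j 1) B1 := run_both (t := U) Tr.b1 j
      have h3 : Run U B2 (List.replicate k 1) (List.replicate k 2) B2 := run_both (t := U) Tr.b2 k
      have h4 : Run U B1 (List.replicate k 1) (List.replicate k 2) B2 :=
        run_eps (t := U) Tr.b12 h3
      have h5 := Run.trans h2 h4
      have h6 : Run U B0 _ _ B2 := run_eps (t := U) (q := B0) Tr.b01 h5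
      have h7 := Run.trans h1 h6
      rwa [List.nil_append] at h7
    · refine ⟨List.replicate i 0 ++ List.replicate j 1, ⟨i, j, fun h => hij h.symm, rfl⟩, A0,
        Or.inl rfl, A2, Or.inl rfl, ?_⟩
      have h1 : Run U A0 (List.replicate i 0) (List.replicate i 0) A0 :=
        run_both (t := U) Tr.a0 i
      have h2 : Run U A1 (List.replicate j 1) (List.replicate j 1) A1 := run_both (t := U) Tr.a1 j
      have h3 : Run U A2 [] (List.replicate k 2) A2 := run_out (t := U) Tr.a2 k
      have h4 : Run U A1 [] (List.replicate k 2) A2 := run_eps (t := U) Tr.a12 h3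
      have h5 := Run.trans h2 h4
      have h6 : Run U A0 _ _ A2 := run_eps (t := U) (q := A0) Tr.a01 h5
      have h7 := Run.trans h1 h6
      rwa [List.append_nil] at h7

theorem not_regular {σ : Type} [Fintype σ] (M : DFA (Fin 3) σ)
    (hM : ∀ w, w ∈ L3 ↔ M.eval w ∈ M.accept) : False := by
  obtain ⟨m, n, hne, heq⟩ := Finite.exists_ne_map_eq_of_infinite
    (fun n : ℕ => M.eval (List.replicate n (0 : Fin 3)))
  have h1 : M.eval (List.replicate n (0 : Fin 3) ++ (List.replicate n 1 ++ List.replicate n 2)) =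
      M.eval (List.replicate m (0 : Fin 3) ++ (List.replicate n 1 ++ List.replicate n 2)) := by
    have e : ∀ x w : List (Fin 3), M.eval (x ++ w) = M.evalFrom (M.eval x) w := fun x w =>
      M.evalFrom_of_append M.start x w
    have heq' : M.eval (List.replicate m (0 : Fin 3)) = M.eval (List.replicate n (0 : Fin 3)) :=
      heq
    rw [e, e, heq']
  have h2 := (form_mem m n n).2 (fun h => hne h.1)
  have h3 : ¬ (_ ∈ L3) := fun h => (form_mem n n n).1 h ⟨rfl, rfl⟩
  rw [hM] at h2 h3
  rw [h1] at h3
  exact h3 h2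

end Pool.Agent.V11259.Rat
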