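import Pool.Agent.V11259.RatC

/-!
# The analogous facts for `{a^m b^n : n ≤ m}` and `{a^m b^n : n ≥ m}`
-/

namespace Pool.Agent.V11259.Rat

/-- the words `0^m 1^n` with `R m n` -/
def sR (R : ℕ → ℕ → Prop) : Set (List (Fin 2)) :=
  {v | ∃ m n : ℕ, R m n ∧ v = List.replicate m 0 ++ List.replicate n 1}

/-- the words `0^i 1^j 2^k` with `P i j k` -/
def Kp (P : ℕ → ℕ → ℕ → Prop) : Set (List (Fin 3)) :=
  {u | u.Pairwise (· ≤ ·) ∧ P (u.count 0) (u.count 1) (u.count 2)}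

theorem sR_mem {R : ℕ → ℕ → Prop} {m n : ℕ} :
    List.replicate m (0 : Fin 2) ++ List.replicate n 1 ∈ sR R ↔ R m n := by
  constructor
  · rintro ⟨a, b, hab, h⟩
    have h0 := congrArg (List.count 0) h
    have h1 := congrArg (List.count 1) h
    simp [List.count_replicate] at h0 h1
    subst h0 h1
    exact hab
  · intro h
    exact ⟨m, n, h, rfl⟩

theorem Kp_mem {P : ℕ → ℕ → ℕ → Prop} {i j k : ℕ} :
    List.replicate i (0 : Fin 3) ++ (List.replicate j 1 ++ List.replicate k 2) ∈ Kp P ↔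
      P i j k := by
  have hs : (List.replicate i (0 : Fin 3) ++
      (List.replicate j 1 ++ List.replicate k 2)).Pairwise (· ≤ ·) := by
    rw [List.pairwise_append, List.pairwise_append]
    refine ⟨?_, ⟨?_, ?_, ?_⟩, ?_⟩
    · exact List.pairwise_replicate.2 (Or.inr le_rfl)
    · exact List.pairwise_replicate.2 (Or.inr le_rfl)
    · exact List.pairwise_replicate.2 (Or.inr le_rfl)
    · intro a ha b hb
      rw [(List.mem_replicate.1 ha).2, (List.mem_replicate.1 hb).2]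
      decide
    · intro a ha b hb
      rw [(List.mem_replicate.1 ha).2]
      exact Fin.zero_le b
  have h0 : (List.replicate i (0 : Fin 3) ++
      (List.replicate j 1 ++ List.replicate k 2)).count 0 = i := by
    simp [List.count_replicate]
  have h1 : (List.replicate i (0 : Fin 3) ++
      (List.replicate j 1 ++ List.replicate k 2)).count 1 = j := by
    simp [List.count_replicate]
  have h2 : (List.replicate i (0 : Fin 3) ++
      (List.replicate j 1 ++ List.replicate k 2)).count 2 = k := by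
    simp [List.count_replicate]
  unfold Kp
  change _ ∧ _ ↔ _
  rw [h0, h1, h2]
  exact ⟨fun h => h.2, fun h => ⟨hs, h⟩⟩

/-- pumping data -/
theorem pump_data {t : Transducer (Fin 3) (Fin 2)} {L : Set (List (Fin 3))}
    (hL : ∀ u ∈ L, u.Pairwise (· ≤ ·)) {N M M' : ℕ}
    (hN : N = 3 * @Fintype.card t.Q t.fin) (hM : N ≤ M) (hM' : N ≤ M')
    (hv : List.replicate M (0 : Fin 2) ++ List.replicate M' 1 ∈ image t L) :
    ∃ (b x y : Fin 3 → ℕ) (xa xb : Fin 3) (nA nB w1 w2 : ℕ), (∀ a, a ≠ xa → x a = 0) ∧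
      (∀ a, a ≠ xb → y a = 0) ∧ 1 ≤ w1 ∧ 1 ≤ w2 ∧ M = nA + w1 ∧ M' = nB + w2 ∧
      ∀ k1 k2 : ℕ, ∃ u : List (Fin 3), u.Pairwise (· ≤ ·) ∧
        (∀ a, u.count a = b a + k1 * x a + k2 * y a) ∧
        (u ∈ L → List.replicate (nA + k1 * w1) (0 : Fin 2) ++ List.replicate (nB + k2 * w2) 1 ∈
          image t L) ∧ (k1 = 1 → k2 = 1 → u ∈ L) := by
  classical
  obtain ⟨u, hu, q, hq, q', hq', hrun⟩ := hv
  have hu1 := hL u hu
  obtain ⟨p, uA, uB, rfl, hA, hB⟩ := hrun.cut _ _ rfl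
  have hsA := (List.pairwise_append.1 hu1).1
  have hsB := (List.pairwise_append.1 hu1).2.1
  obtain ⟨pa, u1, z1, u2, x1, n1, w1, n2, rfl, hz1, hn1, hw1, hw1N, ra1, ra2, ra3⟩ :=
    loop hN hM hsA hA
  obtain ⟨pb, u3, z2, u4, x2, n3, w2, n4, rfl, hz2, hn2, hw2, -, rb1, rb2, rb3⟩ :=
    loop hN hM' hsB hB
  refine ⟨fun a => u1.count a + u2.count a + u3.count a + u4.count a, fun a => z1.count a,
    fun a => z2.count a, x1, x2, n1 + n2, n3 + n4, w1, w2,
    fun a ha => List.count_eq_zero.2 fun h => ha (hz1 a h),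
    fun a ha => List.count_eq_zero.2 fun h => ha (hz2 a h), hw1, hw2, by omega, by omega, ?_⟩
  intro k1 k2
  refine ⟨(u1 ++ (rp k1 z1 ++ u2)) ++ (u3 ++ (rp k2 z2 ++ u4)), ?_, ?_, ?_, ?_⟩
  · have e1 : (u1 ++ (z1 ++ (u2 ++ (u3 ++ (z2 ++ u4))))).Pairwise (· ≤ ·) := by
      simpa only [List.append_assoc] using hu1
    have e2 := pairwise_rp hz1 e1 k1
    have e3 : ((u1 ++ (rp k1 z1 ++ (u2 ++ u3))) ++ (z2 ++ u4)).Pairwise (· ≤ ·) := by
      simpa only [List.append_assoc] using e2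
    have e4 := pairwise_rp hz2 e3 k2
    simpa only [List.append_assoc] using e4
  · intro a
    simp only [List.count_append, count_rp]
    ring
  · intro hin
    have f1 : Run t q (u1 ++ (rp k1 z1 ++ u2)) (List.replicate (n1 + (k1 * w1 + n2)) 0) p := by
      rw [List.replicate_add, List.replicate_add]
      exact Run.trans ra1 (Run.trans (run_rp ra2 k1) ra3)
    have f2 : Run t p (u3 ++ (rp k2 z2 ++ u4)) (List.replicate (n3 + (k2 * w2 + n4)) 1) q' := by
      rw [List.replicate_add, List.replicate_add]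
      exact Run.trans rb1 (Run.trans (run_rp rb2 k2) rb3)
    have e1 : n1 + n2 + k1 * w1 = n1 + (k1 * w1 + n2) := by ring
    have e2 : n3 + n4 + k2 * w2 = n3 + (k2 * w2 + n4) := by ring
    rw [e1, e2]
    exact ⟨_, hin, q, hq, q', hq', Run.trans f1 f2⟩
  · rintro rfl rfl
    have e : ∀ z : List (Fin 3), rp 1 z = z := fun z => by
      rw [rp_succ]; exact List.append_nil z
    rw [e, e]
    exact hu

theorem core_lt (t : Transducer (Fin 3) (Fin 2))
    (ht : image t (Kp fun i j k => j ≤ i ∨ k ≤ i) = sR fun m n => n ≤ m) : False := by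
  obtain ⟨N, hN⟩ : ∃ N, N = 3 * @Fintype.card t.Q t.fin := ⟨_, rfl⟩
  have hv : List.replicate N (0 : Fin 2) ++ List.replicate N 1 ∈
      image t (Kp fun i j k => j ≤ i ∨ k ≤ i) := by
    rw [ht, sR_mem]
  obtain ⟨b, x, y, xa, xb, nA, nB, w1, w2, hx, hy, hw1, hw2, hA, hB, hp⟩ :=
    pump_data (fun u hu => hu.1) hN le_rfl le_rfl hv
  have key : ∀ k1 k2 : ℕ, nA + k1 * w1 < nB + k2 * w2 →
      ¬ (b 1 + k1 * x 1 + k2 * y 1 ≤ b 0 + k1 * x 0 + k2 * y 0 ∨
        b 2 + k1 * x 2 + k2 * y 2 ≤ b 0 + k1 * x 0 + k2 * y 0) := by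
    intro k1 k2 hk hcon
    obtain ⟨u, hs, hc, hi, -⟩ := hp k1 k2
    have hin : u ∈ Kp fun i j k => j ≤ i ∨ k ≤ i := by
      refine ⟨hs, ?_⟩
      rw [hc, hc, hc]
      exact hcon
    have := hi hin
    rw [ht, sR_mem] at this
    omega
  have k01 := key 0 1 (by omega)
  obtain ⟨u, hs, hc, -, hin⟩ := hp 1 1
  have horig := (hin rfl rfl).2
  rw [hc, hc, hc] at horig
  have hx0 : 1 ≤ x 0 := by
    by_contra h
    apply k01
    simp only [Nat.one_mul, Nat.zero_mul] at horig ⊢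
    rcases horig with h1 | h1
    · left; omega
    · right; omega
  have hxa : xa = 0 := by
    by_contra h
    have := hx 0 (fun h' => h h'.symm)
    omega
  have hx1 : x 1 = 0 := hx 1 (by rw [hxa]; decide)
  have hx2 : x 2 = 0 := hx 2 (by rw [hxa]; decide)
  have hlast := key (b 1 + b 2) (nA + (b 1 + b 2) * w1 + 1) (by
    have h9 := Nat.le_mul_of_pos_right (nA + (b 1 + b 2) * w1 + 1) hw2
    omega)
  apply hlast
  have h8 := Nat.le_mul_of_pos_right (b 1 + b 2) hx0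
  rw [hx1, hx2]
  by_cases h1 : xb = 1
  · right
    rw [hy 2 (by rw [h1]; decide), Nat.mul_zero, Nat.mul_zero]
    omega
  · left
    rw [hy 1 (fun h => h1 h.symm), Nat.mul_zero, Nat.mul_zero]
    omega

theorem core_gt (t : Transducer (Fin 3) (Fin 2))
    (ht : image t (Kp fun i j k => j ≤ k ∨ i ≤ k) = sR fun m n => m ≤ n) : False := by
  obtain ⟨N, hN⟩ : ∃ N, N = 3 * @Fintype.card t.Q t.fin := ⟨_, rfl⟩
  have hv : List.replicate N (0 : Fin 2) ++ List.replicate N 1 ∈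
      image t (Kp fun i j k => j ≤ k ∨ i ≤ k) := by
    rw [ht, sR_mem]
  obtain ⟨b, x, y, xa, xb, nA, nB, w1, w2, hx, hy, hw1, hw2, hA, hB, hp⟩ :=
    pump_data (fun u hu => hu.1) hN le_rfl le_rfl hv
  have key : ∀ k1 k2 : ℕ, nB + k2 * w2 < nA + k1 * w1 →
      ¬ (b 1 + k1 * x 1 + k2 * y 1 ≤ b 2 + k1 * x 2 + k2 * y 2 ∨
        b 0 + k1 * x 0 + k2 * y 0 ≤ b 2 + k1 * x 2 + k2 * y 2) := by
    intro k1 k2 hk hcon
    obtain ⟨u, hs, hc, hi, -⟩ := hp k1 k2
    have hin : u ∈ Kp fun i j k => j ≤ k ∨ i ≤ k := by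
      refine ⟨hs, ?_⟩
      rw [hc, hc, hc]
      exact hcon
    have := hi hin
    rw [ht, sR_mem] at this
    omega
  have k10 := key 1 0 (by omega)
  obtain ⟨u, hs, hc, -, hin⟩ := hp 1 1
  have horig := (hin rfl rfl).2
  rw [hc, hc, hc] at horig
  have hy2 : 1 ≤ y 2 := by
    by_contra h
    apply k10
    simp only [Nat.one_mul, Nat.zero_mul] at horig ⊢
    rcases horig with h1 | h1
    · left; omega
    · right; omega
  have hxb : xb = 2 := by
    by_contra h
    have := hy 2 (fun h' => h h'.symm)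
    omega
  have hy0 : y 0 = 0 := hy 0 (by rw [hxb]; decide)
  have hy1 : y 1 = 0 := hy 1 (by rw [hxb]; decide)
  have hlast := key (nB + (b 0 + b 1) * w2 + 1) (b 0 + b 1) (by
    have h9 := Nat.le_mul_of_pos_right (nB + (b 0 + b 1) * w2 + 1) hw1
    omega)
  apply hlast
  have h8 := Nat.le_mul_of_pos_right (b 0 + b 1) hy2
  rw [hy0, hy1]
  by_cases h1 : xa = 1
  · right
    rw [hx 0 (by rw [h1]; decide), Nat.mul_zero, Nat.mul_zero]
    omega
  · left
    rw [hx 1 (fun h => h1 h.symm), Nat.mul_zero, Nat.mul_zero]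
    omega

end Pool.Agent.V11259.Rat
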