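import Pool.Agent.V11259.RatD

/-!
# Transducers from `{a^m b^n : n ≤ m}` and `{a^m b^n : n ≥ m}`, and non-regularity
-/

namespace Pool.Agent.V11259.Rat

/-- states -/
inductive S9 | A0 | A1 | A2 | B0 | B1 | B2 | C0 | C1 | C2
  deriving DecidableEq, Fintype

open S9

/-- transitions -/
inductive T9 : S9 → Option (Fin 2) → Option (Fin 3) → S9 → Prop
  | a0 : T9 A0 (some 0) (some 0) A0
  | a01 : T9 A0 none none A1
  | a1 : T9 A1 (some 1) (some 1) A1
  | a12 : T9 A1 none none A2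
  | a2 : T9 A2 none (some 2) A2
  | b0 : T9 B0 none (some 0) B0
  | b01 : T9 B0 none none B1
  | b1 : T9 B1 (some 0) (some 1) B1
  | b12 : T9 B1 none none B2
  | b2 : T9 B2 (some 1) (some 2) B2
  | c0 : T9 C0 (some 0) (some 0) C0
  | c01 : T9 C0 none none C1
  | c1 : T9 C1 none (some 1) C1
  | c12 : T9 C1 none none C2
  | c2 : T9 C2 (some 1) (some 2) C2

/-- the transducer with start states `S` -/
def U9 (S : Set S9) : Transducer (Fin 2) (Fin 3) where
  Q := S9
  fin := inferInstance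
  tr := T9
  start := S
  final := {q | q = A2 ∨ q = B2 ∨ q = C2}

/-- what is read and written -/
def Inv9 (u : List (Fin 2)) (v : List (Fin 3)) : S9 → Prop
  | A0 => ∃ m n k, u = List.replicate m 0 ++ List.replicate n 1 ∧
      v = List.replicate m 0 ++ (List.replicate n 1 ++ List.replicate k 2)
  | A1 => ∃ n k, u = List.replicate n 1 ∧ v = List.replicate n 1 ++ List.replicate k 2
  | A2 => ∃ k, u = [] ∧ v = List.replicate k 2
  | B0 => ∃ i m n, u = List.replicate m 0 ++ List.replicate n 1 ∧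
      v = List.replicate i 0 ++ (List.replicate m 1 ++ List.replicate n 2)
  | B1 => ∃ m n, u = List.replicate m 0 ++ List.replicate n 1 ∧
      v = List.replicate m 1 ++ List.replicate n 2
  | B2 => ∃ n, u = List.replicate n 1 ∧ v = List.replicate n 2
  | C0 => ∃ m j n, u = List.replicate m 0 ++ List.replicate n 1 ∧
      v = List.replicate m 0 ++ (List.replicate j 1 ++ List.replicate n 2)
  | C1 => ∃ j n, u = List.replicate n 1 ∧ v = List.replicate j 1 ++ List.replicate n 2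
  | C2 => ∃ n, u = List.replicate n 1 ∧ v = List.replicate n 2

theorem inv9 {S : Set S9} {q q' : (U9 S).Q} {u : List (Fin 2)} {v : List (Fin 3)}
    (h : Run (U9 S) q u v q') : q' ∈ (U9 S).final → Inv9 u v q := by
  induction h with
  | nil q =>
    rintro (rfl | rfl | rfl)
    · exact ⟨0, rfl, rfl⟩
    · exact ⟨0, rfl, rfl⟩
    · exact ⟨0, rfl, rfl⟩
  | cons hs _ ih =>
    intro hq
    have ih' := ih hq
    cases hs with
    | a0 =>
      obtain ⟨m, n, k, rfl, rfl⟩ := ih'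
      exact ⟨m + 1, n, k, rfl, rfl⟩
    | a01 =>
      obtain ⟨n, k, rfl, rfl⟩ := ih'
      exact ⟨0, n, k, rfl, rfl⟩
    | a1 =>
      obtain ⟨n, k, rfl, rfl⟩ := ih'
      exact ⟨n + 1, k, rfl, rfl⟩
    | a12 =>
      obtain ⟨k, rfl, rfl⟩ := ih'
      exact ⟨0, k, rfl, rfl⟩
    | a2 =>
      obtain ⟨k, rfl, rfl⟩ := ih'
      exact ⟨k + 1, rfl, rfl⟩
    | b0 =>
      obtain ⟨i, m, n, rfl, rfl⟩ := ih'
      exact ⟨i + 1, m, n, rfl, rfl⟩
    | b01 =>
      obtain ⟨m, n, rfl, rfl⟩ := ih'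
      exact ⟨0, m, n, rfl, rfl⟩
    | b1 =>
      obtain ⟨m, n, rfl, rfl⟩ := ih'
      exact ⟨m + 1, n, rfl, rfl⟩
    | b12 =>
      obtain ⟨n, rfl, rfl⟩ := ih'
      exact ⟨0, n, rfl, rfl⟩
    | b2 =>
      obtain ⟨n, rfl, rfl⟩ := ih'
      exact ⟨n + 1, rfl, rfl⟩
    | c0 =>
      obtain ⟨m, j, n, rfl, rfl⟩ := ih'
      exact ⟨m + 1, j, n, rfl, rfl⟩
    | c01 =>
      obtain ⟨j, n, rfl, rfl⟩ := ih'
      exact ⟨0, j, n, rfl, rfl⟩
    | c1 =>
      obtain ⟨j, n, rfl, rfl⟩ := ih'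
      exact ⟨j + 1, n, rfl, rfl⟩
    | c12 =>
      obtain ⟨n, rfl, rfl⟩ := ih'
      exact ⟨0, n, rfl, rfl⟩
    | c2 =>
      obtain ⟨n, rfl, rfl⟩ := ih'
      exact ⟨n + 1, rfl, rfl⟩

theorem runA (S : Set S9) (i j k : ℕ) : Run (U9 S) A0 (List.replicate i 0 ++ List.replicate j 1)
    (List.replicate i 0 ++ (List.replicate j 1 ++ List.replicate k 2)) A2 := by
  have h1 : Run (U9 S) A0 (List.replicate i 0) (List.replicate i 0) A0 :=
    run_both (t := U9 S) T9.a0 i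
  have h2 : Run (U9 S) A1 (List.replicate j 1) (List.replicate j 1) A1 :=
    run_both (t := U9 S) T9.a1 j
  have h3 : Run (U9 S) A2 [] (List.replicate k 2) A2 := run_out (t := U9 S) T9.a2 k
  have h4 : Run (U9 S) A1 [] (List.replicate k 2) A2 := run_eps (t := U9 S) T9.a12 h3
  have h5 := Run.trans h2 h4
  have h6 : Run (U9 S) A0 _ _ A2 := run_eps (t := U9 S) (q := A0) T9.a01 h5
  have h7 := Run.trans h1 h6
  rwa [List.append_nil] at h7

theorem runB (S : Set S9) (i j k : ℕ) : Run (U9 S) B0 (List.replicate j 0 ++ List.replicate k 1)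
    (List.replicate i 0 ++ (List.replicate j 1 ++ List.replicate k 2)) B2 := by
  have h1 : Run (U9 S) B0 [] (List.replicate i 0) B0 := run_out (t := U9 S) T9.b0 i
  have h2 : Run (U9 S) B1 (List.replicate j 0) (List.replicate j 1) B1 :=
    run_both (t := U9 S) T9.b1 j
  have h3 : Run (U9 S) B2 (List.replicate k 1) (List.replicate k 2) B2 :=
    run_both (t := U9 S) T9.b2 k
  have h4 : Run (U9 S) B1 (List.replicate k 1) (List.replicate k 2) B2 :=
    run_eps (t := U9 S) T9.b12 h3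
  have h5 := Run.trans h2 h4
  have h6 : Run (U9 S) B0 _ _ B2 := run_eps (t := U9 S) (q := B0) T9.b01 h5
  have h7 := Run.trans h1 h6
  rwa [List.nil_append] at h7

theorem runC (S : Set S9) (i j k : ℕ) : Run (U9 S) C0 (List.replicate i 0 ++ List.replicate k 1)
    (List.replicate i 0 ++ (List.replicate j 1 ++ List.replicate k 2)) C2 := by
  have h1 : Run (U9 S) C0 (List.replicate i 0) (List.replicate i 0) C0 :=
    run_both (t := U9 S) T9.c0 i
  have h2 : Run (U9 S) C1 [] (List.replicate j 1) C1 := run_out (t := U9 S) T9.c1 j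
  have h3 : Run (U9 S) C2 (List.replicate k 1) (List.replicate k 2) C2 :=
    run_both (t := U9 S) T9.c2 k
  have h4 : Run (U9 S) C1 (List.replicate k 1) (List.replicate k 2) C2 :=
    run_eps (t := U9 S) T9.c12 h3
  have h5 := Run.trans h2 h4
  rw [List.nil_append] at h5
  have h6 : Run (U9 S) C0 _ _ C2 := run_eps (t := U9 S) (q := C0) T9.c01 h5
  exact Run.trans h1 h6

theorem image_U9 (R : ℕ → ℕ → Prop) (S : Set S9) (hS : ∀ q ∈ S, q = A0 ∨ q = B0 ∨ q = C0) :
    image (U9 S) (sR R) =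
      Kp fun i j k => (A0 ∈ S ∧ R i j) ∨ (B0 ∈ S ∧ R j k) ∨ (C0 ∈ S ∧ R i k) := by
  ext v
  constructor
  · rintro ⟨u, hu, q, hq, q', hq', hr⟩
    have h := inv9 hr hq'
    rcases hS q hq with rfl | rfl | rfl
    · obtain ⟨m, n, k, rfl, rfl⟩ := h
      rw [Kp_mem]
      exact Or.inl ⟨hq, sR_mem.1 hu⟩
    · obtain ⟨i, m, n, rfl, rfl⟩ := h
      rw [Kp_mem]
      exact Or.inr (Or.inl ⟨hq, sR_mem.1 hu⟩)
    · obtain ⟨m, j, n, rfl, rfl⟩ := h
      rw [Kp_mem]
      exact Or.inr (Or.inr ⟨hq, sR_mem.1 hu⟩)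
  · intro hv
    obtain ⟨i, j, k, rfl⟩ := sorted_form hv.1
    rw [Kp_mem] at hv
    rcases hv with ⟨hq, h⟩ | ⟨hq, h⟩ | ⟨hq, h⟩
    · exact ⟨_, sR_mem.2 h, A0, hq, A2, Or.inl rfl, runA S i j k⟩
    · exact ⟨_, sR_mem.2 h, B0, hq, B2, Or.inr (Or.inl rfl), runB S i j k⟩
    · exact ⟨_, sR_mem.2 h, C0, hq, C2, Or.inr (Or.inr rfl), runC S i j k⟩

theorem image_lt : image (U9 {A0, C0}) (sR fun m n => n ≤ m) =
    Kp fun i j k => j ≤ i ∨ k ≤ i := by
  rw [image_U9]
  · congr 1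
    funext i j k
    simp
  · rintro q (rfl | rfl)
    · exact Or.inl rfl
    · exact Or.inr (Or.inr rfl)

theorem image_gt : image (U9 {B0, C0}) (sR fun m n => m ≤ n) =
    Kp fun i j k => j ≤ k ∨ i ≤ k := by
  rw [image_U9]
  · congr 1
    funext i j k
    simp
  · rintro q (rfl | rfl)
    · exact Or.inr (Or.inl rfl)
    · exact Or.inr (Or.inr rfl)

theorem notreg_of {L : Set (List (Fin 3))} (f : ℕ → List (Fin 3))
    (hsep : ∀ m n, m < n → ∃ w, ¬ (f m ++ w ∈ L ↔ f n ++ w ∈ L)) {σ : Type} [Fintype σ]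
    (M : DFA (Fin 3) σ) (hM : ∀ w, w ∈ L ↔ M.eval w ∈ M.accept) : False := by
  obtain ⟨m, n, hne, heq⟩ := Finite.exists_ne_map_eq_of_infinite (fun n : ℕ => M.eval (f n))
  have e : ∀ x w : List (Fin 3), M.eval (x ++ w) = M.evalFrom (M.eval x) w := fun x w =>
    M.evalFrom_of_append M.start x w
  have heq' : M.eval (f m) = M.eval (f n) := heq
  rcases lt_or_gt_of_ne hne with h | h
  · obtain ⟨w, hw⟩ := hsep m n h
    apply hw
    rw [hM, hM, e, e, heq']
  · obtain ⟨w, hw⟩ := hsep n m h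
    apply hw
    rw [hM, hM, e, e, heq']

theorem not_regular_lt {σ : Type} [Fintype σ] (M : DFA (Fin 3) σ)
    (hM : ∀ w, w ∈ (Kp fun i j k => j ≤ i ∨ k ≤ i) ↔ M.eval w ∈ M.accept) : False := by
  refine notreg_of (fun n => List.replicate n 0) (fun m n hmn => ?_) M hM
  refine ⟨List.replicate n 1 ++ List.replicate n 2, ?_⟩
  rw [Kp_mem, Kp_mem]
  omega

theorem not_regular_gt {σ : Type} [Fintype σ] (M : DFA (Fin 3) σ)
    (hM : ∀ w, w ∈ (Kp fun i j k => j ≤ k ∨ i ≤ k) ↔ M.eval w ∈ M.accept) : False := by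
  refine notreg_of (fun n => List.replicate n 0 ++ List.replicate n 1) (fun m n hmn => ?_) M hM
  refine ⟨List.replicate m 2, ?_⟩
  rw [List.append_assoc, List.append_assoc, Kp_mem, Kp_mem]
  omega

end Pool.Agent.V11259.Rat
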