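import Mathlib

/-!
# Shift-eigenvectors of linear maps with bounded period
-/

namespace Pool.Agent.V11259.Sol

/-- finite support -/
def Fs {A : Type} [Zero A] (v : ℤ → A) : Prop := ∃ C : ℕ, ∀ u, v u ≠ 0 → |u| ≤ C

theorem sum_pow_comm {R : Type*} [Ring R] (p : ℕ) [Fact p.Prime] [CharP R p] {ι : Type*}
    (s : Finset ι) (f : ι → R) (h : ∀ i j, Commute (f i) (f j)) (n : ℕ) :
    (∑ i ∈ s, f i) ^ (p ^ n) = ∑ i ∈ s, f i ^ (p ^ n) := by
  classical
  induction s using Finset.induction_on with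
  | empty =>
    rw [Finset.sum_empty, Finset.sum_empty, zero_pow]
    exact pow_ne_zero _ (Fact.out : p.Prime).ne_zero
  | insert a s ha ih =>
    rw [Finset.sum_insert ha, Finset.sum_insert ha, add_pow_char_pow_of_commute, ih]
    exact Commute.sum_right _ _ _ fun j _ => h a j

section Main

variable {p : ℕ} [Fact p.Prime] {A : Type} [AddCommGroup A] [Module (ZMod p) A]

/-- the shift -/
def sh (p : ℕ) (A : Type) [AddCommGroup A] [Module (ZMod p) A] (s : ℤ) :
    Module.End (ZMod p) (ℤ → A) where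
  toFun v := fun i => v (i - s)
  map_add' _ _ := rfl
  map_smul' _ _ := rfl

theorem sh_apply (s : ℤ) (v : ℤ → A) (i : ℤ) : sh p A s v i = v (i - s) := rfl

theorem sh_mul (s t : ℤ) : sh p A s * sh p A t = sh p A (s + t) := by
  ext v i
  change v (i - s - t) = v (i - (s + t))
  congr 1; ring

theorem sh_sh (s t : ℤ) (v : ℤ → A) : sh p A s (sh p A t v) = sh p A (s + t) v := by
  rw [← sh_mul]; rfl

theorem sh_zero (v : ℤ → A) : sh p A 0 v = v := by
  funext i
  change v (i - 0) = v i
  rw [sub_zero]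

theorem sh_pow (s : ℤ) (n : ℕ) : (sh p A s) ^ n = sh p A (n * s) := by
  induction n with
  | zero =>
    ext v i
    rw [Nat.cast_zero, zero_mul, pow_zero, sh_zero]
    rfl
  | succ n ih =>
    rw [pow_succ, ih, sh_mul]
    congr 1; push_cast; ring

theorem sh_inj {s : ℤ} {v : ℤ → A} (h : sh p A s v = 0) : v = 0 := by
  have : sh p A (-s) (sh p A s v) = 0 := by rw [h, map_zero]
  rw [sh_sh, neg_add_cancel, sh_zero] at this
  exact this

theorem sh_comm (s t : ℤ) : Commute (sh p A s) (sh p A t) := by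
  rw [Commute, SemiconjBy, sh_mul, sh_mul, add_comm]

/-- monomials -/
def mon (F : Module.End (ZMod p) (ℤ → A)) (j i : ℕ) : Module.End (ZMod p) (ℤ → A) :=
  sh p A j * F ^ i

variable {F : Module.End (ZMod p) (ℤ → A)}

theorem mon_apply (j i : ℕ) (v : ℤ → A) : mon F j i v = sh p A j ((F ^ i) v) := rfl

theorem mon_comm (hF : ∀ s, Commute F (sh p A s)) (j i j' i' : ℕ) :
    Commute (mon F j i) (mon F j' i') := by
  unfold mon
  refine Commute.mul_left (Commute.mul_right (sh_comm _ _) ?_) (Commute.mul_right ?_ ?_)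
  · exact ((hF _).symm.pow_right _)
  · exact ((hF _).pow_left _)
  · exact Commute.pow_pow (Commute.refl F) _ _

theorem mon_pow (hF : ∀ s, Commute F (sh p A s)) (j i n : ℕ) :
    (mon F j i) ^ n = sh p A (n * j) * F ^ (n * i) := by
  unfold mon
  rw [Commute.mul_pow, sh_pow, ← pow_mul, Nat.mul_comm i n]
  exact (hF _).symm.pow_right _

theorem F_sh (hF : ∀ s, Commute F (sh p A s)) (n : ℕ) (s : ℤ) (v : ℤ → A) :
    (F ^ n) (sh p A s v) = sh p A s ((F ^ n) v) := by
  have := ((hF s).pow_left n).eq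
  exact congrArg (fun E : Module.End (ZMod p) (ℤ → A) => E v) this

theorem F_F (a b : ℕ) (v : ℤ → A) : (F ^ a) ((F ^ b) v) = (F ^ (a + b)) v := by
  rw [pow_add]; rfl

/-- injectivity on eigenvectors -/
theorem eig_inj (hF : ∀ s, Commute F (sh p A s)) {k : ℕ} (hk : 1 ≤ k) {s : ℤ} {v : ℤ → A}
    (h : (F ^ k) v = sh p A s v) : ∀ {n : ℕ}, (F ^ n) v = 0 → v = 0 := by
  have h1 : F v = 0 → v = 0 := by
    intro h0
    apply sh_inj (p := p) (s := s)
    rw [← h]
    obtain ⟨k, rfl⟩ : ∃ k', k = k' + 1 := ⟨k - 1, by omega⟩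
    rw [pow_succ]
    change (F ^ k) (F v) = 0
    rw [h0, map_zero]
  have h2 : ∀ n, (F ^ k) ((F ^ n) v) = sh p A s ((F ^ n) v) := by
    intro n
    rw [F_F, Nat.add_comm, ← F_F, h, F_sh hF]
  intro n
  induction n with
  | zero => exact fun h => h
  | succ n ih =>
    intro h3
    apply ih
    have h4 : F ((F ^ n) v) = 0 := by
      rw [pow_succ'] at h3
      exact h3
    have h5 := h2 n
    apply sh_inj (p := p) (s := s)
    rw [← h5]
    obtain ⟨k, rfl⟩ : ∃ k', k = k' + 1 := ⟨k - 1, by omega⟩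
    rw [pow_succ]
    change (F ^ k) (F _) = 0
    rw [h4, map_zero]

theorem Fs_add {v w : ℤ → A} (hv : Fs v) (hw : Fs w) : Fs (v + w) := by
  obtain ⟨C, hC⟩ := hv
  obtain ⟨D, hD⟩ := hw
  refine ⟨C + D, fun u hu => ?_⟩
  by_cases h : v u = 0
  · have h' : w u ≠ 0 := by
      intro h'; apply hu; rw [Pi.add_apply, h, h', add_zero]
    have := hD u h'
    push_cast; omega
  · have := hC u h
    push_cast; omega

theorem Fs_smul {v : ℤ → A} (a : ZMod p) (hv : Fs v) : Fs (a • v) := by
  obtain ⟨C, hC⟩ := hv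
  refine ⟨C, fun u hu => hC u ?_⟩
  intro h; apply hu; rw [Pi.smul_apply, h, smul_zero]

theorem Fs_zero : Fs (0 : ℤ → A) := ⟨0, fun u hu => absurd rfl hu⟩

theorem Fs_sh {v : ℤ → A} (s : ℤ) (hv : Fs v) : Fs (sh p A s v) := by
  obtain ⟨C, hC⟩ := hv
  refine ⟨C + s.natAbs, fun u hu => ?_⟩
  have h1 := hC (u - s) hu
  have h2 : |u| ≤ |u - s| + |s| := by
    have := abs_add_le (u - s) s
    rwa [sub_add_cancel] at this
  push_cast
  linarith

theorem Fs_sum {ι : Type*} (s : Finset ι) (f : ι → ℤ → A) (h : ∀ i ∈ s, Fs (f i)) :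
    Fs (∑ i ∈ s, f i) := by
  classical
  induction s using Finset.induction_on with
  | empty => rw [Finset.sum_empty]; exact Fs_zero
  | insert a s ha ih =>
    rw [Finset.sum_insert ha]
    exact Fs_add (h a (Finset.mem_insert_self _ _))
      (ih fun i hi => h i (Finset.mem_insert_of_mem hi))

theorem Fs_pow {v : ℤ → A} (E : Module.End (ZMod p) (ℤ → A)) (hE : ∀ v, Fs v → Fs (E v))
    (hv : Fs v) (n : ℕ) : Fs ((E ^ n) v) := by
  induction n with
  | zero => exact hv
  | succ n ih =>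
    rw [pow_succ']
    exact hE _ ih

/-- the supports of the images stay near a line -/
theorem supp_line (hF : ∀ s, Commute F (sh p A s)) (hfin : ∀ v, Fs v → Fs (F v)) {k : ℕ}
    (hk : 1 ≤ k) {s : ℤ} {y : ℤ → A} (hy : Fs y) (h : (F ^ k) y = sh p A s y) :
    ∃ C : ℕ, ∀ i : ℕ, ∀ u : ℤ, (F ^ i) y u ≠ 0 → |(k : ℤ) * u - s * i| ≤ C := by
  choose c hc using fun i => Fs_pow F hfin hy i
  refine ⟨∑ i ∈ Finset.range k, (k * c i + s.natAbs * i), ?_⟩
  intro i
  induction i using Nat.strong_induction_on with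
  | _ i ih =>
    intro u hu
    by_cases hi : i < k
    · have h1 := hc i u hu
      have h2 : k * c i + s.natAbs * i ≤ ∑ i ∈ Finset.range k, (k * c i + s.natAbs * i) :=
        Finset.single_le_sum (f := fun i => k * c i + s.natAbs * i) (fun _ _ => Nat.zero_le _)
          (Finset.mem_range.2 hi)
      have h3 : |(k : ℤ) * u - s * i| ≤ k * c i + s.natAbs * i := by
        calc |(k : ℤ) * u - s * i| ≤ |(k : ℤ) * u| + |s * i| := abs_sub _ _
          _ = k * |u| + |s| * i := by
            rw [abs_mul, abs_mul, Nat.abs_cast, Nat.abs_cast]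
          _ ≤ k * c i + s.natAbs * i := by
            rw [Int.natCast_natAbs]
            have : (k : ℤ) * |u| ≤ k * c i := mul_le_mul_of_nonneg_left h1 (by positivity)
            linarith
      refine h3.trans ?_
      exact_mod_cast h2
    · have h1 : (F ^ i) y = sh p A s ((F ^ (i - k)) y) := by
        have : i = (i - k) + k := by omega
        conv_lhs => rw [this]
        rw [← F_F, h, F_sh hF]
      rw [h1] at hu
      have h2 := ih (i - k) (by omega) (u - s) hu
      have h3 : ((i - k : ℕ) : ℤ) = (i : ℤ) - k := by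
        rw [Nat.cast_sub (by omega)]
      rw [h3] at h2
      have h4 : (k : ℤ) * (u - s) - s * ((i : ℤ) - k) = k * u - s * i := by ring
      rwa [h4] at h2

end Main

end Pool.Agent.V11259.Sol
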