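import Pool.Agent.V11259.SolA

/-!
# The period of a shift-eigenvector can be bounded
-/

namespace Pool.Agent.V11259.Sol

section Main

variable {p : ℕ} [Fact p.Prime] {A : Type} [AddCommGroup A] [Module (ZMod p) A]
variable {F : Module.End (ZMod p) (ℤ → A)}

theorem eval_sum {ι : Type*} (s : Finset ι) (e : ι → ZMod p)
    (M : ι → Module.End (ZMod p) (ℤ → A)) (v : ℤ → A) (u : ℤ) :
    ((∑ x ∈ s, e x • M x) v) u = ∑ x ∈ s, e x • (M x v) u := by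
  rw [LinearMap.sum_apply, Finset.sum_apply]; rfl

/-- a relation, by pigeonhole -/
theorem exists_rel [Fintype A] (hfin : ∀ v, Fs v → Fs (F v)) {y : ℤ → A} (hy : Fs y) {D : ℕ}
    (hD : (Fintype.card A) ^ 2 < p ^ D) :
    ∃ (L : ℕ) (c : Fin L × Fin D → ZMod p), (∃ x, c x ≠ 0) ∧
      (∑ x : Fin L × Fin D, c x • mon F x.1 x.2) y = 0 := by
  classical
  choose cc hcc using fun i => Fs_pow F hfin hy i
  obtain ⟨C1, hC1⟩ : ∃ C1 : ℕ, ∀ i < D, ∀ u, (F ^ i) y u ≠ 0 → |u| ≤ C1 := by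
    refine ⟨∑ i ∈ Finset.range D, cc i, fun i hi u hu => (hcc i u hu).trans ?_⟩
    exact_mod_cast Finset.single_le_sum (f := cc) (fun _ _ => Nat.zero_le _)
      (Finset.mem_range.2 hi)
  have hmon : ∀ x : Fin (2 * C1 + 1) × Fin D, ∀ u, mon F x.1 x.2 y u ≠ 0 →
      -(C1 : ℤ) ≤ u ∧ u < 3 * C1 + 1 := by
    rintro ⟨j, i⟩ u hu
    have h1 := hC1 i i.2 (u - j) hu
    have h2 := abs_le.1 h1
    have h3 := j.2
    constructor <;> omega
  let Φ : (Fin (2 * C1 + 1) × Fin D → ZMod p) → (Fin (2 * (2 * C1 + 1)) → A) :=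
    fun a t => (∑ x : Fin (2 * C1 + 1) × Fin D, a x • mon F x.1 x.2) y ((t : ℤ) - C1)
  have hcard : Fintype.card (Fin (2 * (2 * C1 + 1)) → A) <
      Fintype.card (Fin (2 * C1 + 1) × Fin D → ZMod p) := by
    rw [Fintype.card_fun, Fintype.card_fun, Fintype.card_fin, Fintype.card_prod,
      Fintype.card_fin, Fintype.card_fin, ZMod.card, pow_mul, Nat.mul_comm (2 * C1 + 1) D, pow_mul]
    exact Nat.pow_lt_pow_left hD (by omega)
  obtain ⟨a, b, hab, hΦ⟩ := Fintype.exists_ne_map_eq_of_card_lt Φ hcard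
  refine ⟨2 * C1 + 1, a - b, ?_, ?_⟩
  · by_contra hcon
    push Not at hcon
    apply hab
    funext x
    exact sub_eq_zero.1 (hcon x)
  · funext u
    rw [eval_sum, Pi.zero_apply]
    by_cases hu : -(C1 : ℤ) ≤ u ∧ u < 3 * C1 + 1
    · have h1 := congrFun hΦ ⟨(u + C1).toNat, by omega⟩
      change (∑ x : Fin (2 * C1 + 1) × Fin D, a x • mon F x.1 x.2) y (((u + C1).toNat : ℤ) - C1) =
        (∑ x : Fin (2 * C1 + 1) × Fin D, b x • mon F x.1 x.2) y (((u + C1).toNat : ℤ) - C1) at h1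
      rw [eval_sum, eval_sum] at h1
      have h2 : ((u + C1).toNat : ℤ) - C1 = u := by omega
      rw [h2] at h1
      simp only [Pi.sub_apply, sub_smul, Finset.sum_sub_distrib]
      rw [h1, sub_self]
    · refine Finset.sum_eq_zero fun x _ => ?_
      have : mon F x.1 x.2 y u = 0 := by
        by_contra hne
        exact hu (hmon x u hne)
      rw [this, smul_zero]

theorem smul_mon_comm (hF : ∀ s, Commute F (sh p A s)) (c c' : ZMod p) (j i j' i' : ℕ) :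
    Commute (c • mon F j i) (c' • mon F j' i') :=
  ((mon_comm hF j i j' i').smul_left c).smul_right c'

/-- homogeneous parts of a relation are nilpotent -/
theorem hom_nilp (hF : ∀ s, Commute F (sh p A s)) (hfin : ∀ v, Fs v → Fs (F v)) {k : ℕ}
    (hk : 1 ≤ k) {s : ℤ} {y : ℤ → A} (hy : Fs y) (hy0 : y ≠ 0) (h : (F ^ k) y = sh p A s y)
    {L D : ℕ} (c : Fin L × Fin D → ZMod p)
    (hc : (∑ x : Fin L × Fin D, c x • mon F x.1 x.2) y = 0) (w0 : ℤ) :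
    ∃ n, ((∑ x ∈ (Finset.univ : Finset (Fin L × Fin D)).filter
      (fun x => (k : ℤ) * (x.1 : ℕ) + s * (x.2 : ℕ) = w0), c x • mon F x.1 x.2) ^ n) y = 0 := by
  classical
  obtain ⟨C, hC⟩ := supp_line hF hfin hk hy h
  haveI : Nontrivial (ℤ → A) := ⟨⟨y, 0, hy0⟩⟩
  haveI : CharP (Module.End (ZMod p) (ℤ → A)) p :=
    charP_of_injective_algebraMap (algebraMap (ZMod p) (Module.End (ZMod p) (ℤ → A))).injective p
  have hp : 2 ≤ p := (Fact.out : p.Prime).two_le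
  obtain ⟨n, hn, a, rfl⟩ : ∃ n : ℕ, 2 * C < n ∧ ∃ a, n = p ^ a :=
    ⟨p ^ (2 * C + 1), lt_trans (Nat.lt_succ_self _) (Nat.lt_pow_self (by omega)), _, rfl⟩
  refine ⟨p ^ a, ?_⟩
  have key : ∀ (T : Finset (Fin L × Fin D)),
      (∑ x ∈ T, c x • mon F x.1 x.2) ^ (p ^ a) = ∑ x ∈ T, (c x) ^ (p ^ a) •
        (sh p A ((p ^ a : ℕ) * (x.1 : ℕ)) * F ^ (p ^ a * (x.2 : ℕ))) := by
    intro T
    rw [sum_pow_comm p]
    · refine Finset.sum_congr rfl fun x _ => ?_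
      rw [smul_pow, mon_pow hF]
    · intro x x'
      exact smul_mon_comm hF _ _ _ _ _ _
  have hmon : ∀ (x : Fin L × Fin D) (u : ℤ),
      ((sh p A ((p ^ a : ℕ) * (x.1 : ℕ)) * F ^ (p ^ a * (x.2 : ℕ))) y) u ≠ 0 →
      |(k : ℤ) * u - (p ^ a : ℕ) * ((k : ℤ) * (x.1 : ℕ) + s * (x.2 : ℕ))| ≤ C := by
    intro x u hu
    have h1 := hC _ _ hu
    have h2 : (k : ℤ) * (u - (p ^ a : ℕ) * (x.1 : ℕ)) - s * ((p ^ a * (x.2 : ℕ) : ℕ) : ℤ) =
        (k : ℤ) * u - (p ^ a : ℕ) * ((k : ℤ) * (x.1 : ℕ) + s * (x.2 : ℕ)) := by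
      push_cast; ring
    rwa [h2] at h1
  funext u
  rw [key, eval_sum, Pi.zero_apply]
  by_cases hu : |(k : ℤ) * u - (p ^ a : ℕ) * w0| ≤ C
  · have h0 : ∑ x : Fin L × Fin D, (c x) ^ (p ^ a) •
        ((sh p A ((p ^ a : ℕ) * (x.1 : ℕ)) * F ^ (p ^ a * (x.2 : ℕ))) y) u = 0 := by
      rw [← eval_sum, ← key]
      obtain ⟨m, hm⟩ : ∃ m, p ^ a = m + 1 := ⟨p ^ a - 1, by omega⟩
      rw [hm, pow_succ]
      change (((∑ x : Fin L × Fin D, c x • mon F x.1 x.2) ^ m)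
        ((∑ x : Fin L × Fin D, c x • mon F x.1 x.2) y)) u = 0
      rw [hc, map_zero, Pi.zero_apply]
    rw [← h0]
    refine Finset.sum_subset (Finset.filter_subset _ _) ?_
    intro x _ hx
    have hx' : ¬ ((k : ℤ) * (x.1 : ℕ) + s * (x.2 : ℕ) = w0) := fun h' =>
      hx (Finset.mem_filter.2 ⟨Finset.mem_univ _, h'⟩)
    have : ((sh p A ((p ^ a : ℕ) * (x.1 : ℕ)) * F ^ (p ^ a * (x.2 : ℕ))) y) u = 0 := by
      by_contra hne
      have h1 := hmon x u hne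
      have h2 : 1 ≤ |((k : ℤ) * (x.1 : ℕ) + s * (x.2 : ℕ)) - w0| :=
        Int.one_le_abs (sub_ne_zero.2 hx')
      have h3 : ((p ^ a : ℕ) : ℤ) * |((k : ℤ) * (x.1 : ℕ) + s * (x.2 : ℕ)) - w0| ≤ 2 * C := by
        have e1 : ((p ^ a : ℕ) : ℤ) * |((k : ℤ) * (x.1 : ℕ) + s * (x.2 : ℕ)) - w0| =
            |((k : ℤ) * u - (p ^ a : ℕ) * w0) -
              ((k : ℤ) * u - (p ^ a : ℕ) * ((k : ℤ) * (x.1 : ℕ) + s * (x.2 : ℕ)))| := by
          rw [← Nat.abs_cast (p ^ a), ← abs_mul, Nat.abs_cast]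
          congr 1; ring
        rw [e1]
        calc _ ≤ |(k : ℤ) * u - (p ^ a : ℕ) * w0| +
            |(k : ℤ) * u - (p ^ a : ℕ) * ((k : ℤ) * (x.1 : ℕ) + s * (x.2 : ℕ))| := abs_sub _ _
          _ ≤ 2 * C := by linarith
      have h4 : ((p ^ a : ℕ) : ℤ) ≤ 2 * C := by
        have : ((p ^ a : ℕ) : ℤ) * 1 ≤
            ((p ^ a : ℕ) : ℤ) * |((k : ℤ) * (x.1 : ℕ) + s * (x.2 : ℕ)) - w0| :=
          mul_le_mul_of_nonneg_left h2 (by positivity)
        linarith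
      have h5 : ((2 * C : ℕ) : ℤ) < ((p ^ a : ℕ) : ℤ) := by exact_mod_cast hn
      push_cast at h5 h4
      linarith
    rw [this, smul_zero]
  · refine Finset.sum_eq_zero fun x hx => ?_
    have hx' := (Finset.mem_filter.1 hx).2
    have : ((sh p A ((p ^ a : ℕ) * (x.1 : ℕ)) * F ^ (p ^ a * (x.2 : ℕ))) y) u = 0 := by
      by_contra hne
      have h1 := hmon x u hne
      rw [hx'] at h1
      exact hu h1
    rw [this, smul_zero]

end Main

end Pool.Agent.V11259.Sol
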