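import Pool.Agent.V11259.SolB

/-!
# The period of a shift-eigenvector can be bounded: conclusion
-/

namespace Pool.Agent.V11259.Sol

section Main

variable {p : ℕ} [Fact p.Prime] {A : Type} [AddCommGroup A] [Module (ZMod p) A]
variable {F : Module.End (ZMod p) (ℤ → A)}

theorem bounded_period [Fintype A] (hF : ∀ s, Commute F (sh p A s))
    (hfin : ∀ v, Fs v → Fs (F v)) {k : ℕ} (hk : 1 ≤ k) {s : ℤ} {y : ℤ → A} (hy : Fs y)
    (hy0 : y ≠ 0) (h : (F ^ k) y = sh p A s y) {D : ℕ} (hD : (Fintype.card A) ^ 2 < p ^ D) :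
    ∃ z, z ≠ 0 ∧ Fs z ∧ ∃ (k' : ℕ) (s' : ℤ), 1 ≤ k' ∧ k' ≤ D * p ^ D ∧
      (F ^ k') z = sh p A s' z := by
  classical
  have hk0 : (k : ℤ) ≠ 0 := by exact_mod_cast (by omega : k ≠ 0)
  obtain ⟨L, c, ⟨x0, hx0⟩, hc⟩ := exists_rel hfin hy hD
  obtain ⟨S, hS⟩ : ∃ S : Finset (Fin L × Fin D), S = (Finset.univ : Finset (Fin L × Fin D)).filter
    (fun x => (k : ℤ) * (x.1 : ℕ) + s * (x.2 : ℕ) = (k : ℤ) * (x0.1 : ℕ) + s * (x0.2 : ℕ)) :=
    ⟨_, rfl⟩
  have hSw : ∀ x, x ∈ S ↔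
      (k : ℤ) * (x.1 : ℕ) + s * (x.2 : ℕ) = (k : ℤ) * (x0.1 : ℕ) + s * (x0.2 : ℕ) := by
    intro x; rw [hS]; simp
  obtain ⟨Q, hQ⟩ : ∃ Q : Module.End (ZMod p) (ℤ → A), Q = ∑ x ∈ S, c x • mon F x.1 x.2 :=
    ⟨_, rfl⟩
  have hn : ∃ n, (Q ^ n) y = 0 := by
    rw [hQ, hS]
    exact hom_nilp hF hfin hk hy hy0 h c hc _
  obtain ⟨b, hb1, hb2⟩ : ∃ b, (Q ^ b) y ≠ 0 ∧ (Q ^ (b + 1)) y = 0 := by
    have hn1 : Nat.find hn ≠ 0 := by
      intro h0
      have := Nat.find_spec hn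
      rw [h0] at this
      exact hy0 this
    refine ⟨Nat.find hn - 1, Nat.find_min hn (by omega), ?_⟩
    rw [Nat.sub_add_cancel (by omega)]
    exact Nat.find_spec hn
  obtain ⟨z, hz⟩ : ∃ z, z = (Q ^ b) y := ⟨_, rfl⟩
  have hz0 : z ≠ 0 := by rw [hz]; exact hb1
  have hQz : Q z = 0 := by
    rw [hz]
    rw [pow_succ'] at hb2
    exact hb2
  have hQs : ∀ t, Commute Q (sh p A t) := by
    intro t
    rw [hQ]
    refine Commute.sum_left _ _ _ fun x _ => Commute.smul_left ?_ _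
    exact Commute.mul_left (sh_comm _ _) ((hF _).pow_left _)
  have hQF : Commute Q F := by
    rw [hQ]
    refine Commute.sum_left _ _ _ fun x _ => Commute.smul_left ?_ _
    exact Commute.mul_left (hF _).symm ((Commute.refl F).pow_left _)
  have hzk : (F ^ k) z = sh p A s z := by
    have h1 : (F ^ k) ((Q ^ b) y) = (Q ^ b) ((F ^ k) y) :=
      (congrArg (fun E : Module.End (ZMod p) (ℤ → A) => E y) (hQF.pow_pow b k).eq).symm
    have h2 : sh p A s ((Q ^ b) y) = (Q ^ b) (sh p A s y) :=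
      (congrArg (fun E : Module.End (ZMod p) (ℤ → A) => E y) ((hQs s).pow_left b).eq).symm
    rw [hz, h1, h2, h]
  have hQfin : ∀ v, Fs v → Fs (Q v) := by
    intro v hv
    rw [hQ, LinearMap.sum_apply]
    refine Fs_sum _ _ fun x _ => ?_
    exact Fs_smul _ (Fs_sh (p := p) _ (Fs_pow F hfin hv _))
  have hzf : Fs z := by rw [hz]; exact Fs_pow Q hQfin hy b
  obtain ⟨T, hT⟩ : ∃ T : Finset (Fin L × Fin D), T = S.filter (fun x => c x ≠ 0) := ⟨_, rfl⟩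
  have hmT : ∀ x, x ∈ T ↔ x ∈ S ∧ c x ≠ 0 := by
    intro x; rw [hT, Finset.mem_filter]
  have hx0T : x0 ∈ T := (hmT _).2 ⟨(hSw _).2 rfl, hx0⟩
  obtain ⟨xm, hxm, hmax⟩ := Finset.exists_max_image T (fun x => (x.2 : ℕ)) ⟨x0, hx0T⟩
  have hwT : ∀ x ∈ T, (k : ℤ) * (x.1 : ℕ) + s * (x.2 : ℕ) =
      (k : ℤ) * (xm.1 : ℕ) + s * (xm.2 : ℕ) := fun x hx =>
    ((hSw x).1 ((hmT x).1 hx).1).trans ((hSw xm).1 ((hmT xm).1 hxm).1).symm
  have hlt : ∀ x ∈ T, x ≠ xm → (x.2 : ℕ) < (xm.2 : ℕ) := by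
    intro x hx hne
    refine lt_of_le_of_ne (hmax x hx) fun heq => hne ?_
    have h1 := hwT x hx
    rw [heq] at h1
    have h2 : (k : ℤ) * (x.1 : ℕ) = (k : ℤ) * (xm.1 : ℕ) := by linarith
    have h3 : ((x.1 : ℕ) : ℤ) = ((xm.1 : ℕ) : ℤ) := mul_left_cancel₀ hk0 h2
    exact Prod.ext (Fin.ext (by exact_mod_cast h3)) (Fin.ext heq)
  have hcm : c xm ≠ 0 := ((hmT xm).1 hxm).2
  have hrel : ∑ x ∈ T, c x • mon F x.1 x.2 z = 0 := by
    have h1 : ∑ x ∈ S, c x • mon F x.1 x.2 z = 0 := by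
      rw [hQ, LinearMap.sum_apply] at hQz
      exact hQz
    rw [← h1, hT]
    refine Finset.sum_filter_of_ne fun x _ hx hcx => hx ?_
    rw [hcx, zero_smul]
  have hrel2 : mon F xm.1 xm.2 z =
      ∑ x ∈ T.erase xm, (-((c xm)⁻¹ * c x)) • mon F x.1 x.2 z := by
    rw [← Finset.add_sum_erase _ _ hxm] at hrel
    have h1 : c xm • mon F xm.1 xm.2 z = - ∑ x ∈ T.erase xm, c x • mon F x.1 x.2 z :=
      eq_neg_of_add_eq_zero_left hrel
    have h2 : mon F xm.1 xm.2 z = (c xm)⁻¹ • (c xm • mon F xm.1 xm.2 z) := by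
      rw [smul_smul, inv_mul_cancel₀ hcm, one_smul]
    rw [h2, h1, smul_neg, Finset.smul_sum, ← Finset.sum_neg_distrib]
    refine Finset.sum_congr rfl fun x _ => ?_
    rw [smul_smul, neg_smul]
  obtain ⟨d, hd⟩ : ∃ d : ℕ, d = (xm.2 : ℕ) := ⟨_, rfl⟩
  have hFd : (F ^ d) z = ∑ x ∈ T.erase xm, (-((c xm)⁻¹ * c x)) •
      sh p A (((x.1 : ℕ) : ℤ) - ((xm.1 : ℕ) : ℤ)) ((F ^ (x.2 : ℕ)) z) := by
    have h1 : (F ^ d) z = sh p A (-((xm.1 : ℕ) : ℤ)) (mon F xm.1 xm.2 z) := by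
      rw [mon_apply, sh_sh, neg_add_cancel, sh_zero, hd]
    rw [h1, hrel2, map_sum]
    refine Finset.sum_congr rfl fun x _ => ?_
    rw [map_smul, mon_apply, sh_sh]
    congr 3; ring
  obtain ⟨x1, hx1⟩ : (T.erase xm).Nonempty := by
    by_contra hne
    rw [Finset.not_nonempty_iff_eq_empty] at hne
    rw [hne, Finset.sum_empty] at hFd
    exact hz0 (eig_inj hF hk hzk hFd)
  have hx1T := Finset.mem_of_mem_erase hx1
  have hx1lt := hlt x1 hx1T (Finset.ne_of_mem_erase hx1)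
  obtain ⟨d', hd'⟩ : ∃ d' : ℕ, (x1.2 : ℕ) + d' = d := ⟨d - x1.2, by omega⟩
  obtain ⟨e, he⟩ : ∃ e : ℤ, e = ((x1.1 : ℕ) : ℤ) - ((xm.1 : ℕ) : ℤ) := ⟨_, rfl⟩
  have hke : (k : ℤ) * e = s * d' := by
    have h1 := hwT x1 hx1T
    rw [← hd, ← hd'] at h1
    push_cast at h1
    rw [he]
    linarith
  -- the span
  obtain ⟨g, hg⟩ : ∃ g : Fin d → (ℤ → A),
      g = fun i : Fin d => sh p A (-(s * (i : ℕ)) / k) ((F ^ (i : ℕ)) z) := ⟨_, rfl⟩
  have hspan : ∀ i : ℕ, ∀ e : ℤ, (k : ℤ) * e + s * i = 0 →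
      sh p A e ((F ^ i) z) ∈ Submodule.span (ZMod p) (Set.range g) := by
    intro i
    induction i using Nat.strong_induction_on with
    | _ i ih =>
      intro e he
      by_cases hi : i < d
      · have h1 : -(s * (i : ℕ)) / (k : ℤ) = e :=
          Int.ediv_eq_of_eq_mul_right hk0 (by linarith)
        refine Submodule.subset_span ⟨⟨i, hi⟩, ?_⟩
        rw [hg]
        change sh p A (-(s * (i : ℕ)) / k) ((F ^ i) z) = _
        rw [h1]
      · obtain ⟨m, rfl⟩ : ∃ m, i = m + d := ⟨i - d, by omega⟩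
        rw [← F_F, hFd, map_sum, map_sum]
        refine Submodule.sum_mem _ fun x hx => ?_
        rw [map_smul, map_smul, F_sh hF, sh_sh, F_F]
        refine Submodule.smul_mem _ _ ?_
        have h1 := hlt x (Finset.mem_of_mem_erase hx) (Finset.ne_of_mem_erase hx)
        refine ih (m + x.2) (by omega) _ ?_
        have h2 := hwT x (Finset.mem_of_mem_erase hx)
        rw [← hd] at h2
        push_cast at he ⊢
        linarith
  have hv : ∀ q : ℕ, ∃ a : Fin d → ZMod p,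
      ∑ i, a i • g i = sh p A (-(q * e)) ((F ^ (q * d')) z) := by
    intro q
    apply (Submodule.mem_span_range_iff_exists_fun (ZMod p)).1
    apply hspan
    push_cast
    linear_combination (-(q : ℤ)) * hke
  choose a ha using hv
  have hcard : Fintype.card (Fin d → ZMod p) < Fintype.card (Fin (p ^ d + 1)) := by
    rw [Fintype.card_fun, ZMod.card, Fintype.card_fin, Fintype.card_fin]
    exact Nat.lt_succ_self _
  obtain ⟨q1, q2, hne, heq⟩ := Fintype.exists_ne_map_eq_of_card_lt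
    (fun q : Fin (p ^ d + 1) => a q) hcard
  obtain ⟨q, r, hr1, hr2, hqr⟩ : ∃ q r : ℕ, 1 ≤ r ∧ r ≤ p ^ d ∧ a q = a (q + r) := by
    rcases lt_trichotomy (q1 : ℕ) (q2 : ℕ) with h1 | h1 | h1
    · refine ⟨q1, q2 - q1, by omega, by omega, ?_⟩
      rw [Nat.add_sub_cancel' h1.le]; exact heq
    · exact absurd (Fin.ext h1) hne
    · refine ⟨q2, q1 - q2, by omega, by omega, ?_⟩
      rw [Nat.add_sub_cancel' h1.le]; exact heq.symm
  have h1 : sh p A (-(q * e)) ((F ^ (q * d')) z) =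
      sh p A (-((q + r : ℕ) * e)) ((F ^ ((q + r) * d')) z) := by
    rw [← ha, ← ha, hqr]
  have h2 : (F ^ (q * d')) ((F ^ (r * d')) z - sh p A (r * e) z) = 0 := by
    rw [map_sub, F_F, F_sh hF, sub_eq_zero, ← Nat.add_mul]
    have h3 := congrArg (sh p A ((q + r : ℕ) * e)) h1
    rw [sh_sh, sh_sh, add_neg_cancel, sh_zero] at h3
    rw [← h3]
    congr 2
    push_cast; ring
  have h4 : (F ^ k) ((F ^ (r * d')) z - sh p A (r * e) z) =
      sh p A s ((F ^ (r * d')) z - sh p A (r * e) z) := by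
    rw [map_sub, map_sub, F_F, Nat.add_comm, ← F_F, hzk, F_sh hF, F_sh hF, hzk, sh_sh, sh_sh,
      add_comm]
  have h5 := eig_inj hF hk h4 h2
  have hdD : d < D := by rw [hd]; exact xm.2.2
  refine ⟨z, hz0, hzf, r * d', r * e, ?_, ?_, sub_eq_zero.1 h5⟩
  · exact Nat.mul_pos hr1 (by omega)
  · have hp : 1 ≤ p := (Fact.out : p.Prime).one_le
    calc r * d' ≤ p ^ d * d := Nat.mul_le_mul hr2 (by omega)
      _ ≤ p ^ D * D := Nat.mul_le_mul (Nat.pow_le_pow_right hp hdD.le) hdD.le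
      _ = D * p ^ D := Nat.mul_comm _ _

end Main

end Pool.Agent.V11259.Sol
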