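import Pool.Agent.V11259.SolC

/-!
# Additive cellular automata: solitons and shift-eigenvectors of bounded period
-/

namespace Pool.Agent.V11259.Sol

section CA

variable {A : Type} [AddCommGroup A]

/-- the shift -/
def shf (s : ℤ) (x : ℤ → A) : ℤ → A := fun i => x (i - s)

theorem shf_shf (s t : ℤ) (x : ℤ → A) : shf s (shf t x) = shf (s + t) x := by
  funext i
  change x (i - s - t) = x (i - (s + t))
  congr 1; ring

/-- an additive cellular automaton -/
def ca (r : ℕ) (h : ℕ → (A →+ A)) : (ℤ → A) →+ (ℤ → A) where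
  toFun x := fun i => ∑ j ∈ Finset.range (2 * r + 1), h j (x (i + j - r))
  map_zero' := by
    funext i
    exact Finset.sum_eq_zero fun j _ => map_zero _
  map_add' x y := by
    funext i
    change ∑ j ∈ Finset.range (2 * r + 1), h j (x (i + j - r) + y (i + j - r)) =
      (∑ j ∈ Finset.range (2 * r + 1), h j (x (i + j - r))) +
        ∑ j ∈ Finset.range (2 * r + 1), h j (y (i + j - r))
    rw [← Finset.sum_add_distrib]
    exact Finset.sum_congr rfl fun j _ => map_add _ _ _

theorem ca_apply (r : ℕ) (h : ℕ → (A →+ A)) (x : ℤ → A) (i : ℤ) :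
    ca r h x i = ∑ j ∈ Finset.range (2 * r + 1), h j (x (i + j - r)) := rfl

variable {r : ℕ} {h : ℕ → (A →+ A)}

/-- locality of the iterates -/
theorem local_iter (n : ℕ) : ∀ (x x' : ℤ → A) (u u' : ℤ),
    (∀ j : ℤ, |j| ≤ r * n → x (u + j) = x' (u' + j)) →
    (ca r h)^[n] x u = (ca r h)^[n] x' u' := by
  induction n with
  | zero =>
    intro x x' u u' hx
    have := hx 0 (by simp)
    rwa [add_zero, add_zero] at this
  | succ n ih =>
    intro x x' u u' hx
    rw [Function.iterate_succ_apply', Function.iterate_succ_apply', ca_apply, ca_apply]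
    refine Finset.sum_congr rfl fun j hj => ?_
    rw [Finset.mem_range] at hj
    congr 1
    apply ih
    intro l hl
    have e1 : u + j - r + l = u + (j - r + l) := by ring
    have e2 : u' + j - r + l = u' + (j - r + l) := by ring
    rw [e1, e2]
    apply hx
    have h1 := abs_le.1 hl
    rw [abs_le]
    push_cast
    constructor <;> linarith [h1.1, h1.2, (by omega : (j : ℤ) ≤ 2 * r), (by omega : (0 : ℤ) ≤ j)]

theorem iter_shf (n : ℕ) (s : ℤ) (x : ℤ → A) :
    (ca r h)^[n] (shf s x) = shf s ((ca r h)^[n] x) := by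
  funext u
  apply local_iter
  intro j _
  change x (u + j - s) = x (u - s + j)
  congr 1; ring

theorem iter_zero (n : ℕ) : (ca r h)^[n] (0 : ℤ → A) = 0 := by
  induction n with
  | zero => rfl
  | succ n ih => rw [Function.iterate_succ_apply', ih, map_zero]

theorem iter_ne {n : ℕ} {x : ℤ → A} {u : ℤ} (hu : (ca r h)^[n] x u ≠ 0) :
    ∃ j : ℤ, |j| ≤ r * n ∧ x (u + j) ≠ 0 := by
  by_contra hcon
  push Not at hcon
  apply hu
  rw [local_iter n x 0 u u hcon, iter_zero]
  rfl

theorem Fs_iter {x : ℤ → A} (hx : Fs x) (n : ℕ) : Fs ((ca r h)^[n] x) := by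
  obtain ⟨C, hC⟩ := hx
  refine ⟨C + r * n, fun u hu => ?_⟩
  obtain ⟨j, hj, hj2⟩ := iter_ne hu
  have h1 := hC _ hj2
  rw [abs_le] at h1 hj ⊢
  push_cast
  constructor <;> linarith [h1.1, h1.2, hj.1, hj.2]

/-- solitons -/
def Sol (F : (ℤ → A) → (ℤ → A)) : Prop :=
  ∃ x y : ℤ → A, x ≠ y ∧ {i | x i ≠ y i}.Finite ∧
    ∃ D : ℕ, ∀ t : ℕ, ∀ i j : ℤ, F^[t] x i ≠ F^[t] y i → F^[t] x j ≠ F^[t] y j → |i - j| ≤ D

theorem Fs_of_finite {v : ℤ → A} (hv : {i | v i ≠ 0}.Finite) : Fs v := by
  refine ⟨∑ i ∈ hv.toFinset, i.natAbs, fun u hu => ?_⟩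
  have h1 : u.natAbs ≤ ∑ i ∈ hv.toFinset, i.natAbs :=
    Finset.single_le_sum (f := fun i : ℤ => i.natAbs) (fun _ _ => Nat.zero_le _)
      (hv.mem_toFinset.2 hu)
  rw [← Int.natCast_natAbs]
  exact_mod_cast h1

theorem finite_of_Fs {v : ℤ → A} (hv : Fs v) : {i | v i ≠ 0}.Finite := by
  obtain ⟨C, hC⟩ := hv
  refine (Set.finite_Icc (-(C : ℤ)) C).subset fun u hu => ?_
  exact abs_le.1 (hC u hu)

/-- a soliton gives a dying or shift-periodic configuration -/
theorem per_of_sol [Finite A] (hs : Sol (ca r h)) : ∃ z : ℤ → A, z ≠ 0 ∧ Fs z ∧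
    (ca r h z = 0 ∨ ∃ (k : ℕ) (s : ℤ), 1 ≤ k ∧ (ca r h)^[k] z = shf s z) := by
  classical
  obtain ⟨x, y, hxy, hfin, D, hD⟩ := hs
  obtain ⟨v, hv⟩ : ∃ v, v = x - y := ⟨_, rfl⟩
  have hv0 : v ≠ 0 := by rw [hv]; exact sub_ne_zero.2 hxy
  have hvf : Fs v := by
    apply Fs_of_finite
    convert hfin using 3 with i
    rw [hv, Pi.sub_apply, Ne, Ne, sub_eq_zero]
  have hvt : ∀ t u, (ca r h)^[t] v u = (ca r h)^[t] x u - (ca r h)^[t] y u := by
    intro t u
    rw [hv, iterate_map_sub]; rfl
  have hvD : ∀ t i j, (ca r h)^[t] v i ≠ 0 → (ca r h)^[t] v j ≠ 0 → |i - j| ≤ D := by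
    intro t i j hi hj
    rw [hvt, sub_ne_zero] at hi hj
    exact hD t i j hi hj
  by_cases hdie : ∃ t, (ca r h)^[t] v = 0
  · have hf0 : Nat.find hdie ≠ 0 := by
      intro h0
      have := Nat.find_spec hdie
      rw [h0] at this
      exact hv0 this
    refine ⟨(ca r h)^[Nat.find hdie - 1] v, Nat.find_min hdie (by omega), Fs_iter hvf _, Or.inl ?_⟩
    rw [← Function.iterate_succ_apply' (ca r h), Nat.succ_eq_add_one, Nat.sub_add_cancel (by omega)]
    exact Nat.find_spec hdie
  · push Not at hdie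
    have hex : ∀ t, ∃ i, (ca r h)^[t] v i ≠ 0 := by
      intro t
      by_contra hcon
      push Not at hcon
      exact hdie t (funext hcon)
    choose pos hpos using hex
    obtain ⟨t1, t2, hne, heq⟩ := Finite.exists_ne_map_eq_of_infinite
      (fun t : ℕ => fun j : Fin (2 * D + 1) => (ca r h)^[t] v (pos t - D + j))
    have key : ∀ t t' : ℕ, (∀ j : Fin (2 * D + 1),
        (ca r h)^[t] v (pos t - D + j) = (ca r h)^[t'] v (pos t' - D + j)) →
        (ca r h)^[t'] v = shf (pos t' - pos t) ((ca r h)^[t] v) := by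
      intro t t' ht
      funext u
      change _ = (ca r h)^[t] v (u - (pos t' - pos t))
      by_cases hu : |u - pos t'| ≤ D
      · have h1 := abs_le.1 hu
        have h2 := ht ⟨(u - pos t' + D).toNat, by omega⟩
        have e1 : pos t' - D + ((u - pos t' + D).toNat : ℤ) = u := by omega
        have e2 : pos t - D + ((u - pos t' + D).toNat : ℤ) = u - (pos t' - pos t) := by omega
        simp only at h2
        rw [e1, e2] at h2
        exact h2.symm
      · have h1 : (ca r h)^[t'] v u = 0 := by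
          by_contra hne
          exact hu (hvD t' u (pos t') hne (hpos t'))
        have h2 : (ca r h)^[t] v (u - (pos t' - pos t)) = 0 := by
          by_contra hne
          have h3 := hvD t _ _ hne (hpos t)
          have e1 : u - (pos t' - pos t) - pos t = u - pos t' := by ring
          rw [e1] at h3
          exact hu h3
        rw [h1, h2]
    have fin : ∀ t t' : ℕ, t < t' → (∀ j : Fin (2 * D + 1),
        (ca r h)^[t] v (pos t - D + j) = (ca r h)^[t'] v (pos t' - D + j)) →
        ∃ z : ℤ → A, z ≠ 0 ∧ Fs z ∧ (ca r h z = 0 ∨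
          ∃ (k : ℕ) (s : ℤ), 1 ≤ k ∧ (ca r h)^[k] z = shf s z) := by
      intro t t' hlt ht
      refine ⟨(ca r h)^[t] v, hdie t, Fs_iter hvf _, Or.inr ⟨t' - t, pos t' - pos t, by omega, ?_⟩⟩
      rw [← Function.iterate_add_apply, Nat.sub_add_cancel hlt.le]
      exact key t t' ht
    rcases lt_or_gt_of_ne hne with hlt | hlt
    · exact fin t1 t2 hlt fun j => congrFun heq j
    · exact fin t2 t1 hlt fun j => (congrFun heq j).symm

/-- conversely -/
theorem sol_of_per {z : ℤ → A} (hz : z ≠ 0) (hf : Fs z) {k : ℕ} (hk : 1 ≤ k)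
    (hp : (ca r h)^[k] z = 0 ∨ ∃ s, (ca r h)^[k] z = shf s z) : Sol (ca r h) := by
  refine ⟨z, 0, hz, finite_of_Fs hf, ?_⟩
  choose C hC using fun t => Fs_iter (r := r) (h := h) hf t
  refine ⟨∑ t ∈ Finset.range k, 2 * C t, ?_⟩
  intro t
  rw [iter_zero]
  induction t using Nat.strong_induction_on with
  | _ t ih =>
    intro i j hi hj
    by_cases ht : t < k
    · have h1 := abs_le.1 (hC t i hi)
      have h2 := abs_le.1 (hC t j hj)
      have h3 : 2 * C t ≤ ∑ t ∈ Finset.range k, 2 * C t :=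
        Finset.single_le_sum (f := fun t => 2 * C t) (fun _ _ => Nat.zero_le _)
          (Finset.mem_range.2 ht)
      have h4 : ((2 * C t : ℕ) : ℤ) ≤ ((∑ t ∈ Finset.range k, 2 * C t : ℕ) : ℤ) := by
        exact_mod_cast h3
      rw [abs_le]
      push_cast at h4 ⊢
      constructor <;> linarith [h1.1, h1.2, h2.1, h2.2]
    · have e : (ca r h)^[t] z = (ca r h)^[t - k] ((ca r h)^[k] z) := by
        rw [← Function.iterate_add_apply, Nat.sub_add_cancel (by omega)]
      rcases hp with hp | ⟨s, hp⟩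
      · rw [e, hp, iter_zero] at hi
        exact absurd rfl hi
      · rw [e, hp, iter_shf] at hi hj
        have := ih (t - k) (by omega) (i - s) (j - s) hi hj
        have e2 : i - s - (j - s) = i - j := by ring
        rwa [e2] at this

end CA

end Pool.Agent.V11259.Sol
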