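import Pool.Agent.V11259.SolD

/-!
# Additive cellular automata: bounds for the period, the speed and the support
-/

namespace Pool.Agent.V11259.Sol

section Tor

variable {A : Type} [AddCommGroup A]

/-- the `p`-torsion -/
def tor (A : Type) [AddCommGroup A] (p : ℕ) : AddSubgroup A where
  carrier := {a | p • a = 0}
  zero_mem' := nsmul_zero p
  add_mem' {a b} ha hb := by
    change p • (a + b) = 0
    have ha' : p • a = 0 := ha
    have hb' : p • b = 0 := hb
    rw [nsmul_add, ha', hb', add_zero]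
  neg_mem' {a} ha := by
    change p • (-a) = 0
    have ha' : p • a = 0 := ha
    rw [smul_neg, ha', neg_zero]

theorem tor_smul (p : ℕ) (x : tor A p) : p • x = 0 := Subtype.ext x.2

/-- restriction of an endomorphism -/
def res (p : ℕ) (f : A →+ A) : tor A p →+ tor A p :=
  (f.comp (tor A p).subtype).codRestrict (tor A p) fun x => by
    change p • f x = 0
    have hx : p • (x : A) = 0 := x.2
    rw [← map_nsmul, hx, map_zero]

theorem coe_res (p : ℕ) (f : A →+ A) (x : tor A p) : ((res p f x : tor A p) : A) = f x := rfl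

theorem coe_ca (p r : ℕ) (h : ℕ → (A →+ A)) (v : ℤ → tor A p) (i : ℤ) :
    ((ca r (fun j => res p (h j)) v i : tor A p) : A) = ca r h (fun i => (v i : A)) i := by
  rw [ca_apply, ca_apply, AddSubgroup.val_finsetSum]
  exact Finset.sum_congr rfl fun j _ => rfl

theorem coe_iter (p r : ℕ) (h : ℕ → (A →+ A)) (n : ℕ) : ∀ (v : ℤ → tor A p) (i : ℤ),
    (((ca r (fun j => res p (h j)))^[n] v i : tor A p) : A) =
      (ca r h)^[n] (fun i => (v i : A)) i := by
  induction n with
  | zero => intro v i; rfl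
  | succ n ih =>
    intro v i
    rw [Function.iterate_succ_apply', Function.iterate_succ_apply', coe_ca]
    exact congrFun (congrArg (ca r h) (funext fun i => ih v i)) i

theorem bounded_tor {p : ℕ} [Fact p.Prime] [Fintype A] {r : ℕ} {h : ℕ → (A →+ A)} {y : ℤ → A}
    (hy0 : y ≠ 0) (hy : Fs y) (hpy : ∀ i, p • y i = 0) {k : ℕ} (hk : 1 ≤ k) {s : ℤ}
    (hks : (ca r h)^[k] y = shf s y) {D : ℕ} (hD : (Fintype.card A) ^ 2 < p ^ D) :
    ∃ z : ℤ → A, z ≠ 0 ∧ Fs z ∧ ∃ (k' : ℕ) (s' : ℤ), 1 ≤ k' ∧ k' ≤ D * p ^ D ∧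
      (ca r h)^[k'] z = shf s' z := by
  classical
  letI : Module (ZMod p) (tor A p) := AddCommGroup.zmodModule (tor_smul p)
  let F : Module.End (ZMod p) (ℤ → tor A p) :=
    AddMonoidHom.toZModLinearMap p (ca r (fun j => res p (h j)))
  have hFn : ∀ (n : ℕ) (v : ℤ → tor A p), (F ^ n) v = (ca r (fun j => res p (h j)))^[n] v := by
    intro n v
    rw [Module.End.pow_apply]; rfl
  have hF : ∀ s, Commute F (sh p (tor A p) s) := by
    intro s
    refine LinearMap.ext fun v => ?_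
    exact iter_shf (r := r) (h := fun j => res p (h j)) 1 s v
  have hfin : ∀ v, Fs v → Fs (F v) := fun v hv =>
    Fs_iter (r := r) (h := fun j => res p (h j)) hv 1
  obtain ⟨y', hy'⟩ : ∃ y' : ℤ → tor A p, ∀ i, (y' i : A) = y i :=
    ⟨fun i => ⟨y i, hpy i⟩, fun i => rfl⟩
  have hy'c : (fun i => (y' i : A)) = y := funext hy'
  have hy'0 : y' ≠ 0 := by
    rintro rfl
    apply hy0
    funext i
    rw [← hy' i]; rfl
  have hy'f : Fs y' := by
    obtain ⟨C, hC⟩ := hy
    refine ⟨C, fun u hu => hC u ?_⟩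
    rw [← hy' u]
    intro h0; exact hu (Subtype.ext h0)
  have hks' : (F ^ k) y' = sh p (tor A p) s y' := by
    rw [hFn]
    funext i
    apply Subtype.ext
    rw [coe_iter, hy'c, hks]
    change y (i - s) = (y' (i - s) : A)
    rw [hy']
  have hcard : (Fintype.card (tor A p)) ^ 2 < p ^ D := by
    refine lt_of_le_of_lt (Nat.pow_le_pow_left ?_ 2) hD
    exact Fintype.card_le_of_injective (fun x : tor A p => (x : A)) Subtype.val_injective
  obtain ⟨z, hz0, hzf, k', s', h1, h2, h3⟩ := bounded_period hF hfin hk hy'f hy'0 hks' hcard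
  refine ⟨fun i => (z i : A), ?_, ?_, k', s', h1, h2, ?_⟩
  · intro h0
    apply hz0
    funext i
    exact Subtype.ext (congrFun h0 i)
  · obtain ⟨C, hC⟩ := hzf
    refine ⟨C, fun u hu => hC u ?_⟩
    intro h0
    apply hu
    change ((z u : tor A p) : A) = 0
    rw [h0]; rfl
  · rw [hFn] at h3
    funext i
    rw [← coe_iter, h3]
    rfl

/-- bound for the period -/
def bd (m : ℕ) : ℕ := 2 * m * m ^ (2 * m)

theorem bounded_ca [Fintype A] {r : ℕ} {h : ℕ → (A →+ A)} {y : ℤ → A}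
    (hy0 : y ≠ 0) (hy : Fs y) {k : ℕ} (hk : 1 ≤ k) {s : ℤ}
    (hks : (ca r h)^[k] y = shf s y) :
    ∃ z : ℤ → A, z ≠ 0 ∧ Fs z ∧ ∃ (k' : ℕ) (s' : ℤ), 1 ≤ k' ∧ k' ≤ bd (Fintype.card A) ∧
      (ca r h)^[k'] z = shf s' z := by
  classical
  have hm : (Fintype.card A) • y = 0 := by
    funext i
    exact card_nsmul_eq_zero
  have hdvd : addOrderOf y ∣ Fintype.card A := addOrderOf_dvd_of_nsmul_eq_zero hm
  have hcpos : 0 < Fintype.card A := Fintype.card_pos
  have hopos : 0 < addOrderOf y := Nat.pos_of_dvd_of_pos hdvd hcpos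
  have ho1 : addOrderOf y ≠ 1 := fun h1 => hy0 (AddMonoid.addOrderOf_eq_one_iff.1 h1)
  obtain ⟨p, hp⟩ : ∃ p, p = (addOrderOf y).minFac := ⟨_, rfl⟩
  have hpp : p.Prime := by rw [hp]; exact Nat.minFac_prime ho1
  haveI : Fact p.Prime := ⟨hpp⟩
  obtain ⟨q, hq⟩ : p ∣ addOrderOf y := by rw [hp]; exact Nat.minFac_dvd _
  have hqpos : 0 < q := by
    rcases Nat.eq_zero_or_pos q with h0 | h0
    · rw [h0, Nat.mul_zero] at hq; omega
    · exact h0
  have hqlt : q < addOrderOf y := by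
    rw [hq]
    have := hpp.two_le
    nlinarith
  have hy1 : q • y ≠ 0 := by
    intro h0
    have := addOrderOf_le_of_nsmul_eq_zero hqpos h0
    omega
  have hpy : ∀ i, p • (q • y) i = 0 := by
    intro i
    have h1 : p • (q • y) = 0 := by
      rw [← mul_nsmul', ← hq]; exact addOrderOf_nsmul_eq_zero y
    exact congrFun h1 i
  have hqf : Fs (q • y) := by
    obtain ⟨C, hC⟩ := hy
    refine ⟨C, fun u hu => hC u ?_⟩
    intro h0
    apply hu
    change q • y u = 0
    rw [h0, nsmul_zero]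
  have hqk : (ca r h)^[k] (q • y) = shf s (q • y) := by
    have h1 : (ca r h)^[k] (q • y) = q • (ca r h)^[k] y := by
      clear hks hk
      induction k with
      | zero => rfl
      | succ k ih =>
        rw [Function.iterate_succ_apply', Function.iterate_succ_apply', ih, map_nsmul]
    rw [h1, hks]
    rfl
  have hple : p ≤ Fintype.card A :=
    Nat.le_of_dvd hcpos (Dvd.dvd.trans ⟨q, hq⟩ hdvd)
  have hD : (Fintype.card A) ^ 2 < p ^ (2 * Fintype.card A) := by
    calc (Fintype.card A) ^ 2 < (2 ^ (Fintype.card A)) ^ 2 :=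
          Nat.pow_lt_pow_left Nat.lt_two_pow_self (by omega)
      _ = 2 ^ (2 * Fintype.card A) := by rw [← pow_mul, Nat.mul_comm]
      _ ≤ p ^ (2 * Fintype.card A) := Nat.pow_le_pow_left hpp.two_le _
  obtain ⟨z, hz0, hzf, k', s', h1, h2, h3⟩ := bounded_tor hy1 hqf hpy hk hqk hD
  refine ⟨z, hz0, hzf, k', s', h1, h2.trans ?_, h3⟩
  exact Nat.mul_le_mul_left _ (Nat.pow_le_pow_left hple _)

/-- bound for the speed -/
theorem speed {r : ℕ} {h : ℕ → (A →+ A)} {z : ℤ → A} (hz0 : z ≠ 0) (hz : Fs z) {k : ℕ} {s : ℤ}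
    (hks : (ca r h)^[k] z = shf s z) : |s| ≤ r * k := by
  obtain ⟨C, hC⟩ := hz
  have hex : ∃ u, z u ≠ 0 := by
    by_contra hcon
    push Not at hcon
    exact hz0 (funext hcon)
  obtain ⟨a, ha1, ha2⟩ := Int.exists_greatest_of_bdd (P := fun u => z u ≠ 0)
    ⟨C, fun u hu => (abs_le.1 (hC u hu)).2⟩ hex
  obtain ⟨b, hb1, hb2⟩ := Int.exists_least_of_bdd (P := fun u => z u ≠ 0)
    ⟨-C, fun u hu => (abs_le.1 (hC u hu)).1⟩ hex
  have h1 : (ca r h)^[k] z (a + s) ≠ 0 := by
    rw [hks]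
    change z (a + s - s) ≠ 0
    rwa [add_sub_cancel_right]
  have h2 : (ca r h)^[k] z (b + s) ≠ 0 := by
    rw [hks]
    change z (b + s - s) ≠ 0
    rwa [add_sub_cancel_right]
  obtain ⟨j, hj1, hj2⟩ := iter_ne h1
  obtain ⟨l, hl1, hl2⟩ := iter_ne h2
  have h3 := ha2 _ hj2
  have h4 := hb2 _ hl2
  rw [abs_le] at hj1 hl1 ⊢
  constructor <;> linarith [hj1.1, hj1.2, hl1.1, hl1.2]

/-- pumping -/
theorem pump [Fintype A] {R : ℕ} (G : (ℤ → A) → (ℤ → A))
    (hG : ∀ (x x' : ℤ → A) (u u' : ℤ), (∀ j : ℤ, |j| ≤ R → x (u + j) = x' (u' + j)) →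
      G x u = G x' u') {z : ℤ → A} (hz0 : z ≠ 0) (hz : Fs z) (hGz : ∀ u, G z u = 0) :
    ∃ z' : ℤ → A, z' 0 ≠ 0 ∧ (∀ u, z' u ≠ 0 → 0 ≤ u ∧ u < ((Fintype.card A) ^ (2 * R) : ℕ)) ∧
      ∀ u, G z' u = 0 := by
  classical
  have hex : ∃ n : ℕ, ∃ z' : ℤ → A, z' 0 ≠ 0 ∧ (∀ u, z' u ≠ 0 → 0 ≤ u ∧ u < n) ∧
      ∀ u, G z' u = 0 := by
    obtain ⟨C, hC⟩ := hz
    have hex : ∃ u, z u ≠ 0 := by
      by_contra hcon
      push Not at hcon
      exact hz0 (funext hcon)
    obtain ⟨b, hb1, hb2⟩ := Int.exists_least_of_bdd (P := fun u => z u ≠ 0)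
      ⟨-C, fun u hu => (abs_le.1 (hC u hu)).1⟩ hex
    refine ⟨(C - b + 1).toNat, fun u => z (u + b), ?_, ?_, ?_⟩
    · change z (0 + b) ≠ 0
      rwa [zero_add]
    · intro u hu
      have h1 := hb2 _ hu
      have h2 := (abs_le.1 (hC _ hu)).2
      omega
    · intro u
      rw [hG (fun u => z (u + b)) z u (u + b) (fun j _ => by
        change z (u + j + b) = z (u + b + j)
        congr 1; ring)]
      exact hGz _
  obtain ⟨z', hz'0, hz's, hz'G⟩ := Nat.find_spec hex
  refine ⟨z', hz'0, ?_, hz'G⟩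
  suffices hle : Nat.find hex ≤ (Fintype.card A) ^ (2 * R) by
    intro u hu
    have := hz's u hu
    refine ⟨this.1, this.2.trans_le ?_⟩
    exact_mod_cast hle
  by_contra hgt
  push Not at hgt
  have hcard : Fintype.card (Fin (2 * R) → A) <
      Fintype.card (Fin ((Fintype.card A) ^ (2 * R) + 1)) := by
    rw [Fintype.card_fun, Fintype.card_fin, Fintype.card_fin]
    exact Nat.lt_succ_self _
  obtain ⟨i1, i2, hne, heq⟩ := Fintype.exists_ne_map_eq_of_card_lt
    (fun i : Fin ((Fintype.card A) ^ (2 * R) + 1) => fun j : Fin (2 * R) =>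
      z' (((i : ℕ) : ℤ) + 1 + ((j : ℕ) : ℤ))) hcard
  have key : ∀ i1 i2 : ℕ, i1 < i2 → i2 < (Fintype.card A) ^ (2 * R) + 1 →
      (∀ j : ℕ, j < 2 * R → z' ((i1 : ℤ) + 1 + j) = z' ((i2 : ℤ) + 1 + j)) → False := by
    intro i1 i2 hlt hi2 hw
    refine Nat.find_min hex (m := Nat.find hex - (i2 - i1)) (by omega) ?_
    refine ⟨fun t => if t < i1 + 1 then z' t else z' (t + (i2 - i1)), ?_, ?_, ?_⟩
    · change (if (0 : ℤ) < i1 + 1 then z' 0 else _) ≠ 0
      rw [if_pos (by omega)]; exact hz'0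
    · intro u hu
      simp only at hu
      by_cases hu1 : u < i1 + 1
      · rw [if_pos hu1] at hu
        have := hz's u hu
        omega
      · rw [if_neg hu1] at hu
        have := hz's _ hu
        omega
    · intro u
      by_cases hu1 : u + R < i1 + 1 + 2 * R
      · rw [hG _ z' u u]
        · exact hz'G u
        · intro j hj
          have hj' := abs_le.1 hj
          by_cases h1 : u + j < i1 + 1
          · rw [if_pos h1]
          · rw [if_neg h1]
            have h2 := hw (u + j - (i1 + 1)).toNat (by omega)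
            have e1 : (i1 : ℤ) + 1 + ((u + j - (i1 + 1)).toNat : ℤ) = u + j := by omega
            have e2 : (i2 : ℤ) + 1 + ((u + j - (i1 + 1)).toNat : ℤ) = u + j + (i2 - i1) := by
              omega
            rw [e1, e2] at h2
            exact h2.symm
      · rw [hG _ z' u (u + (i2 - i1))]
        · exact hz'G _
        · intro j hj
          have hj' := abs_le.1 hj
          rw [if_neg (by omega)]
          congr 1; ring
  have hne' : (i1 : ℕ) ≠ (i2 : ℕ) := fun h' => hne (Fin.ext h')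
  rcases lt_or_gt_of_ne hne' with hlt | hlt
  · exact key i1 i2 hlt i2.2 fun j hj => congrFun heq ⟨j, hj⟩
  · exact key i2 i1 hlt i1.2 fun j hj => (congrFun heq ⟨j, hj⟩).symm

end Tor

end Pool.Agent.V11259.Sol
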