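import Pool.Agent.V11259.SolE

/-!
# Finite search for solitons of additive cellular automata
-/

namespace Pool.Agent.V11259.Sol

section Search

variable {A : Type} [AddCommGroup A] {r : ℕ} {h : ℕ → (A →+ A)}

theorem bd_pos {m : ℕ} (hm : 0 < m) : 1 ≤ bd m :=
  Nat.mul_pos (by omega) (Nat.pow_pos hm)

theorem sol_iff [Fintype A] : Sol (ca r h) ↔ ∃ k, 1 ≤ k ∧ k ≤ bd (Fintype.card A) ∧
    ∃ s : ℕ, s ≤ 2 * r * k ∧ ∃ z : ℤ → A, z 0 ≠ 0 ∧
      (∀ u, z u ≠ 0 → 0 ≤ u ∧
        u < ((Fintype.card A) ^ (2 * (r * bd (Fintype.card A))) : ℕ)) ∧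
      ((ca r h)^[k] z = 0 ∨ (ca r h)^[k] z = shf ((s : ℤ) - r * k) z) := by
  constructor
  · intro hs
    obtain ⟨z, hz0, hzf, hz | ⟨k, s, hk, hks⟩⟩ := per_of_sol hs
    · have hb : 1 ≤ bd (Fintype.card A) := bd_pos Fintype.card_pos
      obtain ⟨z', h1, h2, h3⟩ := pump (R := r * bd (Fintype.card A)) (fun x => (ca r h)^[1] x)
        (fun x x' u u' hx => local_iter 1 x x' u u' fun j hj => hx j (hj.trans (by
          have : r * 1 ≤ r * bd (Fintype.card A) := Nat.mul_le_mul_left _ hb
          exact_mod_cast this))) hz0 hzf (fun u => by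
          change (ca r h z) u = 0
          rw [hz]; rfl)
      exact ⟨1, le_refl _, hb, 0, Nat.zero_le _, z', h1, h2, Or.inl (funext h3)⟩
    · obtain ⟨y, hy0, hyf, k', s', h1, h2, h3⟩ := bounded_ca hz0 hzf hk hks
      have h4 := speed hy0 hyf h3
      have h5 : r * k' ≤ r * bd (Fintype.card A) := Nat.mul_le_mul_left _ h2
      have h6 : (r : ℤ) * k' ≤ ((r * bd (Fintype.card A) : ℕ) : ℤ) := by exact_mod_cast h5
      have h7 := abs_le.1 h4
      obtain ⟨z', g1, g2, g3⟩ := pump (R := r * bd (Fintype.card A))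
        (fun x u => (ca r h)^[k'] x u - x (u - s'))
        (fun x x' u u' hx => by
          change (ca r h)^[k'] x u - x (u - s') = (ca r h)^[k'] x' u' - x' (u' - s')
          have e1 : (ca r h)^[k'] x u = (ca r h)^[k'] x' u' :=
            local_iter k' x x' u u' fun j hj => hx j (hj.trans h6)
          have e2 : x (u - s') = x' (u' - s') := by
            have := hx (-s') (by rw [abs_neg]; exact h4.trans h6)
            rwa [← sub_eq_add_neg, ← sub_eq_add_neg] at this
          rw [e1, e2]) hy0 hyf (fun u => by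
          change (ca r h)^[k'] y u - y (u - s') = 0
          rw [h3]; exact sub_self _)
      refine ⟨k', h1, h2, (s' + r * k').toNat, ?_, z', g1, g2, Or.inr ?_⟩
      · have e : (((s' + r * k').toNat : ℕ) : ℤ) ≤ ((2 * r * k' : ℕ) : ℤ) := by
          rw [Int.toNat_of_nonneg (by linarith [h7.1])]
          push_cast
          nlinarith [h7.2]
        exact_mod_cast e
      · funext u
        rw [Int.toNat_of_nonneg (by linarith [h7.1])]
        have e : s' + (r : ℤ) * k' - r * k' = s' := by ring
        rw [e]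
        exact sub_eq_zero.1 (g3 u)
  · rintro ⟨k, hk, -, s, -, z, hz0, hzs, hz⟩
    have hzf : Fs z := ⟨(Fintype.card A) ^ (2 * (r * bd (Fintype.card A))), fun u hu => by
      have := hzs u hu
      rw [abs_le]
      constructor <;> linarith [this.1, this.2]⟩
    refine sol_of_per (z := z) ?_ hzf hk ?_
    · rintro rfl; exact hz0 rfl
    · rcases hz with hz | hz
      · exact Or.inl hz
      · exact Or.inr ⟨_, hz⟩

/-- constant lists -/
def rep {α : Type} (n : ℕ) (a : α) : List α := (List.range n).map fun _ => a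

theorem rep_length {α : Type} (n : ℕ) (a : α) : (rep n a).length = n := by
  rw [rep, List.length_map, List.length_range]

theorem rep_getD (n i : ℕ) (_a : A) : (rep n (0 : A)).getD i 0 = 0 := by
  rw [rep, List.getD_eq_getElem?_getD, List.getElem?_map]
  cases (List.range n)[i]? <;> rfl

theorem rep_map {α β : Type} (f : α → β) (n : ℕ) (a : α) : (rep n a).map f = rep n (f a) := by
  rw [rep, rep, List.map_map]; rfl

/-- the configuration given by a list -/
def cfg (a : ℤ) (w : List A) : ℤ → A := fun i => if a ≤ i then w.getD (i - a).toNat 0 else 0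

theorem rep_app_getD (n i : ℕ) (w : List A) :
    (rep n (0 : A) ++ w).getD i 0 = if n ≤ i then w.getD (i - n) 0 else 0 := by
  by_cases hi : n ≤ i
  · rw [if_pos hi, List.getD_append_right _ _ _ _ (by rw [rep_length]; exact hi), rep_length]
  · rw [if_neg hi, List.getD_append _ _ _ _ (by rw [rep_length]; omega), rep_getD n i 0]

/-- one step on lists -/
def stepS (r : ℕ) (h : ℕ → (A →+ A)) (w : List A) : List A :=
  (List.range (w.length + 2 * r)).map fun i => (List.range (2 * r + 1)).foldl
    (fun acc j => acc + h j ((rep (2 * r) 0 ++ w).getD (i + j) 0)) 0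

theorem foldl_sum (f : ℕ → A) (n : ℕ) :
    (List.range n).foldl (fun acc j => acc + f j) 0 = ∑ j ∈ Finset.range n, f j := by
  induction n with
  | zero => rfl
  | succ n ih =>
    rw [List.range_succ, List.foldl_append, ih, Finset.sum_range_succ]; rfl

theorem stepS_length (w : List A) : (stepS r h w).length = w.length + 2 * r := by
  rw [stepS, List.length_map, List.length_range]

theorem ca_cfg (a : ℤ) (w : List A) : ca r h (cfg a w) = cfg (a - r) (stepS r h w) := by
  funext i
  rw [ca_apply, cfg]
  by_cases hi : a - r ≤ i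
  · rw [if_pos hi]
    by_cases hi2 : (i - (a - r)).toNat < w.length + 2 * r
    · rw [List.getD_eq_getElem _ _ (by rw [stepS_length]; exact hi2)]
      simp only [stepS, List.getElem_map, List.getElem_range]
      rw [foldl_sum]
      refine Finset.sum_congr rfl fun j _ => ?_
      rw [rep_app_getD]
      congr 1
      by_cases hj : 2 * r ≤ (i - (a - r)).toNat + j
      · rw [if_pos hj, cfg, if_pos (by omega)]
        congr 1; omega
      · rw [if_neg hj, cfg, if_neg (by omega)]
    · rw [List.getD_eq_default _ _ (by rw [stepS_length]; omega)]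
      refine Finset.sum_eq_zero fun j hj => ?_
      rw [cfg, List.getD_eq_default _ _ (by omega), ite_self, map_zero]
  · rw [if_neg hi]
    refine Finset.sum_eq_zero fun j hj => ?_
    rw [Finset.mem_range] at hj
    rw [cfg, if_neg (by omega), map_zero]

theorem iter_cfg (n : ℕ) (a : ℤ) (w : List A) :
    (ca r h)^[n] (cfg a w) = cfg (a - r * n) ((stepS r h)^[n] w) := by
  induction n with
  | zero =>
    rw [Nat.cast_zero, mul_zero, sub_zero]; rfl
  | succ n ih =>
    rw [Function.iterate_succ_apply', Function.iterate_succ_apply', ih, ca_cfg]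
    congr 1; push_cast; ring

theorem iter_length (n : ℕ) (w : List A) : ((stepS r h)^[n] w).length = w.length + 2 * r * n := by
  induction n with
  | zero => rfl
  | succ n ih => rw [Function.iterate_succ_apply', stepS_length, ih]; ring

theorem cfg_inj {a : ℤ} {u v : List A} (hl : u.length = v.length) (huv : cfg a u = cfg a v) :
    u = v := by
  refine List.ext_getElem hl fun n h1 h2 => ?_
  have h3 := congrFun huv (a + n)
  rw [cfg, cfg, if_pos (by omega), if_pos (by omega)] at h3
  have e : (a + n - a).toNat = n := by omega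
  rw [e, List.getD_eq_getElem _ _ h1, List.getD_eq_getElem _ _ h2] at h3
  exact h3

theorem cfg_rep (a : ℤ) (n : ℕ) : cfg a (rep n (0 : A)) = 0 := by
  funext i
  rw [cfg, rep_getD n _ 0, ite_self]; rfl

theorem cfg_pad (b : ℤ) (s q : ℕ) (w : List A) :
    cfg b (rep s 0 ++ w ++ rep q 0) = cfg (b + s) w := by
  funext i
  rw [List.append_assoc]
  unfold cfg
  by_cases hi : b ≤ i
  · rw [if_pos hi, rep_app_getD]
    by_cases h2 : s ≤ (i - b).toNat
    · rw [if_pos h2, if_pos (by omega)]
      have e : (i - b).toNat - s = (i - (b + s)).toNat := by omega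
      rw [e]
      by_cases h3 : (i - (b + s)).toNat < w.length
      · rw [List.getD_append _ _ _ _ h3]
      · rw [List.getD_append_right _ _ _ _ (by omega), rep_getD q _ 0,
          List.getD_eq_default _ _ (by omega)]
    · rw [if_neg h2, if_neg (by omega)]
  · rw [if_neg hi, if_neg (by omega)]

theorem shf_cfg (t a : ℤ) (w : List A) : shf t (cfg a w) = cfg (a + t) w := by
  funext i
  change cfg a w (i - t) = cfg (a + t) w i
  unfold cfg
  by_cases hi : a ≤ i - t
  · rw [if_pos hi, if_pos (by omega)]
    congr 1; congr 1; ring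
  · rw [if_neg hi, if_neg (by omega)]

theorem zero_iff (k : ℕ) (w : List A) : (ca r h)^[k] (cfg 0 w) = 0 ↔
    (stepS r h)^[k] w = rep (w.length + 2 * r * k) 0 := by
  rw [iter_cfg]
  constructor
  · intro h1
    rw [← cfg_rep (0 - (r : ℤ) * k) (w.length + 2 * r * k)] at h1
    exact cfg_inj (by rw [iter_length, rep_length]) h1
  · intro h1
    rw [h1, cfg_rep]

theorem per_iff {k s : ℕ} (hs : s ≤ 2 * r * k) (w : List A) :
    (ca r h)^[k] (cfg 0 w) = shf ((s : ℤ) - r * k) (cfg 0 w) ↔
    (stepS r h)^[k] w = rep s 0 ++ w ++ rep (2 * r * k - s) 0 := by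
  rw [iter_cfg, shf_cfg]
  have e : (0 : ℤ) + (s - r * k) = (0 - r * k) + s := by ring
  rw [e, ← cfg_pad _ s (2 * r * k - s)]
  constructor
  · intro h1
    refine cfg_inj ?_ h1
    rw [iter_length, List.length_append, List.length_append, rep_length, rep_length]
    omega
  · intro h1
    rw [h1]

/-- the values on `0, …, L - 1` -/
def tab (z : ℤ → A) (L : ℕ) : List A := (List.range L).map fun i : ℕ => z (i : ℤ)

theorem cfg_of {z : ℤ → A} {L : ℕ} (hz : ∀ u, z u ≠ 0 → 0 ≤ u ∧ u < L) :
    cfg 0 (tab z L) = z := by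
  funext u
  unfold cfg tab
  by_cases hu : 0 ≤ u ∧ u < L
  · rw [if_pos hu.1, List.getD_eq_getElem _ _ (by
      rw [List.length_map, List.length_range]; omega), List.getElem_map, List.getElem_range]
    congr 1; omega
  · have h0 : z u = 0 := by
      by_contra h0
      exact hu (hz u h0)
    rw [h0]
    by_cases h1 : 0 ≤ u
    · rw [if_pos h1, List.getD_eq_default]
      rw [List.length_map, List.length_range]; omega
    · rw [if_neg h1]

/-- the search, on lists over the group -/
theorem sol_iff_list [Fintype A] : Sol (ca r h) ↔ ∃ k, k < bd (Fintype.card A) + 1 ∧ 1 ≤ k ∧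
    ∃ s : ℕ, s < 2 * r * k + 1 ∧ ∃ w : List A,
      w.length = (Fintype.card A) ^ (2 * (r * bd (Fintype.card A))) ∧ (∃ a ∈ w, a ≠ 0) ∧
      ((stepS r h)^[k] w = rep (w.length + 2 * r * k) 0 ∨
        (stepS r h)^[k] w = rep s 0 ++ w ++ rep (2 * r * k - s) 0) := by
  constructor
  · intro hs
    obtain ⟨k, hk1, hk2, s, hs, z, hz0, hzs, hz⟩ := sol_iff.1 hs
    refine ⟨k, by omega, hk1, s, by omega,
      tab z ((Fintype.card A) ^ (2 * (r * bd (Fintype.card A)))), ?_, ?_, ?_⟩
    · rw [tab, List.length_map, List.length_range]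
    · exact ⟨z 0, List.mem_map.2 ⟨0, List.mem_range.2 (by exact_mod_cast (hzs 0 hz0).2), rfl⟩, hz0⟩
    · rw [← zero_iff, ← per_iff hs, cfg_of hzs]
      exact hz
  · rintro ⟨k, hk1, hk2, s, hs, w, hw, ⟨a, haw, ha⟩, hz⟩
    rw [← zero_iff, ← per_iff (by omega)] at hz
    refine sol_of_per (z := cfg 0 w) ?_ ?_ hk2 ?_
    · intro h0
      apply ha
      obtain ⟨n, hn, rfl⟩ := List.mem_iff_getElem.1 haw
      have h1 := congrFun h0 n
      rw [cfg, if_pos (by omega), sub_zero, Int.toNat_natCast, List.getD_eq_getElem _ _ hn] at h1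
      exact h1
    · refine ⟨w.length, fun u hu => ?_⟩
      unfold cfg at hu
      by_cases h1 : 0 ≤ u
      · rw [if_pos h1] at hu
        by_cases h2 : (u - 0).toNat < w.length
        · rw [abs_le]; constructor <;> omega
        · rw [List.getD_eq_default _ _ (by omega)] at hu
          exact absurd rfl hu
      · rw [if_neg h1] at hu
        exact absurd rfl hu
    · rcases hz with hz | hz
      · exact Or.inl hz
      · exact Or.inr ⟨_, hz⟩

end Search

end Pool.Agent.V11259.Sol
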