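import Pool.Agent.V11259.SolF
import Pool.Agent.V11259.DefD

/-!
# The search is primitive recursive
-/

namespace Pool.Agent.V11259.Sol

open Primrec

/-- table lookup -/
def lk (T : List (List ℕ)) (a b : ℕ) : ℕ := (T.getD a []).getD b 0

/-- radius, addition table, tables of the endomorphisms -/
abbrev Code := ℕ × List (List ℕ) × List (List ℕ)

/-- one step of the automaton, on lists of numbers -/
def stepC (I : Code) (e : ℕ) (w : List ℕ) : List ℕ :=
  (List.range (w.length + 2 * I.1)).map fun i => (List.range (2 * I.1 + 1)).foldl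
    (fun acc j => lk I.2.1 acc (lk I.2.2 j (((rep (2 * I.1) e ++ w)[i + j]?).getD e))) e

/-- the innermost test -/
def body (w : List ℕ) (b : ((Code × ℕ) × ℕ) × ℕ) : Prop :=
  (∃ a ∈ w, a ≠ b.1.1.2) ∧
    ((stepC b.1.1.1 b.1.1.2)^[b.1.2] w = rep (w.length + 2 * b.1.1.1.1 * b.1.2) b.1.1.2 ∨
      (stepC b.1.1.1 b.1.1.2)^[b.1.2] w =
        rep b.2 b.1.1.2 ++ w ++ rep (2 * b.1.1.1.1 * b.1.2 - b.2) b.1.1.2)

/-- the decision predicate -/
def Dec (I : Code) : Prop :=
  ∃ e ∈ List.range I.2.1.length, lk I.2.1 e e = e ∧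
    ∃ k ∈ List.range (bd I.2.1.length + 1), 1 ≤ k ∧
      ∃ s ∈ List.range (2 * I.1 * k + 1),
        ∃ w ∈ Def.allW (List.range I.2.1.length)
          (I.2.1.length ^ (2 * (I.1 * bd I.2.1.length))), body w (((I, e), k), s)

section Correct

variable {A : Type} [AddCommGroup A] {r : ℕ} {h : ℕ → (A →+ A)}

theorem foldl_enc (enc : A → ℕ) {T H : List (List ℕ)}
    (hT : ∀ a b, lk T (enc a) (enc b) = enc (a + b))
    (hH : ∀ j < 2 * r + 1, ∀ a, lk H j (enc a) = enc (h j a)) (w : List A) (i : ℕ)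
    (L : List ℕ) (hL : ∀ j ∈ L, j < 2 * r + 1) : ∀ acc : A,
    L.foldl (fun acc j => lk T acc
      (lk H j (((rep (2 * r) (enc 0) ++ w.map enc)[i + j]?).getD (enc 0)))) (enc acc) =
    enc (L.foldl (fun acc j => acc + h j ((rep (2 * r) 0 ++ w).getD (i + j) 0)) acc) := by
  induction L with
  | nil => intro acc; rfl
  | cons j L ih =>
    intro acc
    rw [List.foldl_cons, List.foldl_cons]
    have e : ((rep (2 * r) (enc 0) ++ w.map enc)[i + j]?).getD (enc 0) =
        enc ((rep (2 * r) 0 ++ w).getD (i + j) 0) := by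
      rw [← rep_map enc, ← List.map_append, List.getElem?_map, List.getD_eq_getElem?_getD]
      cases (rep (2 * r) 0 ++ w)[i + j]? <;> rfl
    rw [e, hH j (hL j List.mem_cons_self), hT]
    exact ih (fun j hj => hL j (List.mem_cons_of_mem _ hj)) _

theorem step_enc (enc : A → ℕ) {T H : List (List ℕ)}
    (hT : ∀ a b, lk T (enc a) (enc b) = enc (a + b))
    (hH : ∀ j < 2 * r + 1, ∀ a, lk H j (enc a) = enc (h j a)) (w : List A) :
    stepC (r, T, H) (enc 0) (w.map enc) = (stepS r h w).map enc := by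
  rw [stepC, stepS, List.map_map, List.length_map]
  refine List.map_congr_left fun i _ => ?_
  exact foldl_enc enc hT hH w i _ (fun j hj => List.mem_range.1 hj) 0

theorem iter_enc (enc : A → ℕ) {T H : List (List ℕ)}
    (hT : ∀ a b, lk T (enc a) (enc b) = enc (a + b))
    (hH : ∀ j < 2 * r + 1, ∀ a, lk H j (enc a) = enc (h j a)) (w : List A) (n : ℕ) :
    (stepC (r, T, H) (enc 0))^[n] (w.map enc) = ((stepS r h)^[n] w).map enc := by
  induction n with
  | zero => rfl
  | succ n ih =>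
    rw [Function.iterate_succ_apply', Function.iterate_succ_apply', ih, step_enc enc hT hH]

theorem dec_iff [Fintype A] (enc : A → ℕ) (henc : Function.Injective enc)
    (hlt : ∀ a, enc a < Fintype.card A) (hsur : ∀ n < Fintype.card A, ∃ a, enc a = n)
    {T H : List (List ℕ)} (hl : T.length = Fintype.card A)
    (hT : ∀ a b, lk T (enc a) (enc b) = enc (a + b))
    (hH : ∀ j < 2 * r + 1, ∀ a, lk H j (enc a) = enc (h j a)) :
    Dec (r, T, H) ↔ Sol (ca r h) := by
  rw [sol_iff_list]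
  have hmap : ∀ u v : List A, u.map enc = v.map enc ↔ u = v := fun u v =>
    (List.map_injective_iff.2 henc).eq_iff
  have hbody : ∀ (w : List A) (k s : ℕ), body (w.map enc) ((((r, T, H), enc 0), k), s) ↔
      (∃ a ∈ w, a ≠ 0) ∧ ((stepS r h)^[k] w = rep (w.length + 2 * r * k) 0 ∨
        (stepS r h)^[k] w = rep s 0 ++ w ++ rep (2 * r * k - s) 0) := by
    intro w k s
    unfold body
    simp only
    rw [iter_enc enc hT hH, List.length_map, ← rep_map enc, ← rep_map enc, ← rep_map enc,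
      ← List.map_append, ← List.map_append, hmap, hmap]
    refine and_congr_left fun _ => ?_
    constructor
    · rintro ⟨a, ha, hne⟩
      obtain ⟨b, hb, rfl⟩ := List.mem_map.1 ha
      exact ⟨b, hb, fun h0 => hne (by rw [h0])⟩
    · rintro ⟨a, ha, hne⟩
      exact ⟨enc a, List.mem_map_of_mem ha, fun h0 => hne (henc h0)⟩
  unfold Dec
  simp only [List.mem_range, Def.mem_allW, hl]
  constructor
  · rintro ⟨e, he, hee, k, hk, hk1, s, hs, w, ⟨hw1, hw2⟩, hw3⟩
    obtain ⟨a, rfl⟩ := hsur e he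
    have ha : a = 0 := by
      rw [hT] at hee
      have := henc hee
      exact add_eq_left.1 this
    subst ha
    obtain ⟨w', rfl⟩ : ∃ w' : List A, w = w'.map enc := by
      clear hw3 hw1
      induction w with
      | nil => exact ⟨[], rfl⟩
      | cons b w ih =>
        obtain ⟨w', rfl⟩ := ih fun x hx => hw2 x (List.mem_cons_of_mem _ hx)
        obtain ⟨a, rfl⟩ := hsur b (hw2 b List.mem_cons_self)
        exact ⟨a :: w', rfl⟩
    rw [hbody] at hw3
    rw [List.length_map] at hw1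
    exact ⟨k, hk, hk1, s, hs, w', hw1, hw3⟩
  · rintro ⟨k, hk, hk1, s, hs, w, hw, hw2⟩
    refine ⟨enc 0, hlt 0, ?_, k, hk, hk1, s, hs, w.map enc, ⟨?_, ?_⟩, ?_⟩
    · rw [hT, add_zero]
    · rw [List.length_map, hw]
    · intro b hb
      obtain ⟨a, -, rfl⟩ := List.mem_map.1 hb
      exact hlt a
    · rw [hbody]; exact hw2

end Correct

section Prim

theorem primrec_pow : Primrec₂ fun m n : ℕ => m ^ n := by
  have h1 : Primrec₂ fun (m : ℕ) (n : ℕ) =>
      (Nat.rec 1 (fun _ q => q * m) n : ℕ) :=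
    nat_rec (f := fun _ : ℕ => 1) (g := fun m q => q.2 * m) (const 1)
      (nat_mul.comp (snd.comp snd) fst)
  refine h1.of_eq fun m n => ?_
  induction n with
  | zero => rfl
  | succ n ih =>
    change (Nat.rec 1 (fun _ q => q * m) n : ℕ) * m = _
    rw [ih, pow_succ]

theorem primrec_bd : Primrec bd :=
  nat_mul.comp (nat_mul.comp (const 2) Primrec.id)
    (primrec_pow.comp Primrec.id (nat_mul.comp (const 2) Primrec.id))

theorem primrec_lk : Primrec fun x : List (List ℕ) × ℕ × ℕ => lk x.1 x.2.1 x.2.2 :=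
  (list_getD 0).comp ((list_getD []).comp fst (fst.comp snd)) (snd.comp snd)

theorem primrec_rep : Primrec₂ (rep : ℕ → ℕ → List ℕ) :=
  list_map (list_range.comp fst) (snd.comp fst)

/-- reading a padded list -/
def rdC (x : (Code × ℕ) × List ℕ) (n : ℕ) : ℕ := ((rep (2 * x.1.1.1) x.1.2 ++ x.2)[n]?).getD x.1.2

theorem primrec_rdC : Primrec₂ rdC := by
  have hr : Primrec fun x : ((Code × ℕ) × List ℕ) × ℕ => 2 * x.1.1.1.1 :=
    nat_mul.comp (const 2) (fst.comp (fst.comp (fst.comp fst)))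
  have he : Primrec fun x : ((Code × ℕ) × List ℕ) × ℕ => x.1.1.2 := snd.comp (fst.comp fst)
  have hl : Primrec fun x : ((Code × ℕ) × List ℕ) × ℕ => rep (2 * x.1.1.1.1) x.1.1.2 ++ x.1.2 :=
    list_append.comp (primrec_rep.comp hr he) (snd.comp fst)
  exact option_getD.comp (list_getElem?.comp hl snd) he

/-- table lookup, on triples -/
def lkp (x : List (List ℕ) × ℕ × ℕ) : ℕ := lk x.1 x.2.1 x.2.2

theorem primrec_lkp : Primrec lkp := primrec_lk

/-- the inner function -/
def inC (x : (Code × ℕ) × List ℕ) (i : ℕ) (q : ℕ × ℕ) : ℕ :=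
  lkp (x.1.1.2.1, q.1, lkp (x.1.1.2.2, q.2, rdC x (i + q.2)))

theorem hv' : Primrec fun z : (((Code × ℕ) × List ℕ) × ℕ) × (ℕ × ℕ) =>
      rdC z.1.1 (z.1.2 + z.2.2) :=
    primrec_rdC.comp (fst.comp fst) (nat_add.comp (snd.comp fst) (snd.comp snd))

theorem ha' : Primrec fun z : (((Code × ℕ) × List ℕ) × ℕ) × (ℕ × ℕ) => z.1.1.1.1.2.2 := 
    snd.comp (snd.comp (fst.comp (fst.comp (fst.comp fst))))

theorem hb' : Primrec fun z : (((Code × ℕ) × List ℕ) × ℕ) × (ℕ × ℕ) => z.1.1.1.1.2.1 := 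
    fst.comp (snd.comp (fst.comp (fst.comp (fst.comp fst))))

theorem hin' : Primrec fun z : (((Code × ℕ) × List ℕ) × ℕ) × (ℕ × ℕ) =>
      lkp (z.1.1.1.1.2.2, z.2.2, rdC z.1.1 (z.1.2 + z.2.2)) :=
    primrec_lkp.comp (pair ha' (pair (snd.comp snd) hv'))

theorem hout' : Primrec fun z : (((Code × ℕ) × List ℕ) × ℕ) × (ℕ × ℕ) =>
      lkp (z.1.1.1.1.2.1, z.2.1, lkp (z.1.1.1.1.2.2, z.2.2, rdC z.1.1 (z.1.2 + z.2.2))) :=
    primrec_lkp.comp (pair hb' (pair (fst.comp snd) hin'))

theorem primrec_inC :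
    Primrec fun z : (((Code × ℕ) × List ℕ) × ℕ) × (ℕ × ℕ) => inC z.1.1 z.1.2 z.2 := 
  hout'

/-- the sum -/
def foC (x : (Code × ℕ) × List ℕ) (i : ℕ) : ℕ :=
  (List.range (2 * x.1.1.1 + 1)).foldl (fun acc j => inC x i (acc, j)) x.1.2

theorem primrec_foC : Primrec₂ foC := by
  have hr : Primrec fun x : ((Code × ℕ) × List ℕ) × ℕ => List.range (2 * x.1.1.1.1 + 1) :=
    list_range.comp (succ.comp (nat_mul.comp (const 2) (fst.comp (fst.comp (fst.comp fst)))))
  have he : Primrec fun x : ((Code × ℕ) × List ℕ) × ℕ => x.1.1.2 := snd.comp (fst.comp fst)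
  exact list_foldl (h := fun (x : ((Code × ℕ) × List ℕ) × ℕ) (q : ℕ × ℕ) => inC x.1 x.2 q)
    hr he primrec_inC

theorem stepC_eq (x : (Code × ℕ) × List ℕ) :
    stepC x.1.1 x.1.2 x.2 = (List.range (x.2.length + 2 * x.1.1.1)).map (foC x) := rfl

theorem primrec_stepC : Primrec fun x : (Code × ℕ) × List ℕ => stepC x.1.1 x.1.2 x.2 := by
  have hr : Primrec fun x : (Code × ℕ) × List ℕ => List.range (x.2.length + 2 * x.1.1.1) :=
    list_range.comp (nat_add.comp (list_length.comp snd)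
      (nat_mul.comp (const 2) (fst.comp (fst.comp fst))))
  have h : Primrec fun x : (Code × ℕ) × List ℕ =>
      (List.range (x.2.length + 2 * x.1.1.1)).map (foC x) := list_map hr primrec_foC
  exact h.of_eq fun x => (stepC_eq x).symm

theorem primrec_body : PrimrecRel body := by
  have hne : PrimrecRel fun (w : List ℕ) (e : ℕ) => ∃ a ∈ w, a ≠ e :=
    PrimrecRel.exists_mem_list (R := fun a e : ℕ => a ≠ e) (Primrec.eq (α := ℕ)).not
  have hit : Primrec fun x : List ℕ × (((Code × ℕ) × ℕ) × ℕ) =>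
      (stepC x.2.1.1.1 x.2.1.1.2)^[x.2.1.2] x.1 :=
    nat_iterate (f := fun x : List ℕ × (((Code × ℕ) × ℕ) × ℕ) => x.2.1.2)
      (g := fun x => x.1) (h := fun x w => stepC x.2.1.1.1 x.2.1.1.2 w)
      (snd.comp (fst.comp snd)) fst
      (primrec_stepC.comp (pair (fst.comp (fst.comp (snd.comp fst))) snd))
  have hrk : Primrec fun x : List ℕ × (((Code × ℕ) × ℕ) × ℕ) => 2 * x.2.1.1.1.1 * x.2.1.2 :=
    nat_mul.comp (nat_mul.comp (const 2) (fst.comp (fst.comp (fst.comp (fst.comp snd)))))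
      (snd.comp (fst.comp snd))
  have he : Primrec fun x : List ℕ × (((Code × ℕ) × ℕ) × ℕ) => x.2.1.1.2 :=
    snd.comp (fst.comp (fst.comp snd))
  refine PrimrecPred.and ?_ (PrimrecPred.or ?_ ?_)
  · exact hne.comp fst he
  · exact Primrec.eq.comp hit
      (primrec_rep.comp (nat_add.comp (list_length.comp fst) hrk) he)
  · exact Primrec.eq.comp hit (list_append.comp
      (list_append.comp (primrec_rep.comp (snd.comp snd) he) fst)
      (primrec_rep.comp (nat_sub.comp hrk (snd.comp snd)) he))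

theorem primrec_Dec : PrimrecPred Dec := by
  have hm : Primrec fun I : Code => I.2.1.length := list_length.comp (fst.comp snd)
  have hL : Primrec fun I : Code => Def.allW (List.range I.2.1.length)
      (I.2.1.length ^ (2 * (I.1 * bd I.2.1.length))) :=
    Def.primrec_allW.comp (list_range.comp hm) (primrec_pow.comp hm
      (nat_mul.comp (const 2) (nat_mul.comp fst (primrec_bd.comp hm))))
  have h1 : PrimrecPred fun b : ((Code × ℕ) × ℕ) × ℕ =>
      ∃ w ∈ Def.allW (List.range b.1.1.1.2.1.length)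
        (b.1.1.1.2.1.length ^ (2 * (b.1.1.1.1 * bd b.1.1.1.2.1.length))), body w b :=
    (PrimrecRel.exists_mem_list primrec_body).comp (hL.comp (fst.comp (fst.comp fst))) Primrec.id
  have h2 : PrimrecRel fun (s : ℕ) (b : (Code × ℕ) × ℕ) =>
      ∃ w ∈ Def.allW (List.range b.1.1.2.1.length)
        (b.1.1.2.1.length ^ (2 * (b.1.1.1 * bd b.1.1.2.1.length))), body w (b, s) :=
    h1.comp (pair snd fst)
  have h3 : PrimrecPred fun b : (Code × ℕ) × ℕ => ∃ s ∈ List.range (2 * b.1.1.1 * b.2 + 1),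
      ∃ w ∈ Def.allW (List.range b.1.1.2.1.length)
        (b.1.1.2.1.length ^ (2 * (b.1.1.1 * bd b.1.1.2.1.length))), body w (b, s) :=
    (PrimrecRel.exists_mem_list h2).comp (list_range.comp (succ.comp
      (nat_mul.comp (nat_mul.comp (const 2) (fst.comp (fst.comp fst))) snd))) Primrec.id
  have h4 : PrimrecRel fun (k : ℕ) (b : Code × ℕ) => 1 ≤ k ∧
      ∃ s ∈ List.range (2 * b.1.1 * k + 1),
      ∃ w ∈ Def.allW (List.range b.1.2.1.length)
        (b.1.2.1.length ^ (2 * (b.1.1 * bd b.1.2.1.length))), body w ((b, k), s) :=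
    PrimrecPred.and (nat_le.comp (const 1) fst) (h3.comp (pair snd fst))
  have h5 : PrimrecPred fun b : Code × ℕ => ∃ k ∈ List.range (bd b.1.2.1.length + 1), 1 ≤ k ∧
      ∃ s ∈ List.range (2 * b.1.1 * k + 1),
      ∃ w ∈ Def.allW (List.range b.1.2.1.length)
        (b.1.2.1.length ^ (2 * (b.1.1 * bd b.1.2.1.length))), body w ((b, k), s) :=
    (PrimrecRel.exists_mem_list h4).comp (list_range.comp (succ.comp
      (primrec_bd.comp (hm.comp fst)))) Primrec.id
  have h6 : PrimrecRel fun (e : ℕ) (I : Code) => lk I.2.1 e e = e ∧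
      ∃ k ∈ List.range (bd I.2.1.length + 1), 1 ≤ k ∧
      ∃ s ∈ List.range (2 * I.1 * k + 1),
      ∃ w ∈ Def.allW (List.range I.2.1.length)
        (I.2.1.length ^ (2 * (I.1 * bd I.2.1.length))), body w (((I, e), k), s) :=
    PrimrecPred.and (Primrec.eq.comp (primrec_lk.comp
      (pair (fst.comp (snd.comp snd)) (pair fst fst))) fst) (h5.comp (pair snd fst))
  exact (PrimrecRel.exists_mem_list h6).comp (list_range.comp hm) Primrec.id

end Prim

end Pool.Agent.V11259.Sol
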